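import Pool.Agent.Lib.MP_092512_nt.P3.B0
import Pool.Agent.Lib.MP_7b7e48_nt.GT.FL1

/-!
# P3 part B, module B4: Chinese remainder theorem for the conditions

PROOF of `crt_shift`: induction on `s` (`Finset.induction_on`) for `∃ ρ < ∏ i ∈ s, r i, ∀ n, (∀ i ∈ s, r i ∣ n + h i) ↔
n % (∏ i ∈ s, r i) = ρ`: empty: product 1, `ρ = 0` (`Nat.mod_one`); `insert a s`: `r a ∣ n + h a ↔ n % r a = ngc (h a) (r a)`
(`ngc_iff`), the moduli `r a` and `∏ i ∈ s, r i` are coprime (`Nat.Coprime.prod_right`), take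
`ρ = Nat.chineseRemainder hcop (ngc (h a) (r a)) ρ'` (`Nat.chineseRemainder_lt_mul`, and
`Nat.modEq_and_modEq_iff_modEq_mul`, `Nat.mod_mod_of_dvd`).
PROOF of `crt_classes`: `T = (range (∏ p ∈ d, p)).filter (fun c => ∀ p ∈ d, c % p ∈ Ω p)` has `∏ |Ω p|` elements
(`GT.card_crt`); `C = T.image (fun c => Nat.chineseRemainder hcop c ρ)`, injective because the value determines
`c = value % ∏ p`; `n % (D R) ∈ C` iff `n % D ∈ T` and `n % R = ρ`, and `n % D ∈ T` iff `∀ p ∈ d, n % p ∈ Ω p`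
(`Nat.mod_mod_of_dvd`, `Finset.dvd_prod_of_mem`).
PROOF of `classes`: combine (`s = univ`).
-/

set_option autoImplicit false

open Finset Pool.Agent.Lib.SW Pool.Agent.Lib.GT

namespace Pool.Agent.Lib.MP_092512_nt.P3.B

theorem B4_shift {k : ℕ} (h r : Fin k → ℕ) (hr : ∀ i, 1 ≤ r i) (hc : PC r) (s : Finset (Fin k)) :
    ∃ ρ < ∏ i ∈ s, r i, ∀ n : ℕ, (∀ i ∈ s, r i ∣ n + h i) ↔ n % (∏ i ∈ s, r i) = ρ := by
  classical
  induction s using Finset.induction_on with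
  | empty => exact ⟨0, by simp, fun n => by simp [Nat.mod_one]⟩
  | insert a s ha ih =>
    obtain ⟨ρ', hρ', h'⟩ := ih
    have hra := hr a
    have hcop : Nat.Coprime (r a) (∏ i ∈ s, r i) := by
      apply Nat.Coprime.prod_right
      intro i hi
      exact hc a i (fun e => ha (e ▸ hi))
    have hpos : 0 < ∏ i ∈ s, r i := prod_pos fun i _ => hr i
    rw [prod_insert ha]
    refine ⟨Nat.chineseRemainder hcop (ngc (h a) (r a)) ρ', Nat.chineseRemainder_lt_mul hcop _ _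
      (by omega) (by omega), fun n => ?_⟩
    have hcr := (Nat.chineseRemainder hcop (ngc (h a) (r a)) ρ').2
    have hlt := Nat.chineseRemainder_lt_mul hcop (ngc (h a) (r a)) ρ' (by omega) (by omega)
    rw [forall_mem_insert, h' n]
    have e1 : (r a ∣ n + h a) ↔ n ≡ (Nat.chineseRemainder hcop (ngc (h a) (r a)) ρ' : ℕ) [MOD r a] := by
      rw [← ngc_iff (by omega : 0 < r a)]
      unfold Nat.ModEq
      have h1 : (Nat.chineseRemainder hcop (ngc (h a) (r a)) ρ' : ℕ) % r a = ngc (h a) (r a) := by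
        have h2 := hcr.1
        unfold Nat.ModEq at h2
        rw [h2, Nat.mod_eq_of_lt (ngc_lt _ (by omega))]
      rw [h1]
    have e2 : (n % (∏ i ∈ s, r i) = ρ') ↔
        n ≡ (Nat.chineseRemainder hcop (ngc (h a) (r a)) ρ' : ℕ) [MOD ∏ i ∈ s, r i] := by
      unfold Nat.ModEq
      have h1 : (Nat.chineseRemainder hcop (ngc (h a) (r a)) ρ' : ℕ) % (∏ i ∈ s, r i) = ρ' := by
        have h2 := hcr.2
        unfold Nat.ModEq at h2
        rw [h2, Nat.mod_eq_of_lt hρ']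
      rw [h1]
    rw [e1, e2, Nat.modEq_and_modEq_iff_modEq_mul hcop]
    unfold Nat.ModEq
    rw [Nat.mod_eq_of_lt hlt]

theorem crt_shift {k : ℕ} (h r : Fin k → ℕ) (hr : ∀ i, 1 ≤ r i) (hc : PC r) :
    ∃ ρ < ∏ i, r i, ∀ n : ℕ, (∀ i, r i ∣ n + h i) ↔ n % (∏ i, r i) = ρ := by
  obtain ⟨ρ, h1, h2⟩ := B4_shift h r hr hc univ
  refine ⟨ρ, h1, fun n => ?_⟩
  rw [← h2 n]
  simp

theorem crt_classes (d : Finset ℕ) (hd : ∀ p ∈ d, p.Prime) (Ω : ℕ → Finset ℕ)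
    (hΩ : ∀ p ∈ d, ∀ c ∈ Ω p, c < p) (R ρ : ℕ) (hR : 0 < R) (hρ : ρ < R)
    (hc : ∀ p ∈ d, Nat.Coprime p R) :
    ∃ C : Finset ℕ, C ⊆ range ((∏ p ∈ d, p) * R) ∧ C.card = ∏ p ∈ d, (Ω p).card ∧
      ∀ n : ℕ, ((∀ p ∈ d, n % p ∈ Ω p) ∧ n % R = ρ) ↔ n % ((∏ p ∈ d, p) * R) ∈ C := by
  classical
  set D := ∏ p ∈ d, p with hD
  have hD0 : 0 < D := prod_pos fun p hp => (hd p hp).pos
  have hcop : Nat.Coprime D R := Nat.Coprime.prod_left hc
  set T := (range D).filter (fun c => ∀ p ∈ d, c % p ∈ Ω p) with hT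
  have hTc : T.card = ∏ p ∈ d, (Ω p).card := card_crt d hd Ω hΩ
  have hcr : ∀ c, ((Nat.chineseRemainder hcop c ρ : ℕ) % D = c % D) ∧
      ((Nat.chineseRemainder hcop c ρ : ℕ) % R = ρ) := by
    intro c
    have h1 := (Nat.chineseRemainder hcop c ρ).2
    refine ⟨h1.1, ?_⟩
    have h2 := h1.2
    unfold Nat.ModEq at h2
    rw [h2, Nat.mod_eq_of_lt hρ]
  have hlt : ∀ c, (Nat.chineseRemainder hcop c ρ : ℕ) < D * R := fun c =>
    Nat.chineseRemainder_lt_mul hcop c ρ (by omega) (by omega)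
  have hsat : ∀ n, (∀ p ∈ d, n % p ∈ Ω p) ↔ n % D ∈ T := by
    intro n
    rw [hT, mem_filter, mem_range]
    have h1 : ∀ p ∈ d, n % D % p = n % p := fun p hp => Nat.mod_mod_of_dvd n (dvd_prod_of_mem _ hp)
    constructor
    · intro h2
      refine ⟨Nat.mod_lt _ hD0, fun p hp => ?_⟩
      rw [h1 p hp]
      exact h2 p hp
    · rintro ⟨_, h2⟩ p hp
      rw [← h1 p hp]
      exact h2 p hp
  refine ⟨T.image (fun c => (Nat.chineseRemainder hcop c ρ : ℕ)), ?_, ?_, ?_⟩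
  · intro m hm
    rw [mem_image] at hm
    obtain ⟨c, _, rfl⟩ := hm
    exact mem_range.mpr (hlt c)
  · rw [card_image_of_injOn, hTc]
    intro c hc1 c' hc2 he
    rw [mem_coe, hT, mem_filter, mem_range] at hc1 hc2
    simp only at he
    have h1 := (hcr c).1
    have h2 := (hcr c').1
    rw [he, h2, Nat.mod_eq_of_lt hc1.1, Nat.mod_eq_of_lt hc2.1] at h1
    exact h1.symm
  · intro n
    rw [hsat, mem_image]
    constructor
    · rintro ⟨h1, h2⟩
      refine ⟨n % D, h1, ?_⟩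
      have h3 : (Nat.chineseRemainder hcop (n % D) ρ : ℕ) ≡ n [MOD D * R] := by
        rw [← Nat.modEq_and_modEq_iff_modEq_mul hcop]
        constructor
        · unfold Nat.ModEq
          rw [(hcr (n % D)).1, Nat.mod_mod]
        · unfold Nat.ModEq
          rw [(hcr (n % D)).2, h2]
      unfold Nat.ModEq at h3
      rw [Nat.mod_eq_of_lt (hlt _)] at h3
      exact h3
    · rintro ⟨c, hc1, hc2⟩
      have h1 : n % D = c := by
        have h2 : n % (D * R) % D = n % D := Nat.mod_mod_of_dvd n (Dvd.intro _ rfl)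
        rw [← h2, ← hc2, (hcr c).1]
        rw [hT, mem_filter, mem_range] at hc1
        exact Nat.mod_eq_of_lt hc1.1
      have h3 : n % R = ρ := by
        have h2 : n % (D * R) % R = n % R := Nat.mod_mod_of_dvd n (Dvd.intro_left _ rfl)
        rw [← h2, ← hc2, (hcr c).2]
      exact ⟨by rw [h1]; exact hc1, h3⟩

theorem classes {k : ℕ} (h r : Fin k → ℕ) (hr : ∀ i, 1 ≤ r i) (hc : PC r)
    (d : Finset ℕ) (hd : ∀ p ∈ d, p.Prime) (Ω : ℕ → Finset ℕ)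
    (hΩ : ∀ p ∈ d, ∀ c ∈ Ω p, c < p) (hcd : ∀ p ∈ d, ∀ i, Nat.Coprime p (r i)) :
    ∃ C : Finset ℕ, C ⊆ range (qq d r) ∧ C.card = ∏ p ∈ d, (Ω p).card ∧
      ∀ n : ℕ, ((∀ p ∈ d, n % p ∈ Ω p) ∧ ∀ i, r i ∣ n + h i) ↔ n % (qq d r) ∈ C := by
  obtain ⟨ρ, h1, h2⟩ := crt_shift h r hr hc
  obtain ⟨C, h3, h4, h5⟩ := crt_classes d hd Ω hΩ (∏ i, r i) ρ (prod_pos fun i _ => hr i) h1
    (fun p hp => Nat.Coprime.prod_right fun i _ => hcd p hp i)
  refine ⟨C, h3, h4, fun n => ?_⟩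
  rw [h2 n]
  exact h5 n

end Pool.Agent.Lib.MP_092512_nt.P3.B
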