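import Pool.Agent.Lib.MP_092512_nt.P3.Defs

/-!
# P3 part B, module B0: residue classes of the shifts (definitions, basic facts)

`pz z`: primes `≤ z`.  `ngc a p`: the class of `-a` modulo `p`.  `Om h p`: classes of `-h i`.
`Oe h i0 p = Om h p` without the class of `-h i0`.
`qq d r = ∏_{p ∈ d} p * ∏_i r i`;  `PC r`: the `r i` are pairwise coprime.

PROOFS.  `ngc_lt`: `Nat.mod_lt`.  `ngc_iff`: `n + a ≡ 0 mod p` iff `n % p = (p - a % p) % p` (omega does not
know `%` by a variable: use `Nat.dvd_iff_mod_eq_zero`, `Nat.add_mod`; the file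
`Pool/Agent/Lib/MP_7b7e48_nt/GT/Corr.lean` has `mod_eq_negd` with the same definition, copy it).
`card_Om`: `ngc a p = ngc b p ↔ a % p = b % p` (for `0 < p`), hence the two images have the same cardinality
(`Finset.card_image_iff` is not needed: the map `c ↦ (p - c) % p` is injective on `range p`, and
`Om h p = (univ.image (fun i => h i % p)).image (fun c => (p - c) % p)`).
`Oe_card`: `ngc (h i0) p ∈ Om h p`, `card_erase_of_mem`.
`cop_iff`: `Nat.Coprime a (primorial z) ↔ ∀ p ∈ pz z, ¬ p ∣ a` (`primorial` is the product of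
`(range (z+1)).filter Nat.Prime`; `Nat.Coprime.prod_right`, `Nat.Prime.coprime_iff_not_dvd`).
`all_iff`: from `cop_iff` and `ngc_iff`.
`erase_iff`: if `n + h i0` is coprime to the primorial, then (all `n + h i`, `i ≠ i0`, coprime) iff
`n % p ∉ Oe h i0 p` for all `p ∈ pz z` (the class `ngc (h i0) p` is excluded anyway).
-/

set_option autoImplicit false

open Finset Pool.Agent.Lib.SW

namespace Pool.Agent.Lib.MP_092512_nt.P3.B

def pz (z : ℕ) : Finset ℕ := (Icc 1 z).filter Nat.Prime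

def ngc (a p : ℕ) : ℕ := (p - a % p) % p

def Om {k : ℕ} (h : Fin k → ℕ) (p : ℕ) : Finset ℕ := univ.image (fun i => ngc (h i) p)

def Oe {k : ℕ} (h : Fin k → ℕ) (i0 : Fin k) (p : ℕ) : Finset ℕ := (Om h p).erase (ngc (h i0) p)

def qq {k : ℕ} (d : Finset ℕ) (r : Fin k → ℕ) : ℕ := (∏ p ∈ d, p) * ∏ i, r i

def PC {k : ℕ} (r : Fin k → ℕ) : Prop := ∀ i j, i ≠ j → Nat.Coprime (r i) (r j)

theorem mem_pz {z p : ℕ} : p ∈ pz z ↔ p.Prime ∧ p ≤ z := by
  unfold pz
  rw [mem_filter, mem_Icc]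
  constructor
  · rintro ⟨⟨_, h2⟩, h3⟩
    exact ⟨h3, h2⟩
  · rintro ⟨h1, h2⟩
    exact ⟨⟨h1.one_lt.le, h2⟩, h1⟩

theorem ngc_lt (a : ℕ) {p : ℕ} (hp : 0 < p) : ngc a p < p := Nat.mod_lt _ hp

theorem ngc_iff {a n p : ℕ} (hp : 0 < p) : n % p = ngc a p ↔ p ∣ n + a := by
  unfold ngc
  have ha := Nat.mod_lt a hp
  have hn := Nat.mod_lt n hp
  rw [Nat.dvd_iff_mod_eq_zero, Nat.add_mod]
  rcases Nat.eq_zero_or_pos (a % p) with h | h
  · rw [h, Nat.sub_zero, Nat.mod_self, Nat.add_zero, Nat.mod_mod]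
  · rw [Nat.mod_eq_of_lt (by omega : p - a % p < p)]
    constructor
    · intro h1
      rw [h1, show p - a % p + a % p = p by omega, Nat.mod_self]
    · intro h1
      have h2 : n % p + a % p < 2 * p := by omega
      rcases Nat.lt_or_ge (n % p + a % p) p with h3 | h3
      · rw [Nat.mod_eq_of_lt h3] at h1
        omega
      · rw [Nat.mod_eq_sub_mod h3, Nat.mod_eq_of_lt (by omega)] at h1
        omega

theorem Om_lt {k : ℕ} (h : Fin k → ℕ) {p : ℕ} (hp : 0 < p) : ∀ c ∈ Om h p, c < p := by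
  intro c hc
  unfold Om at hc
  rw [mem_image] at hc
  obtain ⟨i, _, rfl⟩ := hc
  exact ngc_lt _ hp

theorem Oe_lt {k : ℕ} (h : Fin k → ℕ) (i0 : Fin k) {p : ℕ} (hp : 0 < p) : ∀ c ∈ Oe h i0 p, c < p := by
  intro c hc
  exact Om_lt h hp c (mem_of_mem_erase hc)

theorem card_Om {k : ℕ} (h : Fin k → ℕ) {p : ℕ} (hp : 0 < p) : (Om h p).card = nuh h univ p := by
  unfold Om nuh
  have h1 : (univ.image (fun i => ngc (h i) p)) =
      (univ.image (fun i => h i % p)).image (fun c => (p - c) % p) := by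
    rw [image_image]
    rfl
  rw [h1, card_image_of_injOn]
  intro c hc d hd hcd
  rw [mem_coe, mem_image] at hc hd
  obtain ⟨i, _, rfl⟩ := hc
  obtain ⟨j, _, rfl⟩ := hd
  have hi := Nat.mod_lt (h i) hp
  have hj := Nat.mod_lt (h j) hp
  simp only at hcd ⊢
  rcases Nat.eq_zero_or_pos (h i % p) with h2 | h2 <;> rcases Nat.eq_zero_or_pos (h j % p) with h3 | h3
  · rw [h2, h3]
  · rw [h2, Nat.sub_zero, Nat.mod_self, Nat.mod_eq_of_lt (by omega : p - h j % p < p)] at hcd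
    omega
  · rw [h3, Nat.sub_zero, Nat.mod_self, Nat.mod_eq_of_lt (by omega : p - h i % p < p)] at hcd
    omega
  · rw [Nat.mod_eq_of_lt (by omega : p - h i % p < p),
      Nat.mod_eq_of_lt (by omega : p - h j % p < p)] at hcd
    omega

theorem card_Oe {k : ℕ} (h : Fin k → ℕ) (i0 : Fin k) {p : ℕ} (hp : 0 < p) :
    ((Oe h i0 p).card : ℝ) = (nuh h univ p : ℝ) - 1 := by
  have h1 : ngc (h i0) p ∈ Om h p := by
    unfold Om
    exact mem_image_of_mem _ (mem_univ i0)
  unfold Oe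
  rw [card_erase_of_mem h1, ← card_Om h hp]
  have h2 : 1 ≤ (Om h p).card := card_pos.mpr ⟨_, h1⟩
  rw [Nat.cast_sub h2, Nat.cast_one]

theorem card_Om_le {k : ℕ} (h : Fin k → ℕ) (p : ℕ) : (Om h p).card ≤ k := by
  unfold Om
  refine card_image_le.trans ?_
  simp

theorem card_Oe_le {k : ℕ} (h : Fin k → ℕ) (i0 : Fin k) (p : ℕ) : (Oe h i0 p).card ≤ k :=
  (card_le_card (erase_subset _ _)).trans (card_Om_le h p)

theorem cop_iff {a z : ℕ} : Nat.Coprime a (primorial z) ↔ ∀ p ∈ pz z, ¬ p ∣ a := by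
  unfold primorial
  rw [Nat.coprime_prod_right_iff]
  constructor
  · intro h1 p hp
    rw [mem_pz] at hp
    have h2 := h1 p (mem_filter.mpr ⟨mem_range.mpr (by omega), hp.1⟩)
    exact (Nat.Prime.coprime_iff_not_dvd hp.1).mp h2.symm
  · intro h1 p hp
    rw [mem_filter, mem_range] at hp
    exact ((Nat.Prime.coprime_iff_not_dvd hp.2).mpr (h1 p (mem_pz.mpr ⟨hp.2, by omega⟩))).symm

theorem all_iff {k : ℕ} (h : Fin k → ℕ) (n z : ℕ) :
    (∀ i, Nat.Coprime (n + h i) (primorial z)) ↔ ∀ p ∈ pz z, n % p ∉ Om h p := by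
  constructor
  · intro h1 p hp h2
    unfold Om at h2
    rw [mem_image] at h2
    obtain ⟨i, _, h3⟩ := h2
    have hp0 := (mem_pz.mp hp).1.pos
    exact cop_iff.mp (h1 i) p hp ((ngc_iff hp0).mp h3.symm)
  · intro h1 i
    rw [cop_iff]
    intro p hp h2
    have hp0 := (mem_pz.mp hp).1.pos
    refine h1 p hp ?_
    rw [(ngc_iff hp0).mpr h2]
    unfold Om
    exact mem_image_of_mem _ (mem_univ i)

theorem erase_iff {k : ℕ} (h : Fin k → ℕ) (i0 : Fin k) (n z : ℕ)
    (h0 : Nat.Coprime (n + h i0) (primorial z)) :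
    (∀ i ≠ i0, Nat.Coprime (n + h i) (primorial z)) ↔ ∀ p ∈ pz z, n % p ∉ Oe h i0 p := by
  constructor
  · intro h1 p hp h2
    have h3 : ∀ i, Nat.Coprime (n + h i) (primorial z) := by
      intro i
      by_cases hi : i = i0
      · rw [hi]
        exact h0
      · exact h1 i hi
    exact (all_iff h n z).mp h3 p hp (mem_of_mem_erase h2)
  · intro h1 i _
    have h3 : ∀ p ∈ pz z, n % p ∉ Om h p := by
      intro p hp h4
      have hp0 := (mem_pz.mp hp).1.pos
      refine h1 p hp ?_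
      unfold Oe
      rw [mem_erase]
      refine ⟨?_, h4⟩
      intro h5
      exact cop_iff.mp h0 p hp ((ngc_iff hp0).mp h5)
    exact (all_iff h n z).mpr h3 i

end Pool.Agent.Lib.MP_092512_nt.P3.B
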