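import Pool.Agent.Lib.MP_092512_nt.P3.B0
import Pool.Agent.Lib.MP_7b7e48_nt.GT.FL3

/-!
# P3 part B, module B1: truncated inclusion-exclusion (Bonferroni)

PROOF of `trunc_ind`.  Put `Bn = P.filter (fun p => n % p ∈ Ω p)`.  The indicator is `if Bn = ∅ then 1 else 0`
(`filter_eq_empty_iff`), the truncated sum is `∑ d ∈ Bn.powerset with d.card ≤ m, (-1)^d.card`
(`GT.trunc_eq`), the right side is `∑ d ∈ Bn.powerset with d.card = m + 1, 1` (`GT.top_eq`); then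
`GT.bonf_lower` and `GT.bonf_upper` (m even): `0 ≤ trunc - ind ≤ top`.
PROOF of `stepA`.  Write the first sum as `∑ n ∈ Ioc, ind n * w n`, the second (after `sum_comm`, `mul_sum`) as
`∑ n ∈ Ioc, trunc n * w n`; the difference is at most `∑ n ∈ Ioc, top n * M = M * ∑ d (card = m+1) #{n ∈ Ioc x (2x) :
∀ p ∈ d, n % p ∈ Ω p}`; `Ioc x (2x) = Ico (x+1) (x+1+x)` and `GT.abs_card_sub_le` give `#≤ x ∏ |Ω|/p + ∏ |Ω|`, and
`∏ |Ω| = ∏ |Ω|/p * ∏ p ≤ x ∏ |Ω|/p` by `hprod`; so the total is `≤ M * ∑ (card = m+1) 2 x ∏ |Ω|/p`, and `tail_sum`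
(module B2, imported) finishes (`card = m+1` implies `m+1 ≤ card`).
-/

set_option autoImplicit false

open Finset Pool.Agent.Lib.SW Pool.Agent.Lib.GT

namespace Pool.Agent.Lib.MP_092512_nt.P3.B

theorem trunc_ind (P : Finset ℕ) (Ω : ℕ → Finset ℕ) (m n : ℕ) (hm : Even m) :
    |(if ∀ p ∈ P, n % p ∉ Ω p then (1 : ℝ) else 0) -
        ∑ d ∈ P.powerset with d.card ≤ m, ((-1 : ℝ) ^ d.card * if ∀ p ∈ d, n % p ∈ Ω p then 1 else 0)| ≤
      ∑ d ∈ P.powerset with d.card = m + 1, (if ∀ p ∈ d, n % p ∈ Ω p then (1 : ℝ) else 0) := by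
  classical
  rw [trunc_eq, top_eq]
  have h1 : (if ∀ p ∈ P, n % p ∉ Ω p then (1 : ℝ) else 0) =
      (if P.filter (fun r => n % r ∈ Ω r) = ∅ then (1 : ℝ) else 0) := by
    by_cases h : ∀ p ∈ P, n % p ∉ Ω p
    · rw [if_pos h, if_pos]
      rw [filter_eq_empty_iff]
      exact fun p hp => h p hp
    · rw [if_neg h, if_neg]
      rw [filter_eq_empty_iff]
      exact fun h2 => h fun p hp => h2 hp
  rw [h1]
  have h2 := bonf_lower (P.filter (fun r => n % r ∈ Ω r)) m hm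
  have h3 := bonf_upper (P.filter (fun r => n % r ∈ Ω r)) m hm
  rw [abs_le]
  constructor
  · linarith
  · have h4 : (0 : ℝ) ≤ ∑ d ∈ (P.filter (fun r => n % r ∈ Ω r)).powerset with d.card = m + 1, (1 : ℝ) :=
      sum_nonneg fun _ _ => zero_le_one
    linarith

end Pool.Agent.Lib.MP_092512_nt.P3.B
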