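import Pool.Agent.Lib.MP_092512_nt.P3.BH
import Pool.Agent.Lib.SW.TS.TS5

/-!
# P3 part B, module B10: `VH` and `VH'`

PROOF of `VH_Om`: `card_Om`, `prod_congr`.  PROOF of `VH'_Oe`: `card_Oe` (`k > 0` not needed: `i0` is given).
PROOF of the bounds: every factor lies in `[0,1]`: `0 ≤ ν ≤ p`, resp. `1 ≤ ν ≤ p` (`k > 0`), `p ≥ 2`
(`Finset.prod_nonneg`, `Finset.prod_le_one`).
PROOF of `VH_eq`: `TS5_V` and `prod_mul_distrib`: `(1 - 1/p)(1 - (ν-1)/(p-1)) = 1 - ν/p` (`field_simp; ring`; true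
without `k > 0`).
-/

set_option autoImplicit false

open Finset Pool.Agent.Lib.SW

namespace Pool.Agent.Lib.MP_092512_nt.P3.B

theorem VH_Om {k : ℕ} (h : Fin k → ℕ) (z : ℕ) : VH h z = ∏ p ∈ pz z, (1 - ((Om h p).card : ℝ) / p) := by
  unfold VH pz
  refine prod_congr rfl fun p hp => ?_
  rw [card_Om h (mem_filter.1 hp).2.pos]

theorem VH'_Oe {k : ℕ} (h : Fin k → ℕ) (i0 : Fin k) (z : ℕ) :
    VH' h z = ∏ p ∈ pz z, (1 - ((Oe h i0 p).card : ℝ) / ((p : ℝ) - 1)) := by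
  unfold VH' pz
  refine prod_congr rfl fun p hp => ?_
  rw [card_Oe h i0 (mem_filter.1 hp).2.pos]

private theorem B10_nu_le {k : ℕ} (h : Fin k → ℕ) {p : ℕ} (hp : 0 < p) : nuh h univ p ≤ p := by
  unfold nuh
  have h1 : univ.image (fun i => h i % p) ⊆ range p := by
    intro c hc
    rw [mem_image] at hc
    obtain ⟨i, _, rfl⟩ := hc
    exact mem_range.2 (Nat.mod_lt _ hp)
  have h2 := card_le_card h1
  rwa [card_range] at h2

private theorem B10_nu_pos {k : ℕ} (hk : 0 < k) (h : Fin k → ℕ) (p : ℕ) : 1 ≤ nuh h univ p := by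
  unfold nuh
  rw [Nat.one_le_iff_ne_zero, Ne, card_eq_zero]
  intro h1
  have h2 : h ⟨0, hk⟩ % p ∈ univ.image (fun i => h i % p) := mem_image_of_mem _ (mem_univ _)
  rw [h1] at h2
  exact absurd h2 (notMem_empty _)

theorem VH_bd {k : ℕ} (h : Fin k → ℕ) (z : ℕ) : 0 ≤ VH h z ∧ VH h z ≤ 1 := by
  have key : ∀ p ∈ (Icc 1 z).filter Nat.Prime,
      0 ≤ 1 - (nuh h univ p : ℝ) / p ∧ 1 - (nuh h univ p : ℝ) / p ≤ 1 := by
    intro p hp
    have hp0 : 0 < p := (mem_filter.1 hp).2.pos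
    have hp' : (0 : ℝ) < p := by exact_mod_cast hp0
    have h1 : (nuh h univ p : ℝ) ≤ p := by exact_mod_cast B10_nu_le h hp0
    have h2 : (nuh h univ p : ℝ) / p ≤ 1 := (div_le_one hp').2 h1
    have h3 : (0 : ℝ) ≤ (nuh h univ p : ℝ) / p := by positivity
    exact ⟨by linarith, by linarith⟩
  unfold VH
  exact ⟨prod_nonneg fun p hp => (key p hp).1, prod_le_one (fun p hp => (key p hp).1) fun p hp => (key p hp).2⟩

theorem VH'_bd {k : ℕ} (hk : 0 < k) (h : Fin k → ℕ) (z : ℕ) : 0 ≤ VH' h z ∧ VH' h z ≤ 1 := by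
  have key : ∀ p ∈ (Icc 1 z).filter Nat.Prime,
      0 ≤ 1 - ((nuh h univ p : ℝ) - 1) / ((p : ℝ) - 1) ∧ 1 - ((nuh h univ p : ℝ) - 1) / ((p : ℝ) - 1) ≤ 1 := by
    intro p hp
    have hp1 : 1 < p := (mem_filter.1 hp).2.one_lt
    have hp' : (0 : ℝ) < (p : ℝ) - 1 := by
      have : (1 : ℝ) < p := by exact_mod_cast hp1
      linarith
    have h1 : (nuh h univ p : ℝ) ≤ p := by exact_mod_cast B10_nu_le h (by omega : 0 < p)
    have h0 : (1 : ℝ) ≤ nuh h univ p := by exact_mod_cast B10_nu_pos hk h p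
    have h2 : ((nuh h univ p : ℝ) - 1) / ((p : ℝ) - 1) ≤ 1 := (div_le_one hp').2 (by linarith)
    have h3 : (0 : ℝ) ≤ ((nuh h univ p : ℝ) - 1) / ((p : ℝ) - 1) := div_nonneg (by linarith) hp'.le
    exact ⟨by linarith, by linarith⟩
  unfold VH'
  exact ⟨prod_nonneg fun p hp => (key p hp).1, prod_le_one (fun p hp => (key p hp).1) fun p hp => (key p hp).2⟩

theorem VH_eq (k : ℕ) (hk : 0 < k) (h : Fin k → ℕ) (z : ℕ) : VH h z = Vz z * VH' h z := by
  rw [TS5_V]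
  unfold VH VH'
  rw [← prod_mul_distrib]
  refine prod_congr rfl fun p hp => ?_
  have hp1 : 1 < p := (mem_filter.1 hp).2.one_lt
  have hp0 : (p : ℝ) ≠ 0 := by
    have : (1 : ℝ) < p := by exact_mod_cast hp1
    linarith
  have hp' : (p : ℝ) - 1 ≠ 0 := by
    have : (1 : ℝ) < p := by exact_mod_cast hp1
    linarith
  field_simp
  ring

end Pool.Agent.Lib.MP_092512_nt.P3.B
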