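import Pool.Agent.Lib.MP_092512_nt.P3.BH
import Pool.Agent.Lib.SW.TS.TS5

/-!
# P3 part B, module B11: lower bound for `VH` (admissible tuples)

PROOF.  `k = 0`: both sides are products; `VH = 1`, `Vz^0 = 1`, c = 1.  `k ≥ 1`:  for every prime `1 - ν/p ≥ 1/p`
(`hadm`: `ν ≤ p - 1`) and `(1-1/p)^k ≤ 1`, so `1 - ν/p ≥ (1/p) (1 - 1/p)^k`.
For `p > 4 k²`, with `u = 1/p`, `a = k u ≤ 1/4`: `1 - ν/p ≥ 1 - a`, and `(1-u)^k ≤ 1 - a + a²` (induction on k: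
`(1-u)^k ≤ 1 - k u + k² u²` for `0 ≤ u ≤ 1`, `k u ≤ 1`), and `(1-2a²)(1-a+a²) = 1 - a - a² + 2a³ - 2a⁴ ≤ 1 - a`; so
`1 - ν/p ≥ (1 - 2 k²/p²) (1-1/p)^k`.  And `∏_{4k² < p ≤ z} (1 - 2k²/p²) ≥ 1 - ∑_{n ∈ Ioc (4k²) z} 2k²/n² ≥
1 - 2k²/(4k²) = 1/2` (`∏ (1 - a) ≥ 1 - ∑ a` by induction / Mathlib `Finset.prod_one_sub...`;
`sum_Ioc_inv_sq_le_sub`).  Take `c = (1/2) ∏_{p ∈ pz (4k²)} (1/p)`; for `z ≤ 4k²` the product over `pz z` of `1/p` is
`≥` the product over `pz (4k²)`.  `Vz z ^ k = ∏_{p ∈ pz z} (1 - 1/p)^k` by `TS5_V` and `Finset.prod_pow`.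
-/

set_option autoImplicit false

open Finset Pool.Agent.Lib.SW

namespace Pool.Agent.Lib.MP_092512_nt.P3.B

private theorem B11_pow (u : ℝ) (h0 : 0 ≤ u) (h1 : u ≤ 1) (k : ℕ) :
    (1 - u) ^ k ≤ 1 - k * u + (k * u) ^ 2 := by
  induction k with
  | zero => simp
  | succ k ih =>
    have h2 : (1 - u) ^ (k + 1) ≤ (1 - k * u + (k * u) ^ 2) * (1 - u) := by
      rw [pow_succ]
      exact mul_le_mul_of_nonneg_right ih (by linarith)
    refine le_trans h2 ?_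
    push_cast
    have hk : (0 : ℝ) ≤ (k : ℝ) := Nat.cast_nonneg _
    have h3 : (0 : ℝ) ≤ (k : ℝ) * u ^ 2 := by positivity
    have h4 : (0 : ℝ) ≤ (k : ℝ) ^ 2 * u ^ 3 := by positivity
    nlinarith [sq_nonneg u]

private theorem B11_prod (a : ℕ → ℝ) (U : Finset ℕ) (h : ∀ p ∈ U, 0 ≤ a p ∧ a p ≤ 1) :
    1 - ∑ p ∈ U, a p ≤ ∏ p ∈ U, (1 - a p) ∧ ∏ p ∈ U, (1 - a p) ≤ 1 := by
  induction U using Finset.induction_on with
  | empty => simp
  | insert q U hq ih =>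
    obtain ⟨h1, h2⟩ := ih (fun p hp => h p (Finset.mem_insert_of_mem hp))
    obtain ⟨h3, h4⟩ := h q (Finset.mem_insert_self q U)
    rw [Finset.sum_insert hq, Finset.prod_insert hq]
    have h5 : (0 : ℝ) ≤ ∏ p ∈ U, (1 - a p) :=
      Finset.prod_nonneg (fun p hp => by linarith [(h p (Finset.mem_insert_of_mem hp)).2])
    constructor
    · nlinarith
    · nlinarith

private theorem B11_big (k : ℕ) (p ν : ℝ) (hp : 1 < p) (hpk : 4 * (k : ℝ) ^ 2 < p) (hν : ν ≤ k) :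
    (1 - 2 * (k : ℝ) ^ 2 / p ^ 2) * (1 - 1 / p) ^ k ≤ 1 - ν / p ∧ 0 ≤ 2 * (k : ℝ) ^ 2 / p ^ 2 ∧
      2 * (k : ℝ) ^ 2 / p ^ 2 ≤ 1 := by
  have hp0 : 0 < p := by linarith
  have hu0 : (0 : ℝ) ≤ 1 / p := by positivity
  have hu1 : 1 / p ≤ 1 := by
    rw [div_le_one hp0]
    exact hp.le
  have h1 := B11_pow (1 / p) hu0 hu1 k
  have h2 : 2 * (k : ℝ) ^ 2 / p ^ 2 = 2 * ((k : ℝ) * (1 / p)) ^ 2 := by
    field_simp
  have ha0 : 0 ≤ (k : ℝ) * (1 / p) := by positivity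
  have ha1 : (k : ℝ) * (1 / p) ≤ 1 / 2 := by
    rw [mul_one_div, div_le_iff₀ hp0]
    rcases Nat.eq_zero_or_pos k with hk | hk
    · rw [hk]
      push_cast
      linarith
    · have hk1 : (1 : ℝ) ≤ (k : ℝ) := by exact_mod_cast hk
      nlinarith
  have h3 : 1 - (k : ℝ) * (1 / p) ≤ 1 - ν / p := by
    have h4 : ν / p ≤ (k : ℝ) / p := div_le_div_of_nonneg_right hν hp0.le
    rw [mul_one_div]
    linarith
  rw [h2]
  set a : ℝ := (k : ℝ) * (1 / p) with ha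
  have h5 : 0 ≤ 2 * a ^ 2 := by positivity
  have h6 : 2 * a ^ 2 ≤ 1 := by nlinarith
  refine ⟨?_, h5, h6⟩
  refine le_trans (mul_le_mul_of_nonneg_left h1 (by linarith)) (le_trans ?_ h3)
  nlinarith [mul_nonneg (sq_nonneg a) (add_nonneg (sq_nonneg (1 - a)) (sq_nonneg a))]

theorem VH_lower (k : ℕ) (h : Fin k → ℕ) (hinj : Function.Injective h)
    (hadm : ∀ p : ℕ, p.Prime → nuh h univ p < p) :
    ∃ c : ℝ, 0 < c ∧ ∀ z : ℕ, c * Vz z ^ k ≤ VH h z := by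
  have _ := hinj
  have hpos : ∀ p ∈ pz (4 * k ^ 2), (0 : ℝ) < 1 / (p : ℝ) := by
    intro p hp
    have h1 : (0 : ℝ) < (p : ℝ) := by exact_mod_cast (mem_pz.mp hp).1.pos
    positivity
  refine ⟨(∏ p ∈ pz (4 * k ^ 2), 1 / (p : ℝ)) * (1 / 2), mul_pos (Finset.prod_pos hpos) (by norm_num), ?_⟩
  intro z
  have hνk : ∀ p, nuh h univ p ≤ k := by
    intro p
    unfold nuh
    refine le_trans Finset.card_image_le (le_of_eq ?_)
    rw [Finset.card_univ, Fintype.card_fin]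
  -- pointwise bound
  have hpt : ∀ p ∈ pz z, (if p ≤ 4 * k ^ 2 then 1 / (p : ℝ) else 1 - 2 * (k : ℝ) ^ 2 / (p : ℝ) ^ 2) *
      (1 - 1 / (p : ℝ)) ^ k ≤ 1 - (nuh h univ p : ℝ) / p := by
    intro p hp
    have hpp := (mem_pz.mp hp).1
    have hp1 : (1 : ℝ) < (p : ℝ) := by exact_mod_cast hpp.one_lt
    have hp0 : (0 : ℝ) < (p : ℝ) := by linarith
    split_ifs with hle
    · have h1 : (nuh h univ p : ℝ) + 1 ≤ (p : ℝ) := by exact_mod_cast hadm p hpp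
      have h2 : 1 / (p : ℝ) ≤ 1 - (nuh h univ p : ℝ) / p := by
        rw [div_le_iff₀ hp0, sub_mul, div_mul_cancel₀ _ hp0.ne']
        linarith
      have h3 : (0 : ℝ) ≤ 1 - 1 / (p : ℝ) := by
        rw [sub_nonneg, div_le_one hp0]
        exact hp1.le
      have h4 : (1 - 1 / (p : ℝ)) ^ k ≤ 1 := by
        refine pow_le_one₀ h3 ?_
        have : (0 : ℝ) ≤ 1 / (p : ℝ) := by positivity
        linarith
      have h5 : (0 : ℝ) ≤ 1 / (p : ℝ) := by positivity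
      calc 1 / (p : ℝ) * (1 - 1 / (p : ℝ)) ^ k ≤ 1 / (p : ℝ) * 1 := mul_le_mul_of_nonneg_left h4 h5
        _ = 1 / (p : ℝ) := mul_one _
        _ ≤ _ := h2
    · have h1 : 4 * (k : ℝ) ^ 2 < (p : ℝ) := by
        have : 4 * k ^ 2 < p := not_le.mp hle
        exact_mod_cast this
      exact (B11_big k p (nuh h univ p) hp1 h1 (by exact_mod_cast hνk p)).1
  have hw0 : ∀ p ∈ pz z, 0 ≤ (if p ≤ 4 * k ^ 2 then 1 / (p : ℝ) else 1 - 2 * (k : ℝ) ^ 2 / (p : ℝ) ^ 2) := by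
    intro p hp
    have hpp := (mem_pz.mp hp).1
    have hp1 : (1 : ℝ) < (p : ℝ) := by exact_mod_cast hpp.one_lt
    have hp0 : (0 : ℝ) < (p : ℝ) := by linarith
    split_ifs with hle
    · positivity
    · have h1 : 4 * (k : ℝ) ^ 2 < (p : ℝ) := by
        have : 4 * k ^ 2 < p := not_le.mp hle
        exact_mod_cast this
      have h2 := (B11_big k p (nuh h univ p) hp1 h1 (by exact_mod_cast hνk p)).2.2
      linarith
  have hg0 : ∀ p ∈ pz z, (0 : ℝ) ≤ (1 - 1 / (p : ℝ)) ^ k := by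
    intro p hp
    have hpp := (mem_pz.mp hp).1
    have hp1 : (1 : ℝ) < (p : ℝ) := by exact_mod_cast hpp.one_lt
    have hp0 : (0 : ℝ) < (p : ℝ) := by linarith
    refine pow_nonneg ?_ _
    rw [sub_nonneg, div_le_one hp0]
    exact hp1.le
  have hVH : (∏ p ∈ pz z, (if p ≤ 4 * k ^ 2 then 1 / (p : ℝ) else 1 - 2 * (k : ℝ) ^ 2 / (p : ℝ) ^ 2)) * Vz z ^ k ≤
      VH h z := by
    rw [TS5_V, ← Finset.prod_pow]
    unfold VH
    have h1 : (Icc 1 z).filter Nat.Prime = pz z := rfl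
    rw [h1, ← Finset.prod_mul_distrib]
    exact Finset.prod_le_prod (fun p hp => mul_nonneg (hw0 p hp) (hg0 p hp)) hpt
  refine le_trans (mul_le_mul_of_nonneg_right ?_ (pow_nonneg (TS5_Vz_pos z).le k)) hVH
  rw [Finset.prod_ite]
  refine mul_le_mul ?_ ?_ (by norm_num) ?_
  · -- small primes
    have hsub : (pz z).filter (fun p => p ≤ 4 * k ^ 2) ⊆ pz (4 * k ^ 2) := by
      intro p hp
      rw [Finset.mem_filter] at hp
      exact mem_pz.mpr ⟨(mem_pz.mp hp.1).1, hp.2⟩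
    rw [← Finset.prod_sdiff hsub]
    have h1 : ∏ p ∈ pz (4 * k ^ 2) \ (pz z).filter (fun p => p ≤ 4 * k ^ 2), 1 / (p : ℝ) ≤ 1 := by
      refine Finset.prod_le_one (fun p hp => (hpos p (Finset.mem_sdiff.mp hp).1).le) (fun p hp => ?_)
      have h2 := (mem_pz.mp (Finset.mem_sdiff.mp hp).1).1
      have h3 : (1 : ℝ) ≤ (p : ℝ) := by exact_mod_cast h2.one_lt.le
      rw [div_le_one (by linarith)]
      exact h3
    have h2 : (0 : ℝ) ≤ ∏ p ∈ (pz z).filter (fun p => p ≤ 4 * k ^ 2), 1 / (p : ℝ) :=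
      Finset.prod_nonneg (fun p hp => (hpos p (hsub hp)).le)
    nlinarith
  · -- large primes
    have hU : ∀ p ∈ (pz z).filter (fun p => ¬ p ≤ 4 * k ^ 2), 0 ≤ 2 * (k : ℝ) ^ 2 / (p : ℝ) ^ 2 ∧
        2 * (k : ℝ) ^ 2 / (p : ℝ) ^ 2 ≤ 1 := by
      intro p hp
      rw [Finset.mem_filter] at hp
      have hpp := (mem_pz.mp hp.1).1
      have hp1 : (1 : ℝ) < (p : ℝ) := by exact_mod_cast hpp.one_lt
      have h1 : 4 * (k : ℝ) ^ 2 < (p : ℝ) := by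
        have : 4 * k ^ 2 < p := not_le.mp hp.2
        exact_mod_cast this
      exact (B11_big k p k hp1 h1 (le_refl _)).2
    refine le_trans ?_ (B11_prod (fun p => 2 * (k : ℝ) ^ 2 / (p : ℝ) ^ 2) _ hU).1
    have hsum : ∑ p ∈ (pz z).filter (fun p => ¬ p ≤ 4 * k ^ 2), 2 * (k : ℝ) ^ 2 / (p : ℝ) ^ 2 ≤ 1 / 2 := by
      rcases Nat.eq_zero_or_pos k with hk | hk
      · rw [hk]
        refine le_trans (le_of_eq (Finset.sum_eq_zero (fun p _ => ?_))) (by norm_num)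
        norm_num
      · have hsub : (pz z).filter (fun p => ¬ p ≤ 4 * k ^ 2) ⊆ Ioc (4 * k ^ 2) z := by
          intro p hp
          rw [Finset.mem_filter] at hp
          exact Finset.mem_Ioc.mpr ⟨not_le.mp hp.2, (mem_pz.mp hp.1).2⟩
        have hM : 4 * k ^ 2 ≠ 0 := by positivity
        rcases le_or_gt (4 * k ^ 2) z with hz | hz
        · have h1 : ∑ p ∈ (pz z).filter (fun p => ¬ p ≤ 4 * k ^ 2), 2 * (k : ℝ) ^ 2 / (p : ℝ) ^ 2 ≤
              ∑ p ∈ Ioc (4 * k ^ 2) z, 2 * (k : ℝ) ^ 2 / (p : ℝ) ^ 2 :=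
            Finset.sum_le_sum_of_subset_of_nonneg hsub (fun p _ _ => by positivity)
          have h2 : ∑ p ∈ Ioc (4 * k ^ 2) z, 2 * (k : ℝ) ^ 2 / (p : ℝ) ^ 2 =
              2 * (k : ℝ) ^ 2 * ∑ p ∈ Ioc (4 * k ^ 2) z, ((p : ℝ) ^ 2)⁻¹ := by
            rw [Finset.mul_sum]
            exact Finset.sum_congr rfl (fun p _ => div_eq_mul_inv _ _)
          have h3 : ∑ p ∈ Ioc (4 * k ^ 2) z, ((p : ℝ) ^ 2)⁻¹ ≤ ((4 * k ^ 2 : ℕ) : ℝ)⁻¹ - (z : ℝ)⁻¹ :=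
            sum_Ioc_inv_sq_le_sub hM hz
          have h4 : (0 : ℝ) ≤ (z : ℝ)⁻¹ := by positivity
          have hk0 : (0 : ℝ) < (k : ℝ) := by exact_mod_cast hk
          have h5 : 2 * (k : ℝ) ^ 2 * ((4 * k ^ 2 : ℕ) : ℝ)⁻¹ = 1 / 2 := by
            push_cast
            field_simp
            norm_num
          have h6 : 2 * (k : ℝ) ^ 2 * ∑ p ∈ Ioc (4 * k ^ 2) z, ((p : ℝ) ^ 2)⁻¹ ≤
              2 * (k : ℝ) ^ 2 * ((4 * k ^ 2 : ℕ) : ℝ)⁻¹ := by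
            refine mul_le_mul_of_nonneg_left ?_ (by positivity)
            linarith
          linarith
        · have h1 : (pz z).filter (fun p => ¬ p ≤ 4 * k ^ 2) = ∅ := by
            rw [Finset.eq_empty_iff_forall_notMem]
            intro p hp
            have := Finset.mem_Ioc.mp (hsub hp)
            omega
          rw [h1, Finset.sum_empty]
          norm_num
    linarith
  · exact Finset.prod_nonneg (fun p hp => by
      have h1 := (mem_pz.mp (Finset.mem_filter.mp hp).1).1.pos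
      have h2 : (0 : ℝ) < (p : ℝ) := by exact_mod_cast h1
      positivity)

end Pool.Agent.Lib.MP_092512_nt.P3.B
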