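import Pool.Agent.Lib.MP_092512_nt.P3.B0
import Pool.Agent.Lib.SW.TS.TS6

/-!
# P3 part B, module B2: tails of inclusion-exclusion sums (Rankin)

PROOF of `tail_sum`: `∏_{p ∈ d} g p ≤ T^{-M} ∏_{p ∈ d} (T g p)` for `M ≤ d.card` (`1 ≤ T`), and
`∑_{d ⊆ P} ∏ (T g p) = ∏_{p ∈ P} (1 + T g p) ≤ exp (T ∑ g)` (`Finset.prod_one_add`, `Real.add_one_le_exp`); copy the
calc of `SW.ts6_trunc` with 4 replaced by T.
PROOF of `trunc_prod`: `∏ (1 - g p) = ∑_{d ⊆ P} (-1)^d.card ∏ g` (as in `ts6_trunc`), the difference is minus the sum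
over `¬ d.card ≤ m`, i.e. `m + 1 ≤ d.card`, at most `tail_sum` in absolute value.
PROOF of `sum_pz`: `∑_{p ≤ z} 1/p ≤ 1 + log z` is `SW.ts6_recip 0 z` (`pr 0 z = pz z`, membership equal).
PROOF of `sum_low`: `SW.ts6_low P v _ (((k+1) * (z+1) : ℝ)) _ m 1`: `∑_{p ∈ pz z} v p ≤ k z`
(`(pz z).card ≤ z`), so the sum is at most `((k+1)(z+1))^m e ≤ ((k+2)(z+1))^(m+1)` if `1 ≤ z`
(`e ≤ 4 ≤ (k+2)(z+1)`).
-/

set_option autoImplicit false

open Finset Pool.Agent.Lib.SW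

namespace Pool.Agent.Lib.MP_092512_nt.P3.B

theorem tail_sum (P : Finset ℕ) (g : ℕ → ℝ) (hg : ∀ p ∈ P, 0 ≤ g p) (G T : ℝ)
    (hG : ∑ p ∈ P, g p ≤ G) (hT : 1 ≤ T) (M : ℕ) :
    ∑ d ∈ P.powerset with M ≤ d.card, ∏ p ∈ d, g p ≤ Real.exp (T * G) / T ^ M := by
  classical
  have hT0 : 0 < T := by linarith
  have h1 : ∀ d ∈ P.powerset.filter (fun d => M ≤ d.card), ∏ p ∈ d, g p ≤
      (∏ p ∈ d, (T * g p)) / T ^ M := by
    intro d hd
    rw [mem_filter, mem_powerset] at hd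
    rw [le_div_iff₀ (by positivity), prod_mul_distrib, prod_const, mul_comm]
    refine mul_le_mul_of_nonneg_right (pow_le_pow_right₀ hT hd.2) ?_
    exact prod_nonneg fun p hp => hg p (hd.1 hp)
  refine (sum_le_sum h1).trans ?_
  rw [← sum_div]
  refine div_le_div_of_nonneg_right ?_ (by positivity)
  calc ∑ d ∈ P.powerset.filter (fun d => M ≤ d.card), ∏ p ∈ d, (T * g p)
      ≤ ∑ d ∈ P.powerset, ∏ p ∈ d, (T * g p) := by
        apply sum_le_sum_of_subset_of_nonneg (filter_subset _ _)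
        intro d hd _
        rw [mem_powerset] at hd
        exact prod_nonneg fun p hp => mul_nonneg hT0.le (hg p (hd hp))
    _ = ∏ p ∈ P, (1 + T * g p) := by rw [prod_one_add]
    _ ≤ ∏ p ∈ P, Real.exp (T * g p) := by
        refine prod_le_prod (fun p hp => ?_) fun p _ => ?_
        · have := mul_nonneg hT0.le (hg p hp)
          linarith
        · have := Real.add_one_le_exp (T * g p)
          linarith
    _ = Real.exp (T * ∑ p ∈ P, g p) := by rw [← Real.exp_sum, mul_sum]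
    _ ≤ Real.exp (T * G) := Real.exp_le_exp.mpr (mul_le_mul_of_nonneg_left hG hT0.le)

theorem trunc_prod (P : Finset ℕ) (g : ℕ → ℝ) (hg : ∀ p ∈ P, 0 ≤ g p) (G T : ℝ)
    (hG : ∑ p ∈ P, g p ≤ G) (hT : 1 ≤ T) (m : ℕ) :
    |∑ d ∈ P.powerset with d.card ≤ m, ((-1 : ℝ) ^ d.card * ∏ p ∈ d, g p) - ∏ p ∈ P, (1 - g p)| ≤
      Real.exp (T * G) / T ^ (m + 1) := by
  classical
  have h1 : ∏ r ∈ P, (1 - g r) = ∑ d ∈ P.powerset, ((-1 : ℝ) ^ d.card * ∏ r ∈ d, g r) := by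
    have h2 : ∏ r ∈ P, (1 - g r) = ∏ r ∈ P, (1 + (-1) * g r) := by
      refine prod_congr rfl fun r _ => ?_
      ring
    rw [h2, prod_one_add]
    refine sum_congr rfl fun d _ => ?_
    rw [prod_mul_distrib, prod_const]
  have h3 := sum_filter_add_sum_filter_not P.powerset (fun d => d.card ≤ m)
    (fun d => ((-1 : ℝ) ^ d.card * ∏ r ∈ d, g r))
  rw [h1, ← h3, sub_add_cancel_left, abs_neg]
  refine (abs_sum_le_sum_abs _ _).trans ?_
  refine le_trans ?_ (tail_sum P g hg G T hG hT (m + 1))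
  have h4 : P.powerset.filter (fun d => ¬ d.card ≤ m) = P.powerset.filter (fun d => m + 1 ≤ d.card) := by
    ext d
    rw [mem_filter, mem_filter]
    constructor
    · rintro ⟨h5, h6⟩
      exact ⟨h5, by omega⟩
    · rintro ⟨h5, h6⟩
      exact ⟨h5, by omega⟩
  rw [h4]
  refine sum_le_sum fun d hd => ?_
  rw [mem_filter, mem_powerset] at hd
  have h5 : 0 ≤ ∏ r ∈ d, g r := prod_nonneg fun p hp => hg p (hd.1 hp)
  rw [abs_mul, abs_pow, abs_neg, abs_one, one_pow, one_mul, abs_of_nonneg h5]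

theorem sum_pz (z : ℕ) : ∑ p ∈ pz z, 1 / (p : ℝ) ≤ 1 + Real.log z := by
  have h := ts6_recip 0 z
  have h1 : pz z = pr 0 z := by
    ext p
    rw [mem_pz, mem_pr]
    constructor
    · rintro ⟨h1, h2⟩
      exact ⟨h1.pos, h2, h1⟩
    · rintro ⟨_, h2, h3⟩
      exact ⟨h3, h2⟩
  rw [h1]
  exact h

theorem sum_low (k z m : ℕ) (hz : 1 ≤ z) (v : ℕ → ℝ) (hv : ∀ p ∈ pz z, 0 ≤ v p ∧ v p ≤ k) :
    ∑ d ∈ (pz z).powerset with d.card ≤ m, ∏ p ∈ d, v p ≤ (((k : ℝ) + 2) * (z + 1)) ^ (m + 1) := by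
  have hz' : (1 : ℝ) ≤ z := by exact_mod_cast hz
  have hk0 : (0 : ℝ) ≤ k := Nat.cast_nonneg k
  have h1 : ∑ p ∈ pz z, v p ≤ 1 * (((k : ℝ) + 1) * (z + 1)) := by
    have h2 : ∑ p ∈ pz z, v p ≤ (pz z).card • (k : ℝ) := sum_le_card_nsmul _ _ _ fun p hp => (hv p hp).2
    have h3 : (pz z).card ≤ z := by
      unfold pz
      refine (card_filter_le _ _).trans ?_
      simp
    have h4 : ((pz z).card : ℝ) ≤ z := by exact_mod_cast h3
    rw [nsmul_eq_mul] at h2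
    nlinarith
  have h2 := ts6_low (pz z) v (fun p hp => (hv p hp).1) (((k : ℝ) + 1) * (z + 1)) (by nlinarith) m 1 h1
  refine h2.trans ?_
  rw [pow_succ]
  have h3 := Real.exp_one_lt_three
  refine mul_le_mul ?_ ?_ (Real.exp_pos _).le (by positivity)
  · refine pow_le_pow_left₀ (by positivity) ?_ m
    nlinarith
  · nlinarith

theorem B2_card (k : ℕ) (z : ℕ) (c : ℕ → ℕ) (hc : ∀ p, c p ≤ k) :
    ∑ p ∈ pz z, ((c p : ℕ) : ℝ) / ((p : ℝ) - 1) ≤ 2 * k * (1 + Real.log z) ∧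
      ∑ p ∈ pz z, ((c p : ℕ) : ℝ) / p ≤ 2 * k * (1 + Real.log z) := by
  have h1 : ∀ p ∈ pz z, ((c p : ℕ) : ℝ) / ((p : ℝ) - 1) ≤ 2 * k * (1 / (p : ℝ)) := by
    intro p hp
    have hp2 : (2 : ℝ) ≤ p := by exact_mod_cast (mem_pz.mp hp).1.two_le
    have hck : ((c p : ℕ) : ℝ) ≤ k := by exact_mod_cast hc p
    have hk0 : (0 : ℝ) ≤ k := Nat.cast_nonneg k
    rw [mul_one_div, div_le_div_iff₀ (by linarith) (by linarith)]
    have h2 : ((c p : ℕ) : ℝ) * p ≤ k * p := mul_le_mul_of_nonneg_right hck (by linarith)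
    nlinarith
  have h2 : ∑ p ∈ pz z, ((c p : ℕ) : ℝ) / ((p : ℝ) - 1) ≤ 2 * k * (1 + Real.log z) := by
    refine (sum_le_sum h1).trans ?_
    rw [← mul_sum]
    exact mul_le_mul_of_nonneg_left (sum_pz z) (by positivity)
  refine ⟨h2, le_trans (sum_le_sum fun p hp => ?_) h2⟩
  have hp2 : (2 : ℝ) ≤ p := by exact_mod_cast (mem_pz.mp hp).1.two_le
  exact div_le_div_of_nonneg_left (Nat.cast_nonneg _) (by linarith) (by linarith)

/-- sums of the densities of `Om` and `Oe` -/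
theorem sum_Om {k : ℕ} (h : Fin k → ℕ) (z : ℕ) :
    ∑ p ∈ pz z, ((Om h p).card : ℝ) / p ≤ 2 * k * (1 + Real.log z) :=
  (B2_card k z (fun p => (Om h p).card) (fun p => card_Om_le h p)).2

theorem sum_Oe {k : ℕ} (h : Fin k → ℕ) (i0 : Fin k) (z : ℕ) :
    ∑ p ∈ pz z, ((Oe h i0 p).card : ℝ) / ((p : ℝ) - 1) ≤ 2 * k * (1 + Real.log z) :=
  (B2_card k z (fun p => (Oe h i0 p).card) (fun p => card_Oe_le h i0 p)).1

theorem sum_Oe' {k : ℕ} (h : Fin k → ℕ) (i0 : Fin k) (z : ℕ) :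
    ∑ p ∈ pz z, ((Oe h i0 p).card : ℝ) / p ≤ 2 * k * (1 + Real.log z) :=
  (B2_card k z (fun p => (Oe h i0 p).card) (fun p => card_Oe_le h i0 p)).2

end Pool.Agent.Lib.MP_092512_nt.P3.B
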