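import Pool.Agent.Lib.MP_092512_nt.P3.B4

/-!
# P3 part B, module B5: counting, cross coprimality, opening the divisor sums

PROOF of `count_int`: `classes` gives `C`; the filtered set is the disjoint union over `c ∈ C` of
`{n ∈ Ioc x (2x) : n % q = c}` (`card_eq_sum_card_fiberwise` with `fun n => n % q`), each has `x/q + O(1)` elements
(`GT.abs_card_class` with `A = x+1`, `L = x`); `q = ∏ p * ∏ r i`, `|C| = ∏ |Ω p|`.
PROOF of `cross`: if a prime `p` divides `r i` and `r j` then `p` divides `(n + h i) - (n + h j)` in `ℤ`, nonzero by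
injectivity, so `p ≤ |h i - h j| < z`, `p ∈ pz z`, contradiction to `cop_iff` for `r i`.  (`Nat.Coprime` from
`Nat.Coprime` via `Nat.coprime_of_dvd` or `Nat.Prime.not_coprime_iff_dvd`.)
PROOF of `stepB`: for `n ∈ s`, `∑ r ∈ (n + h i).divisors, α i r = ∑ r ∈ Icc 1 (N i), if r ∣ n + h i then α i r else 0`
(both sides reduce to the terms with `α i r ≠ 0`); `Finset.prod_univ_sum`; the product of the indicators is the
indicator of `∀ i, r i ∣ n + h i`; `sum_comm`, `sum_filter`, `mul_sum`.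
-/

set_option autoImplicit false

open Finset Pool.Agent.Lib.SW Pool.Agent.Lib.GT

namespace Pool.Agent.Lib.MP_092512_nt.P3.B

theorem count_int {k : ℕ} (h r : Fin k → ℕ) (hr : ∀ i, 1 ≤ r i) (hc : PC r)
    (d : Finset ℕ) (hd : ∀ p ∈ d, p.Prime) (Ω : ℕ → Finset ℕ)
    (hΩ : ∀ p ∈ d, ∀ c ∈ Ω p, c < p) (hcd : ∀ p ∈ d, ∀ i, Nat.Coprime p (r i)) (x : ℕ) :
    |((((Ioc x (2 * x)).filter (fun n => (∀ p ∈ d, n % p ∈ Ω p) ∧ ∀ i, r i ∣ n + h i)).card : ℝ)) -
        x * ((∏ p ∈ d, ((Ω p).card : ℝ) / p) * ∏ i, 1 / (r i : ℝ))| ≤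
      ∏ p ∈ d, ((Ω p).card : ℝ) := by
  obtain ⟨C, hC1, hC2, hC3⟩ := classes h r hr hc d hd Ω hΩ hcd
  have hq : 0 < qq d r := by
    unfold qq
    exact Nat.mul_pos (prod_pos fun p hp => (hd p hp).pos) (prod_pos fun i _ => hr i)
  have hset : (Ioc x (2 * x)).filter (fun n => (∀ p ∈ d, n % p ∈ Ω p) ∧ ∀ i, r i ∣ n + h i) =
      (Ioc x (2 * x)).filter (fun n => n % (qq d r) ∈ C) :=
    filter_congr fun n _ => hC3 n
  rw [hset]
  have h1 : ((Ioc x (2 * x)).filter (fun n => n % (qq d r) ∈ C)).card =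
      ∑ c ∈ C, ((Ioc x (2 * x)).filter (fun n => n % (qq d r) = c)).card := by
    have h0 := card_eq_sum_card_fiberwise (s := (Ioc x (2 * x)).filter (fun n => n % (qq d r) ∈ C))
      (f := fun n => n % (qq d r)) (t := C) (fun n hn => (mem_filter.1 (mem_coe.1 hn)).2)
    rw [h0]
    refine sum_congr rfl fun c hc => ?_
    congr 1
    rw [filter_filter]
    refine filter_congr fun n _ => ?_
    constructor
    · exact fun h => h.2
    · intro h
      exact ⟨h ▸ hc, h⟩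
  have h2 : ∀ c ∈ C, |((((Ioc x (2 * x)).filter (fun n => n % (qq d r) = c)).card : ℝ)) - x / (qq d r : ℕ)| ≤ 1 := by
    intro c hc
    have h3 : Ioc x (2 * x) = Ico (x + 1) (x + 1 + x) := by
      ext n
      rw [mem_Ioc, mem_Ico]
      omega
    rw [h3]
    exact abs_card_class _ hq c (mem_range.1 (hC1 hc)) (x + 1) x
  have h4 : (x : ℝ) * ((∏ p ∈ d, ((Ω p).card : ℝ) / p) * ∏ i, 1 / (r i : ℝ)) =
      ∑ _c ∈ C, (x : ℝ) / (qq d r : ℕ) := by
    rw [sum_const, nsmul_eq_mul, hC2, prod_div_distrib, prod_div_distrib, prod_const_one]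
    unfold qq
    push_cast
    rw [div_mul_div_comm, mul_one]
    ring
  rw [h1, Nat.cast_sum, h4, ← sum_sub_distrib]
  refine (abs_sum_le_sum_abs _ _).trans ((sum_le_sum h2).trans (le_of_eq ?_))
  rw [sum_const, nsmul_eq_mul, mul_one, hC2, Nat.cast_prod]

theorem cross {k : ℕ} (h r : Fin k → ℕ) (hinj : Function.Injective h) (z : ℕ) (hz : ∀ i, h i < z)
    (hr : ∀ i, Nat.Coprime (r i) (primorial z)) (n : ℕ) (hn : ∀ i, r i ∣ n + h i) : PC r := by
  intro i j hij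
  refine Nat.coprime_of_dvd fun p hp h1 h2 => ?_
  have h3 : p ∣ n + h i := h1.trans (hn i)
  have h4 : p ∣ n + h j := h2.trans (hn j)
  have h5 : (p : ℤ) ∣ (h i : ℤ) - h j := by
    have h6 : (p : ℤ) ∣ ((n + h i : ℕ) : ℤ) := Int.natCast_dvd_natCast.2 h3
    have h7 : (p : ℤ) ∣ ((n + h j : ℕ) : ℤ) := Int.natCast_dvd_natCast.2 h4
    have h8 := dvd_sub h6 h7
    have h9 : ((n + h i : ℕ) : ℤ) - ((n + h j : ℕ) : ℤ) = (h i : ℤ) - h j := by
      push_cast
      ring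
    rwa [h9] at h8
  have h6 : (h i : ℤ) - h j ≠ 0 := by
    intro h7
    apply hij
    apply hinj
    omega
  have h7 := Int.le_of_dvd (abs_pos.2 h6) ((dvd_abs _ _).2 h5)
  have h8 := hz i
  have h9 := hz j
  have h10 : |(h i : ℤ) - h j| < z := by
    rw [abs_lt]
    constructor <;> omega
  exact cop_iff.1 (hr i) p (mem_pz.2 ⟨hp, by omega⟩) h1

theorem stepB {k : ℕ} (h : Fin k → ℕ) (α : Fin k → ℕ → ℝ) (N : Fin k → ℕ)
    (hα : ∀ i r, α i r ≠ 0 → 1 ≤ r ∧ r ≤ N i) (s : Finset ℕ) (hs : ∀ n ∈ s, 1 ≤ n) (u : ℕ → ℝ) :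
    ∑ n ∈ s, u n * ∏ i, ∑ r ∈ (n + h i).divisors, α i r =
      ∑ r ∈ Fintype.piFinset (fun i => Icc 1 (N i)), (∏ i, α i (r i)) *
        ∑ n ∈ s.filter (fun n => ∀ i, r i ∣ n + h i), u n := by
  have h1 : ∀ n ∈ s, ∀ i, ∑ r ∈ (n + h i).divisors, α i r =
      ∑ r ∈ Icc 1 (N i), if r ∣ n + h i then α i r else 0 := by
    intro n hn i
    rw [← sum_filter, ← sum_filter_ne_zero (s := (n + h i).divisors),
      ← sum_filter_ne_zero (s := (Icc 1 (N i)).filter _)]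
    refine sum_congr ?_ fun _ _ => rfl
    ext r
    simp only [mem_filter, Nat.mem_divisors, mem_Icc]
    have h2 := hs n hn
    constructor
    · rintro ⟨⟨h3, _⟩, h4⟩
      exact ⟨⟨hα i r h4, h3⟩, h4⟩
    · rintro ⟨⟨_, h3⟩, h4⟩
      exact ⟨⟨h3, by omega⟩, h4⟩
  have h2 : ∀ n ∈ s, u n * ∏ i, ∑ r ∈ (n + h i).divisors, α i r =
      ∑ r ∈ Fintype.piFinset (fun i => Icc 1 (N i)),
        if ∀ i, r i ∣ n + h i then (∏ i, α i (r i)) * u n else 0 := by
    intro n hn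
    rw [prod_congr rfl fun i _ => h1 n hn i, prod_univ_sum, mul_sum]
    refine sum_congr rfl fun r _ => ?_
    rw [prod_ite_zero]
    simp only [mem_univ, forall_const]
    rw [mul_ite, mul_zero, mul_comm]
  rw [sum_congr rfl h2, sum_comm]
  refine sum_congr rfl fun r _ => ?_
  rw [← sum_filter, mul_sum]

end Pool.Agent.Lib.MP_092512_nt.P3.B
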