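import Pool.Agent.Lib.MP_092512_nt.P3.BH
import Pool.Agent.Lib.MP_092512_nt.P3.B5
import Pool.Agent.Lib.MP_092512_nt.P3.B2

/-!
# P3 part B, module B12: evaluation of the truncated sum, all integers

PROOF of `int_T`.  Fix `d ⊆ pz z`, `d.card ≤ m` and `s = (Ioc x (2x)).filter (fun n => ∀ p ∈ d, n % p ∈ Om h p)`.
`stepB h α N … s … (fun _ => 1)` gives `∑ n ∈ s, ww h α n = ∑ r ∈ piFinset, (∏ α i (r i)) * #(s.filter …)`.
Claim for every `r ∈ piFinset`: `|(∏ α) # - (if PC r then (∏ α) x ∏|Om|/p ∏ 1/r i else 0)| ≤ ∏ |Om| * D^k`: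
if `∏ α = 0` both are 0; otherwise all `r i` are coprime to the primorial; if `PC r`: `count_int`
(`filter_filter`; `p ∈ d` coprime to `r i`: `p ∈ pz z` and `cop_iff`), `|∏ α| ≤ D^k`; if `¬ PC r`: the filtered set is
empty by `cross`.  Sum over `r` (`∏ N i` tuples, `Fintype.card_piFinset`), and over `d` with
`|(-1)^card| = 1` and `sum_low k z m z1` (`v p = |Om h p|`, `card_Om_le`).  The main terms:
`∑ d (-1)^card ∑ r ∈ piFinset, if PC r then … = x * AA … * BB …` (`mul_sum`, `sum_mul`, `prod_mul_distrib`,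
`α / r = α * (1/r)`).
-/

set_option autoImplicit false

open Finset Pool.Agent.Lib.SW

namespace Pool.Agent.Lib.MP_092512_nt.P3.B

private theorem B12_one {k : ℕ} (h : Fin k → ℕ) (z x m : ℕ) (α : Fin k → ℕ → ℝ) (N : Fin k → ℕ) (D : ℝ)
    (H : Hyp h z x m α N D) (d : Finset ℕ) (hd : d ⊆ pz z) (r : Fin k → ℕ)
    (hr : r ∈ Fintype.piFinset (fun i => Icc 1 (N i))) (b : Prop) [Decidable b] (hb : b ↔ PC r) :
    |(∏ i, α i (r i)) * ((((Ioc x (2 * x)).filter
          (fun n => (∀ p ∈ d, n % p ∈ Om h p) ∧ ∀ i, r i ∣ n + h i)).card : ℝ)) -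
        (if b then x * ((∏ p ∈ d, ((Om h p).card : ℝ) / p) * ∏ i, α i (r i) / (r i : ℝ)) else 0)| ≤
      (∏ p ∈ d, ((Om h p).card : ℝ)) * D ^ k := by
  have hC0 : 0 ≤ ∏ p ∈ d, ((Om h p).card : ℝ) := prod_nonneg fun p _ => Nat.cast_nonneg _
  have hD : 0 ≤ D ^ k := pow_nonneg H.D0 _
  have hprod : ∏ i, α i (r i) / (r i : ℝ) = (∏ i, α i (r i)) * ∏ i, 1 / (r i : ℝ) := by
    rw [← prod_mul_distrib]
    refine prod_congr rfl fun i _ => ?_
    ring
  by_cases hA : ∏ i, α i (r i) = 0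
  · rw [hprod, hA]
    simp only [zero_mul, mul_zero, ite_self, sub_zero, abs_zero]
    exact mul_nonneg hC0 hD
  · have hne : ∀ i, α i (r i) ≠ 0 := fun i => (prod_ne_zero_iff.mp hA) i (mem_univ i)
    have hcop : ∀ i, Nat.Coprime (r i) (primorial z) := fun i => H.cop i _ (hne i)
    by_cases hP : b
    · rw [if_pos hP, hprod]
      have hc := count_int h r (fun i => (mem_Icc.mp (Fintype.mem_piFinset.mp hr i)).1) (hb.mp hP) d
        (fun p hp => (mem_pz.mp (hd hp)).1) (Om h)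
        (fun p hp => Om_lt h (mem_pz.mp (hd hp)).1.pos)
        (fun p hp i => by
          have h1 := cop_iff.mp (hcop i) p (hd hp)
          exact ((mem_pz.mp (hd hp)).1.coprime_iff_not_dvd).mpr h1) x
      have hAD : |∏ i, α i (r i)| ≤ D ^ k := by
        rw [abs_prod]
        calc ∏ i, |α i (r i)| ≤ ∏ _i : Fin k, D :=
              prod_le_prod (fun i _ => abs_nonneg _) fun i _ => H.one i (r i)
          _ = D ^ k := by rw [prod_const, card_univ, Fintype.card_fin]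
      obtain ⟨c, hcc⟩ : ∃ c : ℝ, c = ((((Ioc x (2 * x)).filter
          (fun n => (∀ p ∈ d, n % p ∈ Om h p) ∧ ∀ i, r i ∣ n + h i)).card : ℝ)) := ⟨_, rfl⟩
      rw [← hcc] at hc ⊢
      have h2 : (∏ i, α i (r i)) * c - x * ((∏ p ∈ d, ((Om h p).card : ℝ) / p) *
            ((∏ i, α i (r i)) * ∏ i, 1 / (r i : ℝ))) =
          (∏ i, α i (r i)) * (c - x * ((∏ p ∈ d, ((Om h p).card : ℝ) / p) * ∏ i, 1 / (r i : ℝ))) := by
        ring
      rw [h2, abs_mul, mul_comm]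
      exact mul_le_mul hc hAD (abs_nonneg _) hC0
    · rw [if_neg hP, sub_zero]
      have h1 : (Ioc x (2 * x)).filter (fun n => (∀ p ∈ d, n % p ∈ Om h p) ∧ ∀ i, r i ∣ n + h i) = ∅ := by
        rw [filter_eq_empty_iff]
        rintro n _ ⟨_, hn⟩
        exact hP (hb.mpr (cross h r H.inj z H.hz hcop n hn))
      rw [h1, card_empty, Nat.cast_zero, mul_zero, abs_zero]
      exact mul_nonneg hC0 hD

private theorem B12_key {k : ℕ} (h : Fin k → ℕ) (z x m : ℕ) (α : Fin k → ℕ → ℝ) (N : Fin k → ℕ) (D : ℝ)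
    (H : Hyp h z x m α N D) (d : Finset ℕ) (hd : d ⊆ pz z) :
    |∑ n ∈ (Ioc x (2 * x)).filter (fun n => ∀ p ∈ d, n % p ∈ Om h p), ww h α n -
        x * ((∏ p ∈ d, ((Om h p).card : ℝ) / p) * BB N (fun i r => α i r / r))| ≤
      (∏ p ∈ d, ((Om h p).card : ℝ)) * ((∏ i, (N i : ℝ)) * D ^ k) := by
  classical
  have hα : ∀ i r, α i r ≠ 0 → 1 ≤ r ∧ r ≤ N i := fun i r hr =>
    ⟨Nat.pos_of_ne_zero (H.sf i r hr).ne_zero, H.le i r hr⟩
  have h1 := stepB h α N hα ((Ioc x (2 * x)).filter (fun n => ∀ p ∈ d, n % p ∈ Om h p))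
    (fun n hn => by
      have := (mem_Ioc.mp (mem_filter.mp hn).1).1
      omega) (fun _ => 1)
  simp only [one_mul] at h1
  have h2 : ∑ n ∈ (Ioc x (2 * x)).filter (fun n => ∀ p ∈ d, n % p ∈ Om h p), ww h α n =
      ∑ r ∈ Fintype.piFinset (fun i => Icc 1 (N i)), (∏ i, α i (r i)) *
        ((((Ioc x (2 * x)).filter
          (fun n => (∀ p ∈ d, n % p ∈ Om h p) ∧ ∀ i, r i ∣ n + h i)).card : ℝ)) := by
    unfold ww
    rw [h1]
    refine sum_congr rfl fun r _ => ?_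
    rw [filter_filter, sum_const, nsmul_eq_mul, mul_one]
  have h3 : x * ((∏ p ∈ d, ((Om h p).card : ℝ) / p) * BB N (fun i r => α i r / r)) =
      ∑ r ∈ Fintype.piFinset (fun i => Icc 1 (N i)),
        (if PC r then x * ((∏ p ∈ d, ((Om h p).card : ℝ) / p) * ∏ i, α i (r i) / (r i : ℝ)) else 0) := by
    unfold BB PB
    rw [mul_sum, mul_sum, sum_filter]
  rw [h2, h3, ← sum_sub_distrib]
  refine (abs_sum_le_sum_abs _ _).trans ?_
  calc _ ≤ ∑ _r ∈ Fintype.piFinset (fun i => Icc 1 (N i)), (∏ p ∈ d, ((Om h p).card : ℝ)) * D ^ k :=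
        sum_le_sum fun r hr => B12_one h z x m α N D H d hd r hr (PC r) Iff.rfl
    _ = (∏ p ∈ d, ((Om h p).card : ℝ)) * ((∏ i, (N i : ℝ)) * D ^ k) := by
        rw [sum_const, nsmul_eq_mul, Fintype.card_piFinset]
        simp only [Nat.card_Icc, Nat.add_sub_cancel]
        push_cast
        ring

theorem int_T {k : ℕ} (h : Fin k → ℕ) (z x m : ℕ) (α : Fin k → ℕ → ℝ) (N : Fin k → ℕ) (D : ℝ)
    (H : Hyp h z x m α N D) :
    |∑ d ∈ (pz z).powerset with d.card ≤ m, ((-1 : ℝ) ^ d.card *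
          ∑ n ∈ (Ioc x (2 * x)).filter (fun n => ∀ p ∈ d, n % p ∈ Om h p), ww h α n) -
        x * AA (fun p => ((Om h p).card : ℝ) / p) z m * BB N (fun i r => α i r / r)| ≤
      (((k : ℝ) + 2) * (z + 1)) ^ (m + 1) * (∏ i, (N i : ℝ)) * D ^ k := by
  have h1 : x * AA (fun p => ((Om h p).card : ℝ) / p) z m * BB N (fun i r => α i r / r) =
      ∑ d ∈ (pz z).powerset with d.card ≤ m, ((-1 : ℝ) ^ d.card *
        (x * ((∏ p ∈ d, ((Om h p).card : ℝ) / p) * BB N (fun i r => α i r / r)))) := by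
    unfold AA
    rw [mul_sum, sum_mul]
    refine sum_congr rfl fun d _ => ?_
    ring
  rw [h1, ← sum_sub_distrib]
  refine (abs_sum_le_sum_abs _ _).trans ?_
  have hND : 0 ≤ (∏ i, (N i : ℝ)) * D ^ k :=
    mul_nonneg (prod_nonneg fun i _ => Nat.cast_nonneg _) (pow_nonneg H.D0 _)
  calc _ ≤ ∑ d ∈ (pz z).powerset with d.card ≤ m,
          (∏ p ∈ d, ((Om h p).card : ℝ)) * ((∏ i, (N i : ℝ)) * D ^ k) := by
        refine sum_le_sum fun d hd => ?_
        rw [← mul_sub, abs_mul, abs_pow, abs_neg, abs_one, one_pow, one_mul]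
        exact B12_key h z x m α N D H d (mem_powerset.mp (mem_filter.mp hd).1)
    _ = (∑ d ∈ (pz z).powerset with d.card ≤ m, ∏ p ∈ d, ((Om h p).card : ℝ)) *
          ((∏ i, (N i : ℝ)) * D ^ k) := by rw [sum_mul]
    _ ≤ (((k : ℝ) + 2) * (z + 1)) ^ (m + 1) * ((∏ i, (N i : ℝ)) * D ^ k) := by
        refine mul_le_mul_of_nonneg_right ?_ hND
        refine sum_low k z m H.z1 (fun p => ((Om h p).card : ℝ)) fun p _ => ⟨Nat.cast_nonneg _, ?_⟩
        exact_mod_cast card_Om_le h p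
    _ = _ := by ring

end Pool.Agent.Lib.MP_092512_nt.P3.B
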