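import Pool.Agent.Lib.MP_092512_nt.P3.B1
import Pool.Agent.Lib.MP_092512_nt.P3.B2

/-!
# P3 part B, module B3: replacing the sieve condition by truncated inclusion-exclusion

PROOF of `stepA`.  Write the first sum as `∑ n ∈ Ioc, ind n * w n` (`sum_filter`), the second (`mul_sum`, `sum_comm`,
`sum_filter`) as `∑ n ∈ Ioc, trunc n * w n`, with ind, trunc as in `trunc_ind`; by `trunc_ind` the difference is at
most `∑ n ∈ Ioc, top n * M = M * ∑ d (card = m+1) #{n ∈ Ioc x (2x) : ∀ p ∈ d, n % p ∈ Ω p}`;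
`Ioc x (2x) = Ico (x+1) (x+1+x)` and `GT.abs_card_sub_le` give `# ≤ x ∏ |Ω|/p + ∏ |Ω|`, and
`∏ |Ω| = ∏ |Ω|/p * ∏ p ≤ x ∏ |Ω|/p` by `hprod`; so the total is `≤ M * ∑ (card = m+1) 2 x ∏ |Ω|/p`, and `tail_sum`
finishes (`card = m+1` implies `m+1 ≤ card`).
-/

set_option autoImplicit false

open Finset Pool.Agent.Lib.SW Pool.Agent.Lib.GT

namespace Pool.Agent.Lib.MP_092512_nt.P3.B

theorem stepA (P : Finset ℕ) (hP : ∀ p ∈ P, p.Prime) (Ω : ℕ → Finset ℕ)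
    (hΩ : ∀ p ∈ P, ∀ c ∈ Ω p, c < p) (x m : ℕ) (hm : Even m)
    (hprod : ∀ d ⊆ P, d.card = m + 1 → ∏ p ∈ d, p ≤ x) (w : ℕ → ℝ) (M : ℝ) (hM : 0 ≤ M)
    (hw : ∀ n ∈ Ioc x (2 * x), |w n| ≤ M) (G T : ℝ)
    (hG : ∑ p ∈ P, ((Ω p).card : ℝ) / p ≤ G) (hT : 1 ≤ T) :
    |∑ n ∈ (Ioc x (2 * x)).filter (fun n => ∀ p ∈ P, n % p ∉ Ω p), w n -
        ∑ d ∈ P.powerset with d.card ≤ m, ((-1 : ℝ) ^ d.card *
          ∑ n ∈ (Ioc x (2 * x)).filter (fun n => ∀ p ∈ d, n % p ∈ Ω p), w n)| ≤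
      2 * M * x * (Real.exp (T * G) / T ^ (m + 1)) := by
  classical
  -- first sum
  have e1 : ∑ n ∈ (Ioc x (2 * x)).filter (fun n => ∀ p ∈ P, n % p ∉ Ω p), w n =
      ∑ n ∈ Ioc x (2 * x), (if ∀ p ∈ P, n % p ∉ Ω p then (1 : ℝ) else 0) * w n := by
    rw [sum_filter]
    refine sum_congr rfl fun n _ => ?_
    split_ifs <;> simp
  have e2 : ∑ d ∈ P.powerset with d.card ≤ m, ((-1 : ℝ) ^ d.card *
      ∑ n ∈ (Ioc x (2 * x)).filter (fun n => ∀ p ∈ d, n % p ∈ Ω p), w n) =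
      ∑ n ∈ Ioc x (2 * x), (∑ d ∈ P.powerset with d.card ≤ m,
        ((-1 : ℝ) ^ d.card * if ∀ p ∈ d, n % p ∈ Ω p then 1 else 0)) * w n := by
    have e3 : ∀ d : Finset ℕ, (-1 : ℝ) ^ d.card *
        ∑ n ∈ (Ioc x (2 * x)).filter (fun n => ∀ p ∈ d, n % p ∈ Ω p), w n =
        ∑ n ∈ Ioc x (2 * x), ((-1 : ℝ) ^ d.card * if ∀ p ∈ d, n % p ∈ Ω p then 1 else 0) * w n := by
      intro d
      rw [sum_filter, mul_sum]
      refine sum_congr rfl fun n _ => ?_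
      split_ifs <;> simp
    simp_rw [e3]
    rw [sum_comm]
    exact sum_congr rfl fun n _ => (sum_mul _ _ _).symm
  rw [e1, e2, ← sum_sub_distrib]
  have e4 : |∑ n ∈ Ioc x (2 * x), ((if ∀ p ∈ P, n % p ∉ Ω p then (1 : ℝ) else 0) * w n -
      (∑ d ∈ P.powerset with d.card ≤ m,
        ((-1 : ℝ) ^ d.card * if ∀ p ∈ d, n % p ∈ Ω p then 1 else 0)) * w n)| ≤
      ∑ n ∈ Ioc x (2 * x), (∑ d ∈ P.powerset with d.card = m + 1,
        (if ∀ p ∈ d, n % p ∈ Ω p then (1 : ℝ) else 0)) * M := by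
    refine (abs_sum_le_sum_abs _ _).trans (sum_le_sum fun n hn => ?_)
    rw [← sub_mul, abs_mul]
    exact mul_le_mul (trunc_ind P Ω m n hm) (hw n hn) (abs_nonneg _)
      (sum_nonneg fun d _ => by split_ifs <;> norm_num)
  refine e4.trans ?_
  rw [← sum_mul, sum_comm]
  have e5 : ∀ d ∈ P.powerset.filter (fun d => d.card = m + 1),
      ∑ n ∈ Ioc x (2 * x), (if ∀ p ∈ d, n % p ∈ Ω p then (1 : ℝ) else 0) ≤
        2 * x * ∏ p ∈ d, ((Ω p).card : ℝ) / p := by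
    intro d hd
    rw [mem_filter, mem_powerset] at hd
    have h1 := abs_card_sub_le d (fun p hp => hP p (hd.1 hp)) Ω (fun p hp => hΩ p (hd.1 hp)) (x + 1) x
    have h2 : Ioc x (2 * x) = Ico (x + 1) (x + 1 + x) := by
      ext n
      rw [mem_Ioc, mem_Ico]
      omega
    have h3 : ∑ n ∈ Ioc x (2 * x), (if ∀ p ∈ d, n % p ∈ Ω p then (1 : ℝ) else 0) =
        (((Ico (x + 1) (x + 1 + x)).filter (fun n => ∀ r ∈ d, n % r ∈ Ω r)).card : ℝ) := by
      rw [h2, ← sum_filter, sum_const, nsmul_eq_mul, mul_one]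
    rw [h3]
    have h4 := (abs_le.mp h1).2
    have h5 : ∏ p ∈ d, ((Ω p).card : ℝ) ≤ x * ∏ p ∈ d, ((Ω p).card : ℝ) / p := by
      have h6 : ∏ p ∈ d, ((Ω p).card : ℝ) =
          (∏ p ∈ d, (p : ℝ)) * ∏ p ∈ d, ((Ω p).card : ℝ) / p := by
        rw [← prod_mul_distrib]
        refine prod_congr rfl fun p hp => ?_
        have := (hP p (hd.1 hp)).pos
        field_simp
      rw [h6]
      refine mul_le_mul_of_nonneg_right ?_ (prod_nonneg fun p _ => by positivity)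
      have h7 : ((∏ p ∈ d, p : ℕ) : ℝ) ≤ x := by exact_mod_cast hprod d hd.1 hd.2
      rwa [Nat.cast_prod] at h7
    linarith
  have e6 : ∑ d ∈ P.powerset.filter (fun d => d.card = m + 1),
      ∑ n ∈ Ioc x (2 * x), (if ∀ p ∈ d, n % p ∈ Ω p then (1 : ℝ) else 0) ≤
      2 * x * (Real.exp (T * G) / T ^ (m + 1)) := by
    refine (sum_le_sum e5).trans ?_
    rw [← mul_sum]
    refine mul_le_mul_of_nonneg_left ?_ (by positivity)
    refine le_trans ?_ (tail_sum P (fun p => ((Ω p).card : ℝ) / p) (fun p _ => by positivity) G T hG hT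
      (m + 1))
    apply sum_le_sum_of_subset_of_nonneg
    · intro d hd
      rw [mem_filter] at hd ⊢
      exact ⟨hd.1, hd.2.ge⟩
    · intro d _ _
      exact prod_nonneg fun p _ => by positivity
  calc _ ≤ 2 * x * (Real.exp (T * G) / T ^ (m + 1)) * M := mul_le_mul_of_nonneg_right e6 hM
    _ = _ := by ring

end Pool.Agent.Lib.MP_092512_nt.P3.B
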