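import Pool.Agent.Lib.MP_092512_nt.P3.B0

/-!
# P3 part B: common definitions for the core theorems

`ww h α n = ∏ i, ∑_{r ∣ n + h i} α i r`;  `AA g z m`: truncated alternating sum;  `BB N β`: sum over the pairwise coprime
tuples;  `FR F X r`: sum of F over the numbers coprime to all `r i`;  `Hyp`: the standing hypotheses.
-/

set_option autoImplicit false

open Finset Pool.Agent.Lib.SW

namespace Pool.Agent.Lib.MP_092512_nt.P3.B

noncomputable def ww {k : ℕ} (h : Fin k → ℕ) (α : Fin k → ℕ → ℝ) (n : ℕ) : ℝ :=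
  ∏ i, ∑ r ∈ (n + h i).divisors, α i r

noncomputable def AA (g : ℕ → ℝ) (z m : ℕ) : ℝ :=
  ∑ d ∈ (pz z).powerset with d.card ≤ m, ((-1 : ℝ) ^ d.card * ∏ p ∈ d, g p)

open Classical in
/-- the pairwise coprime tuples in the box -/
noncomputable def PB {k : ℕ} (N : Fin k → ℕ) : Finset (Fin k → ℕ) :=
  (Fintype.piFinset (fun i => Icc 1 (N i))).filter (fun r => PC r)

noncomputable def BB {k : ℕ} (N : Fin k → ℕ) (β : Fin k → ℕ → ℝ) : ℝ :=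
  ∑ r ∈ PB N, ∏ i, β i (r i)

noncomputable def FR {k : ℕ} (F : ℕ → ℝ) (X : ℕ) (r : Fin k → ℕ) : ℝ :=
  ∑ m ∈ (Icc 1 X).filter (fun m => Nat.Coprime m (∏ i, r i)), F m

structure Hyp {k : ℕ} (h : Fin k → ℕ) (z x m : ℕ) (α : Fin k → ℕ → ℝ) (N : Fin k → ℕ) (D : ℝ) : Prop where
  inj : Function.Injective h
  hz : ∀ i, h i < z
  z1 : 1 ≤ z
  even : Even m
  prod : z ^ (m + 1) ≤ x
  sf : ∀ i r, α i r ≠ 0 → Squarefree r
  cop : ∀ i r, α i r ≠ 0 → Nat.Coprime r (primorial z)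
  le : ∀ i r, α i r ≠ 0 → r ≤ N i
  D0 : 0 ≤ D
  div : ∀ i n, 1 ≤ n → n ≤ 3 * x → |∑ r ∈ n.divisors, α i r| ≤ D
  one : ∀ i r, |α i r| ≤ D

/-- the two weight bounds -/
structure HypW {k : ℕ} (N : Fin k → ℕ) (β : Fin k → ℕ → ℝ) (W : ℝ) : Prop where
  tot : ∀ i, ∑ r ∈ Icc 1 (N i), |β i r| ≤ W
  dv : ∀ i, ∀ p : ℕ, p.Prime → ∑ r ∈ (Icc 1 (N i)).filter (fun r => p ∣ r), |β i r| ≤ 6 / p * W

end Pool.Agent.Lib.MP_092512_nt.P3.B
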