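import Pool.Agent.Lib.MP_092512_nt.P3.B7
import Pool.Agent.Lib.MP_092512_nt.P3.BH

/-!
# P3 part B, module B8: removing the pairwise coprimality

PROOF of `pc_pair` (`i ≠ j`, p prime): the filtered set is contained in `Fintype.piFinset (fun l => if l = i ∨ l = j
then (Icc 1 (N l)).filter (p ∣ ·) else Icc 1 (N l))`; by `Finset.prod_univ_sum` (reversed) the sum of `∏ |β|` over it
is `∏ l, ∑ ...`; the factors `l = i, j` are `≤ (6/p) W` (`hdiv`), the other `≤ W` (`htot`); i.e. factor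
`≤ (if l = i ∨ l = j then 6/p else 1) * W`, and `∏ l, (if l = i ∨ l = j then 6/p else 1) = (6/p)^2`
(`Finset.prod_ite`/`prod_pow_boole`, or: it equals `(∏ if l = i then 6/p else 1) * (∏ if l = j then 6/p else 1)`),
`∏ W = W^k`.
PROOF of `pb_le`: `PB N ⊆ piFinset`, `Finset.prod_univ_sum` (reversed), `Finset.prod_le_prod`, `prod_const`.
PROOF of `pc_removal`: `∏ i, ∑ = ∑ r ∈ piFinset, ∏` (`Finset.prod_univ_sum`); the difference is the sum over `¬ PC r`;
if `¬ PC r` and `∏ β ≠ 0` there are `i ≠ j` and a prime `p` dividing `r i` and `r j` (`Nat.Prime.not_coprime_iff_dvd`),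
`z < p` (`rough_prime`), `p ≤ r i ≤ Nm`, `Nm = ∑ i, N i`; so the absolute value is at most
`∑ i, ∑ j, ∑ p ∈ (Ioc z Nm).filter Nat.Prime, (if i ≠ j then (6/p)^2 W^k else 0) ≤ k^2 36 W^k ∑_{z < p ≤ Nm} 1/p^2`
and `∑_{n ∈ Ioc z Nm} 1/n^2 ≤ 1/z` (Mathlib `sum_Ioc_inv_sq_le_sub`; empty if `Nm ≤ z`).
-/

set_option autoImplicit false

open Finset Pool.Agent.Lib.SW

namespace Pool.Agent.Lib.MP_092512_nt.P3.B

theorem pc_pair {k : ℕ} (N : Fin k → ℕ) (β : Fin k → ℕ → ℝ) (W : ℝ) (hW : 0 ≤ W) (p : ℕ) (hp : 0 < p)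
    (htot : ∀ i, ∑ r ∈ Icc 1 (N i), |β i r| ≤ W)
    (hdiv : ∀ i, ∑ r ∈ (Icc 1 (N i)).filter (fun r => p ∣ r), |β i r| ≤ 6 / p * W)
    (i j : Fin k) (hij : i ≠ j) :
    ∑ r ∈ (Fintype.piFinset (fun i => Icc 1 (N i))).filter (fun r => p ∣ r i ∧ p ∣ r j),
      ∏ l, |β l (r l)| ≤ (6 / p) ^ 2 * W ^ k := by
  have hp0 : (0 : ℝ) < p := by exact_mod_cast hp
  set S : Fin k → Finset ℕ := fun l => if l = i ∨ l = j then (Icc 1 (N l)).filter (fun r => p ∣ r)
    else Icc 1 (N l) with hS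
  have hsub : (Fintype.piFinset (fun i => Icc 1 (N i))).filter (fun r => p ∣ r i ∧ p ∣ r j) ⊆
      Fintype.piFinset S := by
    intro r hr
    rw [mem_filter, Fintype.mem_piFinset] at hr
    rw [Fintype.mem_piFinset]
    intro l
    rw [hS]
    simp only
    split_ifs with h1
    · rw [mem_filter]
      refine ⟨hr.1 l, ?_⟩
      rcases h1 with h1 | h1
      · rw [h1]; exact hr.2.1
      · rw [h1]; exact hr.2.2
    · exact hr.1 l
  refine (sum_le_sum_of_subset_of_nonneg hsub fun r _ _ => prod_nonneg fun l _ => abs_nonneg _).trans ?_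
  have h2 := (prod_univ_sum S (fun l r => |β l r|)).symm
  rw [h2]
  have h3 : ∏ l, ∑ r ∈ S l, |β l r| ≤
      ∏ l : Fin k, ((if l = i then (6 / p : ℝ) else 1) * (if l = j then (6 / p : ℝ) else 1) * W) := by
    apply prod_le_prod
    · intro l _
      exact sum_nonneg fun r _ => abs_nonneg _
    · intro l _
      rw [hS]
      simp only
      by_cases h4 : l = i
      · have h5 : l ≠ j := fun h => hij (h4.symm.trans h)
        rw [if_pos (Or.inl h4), if_pos h4, if_neg h5, mul_one]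
        exact hdiv l
      · by_cases h5 : l = j
        · rw [if_pos (Or.inr h5), if_neg h4, if_pos h5, one_mul]
          exact hdiv l
        · rw [if_neg (by tauto), if_neg h4, if_neg h5, one_mul, one_mul]
          exact htot l
  refine h3.trans (le_of_eq ?_)
  rw [prod_mul_distrib, prod_mul_distrib, prod_ite_eq', prod_ite_eq', if_pos (mem_univ _),
    if_pos (mem_univ _), prod_const, card_univ, Fintype.card_fin]
  ring

private theorem B8_sq_sum (z M : ℕ) (hz : 1 ≤ z) :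
    ∑ p ∈ (Ioc z M).filter Nat.Prime, (1 : ℝ) / (p : ℝ) ^ 2 ≤ 1 / z := by
  have h1 : ∑ p ∈ (Ioc z M).filter Nat.Prime, (1 : ℝ) / (p : ℝ) ^ 2 ≤
      ∑ p ∈ Ioc z M, ((p : ℝ) ^ 2)⁻¹ := by
    refine (sum_le_sum_of_subset_of_nonneg (filter_subset _ _) fun _ _ _ => by positivity).trans
      (le_of_eq (sum_congr rfl fun p _ => ?_))
    rw [one_div]
  refine h1.trans ?_
  rcases le_or_gt z M with h2 | h2
  · refine (sum_Ioc_inv_sq_le_sub (by omega) h2).trans ?_
    rw [one_div]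
    have : (0 : ℝ) ≤ ((M : ℝ))⁻¹ := by positivity
    linarith
  · rw [Ioc_eq_empty_of_le h2.le, sum_empty]
    positivity

theorem pc_removal {k : ℕ} (z : ℕ) (hz : 1 ≤ z) (N : Fin k → ℕ) (β : Fin k → ℕ → ℝ) (W : ℝ) (hW : 0 ≤ W)
    (hβ : ∀ i r, β i r ≠ 0 → Nat.Coprime r (primorial z)) (HW : HypW N β W) :
    |∏ i, ∑ r ∈ Icc 1 (N i), β i r - BB N β| ≤ 36 * (k : ℝ) ^ 2 * W ^ k / z := by
  classical
  set M : ℕ := ∑ i, N i with hM
  set PP : Finset ℕ := (Ioc z M).filter Nat.Prime with hPP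
  have h1 : ∏ i, ∑ r ∈ Icc 1 (N i), β i r - BB N β =
      ∑ r ∈ (Fintype.piFinset (fun i => Icc 1 (N i))).filter (fun r => ¬ PC r), ∏ i, β i (r i) := by
    rw [prod_univ_sum]
    unfold BB PB
    rw [← sum_filter_add_sum_filter_not (Fintype.piFinset (fun i => Icc 1 (N i))) (fun r => PC r)]
    have h2 : ∀ a b c : ℝ, a = c → a + b - c = b := by
      intro a b c h
      rw [h]; ring
    apply h2
    refine sum_congr ?_ fun _ _ => rfl
    ext r
    simp only [mem_filter]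
  rw [h1]
  have h2 : ∀ r ∈ (Fintype.piFinset (fun i => Icc 1 (N i))).filter (fun r => ¬ PC r),
      |∏ i, β i (r i)| ≤ ∑ i, ∑ j, ∑ p ∈ PP,
        if (i ≠ j ∧ p ∣ r i ∧ p ∣ r j) then ∏ l, |β l (r l)| else 0 := by
    intro r hr
    rw [mem_filter, Fintype.mem_piFinset] at hr
    obtain ⟨hr1, hr2⟩ := hr
    rw [abs_prod]
    have hnn : 0 ≤ ∏ l, |β l (r l)| := prod_nonneg fun l _ => abs_nonneg _
    have hnn' : ∀ i j : Fin k, ∀ p : ℕ,
        0 ≤ (if (i ≠ j ∧ p ∣ r i ∧ p ∣ r j) then ∏ l, |β l (r l)| else 0) := by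
      intro i j p
      split_ifs
      · exact hnn
      · exact le_rfl
    by_cases h0 : ∏ l, |β l (r l)| = 0
    · rw [h0]
      refine sum_nonneg fun i _ => sum_nonneg fun j _ => sum_nonneg fun p _ => ?_
      split_ifs <;> exact le_rfl
    · have h3 : ∀ l, β l (r l) ≠ 0 := by
        intro l hl
        apply h0
        exact prod_eq_zero (mem_univ l) (by rw [hl, abs_zero])
      unfold PC at hr2
      push Not at hr2
      obtain ⟨i, j, hij, hnc⟩ := hr2
      obtain ⟨p, hp, hpi, hpj⟩ := Nat.Prime.not_coprime_iff_dvd.mp hnc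
      have h4 := mem_Icc.mp (hr1 i)
      have h5 : z < p := rough_prime (hβ i (r i) (h3 i)) (Nat.mem_primeFactors.mpr ⟨hp, hpi, by omega⟩)
      have h6 : p ≤ M := by
        have h7 : p ≤ r i := Nat.le_of_dvd (by omega) hpi
        have h8 : N i ≤ M := single_le_sum (f := N) (fun _ _ => Nat.zero_le _) (mem_univ i)
        omega
      have hpP : p ∈ PP := by
        rw [hPP, mem_filter, mem_Ioc]
        exact ⟨⟨h5, h6⟩, hp⟩
      calc ∏ l, |β l (r l)| = if (i ≠ j ∧ p ∣ r i ∧ p ∣ r j) then ∏ l, |β l (r l)| else 0 := by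
            rw [if_pos ⟨hij, hpi, hpj⟩]
        _ ≤ ∑ p ∈ PP, if (i ≠ j ∧ p ∣ r i ∧ p ∣ r j) then ∏ l, |β l (r l)| else 0 :=
            single_le_sum (f := fun p => if (i ≠ j ∧ p ∣ r i ∧ p ∣ r j) then ∏ l, |β l (r l)| else 0)
              (fun p _ => hnn' i j p) hpP
        _ ≤ ∑ j, ∑ p ∈ PP, if (i ≠ j ∧ p ∣ r i ∧ p ∣ r j) then ∏ l, |β l (r l)| else 0 :=
            single_le_sum (f := fun j => ∑ p ∈ PP,
              if (i ≠ j ∧ p ∣ r i ∧ p ∣ r j) then ∏ l, |β l (r l)| else 0)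
              (fun j _ => sum_nonneg fun p _ => hnn' i j p) (mem_univ j)
        _ ≤ ∑ i, ∑ j, ∑ p ∈ PP, if (i ≠ j ∧ p ∣ r i ∧ p ∣ r j) then ∏ l, |β l (r l)| else 0 :=
            single_le_sum (f := fun i => ∑ j, ∑ p ∈ PP,
              if (i ≠ j ∧ p ∣ r i ∧ p ∣ r j) then ∏ l, |β l (r l)| else 0)
              (fun i _ => sum_nonneg fun j _ => sum_nonneg fun p _ => hnn' i j p) (mem_univ i)
  have h3 : ∀ i j : Fin k, ∀ p ∈ PP,
      ∑ r ∈ (Fintype.piFinset (fun i => Icc 1 (N i))).filter (fun r => ¬ PC r),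
        (if (i ≠ j ∧ p ∣ r i ∧ p ∣ r j) then ∏ l, |β l (r l)| else 0) ≤ 36 * W ^ k * (1 / (p : ℝ) ^ 2) := by
    intro i j p hp
    rw [hPP, mem_filter, mem_Ioc] at hp
    have hp0 : 0 < p := hp.2.pos
    have hpr : (0 : ℝ) < p := by exact_mod_cast hp0
    by_cases hij : i = j
    · have h4 : ∀ r ∈ (Fintype.piFinset (fun i => Icc 1 (N i))).filter (fun r => ¬ PC r),
          (if (i ≠ j ∧ p ∣ r i ∧ p ∣ r j) then ∏ l, |β l (r l)| else 0) = 0 := by
        intro r _
        rw [if_neg]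
        intro h
        exact h.1 hij
      rw [sum_eq_zero h4]
      positivity
    · have h4 := pc_pair N β W hW p hp0 HW.tot (fun i => HW.dv i p hp.2) i j hij
      have h5 : ∑ r ∈ (Fintype.piFinset (fun i => Icc 1 (N i))).filter (fun r => ¬ PC r),
          (if (i ≠ j ∧ p ∣ r i ∧ p ∣ r j) then ∏ l, |β l (r l)| else 0) ≤
          ∑ r ∈ Fintype.piFinset (fun i => Icc 1 (N i)),
          (if (p ∣ r i ∧ p ∣ r j) then ∏ l, |β l (r l)| else 0) := by
        refine (sum_le_sum_of_subset_of_nonneg (filter_subset _ _) fun r _ _ => ?_).trans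
          (le_of_eq (sum_congr rfl fun r _ => ?_))
        · split_ifs
          · exact prod_nonneg fun l _ => abs_nonneg _
          · exact le_rfl
        · by_cases h6 : p ∣ r i ∧ p ∣ r j
          · rw [if_pos h6, if_pos ⟨hij, h6⟩]
          · rw [if_neg h6, if_neg (fun h => h6 h.2)]
      refine h5.trans ?_
      rw [← sum_filter]
      refine h4.trans (le_of_eq ?_)
      rw [div_pow]
      ring
  calc |∑ r ∈ (Fintype.piFinset (fun i => Icc 1 (N i))).filter (fun r => ¬ PC r), ∏ i, β i (r i)|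
      ≤ ∑ r ∈ (Fintype.piFinset (fun i => Icc 1 (N i))).filter (fun r => ¬ PC r),
          |∏ i, β i (r i)| := abs_sum_le_sum_abs _ _
    _ ≤ ∑ r ∈ (Fintype.piFinset (fun i => Icc 1 (N i))).filter (fun r => ¬ PC r),
          ∑ i, ∑ j, ∑ p ∈ PP,
            (if (i ≠ j ∧ p ∣ r i ∧ p ∣ r j) then ∏ l, |β l (r l)| else 0) := sum_le_sum h2
    _ = ∑ i, ∑ j, ∑ p ∈ PP,
          ∑ r ∈ (Fintype.piFinset (fun i => Icc 1 (N i))).filter (fun r => ¬ PC r),
            (if (i ≠ j ∧ p ∣ r i ∧ p ∣ r j) then ∏ l, |β l (r l)| else 0) := by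
        rw [sum_comm]
        refine sum_congr rfl fun i _ => ?_
        rw [sum_comm]
        refine sum_congr rfl fun j _ => ?_
        rw [sum_comm]
    _ ≤ ∑ _i : Fin k, ∑ _j : Fin k, ∑ p ∈ PP, 36 * W ^ k * (1 / (p : ℝ) ^ 2) :=
        sum_le_sum fun i _ => sum_le_sum fun j _ => sum_le_sum fun p hp => h3 i j p hp
    _ = (k : ℝ) ^ 2 * (36 * W ^ k * ∑ p ∈ PP, 1 / (p : ℝ) ^ 2) := by
        rw [← mul_sum, sum_const, sum_const, card_univ, Fintype.card_fin, nsmul_eq_mul, nsmul_eq_mul]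
        ring
    _ ≤ (k : ℝ) ^ 2 * (36 * W ^ k * (1 / z)) := by
        apply mul_le_mul_of_nonneg_left _ (by positivity)
        apply mul_le_mul_of_nonneg_left _ (by positivity)
        exact B8_sq_sum z M hz
    _ = 36 * (k : ℝ) ^ 2 * W ^ k / z := by ring

/-- sums over the coprime tuples are at most the product of the sums -/
theorem pb_le {k : ℕ} (N : Fin k → ℕ) (β : Fin k → ℕ → ℝ) (W : ℝ) (hW : 0 ≤ W) (HW : HypW N β W) :
    ∑ r ∈ PB N, ∏ i, |β i (r i)| ≤ W ^ k := by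
  classical
  have h1 : PB N ⊆ Fintype.piFinset (fun i => Icc 1 (N i)) := by
    unfold PB
    exact filter_subset _ _
  refine (sum_le_sum_of_subset_of_nonneg h1 fun r _ _ => prod_nonneg fun l _ => abs_nonneg _).trans ?_
  have h2 := (prod_univ_sum (fun i => Icc 1 (N i)) (fun l r => |β l r|)).symm
  rw [h2]
  calc ∏ i, ∑ r ∈ Icc 1 (N i), |β i r| ≤ ∏ _i : Fin k, W :=
        prod_le_prod (fun i _ => sum_nonneg fun r _ => abs_nonneg _) (fun i _ => HW.tot i)
    _ = W ^ k := by rw [prod_const, card_univ, Fintype.card_fin]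

end Pool.Agent.Lib.MP_092512_nt.P3.B
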