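import Pool.Agent.Lib.MP_092512_nt.P3.B12
import Pool.Agent.Lib.MP_092512_nt.P3.B3
import Pool.Agent.Lib.MP_092512_nt.P3.B8
import Pool.Agent.Lib.MP_092512_nt.P3.B10

/-!
# P3 part B, module B13: core theorem, all integers

PROOF.  By `all_iff` the sum is over `∀ p ∈ pz z, n % p ∉ Om h p`.  `stepA (pz z) … (Om h) … x m …` with
`w = ww h α`, `M = D^k` (`|ww h α n| ≤ D^k` for `n ∈ Ioc x (2x)`: `n + h i ≤ 3x` as `h i < z ≤ z^(m+1) ≤ x`, `div`),
`G = 2 k (1 + log z)` (`sum_Om`), and `hprod`: `∏ p ∈ d, p ≤ z^(m+1) ≤ x` (`Finset.prod_le_pow_card`), gives the first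
error `2 D^k x τ`.  `int_T` gives the second.  Third and fourth:
`x AA BB - x VH ∏∑ = x (AA - VH) BB + x VH (BB - ∏∑)`, with `|AA - VH| ≤ τ` (`trunc_prod`, `VH_Om`), `|BB| ≤ W^k`
(`pb_le`, `abs_sum_le`, `abs_prod`), `0 ≤ VH ≤ 1` (`VH_bd`), `pc_removal` (`β i r = α i r / r`, nonzero implies
`α i r ≠ 0`).
-/

set_option autoImplicit false

open Finset Pool.Agent.Lib.SW

namespace Pool.Agent.Lib.MP_092512_nt.P3.B

theorem int_core {k : ℕ} (h : Fin k → ℕ) (z x m : ℕ) (α : Fin k → ℕ → ℝ) (N : Fin k → ℕ) (D : ℝ)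
    (H : Hyp h z x m α N D) (W : ℝ) (hW : 0 ≤ W) (HW : HypW N (fun i r => α i r / r) W)
    (T τ : ℝ) (hT : 1 ≤ T)
    (hτ : Real.exp (T * (2 * k * (1 + Real.log z))) / T ^ (m + 1) ≤ τ) :
    |∑ n ∈ (Ioc x (2 * x)).filter (fun n => ∀ i, Nat.Coprime (n + h i) (primorial z)), ww h α n -
        x * VH h z * ∏ i, ∑ r ∈ Icc 1 (N i), α i r / r| ≤
      2 * D ^ k * x * τ + (((k : ℝ) + 2) * (z + 1)) ^ (m + 1) * (∏ i, (N i : ℝ)) * D ^ k +
        x * τ * W ^ k + x * (36 * (k : ℝ) ^ 2 * W ^ k / z) := by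
  have hzx : z ≤ x := le_trans (Nat.le_self_pow (by omega) z) H.prod
  have hx0 : (0 : ℝ) ≤ x := Nat.cast_nonneg x
  have hDk : 0 ≤ D ^ k := pow_nonneg H.D0 _
  have hWk : 0 ≤ W ^ k := pow_nonneg hW _
  have hτ0 : 0 ≤ τ := le_trans (by positivity) hτ
  -- first step
  have hf : (Ioc x (2 * x)).filter (fun n => ∀ i, Nat.Coprime (n + h i) (primorial z)) =
      (Ioc x (2 * x)).filter (fun n => ∀ p ∈ pz z, n % p ∉ Om h p) :=
    filter_congr fun n _ => all_iff h n z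
  have hw : ∀ n ∈ Ioc x (2 * x), |ww h α n| ≤ D ^ k := by
    intro n hn
    have hn' := mem_Ioc.mp hn
    unfold ww
    rw [abs_prod]
    calc ∏ i, |∑ r ∈ (n + h i).divisors, α i r| ≤ ∏ _i : Fin k, D := by
          refine prod_le_prod (fun i _ => abs_nonneg _) fun i _ => ?_
          have := H.hz i
          exact H.div i (n + h i) (by omega) (by omega)
      _ = D ^ k := by rw [prod_const, card_univ, Fintype.card_fin]
  have hprod : ∀ d ⊆ pz z, d.card = m + 1 → ∏ p ∈ d, p ≤ x := by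
    intro d hd hc
    calc ∏ p ∈ d, p ≤ z ^ d.card := prod_le_pow_card d _ z fun p hp => (mem_pz.mp (hd hp)).2
      _ = z ^ (m + 1) := by rw [hc]
      _ ≤ x := H.prod
  have hA := stepA (pz z) (fun p hp => (mem_pz.mp hp).1) (Om h)
    (fun p hp => Om_lt h (mem_pz.mp hp).1.pos) x m H.even hprod (ww h α) (D ^ k) hDk hw
    (2 * k * (1 + Real.log z)) T (sum_Om h z) hT
  have hA' : 2 * D ^ k * x * (Real.exp (T * (2 * k * (1 + Real.log z))) / T ^ (m + 1)) ≤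
      2 * D ^ k * x * τ := mul_le_mul_of_nonneg_left hτ (by positivity)
  have hB := int_T h z x m α N D H
  -- the main term
  have hV := VH_bd h z
  have htr : |AA (fun p => ((Om h p).card : ℝ) / p) z m - VH h z| ≤ τ := by
    have h1 := trunc_prod (pz z) (fun p => ((Om h p).card : ℝ) / p)
      (fun p _ => div_nonneg (Nat.cast_nonneg _) (Nat.cast_nonneg _)) (2 * k * (1 + Real.log z)) T
      (sum_Om h z) hT m
    rw [← VH_Om] at h1
    exact h1.trans hτ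
  have hBB : |BB N (fun i r => α i r / r)| ≤ W ^ k := by
    unfold BB
    refine (abs_sum_le_sum_abs _ _).trans ?_
    refine le_trans (le_of_eq ?_) (pb_le N (fun i r => α i r / r) W hW HW)
    refine sum_congr rfl fun r _ => ?_
    rw [abs_prod]
  have hpc := pc_removal z H.z1 N (fun i r => α i r / r) W hW (fun i r hr => by
    refine H.cop i r fun h0 => hr ?_
    simp only [h0, zero_div]) HW
  obtain ⟨a, ha⟩ : ∃ a : ℝ, a = AA (fun p => ((Om h p).card : ℝ) / p) z m := ⟨_, rfl⟩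
  obtain ⟨b, hb⟩ : ∃ b : ℝ, b = BB N (fun i r => α i r / r) := ⟨_, rfl⟩
  obtain ⟨c, hc⟩ : ∃ c : ℝ, c = ∏ i, ∑ r ∈ Icc 1 (N i), α i r / r := ⟨_, rfl⟩
  obtain ⟨t, ht⟩ : ∃ t : ℝ, t = ∑ d ∈ (pz z).powerset with d.card ≤ m, ((-1 : ℝ) ^ d.card *
          ∑ n ∈ (Ioc x (2 * x)).filter (fun n => ∀ p ∈ d, n % p ∈ Om h p), ww h α n) := ⟨_, rfl⟩
  rw [← ha] at htr hB
  rw [← hb] at hBB hpc hB
  rw [← hc] at hpc ⊢
  rw [← ht] at hA hB
  rw [hf]
  obtain ⟨e, he⟩ : ∃ e : ℝ, e = ∑ n ∈ (Ioc x (2 * x)).filter (fun n => ∀ p ∈ pz z, n % p ∉ Om h p),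
    ww h α n := ⟨_, rfl⟩
  rw [← he] at hA ⊢
  have h3 : |x * a * b - x * VH h z * c| ≤ x * τ * W ^ k + x * (36 * (k : ℝ) ^ 2 * W ^ k / z) := by
    have h4 : x * a * b - x * VH h z * c = x * ((a - VH h z) * b) + x * (VH h z * (b - c)) := by ring
    have h5 : |x * ((a - VH h z) * b)| ≤ x * (τ * W ^ k) := by
      rw [abs_mul, abs_of_nonneg hx0, abs_mul]
      exact mul_le_mul_of_nonneg_left (mul_le_mul htr hBB (abs_nonneg _) hτ0) hx0
    have h6 : |x * (VH h z * (b - c))| ≤ x * (1 * (36 * (k : ℝ) ^ 2 * W ^ k / z)) := by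
      rw [abs_mul, abs_of_nonneg hx0, abs_mul, abs_of_nonneg hV.1, abs_sub_comm]
      exact mul_le_mul_of_nonneg_left (mul_le_mul hV.2 hpc (abs_nonneg _) zero_le_one) hx0
    rw [h4]
    refine (abs_add_le _ _).trans ?_
    linarith
  have h7 : e - x * VH h z * c = (e - t) + (t - x * a * b) + (x * a * b - x * VH h z * c) := by ring
  rw [h7]
  have h8 := abs_add_le ((e - t) + (t - x * a * b)) (x * a * b - x * VH h z * c)
  have h9 := abs_add_le (e - t) (t - x * a * b)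
  linarith

end Pool.Agent.Lib.MP_092512_nt.P3.B
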