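import Pool.Agent.Lib.MP_092512_nt.P3.B0
import Pool.Agent.Lib.SW.TS.TS6

/-!
# P3 part B, module B9: choice of the truncation parameters, elementary asymptotics
-/

set_option autoImplicit false

open Finset Pool.Agent.Lib.SW

namespace Pool.Agent.Lib.MP_092512_nt.P3.B

private theorem B9_real (C a : ℝ) (ha : 0 < a) (A : ℕ) :
    ∀ᶠ y : ℝ in Filter.atTop, C * (1 + Real.log y) ^ A ≤ y ^ a := by
  have h1 := isLittleO_log_rpow_rpow_atTop (A : ℝ) ha
  have hc : (0 : ℝ) < 1 / (|C| * 2 ^ A + 1) := by positivity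
  have h2 := h1.def hc
  have h3 : ∀ᶠ y : ℝ in Filter.atTop, 1 ≤ Real.log y :=
    Real.tendsto_log_atTop.eventually_ge_atTop 1
  filter_upwards [h2, h3, Filter.eventually_gt_atTop 0] with y hy hl hy0
  have hlA : 0 ≤ Real.log y ^ A := pow_nonneg (by linarith) A
  have hya : 0 ≤ y ^ a := Real.rpow_nonneg hy0.le a
  rw [Real.rpow_natCast, Real.norm_eq_abs, Real.norm_eq_abs, abs_of_nonneg hlA,
    abs_of_nonneg hya] at hy
  have h4 : (1 + Real.log y) ^ A ≤ 2 ^ A * (Real.log y) ^ A := by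
    rw [← mul_pow]
    exact pow_le_pow_left₀ (by linarith) (by linarith) A
  have hpos : (0 : ℝ) < |C| * 2 ^ A + 1 := by positivity
  have h5 : (|C| * 2 ^ A + 1) * (Real.log y) ^ A ≤ y ^ a := by
    have h6 := mul_le_mul_of_nonneg_left hy hpos.le
    rw [← mul_assoc, mul_one_div_cancel hpos.ne', one_mul] at h6
    exact h6
  have h7 : 0 ≤ (Real.log y) ^ A := by positivity
  have h8 : 0 ≤ (1 + Real.log y) ^ A := by positivity
  calc C * (1 + Real.log y) ^ A ≤ |C| * (1 + Real.log y) ^ A :=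
        mul_le_mul_of_nonneg_right (le_abs_self C) h8
    _ ≤ |C| * (2 ^ A * (Real.log y) ^ A) := mul_le_mul_of_nonneg_left h4 (abs_nonneg C)
    _ = |C| * 2 ^ A * (Real.log y) ^ A := by ring
    _ ≤ (|C| * 2 ^ A + 1) * (Real.log y) ^ A := by nlinarith
    _ ≤ y ^ a := h5

theorem ev_pow (C a : ℝ) (ha : 0 < a) (A : ℕ) : ∃ x₀ : ℕ, ∀ x : ℕ, x₀ ≤ x →
    C * (1 + Real.log x) ^ A ≤ (x : ℝ) ^ a := by
  have h1 := tendsto_natCast_atTop_atTop.eventually (B9_real C a ha A)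
  obtain ⟨x₀, h2⟩ := Filter.eventually_atTop.1 h1
  exact ⟨x₀, fun x hx => h2 x hx⟩

private theorem B9_log (M : ℝ) : ∃ x₀ : ℕ, ∀ x : ℕ, x₀ ≤ x → M ≤ Real.log x := by
  have h1 := (Real.tendsto_log_atTop.comp tendsto_natCast_atTop_atTop).eventually_ge_atTop M
  obtain ⟨a, ha⟩ := Filter.eventually_atTop.1 h1
  exact ⟨a, fun x hx => ha x hx⟩

theorem ev_z (C : ℝ) (A B : ℕ) (hAB : A < B) : ∃ x₀ : ℕ, ∀ x : ℕ, x₀ ≤ x →
    C * (1 + Real.log x) ^ A ≤ (zB B x : ℝ) := by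
  obtain ⟨x₀, hx₀⟩ := B9_log (|C| * 2 ^ A + 1)
  refine ⟨x₀, fun x hx => ?_⟩
  have h1 := hx₀ x hx
  set L := Real.log x with hL
  have hc : 0 ≤ |C| * 2 ^ A := by positivity
  have hL1 : 1 ≤ L := by linarith
  have h2 : L ^ B - 1 ≤ (zB B x : ℝ) := by
    have := Nat.lt_floor_add_one (L ^ B)
    unfold zB
    linarith
  have h4 : (1 + L) ^ A ≤ 2 ^ A * L ^ A := by
    rw [← mul_pow]
    exact pow_le_pow_left₀ (by linarith) (by linarith) A
  have hLA : 1 ≤ L ^ A := one_le_pow₀ hL1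
  have h5 : L ^ (A + 1) ≤ L ^ B := pow_le_pow_right₀ hL1 hAB
  have h6 : C * (1 + L) ^ A ≤ |C| * 2 ^ A * L ^ A := by
    calc C * (1 + L) ^ A ≤ |C| * (1 + L) ^ A :=
          mul_le_mul_of_nonneg_right (le_abs_self C) (by positivity)
      _ ≤ |C| * (2 ^ A * L ^ A) := mul_le_mul_of_nonneg_left h4 (abs_nonneg C)
      _ = |C| * 2 ^ A * L ^ A := by ring
  have h7 : (|C| * 2 ^ A + 1) * L ^ A ≤ L ^ (A + 1) := by
    rw [pow_succ, mul_comm (L ^ A) L]
    exact mul_le_mul_of_nonneg_right h1 (by positivity)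
  linarith

theorem param (k B : ℕ) (ε : ℝ) (hε : 0 < ε) : ∃ c : ℝ, 0 < c ∧ ∃ x₀ : ℕ, ∀ x : ℕ, x₀ ≤ x →
    ∃ m : ℕ, Even m ∧ (((k : ℝ) + 2) * (zB B x + 1)) ^ (m + 1) ≤ (x : ℝ) ^ ε ∧
      ∃ T : ℝ, 1 ≤ T ∧
        Real.exp (T * (2 * k * (1 + Real.log (zB B x)))) / T ^ (m + 1) ≤ (x : ℝ) ^ (-c) := by
  set b : ℝ := (B : ℝ) + 2 with hb
  have hB0 : (0 : ℝ) ≤ (B : ℝ) := Nat.cast_nonneg _
  have hk0 : (0 : ℝ) ≤ (k : ℝ) := Nat.cast_nonneg _
  have hb0 : 0 < b := by positivity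
  set M : ℝ := 16 * k * (B + 1) * b / ε + 4 * b / ε with hM
  have hM1 : 0 ≤ 16 * k * (B + 1) * b / ε := by positivity
  have hM2 : 0 ≤ 4 * b / ε := by positivity
  have hev := (Real.tendsto_log_atTop.comp tendsto_natCast_atTop_atTop).eventually
    (B9_real M (1 / 2) (by norm_num) 1)
  obtain ⟨x₁, hx₁⟩ := Filter.eventually_atTop.1 hev
  obtain ⟨x₂, hx₂⟩ := B9_log (2 * ((k : ℝ) + 2))
  refine ⟨ε / (8 * b), by positivity, x₁ + x₂ + 3, fun x hx => ?_⟩
  have hL2 := hx₂ x (by omega)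
  have hl := hx₁ x (by omega)
  simp only [Function.comp, pow_one] at hl
  have hx0 : (0 : ℝ) < x := by
    have : 0 < x := by omega
    exact_mod_cast this
  set L : ℝ := Real.log x with hL
  have hL4 : 4 ≤ L := by linarith
  have hL0 : 0 < L := by linarith
  set ℓ : ℝ := Real.log L with hℓ
  have hℓ0 : 0 < ℓ := Real.log_pos (by linarith)
  have hsq : L ^ ((1 : ℝ) / 2) = Real.sqrt L := (Real.sqrt_eq_rpow L).symm
  rw [hsq] at hl
  have hs1 : 1 ≤ Real.sqrt L := by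
    rw [show (1 : ℝ) = Real.sqrt 1 by simp]
    exact Real.sqrt_le_sqrt (by linarith)
  have hss : Real.sqrt L * Real.sqrt L = L := Real.mul_self_sqrt hL0.le
  have hsL : Real.sqrt L ≤ L := by nlinarith
  have hMa : 16 * k * (B + 1) * b / ε * (1 + ℓ) ≤ Real.sqrt L := by
    refine le_trans ?_ hl
    rw [hM]
    nlinarith [mul_nonneg hM2 hℓ0.le]
  have hMb : 4 * b / ε * ℓ ≤ L := by
    refine le_trans (le_trans ?_ hl) hsL
    rw [hM]
    nlinarith [mul_nonneg hM1 hℓ0.le]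
  -- the parameter
  set y : ℝ := ε * L / (b * ℓ) with hy
  have hbℓ : 0 < b * ℓ := by positivity
  have hy4 : 4 ≤ y := by
    rw [hy, le_div_iff₀ hbℓ]
    have h1 : 4 * b / ε * ℓ * ε ≤ L * ε := mul_le_mul_of_nonneg_right hMb hε.le
    have h2 : 4 * b / ε * ℓ * ε = 4 * (b * ℓ) := by field_simp
    linarith
  have hyb : y * (b * ℓ) = ε * L := by
    rw [hy, div_mul_cancel₀ _ hbℓ.ne']
  set t : ℕ := ⌊(y - 1) / 2⌋₊ with ht
  have ht1 : (t : ℝ) ≤ (y - 1) / 2 := Nat.floor_le (by linarith)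
  have ht2 : (y - 1) / 2 < t + 1 := Nat.lt_floor_add_one _
  have hm1 : ((2 * t + 1 : ℕ) : ℝ) ≤ y := by push_cast; linarith
  have hm2 : y / 2 ≤ ((2 * t + 1 : ℕ) : ℝ) := by push_cast; linarith
  refine ⟨2 * t, even_two_mul t, ?_, Real.sqrt L, hs1, ?_⟩
  · have hz : (zB B x : ℝ) ≤ L ^ B := Nat.floor_le (by positivity)
    have hLB : 1 ≤ L ^ B := one_le_pow₀ (by linarith)
    have h1 : ((k : ℝ) + 2) * (zB B x + 1) ≤ L ^ (B + 2) := by
      calc ((k : ℝ) + 2) * (zB B x + 1) ≤ ((k : ℝ) + 2) * (2 * L ^ B) := by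
            refine mul_le_mul_of_nonneg_left (by linarith) (by positivity)
        _ = (2 * ((k : ℝ) + 2)) * L ^ B := by ring
        _ ≤ (L * L) * L ^ B := by
            refine mul_le_mul_of_nonneg_right ?_ (by positivity)
            nlinarith
        _ = L ^ (B + 2) := by ring
    calc (((k : ℝ) + 2) * (zB B x + 1)) ^ (2 * t + 1) ≤ (L ^ (B + 2)) ^ (2 * t + 1) :=
          pow_le_pow_left₀ (by positivity) h1 _
      _ = Real.exp (((2 * t + 1 : ℕ) : ℝ) * (b * ℓ)) := by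
          rw [← pow_mul, ← Real.exp_log (show 0 < L ^ ((B + 2) * (2 * t + 1)) by positivity),
            Real.log_pow]
          congr 1
          rw [hb]
          push_cast
          ring
      _ ≤ Real.exp (ε * L) := by
          rw [Real.exp_le_exp, ← hyb]
          exact mul_le_mul_of_nonneg_right hm1 hbℓ.le
      _ = (x : ℝ) ^ ε := by
          rw [Real.rpow_def_of_pos hx0, mul_comm]
  · have hzlog : Real.log (zB B x) ≤ B * ℓ := by
      have hz : (zB B x : ℝ) ≤ L ^ B := Nat.floor_le (by positivity)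
      rcases Nat.eq_zero_or_pos (zB B x) with h0 | h0
      · rw [h0, Nat.cast_zero, Real.log_zero]
        positivity
      · have h1 := Real.log_le_log (by exact_mod_cast h0) hz
        rwa [Real.log_pow] at h1
    have hT : Real.sqrt L ^ (2 * t + 1) = Real.exp (((2 * t + 1 : ℕ) : ℝ) * (ℓ / 2)) := by
      rw [← Real.exp_log (show 0 < Real.sqrt L ^ (2 * t + 1) by positivity), Real.log_pow,
        Real.log_sqrt hL0.le]
    rw [hT, ← Real.exp_sub, Real.rpow_def_of_pos hx0, Real.exp_le_exp]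
    have h2 : ε * L / (4 * b) ≤ ((2 * t + 1 : ℕ) : ℝ) * (ℓ / 2) := by
      have h3 : y / 2 * (ℓ / 2) ≤ ((2 * t + 1 : ℕ) : ℝ) * (ℓ / 2) :=
        mul_le_mul_of_nonneg_right hm2 (by positivity)
      have h4 : y / 2 * (ℓ / 2) = ε * L / (4 * b) := by
        rw [hy]
        field_simp
        ring
      linarith
    have h5 : Real.sqrt L * (2 * k * (1 + Real.log (zB B x))) ≤ ε * L / (8 * b) := by
      have h6 : 2 * k * (1 + Real.log (zB B x)) ≤ 2 * k * ((B + 1) * (1 + ℓ)) := by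
        refine mul_le_mul_of_nonneg_left ?_ (by positivity)
        nlinarith
      have h7 : 2 * k * ((B + 1) * (1 + ℓ)) ≤ ε / (8 * b) * Real.sqrt L := by
        have h8 : ε / (8 * b) * (16 * k * (B + 1) * b / ε * (1 + ℓ)) ≤ ε / (8 * b) * Real.sqrt L :=
          mul_le_mul_of_nonneg_left hMa (by positivity)
        have h9 : ε / (8 * b) * (16 * k * (B + 1) * b / ε * (1 + ℓ)) = 2 * k * ((B + 1) * (1 + ℓ)) := by
          field_simp
          ring
        linarith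
      calc Real.sqrt L * (2 * k * (1 + Real.log (zB B x))) ≤
            Real.sqrt L * (ε / (8 * b) * Real.sqrt L) :=
            mul_le_mul_of_nonneg_left (h6.trans h7) (Real.sqrt_nonneg _)
        _ = ε / (8 * b) * (Real.sqrt L * Real.sqrt L) := by ring
        _ = ε * L / (8 * b) := by rw [hss]; ring
    have h10 : Real.log x * (-(ε / (8 * b))) = ε * L / (8 * b) - ε * L / (4 * b) := by
      rw [← hL]
      field_simp
      ring
    rw [h10]
    linarith

end Pool.Agent.Lib.MP_092512_nt.P3.B
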