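import Pool.Agent.Lib.MP_092512_nt.P3.B13
import Pool.Agent.Lib.MP_092512_nt.P3.B9

/-!
# P3 part B, module B14: common preparation of the final theorems; `sieve_int`
-/

set_option autoImplicit false

open Finset Pool.Agent.Lib.SW

namespace Pool.Agent.Lib.MP_092512_nt.P3.B

/-- the weight bounds for `α i r / φ(r)` and `α i r / r` -/
theorem hypW_of {k : ℕ} (α : Fin k → ℕ → ℝ) (N : Fin k → ℕ) (K : ℕ) (X : ℝ) (hX : 1 ≤ X)
    (hN : ∀ i, (N i : ℝ) ≤ X) (hsf : ∀ i r, α i r ≠ 0 → Squarefree r)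
    (hαK : ∀ i r, |α i r| ≤ K * 3 ^ r.primeFactors.card) :
    HypW N (fun i r => α i r / (r.totient : ℝ)) (K * (1 + Real.log X) ^ 6) ∧
      HypW N (fun i r => α i r / r) (K * (1 + Real.log X) ^ 6) := by
  have key : HypW N (fun i r => α i r / (r.totient : ℝ)) (K * (1 + Real.log X) ^ 6) := by
    refine ⟨fun i => ?_, fun i p hp => ?_⟩
    · refine le_trans (sum_le_sum fun r hr => ?_) (wr_sum K (N i) X hX (hN i))
      have h1 : (0 : ℝ) ≤ (r.totient : ℝ) := Nat.cast_nonneg _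
      rw [abs_div, abs_of_nonneg h1]
      exact div_le_div_of_nonneg_right (hαK i r) h1
    · refine le_trans ?_ (wr_div K (N i) p hp X hX (hN i))
      have h3 : ∑ r ∈ (Icc 1 (N i)).filter (fun r => p ∣ r), |α i r / (r.totient : ℝ)| =
          ∑ r ∈ (Icc 1 (N i)).filter (fun r => Squarefree r ∧ p ∣ r), |α i r / (r.totient : ℝ)| := by
        symm
        refine sum_subset (fun r hr => ?_) (fun r hr hr' => ?_)
        · rw [mem_filter] at hr ⊢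
          exact ⟨hr.1, hr.2.2⟩
        · have h4 : ¬ Squarefree r := fun hs => hr' (by
            rw [mem_filter] at hr ⊢
            exact ⟨hr.1, hs, hr.2⟩)
          have h5 : α i r = 0 := by
            by_contra h6
            exact h4 (hsf i r h6)
          rw [h5, zero_div, abs_zero]
      rw [h3]
      refine sum_le_sum fun r hr => ?_
      have h1 : (0 : ℝ) ≤ (r.totient : ℝ) := Nat.cast_nonneg _
      rw [abs_div, abs_of_nonneg h1]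
      exact div_le_div_of_nonneg_right (hαK i r) h1
  have hcmp : ∀ i r, 1 ≤ r → |α i r / (r : ℝ)| ≤ |α i r / (r.totient : ℝ)| := by
    intro i r hr
    have h1 : (0 : ℝ) < (r.totient : ℝ) := by exact_mod_cast Nat.totient_pos.2 hr
    have h2 : (r.totient : ℝ) ≤ r := by exact_mod_cast Nat.totient_le r
    have h3 : (0 : ℝ) < r := lt_of_lt_of_le h1 h2
    rw [abs_div, abs_div, abs_of_pos h1, abs_of_pos h3]
    exact div_le_div_of_nonneg_left (abs_nonneg _) h1 h2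
  refine ⟨key, ⟨fun i => ?_, fun i p hp => ?_⟩⟩
  · exact le_trans (sum_le_sum fun r hr => hcmp i r (mem_Icc.1 hr).1) (key.tot i)
  · refine le_trans (sum_le_sum fun r hr => hcmp i r (mem_Icc.1 (mem_filter.1 hr).1).1) (key.dv i p hp)

/-- the hypotheses `Hyp` with `D = K C (3x)^η` -/
theorem hyp_of {k : ℕ} (h : Fin k → ℕ) (hinj : Function.Injective h) (z x m : ℕ) (hz : ∀ i, h i < z)
    (z1 : 1 ≤ z) (hm : Even m) (hprod : z ^ (m + 1) ≤ x) (α : Fin k → ℕ → ℝ) (N : Fin k → ℕ)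
    (hN : ∀ i, N i ≤ x) (hα : ∀ i r, α i r ≠ 0 → Squarefree r ∧ Nat.Coprime r (primorial z) ∧ r ≤ N i)
    (K : ℕ) (hαK : ∀ i r, |α i r| ≤ K * 3 ^ r.primeFactors.card) (η C : ℝ) (hη : 0 < η) (hC : 1 ≤ C)
    (hdsum : ∀ n : ℕ, 1 ≤ n → ∑ r ∈ n.divisors, (3 : ℝ) ^ r.primeFactors.card ≤ C * (n : ℝ) ^ η) :
    Hyp h z x m α N (K * C * (3 * x : ℝ) ^ η) := by
  have hK0 : (0 : ℝ) ≤ K := Nat.cast_nonneg _
  have hC0 : (0 : ℝ) ≤ C := by linarith
  refine ⟨hinj, hz, z1, hm, hprod, fun i r hr => (hα i r hr).1, fun i r hr => (hα i r hr).2.1,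
    fun i r hr => (hα i r hr).2.2, by positivity, fun i n hn hn3 => ?_, fun i r => ?_⟩
  · calc |∑ r ∈ n.divisors, α i r| ≤ ∑ r ∈ n.divisors, |α i r| := abs_sum_le_sum_abs _ _
      _ ≤ ∑ r ∈ n.divisors, (K : ℝ) * 3 ^ r.primeFactors.card := sum_le_sum fun r _ => hαK i r
      _ = K * ∑ r ∈ n.divisors, (3 : ℝ) ^ r.primeFactors.card := by rw [mul_sum]
      _ ≤ K * (C * (n : ℝ) ^ η) := mul_le_mul_of_nonneg_left (hdsum n hn) hK0
      _ ≤ K * (C * (3 * x : ℝ) ^ η) := by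
          refine mul_le_mul_of_nonneg_left (mul_le_mul_of_nonneg_left ?_ hC0) hK0
          exact Real.rpow_le_rpow (Nat.cast_nonneg _) (by exact_mod_cast hn3) hη.le
      _ = K * C * (3 * x : ℝ) ^ η := by ring
  · by_cases h0 : α i r = 0
    · rw [h0, abs_zero]
      positivity
    · obtain ⟨h1, h2, h3⟩ := hα i r h0
      have hr1 : 1 ≤ r := Nat.one_le_iff_ne_zero.2 h1.ne_zero
      have h4 : (3 : ℝ) ^ r.primeFactors.card ≤ C * (r : ℝ) ^ η := by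
        refine le_trans ?_ (hdsum r hr1)
        exact single_le_sum (f := fun s : ℕ => (3 : ℝ) ^ s.primeFactors.card)
          (fun s _ => by positivity) (Nat.mem_divisors_self r (by omega))
      have h5 : (r : ℝ) ≤ 3 * x := by
        have : r ≤ 3 * x := by
          have := h3.trans (hN i)
          omega
        exact_mod_cast this
      calc |α i r| ≤ K * 3 ^ r.primeFactors.card := hαK i r
        _ ≤ K * (C * (r : ℝ) ^ η) := mul_le_mul_of_nonneg_left h4 hK0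
        _ ≤ K * (C * (3 * x : ℝ) ^ η) := by
            refine mul_le_mul_of_nonneg_left (mul_le_mul_of_nonneg_left ?_ hC0) hK0
            exact Real.rpow_le_rpow (Nat.cast_nonneg _) h5 hη.le
        _ = K * C * (3 * x : ℝ) ^ η := by ring

/-- `R i ≤ ∏ R` for `R ≥ 1` -/
theorem single_le_prod_real {ι : Type*} [DecidableEq ι] (s : Finset ι) (R : ι → ℝ) (hR : ∀ i ∈ s, 1 ≤ R i)
    (i : ι) (hi : i ∈ s) : R i ≤ ∏ j ∈ s, R j := by
  rw [← mul_prod_erase s R hi]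
  have h1 : (1 : ℝ) ≤ ∏ j ∈ s.erase i, R j := by
    have h2 : ∏ j ∈ s.erase i, (1 : ℝ) ≤ ∏ j ∈ s.erase i, R j :=
      prod_le_prod (fun _ _ => zero_le_one) (fun j hj => hR j (mem_of_mem_erase hj))
    rwa [prod_const_one] at h2
  have h3 : 0 ≤ R i := by linarith [hR i hi]
  nlinarith

/-- all parameters: `z = zB B x`, `D = K C (3x)^η`, with all the asymptotic inequalities -/
theorem prep (k B A K H : ℕ) (ε : ℝ) (hε : 0 < ε) (hB : A + 6 * k + 2 ≤ B) (M : ℝ) :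
    ∃ η C c : ℝ, 0 < η ∧ 1 ≤ C ∧
      (∀ n : ℕ, 1 ≤ n → ∑ r ∈ n.divisors, (3 : ℝ) ^ r.primeFactors.card ≤ C * (n : ℝ) ^ η) ∧
      ∃ x₀ : ℕ, ∀ x : ℕ, x₀ ≤ x → 3 ≤ x ∧ 1 ≤ Real.log x ∧ M ≤ Real.log x ∧ H < zB B x ∧
        ∃ m : ℕ, Even m ∧ (zB B x) ^ (m + 1) ≤ x ∧
          (((k : ℝ) + 2) * (zB B x + 1)) ^ (m + 1) ≤ (x : ℝ) ^ ε ∧
          M * (K * C * (3 * x : ℝ) ^ η) ^ k * (1 + Real.log x) ^ A ≤ (x : ℝ) ^ c ∧
          (((k : ℝ) + 2) * (zB B x + 1)) ^ (m + 1) * (x : ℝ) ^ (1 - ε) *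
            (K * C * (3 * x : ℝ) ^ η) ^ k * (M * (1 + Real.log x) ^ A) ≤ x ∧
          M * (1 + Real.log x) ^ (A + 6 * k) ≤ (x : ℝ) ^ c ∧
          M * (1 + Real.log x) ^ (A + 6 * k + 1) ≤ zB B x ∧
          ∃ T : ℝ, 1 ≤ T ∧
            Real.exp (T * (2 * k * (1 + Real.log (zB B x)))) / T ^ (m + 1) ≤ (x : ℝ) ^ (-c) := by
  set ε₁ : ℝ := min ε 1 / 4 with hε₁
  have hε₁0 : 0 < ε₁ := by
    have : 0 < min ε 1 := lt_min hε one_pos
    positivity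
  have hε₁ε : 4 * ε₁ ≤ ε := by
    have := min_le_left ε 1
    linarith
  have hε₁1 : 4 * ε₁ ≤ 1 := by
    have := min_le_right ε 1
    linarith
  obtain ⟨c, hc, x₁, hx₁⟩ := param k B ε₁ hε₁0
  set δ : ℝ := min c ε₁ with hδ
  have hδ0 : 0 < δ := lt_min hc hε₁0
  have hδc : δ ≤ c := min_le_left _ _
  have hδε : δ ≤ ε₁ := min_le_right _ _
  set η : ℝ := δ / (4 * ((k : ℝ) + 1)) with hη
  have hk1 : (0 : ℝ) < (k : ℝ) + 1 := by positivity
  have hη0 : 0 < η := by positivity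
  have hkη : η * k ≤ δ / 4 := by
    rw [hη, div_mul_eq_mul_div, div_le_div_iff₀ (by positivity) (by norm_num)]
    nlinarith
  obtain ⟨C, hC, hCs⟩ := dsum_le η hη0
  set C₂ : ℝ := (K * C) ^ k * (3 : ℝ) ^ (η * k) with hC₂
  have hC₂0 : 0 ≤ C₂ := by
    have : (0 : ℝ) ≤ C := by linarith
    positivity
  -- eventually statements
  obtain ⟨x₂, hx₂⟩ := ev_pow (|M| * C₂) (δ / 2) (by positivity) A
  obtain ⟨x₃, hx₃⟩ := ev_pow M δ hδ0 (A + 6 * k)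
  obtain ⟨x₄, hx₄⟩ := ev_z M (A + 6 * k + 1) B (by omega)
  obtain ⟨x₅, hx₅⟩ := ev_z ((H : ℝ) + 1) 0 B (by omega)
  obtain ⟨x₆, hx₆⟩ : ∃ x₆ : ℕ, ∀ x : ℕ, x₆ ≤ x → max M 1 ≤ Real.log x := by
    have h1 := (Real.tendsto_log_atTop.comp tendsto_natCast_atTop_atTop).eventually_ge_atTop (max M 1)
    obtain ⟨a, ha⟩ := Filter.eventually_atTop.1 h1
    exact ⟨a, fun x hx => ha x hx⟩
  refine ⟨η, C, c, hη0, hC, hCs, x₁ + x₂ + x₃ + x₄ + x₅ + x₆ + 3, fun x hx => ?_⟩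
  have hx3 : 3 ≤ x := by omega
  have hx0 : (0 : ℝ) < x := by
    have : 0 < x := by omega
    exact_mod_cast this
  have hx1 : (1 : ℝ) ≤ x := by
    have : 1 ≤ x := by omega
    exact_mod_cast this
  have hlog := hx₆ x (by omega)
  have hlog1 : 1 ≤ Real.log x := le_trans (le_max_right _ _) hlog
  have hz5 := hx₅ x (by omega)
  have hHz : H < zB B x := by
    rw [pow_zero, mul_one] at hz5
    have : ((H + 1 : ℕ) : ℝ) ≤ (zB B x : ℝ) := by push_cast; exact hz5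
    have := (Nat.cast_le (α := ℝ)).1 this
    omega
  obtain ⟨m, hm, hmε, T, hT, hTτ⟩ := hx₁ x (by omega)
  set z := zB B x with hz
  have hz0 : (0 : ℝ) ≤ (z : ℝ) := Nat.cast_nonneg _
  have hk0 : (0 : ℝ) ≤ (k : ℝ) := Nat.cast_nonneg _
  have hbase : (z : ℝ) ≤ ((k : ℝ) + 2) * (z + 1) := by nlinarith
  have hpx : (z : ℝ) ^ (m + 1) ≤ (x : ℝ) ^ ε₁ :=
    le_trans (pow_le_pow_left₀ hz0 hbase _) hmε
  have hxε : (x : ℝ) ^ ε₁ ≤ (x : ℝ) ^ ε := Real.rpow_le_rpow_of_exponent_le hx1 (by linarith)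
  have hx1' : (x : ℝ) ^ ε₁ ≤ x := by
    have h1 := Real.rpow_le_rpow_of_exponent_le hx1 (show ε₁ ≤ 1 by linarith)
    rwa [Real.rpow_one] at h1
  have hDk : (K * C * (3 * x : ℝ) ^ η) ^ k ≤ C₂ * (x : ℝ) ^ (δ / 4) := by
    rw [mul_pow, ← Real.rpow_natCast (((3 : ℝ) * x) ^ η) k, ← Real.rpow_mul (by positivity),
      Real.mul_rpow (by norm_num) hx0.le, hC₂]
    have h1 : (x : ℝ) ^ (η * k) ≤ (x : ℝ) ^ (δ / 4) := Real.rpow_le_rpow_of_exponent_le hx1 hkη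
    have h2 : 0 ≤ (K * C) ^ k * (3 : ℝ) ^ (η * k) := hC₂0
    calc (K * C) ^ k * ((3 : ℝ) ^ (η * k) * (x : ℝ) ^ (η * k))
        = ((K * C) ^ k * (3 : ℝ) ^ (η * k)) * (x : ℝ) ^ (η * k) := by ring
      _ ≤ _ := mul_le_mul_of_nonneg_left h1 h2
  have hC0 : (0 : ℝ) ≤ C := by linarith
  have hDk0 : 0 ≤ (K * C * (3 * x : ℝ) ^ η) ^ k := by positivity
  have hL0 : (0 : ℝ) ≤ 1 + Real.log x := by linarith
  have hLA : (0 : ℝ) ≤ (1 + Real.log x) ^ A := by positivity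
  have hMD : |M| * (K * C * (3 * x : ℝ) ^ η) ^ k * (1 + Real.log x) ^ A ≤ (x : ℝ) ^ (3 * δ / 4) := by
    have h2 := hx₂ x (by omega)
    calc |M| * (K * C * (3 * x : ℝ) ^ η) ^ k * (1 + Real.log x) ^ A
        ≤ |M| * (C₂ * (x : ℝ) ^ (δ / 4)) * (1 + Real.log x) ^ A :=
          mul_le_mul_of_nonneg_right (mul_le_mul_of_nonneg_left hDk (abs_nonneg _)) hLA
      _ = (|M| * C₂ * (1 + Real.log x) ^ A) * (x : ℝ) ^ (δ / 4) := by ring
      _ ≤ (x : ℝ) ^ (δ / 2) * (x : ℝ) ^ (δ / 4) :=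
          mul_le_mul_of_nonneg_right h2 (by positivity)
      _ = (x : ℝ) ^ (3 * δ / 4) := by rw [← Real.rpow_add hx0]; congr 1; ring
  have hMD' : M * (K * C * (3 * x : ℝ) ^ η) ^ k * (1 + Real.log x) ^ A ≤ (x : ℝ) ^ (3 * δ / 4) := by
    refine le_trans ?_ hMD
    have : M ≤ |M| := le_abs_self M
    gcongr
  refine ⟨hx3, hlog1, le_trans (le_max_left _ _) hlog, hHz, m, hm, ?_, hmε.trans hxε, ?_, ?_, ?_, ?_,
    T, hT, hTτ⟩
  · have : ((z ^ (m + 1) : ℕ) : ℝ) ≤ ((x : ℕ) : ℝ) := by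
      push_cast
      exact hpx.trans hx1'
    exact (Nat.cast_le (α := ℝ)).1 this
  · refine hMD'.trans (Real.rpow_le_rpow_of_exponent_le hx1 ?_)
    linarith
  · have h1 : (((k : ℝ) + 2) * (z + 1)) ^ (m + 1) * (x : ℝ) ^ (1 - ε) ≤
        (x : ℝ) ^ ε₁ * (x : ℝ) ^ (1 - ε) := mul_le_mul_of_nonneg_right hmε (by positivity)
    have h0 : 0 ≤ (((k : ℝ) + 2) * (z + 1)) ^ (m + 1) * (x : ℝ) ^ (1 - ε) := by positivity
    calc (((k : ℝ) + 2) * (z + 1)) ^ (m + 1) * (x : ℝ) ^ (1 - ε) * (K * C * (3 * x : ℝ) ^ η) ^ k *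
          (M * (1 + Real.log x) ^ A)
        = (((k : ℝ) + 2) * (z + 1)) ^ (m + 1) * (x : ℝ) ^ (1 - ε) *
            (M * (K * C * (3 * x : ℝ) ^ η) ^ k * (1 + Real.log x) ^ A) := by ring
      _ ≤ (((k : ℝ) + 2) * (z + 1)) ^ (m + 1) * (x : ℝ) ^ (1 - ε) * (x : ℝ) ^ (3 * δ / 4) :=
          mul_le_mul_of_nonneg_left hMD' h0
      _ ≤ (x : ℝ) ^ ε₁ * (x : ℝ) ^ (1 - ε) * (x : ℝ) ^ (3 * δ / 4) :=
          mul_le_mul_of_nonneg_right h1 (by positivity)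
      _ = (x : ℝ) ^ (ε₁ + (1 - ε) + 3 * δ / 4) := by
          rw [← Real.rpow_add hx0, ← Real.rpow_add hx0]
      _ ≤ (x : ℝ) ^ (1 : ℝ) := Real.rpow_le_rpow_of_exponent_le hx1 (by linarith)
      _ = x := Real.rpow_one _
  · exact (hx₃ x (by omega)).trans (Real.rpow_le_rpow_of_exponent_le hx1 hδc)
  · exact hx₄ x (by omega)

theorem sieve_int (k : ℕ) (h : Fin k → ℕ) (hinj : Function.Injective h) (K A : ℕ) (ε : ℝ)
    (hε : 0 < ε) : ∃ B₀ : ℕ, ∀ B : ℕ, B₀ ≤ B → ∃ x₀ : ℕ, ∀ x : ℕ, x₀ ≤ x →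
      ∀ (α : Fin k → ℕ → ℝ) (R : Fin k → ℝ), (∀ i, 1 ≤ R i) →
        (∀ i r, α i r ≠ 0 → Squarefree r ∧ Nat.Coprime r (primorial (zB B x)) ∧ (r : ℝ) ≤ R i) →
        (∀ i r, |α i r| ≤ K * 3 ^ r.primeFactors.card) →
        ∏ i, R i ≤ (x : ℝ) ^ (1 - ε) →
        |∑ n ∈ (Ioc x (2 * x)).filter (fun n => ∀ i, Nat.Coprime (n + h i) (primorial (zB B x))),
            ∏ i, ∑ r ∈ (n + h i).divisors, α i r -
          x * VH h (zB B x) * ∏ i, ∑ r ∈ Icc 1 ⌊R i⌋₊, α i r / r| ≤ x / (Real.log x) ^ A := by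
  refine ⟨A + 6 * k + 2, fun B hB => ?_⟩
  set M : ℝ := 8 + 4 * (K : ℝ) ^ k + 144 * (k : ℝ) ^ 2 * (K : ℝ) ^ k with hM
  obtain ⟨η, C, c, hη, hC, hCs, x₀, hx₀⟩ := prep k B A K (∑ i, h i) ε hε hB M
  refine ⟨x₀, fun x hx α R hR hα hαK hRx => ?_⟩
  obtain ⟨hx3, hlog1, hMlog, hHz, m, hm, hzx, hzε, e1, e2, e3, e4, T, hT, hτ⟩ := hx₀ x hx
  set z := zB B x with hz
  have hx0 : (0 : ℝ) < x := by
    have : 0 < x := by omega
    exact_mod_cast this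
  have hx1 : (1 : ℝ) ≤ x := by
    have : 1 ≤ x := by omega
    exact_mod_cast this
  have hRi : ∀ i, R i ≤ x := fun i => by
    refine (single_le_prod_real univ R (fun i _ => hR i) i (mem_univ i)).trans (hRx.trans ?_)
    have h1 := Real.rpow_le_rpow_of_exponent_le hx1 (show 1 - ε ≤ 1 by linarith)
    rwa [Real.rpow_one] at h1
  have hR0 : ∀ i, 0 ≤ R i := fun i => by linarith [hR i]
  have hNR : ∀ i, ((⌊R i⌋₊ : ℕ) : ℝ) ≤ R i := fun i => Nat.floor_le (hR0 i)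
  have hNx : ∀ i, ⌊R i⌋₊ ≤ x := fun i => by
    have h1 := (hNR i).trans (hRi i)
    exact_mod_cast h1
  have hz1 : 1 ≤ z := by omega
  have hhz : ∀ i, h i < z := fun i =>
    lt_of_le_of_lt (single_le_sum (f := h) (fun _ _ => Nat.zero_le _) (mem_univ i)) hHz
  have H := hyp_of h hinj z x m hhz hz1 hm hzx α (fun i => ⌊R i⌋₊) hNx
    (fun i r hr => ⟨(hα i r hr).1, (hα i r hr).2.1, Nat.le_floor (hα i r hr).2.2⟩) K hαK η C hη hC hCs
  have hW := (hypW_of α (fun i => ⌊R i⌋₊) K x hx1 (fun i => by exact_mod_cast hNx i)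
    (fun i r hr => (hα i r hr).1) hαK).2
  have hL : (0 : ℝ) < Real.log x := by linarith
  have hL1 : (0 : ℝ) < 1 + Real.log x := by linarith
  have hmain := int_core h z x m α (fun i => ⌊R i⌋₊) _ H _ (by positivity) hW T _ hT hτ
  refine le_trans hmain ?_
  set D : ℝ := K * C * (3 * x : ℝ) ^ η with hD
  set L : ℝ := 1 + Real.log x with hLdef
  have hC0 : (0 : ℝ) ≤ C := by linarith
  have hD0 : 0 ≤ D ^ k := by positivity
  have hzpos : (0 : ℝ) < (z : ℝ) := by exact_mod_cast hz1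
  have hprodN : ∏ i, ((⌊R i⌋₊ : ℕ) : ℝ) ≤ (x : ℝ) ^ (1 - ε) :=
    (prod_le_prod (fun i _ => Nat.cast_nonneg _) (fun i _ => hNR i)).trans hRx
  have hM8 : 8 ≤ M := by
    have : (0 : ℝ) ≤ 4 * (K : ℝ) ^ k + 144 * (k : ℝ) ^ 2 * (K : ℝ) ^ k := by positivity
    rw [hM]
    linarith
  have hM4 : 4 * (K : ℝ) ^ k ≤ M := by
    have : (0 : ℝ) ≤ 144 * (k : ℝ) ^ 2 * (K : ℝ) ^ k := by positivity
    rw [hM]
    linarith
  have hM144 : 144 * (k : ℝ) ^ 2 * (K : ℝ) ^ k ≤ M := by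
    have : (0 : ℝ) ≤ 4 * (K : ℝ) ^ k := by positivity
    rw [hM]
    linarith
  have hLA : 0 < L ^ A := by positivity
  have hgoal : (x : ℝ) / L ^ A ≤ x / (Real.log x) ^ A := by
    refine div_le_div_of_nonneg_left hx0.le (by positivity) (pow_le_pow_left₀ hL.le (by linarith) A)
  have hxc : (0 : ℝ) < (x : ℝ) ^ c := by positivity
  have hxnc : (x : ℝ) ^ (-c) = 1 / (x : ℝ) ^ c := by rw [Real.rpow_neg hx0.le, one_div]
  -- the four errors
  have E1 : 2 * D ^ k * x * (x : ℝ) ^ (-c) ≤ x / (4 * L ^ A) := by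
    rw [hxnc, mul_one_div, div_le_div_iff₀ hxc (by positivity)]
    have h1 : 8 * D ^ k * L ^ A ≤ (x : ℝ) ^ c := by
      refine le_trans ?_ e1
      gcongr
    nlinarith [mul_le_mul_of_nonneg_left h1 hx0.le]
  have E2 : (((k : ℝ) + 2) * (z + 1)) ^ (m + 1) * (∏ i, ((⌊R i⌋₊ : ℕ) : ℝ)) * D ^ k ≤
      x / (4 * L ^ A) := by
    rw [le_div_iff₀ (by positivity)]
    refine le_trans ?_ e2
    have h4 : 4 * L ^ A ≤ M * L ^ A := by
      have : (4 : ℝ) ≤ M := by linarith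
      gcongr
    gcongr
  have E3 : x * (x : ℝ) ^ (-c) * (K * L ^ 6) ^ k ≤ x / (4 * L ^ A) := by
    rw [hxnc, mul_one_div, div_mul_eq_mul_div, div_le_div_iff₀ hxc (by positivity)]
    have h1 : 4 * (K : ℝ) ^ k * L ^ (A + 6 * k) ≤ (x : ℝ) ^ c := by
      refine le_trans ?_ e3
      gcongr
    have h2 : (K * L ^ 6) ^ k * (4 * L ^ A) = 4 * (K : ℝ) ^ k * L ^ (A + 6 * k) := by
      rw [mul_pow, ← pow_mul, pow_add]
      ring
    calc x * (K * L ^ 6) ^ k * (4 * L ^ A) = x * ((K * L ^ 6) ^ k * (4 * L ^ A)) := by ring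
      _ = x * (4 * (K : ℝ) ^ k * L ^ (A + 6 * k)) := by rw [h2]
      _ ≤ x * (x : ℝ) ^ c := mul_le_mul_of_nonneg_left h1 hx0.le
  have E4 : x * (36 * (k : ℝ) ^ 2 * (K * L ^ 6) ^ k / z) ≤ x / (4 * L ^ A) := by
    rw [mul_div_assoc', div_le_div_iff₀ hzpos (by positivity)]
    have h0 : M * L ^ (A + 6 * k) ≤ z := by
      refine le_trans ?_ e4
      have hM0 : 0 ≤ M := by linarith
      have h5 : L ^ (A + 6 * k) ≤ L ^ (A + 6 * k + 1) :=
        pow_le_pow_right₀ (by rw [hLdef]; linarith) (by omega)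
      gcongr
    have h1 : 144 * (k : ℝ) ^ 2 * (K : ℝ) ^ k * L ^ (A + 6 * k) ≤ z := by
      refine le_trans ?_ h0
      gcongr
    have h2 : 36 * (k : ℝ) ^ 2 * (K * L ^ 6) ^ k * (4 * L ^ A) =
        144 * (k : ℝ) ^ 2 * (K : ℝ) ^ k * L ^ (A + 6 * k) := by
      rw [mul_pow, ← pow_mul, pow_add]
      ring
    calc x * (36 * (k : ℝ) ^ 2 * (K * L ^ 6) ^ k) * (4 * L ^ A) =
        x * (36 * (k : ℝ) ^ 2 * (K * L ^ 6) ^ k * (4 * L ^ A)) := by ring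
      _ = x * (144 * (k : ℝ) ^ 2 * (K : ℝ) ^ k * L ^ (A + 6 * k)) := by rw [h2]
      _ ≤ x * z := mul_le_mul_of_nonneg_left h1 hx0.le
  have hsum : x / (4 * L ^ A) + x / (4 * L ^ A) + x / (4 * L ^ A) + x / (4 * L ^ A) = x / L ^ A := by
    field_simp
    ring
  linarith

end Pool.Agent.Lib.MP_092512_nt.P3.B
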