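import Pool.Agent.Lib.MP_092512_nt.P3.B0
import Pool.Agent.Lib.MP_bc6037_nt.DivBound
import Pool.Agent.Lib.Sieve.SingularAverage

/-!
# P3 part B, module B6: divisor sums of `3^ω`, small arithmetic of integers without small prime factors

PROOF of `dsum_le`: `3^ω(r) ≤ 4^ω(N) = (2^ω(N))^2 ≤ τ(N)^2` for `r ∣ N` (`2^ω(N) ≤ τ(N)`: the subsets of the prime
factors give divisors; Mathlib `Nat.Coprime.card_divisors_mul` / or `card_powerset` and the injection
`s ↦ ∏ p ∈ s, p`; or `Nat.card_divisors` `= ∏ (v+1) ≥ ∏ 2`), hence the sum is `≤ τ(N)^3 ≤ C^3 N^(3 η')` with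
`Pool.Agent.Lib.MP_bc6037_nt.card_divisors_le_rpow` for `η' = η / 3`.
PROOF of `om_log`: `2^ω(r) ≤ ∏ p = rad r ≤ r`, take logs, `1 ≤ 2 log 2`.
PROOF of `rough_prime`: `cop_iff`, `mem_pz`.
PROOF of `om_mul`: `Nat.Coprime.primeFactors_mul`, `card_union_of_disjoint`; `om_prod` by induction on a finset
(`Finset.prod_induction` style) from `ω(ab) ≤ ω(a) + ω(b)`.
PROOF of `phi_id`: for squarefree r: `r - φ(r) ≤ ∑ p ∈ primeFactors, r / p` (count: a number `< r` not coprime to r is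
divisible by some p; or by induction `∏ (1 - 1/p) ≥ 1 - ∑ 1/p`, `Finset.prod_one_sub_ge...`/own induction) and
`1/p ≤ 1/z`; with `φ(r) = r ∏ (1 - 1/p)` (`Nat.totient_eq_mul_prod_factors`): `1 - φ(r)/r ≤ ω(r)/z`; divide by `φ(r)`:
`1/φ(r) - 1/r = (1 - φ(r)/r)/φ(r)`.
-/

set_option autoImplicit false

open Finset Pool.Agent.Lib.SW

namespace Pool.Agent.Lib.MP_092512_nt.P3.B

private theorem B6_two_pow (N : ℕ) (hN : N ≠ 0) : (2 : ℝ) ^ N.primeFactors.card ≤ N.divisors.card := by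
  rw [Nat.card_divisors hN]
  push_cast
  rw [← Finset.prod_const]
  apply Finset.prod_le_prod
  · intro _ _; norm_num
  · intro p hp
    have h1 : 1 ≤ N.factorization p := by
      rw [← Nat.support_factorization, Finsupp.mem_support_iff] at hp
      omega
    have h2 : (1 : ℝ) ≤ (N.factorization p : ℝ) := by exact_mod_cast h1
    linarith

theorem dsum_le (η : ℝ) (hη : 0 < η) : ∃ C : ℝ, 1 ≤ C ∧ ∀ N : ℕ, 1 ≤ N →
    ∑ r ∈ N.divisors, (3 : ℝ) ^ r.primeFactors.card ≤ C * (N : ℝ) ^ η := by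
  obtain ⟨C, hC1, hC⟩ := Pool.Agent.Lib.MP_bc6037_nt.card_divisors_le_rpow (η := η / 3) (by positivity)
  refine ⟨C ^ 3, one_le_pow₀ hC1, fun N hN => ?_⟩
  have hN0 : N ≠ 0 := by omega
  have h1 := B6_two_pow N hN0
  have hτ : (0 : ℝ) ≤ N.divisors.card := Nat.cast_nonneg _
  have h2 : (3 : ℝ) ^ N.primeFactors.card ≤ (N.divisors.card : ℝ) ^ 2 := by
    calc (3 : ℝ) ^ N.primeFactors.card ≤ 4 ^ N.primeFactors.card :=
          pow_le_pow_left₀ (by norm_num) (by norm_num) _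
      _ = ((2 : ℝ) ^ N.primeFactors.card) ^ 2 := by
          rw [← pow_mul, mul_comm, pow_mul]
          norm_num
      _ ≤ _ := pow_le_pow_left₀ (by positivity) h1 2
  calc ∑ r ∈ N.divisors, (3 : ℝ) ^ r.primeFactors.card
      ≤ ∑ r ∈ N.divisors, (N.divisors.card : ℝ) ^ 2 := by
        refine Finset.sum_le_sum fun r hr => ?_
        refine le_trans ?_ h2
        apply pow_le_pow_right₀ (by norm_num)
        exact card_le_card (Nat.primeFactors_mono (Nat.dvd_of_mem_divisors hr) hN0)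
    _ = (N.divisors.card : ℝ) ^ 3 := by
        rw [Finset.sum_const, nsmul_eq_mul]
        ring
    _ ≤ (C * (N : ℝ) ^ (η / 3)) ^ 3 := pow_le_pow_left₀ hτ (hC N hN0) 3
    _ = C ^ 3 * (N : ℝ) ^ η := by
        rw [mul_pow, ← Real.rpow_natCast ((N : ℝ) ^ (η / 3)) 3, ← Real.rpow_mul (Nat.cast_nonneg _)]
        congr 2
        push_cast
        ring

theorem om_log (r : ℕ) (hr : 1 ≤ r) : (r.primeFactors.card : ℝ) ≤ 2 * Real.log r :=
  Pool.Agent.Lib.Sieve.card_primeFactors_le_log r (by omega)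

theorem rough_prime {r z p : ℕ} (hr : Nat.Coprime r (primorial z)) (hp : p ∈ r.primeFactors) : z < p := by
  have hpp := Nat.prime_of_mem_primeFactors hp
  by_contra h
  push Not at h
  exact (cop_iff.mp hr p (mem_pz.mpr ⟨hpp, h⟩)) (Nat.dvd_of_mem_primeFactors hp)

theorem om_prod {k : ℕ} (r : Fin k → ℕ) (hr : ∀ i, 1 ≤ r i) :
    (∏ i, r i).primeFactors.card ≤ ∑ i, (r i).primeFactors.card := by
  classical
  have key : ∀ s : Finset (Fin k), (∏ i ∈ s, r i).primeFactors.card ≤ ∑ i ∈ s, (r i).primeFactors.card := by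
    intro s
    induction s using Finset.induction_on with
    | empty => simp
    | insert a s ha ih =>
      rw [Finset.prod_insert ha, Finset.sum_insert ha]
      have h0 : r a ≠ 0 := by have := hr a; omega
      have h1 : ∏ i ∈ s, r i ≠ 0 := by
        rw [Finset.prod_ne_zero_iff]
        intro i _
        have := hr i
        omega
      rw [Nat.primeFactors_mul h0 h1]
      exact (card_union_le _ _).trans (Nat.add_le_add_left ih _)
  exact key univ

private theorem B6_prod_ge (s : Finset ℕ) (a : ℕ → ℝ) (h0 : ∀ p ∈ s, 0 ≤ a p) (h1 : ∀ p ∈ s, a p ≤ 1) :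
    1 - ∑ p ∈ s, a p ≤ ∏ p ∈ s, (1 - a p) ∧ ∏ p ∈ s, (1 - a p) ≤ 1 ∧ 0 ≤ ∏ p ∈ s, (1 - a p) := by
  classical
  induction s using Finset.induction_on with
  | empty => simp
  | insert b s hb ih =>
    obtain ⟨i1, i2, i3⟩ := ih (fun p hp => h0 p (mem_insert_of_mem hp)) (fun p hp => h1 p (mem_insert_of_mem hp))
    rw [Finset.sum_insert hb, Finset.prod_insert hb]
    have hb0 := h0 b (mem_insert_self _ _)
    have hb1 := h1 b (mem_insert_self _ _)
    refine ⟨?_, ?_, ?_⟩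
    · nlinarith
    · nlinarith
    · exact mul_nonneg (by linarith) i3

private theorem B6_sum_inv {r z : ℕ} (hz : 1 ≤ z) (hc : Nat.Coprime r (primorial z)) :
    ∑ p ∈ r.primeFactors, (1 : ℝ) / p ≤ (r.primeFactors.card : ℝ) / z := by
  have hz0 : (0 : ℝ) < z := by exact_mod_cast hz
  calc ∑ p ∈ r.primeFactors, (1 : ℝ) / p ≤ ∑ p ∈ r.primeFactors, (1 : ℝ) / z := by
        refine Finset.sum_le_sum fun p hp => ?_
        apply one_div_le_one_div_of_le hz0
        exact_mod_cast (rough_prime hc hp).le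
    _ = (r.primeFactors.card : ℝ) / z := by
        rw [Finset.sum_const, nsmul_eq_mul]
        ring

theorem phi_id {r z : ℕ} (hr : Squarefree r) (hz : 1 ≤ z) (hc : Nat.Coprime r (primorial z)) :
    |1 / (r.totient : ℝ) - 1 / (r : ℝ)| ≤ 1 / (r.totient : ℝ) * ((r.primeFactors.card : ℝ) / z) := by
  have hr0 : r ≠ 0 := hr.ne_zero
  have hrr : (0 : ℝ) < r := by exact_mod_cast Nat.pos_of_ne_zero hr0
  have hphi : (0 : ℝ) < r.totient := by exact_mod_cast Nat.totient_pos.mpr (Nat.pos_of_ne_zero hr0)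
  have h1 : (r.totient : ℝ) = r * ∏ p ∈ r.primeFactors, (1 - 1 / (p : ℝ)) := by
    have h := congrArg (fun x : ℚ => (x : ℝ)) (Nat.totient_eq_mul_prod_factors r)
    simpa using h
  have h2 := B6_prod_ge r.primeFactors (fun p => 1 / (p : ℝ)) (fun p _ => by positivity) (fun p hp => by
    have h3 : (1 : ℝ) ≤ p := by exact_mod_cast (Nat.prime_of_mem_primeFactors hp).one_lt.le
    rw [div_le_one (by linarith)]
    exact h3)
  obtain ⟨i1, i2, i3⟩ := h2
  have h4 := B6_sum_inv hz hc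
  have h5 : (r.totient : ℝ) / r = ∏ p ∈ r.primeFactors, (1 - 1 / (p : ℝ)) := by
    rw [h1]
    field_simp
  have h6 : 1 / (r.totient : ℝ) - 1 / (r : ℝ) = 1 / (r.totient : ℝ) * (1 - (r.totient : ℝ) / r) := by
    field_simp
  rw [h6, abs_mul, abs_of_pos (by positivity : (0 : ℝ) < 1 / (r.totient : ℝ))]
  apply mul_le_mul_of_nonneg_left _ (by positivity)
  rw [h5, abs_of_nonneg (by linarith)]
  linarith

/-- removing the condition `(m, r) = 1` -/
theorem cop_rem (F : ℕ → ℝ) (K X : ℕ) (hF : ∀ m, |F m| ≤ K) {r z : ℕ} (hr : 1 ≤ r) (hz : 1 ≤ z)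
    (hc : Nat.Coprime r (primorial z)) :
    |∑ m ∈ (Icc 1 X).filter (fun m => Nat.Coprime m r), F m - ∑ m ∈ Icc 1 X, F m| ≤
      K * X * ((r.primeFactors.card : ℝ) / z) := by
  classical
  have h1 := Finset.sum_filter_add_sum_filter_not (Icc 1 X) (fun m => Nat.Coprime m r) F
  have h2 : ∑ m ∈ (Icc 1 X).filter (fun m => Nat.Coprime m r), F m - ∑ m ∈ Icc 1 X, F m =
      - ∑ m ∈ (Icc 1 X).filter (fun m => ¬ Nat.Coprime m r), F m := by linarith
  rw [h2, abs_neg]
  have h3 : (Icc 1 X).filter (fun m => ¬ Nat.Coprime m r) ⊆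
      r.primeFactors.biUnion (fun p => (Icc 1 X).filter (fun m => p ∣ m)) := by
    intro m hm
    obtain ⟨hm1, hm2⟩ := mem_filter.mp hm
    obtain ⟨p, hp, hpm, hpr⟩ := Nat.Prime.not_coprime_iff_dvd.mp hm2
    rw [mem_biUnion]
    exact ⟨p, Nat.mem_primeFactors.mpr ⟨hp, hpr, by omega⟩, mem_filter.mpr ⟨hm1, hpm⟩⟩
  have h4 : ∀ p ∈ r.primeFactors, (((Icc 1 X).filter (fun m => p ∣ m)).card : ℝ) ≤ X * (1 / (p : ℝ)) := by
    intro p hp
    have h5 : ((Icc 1 X).filter (fun m => p ∣ m)).card = X / p := by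
      have h6 := Nat.Ioc_filter_dvd_card_eq_div X p
      rw [← h6]
      rfl
    rw [h5]
    have := Nat.cast_div_le (α := ℝ) (m := X) (n := p)
    rw [mul_one_div]
    exact this
  calc |∑ m ∈ (Icc 1 X).filter (fun m => ¬ Nat.Coprime m r), F m|
      ≤ ∑ m ∈ (Icc 1 X).filter (fun m => ¬ Nat.Coprime m r), |F m| := Finset.abs_sum_le_sum_abs _ _
    _ ≤ ∑ m ∈ (Icc 1 X).filter (fun m => ¬ Nat.Coprime m r), (K : ℝ) := Finset.sum_le_sum fun m _ => hF m
    _ = K * (((Icc 1 X).filter (fun m => ¬ Nat.Coprime m r)).card : ℝ) := by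
        rw [Finset.sum_const, nsmul_eq_mul, mul_comm]
    _ ≤ K * (X * ∑ p ∈ r.primeFactors, (1 : ℝ) / p) := by
        apply mul_le_mul_of_nonneg_left _ (Nat.cast_nonneg _)
        calc (((Icc 1 X).filter (fun m => ¬ Nat.Coprime m r)).card : ℝ)
            ≤ ((r.primeFactors.biUnion (fun p => (Icc 1 X).filter (fun m => p ∣ m))).card : ℝ) := by
              exact_mod_cast card_le_card h3
          _ ≤ ∑ p ∈ r.primeFactors, (((Icc 1 X).filter (fun m => p ∣ m)).card : ℝ) := by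
              exact_mod_cast card_biUnion_le
          _ ≤ ∑ p ∈ r.primeFactors, X * (1 / (p : ℝ)) := Finset.sum_le_sum h4
          _ = _ := by rw [Finset.mul_sum]
    _ ≤ K * (X * ((r.primeFactors.card : ℝ) / z)) := by
        apply mul_le_mul_of_nonneg_left _ (Nat.cast_nonneg _)
        exact mul_le_mul_of_nonneg_left (B6_sum_inv hz hc) (Nat.cast_nonneg _)
    _ = _ := by ring

end Pool.Agent.Lib.MP_092512_nt.P3.B
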