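import Pool.Agent.Lib.MP_092512_nt.P3.BH
import Pool.Agent.Lib.MP_092512_nt.P3.B6

/-!
# P3 part B, module B15: the worst residue class; summing over the moduli `q = ∏ d ∏ r`

`worst`: a system of classes that is worst for every modulus.  `qq_facts`: the modulus `qq d r` is squarefree,
its number of prime factors and its totient.  `fibre_sum`: each modulus `q` arises from at most `(k+1)^ω(q)`
pairs `(d, r)` (`Nat.card_finMulAntidiag_of_squarefree`).
-/

set_option autoImplicit false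

open Finset Pool.Agent.Lib.SW

namespace Pool.Agent.Lib.MP_092512_nt.P3.B

theorem worst (F : ℕ → ℝ) (X : ℕ) : ∃ l : ℕ → ℕ, (∀ q, 1 ≤ q → Nat.Coprime (l q) q) ∧
    ∀ q c, 1 ≤ q → Nat.Coprime c q → |disc F X q c| ≤ |disc F X q (l q)| := by
  have key : ∀ q : ℕ, ∃ l : ℕ, (1 ≤ q → Nat.Coprime l q) ∧
      ∀ c, 1 ≤ q → Nat.Coprime c q → |disc F X q c| ≤ |disc F X q l| := by
    intro q
    by_cases hq : 1 ≤ q
    · have hne : ((range (q + 1)).filter (fun c => Nat.Coprime c q)).Nonempty :=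
        ⟨1, mem_filter.2 ⟨mem_range.2 (by omega), Nat.coprime_one_left q⟩⟩
      obtain ⟨l, hl, hmax⟩ := Finset.exists_max_image _ (fun c => |disc F X q c|) hne
      refine ⟨l, fun _ => (mem_filter.1 hl).2, fun c _ hc => ?_⟩
      have h1 : disc F X q c = disc F X q (c % q) := by
        unfold disc
        simp only [Nat.mod_mod]
      rw [h1]
      refine hmax (c % q) (mem_filter.2 ⟨mem_range.2 ?_, ?_⟩)
      · have := Nat.mod_lt c hq
        omega
      · unfold Nat.Coprime at hc ⊢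
        rw [Nat.gcd_comm] at hc
        rw [← hc]
        exact (Nat.gcd_rec q c).symm
    · exact ⟨0, fun h => absurd h hq, fun c h => absurd h hq⟩
  choose l hl1 hl2 using key
  exact ⟨l, hl1, fun q c h1 h2 => hl2 q c h1 h2⟩

theorem b15_prod {ι : Type*} (s : Finset ι) (r : ι → ℕ) (hr : ∀ i ∈ s, Squarefree (r i))
    (hc : ∀ i ∈ s, ∀ j ∈ s, i ≠ j → Nat.Coprime (r i) (r j)) :
    Squarefree (∏ i ∈ s, r i) ∧
      (∏ i ∈ s, r i).primeFactors.card = ∑ i ∈ s, (r i).primeFactors.card ∧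
      (∏ i ∈ s, r i).totient = ∏ i ∈ s, (r i).totient := by
  classical
  induction s using Finset.induction_on with
  | empty => simp
  | insert a s ha ih =>
    obtain ⟨h1, h2, h3⟩ := ih (fun i hi => hr i (mem_insert_of_mem hi))
      (fun i hi j hj hij => hc i (mem_insert_of_mem hi) j (mem_insert_of_mem hj) hij)
    have hcop : Nat.Coprime (r a) (∏ i ∈ s, r i) := by
      refine Nat.Coprime.prod_right fun i hi => ?_
      refine hc a (mem_insert_self a s) i (mem_insert_of_mem hi) ?_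
      rintro rfl
      exact ha hi
    rw [prod_insert ha, sum_insert ha, prod_insert ha]
    refine ⟨(Nat.squarefree_mul_iff).2 ⟨hcop, hr a (mem_insert_self a s), h1⟩, ?_, ?_⟩
    · rw [hcop.primeFactors_mul, card_union_of_disjoint hcop.disjoint_primeFactors, h2]
    · rw [Nat.totient_mul hcop, h3]

theorem b15_cop {k : ℕ} {z : ℕ} {d : Finset ℕ} (hd : d ⊆ pz z) {r : Fin k → ℕ}
    (hc : ∀ i, Nat.Coprime (r i) (primorial z)) : Nat.Coprime (∏ p ∈ d, p) (∏ i, r i) := by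
  refine Nat.Coprime.prod_left fun p hp => Nat.Coprime.prod_right fun i _ => ?_
  have hp' := mem_pz.1 (hd hp)
  exact (Nat.Prime.coprime_iff_not_dvd hp'.1).2 (cop_iff.1 (hc i) p (hd hp))

theorem b15_d {z : ℕ} {d : Finset ℕ} (hd : d ⊆ pz z) :
    Squarefree (∏ p ∈ d, p) ∧ (∏ p ∈ d, p).primeFactors.card = d.card ∧
      (∏ p ∈ d, p).totient = ∏ p ∈ d, (p - 1) := by
  obtain ⟨h1, h2, h3⟩ := b15_prod d (fun p => p)
    (fun p hp => (mem_pz.1 (hd hp)).1.squarefree)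
    (fun p hp p' hp' hne => (Nat.coprime_primes (mem_pz.1 (hd hp)).1 (mem_pz.1 (hd hp')).1).2 hne)
  refine ⟨h1, ?_, ?_⟩
  · rw [h2, card_eq_sum_ones]
    exact sum_congr rfl fun p hp => by
      rw [(mem_pz.1 (hd hp)).1.primeFactors, card_singleton]
  · rw [h3]
    exact prod_congr rfl fun p hp => Nat.totient_prime (mem_pz.1 (hd hp)).1

theorem qq_facts {k : ℕ} {z : ℕ} {d : Finset ℕ} (hd : d ⊆ pz z) {r : Fin k → ℕ}
    (hr : ∀ i, Squarefree (r i)) (hc : ∀ i, Nat.Coprime (r i) (primorial z)) (hP : PC r) :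
    Squarefree (qq d r) ∧ (qq d r).primeFactors.card = d.card + ∑ i, (r i).primeFactors.card ∧
      ((qq d r).totient : ℝ) = (∏ p ∈ d, ((p : ℝ) - 1)) * ∏ i, ((r i).totient : ℝ) := by
  have hcop := b15_cop hd hc
  obtain ⟨h1, h2, h3⟩ := b15_d hd
  obtain ⟨g1, g2, g3⟩ := b15_prod univ r (fun i _ => hr i) (fun i _ j _ hij => hP i j hij)
  unfold qq
  refine ⟨(Nat.squarefree_mul_iff).2 ⟨hcop, h1, g1⟩, ?_, ?_⟩
  · rw [hcop.primeFactors_mul, card_union_of_disjoint hcop.disjoint_primeFactors, h2, g2]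
  · rw [Nat.totient_mul hcop, h3, g3]
    push_cast
    congr 1
    refine prod_congr rfl fun p hp => ?_
    have := (mem_pz.1 (hd hp)).1.one_le
    push_cast [Nat.cast_sub this]
    rfl

theorem b15_inj {z : ℕ} {d d' : Finset ℕ} (hd : d ⊆ pz z) (hd' : d' ⊆ pz z)
    (h : ∏ p ∈ d, p = ∏ p ∈ d', p) : d = d' := by
  have e1 : (∏ p ∈ d, p).primeFactors = d :=
    Nat.primeFactors_prod fun p hp => (mem_pz.1 (hd hp)).1
  have e2 : (∏ p ∈ d', p).primeFactors = d' :=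
    Nat.primeFactors_prod fun p hp => (mem_pz.1 (hd' hp)).1
  rw [← e1, ← e2, h]

open Classical in
/-- the fibre over one modulus -/
theorem b15_fibre {k : ℕ} (z m : ℕ) (N : Fin k → ℕ) (q : ℕ) :
    ((((pz z).powerset.filter (fun d => d.card ≤ m)) ×ˢ ((PB N).filter (fun r =>
        ∀ i, Squarefree (r i) ∧ Nat.Coprime (r i) (primorial z)))).filter
      (fun x => qq x.1 x.2 = q)).card ≤ (k + 1) ^ q.primeFactors.card := by
  set S := ((((pz z).powerset.filter (fun d => d.card ≤ m)) ×ˢ ((PB N).filter (fun r =>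
        ∀ i, Squarefree (r i) ∧ Nat.Coprime (r i) (primorial z)))).filter
      (fun x => qq x.1 x.2 = q)) with hS
  rcases S.eq_empty_or_nonempty with he | ⟨x, hx⟩
  · rw [he]
    simp
  have hmem : ∀ y ∈ S, y.1 ⊆ pz z ∧ PC y.2 ∧ (∀ i, Squarefree (y.2 i)) ∧
      (∀ i, Nat.Coprime (y.2 i) (primorial z)) ∧ qq y.1 y.2 = q := by
    intro y hy
    rw [hS] at hy
    obtain ⟨hy1, hy2⟩ := mem_filter.1 hy
    obtain ⟨hy3, hy4⟩ := mem_product.1 hy1
    have hy5 := mem_powerset.1 (mem_filter.1 hy3).1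
    obtain ⟨hy6, hy7⟩ := mem_filter.1 hy4
    have hy8 : PC y.2 := (mem_filter.1 hy6).2
    exact ⟨hy5, hy8, fun i => (hy7 i).1, fun i => (hy7 i).2, hy2⟩
  have hsq : Squarefree q := by
    obtain ⟨h1, h2, h3, h4, h5⟩ := hmem x hx
    rw [← h5]
    exact (qq_facts h1 h3 h4 h2).1
  have hcard := Nat.card_finMulAntidiag_of_squarefree (d := k + 1) hsq
  have hom : ArithmeticFunction.cardDistinctFactors q = q.primeFactors.card := by
    rw [ArithmeticFunction.cardDistinctFactors_apply, Nat.primeFactors, List.card_toFinset]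
  rw [hom] at hcard
  rw [← hcard]
  refine card_le_card_of_injOn (fun y => Fin.cons (∏ p ∈ y.1, p) y.2) ?_ ?_
  · intro y hy
    obtain ⟨h1, h2, h3, h4, h5⟩ := hmem y hy
    refine Finset.mem_coe.2 (Nat.mem_finMulAntidiag.2 ⟨?_, hsq.ne_zero⟩)
    rw [Fin.prod_cons]
    exact h5
  · intro y hy y' hy' hyy
    obtain ⟨h1, -⟩ := hmem y hy
    obtain ⟨h1', -⟩ := hmem y' hy'
    have hyy2 := Fin.cons_injective2 hyy
    exact Prod.ext (b15_inj h1 h1' hyy2.1) hyy2.2

theorem b15_prod_le {z m : ℕ} (hz : 1 ≤ z) {d : Finset ℕ} (hd : d ⊆ pz z) (hm : d.card ≤ m) :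
    ∏ p ∈ d, p ≤ z ^ m := by
  calc ∏ p ∈ d, p ≤ ∏ _p ∈ d, z := prod_le_prod' fun p hp => (mem_pz.1 (hd hp)).2
    _ = z ^ d.card := by rw [prod_const]
    _ ≤ z ^ m := Nat.pow_le_pow_right hz hm

open Classical in
theorem fibre_sum {k : ℕ} (hk : 1 ≤ k) (z m Q : ℕ) (hz : 1 ≤ z) (N : Fin k → ℕ) (hQ : z ^ m * ∏ i, N i ≤ Q)
    (G : ℕ → ℝ) (hG : ∀ q, 0 ≤ G q) :
    ∑ d ∈ (pz z).powerset with d.card ≤ m, ∑ r ∈ (PB N).filter (fun r =>
        ∀ i, Squarefree (r i) ∧ Nat.Coprime (r i) (primorial z)),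
      (k : ℝ) ^ d.card * 3 ^ (∑ i, (r i).primeFactors.card) * G (qq d r) ≤
      ∑ q ∈ Icc 1 Q, ((3 * k * (k + 1) : ℕ) : ℝ) ^ q.primeFactors.card * G q := by
  have hk1 : (1 : ℝ) ≤ (k : ℝ) := by exact_mod_cast hk
  rw [← sum_product' (f := fun (d : Finset ℕ) (r : Fin k → ℕ) =>
    (k : ℝ) ^ d.card * 3 ^ (∑ i, (r i).primeFactors.card) * G (qq d r))]
  set S := (((pz z).powerset.filter (fun d => d.card ≤ m)) ×ˢ ((PB N).filter (fun r =>
        ∀ i, Squarefree (r i) ∧ Nat.Coprime (r i) (primorial z)))) with hS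
  have hmem : ∀ y ∈ S, y.1 ⊆ pz z ∧ y.1.card ≤ m ∧ PC y.2 ∧ (∀ i, Squarefree (y.2 i)) ∧
      (∀ i, Nat.Coprime (y.2 i) (primorial z)) ∧ (∀ i, y.2 i ∈ Icc 1 (N i)) := by
    intro y hy
    rw [hS] at hy
    obtain ⟨hy3, hy4⟩ := mem_product.1 hy
    have hy5 := mem_powerset.1 (mem_filter.1 hy3).1
    obtain ⟨hy6, hy7⟩ := mem_filter.1 hy4
    obtain ⟨hy8, hy9⟩ := mem_filter.1 hy6
    exact ⟨hy5, (mem_filter.1 hy3).2, hy9, fun i => (hy7 i).1, fun i => (hy7 i).2,
      fun i => Fintype.mem_piFinset.1 hy8 i⟩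
  have hmaps : ∀ y ∈ S, qq y.1 y.2 ∈ Icc 1 Q := by
    intro y hy
    obtain ⟨h1, h2, h3, h4, h5, h6⟩ := hmem y hy
    refine mem_Icc.2 ⟨Nat.one_le_iff_ne_zero.2 (qq_facts h1 h4 h5 h3).1.ne_zero, ?_⟩
    refine le_trans ?_ hQ
    exact Nat.mul_le_mul (b15_prod_le hz h1 h2) (prod_le_prod' fun i _ => (mem_Icc.1 (h6 i)).2)
  rw [← sum_fiberwise_of_maps_to hmaps]
  refine sum_le_sum fun q hq => ?_
  have hterm : ∀ y ∈ S.filter (fun y => qq y.1 y.2 = q),
      (k : ℝ) ^ y.1.card * 3 ^ (∑ i, (y.2 i).primeFactors.card) * G (qq y.1 y.2) ≤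
        (3 * (k : ℝ)) ^ q.primeFactors.card * G q := by
    intro y hy
    obtain ⟨hy1, hy2⟩ := mem_filter.1 hy
    obtain ⟨h1, h2, h3, h4, h5, h6⟩ := hmem y hy1
    have hcardq := (qq_facts h1 h4 h5 h3).2.1
    rw [hy2] at hcardq
    rw [hy2]
    refine mul_le_mul_of_nonneg_right ?_ (hG q)
    rw [hcardq, pow_add]
    refine mul_le_mul ?_ ?_ (by positivity) (by positivity)
    · exact pow_le_pow_left₀ (by positivity) (by linarith) _
    · exact pow_le_pow_left₀ (by positivity) (by linarith) _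
  refine (sum_le_sum hterm).trans ?_
  rw [sum_const, nsmul_eq_mul]
  have hc : ((S.filter (fun y => qq y.1 y.2 = q)).card : ℝ) ≤ ((k : ℝ) + 1) ^ q.primeFactors.card := by
    have := b15_fibre z m N q
    rw [← hS] at this
    calc ((S.filter (fun y => qq y.1 y.2 = q)).card : ℝ) ≤ (((k + 1) ^ q.primeFactors.card : ℕ) : ℝ) := by
          exact_mod_cast this
      _ = ((k : ℝ) + 1) ^ q.primeFactors.card := by push_cast; ring
  calc ((S.filter (fun y => qq y.1 y.2 = q)).card : ℝ) * ((3 * (k : ℝ)) ^ q.primeFactors.card * G q)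
      ≤ ((k : ℝ) + 1) ^ q.primeFactors.card * ((3 * (k : ℝ)) ^ q.primeFactors.card * G q) :=
        mul_le_mul_of_nonneg_right hc (mul_nonneg (by positivity) (hG q))
    _ = ((3 * k * (k + 1) : ℕ) : ℝ) ^ q.primeFactors.card * G q := by
        push_cast
        rw [mul_pow, mul_pow, mul_pow]
        ring

end Pool.Agent.Lib.MP_092512_nt.P3.B
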