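import Pool.Agent.Lib.MP_092512_nt.P3.BH
import Pool.Agent.Lib.MP_092512_nt.P3.B5
import Pool.Agent.Lib.MP_092512_nt.P3.B15

/-!
# P3 part B, module B16: the sum of `F` over one pair `(d, r)`

PROOF of `inner_F`.  Let `q = qq d r`, `C` from `classes` for `Ω = Oe h i0` (`∀ i`, `Nat.Coprime p (r i)` for `p ∈ d`:
`hc`, `cop_iff`): the conditions say `n % q ∈ C`, `|C| = ∏ |Oe|`.  For `c ∈ C` the number `c + h i0` is coprime to q:
`c` itself satisfies the conditions (`c < q`, `Nat.mod_eq_of_lt`); a prime `p ∣ q` is in `d` or divides some `r i`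
(`Nat.Prime.dvd_mul`, `Prime.exists_mem_finset_dvd`); `p ∈ d`: `c % p ∈ Oe h i0 p` is not `ngc (h i0) p`, so
`¬ p ∣ c + h i0` (`ngc_iff`); `p ∣ r i`, `i ≠ i0` (as `r i0 = 1`): `p > z` (`rough_prime`) and `p ∣ c + h i`, so
`p ∣ c + h i0` would give `p ∣ h i - h i0 ≠ 0` in absolute value `< z`, contradiction.
Sum over n: `∑_{n ∈ Ioc x (2x), n % q ∈ C} F(n + h i0) = ∑_{c ∈ C} ∑_{n ∈ Ioc x (2x), n % q = c} F (n + h i0)`
(`sum_fiberwise_of_maps_to`), and the inner sum is `∑_{m ∈ Icc 1 (3x), m % q = (c + h i0) % q} F m` (substitution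
`m = n + h i0`, F vanishes outside `(x + h i0, 2x + h i0]`, `2x + h i0 ≤ 3x`; `n % q = c ↔ (n + h i0) % q = (c + h i0) % q`:
`Nat.ModEq.add_right_cancel'`), `= disc F (3x) q (c + h i0) + (1/φ(q)) ∑_{(m,q)=1} F m`; and
`∑_{(m,q)=1} F m = FR F (3x) r` because `F m ≠ 0` implies `m` coprime to the primorial, hence to all `p ∈ d`.
`φ(q)` from `qq_facts`, `|C|/φ(q) = ∏ |Oe|/(p-1) ∏ 1/φ(r i)`; `|∑_{c ∈ C} disc| ≤ |C| |disc F (3x) q (l q)|`.
-/

set_option autoImplicit false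

open Finset Pool.Agent.Lib.SW

namespace Pool.Agent.Lib.MP_092512_nt.P3.B

private theorem B16_sub {k : ℕ} (h : Fin k → ℕ) (hinj : Function.Injective h) (i0 : Fin k) (z : ℕ)
    (hz : ∀ i, h i < z) (d : Finset ℕ) (r : Fin k → ℕ) (hd : ∀ p ∈ d, p.Prime) (hr : ∀ i, Squarefree (r i))
    (hc : ∀ i, Nat.Coprime (r i) (primorial z)) (hr0 : r i0 = 1) (c : ℕ)
    (h1 : ∀ p ∈ d, c % p ∈ Oe h i0 p) (h2 : ∀ i, r i ∣ c + h i) : Nat.Coprime (c + h i0) (qq d r) := by
  unfold qq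
  refine Nat.Coprime.mul_right ?_ ?_
  · refine Nat.Coprime.prod_right (fun p hp => ?_)
    rw [Nat.coprime_comm, (hd p hp).coprime_iff_not_dvd]
    intro hdvd
    have h3 := (ngc_iff (hd p hp).pos).mpr hdvd
    have h4 := h1 p hp
    unfold Oe at h4
    rw [Finset.mem_erase] at h4
    exact h4.1 h3
  · refine Nat.Coprime.prod_right (fun i _ => ?_)
    by_cases hi : i = i0
    · rw [hi, hr0]
      exact Nat.coprime_one_right _
    · refine Nat.Coprime.symm (Nat.coprime_of_dvd ?_)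
      intro p hp hp1 hp2
      have hp3 : p ∈ (r i).primeFactors := Nat.mem_primeFactors.mpr ⟨hp, hp1, (hr i).ne_zero⟩
      have hp4 := rough_prime (hc i) hp3
      have hp5 : (p : ℤ) ∣ ((c + h i : ℕ) : ℤ) := Int.natCast_dvd_natCast.mpr (dvd_trans hp1 (h2 i))
      have hp6 : (p : ℤ) ∣ ((c + h i0 : ℕ) : ℤ) := Int.natCast_dvd_natCast.mpr hp2
      have hp7 := dvd_sub hp5 hp6
      have h8 : ((c + h i : ℕ) : ℤ) - ((c + h i0 : ℕ) : ℤ) = (h i : ℤ) - (h i0 : ℤ) := by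
        push_cast
        ring
      rw [h8] at hp7
      have h9 : (h i : ℤ) - (h i0 : ℤ) = 0 := by
        refine Int.eq_zero_of_abs_lt_dvd hp7 ?_
        have h10 := hz i
        have h11 := hz i0
        rw [abs_lt]
        constructor <;> omega
      have h12 : h i = h i0 := by omega
      exact hi (hinj h12)

private theorem B16_shift (F : ℕ → ℝ) (x a q c : ℕ) (hax : a ≤ x) (hc : c < q)
    (hF : ∀ m, F m ≠ 0 → x + a < m ∧ m ≤ 2 * x + a) :
    ∑ n ∈ (Ioc x (2 * x)).filter (fun n => n % q = c), F (n + a) =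
      ∑ m ∈ (Icc 1 (3 * x)).filter (fun m => m % q = (c + a) % q), F m := by
  have h1 : ∑ m ∈ (Icc 1 (3 * x)).filter (fun m => m % q = (c + a) % q), F m =
      ∑ m ∈ (Ioc (x + a) (2 * x + a)).filter (fun m => m % q = (c + a) % q), F m := by
    symm
    refine Finset.sum_subset ?_ ?_
    · intro m hm
      rw [Finset.mem_filter, Finset.mem_Ioc] at hm
      rw [Finset.mem_filter, Finset.mem_Icc]
      exact ⟨⟨by omega, by omega⟩, hm.2⟩
    · intro m hm hm2
      by_contra hne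
      obtain ⟨h3, h4⟩ := hF m hne
      rw [Finset.mem_filter] at hm
      exact hm2 (Finset.mem_filter.mpr ⟨Finset.mem_Ioc.mpr ⟨h3, h4⟩, hm.2⟩)
  rw [h1]
  have hiff : ∀ n, n % q = c ↔ (n + a) % q = (c + a) % q := by
    intro n
    constructor
    · intro h
      have h2 : n ≡ c [MOD q] := by
        unfold Nat.ModEq
        rw [h, Nat.mod_eq_of_lt hc]
      exact h2.add_right a
    · intro h
      have h2 : n + a ≡ c + a [MOD q] := h
      have h3 := Nat.ModEq.add_right_cancel' a h2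
      have h4 : n % q = c % q := h3
      rw [h4, Nat.mod_eq_of_lt hc]
  refine Finset.sum_bij (fun n _ => n + a) ?_ ?_ ?_ ?_
  · intro n hn
    rw [Finset.mem_filter, Finset.mem_Ioc] at hn
    rw [Finset.mem_filter, Finset.mem_Ioc]
    exact ⟨⟨by omega, by omega⟩, (hiff n).mp hn.2⟩
  · intro n _ n' _ h
    exact Nat.add_right_cancel h
  · intro m hm
    rw [Finset.mem_filter, Finset.mem_Ioc] at hm
    refine ⟨m - a, ?_, Nat.sub_add_cancel (by omega)⟩
    rw [Finset.mem_filter, Finset.mem_Ioc]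
    refine ⟨⟨by omega, by omega⟩, ?_⟩
    rw [hiff, Nat.sub_add_cancel (by omega)]
    exact hm.2
  · intro n _
    rfl

theorem inner_F {k : ℕ} (h : Fin k → ℕ) (hinj : Function.Injective h) (i0 : Fin k) (z x : ℕ)
    (hz : ∀ i, h i < z) (hzx : z ≤ x) (F : ℕ → ℝ)
    (hF : ∀ m, F m ≠ 0 → x + h i0 < m ∧ m ≤ 2 * x + h i0 ∧ Nat.Coprime m (primorial z))
    (l : ℕ → ℕ) (hl : ∀ q c, 1 ≤ q → Nat.Coprime c q → |disc F (3 * x) q c| ≤ |disc F (3 * x) q (l q)|)
    (d : Finset ℕ) (hd : d ⊆ pz z) (r : Fin k → ℕ) (hr : ∀ i, Squarefree (r i))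
    (hc : ∀ i, Nat.Coprime (r i) (primorial z)) (hr0 : r i0 = 1) (hP : PC r) :
    |∑ n ∈ (Ioc x (2 * x)).filter (fun n => (∀ p ∈ d, n % p ∈ Oe h i0 p) ∧ ∀ i, r i ∣ n + h i),
          F (n + h i0) -
        (∏ p ∈ d, ((Oe h i0 p).card : ℝ) / ((p : ℝ) - 1)) * (∏ i, 1 / ((r i).totient : ℝ)) *
          FR F (3 * x) r| ≤
      (∏ p ∈ d, ((Oe h i0 p).card : ℝ)) * |disc F (3 * x) (qq d r) (l (qq d r))| := by
  have hd' : ∀ p ∈ d, p.Prime := fun p hp => (mem_pz.mp (hd hp)).1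
  have hcd : ∀ p ∈ d, ∀ i, Nat.Coprime p (r i) := by
    intro p hp i
    rw [(hd' p hp).coprime_iff_not_dvd]
    exact cop_iff.mp (hc i) p (hd hp)
  obtain ⟨C, hC1, hC2, hC3⟩ := classes h r (fun i => Nat.one_le_iff_ne_zero.mpr (hr i).ne_zero) hP d hd' (Oe h i0)
    (fun p hp => Oe_lt h i0 (hd' p hp).pos) hcd
  have hq : 1 ≤ qq d r := by
    unfold qq
    refine Nat.one_le_iff_ne_zero.mpr (mul_ne_zero ?_ ?_)
    · exact Finset.prod_ne_zero_iff.mpr (fun p hp => (hd' p hp).ne_zero)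
    · exact Finset.prod_ne_zero_iff.mpr (fun i _ => (hr i).ne_zero)
  obtain ⟨_, _, hphi⟩ := qq_facts hd hr hc hP
  have hcopC : ∀ c ∈ C, Nat.Coprime (c + h i0) (qq d r) := by
    intro c hcC
    have hlt : c < qq d r := Finset.mem_range.mp (hC1 hcC)
    have h1 := (hC3 c).mpr (by rw [Nat.mod_eq_of_lt hlt]; exact hcC)
    exact B16_sub h hinj i0 z hz d r hd' hr hc hr0 c h1.1 h1.2
  have hax : h i0 ≤ x := le_trans (hz i0).le hzx
  have hsum : ∑ n ∈ (Ioc x (2 * x)).filter (fun n => (∀ p ∈ d, n % p ∈ Oe h i0 p) ∧ ∀ i, r i ∣ n + h i),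
      F (n + h i0) = ∑ c ∈ C, ∑ m ∈ (Icc 1 (3 * x)).filter (fun m => m % (qq d r) = (c + h i0) % (qq d r)), F m := by
    have h1 : (Ioc x (2 * x)).filter (fun n => (∀ p ∈ d, n % p ∈ Oe h i0 p) ∧ ∀ i, r i ∣ n + h i) =
        (Ioc x (2 * x)).filter (fun n => n % (qq d r) ∈ C) := Finset.filter_congr (fun n _ => hC3 n)
    rw [h1, ← Finset.sum_fiberwise_of_maps_to (t := C) (g := fun n => n % (qq d r))
      (fun n hn => (Finset.mem_filter.mp hn).2)]
    refine Finset.sum_congr rfl (fun c hcC => ?_)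
    rw [← B16_shift F x (h i0) (qq d r) c hax (Finset.mem_range.mp (hC1 hcC))
      (fun m hm => ⟨(hF m hm).1, (hF m hm).2.1⟩)]
    refine Finset.sum_congr ?_ (fun _ _ => rfl)
    ext n
    rw [Finset.mem_filter, Finset.mem_filter, Finset.mem_filter]
    constructor
    · rintro ⟨⟨h2, _⟩, h3⟩
      exact ⟨h2, h3⟩
    · rintro ⟨h2, h3⟩
      refine ⟨⟨h2, ?_⟩, h3⟩
      rw [h3]
      exact hcC
  have hS : ∑ m ∈ (Icc 1 (3 * x)).filter (fun m => Nat.Coprime m (qq d r)), F m = FR F (3 * x) r := by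
    unfold FR
    rw [Finset.sum_filter, Finset.sum_filter]
    refine Finset.sum_congr rfl (fun m _ => ?_)
    by_cases hm : F m = 0
    · rw [hm]
      split_ifs <;> rfl
    · have h1 := (hF m hm).2.2
      have h2 : Nat.Coprime m (∏ p ∈ d, p) := by
        refine Nat.Coprime.prod_right (fun p hp => ?_)
        rw [Nat.coprime_comm, (hd' p hp).coprime_iff_not_dvd]
        exact cop_iff.mp h1 p (hd hp)
      have h3 : Nat.Coprime m (qq d r) ↔ Nat.Coprime m (∏ i, r i) := by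
        unfold qq
        rw [Nat.coprime_mul_iff_right]
        exact ⟨fun h => h.2, fun h => ⟨h2, h⟩⟩
      simp only [h3]
  have hinner : ∀ c, ∑ m ∈ (Icc 1 (3 * x)).filter (fun m => m % (qq d r) = (c + h i0) % (qq d r)), F m =
      disc F (3 * x) (qq d r) (c + h i0) + 1 / ((qq d r).totient : ℝ) * FR F (3 * x) r := by
    intro c
    unfold disc
    rw [hS]
    ring
  have hcoef : (C.card : ℝ) * (1 / ((qq d r).totient : ℝ)) =
      (∏ p ∈ d, ((Oe h i0 p).card : ℝ) / ((p : ℝ) - 1)) * (∏ i, 1 / ((r i).totient : ℝ)) := by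
    rw [hphi, hC2, Finset.prod_div_distrib, Finset.prod_div_distrib, Finset.prod_const_one]
    push_cast
    rw [div_mul_div_comm, mul_one, mul_one_div]
  have hdiff : ∑ n ∈ (Ioc x (2 * x)).filter (fun n => (∀ p ∈ d, n % p ∈ Oe h i0 p) ∧ ∀ i, r i ∣ n + h i),
          F (n + h i0) -
        (∏ p ∈ d, ((Oe h i0 p).card : ℝ) / ((p : ℝ) - 1)) * (∏ i, 1 / ((r i).totient : ℝ)) *
          FR F (3 * x) r = ∑ c ∈ C, disc F (3 * x) (qq d r) (c + h i0) := by
    rw [hsum, Finset.sum_congr rfl (fun c _ => hinner c), Finset.sum_add_distrib, Finset.sum_const, nsmul_eq_mul,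
      ← mul_assoc, hcoef]
    ring
  rw [hdiff]
  refine le_trans (Finset.abs_sum_le_sum_abs _ _) ?_
  refine le_trans (Finset.sum_le_sum (fun c hcC => hl (qq d r) (c + h i0) hq (hcopC c hcC))) ?_
  rw [Finset.sum_const, nsmul_eq_mul, hC2]
  push_cast
  exact le_refl _

end Pool.Agent.Lib.MP_092512_nt.P3.B
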