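import Pool.Agent.Lib.MP_092512_nt.P3.B16

/-!
# P3 part B, module B17: evaluation of the truncated sum for `F`

PROOF of `F_T`.  `worst F (3x)` gives `l`; `hLev l` gives `∑_{q ≤ Q} K'^ω |disc F (3x) q (l q)| ≤ E`,
`K' = 3k(k+1)`.  As in `int_T`: fix `d`, `s = (Ioc x (2x)).filter (∀ p ∈ d, n % p ∈ Oe h i0 p)`, `stepB` with
`u n = F (n + h i0)`: `∑ n ∈ s, F (n + h i0) * ww h α n = ∑ r ∈ piFinset, (∏ α i (r i)) * ∑_{n ∈ s, ∀ i, r i ∣ n + h i} F (n + h i0)`.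
For each `r ∈ piFinset` with `∏ α ≠ 0`: `r i` squarefree, coprime to the primorial, `r i0 = 1` (`h0`); if `¬ PC r` the inner
sum is empty (`cross`); if `PC r`: `inner_F`.  So the difference to `∏|Oe|/(p-1) * ∑_{r ∈ PB N} ∏ (α i (r i)/φ) * FR` is at
most `∑_{r ∈ PB N, squarefree, coprime} (∏ |α i (r i)|) (∏ |Oe|) |disc … (l …)|`, `|α i r| ≤ K 3^ω(r)`, `|Oe| ≤ k`
(`card_Oe_le`), so `≤ K^k * k^card d * 3^(∑ω) * |disc|`; sum over d: `fibre_sum` with `G q = |disc F (3x) q (l q)|`.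
-/

set_option autoImplicit false

open Finset Pool.Agent.Lib.SW

namespace Pool.Agent.Lib.MP_092512_nt.P3.B

open Classical in
private theorem B17_stepd {k : ℕ} (h : Fin k → ℕ) (i0 : Fin k) (z x m : ℕ) (α : Fin k → ℕ → ℝ) (N : Fin k → ℕ) (D : ℝ)
    (H : Hyp h z x m α N D) (K : ℕ) (hαK : ∀ i r, |α i r| ≤ K * 3 ^ r.primeFactors.card)
    (h0 : ∀ r, α i0 r ≠ 0 → r = 1) (F : ℕ → ℝ)
    (hF : ∀ m, F m ≠ 0 → x + h i0 < m ∧ m ≤ 2 * x + h i0 ∧ Nat.Coprime m (primorial z))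
    (l : ℕ → ℕ) (hl : ∀ q c, 1 ≤ q → Nat.Coprime c q → |disc F (3 * x) q c| ≤ |disc F (3 * x) q (l q)|)
    (hzx : z ≤ x)
    (d : Finset ℕ) (hd : d ⊆ pz z) :
    |∑ n ∈ (Ioc x (2 * x)).filter (fun n => ∀ p ∈ d, n % p ∈ Oe h i0 p),
            F (n + h i0) * ww h α n -
        (∏ p ∈ d, ((Oe h i0 p).card : ℝ) / ((p : ℝ) - 1)) *
          ∑ r ∈ PB N, (∏ i, α i (r i) / ((r i).totient : ℝ)) * FR F (3 * x) r| ≤
      ∑ r ∈ (PB N).filter (fun r => ∀ i, Squarefree (r i) ∧ Nat.Coprime (r i) (primorial z)),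
        (K : ℝ) ^ k * ((k : ℝ) ^ d.card * 3 ^ (∑ i, (r i).primeFactors.card) *
          |disc F (3 * x) (qq d r) (l (qq d r))|) := by
  set s := (Ioc x (2 * x)).filter (fun n => ∀ p ∈ d, n % p ∈ Oe h i0 p) with hs
  have hα1 : ∀ i r, α i r ≠ 0 → 1 ≤ r ∧ r ≤ N i := fun i r hr =>
    ⟨Nat.one_le_iff_ne_zero.mpr (H.sf i r hr).ne_zero, H.le i r hr⟩
  have hs1 : ∀ n ∈ s, 1 ≤ n := by
    intro n hn
    have := (mem_Ioc.mp (mem_filter.mp hn).1).1
    omega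
  have e1 : ∑ n ∈ s, F (n + h i0) * ww h α n =
      ∑ r ∈ Fintype.piFinset (fun i => Icc 1 (N i)), (∏ i, α i (r i)) *
        ∑ n ∈ s.filter (fun n => ∀ i, r i ∣ n + h i), F (n + h i0) :=
    stepB h α N hα1 s hs1 (fun n => F (n + h i0))
  -- restrict to the good tuples
  set G := (PB N).filter (fun r => ∀ i, Squarefree (r i) ∧ Nat.Coprime (r i) (primorial z)) with hG
  have hGsub : G ⊆ Fintype.piFinset (fun i => Icc 1 (N i)) := by
    intro r hr
    exact (mem_filter.mp (mem_filter.mp hr).1).1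
  have hGsub' : G ⊆ PB N := filter_subset _ _
  have e2 : ∑ r ∈ Fintype.piFinset (fun i => Icc 1 (N i)), (∏ i, α i (r i)) *
        ∑ n ∈ s.filter (fun n => ∀ i, r i ∣ n + h i), F (n + h i0) =
      ∑ r ∈ G, (∏ i, α i (r i)) *
        ∑ n ∈ s.filter (fun n => ∀ i, r i ∣ n + h i), F (n + h i0) := by
    symm
    apply sum_subset hGsub
    intro r hr hrG
    by_cases hz0 : (∏ i, α i (r i)) = 0
    · rw [hz0, zero_mul]
    have hne : ∀ i, α i (r i) ≠ 0 := fun i => (prod_ne_zero_iff.mp hz0) i (mem_univ i)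
    have hcop : ∀ i, Nat.Coprime (r i) (primorial z) := fun i => H.cop i _ (hne i)
    have hnP : ¬ PC r := by
      intro hP
      apply hrG
      rw [hG, mem_filter]
      refine ⟨?_, fun i => ⟨H.sf i _ (hne i), hcop i⟩⟩
      unfold PB
      rw [mem_filter]
      exact ⟨hr, hP⟩
    have hemp : s.filter (fun n => ∀ i, r i ∣ n + h i) = ∅ := by
      rw [filter_eq_empty_iff]
      intro n _ hn
      exact hnP (cross h r H.inj z H.hz hcop n hn)
    rw [hemp, sum_empty, mul_zero]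
  have e3 : ∑ r ∈ PB N, (∏ i, α i (r i) / ((r i).totient : ℝ)) * FR F (3 * x) r =
      ∑ r ∈ G, (∏ i, α i (r i) / ((r i).totient : ℝ)) * FR F (3 * x) r := by
    symm
    apply sum_subset hGsub'
    intro r hr hrG
    have : (∏ i, α i (r i) / ((r i).totient : ℝ)) = 0 := by
      by_contra hz0
      apply hrG
      rw [hG, mem_filter]
      refine ⟨hr, fun i => ?_⟩
      have h1 : α i (r i) ≠ 0 := by
        intro h2
        exact (prod_ne_zero_iff.mp hz0) i (mem_univ i) (by rw [h2, zero_div])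
      exact ⟨H.sf i _ h1, H.cop i _ h1⟩
    rw [this, zero_mul]
  rw [e1, e2, e3, mul_sum, ← sum_sub_distrib]
  refine (abs_sum_le_sum_abs _ _).trans (sum_le_sum ?_)
  intro r hr
  have hrG := (mem_filter.mp hr).2
  have hrP : PC r := by
    have := (mem_filter.mp hr).1
    unfold PB at this
    exact (mem_filter.mp this).2
  by_cases hz0 : (∏ i, α i (r i)) = 0
  · have : (∏ i, α i (r i) / ((r i).totient : ℝ)) = 0 := by
      obtain ⟨i, _, hi⟩ := prod_eq_zero_iff.mp hz0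
      exact prod_eq_zero (mem_univ i) (by rw [hi, zero_div])
    rw [hz0, this]
    simp only [zero_mul, mul_zero, sub_zero, abs_zero]
    positivity
  have hne : ∀ i, α i (r i) ≠ 0 := fun i => (prod_ne_zero_iff.mp hz0) i (mem_univ i)
  have hr0 : r i0 = 1 := h0 _ (hne i0)
  have hin := inner_F h H.inj i0 z x H.hz hzx F hF l hl d hd r (fun i => (hrG i).1) (fun i => (hrG i).2) hr0 hrP
  have hfil : s.filter (fun n => ∀ i, r i ∣ n + h i) =
      (Ioc x (2 * x)).filter (fun n => (∀ p ∈ d, n % p ∈ Oe h i0 p) ∧ ∀ i, r i ∣ n + h i) := by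
    rw [hs, filter_filter]
  rw [hfil]
  have e4 : (∏ i, α i (r i) / ((r i).totient : ℝ)) = (∏ i, α i (r i)) * ∏ i, 1 / ((r i).totient : ℝ) := by
    rw [← prod_mul_distrib]
    apply prod_congr rfl
    intro i _
    rw [mul_one_div]
  rw [e4]
  have e5 : (∏ i, α i (r i)) * ∑ n ∈ (Ioc x (2 * x)).filter (fun n => (∀ p ∈ d, n % p ∈ Oe h i0 p) ∧ ∀ i, r i ∣ n + h i),
          F (n + h i0) - (∏ p ∈ d, ((Oe h i0 p).card : ℝ) / ((p : ℝ) - 1)) *
        ((∏ i, α i (r i)) * (∏ i, 1 / ((r i).totient : ℝ)) * FR F (3 * x) r) =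
      (∏ i, α i (r i)) * (∑ n ∈ (Ioc x (2 * x)).filter (fun n => (∀ p ∈ d, n % p ∈ Oe h i0 p) ∧ ∀ i, r i ∣ n + h i),
          F (n + h i0) -
        (∏ p ∈ d, ((Oe h i0 p).card : ℝ) / ((p : ℝ) - 1)) * (∏ i, 1 / ((r i).totient : ℝ)) *
          FR F (3 * x) r) := by ring
  rw [e5, abs_mul]
  have hA : |∏ i, α i (r i)| ≤ (K : ℝ) ^ k * 3 ^ (∑ i, (r i).primeFactors.card) := by
    rw [abs_prod]
    calc ∏ i, |α i (r i)| ≤ ∏ i : Fin k, ((K : ℝ) * 3 ^ (r i).primeFactors.card) :=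
          prod_le_prod (fun _ _ => abs_nonneg _) (fun i _ => hαK i _)
      _ = (K : ℝ) ^ k * 3 ^ (∑ i, (r i).primeFactors.card) := by
          rw [prod_mul_distrib, prod_const, card_univ, Fintype.card_fin, prod_pow_eq_pow_sum]
  have hO : (∏ p ∈ d, ((Oe h i0 p).card : ℝ)) ≤ (k : ℝ) ^ d.card := by
    rw [← prod_const]
    exact prod_le_prod (fun _ _ => Nat.cast_nonneg _) (fun p _ => by exact_mod_cast card_Oe_le h i0 p)
  calc |∏ i, α i (r i)| * |∑ n ∈ (Ioc x (2 * x)).filter (fun n => (∀ p ∈ d, n % p ∈ Oe h i0 p) ∧ ∀ i, r i ∣ n + h i),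
          F (n + h i0) -
        (∏ p ∈ d, ((Oe h i0 p).card : ℝ) / ((p : ℝ) - 1)) * (∏ i, 1 / ((r i).totient : ℝ)) *
          FR F (3 * x) r|
      ≤ ((K : ℝ) ^ k * 3 ^ (∑ i, (r i).primeFactors.card)) *
          ((∏ p ∈ d, ((Oe h i0 p).card : ℝ)) * |disc F (3 * x) (qq d r) (l (qq d r))|) :=
        mul_le_mul hA hin (abs_nonneg _) (by positivity)
    _ ≤ ((K : ℝ) ^ k * 3 ^ (∑ i, (r i).primeFactors.card)) *
          ((k : ℝ) ^ d.card * |disc F (3 * x) (qq d r) (l (qq d r))|) := by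
        gcongr
    _ = _ := by ring

theorem F_T {k : ℕ} (h : Fin k → ℕ) (i0 : Fin k) (z x m : ℕ) (α : Fin k → ℕ → ℝ) (N : Fin k → ℕ) (D : ℝ)
    (H : Hyp h z x m α N D) (K : ℕ) (hαK : ∀ i r, |α i r| ≤ K * 3 ^ r.primeFactors.card)
    (h0 : ∀ r, α i0 r ≠ 0 → r = 1) (F : ℕ → ℝ)
    (hF : ∀ m, F m ≠ 0 → x + h i0 < m ∧ m ≤ 2 * x + h i0 ∧ Nat.Coprime m (primorial z))
    (Q : ℕ) (hQ : z ^ m * ∏ i, N i ≤ Q) (E : ℝ) (hLev : LevelBd F (3 * x) Q (3 * k * (k + 1)) E) :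
    |∑ d ∈ (pz z).powerset with d.card ≤ m, ((-1 : ℝ) ^ d.card *
          ∑ n ∈ (Ioc x (2 * x)).filter (fun n => ∀ p ∈ d, n % p ∈ Oe h i0 p),
            F (n + h i0) * ww h α n) -
        AA (fun p => ((Oe h i0 p).card : ℝ) / ((p : ℝ) - 1)) z m *
          ∑ r ∈ PB N, (∏ i, α i (r i) / ((r i).totient : ℝ)) * FR F (3 * x) r| ≤
      (K : ℝ) ^ k * E := by
  classical
  obtain ⟨l, hl1, hl2⟩ := worst F (3 * x)
  have hk : 1 ≤ k := by
    have := i0.2
    omega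
  have hzx : z ≤ x := by
    calc z = z ^ 1 := (pow_one z).symm
      _ ≤ z ^ (m + 1) := Nat.pow_le_pow_right H.z1 (by omega)
      _ ≤ x := H.prod
  unfold AA
  rw [sum_mul, ← sum_sub_distrib]
  refine (abs_sum_le_sum_abs _ _).trans ?_
  calc ∑ d ∈ (pz z).powerset with d.card ≤ m, |(-1 : ℝ) ^ d.card *
          ∑ n ∈ (Ioc x (2 * x)).filter (fun n => ∀ p ∈ d, n % p ∈ Oe h i0 p),
            F (n + h i0) * ww h α n -
        (-1 : ℝ) ^ d.card * (∏ p ∈ d, ((Oe h i0 p).card : ℝ) / ((p : ℝ) - 1)) *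
          ∑ r ∈ PB N, (∏ i, α i (r i) / ((r i).totient : ℝ)) * FR F (3 * x) r|
      ≤ ∑ d ∈ (pz z).powerset with d.card ≤ m,
          ∑ r ∈ (PB N).filter (fun r => ∀ i, Squarefree (r i) ∧ Nat.Coprime (r i) (primorial z)),
        (K : ℝ) ^ k * ((k : ℝ) ^ d.card * 3 ^ (∑ i, (r i).primeFactors.card) *
          |disc F (3 * x) (qq d r) (l (qq d r))|) := by
        apply sum_le_sum
        intro d hd
        have hd' : d ⊆ pz z := mem_powerset.mp (mem_filter.mp hd).1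
        have := B17_stepd h i0 z x m α N D H K hαK h0 F hF l hl2 hzx d hd'
        rw [mul_assoc, ← mul_sub, abs_mul, abs_pow, abs_neg, abs_one, one_pow, one_mul]
        exact this
    _ = (K : ℝ) ^ k * ∑ d ∈ (pz z).powerset with d.card ≤ m,
          ∑ r ∈ (PB N).filter (fun r => ∀ i, Squarefree (r i) ∧ Nat.Coprime (r i) (primorial z)),
        ((k : ℝ) ^ d.card * 3 ^ (∑ i, (r i).primeFactors.card) *
          |disc F (3 * x) (qq d r) (l (qq d r))|) := by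
        rw [mul_sum]
        apply sum_congr rfl
        intro d _
        rw [mul_sum]
    _ ≤ (K : ℝ) ^ k * ∑ q ∈ Icc 1 Q, ((3 * k * (k + 1) : ℕ) : ℝ) ^ q.primeFactors.card *
          |disc F (3 * x) q (l q)| := by
        gcongr
        exact fibre_sum hk z m Q H.z1 N hQ (fun q => |disc F (3 * x) q (l q)|) (fun _ => abs_nonneg _)
    _ ≤ (K : ℝ) ^ k * E := by
        gcongr
        exact hLev l hl1

end Pool.Agent.Lib.MP_092512_nt.P3.B
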