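import Pool.Agent.Lib.MP_092512_nt.P3.B8

/-!
# P3 part B, module B18: the main term for `F`
-/

set_option autoImplicit false

open Finset Pool.Agent.Lib.SW

namespace Pool.Agent.Lib.MP_092512_nt.P3.B

theorem prod_diff {ι : Type*} (s : Finset ι) (a b : ι → ℝ) (W e : ℝ) (hW : 0 ≤ W) (he : 0 ≤ e)
    (ha : ∀ i ∈ s, |a i| ≤ W) (hb : ∀ i ∈ s, |b i| ≤ W) (hab : ∀ i ∈ s, |a i - b i| ≤ W * e) :
    |∏ i ∈ s, a i - ∏ i ∈ s, b i| ≤ s.card * e * W ^ s.card := by
  classical
  induction s using Finset.induction_on with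
  | empty => simp
  | insert j s hj ih =>
    have ih := ih (fun i hi => ha i (mem_insert_of_mem hi)) (fun i hi => hb i (mem_insert_of_mem hi))
      (fun i hi => hab i (mem_insert_of_mem hi))
    have h1 : |∏ i ∈ s, a i| ≤ W ^ s.card := by
      rw [abs_prod, ← prod_const]
      exact prod_le_prod (fun i _ => abs_nonneg _) (fun i hi => ha i (mem_insert_of_mem hi))
    rw [prod_insert hj, prod_insert hj, card_insert_of_notMem hj]
    have h2 : a j * ∏ i ∈ s, a i - b j * ∏ i ∈ s, b i =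
        (a j - b j) * ∏ i ∈ s, a i + b j * (∏ i ∈ s, a i - ∏ i ∈ s, b i) := by ring
    rw [h2]
    calc |(a j - b j) * ∏ i ∈ s, a i + b j * (∏ i ∈ s, a i - ∏ i ∈ s, b i)|
        ≤ |a j - b j| * |∏ i ∈ s, a i| + |b j| * |∏ i ∈ s, a i - ∏ i ∈ s, b i| := by
          rw [← abs_mul, ← abs_mul]
          exact abs_add_le _ _
      _ ≤ (W * e) * W ^ s.card + W * (s.card * e * W ^ s.card) :=
          add_le_add (mul_le_mul (hab j (mem_insert_self _ _)) h1 (abs_nonneg _) (by positivity))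
            (mul_le_mul (hb j (mem_insert_self _ _)) ih (abs_nonneg _) hW)
      _ = ((s.card + 1 : ℕ) : ℝ) * e * W ^ (s.card + 1) := by push_cast; ring

theorem F_main {k : ℕ} (z x : ℕ) (hz : 1 ≤ z) (α : Fin k → ℕ → ℝ) (N : Fin k → ℕ) (hN : ∀ i, N i ≤ x)
    (hsf : ∀ i r, α i r ≠ 0 → Squarefree r) (hcop : ∀ i r, α i r ≠ 0 → Nat.Coprime r (primorial z))
    (W : ℝ) (hW : 0 ≤ W) (HW : HypW N (fun i r => α i r / (r.totient : ℝ)) W)
    (F : ℕ → ℝ) (K : ℕ) (hF : ∀ m, |F m| ≤ K) :
    |∑ r ∈ PB N, (∏ i, α i (r i) / ((r i).totient : ℝ)) * FR F (3 * x) r -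
        (∑ m ∈ Icc 1 (3 * x), F m) * ∏ i, ∑ r ∈ Icc 1 (N i), α i r / r| ≤
      3 * K * x * W ^ k * (4 * k * Real.log x + 36 * (k : ℝ) ^ 2) / z := by
  classical
  set β : Fin k → ℕ → ℝ := fun i r => α i r / (r.totient : ℝ) with hβ
  set FT : ℝ := ∑ m ∈ Icc 1 (3 * x), F m with hFT
  have hK0 : (0 : ℝ) ≤ K := Nat.cast_nonneg _
  have hx0 : (0 : ℝ) ≤ x := Nat.cast_nonneg _
  have hk0 : (0 : ℝ) ≤ k := Nat.cast_nonneg _
  have hzpos : (0 : ℝ) < z := by exact_mod_cast hz
  have hlog : 0 ≤ Real.log x := Real.log_natCast_nonneg x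
  have hFTle : |FT| ≤ 3 * K * x := by
    calc |FT| ≤ ∑ m ∈ Icc 1 (3 * x), |F m| := abs_sum_le_sum_abs _ _
      _ ≤ ∑ m ∈ Icc 1 (3 * x), (K : ℝ) := sum_le_sum fun m _ => hF m
      _ = 3 * K * x := by
          rw [sum_const, Nat.card_Icc, nsmul_eq_mul]
          push_cast
          ring
  -- step 1
  have S1 : |∑ r ∈ PB N, (∏ i, β i (r i)) * FR F (3 * x) r - FT * BB N β| ≤
      W ^ k * (3 * K * x * (2 * k * Real.log x / z)) := by
    unfold BB
    rw [mul_sum, ← sum_sub_distrib]
    refine (abs_sum_le_sum_abs _ _).trans ?_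
    have hone : ∀ r ∈ PB N, |(∏ i, β i (r i)) * FR F (3 * x) r - FT * ∏ i, β i (r i)| ≤
        (∏ i, |β i (r i)|) * (3 * K * x * (2 * k * Real.log x / z)) := by
      intro r hr
      have h1 : (∏ i, β i (r i)) * FR F (3 * x) r - FT * ∏ i, β i (r i) =
          (∏ i, β i (r i)) * (FR F (3 * x) r - FT) := by ring
      rw [h1, abs_mul, abs_prod]
      by_cases h0 : ∏ i, |β i (r i)| = 0
      · rw [h0, zero_mul, zero_mul]
      · refine mul_le_mul_of_nonneg_left ?_ (prod_nonneg fun i _ => abs_nonneg _)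
        have hα : ∀ i, α i (r i) ≠ 0 := by
          intro i h2
          apply h0
          refine prod_eq_zero (mem_univ i) ?_
          simp [hβ, h2]
        have hri : ∀ i, r i ∈ Icc 1 (N i) := by
          intro i
          have h3 := (mem_filter.1 hr).1
          exact (Fintype.mem_piFinset.1 h3) i
        have h4 : 1 ≤ ∏ i, r i := Nat.one_le_iff_ne_zero.2 (prod_ne_zero_iff.2 fun i _ => by
          have := (mem_Icc.1 (hri i)).1
          omega)
        have h5 : Nat.Coprime (∏ i, r i) (primorial z) :=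
          Nat.Coprime.prod_left fun i _ => hcop i (r i) (hα i)
        have h6 := cop_rem F K (3 * x) hF h4 hz h5
        refine le_trans h6 ?_
        push_cast
        have h7 : (((∏ i, r i).primeFactors.card : ℕ) : ℝ) ≤ 2 * k * Real.log x := by
          have h8 := om_prod r (fun i => (mem_Icc.1 (hri i)).1)
          calc (((∏ i, r i).primeFactors.card : ℕ) : ℝ) ≤ ((∑ i, (r i).primeFactors.card : ℕ) : ℝ) := by
                exact_mod_cast h8
            _ = ∑ i, ((r i).primeFactors.card : ℝ) := by push_cast; rfl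
            _ ≤ ∑ i : Fin k, 2 * Real.log x := by
                refine sum_le_sum fun i _ => ?_
                have h9 := (mem_Icc.1 (hri i))
                refine (om_log (r i) h9.1).trans ?_
                have h10 : Real.log (r i) ≤ Real.log x :=
                  Real.log_le_log (by exact_mod_cast h9.1) (by exact_mod_cast h9.2.trans (hN i))
                linarith
            _ = 2 * k * Real.log x := by
                rw [sum_const, card_univ, Fintype.card_fin, nsmul_eq_mul]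
                ring
        calc (K : ℝ) * (3 * x) * (((∏ i, r i).primeFactors.card : ℕ) / z) =
              3 * K * x * ((((∏ i, r i).primeFactors.card : ℕ) : ℝ) / z) := by ring
          _ ≤ 3 * K * x * (2 * k * Real.log x / z) :=
              mul_le_mul_of_nonneg_left (div_le_div_of_nonneg_right h7 hzpos.le) (by positivity)
    refine (sum_le_sum hone).trans ?_
    rw [← sum_mul]
    exact mul_le_mul_of_nonneg_right (pb_le N β W hW HW) (by positivity)
  -- step 2
  have S2 : |∏ i, ∑ r ∈ Icc 1 (N i), β i r - BB N β| ≤ 36 * (k : ℝ) ^ 2 * W ^ k / z := by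
    refine pc_removal z hz N β W hW (fun i r hr => hcop i r ?_) HW
    intro h0
    exact hr (by simp [hβ, h0])
  -- step 3
  have hdif : ∀ i r, 1 ≤ r → r ≤ x → |β i r - α i r / r| ≤ |β i r| * (2 * Real.log x / z) := by
    intro i r hr hrx
    by_cases h0 : α i r = 0
    · simp [hβ, h0]
    · have h1 := phi_id (hsf i r h0) hz (hcop i r h0)
      have h2 : β i r - α i r / r = α i r * (1 / (r.totient : ℝ) - 1 / (r : ℝ)) := by
        simp only [hβ]
        ring
      have h3 : |β i r| = |α i r| * (1 / (r.totient : ℝ)) := by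
        simp only [hβ]
        rw [abs_div, abs_of_nonneg (show (0 : ℝ) ≤ (r.totient : ℝ) by positivity)]
        ring
      rw [h2, abs_mul, h3, mul_assoc]
      refine mul_le_mul_of_nonneg_left (h1.trans ?_) (abs_nonneg _)
      refine mul_le_mul_of_nonneg_left ?_ (by positivity)
      refine div_le_div_of_nonneg_right ((om_log r hr).trans ?_) hzpos.le
      have h4 : Real.log r ≤ Real.log x :=
        Real.log_le_log (by exact_mod_cast hr) (by exact_mod_cast hrx)
      linarith
  have hcmp : ∀ i r, 1 ≤ r → |α i r / (r : ℝ)| ≤ |β i r| := by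
    intro i r hr
    have h1 : (0 : ℝ) < (r.totient : ℝ) := by exact_mod_cast Nat.totient_pos.2 hr
    have h2 : (r.totient : ℝ) ≤ r := by exact_mod_cast Nat.totient_le r
    have h3 : (0 : ℝ) < r := lt_of_lt_of_le h1 h2
    simp only [hβ]
    rw [abs_div, abs_div, abs_of_pos h1, abs_of_pos h3]
    exact div_le_div_of_nonneg_left (abs_nonneg _) h1 h2
  have S3 : |∏ i, ∑ r ∈ Icc 1 (N i), β i r - ∏ i, ∑ r ∈ Icc 1 (N i), α i r / r| ≤
      k * (2 * Real.log x / z) * W ^ k := by
    have h1 := prod_diff univ (fun i : Fin k => ∑ r ∈ Icc 1 (N i), β i r)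
      (fun i => ∑ r ∈ Icc 1 (N i), α i r / (r : ℝ)) W (2 * Real.log x / z) hW (by positivity)
      (fun i _ => (abs_sum_le_sum_abs _ _).trans (HW.tot i))
      (fun i _ => (abs_sum_le_sum_abs _ _).trans
        ((sum_le_sum fun r hr => hcmp i r (mem_Icc.1 hr).1).trans (HW.tot i)))
      (fun i _ => by
        show |∑ r ∈ Icc 1 (N i), β i r - ∑ r ∈ Icc 1 (N i), α i r / (r : ℝ)| ≤ _
        rw [← sum_sub_distrib]
        refine (abs_sum_le_sum_abs _ _).trans ((sum_le_sum fun r hr => hdif i r (mem_Icc.1 hr).1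
          ((mem_Icc.1 hr).2.trans (hN i))).trans ?_)
        rw [← sum_mul]
        exact mul_le_mul_of_nonneg_right (HW.tot i) (by positivity))
    rw [card_univ, Fintype.card_fin] at h1
    exact h1
  have hfin : ∑ r ∈ PB N, (∏ i, β i (r i)) * FR F (3 * x) r -
      FT * ∏ i, ∑ r ∈ Icc 1 (N i), α i r / r =
      (∑ r ∈ PB N, (∏ i, β i (r i)) * FR F (3 * x) r - FT * BB N β) -
        FT * (∏ i, ∑ r ∈ Icc 1 (N i), β i r - BB N β) +
        FT * (∏ i, ∑ r ∈ Icc 1 (N i), β i r - ∏ i, ∑ r ∈ Icc 1 (N i), α i r / r) := by ring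
  rw [hfin]
  have hA := abs_add_le ((∑ r ∈ PB N, (∏ i, β i (r i)) * FR F (3 * x) r - FT * BB N β) -
        FT * (∏ i, ∑ r ∈ Icc 1 (N i), β i r - BB N β))
        (FT * (∏ i, ∑ r ∈ Icc 1 (N i), β i r - ∏ i, ∑ r ∈ Icc 1 (N i), α i r / r))
  have hB := abs_sub (∑ r ∈ PB N, (∏ i, β i (r i)) * FR F (3 * x) r - FT * BB N β)
        (FT * (∏ i, ∑ r ∈ Icc 1 (N i), β i r - BB N β))
  rw [abs_mul] at hA hB
  have hC := mul_le_mul hFTle S2 (abs_nonneg _) (by positivity)
  have hD := mul_le_mul hFTle S3 (abs_nonneg _) (by positivity)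
  have hE : W ^ k * (3 * K * x * (2 * k * Real.log x / z)) +
      3 * K * x * (36 * (k : ℝ) ^ 2 * W ^ k / z) + 3 * K * x * (k * (2 * Real.log x / z) * W ^ k) =
      3 * K * x * W ^ k * (4 * k * Real.log x + 36 * (k : ℝ) ^ 2) / z := by
    field_simp
    ring
  linarith

end Pool.Agent.Lib.MP_092512_nt.P3.B
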