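import Pool.Agent.Lib.MP_092512_nt.P3.B17
import Pool.Agent.Lib.MP_092512_nt.P3.B18
import Pool.Agent.Lib.MP_092512_nt.P3.B3
import Pool.Agent.Lib.MP_092512_nt.P3.B10

/-!
# P3 part B, module B19: core theorem for `F`

On the support of `F` the sieve condition is `∀ p ∈ pz z, n % p ∉ Oe h i0 p`; then truncated inclusion-exclusion
(`stepA`), the evaluation `F_T`, the truncated product (`trunc_prod`) and the main term `F_main`.
-/

set_option autoImplicit false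

open Finset Pool.Agent.Lib.SW

namespace Pool.Agent.Lib.MP_092512_nt.P3.B

theorem b19_ww {k : ℕ} {h : Fin k → ℕ} {z x m : ℕ} {α : Fin k → ℕ → ℝ} {N : Fin k → ℕ} {D : ℝ}
    (H : Hyp h z x m α N D) {n : ℕ} (hn : n ∈ Ioc x (2 * x)) : |ww h α n| ≤ D ^ k := by
  obtain ⟨h1, h2⟩ := mem_Ioc.1 hn
  have hzx : z ≤ x := by
    refine le_trans ?_ H.prod
    calc z = z ^ 1 := (pow_one z).symm
      _ ≤ z ^ (m + 1) := Nat.pow_le_pow_right H.z1 (by omega)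
  unfold ww
  rw [abs_prod]
  calc ∏ i, |∑ r ∈ (n + h i).divisors, α i r| ≤ ∏ _i : Fin k, D := by
        refine prod_le_prod (fun i _ => abs_nonneg _) fun i _ => ?_
        refine H.div i (n + h i) (by omega) ?_
        have := H.hz i
        omega
    _ = D ^ k := by rw [prod_const, card_univ, Fintype.card_fin]

theorem b19_prod {z x m : ℕ} (hprod : z ^ (m + 1) ≤ x) {d : Finset ℕ} (hd : d ⊆ pz z)
    (hc : d.card = m + 1) : ∏ p ∈ d, p ≤ x := by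
  refine le_trans ?_ hprod
  calc ∏ p ∈ d, p ≤ ∏ _p ∈ d, z := prod_le_prod' fun p hp => (mem_pz.1 (hd hp)).2
    _ = z ^ (m + 1) := by rw [prod_const, hc]

theorem b19_FR {k : ℕ} (F : ℕ → ℝ) (K : ℕ) (hFK : ∀ m, |F m| ≤ K) (x : ℕ) (r : Fin k → ℕ) :
    |FR F (3 * x) r| ≤ 3 * K * x := by
  unfold FR
  calc |∑ m ∈ (Icc 1 (3 * x)).filter (fun m => Nat.Coprime m (∏ i, r i)), F m|
      ≤ ∑ m ∈ (Icc 1 (3 * x)).filter (fun m => Nat.Coprime m (∏ i, r i)), |F m| := abs_sum_le_sum_abs _ _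
    _ ≤ ∑ m ∈ Icc 1 (3 * x), |F m| :=
        sum_le_sum_of_subset_of_nonneg (filter_subset _ _) fun m _ _ => abs_nonneg _
    _ ≤ ∑ _m ∈ Icc 1 (3 * x), (K : ℝ) := sum_le_sum fun m _ => hFK m
    _ = 3 * K * x := by
        rw [sum_const, Nat.card_Icc, nsmul_eq_mul]
        push_cast [Nat.add_sub_cancel]
        ring

theorem b19_S {k : ℕ} (N : Fin k → ℕ) (β : Fin k → ℕ → ℝ) (W : ℝ) (hW : 0 ≤ W) (HW : HypW N β W)
    (F : ℕ → ℝ) (K : ℕ) (hFK : ∀ m, |F m| ≤ K) (x : ℕ) :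
    |∑ r ∈ PB N, (∏ i, β i (r i)) * FR F (3 * x) r| ≤ W ^ k * (3 * K * x) := by
  calc |∑ r ∈ PB N, (∏ i, β i (r i)) * FR F (3 * x) r|
      ≤ ∑ r ∈ PB N, |(∏ i, β i (r i)) * FR F (3 * x) r| := abs_sum_le_sum_abs _ _
    _ ≤ ∑ r ∈ PB N, (∏ i, |β i (r i)|) * (3 * K * x) := by
        refine sum_le_sum fun r _ => ?_
        rw [abs_mul, abs_prod]
        exact mul_le_mul_of_nonneg_left (b19_FR F K hFK x r) (prod_nonneg fun i _ => abs_nonneg _)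
    _ = (∑ r ∈ PB N, ∏ i, |β i (r i)|) * (3 * K * x) := by rw [sum_mul]
    _ ≤ W ^ k * (3 * K * x) :=
        mul_le_mul_of_nonneg_right (pb_le N β W hW HW) (by positivity)

theorem b19_filter {k : ℕ} (h : Fin k → ℕ) (i0 : Fin k) (z x : ℕ) (F w : ℕ → ℝ)
    (hF : ∀ m, F m ≠ 0 → Nat.Coprime m (primorial z)) :
    ∑ n ∈ (Ioc x (2 * x)).filter (fun n => ∀ i ≠ i0, Nat.Coprime (n + h i) (primorial z)),
        F (n + h i0) * w n =
      ∑ n ∈ (Ioc x (2 * x)).filter (fun n => ∀ p ∈ pz z, n % p ∉ Oe h i0 p), F (n + h i0) * w n := by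
  rw [sum_filter, sum_filter]
  refine sum_congr rfl fun n _ => ?_
  by_cases h0 : F (n + h i0) = 0
  · simp [h0]
  · exact if_congr (erase_iff h i0 n z (hF _ h0)) rfl rfl

theorem b19_combine {A TS AAv S V Q : ℝ} {e1 e2 τ sb e3 : ℝ} (h1 : |A - TS| ≤ e1)
    (h2 : |TS - AAv * S| ≤ e2) (h3 : |AAv - V| ≤ τ) (h4 : |S| ≤ sb) (hV0 : 0 ≤ V) (hV1 : V ≤ 1)
    (h5 : |S - Q| ≤ e3) : |A - V * Q| ≤ e1 + e2 + τ * sb + e3 := by
  have hτ : 0 ≤ τ := le_trans (abs_nonneg _) h3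
  have he3 : 0 ≤ e3 := le_trans (abs_nonneg _) h5
  have e : A - V * Q = (A - TS) + (TS - AAv * S) + (AAv - V) * S + V * (S - Q) := by ring
  have k3 : |(AAv - V) * S| ≤ τ * sb := by
    rw [abs_mul]
    exact mul_le_mul h3 h4 (abs_nonneg _) hτ
  have k4 : |V * (S - Q)| ≤ e3 := by
    rw [abs_mul, abs_of_nonneg hV0]
    calc V * |S - Q| ≤ 1 * |S - Q| := mul_le_mul_of_nonneg_right hV1 (abs_nonneg _)
      _ = |S - Q| := one_mul _
      _ ≤ e3 := h5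
  rw [e]
  calc |(A - TS) + (TS - AAv * S) + (AAv - V) * S + V * (S - Q)|
      ≤ |(A - TS) + (TS - AAv * S) + (AAv - V) * S| + |V * (S - Q)| := abs_add_le _ _
    _ ≤ |(A - TS) + (TS - AAv * S)| + |(AAv - V) * S| + |V * (S - Q)| := by
        gcongr
        exact abs_add_le _ _
    _ ≤ |A - TS| + |TS - AAv * S| + |(AAv - V) * S| + |V * (S - Q)| := by
        gcongr
        exact abs_add_le _ _
    _ ≤ e1 + e2 + τ * sb + e3 := by
        gcongr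

theorem F_core {k : ℕ} (h : Fin k → ℕ) (i0 : Fin k) (z x m : ℕ) (α : Fin k → ℕ → ℝ) (N : Fin k → ℕ) (D : ℝ)
    (H : Hyp h z x m α N D) (hN : ∀ i, N i ≤ x) (K : ℕ) (hαK : ∀ i r, |α i r| ≤ K * 3 ^ r.primeFactors.card)
    (h0 : ∀ r, α i0 r ≠ 0 → r = 1) (W : ℝ) (hW : 0 ≤ W)
    (HW : HypW N (fun i r => α i r / (r.totient : ℝ)) W) (F : ℕ → ℝ) (hFK : ∀ m, |F m| ≤ K)
    (hF : ∀ m, F m ≠ 0 → x + h i0 < m ∧ m ≤ 2 * x + h i0 ∧ Nat.Coprime m (primorial z))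
    (Q : ℕ) (hQ : z ^ m * ∏ i, N i ≤ Q) (E : ℝ) (hLev : LevelBd F (3 * x) Q (3 * k * (k + 1)) E)
    (T τ : ℝ) (hT : 1 ≤ T)
    (hτ : Real.exp (T * (2 * k * (1 + Real.log z))) / T ^ (m + 1) ≤ τ) :
    |∑ n ∈ (Ioc x (2 * x)).filter (fun n => ∀ i ≠ i0, Nat.Coprime (n + h i) (primorial z)),
          F (n + h i0) * ww h α n -
        VH' h z * (∑ m ∈ Icc 1 (3 * x), F m) * ∏ i, ∑ r ∈ Icc 1 (N i), α i r / r| ≤
      2 * (K * D ^ k) * x * τ + (K : ℝ) ^ k * E + τ * (W ^ k * (3 * K * x)) +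
        3 * K * x * W ^ k * (4 * k * Real.log x + 36 * (k : ℝ) ^ 2) / z := by
  have hk : 0 < k := i0.pos
  have hD : (0 : ℝ) ≤ D ^ k := pow_nonneg H.D0 k
  have hprime : ∀ p ∈ pz z, p.Prime := fun p hp => (mem_pz.1 hp).1
  rw [b19_filter h i0 z x F (ww h α) (fun m hm => (hF m hm).2.2), mul_assoc]
  -- truncated inclusion-exclusion
  have s1 := stepA (pz z) hprime (Oe h i0) (fun p hp c hc => Oe_lt h i0 (hprime p hp).pos c hc) x m H.even
    (fun d hd hc => b19_prod H.prod hd hc) (fun n => F (n + h i0) * ww h α n) (K * D ^ k)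
    (mul_nonneg (Nat.cast_nonneg K) hD)
    (fun n hn => by
      rw [abs_mul]
      exact mul_le_mul (hFK _) (b19_ww H hn) (abs_nonneg _) (Nat.cast_nonneg K))
    (2 * k * (1 + Real.log z)) T (sum_Oe' h i0 z) hT
  have s1' := s1.trans (mul_le_mul_of_nonneg_left hτ
    (mul_nonneg (mul_nonneg zero_le_two (mul_nonneg (Nat.cast_nonneg K) hD)) (Nat.cast_nonneg x)))
  have s2 := F_T h i0 z x m α N D H K hαK h0 F hF Q hQ E hLev
  have s3 := trunc_prod (pz z) (fun p => ((Oe h i0 p).card : ℝ) / ((p : ℝ) - 1))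
    (fun p hp => div_nonneg (Nat.cast_nonneg _) (by
      have : (1 : ℝ) ≤ p := by exact_mod_cast (hprime p hp).one_le
      linarith))
    (2 * k * (1 + Real.log z)) T (sum_Oe h i0 z) hT m
  have s3' : |AA (fun p => ((Oe h i0 p).card : ℝ) / ((p : ℝ) - 1)) z m - VH' h z| ≤ τ := by
    rw [VH'_Oe h i0 z]
    exact s3.trans hτ
  have s4 := b19_S N (fun i r => α i r / (r.totient : ℝ)) W hW HW F K hFK x
  have s5 := F_main z x H.z1 α N hN H.sf H.cop W hW HW F K hFK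
  exact b19_combine s1' s2 s3' s4 (VH'_bd hk h z).1 (VH'_bd hk h z).2 s5

end Pool.Agent.Lib.MP_092512_nt.P3.B
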