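import Pool.Agent.Lib.MP_092512_nt.P3.B19
import Pool.Agent.Lib.MP_092512_nt.P3.B14

/-!
# P3 part B, module B20: `sieve_F`
-/

set_option autoImplicit false

open Finset Pool.Agent.Lib.SW

namespace Pool.Agent.Lib.MP_092512_nt.P3.B

/-- the weights with the `i0`-th coordinate replaced by the indicator of 1 -/
noncomputable def al1 {k : ℕ} (i0 : Fin k) (α : Fin k → ℕ → ℝ) (i : Fin k) (r : ℕ) : ℝ :=
  if i = i0 then (if r = 1 then 1 else 0) else α i r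

theorem al1_self {k : ℕ} (i0 : Fin k) (α : Fin k → ℕ → ℝ) (r : ℕ) :
    al1 i0 α i0 r = if r = 1 then 1 else 0 := by
  simp [al1]

theorem al1_ne {k : ℕ} {i0 i : Fin k} (hi : i ≠ i0) (α : Fin k → ℕ → ℝ) (r : ℕ) :
    al1 i0 α i r = α i r := by
  simp [al1, hi]

theorem ww_al1 {k : ℕ} (h : Fin k → ℕ) (i0 : Fin k) (α : Fin k → ℕ → ℝ) (n : ℕ) (hn : 1 ≤ n) :
    ww h (al1 i0 α) n = ∏ i ∈ univ.erase i0, ∑ r ∈ (n + h i).divisors, α i r := by
  unfold ww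
  rw [← mul_prod_erase univ _ (mem_univ i0)]
  have h1 : ∑ r ∈ (n + h i0).divisors, al1 i0 α i0 r = 1 := by
    simp_rw [al1_self]
    rw [sum_ite_eq' , if_pos (Nat.one_mem_divisors.2 (by omega))]
  rw [h1, one_mul]
  refine prod_congr rfl fun i hi => sum_congr rfl fun r _ => al1_ne (ne_of_mem_erase hi) α r

theorem prod_al1 {k : ℕ} (i0 : Fin k) (α : Fin k → ℕ → ℝ) (N N' : Fin k → ℕ) (h0 : N' i0 = 1)
    (hN : ∀ i ≠ i0, N' i = N i) :
    ∏ i, ∑ r ∈ Icc 1 (N' i), al1 i0 α i r / r = ∏ i ∈ univ.erase i0, ∑ r ∈ Icc 1 (N i), α i r / r := by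
  rw [← mul_prod_erase univ _ (mem_univ i0)]
  have h1 : ∑ r ∈ Icc 1 (N' i0), al1 i0 α i0 r / (r : ℝ) = 1 := by
    rw [h0, Icc_self, sum_singleton, al1_self]
    simp
  rw [h1, one_mul]
  refine prod_congr rfl fun i hi => ?_
  rw [hN i (ne_of_mem_erase hi)]
  exact sum_congr rfl fun r _ => by rw [al1_ne (ne_of_mem_erase hi) α r]

theorem sieve_F (k : ℕ) (h : Fin k → ℕ) (hinj : Function.Injective h) (i0 : Fin k) (K A : ℕ)
    (ε : ℝ) (hε : 0 < ε) : ∃ B₀ A' K' : ℕ, ∀ B : ℕ, B₀ ≤ B → ∃ x₀ : ℕ, ∀ x : ℕ, x₀ ≤ x →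
      ∀ (Q : ℕ) (F : ℕ → ℝ), Q ≤ x → (∀ m, |F m| ≤ K) →
        (∀ m, F m ≠ 0 → x + h i0 < m ∧ m ≤ 2 * x + h i0 ∧ Nat.Coprime m (primorial (zB B x))) →
        LevelBd F (3 * x) Q K' (x / (Real.log x) ^ A') →
      ∀ (α : Fin k → ℕ → ℝ) (R : Fin k → ℝ), (∀ i, 1 ≤ R i) →
        (∀ i r, α i r ≠ 0 → Squarefree r ∧ Nat.Coprime r (primorial (zB B x)) ∧ (r : ℝ) ≤ R i) →
        (∀ i r, |α i r| ≤ K * 3 ^ r.primeFactors.card) →
        (∏ i ∈ univ.erase i0, R i) * (x : ℝ) ^ ε ≤ Q →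
        |∑ n ∈ (Ioc x (2 * x)).filter
              (fun n => ∀ i ≠ i0, Nat.Coprime (n + h i) (primorial (zB B x))),
            F (n + h i0) * ∏ i ∈ univ.erase i0, ∑ r ∈ (n + h i).divisors, α i r -
          VH' h (zB B x) * (∑ m ∈ Icc 1 (3 * x), F m) *
            ∏ i ∈ univ.erase i0, ∑ r ∈ Icc 1 ⌊R i⌋₊, α i r / r| ≤ x / (Real.log x) ^ A := by
  refine ⟨A + 6 * k + 2, A + 1, 3 * k * (k + 1), fun B hB => ?_⟩
  set K₁ : ℕ := K + 1 with hK₁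
  set M : ℝ := 8 * K₁ + 4 * (K₁ : ℝ) ^ k + 12 * K₁ * (K₁ : ℝ) ^ k +
    12 * K₁ * (K₁ : ℝ) ^ k * (4 * k + 36 * (k : ℝ) ^ 2) with hM
  obtain ⟨η, C, c, hη, hC, hCs, x₀, hx₀⟩ := prep k B A K₁ (∑ i, h i) ε hε hB M
  refine ⟨x₀, fun x hx Q F hQx hFK hF hLev α R hR hα hαK hRQ => ?_⟩
  obtain ⟨hx3, hlog1, hMlog, hHz, m, hm, hzx, hzε, e1, e2, e3, e4, T, hT, hτ⟩ := hx₀ x hx
  set z := zB B x with hz
  have hx0 : (0 : ℝ) < x := by
    have : 0 < x := by omega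
    exact_mod_cast this
  have hx1 : (1 : ℝ) ≤ x := by
    have : 1 ≤ x := by omega
    exact_mod_cast this
  have hxε1 : (1 : ℝ) ≤ (x : ℝ) ^ ε := Real.one_le_rpow hx1 hε.le
  have hz1 : 1 ≤ z := by omega
  have hhz : ∀ i, h i < z := fun i =>
    lt_of_le_of_lt (single_le_sum (f := h) (fun _ _ => Nat.zero_le _) (mem_univ i)) hHz
  -- the reduced data
  set N : Fin k → ℕ := fun i => if i = i0 then 1 else ⌊R i⌋₊ with hN
  have hN0 : N i0 = 1 := by simp [hN]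
  have hNne : ∀ i ≠ i0, N i = ⌊R i⌋₊ := fun i hi => by simp [hN, hi]
  have hR0 : ∀ i, 0 ≤ R i := fun i => by linarith [hR i]
  have hpR1 : (1 : ℝ) ≤ ∏ i ∈ univ.erase i0, R i := by
    have h2 : ∏ j ∈ (univ.erase i0 : Finset (Fin k)), (1 : ℝ) ≤ ∏ j ∈ univ.erase i0, R j :=
      prod_le_prod (fun _ _ => zero_le_one) (fun j _ => hR j)
    rwa [prod_const_one] at h2
  have hpRx : ∏ i ∈ univ.erase i0, R i ≤ x := by
    have h1 : ∏ i ∈ univ.erase i0, R i ≤ (∏ i ∈ univ.erase i0, R i) * (x : ℝ) ^ ε :=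
      le_mul_of_one_le_right (by linarith) hxε1
    have h2 : (Q : ℝ) ≤ x := by exact_mod_cast hQx
    linarith
  have hNx : ∀ i, N i ≤ x := fun i => by
    by_cases hi : i = i0
    · rw [hi, hN0]
      omega
    · rw [hNne i hi]
      have h1 : R i ≤ ∏ j ∈ univ.erase i0, R j :=
        single_le_prod_real (univ.erase i0) R (fun j _ => hR j) i (mem_erase.2 ⟨hi, mem_univ i⟩)
      have h2 := (Nat.floor_le (hR0 i)).trans (h1.trans hpRx)
      exact_mod_cast h2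
  have hprodN : ∏ i, (N i : ℝ) ≤ ∏ i ∈ univ.erase i0, R i := by
    rw [← mul_prod_erase univ _ (mem_univ i0), hN0, Nat.cast_one, one_mul]
    refine prod_le_prod (fun _ _ => Nat.cast_nonneg _) (fun i hi => ?_)
    rw [hNne i (ne_of_mem_erase hi)]
    exact Nat.floor_le (hR0 i)
  have hα' : ∀ i r, al1 i0 α i r ≠ 0 → Squarefree r ∧ Nat.Coprime r (primorial z) ∧ r ≤ N i := by
    intro i r hr
    by_cases hi : i = i0
    · subst hi
      rw [al1_self] at hr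
      have hr1 : r = 1 := by
        by_contra h1
        exact hr (if_neg h1)
      rw [hr1, hN0]
      exact ⟨squarefree_one, Nat.coprime_one_left _, le_refl 1⟩
    · rw [al1_ne hi] at hr
      obtain ⟨h1, h2, h3⟩ := hα i r hr
      rw [hNne i hi]
      exact ⟨h1, h2, Nat.le_floor h3⟩
  have hαK' : ∀ i r, |al1 i0 α i r| ≤ (K₁ : ℝ) * 3 ^ r.primeFactors.card := by
    intro i r
    have h3 : (1 : ℝ) ≤ 3 ^ r.primeFactors.card := one_le_pow₀ (by norm_num)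
    have hK0 : (0 : ℝ) ≤ K := Nat.cast_nonneg _
    have hK1 : ((K₁ : ℕ) : ℝ) = K + 1 := by rw [hK₁]; push_cast; ring
    rw [hK1]
    by_cases hi : i = i0
    · subst hi
      rw [al1_self]
      split_ifs
      · rw [abs_one]
        nlinarith
      · rw [abs_zero]
        positivity
    · rw [al1_ne hi]
      refine (hαK i r).trans ?_
      nlinarith
  have hFK' : ∀ m, |F m| ≤ (K₁ : ℝ) := fun m => (hFK m).trans (by rw [hK₁]; push_cast; linarith)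
  have h0 : ∀ r, al1 i0 α i0 r ≠ 0 → r = 1 := by
    intro r hr
    rw [al1_self] at hr
    by_contra h1
    exact hr (if_neg h1)
  have hQ : z ^ m * ∏ i, N i ≤ Q := by
    have h1 : (z : ℝ) ^ m ≤ (((k : ℝ) + 2) * (z + 1)) ^ (m + 1) := by
      have hz0 : (0 : ℝ) ≤ (z : ℝ) := Nat.cast_nonneg _
      have hk0 : (0 : ℝ) ≤ (k : ℝ) := Nat.cast_nonneg _
      have h2 : (z : ℝ) ≤ ((k : ℝ) + 2) * (z + 1) := by nlinarith
      have h3 : (1 : ℝ) ≤ ((k : ℝ) + 2) * (z + 1) := by nlinarith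
      exact (pow_le_pow_left₀ hz0 h2 m).trans (pow_le_pow_right₀ h3 (by omega))
    have h4 : ((z ^ m * ∏ i, N i : ℕ) : ℝ) ≤ ((Q : ℕ) : ℝ) := by
      push_cast
      calc (z : ℝ) ^ m * ∏ i, (N i : ℝ) ≤ (x : ℝ) ^ ε * ∏ i ∈ univ.erase i0, R i :=
            mul_le_mul (h1.trans hzε) hprodN (prod_nonneg fun _ _ => Nat.cast_nonneg _) (by positivity)
        _ = (∏ i ∈ univ.erase i0, R i) * (x : ℝ) ^ ε := mul_comm _ _
        _ ≤ Q := hRQ
    exact_mod_cast h4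
  have H := hyp_of h hinj z x m hhz hz1 hm hzx (al1 i0 α) N hNx hα' K₁ hαK' η C hη hC hCs
  have hW := (hypW_of (al1 i0 α) N K₁ x hx1 (fun i => by exact_mod_cast hNx i)
    (fun i r hr => (hα' i r hr).1) hαK').1
  have hL : (0 : ℝ) < Real.log x := by linarith
  have hL1 : (0 : ℝ) < 1 + Real.log x := by linarith
  have hmain := F_core h i0 z x m (al1 i0 α) N _ H hNx K₁ hαK' h0 _ (by positivity) hW F hFK' hF Q hQ _
    hLev T _ hT hτ
  rw [prod_al1 i0 α (fun i => ⌊R i⌋₊) N hN0 hNne] at hmain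
  have hsumeq : ∑ n ∈ (Ioc x (2 * x)).filter (fun n => ∀ i ≠ i0, Nat.Coprime (n + h i) (primorial z)),
      F (n + h i0) * ww h (al1 i0 α) n =
      ∑ n ∈ (Ioc x (2 * x)).filter (fun n => ∀ i ≠ i0, Nat.Coprime (n + h i) (primorial z)),
        F (n + h i0) * ∏ i ∈ univ.erase i0, ∑ r ∈ (n + h i).divisors, α i r := by
    refine sum_congr rfl fun n hn => ?_
    rw [ww_al1 h i0 α n (by
      have := (mem_Ioc.1 (mem_filter.1 hn).1).1
      omega)]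
  rw [hsumeq] at hmain
  refine le_trans hmain ?_
  set D : ℝ := K₁ * C * (3 * x : ℝ) ^ η with hD
  set L : ℝ := 1 + Real.log x with hLdef
  have hC0 : (0 : ℝ) ≤ C := by linarith
  have hK0 : (0 : ℝ) ≤ (K₁ : ℝ) := Nat.cast_nonneg _
  have hk0 : (0 : ℝ) ≤ (k : ℝ) := Nat.cast_nonneg _
  have hD0 : 0 ≤ D ^ k := by positivity
  have hzpos : (0 : ℝ) < (z : ℝ) := by exact_mod_cast hz1
  have hP1 : (0 : ℝ) ≤ 8 * K₁ := by positivity
  have hP2 : (0 : ℝ) ≤ 4 * (K₁ : ℝ) ^ k := by positivity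
  have hP3 : (0 : ℝ) ≤ 12 * K₁ * (K₁ : ℝ) ^ k := by positivity
  have hP4 : (0 : ℝ) ≤ 12 * K₁ * (K₁ : ℝ) ^ k * (4 * k + 36 * (k : ℝ) ^ 2) := by positivity
  have hM1 : 8 * (K₁ : ℝ) ≤ M := by rw [hM]; linarith
  have hM2 : 4 * (K₁ : ℝ) ^ k ≤ M := by rw [hM]; linarith
  have hM3 : 12 * K₁ * (K₁ : ℝ) ^ k ≤ M := by rw [hM]; linarith
  have hM4 : 12 * K₁ * (K₁ : ℝ) ^ k * (4 * k + 36 * (k : ℝ) ^ 2) ≤ M := by rw [hM]; linarith
  have hLA : 0 < L ^ A := by positivity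
  have hgoal : (x : ℝ) / L ^ A ≤ x / (Real.log x) ^ A := by
    refine div_le_div_of_nonneg_left hx0.le (by positivity) (pow_le_pow_left₀ hL.le (by linarith) A)
  have hlA : 0 < (Real.log x) ^ A := by positivity
  have hxc : (0 : ℝ) < (x : ℝ) ^ c := by positivity
  have hxnc : (x : ℝ) ^ (-c) = 1 / (x : ℝ) ^ c := by rw [Real.rpow_neg hx0.le, one_div]
  have hquart : (x : ℝ) / (4 * L ^ A) ≤ x / (4 * (Real.log x) ^ A) := by
    refine div_le_div_of_nonneg_left hx0.le (by positivity) ?_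
    have := pow_le_pow_left₀ hL.le (show Real.log x ≤ L by linarith) A
    linarith
  -- the four errors
  have E1 : 2 * (K₁ * D ^ k) * x * (x : ℝ) ^ (-c) ≤ x / (4 * L ^ A) := by
    rw [hxnc, mul_one_div, div_le_div_iff₀ hxc (by positivity)]
    have h1 : 8 * K₁ * D ^ k * L ^ A ≤ (x : ℝ) ^ c := by
      refine le_trans ?_ e1
      gcongr
    nlinarith [mul_le_mul_of_nonneg_left h1 hx0.le]
  have E2 : (K₁ : ℝ) ^ k * (x / (Real.log x) ^ (A + 1)) ≤ x / (4 * (Real.log x) ^ A) := by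
    rw [mul_div_assoc', div_le_div_iff₀ (by positivity) (by positivity)]
    have h1 : 4 * (K₁ : ℝ) ^ k ≤ Real.log x := hM2.trans hMlog
    calc (K₁ : ℝ) ^ k * x * (4 * (Real.log x) ^ A) = (x * (Real.log x) ^ A) * (4 * (K₁ : ℝ) ^ k) := by ring
      _ ≤ (x * (Real.log x) ^ A) * Real.log x := mul_le_mul_of_nonneg_left h1 (by positivity)
      _ = x * (Real.log x) ^ (A + 1) := by ring
  have E3 : (x : ℝ) ^ (-c) * ((K₁ * L ^ 6) ^ k * (3 * K₁ * x)) ≤ x / (4 * L ^ A) := by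
    rw [hxnc, div_mul_eq_mul_div, one_mul, div_le_div_iff₀ hxc (by positivity)]
    have h1 : 12 * K₁ * (K₁ : ℝ) ^ k * L ^ (A + 6 * k) ≤ (x : ℝ) ^ c := by
      refine le_trans ?_ e3
      gcongr
    have h2 : (K₁ * L ^ 6) ^ k * (3 * K₁) * (4 * L ^ A) = 12 * K₁ * (K₁ : ℝ) ^ k * L ^ (A + 6 * k) := by
      rw [mul_pow, ← pow_mul, pow_add]
      ring
    calc (K₁ * L ^ 6) ^ k * (3 * K₁ * x) * (4 * L ^ A) = x * ((K₁ * L ^ 6) ^ k * (3 * K₁) * (4 * L ^ A)) := by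
          ring
      _ = x * (12 * K₁ * (K₁ : ℝ) ^ k * L ^ (A + 6 * k)) := by rw [h2]
      _ ≤ x * (x : ℝ) ^ c := mul_le_mul_of_nonneg_left h1 hx0.le
  have E4 : 3 * K₁ * x * (K₁ * L ^ 6) ^ k * (4 * k * Real.log x + 36 * (k : ℝ) ^ 2) / z ≤
      x / (4 * L ^ A) := by
    rw [div_le_div_iff₀ hzpos (by positivity)]
    have h0' : 4 * k * Real.log x + 36 * (k : ℝ) ^ 2 ≤ (4 * k + 36 * (k : ℝ) ^ 2) * L := by
      rw [hLdef]
      nlinarith [mul_nonneg hk0 hL.le, mul_nonneg (sq_nonneg (k : ℝ)) hL.le]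
    have h1 : 12 * K₁ * (K₁ : ℝ) ^ k * (4 * k + 36 * (k : ℝ) ^ 2) * L ^ (A + 6 * k + 1) ≤ z := by
      refine le_trans ?_ e4
      gcongr
    have h2 : 3 * K₁ * (K₁ * L ^ 6) ^ k * ((4 * k + 36 * (k : ℝ) ^ 2) * L) * (4 * L ^ A) =
        12 * K₁ * (K₁ : ℝ) ^ k * (4 * k + 36 * (k : ℝ) ^ 2) * L ^ (A + 6 * k + 1) := by
      rw [mul_pow, ← pow_mul, pow_add, pow_add]
      ring
    calc 3 * K₁ * x * (K₁ * L ^ 6) ^ k * (4 * k * Real.log x + 36 * (k : ℝ) ^ 2) * (4 * L ^ A)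
        ≤ 3 * K₁ * x * (K₁ * L ^ 6) ^ k * ((4 * k + 36 * (k : ℝ) ^ 2) * L) * (4 * L ^ A) := by gcongr
      _ = x * (3 * K₁ * (K₁ * L ^ 6) ^ k * ((4 * k + 36 * (k : ℝ) ^ 2) * L) * (4 * L ^ A)) := by ring
      _ = x * (12 * K₁ * (K₁ : ℝ) ^ k * (4 * k + 36 * (k : ℝ) ^ 2) * L ^ (A + 6 * k + 1)) := by rw [h2]
      _ ≤ x * z := mul_le_mul_of_nonneg_left h1 hx0.le
  have hsum : x / (4 * (Real.log x) ^ A) + x / (4 * (Real.log x) ^ A) + x / (4 * (Real.log x) ^ A) +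
      x / (4 * (Real.log x) ^ A) = x / (Real.log x) ^ A := by
    field_simp
    ring
  linarith

end Pool.Agent.Lib.MP_092512_nt.P3.B
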