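import Pool.Agent.Lib.MP_092512_nt.P3.B6
import Pool.Agent.Lib.BV.Om

/-!
# P3 part B, module B7: weight sums

`wr K r = K 3^ω(r) / φ(r)`, the majorant of `|α(r)| / r` and of `|α(r)| / φ(r)`; its sum over all `r ≤ N`
and its sum over the squarefree multiples of a prime.
-/

set_option autoImplicit false

open Finset Pool.Agent.Lib.SW

namespace Pool.Agent.Lib.MP_092512_nt.P3.B

noncomputable def wr (K r : ℕ) : ℝ := K * 3 ^ r.primeFactors.card / r.totient

theorem wr_sum (K N : ℕ) (X : ℝ) (hX : 1 ≤ X) (hN : (N : ℝ) ≤ X) :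
    ∑ r ∈ Icc 1 N, wr K r ≤ K * (1 + Real.log X) ^ 6 := by
  have h1 := Pool.Agent.Lib.BV.sum_pow_omega 3 N
  have hlog : Real.log N ≤ Real.log X := by
    rcases Nat.eq_zero_or_pos N with h0 | h0
    · rw [h0, Nat.cast_zero, Real.log_zero]
      exact Real.log_nonneg hX
    · exact Real.log_le_log (by exact_mod_cast h0) hN
  have hlog0 : 0 ≤ Real.log N := Real.log_natCast_nonneg N
  calc ∑ r ∈ Icc 1 N, wr K r
      = K * ∑ r ∈ Icc 1 N, ((3 : ℕ) : ℝ) ^ r.primeFactors.card / r.totient := by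
        rw [mul_sum]
        refine sum_congr rfl fun r _ => ?_
        unfold wr
        push_cast
        ring
    _ ≤ K * (1 + Real.log N) ^ (2 * 3) := mul_le_mul_of_nonneg_left h1 (Nat.cast_nonneg K)
    _ ≤ K * (1 + Real.log X) ^ 6 := by
        refine mul_le_mul_of_nonneg_left ?_ (Nat.cast_nonneg K)
        exact pow_le_pow_left₀ (by linarith) (by linarith) _

theorem wr_nonneg (K r : ℕ) : 0 ≤ wr K r := by
  unfold wr
  positivity

theorem wr_pull {K p r : ℕ} (hp : p.Prime) (hr : Squarefree r) (hpr : p ∣ r) :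
    wr K r ≤ 6 / p * wr K (r / p) := by
  obtain ⟨s, rfl⟩ := hpr
  have hcop : Nat.Coprime p s := (Nat.squarefree_mul_iff.1 hr).1
  rw [Nat.mul_div_cancel_left s hp.pos]
  have hp2 : (2 : ℝ) ≤ p := by exact_mod_cast hp.two_le
  have hs : 0 < s := Nat.pos_of_ne_zero (right_ne_zero_of_mul hr.ne_zero)
  have hφ : (0 : ℝ) < s.totient := by exact_mod_cast Nat.totient_pos.2 hs
  have hom : (p * s).primeFactors.card = 1 + s.primeFactors.card := by
    rw [hcop.primeFactors_mul, card_union_of_disjoint hcop.disjoint_primeFactors, hp.primeFactors,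
      card_singleton]
  have htot : ((p * s).totient : ℝ) = ((p : ℝ) - 1) * s.totient := by
    rw [Nat.totient_mul hcop, Nat.totient_prime hp]
    push_cast [Nat.cast_sub hp.one_le]
    ring
  unfold wr
  rw [hom, htot, pow_add, pow_one]
  have h3 : (0 : ℝ) ≤ K * 3 ^ s.primeFactors.card / s.totient := by positivity
  have e1 : (K : ℝ) * (3 * 3 ^ s.primeFactors.card) / (((p : ℝ) - 1) * s.totient) =
      (3 / ((p : ℝ) - 1)) * (K * 3 ^ s.primeFactors.card / s.totient) := by
    have : ((p : ℝ) - 1) ≠ 0 := by linarith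
    field_simp
  rw [e1]
  refine mul_le_mul_of_nonneg_right ?_ h3
  rw [div_le_div_iff₀ (by linarith) (by linarith)]
  linarith

theorem wr_div (K N p : ℕ) (hp : p.Prime) (X : ℝ) (hX : 1 ≤ X) (hN : (N : ℝ) ≤ X) :
    ∑ r ∈ (Icc 1 N).filter (fun r => Squarefree r ∧ p ∣ r), wr K r ≤
      6 / p * (K * (1 + Real.log X) ^ 6) := by
  have h1 := wr_sum K N X hX hN
  have hp0 : (0 : ℝ) < p := by exact_mod_cast hp.pos
  set S := (Icc 1 N).filter (fun r => Squarefree r ∧ p ∣ r) with hS
  have hmem : ∀ r ∈ S, 1 ≤ r ∧ r ≤ N ∧ Squarefree r ∧ p ∣ r := by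
    intro r hr
    rw [hS, mem_filter, mem_Icc] at hr
    exact ⟨hr.1.1, hr.1.2, hr.2.1, hr.2.2⟩
  calc ∑ r ∈ S, wr K r ≤ ∑ r ∈ S, 6 / p * wr K (r / p) :=
        sum_le_sum fun r hr => wr_pull hp (hmem r hr).2.2.1 (hmem r hr).2.2.2
    _ = 6 / p * ∑ r ∈ S, wr K (r / p) := by rw [mul_sum]
    _ ≤ 6 / p * ∑ r ∈ Icc 1 N, wr K r := by
        refine mul_le_mul_of_nonneg_left ?_ (by positivity)
        have hinj : Set.InjOn (fun r => r / p) (S : Set ℕ) := by
          intro a ha b hb hab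
          obtain ⟨-, -, -, ⟨s, rfl⟩⟩ := hmem a ha
          obtain ⟨-, -, -, ⟨t, rfl⟩⟩ := hmem b hb
          simp only [Nat.mul_div_cancel_left _ hp.pos] at hab
          rw [hab]
        rw [← sum_image (f := fun y => wr K y) hinj]
        refine sum_le_sum_of_subset_of_nonneg ?_ fun y _ _ => wr_nonneg K y
        intro y hy
        obtain ⟨r, hr, rfl⟩ := mem_image.1 hy
        obtain ⟨g1, g2, -, ⟨s, rfl⟩⟩ := hmem r hr
        rw [Nat.mul_div_cancel_left _ hp.pos]
        have hs : 1 ≤ s := by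
          rcases Nat.eq_zero_or_pos s with h | h
          · rw [h] at g1
            omega
          · exact h
        refine mem_Icc.2 ⟨hs, le_trans ?_ g2⟩
        exact Nat.le_mul_of_pos_left s hp.pos
    _ ≤ 6 / p * (K * (1 + Real.log X) ^ 6) := mul_le_mul_of_nonneg_left h1 (by positivity)

end Pool.Agent.Lib.MP_092512_nt.P3.B
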