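import Pool.Agent.Lib.SW.TS.TS0

/-!
# P3 quadruples: definitions

`Vz z = φ(P)/P`, `P = primorial z` (from SW), `zB B x = ⌊(log x)^B⌋` (from SW).
`Sd z d Y = ∑ 1/φ(k)` over the squarefree `k ≤ Y` coprime to `d P`.
`lamS x z ρ d` is the Selberg weight of level `x^ρ`, normalised by `1/(V log x)`;
`lamC x z η j` the weight of the cell `[j η, (j+1) η]`, `LC x z η j m = ∑_{d | m} lamC d`;
`LV x z η len v m = ∑_{j < len} v_j LC_j m`.
`Aset x δ θ`: squarefree `a` with one or two prime factors, all `> x^δ`, and `a P⁺(a) ≤ x^θ`.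
`ew x δ θ m`: the minorant of the indicator of the products of at most three primes.
`cl η i u` is the measure of `[0,u] ∩ [i η, (i+1) η]`; `VV η len v u = ∑_{i < len} v_i cl η i u`;
`XX u w = VV u + VV w - VV (u+w)`.
-/

set_option autoImplicit false

open Finset

open scoped ArithmeticFunction.Moebius

namespace Pool.Agent.Lib.MP_092512_nt.P3

open Pool.Agent.Lib.SW

/-- sum of `1/φ(k)` over the squarefree `k ≤ Y` coprime to `d` and without prime factor `≤ z` -/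
noncomputable def Sd (z d : ℕ) (Y : ℝ) : ℝ :=
  ∑ k ∈ (Icc 1 ⌊Y⌋₊).filter (fun k => Squarefree k ∧ Nat.Coprime k (d * primorial z)),
    1 / (k.totient : ℝ)

/-- Selberg's weights of level `x^ρ` for numbers without prime factor `≤ z` -/
noncomputable def lamS (x z : ℕ) (ρ : ℝ) (d : ℕ) : ℝ :=
  if Squarefree d ∧ Nat.Coprime d (primorial z) then
    (μ d : ℝ) * ((d : ℝ) / d.totient) * Sd z d ((x : ℝ) ^ ρ / d) / (Vz z * Real.log x)
  else 0

/-- weight of the cell `[j η, (j+1) η]` -/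
noncomputable def lamC (x z : ℕ) (η : ℝ) (j d : ℕ) : ℝ :=
  lamS x z (((j : ℝ) + 1) * η) d - lamS x z ((j : ℝ) * η) d

noncomputable def LC (x z : ℕ) (η : ℝ) (j m : ℕ) : ℝ := ∑ d ∈ m.divisors, lamC x z η j d

noncomputable def LV (x z : ℕ) (η : ℝ) (len : ℕ) (v : ℕ → ℝ) (m : ℕ) : ℝ :=
  ∑ j ∈ range len, v j * LC x z η j m

/-- coefficients of `LC_j LC_j'` -/
noncomputable def alp (x z : ℕ) (η : ℝ) (j j' r : ℕ) : ℝ :=
  ∑ d ∈ r.divisors, ∑ e ∈ r.divisors,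
    if Nat.lcm d e = r then lamC x z η j d * lamC x z η j' e else 0

def Aset (x : ℕ) (δ θ : ℝ) (a : ℕ) : Prop :=
  Squarefree a ∧ 1 ≤ a.primeFactors.card ∧ a.primeFactors.card ≤ 2 ∧
    ∀ p ∈ a.primeFactors, (x : ℝ) ^ δ < p ∧ (a : ℝ) * p ≤ (x : ℝ) ^ θ

open Classical in
/-- minorant of the indicator of `P₃` numbers with all prime factors `> x^δ` -/
noncomputable def ew (x : ℕ) (δ θ : ℝ) (m : ℕ) : ℝ :=
  (if m.Prime then Real.log m / Real.log (3 * x) else 0) +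
    ∑ b ∈ m.primeFactors.filter (fun b => Aset x δ θ (m / b)),
      Real.log b / Real.log (3 * x / ((m / b : ℕ) : ℝ))

/-- discrepancy of `F` (supported on `[1, X]`) in the class `l` modulo `q` -/
noncomputable def disc (F : ℕ → ℝ) (X q l : ℕ) : ℝ :=
  ∑ m ∈ (Icc 1 X).filter (fun m => m % q = l % q), F m -
    1 / (q.totient : ℝ) * ∑ m ∈ (Icc 1 X).filter (fun m => Nat.Coprime m q), F m

/-- `F` has level of distribution `Q` with error `E` (weights `K^ω(q)`) -/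
def LevelBd (F : ℕ → ℝ) (X Q K : ℕ) (E : ℝ) : Prop :=
  ∀ l : ℕ → ℕ, (∀ q, 1 ≤ q → Nat.Coprime (l q) q) →
    ∑ q ∈ Icc 1 Q, (K : ℝ) ^ q.primeFactors.card * |disc F X q (l q)| ≤ E

/-- `|[0,u] ∩ [i η, (i+1) η]|` -/
noncomputable def cl (η : ℝ) (i : ℕ) (u : ℝ) : ℝ := min (max (u - i * η) 0) η

noncomputable def VV (η : ℝ) (len : ℕ) (v : ℕ → ℝ) (u : ℝ) : ℝ := ∑ i ∈ range len, v i * cl η i u

noncomputable def XX (η : ℝ) (len : ℕ) (v : ℕ → ℝ) (u w : ℝ) : ℝ :=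
  VV η len v u + VV η len v w - VV η len v (u + w)

/-- number of residue classes modulo `p` of the shifts `h i`, `i ∈ s` -/
def nuh {k : ℕ} (h : Fin k → ℕ) (s : Finset (Fin k)) (p : ℕ) : ℕ := (s.image (fun i => h i % p)).card

/-- `∏_{p ≤ z} (1 - ν(p)/p)` -/
noncomputable def VH {k : ℕ} (h : Fin k → ℕ) (z : ℕ) : ℝ :=
  ∏ p ∈ (Icc 1 z).filter Nat.Prime, (1 - (nuh h univ p : ℝ) / p)

/-- `∏_{p ≤ z} (1 - (ν(p) - 1)/(p - 1))` -/
noncomputable def VH' {k : ℕ} (h : Fin k → ℕ) (z : ℕ) : ℝ :=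
  ∏ p ∈ (Icc 1 z).filter Nat.Prime, (1 - ((nuh h univ p : ℝ) - 1) / ((p : ℝ) - 1))

end Pool.Agent.Lib.MP_092512_nt.P3
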