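import Mathlib
import Pool.Agent.Lib.MP_092512_nt.P3.Defs
import Pool.Agent.Lib.Sieve.Pair
import Pool.Agent.Lib.Sieve.SingularAverage

/-!
# C0: elementary facts on `Sd`: monotone, the coprimality identity, the lower bound `V log Y ≤ Sd z 1 Y`

Call `k` rough if `Nat.Coprime k (primorial z)` (no prime factor `≤ z`).

PROOFS.
* `C0_Vz_pos`, `C0_Vz_le_one`: `Vz z = φ(P)/P`, `0 < φ(P) ≤ P`.
* `C0_Sd_nonneg`, `C0_Sd_mono`: nonnegative terms, larger index set. `C0_Sd_lt_one`: `⌊Y⌋₊ = 0`.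
  `C0_Sd_coprime_le`: fewer terms.
* `C0_Sd_identity` (for `d` squarefree and rough): sort the `k` of `Sd z 1 Y` by `l = gcd(k, d)`: `k = l m` with
  `m` squarefree, rough, coprime to `l`, and (as `gcd(lm, d) = l`, `d` squarefree) coprime to `d / l`, that is
  coprime to `d`; `φ(k) = φ(l) φ(m)`; `m ≤ ⌊Y / l⌋₊`. Conversely `l ∣ d` and `m` squarefree rough coprime to `d`
  give a squarefree rough `k = l m` with `gcd(k, d) = l`.
* `C0_sum_inv_totient_divisors`: `∑_{l ∣ d} 1/φ(l) = d/φ(d)` for squarefree `d` (`∏_{p ∣ d} (1 + 1/(p-1))`; the library has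
  `Sieve.div_totient_eq_prod`, `Finset.prod_one_add`, `Nat.sum_divisors_filter_squarefree`; or multiplicativity).
* `C0_Sd_lower_coprime`: `Sd z 1 Y = ∑_{l ∣ d} Sd z d (Y/l)/φ(l) ≤ (d/φ(d)) Sd z d Y`.
* `C0_Sd_selberg`: `Sd z 1 Y ≥ ∑_{l ∣ d} Sd z d (Y/d)/φ(l) = (d/φ(d)) Sd z d (Y/d)` (`Y/l ≥ Y/d`).
* `C0_harmonic_rough`: `∑_{n ≤ M} 1/n ≤ (1/V z) ∑_{n ≤ M, rough} 1/n`: this is `Sieve.harmonic_le_coprime (primorial z) M`,
  as `P/φ(P) = 1 / Vz z`.
* `C0_rough_le_Sd`: `∑_{n ≤ M, rough} 1/n ≤ Sd z 1 M`: sort the `n` by `k = ∏ p ∈ n.primeFactors, p` (the radical), which is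
  squarefree, rough, `≤ n ≤ M`; for each `k`, `∑_{n ≤ M, n.primeFactors = k.primeFactors} 1/n ≤ ∏_{p ∣ k} (1/p)/(1-1/p) = 1/φ(k)`
  by `Sieve.sum_primeFactors_eq_le` (`f n = 1/n`).
* `C0_Sd_lower`: `log Y ≤ log (⌊Y⌋₊ + 1) ≤ ∑_{n ≤ ⌊Y⌋₊} 1/n` (`log_add_one_le_harmonic`, see `Sieve.log_le_prod`).
-/

set_option autoImplicit false

open Finset

open scoped ArithmeticFunction.Moebius

namespace Pool.Agent.Lib.MP_092512_nt.P3

open Pool.Agent.Lib.SW

theorem C0_Vz_pos (z : ℕ) : 0 < Vz z := by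
  unfold Vz
  have h : 0 < primorial z := primorial_pos z
  have h1 : (0 : ℝ) < ((primorial z).totient : ℝ) := by exact_mod_cast Nat.totient_pos.2 h
  have h2 : (0 : ℝ) < (primorial z : ℝ) := by exact_mod_cast h
  exact div_pos h1 h2

theorem C0_Vz_le_one (z : ℕ) : Vz z ≤ 1 := by
  unfold Vz
  have h : 0 < primorial z := primorial_pos z
  have h2 : (0 : ℝ) < (primorial z : ℝ) := by exact_mod_cast h
  rw [div_le_one h2]
  exact_mod_cast Nat.totient_le _

theorem C0_Sd_nonneg (z d : ℕ) (Y : ℝ) : 0 ≤ Sd z d Y := by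
  unfold Sd
  exact Finset.sum_nonneg fun k _ => by positivity

theorem C0_Sd_mono (z d : ℕ) {Y Y' : ℝ} (h : Y ≤ Y') : Sd z d Y ≤ Sd z d Y' := by
  unfold Sd
  refine Finset.sum_le_sum_of_subset_of_nonneg ?_ fun k _ _ => by positivity
  intro k hk
  rw [mem_filter, mem_Icc] at hk ⊢
  exact ⟨⟨hk.1.1, hk.1.2.trans (Nat.floor_mono h)⟩, hk.2⟩

theorem C0_Sd_lt_one (z d : ℕ) {Y : ℝ} (h : Y < 1) : Sd z d Y = 0 := by
  unfold Sd
  rw [Nat.floor_eq_zero.2 h]
  simp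

theorem C0_Sd_coprime_le (z d : ℕ) (Y : ℝ) : Sd z d Y ≤ Sd z 1 Y := by
  unfold Sd
  refine Finset.sum_le_sum_of_subset_of_nonneg ?_ fun k _ _ => by positivity
  intro k hk
  rw [mem_filter] at hk ⊢
  refine ⟨hk.1, hk.2.1, ?_⟩
  rw [one_mul]
  exact Nat.Coprime.coprime_mul_left_right hk.2.2

theorem C0_Sd_identity (z d : ℕ) (hd : Squarefree d) (hr : Nat.Coprime d (primorial z)) (Y : ℝ) :
    Sd z 1 Y = ∑ l ∈ d.divisors, (1 / (Nat.totient l : ℝ)) * Sd z d (Y / l) := by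
  classical
  have hd0 : d ≠ 0 := hd.ne_zero
  unfold Sd
  rw [← Finset.sum_fiberwise_of_maps_to (t := d.divisors) (g := fun k => Nat.gcd k d)
    (fun k _ => Nat.mem_divisors.2 ⟨Nat.gcd_dvd_right k d, hd0⟩)]
  refine Finset.sum_congr rfl fun l hl => ?_
  have hld : l ∣ d := Nat.dvd_of_mem_divisors hl
  have hl0 : 0 < l := Nat.pos_of_mem_divisors hl
  have hl0' : (0 : ℝ) < l := by exact_mod_cast hl0
  rw [Finset.mul_sum]
  refine Finset.sum_nbij' (fun k => k / l) (fun m => l * m) ?_ ?_ ?_ ?_ ?_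
  · intro k hk
    rw [mem_filter, mem_filter, mem_Icc, one_mul] at hk
    obtain ⟨⟨⟨hk1, hkY⟩, hks, hkr⟩, hg⟩ := hk
    have hlk : l ∣ k := hg ▸ Nat.gcd_dvd_left k d
    obtain ⟨m, rfl⟩ := hlk
    show l * m / l ∈ _
    rw [Nat.mul_div_cancel_left m hl0, mem_filter, mem_Icc]
    have hm0 : 0 < m := Nat.pos_of_ne_zero fun h => by
      rw [h, mul_zero] at hk1
      omega
    have hsm : Squarefree m := hks.squarefree_of_dvd (Dvd.intro_left l rfl)
    refine ⟨⟨hm0, ?_⟩, hsm, ?_⟩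
    · have h1 : ((l * m : ℕ) : ℝ) ≤ Y := (Nat.le_floor_iff' (by omega)).1 hkY
      refine Nat.le_floor ?_
      rw [le_div_iff₀ hl0']
      push_cast at h1
      linarith
    · refine Nat.Coprime.mul_right ?_ (Nat.Coprime.coprime_dvd_left (Dvd.intro_left l rfl) hkr)
      rw [Nat.coprime_iff_gcd_eq_one]
      by_contra hne
      obtain ⟨p, hp, hpg⟩ := Nat.exists_prime_and_dvd hne
      have hpm : p ∣ m := hpg.trans (Nat.gcd_dvd_left m d)
      have hpd : p ∣ d := hpg.trans (Nat.gcd_dvd_right m d)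
      have hpl : p ∣ l := by
        rw [← hg]
        exact Nat.dvd_gcd (hpm.trans (Dvd.intro_left l rfl)) hpd
      have h2 : p * p ∣ l * m := Nat.mul_dvd_mul hpl hpm
      exact hp.one_lt.ne' (Nat.isUnit_iff.1 (hks p h2))
  · intro m hm
    rw [mem_filter, mem_Icc] at hm
    obtain ⟨⟨hm1, hmY⟩, hms, hmr⟩ := hm
    have hmd : Nat.Coprime m d := Nat.Coprime.coprime_mul_right_right hmr
    have hmP : Nat.Coprime m (primorial z) := Nat.Coprime.coprime_mul_left_right hmr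
    have hml : Nat.Coprime m l := Nat.Coprime.coprime_dvd_right hld hmd
    rw [mem_filter, mem_filter, mem_Icc, one_mul]
    refine ⟨⟨⟨Nat.mul_pos hl0 hm1, ?_⟩, ?_, ?_⟩, ?_⟩
    · have h1 : (m : ℝ) ≤ Y / l := (Nat.le_floor_iff' (by omega)).1 hmY
      refine Nat.le_floor ?_
      rw [le_div_iff₀ hl0'] at h1
      push_cast
      linarith
    · exact (Nat.squarefree_mul hml.symm).2 ⟨hd.squarefree_of_dvd hld, hms⟩
    · exact Nat.Coprime.mul_left (Nat.Coprime.coprime_dvd_left hld hr) hmP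
    · rw [Nat.Coprime.gcd_mul_right_cancel l hmd]
      exact Nat.gcd_eq_left hld
  · intro k hk
    rw [mem_filter] at hk
    have hlk : l ∣ k := hk.2 ▸ Nat.gcd_dvd_left k d
    exact Nat.mul_div_cancel' hlk
  · intro m _
    exact Nat.mul_div_cancel_left m hl0
  · intro k hk
    rw [mem_filter, mem_filter, mem_Icc, one_mul] at hk
    obtain ⟨⟨⟨hk1, hkY⟩, hks, hkr⟩, hg⟩ := hk
    have hlk : l ∣ k := hg ▸ Nat.gcd_dvd_left k d
    obtain ⟨m, rfl⟩ := hlk
    show 1 / ((l * m).totient : ℝ) = 1 / (l.totient : ℝ) * (1 / ((l * m / l).totient : ℝ))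
    rw [Nat.mul_div_cancel_left m hl0,
      Nat.totient_mul ((Nat.squarefree_mul_iff.1 hks).1), Nat.cast_mul, one_div_mul_one_div]

theorem C0_sum_inv_totient_divisors (d : ℕ) (hd : Squarefree d) :
    ∑ l ∈ d.divisors, (1 / (Nat.totient l : ℝ)) = (d : ℝ) / (Nat.totient d : ℝ) := by
  classical
  let f : ArithmeticFunction ℝ := ⟨fun n => if n = 0 then 0 else 1 / (n.totient : ℝ), if_pos rfl⟩
  have hf : ∀ n : ℕ, n ≠ 0 → f n = 1 / (n.totient : ℝ) := fun n hn => if_neg hn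
  have hmul : f.IsMultiplicative := by
    rw [ArithmeticFunction.IsMultiplicative.iff_ne_zero]
    constructor
    · rw [hf 1 one_ne_zero, Nat.totient_one]
      norm_num
    · intro m n hm hn h
      rw [hf _ (mul_ne_zero hm hn), hf m hm, hf n hn, Nat.totient_mul h, Nat.cast_mul,
        one_div_mul_one_div]
  have h := hmul.prodPrimeFactors_one_add_of_squarefree hd
  have h1 : ∑ l ∈ d.divisors, (1 / (Nat.totient l : ℝ)) = ∑ l ∈ d.divisors, f l :=
    Finset.sum_congr rfl fun l hl => (hf l (Nat.pos_of_mem_divisors hl).ne').symm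
  rw [h1, ← h, Sieve.div_totient_eq_prod d hd.ne_zero]
  refine Finset.prod_congr rfl fun p hp => ?_
  have hpp := Nat.prime_of_mem_primeFactors hp
  have h2 : (2 : ℝ) ≤ p := by exact_mod_cast hpp.two_le
  have h3 : (p : ℝ) - 1 ≠ 0 := by linarith
  have h0 : (p : ℝ) ≠ 0 := by linarith
  rw [hf p hpp.ne_zero, Nat.totient_prime hpp, Nat.cast_sub hpp.one_le, Nat.cast_one]
  congr 1
  have e1 : 1 - 1 / (p : ℝ) = ((p : ℝ) - 1) / p := by field_simp
  rw [e1]
  field_simp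

theorem C0_Sd_lower_coprime (z d : ℕ) (hd : Squarefree d) (hr : Nat.Coprime d (primorial z)) (Y : ℝ)
    (hY : 0 ≤ Y) : Sd z 1 Y ≤ (d : ℝ) / (Nat.totient d : ℝ) * Sd z d Y := by
  rw [C0_Sd_identity z d hd hr Y, ← C0_sum_inv_totient_divisors d hd, Finset.sum_mul]
  refine Finset.sum_le_sum fun l hl => ?_
  refine mul_le_mul_of_nonneg_left (C0_Sd_mono z d ?_) (by positivity)
  have hl1 : (1 : ℝ) ≤ l := by exact_mod_cast Nat.pos_of_mem_divisors hl
  exact div_le_self hY hl1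

theorem C0_Sd_selberg (z d : ℕ) (hd : Squarefree d) (hr : Nat.Coprime d (primorial z)) (Y : ℝ)
    (hY : 0 ≤ Y) : (d : ℝ) / (Nat.totient d : ℝ) * Sd z d (Y / d) ≤ Sd z 1 Y := by
  rw [C0_Sd_identity z d hd hr Y, ← C0_sum_inv_totient_divisors d hd, Finset.sum_mul]
  refine Finset.sum_le_sum fun l hl => ?_
  refine mul_le_mul_of_nonneg_left (C0_Sd_mono z d ?_) (by positivity)
  have hl1 : (0 : ℝ) < l := by exact_mod_cast Nat.pos_of_mem_divisors hl
  have hld : (l : ℝ) ≤ d := by exact_mod_cast Nat.divisor_le hl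
  exact div_le_div_of_nonneg_left hY hl1 hld

end Pool.Agent.Lib.MP_092512_nt.P3
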