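import Mathlib
import Pool.Agent.Lib.MP_092512_nt.P3.Defs
import Pool.Agent.Lib.MP_092512_nt.P3.C0
import Pool.Agent.Lib.Sieve.Pair
import Pool.Agent.Lib.Sieve.Smooth

/-!
# C0: elementary facts on `Sd`: monotone, the coprimality identity, the lower bound `V log Y ≤ Sd z 1 Y`

Call `k` rough if `Nat.Coprime k (primorial z)` (no prime factor `≤ z`).

PROOFS.
* `C0_Vz_pos`, `C0_Vz_le_one`: `Vz z = φ(P)/P`, `0 < φ(P) ≤ P`.
* `C0_Sd_nonneg`, `C0_Sd_mono`: nonnegative terms, larger index set. `C0_Sd_lt_one`: `⌊Y⌋₊ = 0`.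
  `C0_Sd_coprime_le`: fewer terms.
* `C0_Sd_identity` (for `d` squarefree and rough): sort the `k` of `Sd z 1 Y` by `l = gcd(k, d)`: `k = l m` with
  `m` squarefree, rough, coprime to `l`, and (as `gcd(lm, d) = l`, `d` squarefree) coprime to `d / l`, that is
  coprime to `d`; `φ(k) = φ(l) φ(m)`; `m ≤ ⌊Y / l⌋₊`. Conversely `l ∣ d` and `m` squarefree rough coprime to `d`
  give a squarefree rough `k = l m` with `gcd(k, d) = l`.
* `C0_sum_inv_totient_divisors`: `∑_{l ∣ d} 1/φ(l) = d/φ(d)` for squarefree `d` (`∏_{p ∣ d} (1 + 1/(p-1))`; the library has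
  `Sieve.div_totient_eq_prod`, `Finset.prod_one_add`, `Nat.sum_divisors_filter_squarefree`; or multiplicativity).
* `C0_Sd_lower_coprime`: `Sd z 1 Y = ∑_{l ∣ d} Sd z d (Y/l)/φ(l) ≤ (d/φ(d)) Sd z d Y`.
* `C0_Sd_selberg`: `Sd z 1 Y ≥ ∑_{l ∣ d} Sd z d (Y/d)/φ(l) = (d/φ(d)) Sd z d (Y/d)` (`Y/l ≥ Y/d`).
* `C0_harmonic_rough`: `∑_{n ≤ M} 1/n ≤ (1/V z) ∑_{n ≤ M, rough} 1/n`: this is `Sieve.harmonic_le_coprime (primorial z) M`,
  as `P/φ(P) = 1 / Vz z`.
* `C0_rough_le_Sd`: `∑_{n ≤ M, rough} 1/n ≤ Sd z 1 M`: sort the `n` by `k = ∏ p ∈ n.primeFactors, p` (the radical), which is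
  squarefree, rough, `≤ n ≤ M`; for each `k`, `∑_{n ≤ M, n.primeFactors = k.primeFactors} 1/n ≤ ∏_{p ∣ k} (1/p)/(1-1/p) = 1/φ(k)`
  by `Sieve.sum_primeFactors_eq_le` (`f n = 1/n`).
* `C0_Sd_lower`: `log Y ≤ log (⌊Y⌋₊ + 1) ≤ ∑_{n ≤ ⌊Y⌋₊} 1/n` (`log_add_one_le_harmonic`, see `Sieve.log_le_prod`).
-/

set_option autoImplicit false

open Finset

open scoped ArithmeticFunction.Moebius

namespace Pool.Agent.Lib.MP_092512_nt.P3

open Pool.Agent.Lib.SW

theorem C0_harmonic_rough (z M : ℕ) :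
    ∑ n ∈ Icc 1 M, (1 : ℝ) / n ≤
      (1 / Vz z) * ∑ n ∈ (Icc 1 M).filter (fun n => Nat.Coprime n (primorial z)), (1 : ℝ) / n := by
  have h := Sieve.harmonic_le_coprime (primorial z) M (primorial_pos z).ne'
  unfold Vz
  rw [one_div_div]
  exact h

private theorem c0b_totient {k : ℕ} (hk : Squarefree k) :
    ∏ p ∈ k.primeFactors, ((1 : ℝ) / p) / (1 - (1 : ℝ) / p) = 1 / (k.totient : ℝ) := by
  have h1 : (Nat.totient k : ℝ) = k * ∏ p ∈ k.primeFactors, (1 - (p : ℝ)⁻¹) := by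
    have := congrArg (fun x : ℚ => (x : ℝ)) (Nat.totient_eq_mul_prod_factors k)
    simpa using this
  have h2 : (k : ℝ) = ∏ p ∈ k.primeFactors, (p : ℝ) := by
    rw [← Nat.cast_prod, Nat.prod_primeFactors_of_squarefree hk]
  have h5 : (Nat.totient k : ℝ) = ∏ p ∈ k.primeFactors, ((p : ℝ) * (1 - (p : ℝ)⁻¹)) := by
    rw [h1, Finset.prod_mul_distrib, ← h2]
  rw [h5, one_div, ← Finset.prod_inv_distrib]
  refine Finset.prod_congr rfl fun p hp => ?_
  have h3 : (2 : ℝ) ≤ p := by exact_mod_cast (Nat.prime_of_mem_primeFactors hp).two_le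
  have h4 : (p : ℝ) ≠ 0 := by linarith
  rw [one_div, div_eq_mul_inv, mul_inv]

theorem C0_rough_le_Sd (z M : ℕ) :
    ∑ n ∈ (Icc 1 M).filter (fun n => Nat.Coprime n (primorial z)), (1 : ℝ) / n ≤ Sd z 1 M := by
  classical
  unfold Sd
  rw [Nat.floor_natCast]
  have hmaps : ∀ n ∈ (Icc 1 M).filter (fun n => Nat.Coprime n (primorial z)),
      (∏ p ∈ n.primeFactors, p) ∈
        (Icc 1 M).filter (fun k => Squarefree k ∧ Nat.Coprime k (1 * primorial z)) := by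
    intro n hn
    rw [mem_filter, mem_Icc] at hn
    obtain ⟨⟨hn1, hnM⟩, hnr⟩ := hn
    have hdvd : (∏ p ∈ n.primeFactors, p) ∣ n := Nat.prod_primeFactors_dvd n
    have hpos : 0 < ∏ p ∈ n.primeFactors, p := Nat.pos_of_dvd_of_pos hdvd hn1
    rw [mem_filter, mem_Icc, one_mul]
    refine ⟨⟨hpos, (Nat.le_of_dvd hn1 hdvd).trans hnM⟩, ?_, Nat.Coprime.coprime_dvd_left hdvd hnr⟩
    refine Finset.squarefree_prod_of_pairwise_isCoprime ?_ ?_
    · intro p hp q hq hpq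
      exact Nat.coprime_iff_isRelPrime.1 ((Nat.coprime_primes (Nat.prime_of_mem_primeFactors hp)
          (Nat.prime_of_mem_primeFactors hq)).2 hpq)
    · intro p hp
      exact (Nat.prime_of_mem_primeFactors hp).squarefree
  rw [← Finset.sum_fiberwise_of_maps_to hmaps]
  refine Finset.sum_le_sum fun k hk => ?_
  rw [mem_filter, mem_Icc] at hk
  rw [← c0b_totient hk.2.1]
  have h := Sieve.sum_primeFactors_eq_le (fun n : ℕ => (1 : ℝ) / n) (fun n => by positivity)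
    (by simp) (fun m n => by push_cast; rw [one_div_mul_one_div]) M k.primeFactors
    (fun p hp => Nat.prime_of_mem_primeFactors hp)
    (fun p hp => by
      have h1 : (1 : ℝ) < p := by exact_mod_cast (Nat.prime_of_mem_primeFactors hp).one_lt
      show (1 : ℝ) / p < 1
      rw [div_lt_one (by linarith)]
      exact h1)
  refine le_trans ?_ h
  refine Finset.sum_le_sum_of_subset_of_nonneg ?_ fun n _ _ => by positivity
  intro n hn
  rw [mem_filter, mem_filter] at hn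
  rw [mem_filter]
  refine ⟨hn.1.1, ?_⟩
  rw [← hn.2, Nat.primeFactors_prod fun p hp => Nat.prime_of_mem_primeFactors hp]

theorem C0_Sd_lower (z : ℕ) (Y : ℝ) (hY : 1 ≤ Y) : Vz z * Real.log Y ≤ Sd z 1 Y := by
  have hV := C0_Vz_pos z
  have h1 : Real.log Y ≤ ∑ n ∈ Icc 1 ⌊Y⌋₊, (1 : ℝ) / n := by
    have h := log_add_one_le_harmonic ⌊Y⌋₊
    rw [harmonic_eq_sum_Icc] at h
    push_cast at h
    have h2 : Real.log Y ≤ Real.log ((⌊Y⌋₊ : ℝ) + 1) :=
      Real.log_le_log (by linarith) (Nat.lt_floor_add_one Y).le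
    refine (h2.trans h).trans (le_of_eq ?_)
    exact Finset.sum_congr rfl fun n _ => (one_div _).symm
  have h3 := C0_harmonic_rough z ⌊Y⌋₊
  have h4 := C0_rough_le_Sd z ⌊Y⌋₊
  have h5 : Sd z 1 (⌊Y⌋₊ : ℝ) = Sd z 1 Y := by
    unfold Sd
    rw [Nat.floor_natCast]
  rw [h5] at h4
  calc Vz z * Real.log Y ≤ Vz z * ((1 / Vz z) * ∑ n ∈ (Icc 1 ⌊Y⌋₊).filter
        (fun n => Nat.Coprime n (primorial z)), (1 : ℝ) / n) :=
        mul_le_mul_of_nonneg_left (h1.trans h3) hV.le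
    _ = ∑ n ∈ (Icc 1 ⌊Y⌋₊).filter (fun n => Nat.Coprime n (primorial z)), (1 : ℝ) / n := by
        field_simp
    _ ≤ Sd z 1 Y := h4

end Pool.Agent.Lib.MP_092512_nt.P3
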