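import Mathlib
import Pool.Agent.Lib.MP_092512_nt.P3.Defs
import Pool.Agent.Lib.Sieve.Mertens
import Pool.Agent.Lib.SW.LG3

/-!
# C1: size of `zB B x` and `Vz (zB B x)`; the smooth numbers up to `x^ε` carry almost all of `∑ 1/b = 1/V` (Rankin)

Write `z = zB B x = ⌊(log x)^B⌋`.

PROOFS.
* `C1_zB_tendsto`: `log x → ∞`. `C1_zB_ge`: `z + 1 > (log x)^B`, so `z ≥ (log x)^2` for `B ≥ 3` and large `x`
  (`(log x)^B - 1 ≥ (log x)^2`). `C1_zB_le_rpow`: powers of `log x` are `o(x^ε)` (`isLittleO_log_rpow_rpow_atTop`).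
* `C1_V_log_tendsto`: by `LG3_V` (`Vz z = ∏_{p ≤ z} (1 - 1/p)`) and `Sieve.mertens_product_upper` `Vz z ≥ 1/(C log z)`
  (`z ≥ 2`), `log z ≤ B log log x`, so `Vz z log x ≥ log x / (C B log log x) → ∞`.
* `C1_rankin_tail`. Full sum: the infinite sums over the `z`-smooth numbers (`Nat.smoothNumbers (z+1)`: all prime factors
  `< z + 1`) are Euler products: `EulerProduct.summable_and_hasSum_smoothNumbers_prod_primesBelow_geometric` with the
  completely multiplicative `f n = n^(-s)` (`s = 1` and `s = 1 - η`, `f 0 = 0`): `∑ 1/b = 1/Vz z`,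
  `∑ b^(η-1) = ∏_{p ≤ z} (1 - p^(η-1))⁻¹`. Take `η = 1/(2B)`. For `b > W = x^ε`: `1/b ≤ W^(-η) b^(η-1)`. So the tail is
  `≤ W^(-η) ∏_{p ≤ z}(1-p^(η-1))⁻¹`; `p^(η-1) ≤ 2^(-1/2) ≤ 3/4`, `(1-t)⁻¹ ≤ exp(4t)` for `0 ≤ t ≤ 3/4`,
  `∑_{p ≤ z} p^(η-1) ≤ z^η ∑_{n ≤ z} 1/n ≤ z^η (1 + log z) ≤ (log x)^(1/2) (1 + B log log x)`: the tail is
  `≤ exp(-ηε log x + 4 (log x)^(1/2) (1 + B log log x)) → 0`, hence eventually `≤ ε ≤ ε / Vz z`.
  (The finite version `Sieve.sum_primeFactors_subset_le` gives the upper bounds for finite sums; the infinite Euler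
  product is needed only for the lower bound of the full sum of `1/b`. Compare the proof of `Sieve.rankin`.)
-/

set_option autoImplicit false

open Finset Filter

namespace Pool.Agent.Lib.MP_092512_nt.P3

open Pool.Agent.Lib.SW

private theorem C1_log_tendsto : Tendsto (fun x : ℕ => Real.log (x : ℝ)) atTop atTop :=
  Real.tendsto_log_atTop.comp tendsto_natCast_atTop_atTop

theorem C1_zB_tendsto (B : ℕ) (hB : 1 ≤ B) : Tendsto (fun x : ℕ => zB B x) atTop atTop := by
  have h1 : Tendsto (fun x : ℕ => (Real.log (x : ℝ)) ^ B) atTop atTop :=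
    (tendsto_pow_atTop (by omega)).comp C1_log_tendsto
  exact tendsto_nat_floor_atTop.comp h1

theorem C1_zB_ge (B : ℕ) (hB : 3 ≤ B) : ∀ᶠ x : ℕ in atTop, (Real.log x) ^ 2 ≤ (zB B x : ℝ) := by
  filter_upwards [C1_log_tendsto.eventually_ge_atTop 2] with x hx
  have h1 : (Real.log x) ^ 3 ≤ (Real.log x) ^ B := pow_le_pow_right₀ (by linarith) hB
  have h2 : (Real.log x) ^ 2 + 1 ≤ (Real.log x) ^ 3 := by nlinarith [sq_nonneg (Real.log x)]
  have h3 : (Real.log x) ^ B - 1 < (⌊(Real.log x) ^ B⌋₊ : ℝ) := Nat.sub_one_lt_floor _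
  unfold zB
  linarith

theorem C1_zB_le_rpow (B : ℕ) (ε : ℝ) (hε : 0 < ε) : ∀ᶠ x : ℕ in atTop, (zB B x : ℝ) < (x : ℝ) ^ ε := by
  have h1 := (isLittleO_log_rpow_rpow_atTop (B : ℝ) hε).bound (c := 1 / 2) (by norm_num)
  have h2 := tendsto_natCast_atTop_atTop.eventually h1
  filter_upwards [h2, eventually_ge_atTop 2] with x hx hx2
  have hx1 : (1 : ℝ) < x := by exact_mod_cast hx2
  have hl : 0 < Real.log x := Real.log_pos hx1
  have hp : 0 < (x : ℝ) ^ ε := Real.rpow_pos_of_pos (by linarith) _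
  rw [Real.norm_eq_abs, Real.norm_eq_abs, abs_of_pos hp, abs_of_nonneg (Real.rpow_nonneg hl.le _),
    Real.rpow_natCast] at hx
  have h3 : (⌊(Real.log x) ^ B⌋₊ : ℝ) ≤ (Real.log x) ^ B := Nat.floor_le (by positivity)
  unfold zB
  linarith

theorem C1_V_log_tendsto (B : ℕ) (hB : 1 ≤ B) :
    Tendsto (fun x : ℕ => Vz (zB B x) * Real.log x) atTop atTop := by
  have h1 : Tendsto (fun x : ℕ => Real.log (zB B x : ℝ) * LG3V (zB B x)) atTop
      (nhds (Real.exp (-Real.eulerMascheroniConstant))) :=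
    Sieve.Mertens3.mertens_three.comp (C1_zB_tendsto B hB)
  have h2 : Tendsto (fun x : ℕ => Real.log (zB B x : ℝ) / Real.log x) atTop (nhds 0) := by
    have h3 : Tendsto (fun x : ℕ => (B : ℝ) * (Real.log (Real.log x) / Real.log x)) atTop
        (nhds ((B : ℝ) * 0)) := by
      refine Tendsto.const_mul _ ?_
      exact Real.isLittleO_log_id_atTop.tendsto_div_nhds_zero.comp C1_log_tendsto
    rw [mul_zero] at h3
    refine squeeze_zero' ?_ ?_ h3
    · filter_upwards [(C1_zB_tendsto B hB).eventually_ge_atTop 1, C1_log_tendsto.eventually_ge_atTop 1]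
        with x hx hx'
      have : (1 : ℝ) ≤ (zB B x : ℝ) := by exact_mod_cast hx
      exact div_nonneg (Real.log_nonneg this) (by linarith)
    · filter_upwards [(C1_zB_tendsto B hB).eventually_ge_atTop 1, C1_log_tendsto.eventually_ge_atTop 1]
        with x hx hx'
      have h4 : (1 : ℝ) ≤ (zB B x : ℝ) := by exact_mod_cast hx
      have h5 : (zB B x : ℝ) ≤ (Real.log x) ^ B := Nat.floor_le (by positivity)
      have h6 : Real.log (zB B x : ℝ) ≤ B * Real.log (Real.log x) := by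
        rw [← Real.log_pow]
        exact Real.log_le_log (by linarith) h5
      rw [← mul_div_assoc]
      exact div_le_div_of_nonneg_right h6 (by linarith)
  have h3 : Tendsto (fun x : ℕ => (Real.log (zB B x : ℝ) / Real.log x)⁻¹) atTop atTop := by
    refine Tendsto.inv_tendsto_nhdsGT_zero ?_
    rw [tendsto_nhdsWithin_iff]
    refine ⟨h2, ?_⟩
    filter_upwards [(C1_zB_tendsto B hB).eventually_ge_atTop 2, C1_log_tendsto.eventually_ge_atTop 1]
      with x hx hx'
    have h4 : (1 : ℝ) < (zB B x : ℝ) := by exact_mod_cast hx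
    exact div_pos (Real.log_pos h4) (by linarith)
  have h4 := Tendsto.pos_mul_atTop (Real.exp_pos _) h1 h3
  refine h4.congr' ?_
  filter_upwards [(C1_zB_tendsto B hB).eventually_ge_atTop 2, C1_log_tendsto.eventually_ge_atTop 1]
    with x hx hx'
  have h5 : (1 : ℝ) < (zB B x : ℝ) := by exact_mod_cast hx
  have h6 : Real.log (zB B x : ℝ) ≠ 0 := (Real.log_pos h5).ne'
  have h7 : Real.log (x : ℝ) ≠ 0 := by
    intro h
    rw [h] at hx'
    linarith
  have h8 : Vz (zB B x) = LG3V (zB B x) := LG3_V _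
  rw [h8]
  field_simp

end Pool.Agent.Lib.MP_092512_nt.P3
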