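import Mathlib
import Pool.Agent.Lib.MP_092512_nt.P3.Defs
import Pool.Agent.Lib.MP_092512_nt.P3.C1
import Pool.Agent.Lib.Sieve.Smooth
import Pool.Agent.Lib.SW.LG3

/-!
# C1: size of `zB B x` and `Vz (zB B x)`; the smooth numbers up to `x^ε` carry almost all of `∑ 1/b = 1/V` (Rankin)

Write `z = zB B x = ⌊(log x)^B⌋`.

PROOFS.
* `C1_zB_tendsto`: `log x → ∞`. `C1_zB_ge`: `z + 1 > (log x)^B`, so `z ≥ (log x)^2` for `B ≥ 3` and large `x`
  (`(log x)^B - 1 ≥ (log x)^2`). `C1_zB_le_rpow`: powers of `log x` are `o(x^ε)` (`isLittleO_log_rpow_rpow_atTop`).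
* `C1_V_log_tendsto`: by `LG3_V` (`Vz z = ∏_{p ≤ z} (1 - 1/p)`) and `Sieve.mertens_product_upper` `Vz z ≥ 1/(C log z)`
  (`z ≥ 2`), `log z ≤ B log log x`, so `Vz z log x ≥ log x / (C B log log x) → ∞`.
* `C1_rankin_tail`. Full sum: the infinite sums over the `z`-smooth numbers (`Nat.smoothNumbers (z+1)`: all prime factors
  `< z + 1`) are Euler products: `EulerProduct.summable_and_hasSum_smoothNumbers_prod_primesBelow_geometric` with the
  completely multiplicative `f n = n^(-s)` (`s = 1` and `s = 1 - η`, `f 0 = 0`): `∑ 1/b = 1/Vz z`,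
  `∑ b^(η-1) = ∏_{p ≤ z} (1 - p^(η-1))⁻¹`. Take `η = 1/(2B)`. For `b > W = x^ε`: `1/b ≤ W^(-η) b^(η-1)`. So the tail is
  `≤ W^(-η) ∏_{p ≤ z}(1-p^(η-1))⁻¹`; `p^(η-1) ≤ 2^(-1/2) ≤ 3/4`, `(1-t)⁻¹ ≤ exp(4t)` for `0 ≤ t ≤ 3/4`,
  `∑_{p ≤ z} p^(η-1) ≤ z^η ∑_{n ≤ z} 1/n ≤ z^η (1 + log z) ≤ (log x)^(1/2) (1 + B log log x)`: the tail is
  `≤ exp(-ηε log x + 4 (log x)^(1/2) (1 + B log log x)) → 0`, hence eventually `≤ ε ≤ ε / Vz z`.
  (The finite version `Sieve.sum_primeFactors_subset_le` gives the upper bounds for finite sums; the infinite Euler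
  product is needed only for the lower bound of the full sum of `1/b`. Compare the proof of `Sieve.rankin`.)
-/

set_option autoImplicit false

open Finset Filter

namespace Pool.Agent.Lib.MP_092512_nt.P3

open Pool.Agent.Lib.SW

/-- the completely multiplicative function `n ^ (-s)` -/
private noncomputable def C1r_f (s : ℝ) : ℕ →* ℝ where
  toFun n := (n : ℝ) ^ (-s)
  map_one' := by simp
  map_mul' m n := by
    push_cast
    exact Real.mul_rpow (Nat.cast_nonneg m) (Nat.cast_nonneg n)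

private theorem C1r_f_apply (s : ℝ) (n : ℕ) : C1r_f s n = (n : ℝ) ^ (-s) := rfl

private theorem C1r_f_nonneg (s : ℝ) (n : ℕ) : 0 ≤ C1r_f s n := by
  rw [C1r_f_apply]; positivity

/-- for `s ≥ 1/2` and a prime `p` the value at `p` is at most `3/4` -/
private theorem C1r_f_le (s : ℝ) (hs : 1 / 2 ≤ s) (p : ℕ) (hp : p.Prime) : C1r_f s p ≤ 3 / 4 := by
  have hp2 : (2 : ℝ) ≤ p := by exact_mod_cast hp.two_le
  rw [C1r_f_apply, Real.rpow_neg (by linarith)]
  have h1 : (p : ℝ) ^ (1 / 2 : ℝ) ≤ (p : ℝ) ^ s :=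
    Real.rpow_le_rpow_of_exponent_le (by linarith) hs
  have h2 : (4 / 3 : ℝ) ≤ (p : ℝ) ^ (1 / 2 : ℝ) := by
    rw [← Real.sqrt_eq_rpow]
    apply Real.le_sqrt_of_sq_le
    linarith
  rw [inv_le_comm₀ (by positivity) (by norm_num)]
  norm_num
  linarith

/-- the Euler product over the smooth numbers, as a sum over `ℕ` -/
private theorem C1r_hasSum (s : ℝ) (hs : 1 / 2 ≤ s) (z : ℕ) :
    HasSum ((Nat.smoothNumbers (z + 1)).indicator (fun n : ℕ => C1r_f s n))
      (∏ p ∈ (Icc 1 z).filter Nat.Prime, (1 - C1r_f s p)⁻¹) := by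
  have h := (EulerProduct.summable_and_hasSum_smoothNumbers_prod_primesBelow_geometric
    (f := C1r_f s) (fun {p} hp => by
      rw [Real.norm_of_nonneg (C1r_f_nonneg s p)]
      have := C1r_f_le s hs p hp
      linarith) (z + 1)).2
  have hP : (z + 1).primesBelow = (Icc 1 z).filter Nat.Prime := by
    ext p
    rw [Nat.mem_primesBelow, Finset.mem_filter, Finset.mem_Icc]
    constructor
    · rintro ⟨h1, h2⟩
      exact ⟨⟨h2.one_lt.le, by omega⟩, h2⟩
    · rintro ⟨⟨_, h1⟩, h2⟩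
      exact ⟨by omega, h2⟩
  rw [hP] at h
  exact (hasSum_subtype_iff_indicator (s := Nat.smoothNumbers (z + 1))
    (f := fun n : ℕ => C1r_f s n)).mp h

/-- Rankin's trick -/
private theorem C1r_trick (z : ℕ) (η W : ℝ) (hη0 : 0 < η) (hη : η ≤ 1 / 2) (hW : 1 ≤ W) :
    ∏ p ∈ (Icc 1 z).filter Nat.Prime, (1 - (1 : ℝ) / p)⁻¹ ≤
      (∑ b ∈ (Icc 1 ⌊W⌋₊).filter (fun b => ∀ p ∈ b.primeFactors, p ≤ z), (1 : ℝ) / b) +
        W ^ (-η) * ∏ p ∈ (Icc 1 z).filter Nat.Prime, (1 - C1r_f (1 - η) p)⁻¹ := by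
  have h1 := C1r_hasSum 1 (by norm_num) z
  have h2 := (C1r_hasSum (1 - η) (by linarith) z).mul_left (W ^ (-η))
  set F := (Icc 1 ⌊W⌋₊).filter (fun b => ∀ p ∈ b.primeFactors, p ≤ z) with hF
  have h3 : HasSum (fun n : ℕ => if n ∈ F then (1 : ℝ) / n else 0)
      (∑ b ∈ F, (if b ∈ F then (1 : ℝ) / b else 0)) :=
    hasSum_sum_of_ne_finset_zero (fun b hb => by simp [hb])
  have h4 : ∑ b ∈ F, (if b ∈ F then (1 : ℝ) / b else 0) = ∑ b ∈ F, (1 : ℝ) / b :=
    Finset.sum_congr rfl (fun b hb => by simp [hb])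
  rw [h4] at h3
  have h5 : ∏ p ∈ (Icc 1 z).filter Nat.Prime, (1 - C1r_f 1 p)⁻¹ =
      ∏ p ∈ (Icc 1 z).filter Nat.Prime, (1 - (1 : ℝ) / p)⁻¹ := by
    refine Finset.prod_congr rfl (fun p _ => ?_)
    rw [C1r_f_apply, Real.rpow_neg (Nat.cast_nonneg p), Real.rpow_one, one_div]
  rw [h5] at h1
  refine hasSum_le (fun n => ?_) h1 (h3.add h2)
  by_cases hn : n ∈ Nat.smoothNumbers (z + 1)
  · rw [Set.indicator_of_mem hn, Set.indicator_of_mem hn]
    have hn0 : n ≠ 0 := Nat.ne_zero_of_mem_smoothNumbers hn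
    have hn1 : 1 ≤ n := Nat.one_le_iff_ne_zero.mpr hn0
    have hnr : (1 : ℝ) ≤ n := by exact_mod_cast hn1
    rw [C1r_f_apply, Real.rpow_neg (Nat.cast_nonneg n), Real.rpow_one, ← one_div]
    by_cases hm : n ∈ F
    · rw [if_pos hm]
      have : 0 ≤ W ^ (-η) * C1r_f (1 - η) n := by
        have := C1r_f_nonneg (1 - η) n
        positivity
      linarith
    · rw [if_neg hm, zero_add]
      have hlt : W < n := by
        by_contra hcon
        have hcon' : (n : ℝ) ≤ W := not_lt.mp hcon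
        apply hm
        rw [hF, Finset.mem_filter, Finset.mem_Icc]
        refine ⟨⟨hn1, Nat.le_floor hcon'⟩, fun p hp => ?_⟩
        have hp' := Nat.mem_primeFactors.mp hp
        have := Nat.mem_smoothNumbers'.mp hn p hp'.1 hp'.2.1
        omega
      rw [C1r_f_apply]
      have h6 : (1 : ℝ) / n = (n : ℝ) ^ (-η) * (n : ℝ) ^ (-(1 - η)) := by
        rw [← Real.rpow_add (by linarith), one_div, ← Real.rpow_neg_one]
        congr 1
        ring
      rw [h6]
      apply mul_le_mul_of_nonneg_right _ (by positivity)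
      exact Real.rpow_le_rpow_of_nonpos (by linarith) hlt.le (by linarith)
  · rw [Set.indicator_of_notMem hn, Set.indicator_of_notMem hn]
    rw [mul_zero, add_zero]
    split_ifs <;> positivity

/-- bound of the Euler product at `1 - η` -/
private theorem C1r_prod_le (z : ℕ) (η : ℝ) (hη0 : 0 < η) (hη : η ≤ 1 / 2) (hz : 1 ≤ z) :
    ∏ p ∈ (Icc 1 z).filter Nat.Prime, (1 - C1r_f (1 - η) p)⁻¹ ≤
      Real.exp (4 * ((z : ℝ) ^ η * (1 + Real.log z))) := by
  have h1 : ∀ p ∈ (Icc 1 z).filter Nat.Prime,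
      (1 - C1r_f (1 - η) p)⁻¹ ≤ Real.exp (4 * C1r_f (1 - η) p) := by
    intro p hp
    have hpp := (Finset.mem_filter.mp hp).2
    have h0 := C1r_f_nonneg (1 - η) p
    have h2 := C1r_f_le (1 - η) (by linarith) p hpp
    set t := C1r_f (1 - η) p
    rw [inv_le_comm₀ (by linarith) (Real.exp_pos _), ← Real.exp_neg]
    -- exp (-4 t) ≤ 1 - t for 0 ≤ t ≤ 3/4
    have h3 : Real.exp (-(4 * t)) ≤ 1 / (1 + 4 * t) := by
      rw [Real.exp_neg, ← one_div]
      apply one_div_le_one_div_of_le (by linarith)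
      have := Real.add_one_le_exp (4 * t)
      linarith
    refine h3.trans ?_
    rw [div_le_iff₀ (by linarith)]
    nlinarith
  have h2 : ∏ p ∈ (Icc 1 z).filter Nat.Prime, (1 - C1r_f (1 - η) p)⁻¹ ≤
      ∏ p ∈ (Icc 1 z).filter Nat.Prime, Real.exp (4 * C1r_f (1 - η) p) := by
    apply Finset.prod_le_prod
    · intro p hp
      have hpp := (Finset.mem_filter.mp hp).2
      have h2 := C1r_f_le (1 - η) (by linarith) p hpp
      exact inv_nonneg.mpr (by linarith)
    · exact h1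
  refine h2.trans ?_
  rw [← Real.exp_sum]
  apply Real.exp_le_exp.mpr
  rw [← Finset.mul_sum]
  apply mul_le_mul_of_nonneg_left _ (by norm_num)
  have hzr : (1 : ℝ) ≤ z := by exact_mod_cast hz
  calc ∑ p ∈ (Icc 1 z).filter Nat.Prime, C1r_f (1 - η) p
      ≤ ∑ n ∈ Icc 1 z, C1r_f (1 - η) n := by
        apply Finset.sum_le_sum_of_subset_of_nonneg (Finset.filter_subset _ _)
        intro n _ _
        exact C1r_f_nonneg _ _
    _ ≤ ∑ n ∈ Icc 1 z, (z : ℝ) ^ η * (1 / n) := by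
        apply Finset.sum_le_sum
        intro n hn
        have hn' := Finset.mem_Icc.mp hn
        have hnr : (1 : ℝ) ≤ n := by exact_mod_cast hn'.1
        have hnz : (n : ℝ) ≤ z := by exact_mod_cast hn'.2
        have h6 : C1r_f (1 - η) n = (n : ℝ) ^ η * (1 / n) := by
          rw [C1r_f_apply, one_div, ← Real.rpow_neg_one, ← Real.rpow_add (by linarith)]
          congr 1
          ring
        rw [h6]
        apply mul_le_mul_of_nonneg_right _ (by positivity)
        exact Real.rpow_le_rpow (by linarith) hnz hη0.le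
    _ = (z : ℝ) ^ η * ∑ n ∈ Icc 1 z, (1 : ℝ) / n := by rw [Finset.mul_sum]
    _ ≤ (z : ℝ) ^ η * (1 + Real.log z) := by
        apply mul_le_mul_of_nonneg_left _ (by positivity)
        have h := harmonic_le_one_add_log z
        rw [harmonic_eq_sum_Icc] at h
        push_cast at h
        simpa [one_div] using h

/-- the analytic estimate -/
private theorem C1r_limit (B : ℕ) (hB : 1 ≤ B) (ε : ℝ) (hε : 0 < ε) : ∀ᶠ L : ℝ in atTop,
    4 * (L ^ (1 / 2 : ℝ) * (1 + B * Real.log L)) - 1 / (2 * B) * (ε * L) ≤ Real.log ε := by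
  have hB' : (1 : ℝ) ≤ B := by exact_mod_cast hB
  set c : ℝ := 1 / (2 * B) * ε with hc
  have hc0 : 0 < c := by positivity
  -- log L ≤ 8 L^(1/8), sqrt L = L^(1/2): all is o(L)
  have hl1 : (fun L : ℝ => 4 * (L ^ (1 / 2 : ℝ) * (1 + B * Real.log L))) =o[atTop] (fun L : ℝ => L) := by
    have a1 : (fun L : ℝ => (1 : ℝ)) =o[atTop] (fun L : ℝ => L ^ (1 / 2 : ℝ)) := by
      have := (tendsto_rpow_atTop (show (0 : ℝ) < 1 / 2 by norm_num))
      rw [Asymptotics.isLittleO_const_left]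
      right
      refine tendsto_norm_atTop_atTop.comp this
    have a2 : (fun L : ℝ => Real.log L) =o[atTop] (fun L : ℝ => L ^ (1 / 2 : ℝ)) :=
      isLittleO_log_rpow_atTop (by norm_num)
    have a3 : (fun L : ℝ => 1 + B * Real.log L) =o[atTop] (fun L : ℝ => L ^ (1 / 2 : ℝ)) :=
      a1.add (a2.const_mul_left _)
    have a4 := ((Asymptotics.isBigO_refl (fun L : ℝ => L ^ (1 / 2 : ℝ)) atTop).mul_isLittleO a3).const_mul_left 4
    refine a4.congr' (Eventually.of_forall fun L => rfl) ?_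
    filter_upwards [eventually_gt_atTop (0 : ℝ)] with L hL
    rw [← Real.rpow_add hL]
    norm_num
  have hl2 := hl1.bound (show (0 : ℝ) < c / 2 by positivity)
  have hl3 : ∀ᶠ L : ℝ in atTop, -(2 / c * Real.log ε) ≤ L := eventually_ge_atTop _
  filter_upwards [hl2, hl3, eventually_ge_atTop (1 : ℝ)] with L h2 h3 h4
  rw [Real.norm_of_nonneg (show (0 : ℝ) ≤ L by linarith)] at h2
  have h5 := (le_abs_self _).trans h2
  have h6 : 1 / (2 * (B : ℝ)) * (ε * L) = c * L := by rw [hc]; ring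
  rw [h6]
  have h7 : -Real.log ε ≤ c / 2 * L := by
    have := mul_le_mul_of_nonneg_left h3 (show (0 : ℝ) ≤ c / 2 by positivity)
    have h8 : c / 2 * -(2 / c * Real.log ε) = - Real.log ε := by
      field_simp
    linarith
  linarith

theorem C1_rankin_tail (B : ℕ) (hB : 1 ≤ B) (ε : ℝ) (hε : 0 < ε) : ∀ᶠ x : ℕ in atTop,
    (1 - ε) / Vz (zB B x) ≤
      ∑ b ∈ (Icc 1 ⌊(x : ℝ) ^ ε⌋₊).filter (fun b => ∀ p ∈ b.primeFactors, p ≤ zB B x), (1 : ℝ) / b := by
  have hB' : (1 : ℝ) ≤ B := by exact_mod_cast hB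
  have hlog : Tendsto (fun x : ℕ => Real.log (x : ℝ)) atTop atTop :=
    Real.tendsto_log_atTop.comp tendsto_natCast_atTop_atTop
  have h1 := hlog.eventually (C1r_limit B hB ε hε)
  have h2 := hlog.eventually (eventually_ge_atTop (1 : ℝ))
  filter_upwards [h1, h2, eventually_ge_atTop 1] with x hx1 hx2 hx3
  set L := Real.log (x : ℝ) with hL
  set z := zB B x with hz
  have hxr : (1 : ℝ) ≤ x := by exact_mod_cast hx3
  have hW : (1 : ℝ) ≤ (x : ℝ) ^ ε := Real.one_le_rpow hxr hε.le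
  have hz1 : 1 ≤ z := by
    rw [hz, zB]
    apply Nat.le_floor
    rw [Nat.cast_one]
    exact one_le_pow₀ hx2
  have hz1r : (1 : ℝ) ≤ z := by exact_mod_cast hz1
  have hzL : (z : ℝ) ≤ L ^ B := by
    rw [hz, zB]
    exact Nat.floor_le (by positivity)
  set η : ℝ := 1 / (2 * B) with hη
  have hη0 : 0 < η := by positivity
  have hη1 : η ≤ 1 / 2 := by
    rw [hη]
    apply one_div_le_one_div_of_le (by norm_num)
    linarith
  have h3 := C1r_trick z η ((x : ℝ) ^ ε) hη0 hη1 hW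
  have h4 := C1r_prod_le z η hη0 hη1 hz1
  have hV : Vz z = ∏ p ∈ (Icc 1 z).filter Nat.Prime, (1 - (1 : ℝ) / p) := by
    rw [Vz, LG3_V, LG3V]
    apply Finset.prod_congr _ (fun _ _ => rfl)
    ext p
    rw [Finset.mem_filter, Finset.mem_filter, Finset.mem_Icc, Finset.mem_range]
    constructor
    · rintro ⟨h1, h2⟩
      exact ⟨⟨h2.one_lt.le, by omega⟩, h2⟩
    · rintro ⟨⟨_, h1⟩, h2⟩
      exact ⟨by omega, h2⟩
  have hV0 : 0 < Vz z := by
    rw [hV]
    apply Finset.prod_pos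
    intro p hp
    have hpp := (Finset.mem_filter.mp hp).2
    have hp2 : (2 : ℝ) ≤ p := by exact_mod_cast hpp.two_le
    have : (1 : ℝ) / p ≤ 1 / 2 := by
      apply one_div_le_one_div_of_le (by norm_num) hp2
    linarith
  have hV1 : Vz z ≤ 1 := by
    rw [hV]
    apply Finset.prod_le_one
    · intro p hp
      have hpp := (Finset.mem_filter.mp hp).2
      have hp2 : (2 : ℝ) ≤ p := by exact_mod_cast hpp.two_le
      have : (1 : ℝ) / p ≤ 1 / 2 := by
        apply one_div_le_one_div_of_le (by norm_num) hp2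
      linarith
    · intro p hp
      have : (0 : ℝ) ≤ (1 : ℝ) / p := by positivity
      linarith
  have h5 : ∏ p ∈ (Icc 1 z).filter Nat.Prime, (1 - (1 : ℝ) / p)⁻¹ = 1 / Vz z := by
    rw [hV, Finset.prod_inv_distrib, one_div]
  rw [h5] at h3
  -- the tail is at most ε
  have h6 : ((x : ℝ) ^ ε) ^ (-η) * ∏ p ∈ (Icc 1 z).filter Nat.Prime, (1 - C1r_f (1 - η) p)⁻¹ ≤ ε := by
    have e1 : ((x : ℝ) ^ ε) ^ (-η) = Real.exp (-(η * (ε * L))) := by
      rw [← Real.rpow_mul (by linarith), Real.rpow_def_of_pos (by linarith)]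
      congr 1
      rw [hL]
      ring
    have e2 : (z : ℝ) ^ η * (1 + Real.log z) ≤ L ^ (1 / 2 : ℝ) * (1 + B * Real.log L) := by
      have f1 : (z : ℝ) ^ η ≤ L ^ (1 / 2 : ℝ) := by
        calc (z : ℝ) ^ η ≤ (L ^ B) ^ η := Real.rpow_le_rpow (by linarith) hzL hη0.le
          _ = L ^ (1 / 2 : ℝ) := by
              rw [← Real.rpow_natCast, ← Real.rpow_mul (by linarith)]
              congr 1
              rw [hη]
              field_simp
      have f2 : Real.log z ≤ B * Real.log L := by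
        have := Real.log_le_log (by linarith) hzL
        rwa [Real.log_pow] at this
      have f3 : 0 ≤ Real.log z := Real.log_nonneg hz1r
      exact mul_le_mul f1 (by linarith) (by linarith) (by positivity)
    calc ((x : ℝ) ^ ε) ^ (-η) * ∏ p ∈ (Icc 1 z).filter Nat.Prime, (1 - C1r_f (1 - η) p)⁻¹
        ≤ Real.exp (-(η * (ε * L))) * Real.exp (4 * (L ^ (1 / 2 : ℝ) * (1 + B * Real.log L))) := by
          rw [e1]
          apply mul_le_mul_of_nonneg_left _ (Real.exp_pos _).le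
          refine h4.trans (Real.exp_le_exp.mpr ?_)
          linarith
      _ = Real.exp (4 * (L ^ (1 / 2 : ℝ) * (1 + B * Real.log L)) - 1 / (2 * B) * (ε * L)) := by
          rw [← Real.exp_add]
          congr 1
          rw [hη]
          ring
      _ ≤ Real.exp (Real.log ε) := Real.exp_le_exp.mpr hx1
      _ = ε := Real.exp_log hε
  have h7 : ε ≤ ε / Vz z := by
    rw [le_div_iff₀ hV0]
    nlinarith
  have h8 : (1 - ε) / Vz z = 1 / Vz z - ε / Vz z := by ring
  rw [h8]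
  linarith

end Pool.Agent.Lib.MP_092512_nt.P3
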