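import Mathlib
import Pool.Agent.Lib.MP_092512_nt.P3.Defs
import Pool.Agent.Lib.MP_092512_nt.P3.C0
import Pool.Agent.Lib.MP_092512_nt.P3.C0b
import Pool.Agent.Lib.MP_092512_nt.P3.C1
import Pool.Agent.Lib.MP_092512_nt.P3.C1r
import Pool.Agent.Lib.Sieve.SingularAverage

/-!
# C2: the upper bound `Sd z 1 Y ≤ V (log Y + ε log x)` for `1 ≤ Y ≤ x`

Write `z = zB B x`, `B ≥ 3`; rough = coprime to `primorial z`.

PROOFS.
* `C2_smooth_mul_rough_le`: the map `(b, n) ↦ b n` into `Icc 1 (W M)` is injective on smooth × rough (if `b n = b' n'` then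
  `gcd(b, n') = 1`, as the prime factors of `b` are `≤ z` and those of `n'` are `> z`, so `b ∣ b'` and conversely).
* `C2_totient_rough_le`: `k` rough, `k ≤ x`, `z ≥ (log x)^2` (`C1_zB_ge`), `x` large: `k/φ(k) ≤ 1 + ε`. Indeed
  `k/φ(k) = ∏_{p ∣ k} (1 - 1/p)⁻¹ ≤ exp (2 ω(k) / z)` and `ω(k) ≤ 2 log k ≤ 2 log x`
  (`Sieve.card_primeFactors_le_log`, `Sieve.prod_fac_le_exp`, `Sieve.div_totient_eq_prod_inv` in `Sieve/SingularAverage.lean`),
  so `k/φ(k) ≤ exp (4 / log x) → 1`.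
* `C2_Sd_upper`: `Sd z 1 Y ≤ (1 + η) ∑_{n ≤ Y rough} 1/n` (each `1/φ(k) ≤ (1+η)/k`) and, with `W = x^η`,
  `(1 - η)/V · ∑_{n ≤ Y rough} 1/n ≤ ∑_{w ≤ ⌊W⌋ ⌊Y⌋} 1/w ≤ 1 + log (W Y) = 1 + log Y + η log x`
  (`C1_rankin_tail`, `C2_smooth_mul_rough_le`, `harmonic_le_one_add_log`), so
  `Sd z 1 Y ≤ (1+η)/(1-η) V (log Y + 2 η log x)` for large `x` (`1 ≤ η log x`), `0 ≤ log Y ≤ log x`;
  take `η ≤ 1/2` with `8 η ≤ ε` (`(1+η)/(1-η) ≤ 1 + 4η`, so the bound is `log Y + (4η + 2η·3) log x`; take `10 η ≤ ε`).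
* `C2_Sd_limit`: `Y = x^ρ`, `log Y = ρ log x`; `C0_Sd_lower` and `C2_Sd_upper`; `Vz > 0`, `log x > 0`.
-/

set_option autoImplicit false

open Finset Filter

namespace Pool.Agent.Lib.MP_092512_nt.P3

open Pool.Agent.Lib.SW

private theorem c2_lt {z n p : ℕ} (hp : p.Prime) (hn : Nat.Coprime n (primorial z)) (h : p ∣ n) :
    z < p := by
  by_contra hz
  rw [not_lt] at hz
  have h1 : p ∣ primorial z := by
    unfold primorial
    exact Finset.dvd_prod_of_mem _ (mem_filter.2 ⟨mem_range.2 (by omega), hp⟩)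
  have h2 : p ∣ 1 := by
    rw [← Nat.coprime_iff_gcd_eq_one.1 hn]
    exact Nat.dvd_gcd h h1
  exact hp.one_lt.ne' (Nat.dvd_one.1 h2)

private theorem c2_cop {z b n : ℕ} (hb0 : b ≠ 0) (hb : ∀ p ∈ b.primeFactors, p ≤ z)
    (hn : Nat.Coprime n (primorial z)) : Nat.Coprime b n := by
  rw [Nat.coprime_iff_gcd_eq_one]
  by_contra hne
  obtain ⟨p, hp, hpg⟩ := Nat.exists_prime_and_dvd hne
  have h1 : p ∣ b := hpg.trans (Nat.gcd_dvd_left b n)
  have h2 : p ∣ n := hpg.trans (Nat.gcd_dvd_right b n)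
  have h3 := hb p (Nat.mem_primeFactors.2 ⟨hp, h1, hb0⟩)
  have h4 := c2_lt hp hn h2
  omega

theorem C2_smooth_mul_rough_le (z W M : ℕ) :
    (∑ b ∈ (Icc 1 W).filter (fun b => ∀ p ∈ b.primeFactors, p ≤ z), (1 : ℝ) / b) *
      (∑ n ∈ (Icc 1 M).filter (fun n => Nat.Coprime n (primorial z)), (1 : ℝ) / n) ≤
      ∑ w ∈ Icc 1 (W * M), (1 : ℝ) / w := by
  classical
  rw [Finset.sum_mul_sum, ← Finset.sum_product']
  have hinj : Set.InjOn (fun x : ℕ × ℕ => x.1 * x.2)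
      (((Icc 1 W).filter (fun b => ∀ p ∈ b.primeFactors, p ≤ z) ×ˢ
        (Icc 1 M).filter (fun n => Nat.Coprime n (primorial z)) : Finset (ℕ × ℕ)) : Set (ℕ × ℕ)) := by
    rintro ⟨b, n⟩ h1 ⟨b', n'⟩ h2 h3
    rw [Finset.mem_coe, mem_product, mem_filter, mem_filter, mem_Icc, mem_Icc] at h1 h2
    obtain ⟨⟨⟨hb1, _⟩, hb⟩, ⟨_, _⟩, hn⟩ := h1
    obtain ⟨⟨⟨hb1', _⟩, hb'⟩, ⟨_, _⟩, hn'⟩ := h2
    have h3' : b * n = b' * n' := h3
    have e1 : b ∣ b' := by
      refine (c2_cop (by omega) hb hn').dvd_of_dvd_mul_right ?_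
      rw [← h3']
      exact dvd_mul_right b n
    have e2 : b' ∣ b := by
      refine (c2_cop (by omega) hb' hn).dvd_of_dvd_mul_right ?_
      rw [h3']
      exact dvd_mul_right b' n'
    have e3 : b = b' := Nat.dvd_antisymm e1 e2
    subst e3
    have e4 : n = n' := Nat.eq_of_mul_eq_mul_left (by omega) h3'
    rw [e4]
  have h1 : ∑ x ∈ (Icc 1 W).filter (fun b => ∀ p ∈ b.primeFactors, p ≤ z) ×ˢ
        (Icc 1 M).filter (fun n => Nat.Coprime n (primorial z)), (1 : ℝ) / x.1 * (1 / x.2) =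
      ∑ w ∈ ((Icc 1 W).filter (fun b => ∀ p ∈ b.primeFactors, p ≤ z) ×ˢ
        (Icc 1 M).filter (fun n => Nat.Coprime n (primorial z))).image (fun x => x.1 * x.2),
        (1 : ℝ) / w := by
    rw [Finset.sum_image hinj]
    refine Finset.sum_congr rfl fun x _ => ?_
    rw [one_div_mul_one_div, Nat.cast_mul]
  rw [h1]
  refine Finset.sum_le_sum_of_subset_of_nonneg ?_ fun w _ _ => by positivity
  intro w hw
  obtain ⟨⟨b, n⟩, hx, rfl⟩ := Finset.mem_image.1 hw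
  rw [mem_product, mem_filter, mem_filter, mem_Icc, mem_Icc] at hx
  obtain ⟨⟨⟨hb1, hbW⟩, _⟩, ⟨hn1, hnM⟩, _⟩ := hx
  exact mem_Icc.2 ⟨Nat.mul_pos hb1 hn1, Nat.mul_le_mul hbW hnM⟩

theorem C2_totient_rough_le (B : ℕ) (hB : 3 ≤ B) (ε : ℝ) (hε : 0 < ε) : ∀ᶠ x : ℕ in atTop,
    ∀ k : ℕ, 1 ≤ k → k ≤ x → Nat.Coprime k (primorial (zB B x)) →
      (k : ℝ) / (Nat.totient k : ℝ) ≤ 1 + ε := by
  have hlog : Tendsto (fun x : ℕ => Real.log x) atTop atTop :=
    Real.tendsto_log_atTop.comp tendsto_natCast_atTop_atTop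
  have h1 : Tendsto (fun x : ℕ => Real.exp (4 / Real.log x)) atTop (nhds 1) := by
    have h2 : Tendsto (fun x : ℕ => 4 / Real.log x) atTop (nhds 0) := hlog.const_div_atTop 4
    have h3 := (Real.continuous_exp.tendsto 0).comp h2
    rw [Real.exp_zero] at h3
    exact h3
  have h2 : ∀ᶠ x : ℕ in atTop, Real.exp (4 / Real.log x) < 1 + ε :=
    h1.eventually_lt_const (by linarith)
  filter_upwards [h2, C1_zB_ge B hB, hlog.eventually_gt_atTop 0] with x hx hz hl k hk1 hkx hkr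
  have hk0 : k ≠ 0 := by omega
  have hz0 : (0 : ℝ) < zB B x := lt_of_lt_of_le (by positivity) hz
  rw [Sieve.div_totient_eq_prod_inv k hk0]
  refine (Sieve.prod_fac_le_exp k.primeFactors (fun p hp => Nat.prime_of_mem_primeFactors hp)
    (zB B x : ℝ) hz0 ?_).trans ?_
  · intro p hp
    have := c2_lt (Nat.prime_of_mem_primeFactors hp) hkr (Nat.dvd_of_mem_primeFactors hp)
    exact_mod_cast this.le
  · refine le_trans (Real.exp_le_exp.2 ?_) hx.le
    have h3 := Sieve.card_primeFactors_le_log k hk0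
    have h4 : Real.log k ≤ Real.log x :=
      Real.log_le_log (by exact_mod_cast hk1) (by exact_mod_cast hkx)
    rw [div_le_div_iff₀ hz0 hl]
    have h5 : 2 * (k.primeFactors.card : ℝ) * Real.log x ≤ 4 * Real.log x * Real.log x := by
      refine mul_le_mul_of_nonneg_right ?_ hl.le
      linarith
    nlinarith

theorem C2_Sd_upper (B : ℕ) (hB : 3 ≤ B) (ε : ℝ) (hε : 0 < ε) : ∀ᶠ x : ℕ in atTop,
    ∀ Y : ℝ, 1 ≤ Y → Y ≤ x →
      Sd (zB B x) 1 Y ≤ Vz (zB B x) * (Real.log Y + ε * Real.log x) := by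
  obtain ⟨η, hη0, hη1, hηε⟩ : ∃ η : ℝ, 0 < η ∧ η ≤ 1 / 2 ∧ 10 * η ≤ ε :=
    ⟨min (1 / 2) (ε / 10), lt_min (by norm_num) (by positivity), min_le_left _ _, by
      have := min_le_right (1 / 2) (ε / 10)
      linarith⟩
  have hlog : Tendsto (fun x : ℕ => Real.log x) atTop atTop :=
    Real.tendsto_log_atTop.comp tendsto_natCast_atTop_atTop
  filter_upwards [C1_rankin_tail B (by omega) η hη0, C2_totient_rough_le B hB η hη0,
    hlog.eventually_ge_atTop (1 / η), eventually_ge_atTop 1] with x hT hphi hl hx1 Y hY1 hYx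
  have hx1' : (1 : ℝ) ≤ x := by exact_mod_cast hx1
  have hx0 : (0 : ℝ) < x := by linarith
  have hV := C0_Vz_pos (zB B x)
  have hY0 : 0 < Y := by linarith
  have hηl : 1 ≤ η * Real.log x := by
    rw [div_le_iff₀ hη0] at hl
    linarith
  have hlY0 : 0 ≤ Real.log Y := Real.log_nonneg hY1
  have hlYx : Real.log Y ≤ Real.log x := Real.log_le_log hY0 hYx
  set R : ℝ := ∑ n ∈ (Icc 1 ⌊Y⌋₊).filter (fun n => Nat.Coprime n (primorial (zB B x))), (1 : ℝ) / n
    with hR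
  have hR0 : 0 ≤ R := Finset.sum_nonneg fun n _ => by positivity
  -- the sum with the totient function
  have h1 : Sd (zB B x) 1 Y ≤ (1 + η) * R := by
    unfold Sd
    rw [hR, Finset.mul_sum]
    have hsub : (Icc 1 ⌊Y⌋₊).filter (fun k => Squarefree k ∧ Nat.Coprime k (1 * primorial (zB B x))) ⊆
        (Icc 1 ⌊Y⌋₊).filter (fun n => Nat.Coprime n (primorial (zB B x))) := by
      intro k hk
      rw [mem_filter, one_mul] at hk
      exact mem_filter.2 ⟨hk.1, hk.2.2⟩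
    refine le_trans (Finset.sum_le_sum fun k hk => ?_)
      (Finset.sum_le_sum_of_subset_of_nonneg hsub fun n _ _ => by positivity)
    rw [mem_filter, mem_Icc, one_mul] at hk
    have hkx : k ≤ x := by
      have h2 : (k : ℝ) ≤ Y := (Nat.le_floor_iff' (by omega)).1 hk.1.2
      exact_mod_cast h2.trans hYx
    have h3 := hphi k hk.1.1 hkx hk.2.2
    have hk0 : (0 : ℝ) < k := by exact_mod_cast hk.1.1
    have hp0 : (0 : ℝ) < k.totient := by exact_mod_cast Nat.totient_pos.2 hk.1.1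
    rw [div_le_iff₀ hp0] at h3
    rw [div_le_iff₀ hp0]
    have h4 : (1 + η) * (1 / (k : ℝ)) * (k.totient : ℝ) = (1 + η) * k.totient / k := by ring
    rw [h4, le_div_iff₀ hk0]
    linarith
  -- the sum over the rough numbers
  have h2 : (1 - η) / Vz (zB B x) * R ≤ 1 + η * Real.log x + Real.log Y := by
    have h3 := C2_smooth_mul_rough_le (zB B x) ⌊(x : ℝ) ^ η⌋₊ ⌊Y⌋₊
    refine (mul_le_mul_of_nonneg_right hT hR0).trans (h3.trans ?_)
    have h4 := harmonic_le_one_add_log (⌊(x : ℝ) ^ η⌋₊ * ⌊Y⌋₊)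
    rw [harmonic_eq_sum_Icc] at h4
    push_cast at h4
    have h5 : ∑ w ∈ Icc 1 (⌊(x : ℝ) ^ η⌋₊ * ⌊Y⌋₊), (1 : ℝ) / w =
        ∑ w ∈ Icc 1 (⌊(x : ℝ) ^ η⌋₊ * ⌊Y⌋₊), ((w : ℝ))⁻¹ :=
      Finset.sum_congr rfl fun w _ => one_div _
    rw [h5]
    refine h4.trans ?_
    have hxη : (1 : ℝ) ≤ (x : ℝ) ^ η := Real.one_le_rpow hx1' hη0.le
    have hf1 : (1 : ℝ) ≤ (⌊(x : ℝ) ^ η⌋₊ : ℝ) := by
      exact_mod_cast (Nat.one_le_floor_iff _).2 hxη
    have hf2 : (1 : ℝ) ≤ (⌊Y⌋₊ : ℝ) := by exact_mod_cast (Nat.one_le_floor_iff _).2 hY1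
    have h6 : Real.log ((⌊(x : ℝ) ^ η⌋₊ : ℝ) * (⌊Y⌋₊ : ℝ)) ≤ η * Real.log x + Real.log Y := by
      rw [Real.log_mul (by linarith) (by linarith), ← Real.log_rpow hx0]
      refine add_le_add (Real.log_le_log (by linarith) (Nat.floor_le (by positivity)))
        (Real.log_le_log (by linarith) (Nat.floor_le hY0.le))
    linarith
  have h3 : R ≤ Vz (zB B x) * ((2 * η * Real.log x + Real.log Y) / (1 - η)) := by
    have h4 : (1 - η) / Vz (zB B x) * R ≤ 2 * η * Real.log x + Real.log Y := by linarith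
    have h5 : 0 < 1 - η := by linarith
    rw [div_mul_eq_mul_div, div_le_iff₀ hV] at h4
    rw [← mul_div_assoc, le_div_iff₀ h5]
    linarith
  have h4 : (1 + η) * ((2 * η * Real.log x + Real.log Y) / (1 - η)) ≤
      Real.log Y + ε * Real.log x := by
    have h5 : 0 < 1 - η := by linarith
    have hlx0 : 0 ≤ Real.log x := hlY0.trans hlYx
    have h6 : (1 + η) / (1 - η) ≤ 1 + 4 * η := by
      rw [div_le_iff₀ h5]
      nlinarith
    have h7 : 0 ≤ 2 * η * Real.log x + Real.log Y := by positivity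
    calc (1 + η) * ((2 * η * Real.log x + Real.log Y) / (1 - η)) =
          (1 + η) / (1 - η) * (2 * η * Real.log x + Real.log Y) := by ring
      _ ≤ (1 + 4 * η) * (2 * η * Real.log x + Real.log Y) := mul_le_mul_of_nonneg_right h6 h7
      _ = Real.log Y + 4 * η * Real.log Y + (2 * η + 8 * η * η) * Real.log x := by ring
      _ ≤ Real.log Y + 4 * η * Real.log x + (2 * η + 4 * η) * Real.log x := by
          have h8 : 4 * η * Real.log Y ≤ 4 * η * Real.log x :=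
            mul_le_mul_of_nonneg_left hlYx (by linarith)
          have h9 : (2 * η + 8 * η * η) * Real.log x ≤ (2 * η + 4 * η) * Real.log x := by
            refine mul_le_mul_of_nonneg_right ?_ hlx0
            nlinarith
          linarith
      _ = Real.log Y + 10 * η * Real.log x := by ring
      _ ≤ Real.log Y + ε * Real.log x := by
          have := mul_le_mul_of_nonneg_right hηε hlx0
          linarith
  calc Sd (zB B x) 1 Y ≤ (1 + η) * R := h1
    _ ≤ (1 + η) * (Vz (zB B x) * ((2 * η * Real.log x + Real.log Y) / (1 - η))) :=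
        mul_le_mul_of_nonneg_left h3 (by linarith)
    _ = Vz (zB B x) * ((1 + η) * ((2 * η * Real.log x + Real.log Y) / (1 - η))) := by ring
    _ ≤ Vz (zB B x) * (Real.log Y + ε * Real.log x) := mul_le_mul_of_nonneg_left h4 hV.le

theorem C2_Sd_limit (B : ℕ) (hB : 3 ≤ B) (ρ : ℝ) (hρ0 : 0 ≤ ρ) (hρ1 : ρ ≤ 1) :
    Tendsto (fun x : ℕ => Sd (zB B x) 1 ((x : ℝ) ^ ρ) / (Vz (zB B x) * Real.log x)) atTop (nhds ρ) := by
  have hlog : Tendsto (fun x : ℕ => Real.log x) atTop atTop :=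
    Real.tendsto_log_atTop.comp tendsto_natCast_atTop_atTop
  rw [Metric.tendsto_nhds]
  intro ε hε
  filter_upwards [C2_Sd_upper B hB (ε / 2) (by linarith), hlog.eventually_gt_atTop 0,
    eventually_ge_atTop 1] with x hU hl hx1
  have hx1' : (1 : ℝ) ≤ x := by exact_mod_cast hx1
  have hx0 : (0 : ℝ) < x := by linarith
  have hV := C0_Vz_pos (zB B x)
  have hVl : 0 < Vz (zB B x) * Real.log x := mul_pos hV hl
  have hY1 : (1 : ℝ) ≤ (x : ℝ) ^ ρ := Real.one_le_rpow hx1' hρ0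
  have hYx : (x : ℝ) ^ ρ ≤ x := by
    calc (x : ℝ) ^ ρ ≤ (x : ℝ) ^ (1 : ℝ) := Real.rpow_le_rpow_of_exponent_le hx1' hρ1
      _ = x := Real.rpow_one _
  have h1 := C0_Sd_lower (zB B x) _ hY1
  have h2 := hU _ hY1 hYx
  rw [Real.log_rpow hx0] at h1 h2
  rw [Real.dist_eq, abs_lt]
  constructor
  · rw [lt_sub_iff_add_lt, lt_div_iff₀ hVl]
    nlinarith
  · rw [sub_lt_iff_lt_add, div_lt_iff₀ hVl]
    nlinarith

end Pool.Agent.Lib.MP_092512_nt.P3
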