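import Mathlib
import Pool.Agent.Lib.MP_092512_nt.P3.Defs
import Pool.Agent.Lib.MP_092512_nt.P3.C0
import Pool.Agent.Lib.Sieve.Selberg

/-!
# C3: the exact diagonalisation `∑_{d,e} lamC_j(d) lamC_j'(e)/[d,e]`

PROOFS (`x ≥ 1`, `η > 0`; rough = coprime to `primorial z`).
* `C3_lamS_support`: unfold; if `x^ρ < d` then `x^ρ/d < 1` and `Sd = 0` (`C0_Sd_lt_one`; `d ≥ 1` as `d` is squarefree).
* `C3_sum_lamS_div`: for `k ≥ 1` and `x^ρ < N + 1`
  `∑_{d ≤ N, k ∣ d} lamS_ρ(d)/d = [k squarefree rough, k ≤ x^ρ] μ(k)/(φ(k) V log x)`.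
  Indeed the left side is `(1/(V log x)) ∑_{d ≤ N, k ∣ d, sqf rough} (μ(d)/φ(d)) ∑_{m ≤ x^ρ/d, sqf rough, (m,d)=1} 1/φ(m)`; put
  `n = d m` (squarefree, rough, `≤ x^ρ`, hence `≤ N`): it is `(1/(V log x)) ∑_{n ≤ x^ρ sqf rough} (1/φ(n)) ∑_{k ∣ d ∣ n} μ(d)`, and
  the inner sum is `μ(k)` if `n = k` and `0` otherwise (`Sieve.sum_moebius_between` in `Sieve/Selberg.lean`, for `k ∣ n`; if
  `k ∤ n` the inner sum is empty).
* `C3_sum_lamC_div`: difference of two of these, `jη < (j+1)η`.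
* `C3_diag`: `1/[d,e] = (d,e)/(d e)`, `(d,e) = ∑_{k ∣ d, k ∣ e} φ(k)` (`Nat.sum_totient`), exchange the sums:
  `∑_{k ≤ N} φ(k) (∑_{k ∣ d} lamC_j(d)/d)(∑_{k ∣ e} lamC_j'(e)/e)`. For `j ≠ j'` the two factors are never both nonzero
  (the half-open intervals `(x^(jη), x^((j+1)η)]` are disjoint). For `j = j'` it is
  `∑_{k sqf rough in (x^(jη), x^((j+1)η)]} 1/(φ(k) (V log x)^2)` (`μ(k)^2 = 1`)
  `= (Sd z 1 (x^((j+1)η)) - Sd z 1 (x^(jη)))/(V log x)^2`.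
-/

set_option autoImplicit false

open Finset Filter

open scoped ArithmeticFunction.Moebius

namespace Pool.Agent.Lib.MP_092512_nt.P3

open Pool.Agent.Lib.SW

theorem C3_lamS_support {x z : ℕ} {ρ : ℝ} {d : ℕ} (h : lamS x z ρ d ≠ 0) :
    Squarefree d ∧ Nat.Coprime d (primorial z) ∧ (d : ℝ) ≤ (x : ℝ) ^ ρ := by
  unfold lamS at h
  split_ifs at h with h1
  · refine ⟨h1.1, h1.2, ?_⟩
    by_contra hlt
    push Not at hlt
    have hd0 : (0 : ℝ) < d := by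
      have := Nat.pos_of_ne_zero h1.1.ne_zero
      exact_mod_cast this
    have h2 : Sd z d ((x : ℝ) ^ ρ / d) = 0 := by
      apply C0_Sd_lt_one
      rw [div_lt_one hd0]
      exact hlt
    rw [h2] at h
    simp at h
  · exact absurd rfl h

theorem C3_lamC_support {x z : ℕ} (hx : 1 ≤ x) {η : ℝ} (hη : 0 < η) {j d : ℕ} (h : lamC x z η j d ≠ 0) :
    Squarefree d ∧ Nat.Coprime d (primorial z) ∧ (d : ℝ) ≤ (x : ℝ) ^ (((j : ℝ) + 1) * η) := by
  have hx1 : (1 : ℝ) ≤ x := by exact_mod_cast hx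
  by_cases h1 : lamS x z (((j : ℝ) + 1) * η) d = 0
  · have h2 : lamS x z ((j : ℝ) * η) d ≠ 0 := by
      intro h3
      apply h
      unfold lamC
      rw [h1, h3, sub_zero]
    obtain ⟨a, b, c⟩ := C3_lamS_support h2
    refine ⟨a, b, c.trans ?_⟩
    apply Real.rpow_le_rpow_of_exponent_le hx1
    nlinarith
  · exact C3_lamS_support h1

/-- the double sum over `(d, m)` as a sum over `n = d m` -/
private theorem C3_reindex (z N T k : ℕ) (hT : T ≤ N) (hk : 1 ≤ k) :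
    ∑ d ∈ (Icc 1 N).filter (fun d => k ∣ d ∧ Squarefree d ∧ Nat.Coprime d (primorial z)),
      ∑ m ∈ (Icc 1 (T / d)).filter (fun m => Squarefree m ∧ Nat.Coprime m (d * primorial z)),
        (μ d : ℝ) / (Nat.totient d : ℝ) * (1 / (Nat.totient m : ℝ)) =
    ∑ n ∈ (Icc 1 T).filter (fun n => Squarefree n ∧ Nat.Coprime n (primorial z)),
      ∑ d ∈ n.divisors.filter (fun d => k ∣ d), (μ d : ℝ) / (Nat.totient n : ℝ) := by
  rw [Finset.sum_sigma', Finset.sum_sigma']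
  refine Finset.sum_nbij' (fun w => ⟨w.1 * w.2, w.1⟩) (fun w => ⟨w.2, w.1 / w.2⟩) ?_ ?_ ?_ ?_ ?_
  · rintro ⟨d, m⟩ h
    simp only [mem_sigma, mem_filter, mem_Icc] at h
    obtain ⟨⟨⟨hd1, hdN⟩, hkd, hds, hdc⟩, ⟨hm1, hmT⟩, hms, hmc⟩ := h
    have hmd : Nat.Coprime m d := Nat.Coprime.coprime_mul_right_right hmc
    have hmP : Nat.Coprime m (primorial z) := Nat.Coprime.coprime_mul_left_right hmc
    simp only [mem_sigma, mem_filter, mem_Icc, Nat.mem_divisors]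
    refine ⟨⟨⟨Nat.mul_pos (by omega) (by omega), ?_⟩, ?_, ?_⟩, ⟨Dvd.intro _ rfl, ?_⟩, hkd⟩
    · have := (Nat.le_div_iff_mul_le (by omega)).mp hmT
      rwa [mul_comm] at this
    · exact (Nat.squarefree_mul hmd.symm).mpr ⟨hds, hms⟩
    · exact Nat.Coprime.mul_left hdc hmP
    · exact (Nat.mul_pos (by omega) (by omega)).ne'
  · rintro ⟨n, d⟩ h
    simp only [mem_sigma, mem_filter, mem_Icc, Nat.mem_divisors] at h
    obtain ⟨⟨⟨hn1, hnT⟩, hns, hnc⟩, ⟨hdn, hn0⟩, hkd⟩ := h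
    have hd0 : 0 < d := Nat.pos_of_dvd_of_pos hdn (by omega)
    have hdle : d ≤ n := Nat.le_of_dvd (by omega) hdn
    obtain ⟨m, rfl⟩ := hdn
    have hm0 : 0 < m := Nat.pos_of_ne_zero (by rintro rfl; simp at hn0)
    have hdiv : d * m / d = m := Nat.mul_div_cancel_left m hd0
    have hcop : Nat.Coprime d m := Nat.coprime_of_squarefree_mul hns
    simp only [mem_sigma, mem_filter, mem_Icc, hdiv]
    refine ⟨⟨⟨by omega, by omega⟩, hkd, ?_, ?_⟩, ⟨by omega, ?_⟩, ?_, ?_⟩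
    · exact ((Nat.squarefree_mul hcop).mp hns).1
    · exact Nat.Coprime.coprime_dvd_left (Dvd.intro _ rfl) hnc
    · rw [Nat.le_div_iff_mul_le hd0, mul_comm]
      exact hnT
    · exact ((Nat.squarefree_mul hcop).mp hns).2
    · exact Nat.Coprime.mul_right hcop.symm (Nat.Coprime.coprime_dvd_left (Dvd.intro_left _ rfl) hnc)
  · rintro ⟨d, m⟩ h
    simp only [mem_sigma, mem_filter, mem_Icc] at h
    obtain ⟨⟨⟨hd1, hdN⟩, hkd, hds, hdc⟩, ⟨hm1, hmT⟩, hms, hmc⟩ := h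
    simp only [Nat.mul_div_cancel_left m (show 0 < d by omega)]
  · rintro ⟨n, d⟩ h
    simp only [mem_sigma, mem_filter, mem_Icc, Nat.mem_divisors] at h
    simp only [Nat.mul_div_cancel' h.2.1.1]
  · rintro ⟨d, m⟩ h
    simp only [mem_sigma, mem_filter, mem_Icc] at h
    obtain ⟨⟨⟨hd1, hdN⟩, hkd, hds, hdc⟩, ⟨hm1, hmT⟩, hms, hmc⟩ := h
    have hmd : Nat.Coprime d m := (Nat.Coprime.coprime_mul_right_right hmc).symm
    simp only [Nat.totient_mul hmd]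
    push_cast
    rw [div_mul_div_comm, mul_one]

open Classical in
theorem C3_sum_lamS_div (x z : ℕ) (hx : 1 ≤ x) (ρ : ℝ) (N k : ℕ) (hN : (x : ℝ) ^ ρ < N + 1) (hk : 1 ≤ k) :
    ∑ d ∈ (Icc 1 N).filter (fun d => k ∣ d), lamS x z ρ d / d =
      if Squarefree k ∧ Nat.Coprime k (primorial z) ∧ (k : ℝ) ≤ (x : ℝ) ^ ρ then
        (μ k : ℝ) / (Nat.totient k : ℝ) / (Vz z * Real.log x) else 0 := by
  have hR0 : (0 : ℝ) ≤ (x : ℝ) ^ ρ := by positivity
  set T := ⌊(x : ℝ) ^ ρ⌋₊ with hTdef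
  have hTN : T ≤ N := by
    have h1 : (T : ℝ) ≤ (x : ℝ) ^ ρ := Nat.floor_le hR0
    have h2 : (T : ℝ) < N + 1 := lt_of_le_of_lt h1 hN
    have h3 : T < N + 1 := by exact_mod_cast h2
    omega
  have h1 : ∑ d ∈ (Icc 1 N).filter (fun d => k ∣ d), lamS x z ρ d / d =
      (∑ d ∈ (Icc 1 N).filter (fun d => k ∣ d ∧ Squarefree d ∧ Nat.Coprime d (primorial z)),
      ∑ m ∈ (Icc 1 (T / d)).filter (fun m => Squarefree m ∧ Nat.Coprime m (d * primorial z)),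
        (μ d : ℝ) / (Nat.totient d : ℝ) * (1 / (Nat.totient m : ℝ))) / (Vz z * Real.log x) := by
    rw [Finset.sum_div]
    have h2 : (Icc 1 N).filter (fun d => k ∣ d ∧ Squarefree d ∧ Nat.Coprime d (primorial z)) =
        ((Icc 1 N).filter (fun d => k ∣ d)).filter
          (fun d => Squarefree d ∧ Nat.Coprime d (primorial z)) := by
      rw [Finset.filter_filter]
    rw [h2, Finset.sum_filter (s := (Icc 1 N).filter (fun d => k ∣ d))]
    refine Finset.sum_congr rfl fun d hd => ?_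
    have hd1 : 1 ≤ d := (mem_Icc.mp (mem_filter.mp hd).1).1
    have hd0 : (d : ℝ) ≠ 0 := by
      have : d ≠ 0 := by omega
      exact_mod_cast this
    unfold lamS
    by_cases hc : Squarefree d ∧ Nat.Coprime d (primorial z)
    · rw [if_pos hc, if_pos hc]
      have h3 : Sd z d ((x : ℝ) ^ ρ / d) =
          ∑ m ∈ (Icc 1 (T / d)).filter (fun m => Squarefree m ∧ Nat.Coprime m (d * primorial z)),
            1 / (Nat.totient m : ℝ) := by
        unfold Sd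
        rw [Nat.floor_div_natCast]
      rw [h3, ← Finset.mul_sum]
      have hphi : (Nat.totient d : ℝ) ≠ 0 := by
        have : Nat.totient d ≠ 0 := (Nat.totient_pos.mpr (by omega)).ne'
        exact_mod_cast this
      field_simp
    · rw [if_neg hc, if_neg hc, zero_div]
  rw [h1, C3_reindex z N T k hTN hk]
  have h4 : ∑ n ∈ (Icc 1 T).filter (fun n => Squarefree n ∧ Nat.Coprime n (primorial z)),
      ∑ d ∈ n.divisors.filter (fun d => k ∣ d), (μ d : ℝ) / (Nat.totient n : ℝ) =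
      ∑ n ∈ (Icc 1 T).filter (fun n => Squarefree n ∧ Nat.Coprime n (primorial z)),
        if n = k then (μ k : ℝ) / (Nat.totient k : ℝ) else 0 := by
    refine Finset.sum_congr rfl fun n hn => ?_
    obtain ⟨hn1, hns, hnc⟩ := mem_filter.mp hn
    rw [← Finset.sum_div]
    by_cases hkn : k ∣ n
    · rw [Pool.Agent.Lib.Sieve.sum_moebius_between hns hkn]
      by_cases he : n = k
      · rw [if_pos he, if_pos he, he]
      · rw [if_neg he, if_neg he, zero_div]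
    · have h5 : n.divisors.filter (fun d => k ∣ d) = ∅ := by
        apply Finset.filter_eq_empty_iff.mpr
        intro d hd hkd
        exact hkn (hkd.trans (Nat.dvd_of_mem_divisors hd))
      rw [h5, Finset.sum_empty, zero_div, if_neg]
      rintro rfl
      exact hkn dvd_rfl
  rw [h4, Finset.sum_ite_eq']
  have h6 : k ∈ (Icc 1 T).filter (fun n => Squarefree n ∧ Nat.Coprime n (primorial z)) ↔
      Squarefree k ∧ Nat.Coprime k (primorial z) ∧ (k : ℝ) ≤ (x : ℝ) ^ ρ := by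
    rw [mem_filter, mem_Icc, hTdef, Nat.le_floor_iff hR0]
    constructor
    · rintro ⟨⟨_, h⟩, h', h''⟩; exact ⟨h', h'', h⟩
    · rintro ⟨h, h', h''⟩; exact ⟨⟨hk, h''⟩, h, h'⟩
  by_cases hc : Squarefree k ∧ Nat.Coprime k (primorial z) ∧ (k : ℝ) ≤ (x : ℝ) ^ ρ
  · rw [if_pos (h6.mpr hc), if_pos hc]
  · rw [if_neg (fun h => hc (h6.mp h)), if_neg hc, zero_div]

open Classical in
theorem C3_sum_lamC_div (x z : ℕ) (hx : 1 ≤ x) (η : ℝ) (hη : 0 < η) (j N k : ℕ)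
    (hN : (x : ℝ) ^ (((j : ℝ) + 1) * η) < N + 1) (hk : 1 ≤ k) :
    ∑ d ∈ (Icc 1 N).filter (fun d => k ∣ d), lamC x z η j d / d =
      if Squarefree k ∧ Nat.Coprime k (primorial z) ∧ (x : ℝ) ^ ((j : ℝ) * η) < k ∧
          (k : ℝ) ≤ (x : ℝ) ^ (((j : ℝ) + 1) * η) then
        (μ k : ℝ) / (Nat.totient k : ℝ) / (Vz z * Real.log x) else 0 := by
  have hx1 : (1 : ℝ) ≤ x := by exact_mod_cast hx
  have hle : (x : ℝ) ^ ((j : ℝ) * η) ≤ (x : ℝ) ^ (((j : ℝ) + 1) * η) := by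
    apply Real.rpow_le_rpow_of_exponent_le hx1
    nlinarith
  have h1 : ∑ d ∈ (Icc 1 N).filter (fun d => k ∣ d), lamC x z η j d / d =
      ∑ d ∈ (Icc 1 N).filter (fun d => k ∣ d), lamS x z (((j : ℝ) + 1) * η) d / d -
        ∑ d ∈ (Icc 1 N).filter (fun d => k ∣ d), lamS x z ((j : ℝ) * η) d / d := by
    rw [← Finset.sum_sub_distrib]
    refine Finset.sum_congr rfl fun d _ => ?_
    unfold lamC
    rw [sub_div]
  rw [h1, C3_sum_lamS_div x z hx _ N k hN hk,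
    C3_sum_lamS_div x z hx _ N k (lt_of_le_of_lt hle hN) hk]
  by_cases hs : Squarefree k ∧ Nat.Coprime k (primorial z)
  · obtain ⟨hs1, hs2⟩ := hs
    by_cases h3 : (k : ℝ) ≤ (x : ℝ) ^ ((j : ℝ) * η)
    · rw [if_pos ⟨hs1, hs2, h3.trans hle⟩, if_pos ⟨hs1, hs2, h3⟩, if_neg, sub_self]
      rintro ⟨_, _, h4, _⟩
      linarith
    · rw [if_neg (fun h : Squarefree k ∧ Nat.Coprime k (primorial z) ∧
        (k : ℝ) ≤ (x : ℝ) ^ ((j : ℝ) * η) => h3 h.2.2), sub_zero]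
      by_cases h5 : (k : ℝ) ≤ (x : ℝ) ^ (((j : ℝ) + 1) * η)
      · rw [if_pos ⟨hs1, hs2, h5⟩, if_pos ⟨hs1, hs2, not_le.mp h3, h5⟩]
      · rw [if_neg (fun h : Squarefree k ∧ Nat.Coprime k (primorial z) ∧
          (k : ℝ) ≤ (x : ℝ) ^ (((j : ℝ) + 1) * η) => h5 h.2.2), if_neg]
        rintro ⟨_, _, _, h6⟩
        exact h5 h6
  · rw [if_neg (fun h : Squarefree k ∧ Nat.Coprime k (primorial z) ∧
        (k : ℝ) ≤ (x : ℝ) ^ (((j : ℝ) + 1) * η) => hs ⟨h.1, h.2.1⟩),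
      if_neg (fun h : Squarefree k ∧ Nat.Coprime k (primorial z) ∧
        (k : ℝ) ≤ (x : ℝ) ^ ((j : ℝ) * η) => hs ⟨h.1, h.2.1⟩), if_neg, sub_zero]
    rintro ⟨h, h', _⟩
    exact hs ⟨h, h'⟩

end Pool.Agent.Lib.MP_092512_nt.P3
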