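import Mathlib
import Pool.Agent.Lib.MP_092512_nt.P3.Defs
import Pool.Agent.Lib.MP_092512_nt.P3.C0
import Pool.Agent.Lib.MP_092512_nt.P3.C3

/-!
# C3: the exact diagonalisation `∑_{d,e} lamC_j(d) lamC_j'(e)/[d,e]`

PROOFS (`x ≥ 1`, `η > 0`; rough = coprime to `primorial z`).
* `C3_lamS_support`: unfold; if `x^ρ < d` then `x^ρ/d < 1` and `Sd = 0` (`C0_Sd_lt_one`; `d ≥ 1` as `d` is squarefree).
* `C3_sum_lamS_div`: for `k ≥ 1` and `x^ρ < N + 1`
  `∑_{d ≤ N, k ∣ d} lamS_ρ(d)/d = [k squarefree rough, k ≤ x^ρ] μ(k)/(φ(k) V log x)`.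
  Indeed the left side is `(1/(V log x)) ∑_{d ≤ N, k ∣ d, sqf rough} (μ(d)/φ(d)) ∑_{m ≤ x^ρ/d, sqf rough, (m,d)=1} 1/φ(m)`; put
  `n = d m` (squarefree, rough, `≤ x^ρ`, hence `≤ N`): it is `(1/(V log x)) ∑_{n ≤ x^ρ sqf rough} (1/φ(n)) ∑_{k ∣ d ∣ n} μ(d)`, and
  the inner sum is `μ(k)` if `n = k` and `0` otherwise (`Sieve.sum_moebius_between` in `Sieve/Selberg.lean`, for `k ∣ n`; if
  `k ∤ n` the inner sum is empty).
* `C3_sum_lamC_div`: difference of two of these, `jη < (j+1)η`.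
* `C3_diag`: `1/[d,e] = (d,e)/(d e)`, `(d,e) = ∑_{k ∣ d, k ∣ e} φ(k)` (`Nat.sum_totient`), exchange the sums:
  `∑_{k ≤ N} φ(k) (∑_{k ∣ d} lamC_j(d)/d)(∑_{k ∣ e} lamC_j'(e)/e)`. For `j ≠ j'` the two factors are never both nonzero
  (the half-open intervals `(x^(jη), x^((j+1)η)]` are disjoint). For `j = j'` it is
  `∑_{k sqf rough in (x^(jη), x^((j+1)η)]} 1/(φ(k) (V log x)^2)` (`μ(k)^2 = 1`)
  `= (Sd z 1 (x^((j+1)η)) - Sd z 1 (x^(jη)))/(V log x)^2`.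
-/

set_option autoImplicit false

open Finset Filter

open scoped ArithmeticFunction.Moebius

namespace Pool.Agent.Lib.MP_092512_nt.P3

open Pool.Agent.Lib.SW

/-- `1/[d,e] = (1/(d e)) ∑_{k ∣ d, k ∣ e} φ(k)` inside a double sum -/
private theorem C3d_expand (N : ℕ) (f g : ℕ → ℝ) :
    ∑ d ∈ Icc 1 N, ∑ e ∈ Icc 1 N, f d * g e / (Nat.lcm d e : ℝ) =
      ∑ k ∈ Icc 1 N, (Nat.totient k : ℝ) * ((∑ d ∈ (Icc 1 N).filter (fun d => k ∣ d), f d / d) *
        (∑ e ∈ (Icc 1 N).filter (fun e => k ∣ e), g e / e)) := by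
  have h1 : ∀ d ∈ Icc 1 N, ∀ e ∈ Icc 1 N, f d * g e / (Nat.lcm d e : ℝ) =
      ∑ k ∈ Icc 1 N, (if k ∣ d then (if k ∣ e then
        (Nat.totient k : ℝ) * ((f d / d) * (g e / e)) else 0) else 0) := by
    intro d hd e he
    have hd1 := (mem_Icc.mp hd).1
    have he1 := (mem_Icc.mp he).1
    have hdN := (mem_Icc.mp hd).2
    have hd0 : (d : ℝ) ≠ 0 := by
      have : d ≠ 0 := by omega
      exact_mod_cast this
    have he0 : (e : ℝ) ≠ 0 := by
      have : e ≠ 0 := by omega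
      exact_mod_cast this
    have hg1 : 0 < Nat.gcd d e := Nat.gcd_pos_of_pos_left _ (by omega)
    have h2 : ∑ k ∈ Icc 1 N, (if k ∣ d then (if k ∣ e then
        (Nat.totient k : ℝ) * ((f d / d) * (g e / e)) else 0) else 0) =
        ∑ k ∈ (Nat.gcd d e).divisors, (Nat.totient k : ℝ) * ((f d / d) * (g e / e)) := by
      have h3 : (Nat.gcd d e).divisors = (Icc 1 N).filter (fun k => k ∣ d ∧ k ∣ e) := by
        ext k
        rw [Nat.mem_divisors, mem_filter, mem_Icc]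
        constructor
        · rintro ⟨h, _⟩
          have hkd := h.trans (Nat.gcd_dvd_left d e)
          have hke := h.trans (Nat.gcd_dvd_right d e)
          have hk0 : 0 < k := Nat.pos_of_dvd_of_pos hkd (by omega)
          have hkle : k ≤ d := Nat.le_of_dvd (by omega) hkd
          exact ⟨⟨hk0, by omega⟩, hkd, hke⟩
        · rintro ⟨_, h1, h2⟩
          exact ⟨Nat.dvd_gcd h1 h2, hg1.ne'⟩
      rw [h3, Finset.sum_filter]
      refine Finset.sum_congr rfl fun k _ => ?_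
      by_cases a : k ∣ d
      · by_cases b : k ∣ e
        · rw [if_pos a, if_pos b, if_pos ⟨a, b⟩]
        · rw [if_pos a, if_neg b, if_neg (fun h => b h.2)]
      · rw [if_neg a, if_neg (fun h => a h.1)]
    rw [h2, ← Finset.sum_mul]
    have h4 : ∑ k ∈ (Nat.gcd d e).divisors, (Nat.totient k : ℝ) = (Nat.gcd d e : ℝ) := by
      have := Nat.sum_totient (Nat.gcd d e)
      exact_mod_cast this
    rw [h4]
    have h5 : (Nat.gcd d e : ℝ) * (Nat.lcm d e : ℝ) = (d : ℝ) * e := by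
      exact_mod_cast Nat.gcd_mul_lcm d e
    have hl0 : (Nat.lcm d e : ℝ) ≠ 0 := by
      have : Nat.lcm d e ≠ 0 := Nat.lcm_ne_zero (by omega) (by omega)
      exact_mod_cast this
    have hg0 : (Nat.gcd d e : ℝ) ≠ 0 := by exact_mod_cast hg1.ne'
    rw [div_eq_iff hl0]
    calc f d * g e = ((Nat.gcd d e : ℝ) * (Nat.lcm d e : ℝ)) / ((d : ℝ) * e) * (f d * g e) := by
          rw [h5, div_self (mul_ne_zero hd0 he0), one_mul]
      _ = (Nat.gcd d e : ℝ) * (f d / d * (g e / e)) * (Nat.lcm d e : ℝ) := by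
          field_simp
  rw [Finset.sum_congr rfl fun d hd => Finset.sum_congr rfl fun e he => h1 d hd e he]
  have h6 : ∀ d ∈ Icc 1 N, ∑ e ∈ Icc 1 N, ∑ k ∈ Icc 1 N, (if k ∣ d then (if k ∣ e then
        (Nat.totient k : ℝ) * ((f d / d) * (g e / e)) else 0) else 0) =
      ∑ k ∈ Icc 1 N, ∑ e ∈ Icc 1 N, (if k ∣ d then (if k ∣ e then
        (Nat.totient k : ℝ) * ((f d / d) * (g e / e)) else 0) else 0) := fun d _ => Finset.sum_comm
  rw [Finset.sum_congr rfl h6, Finset.sum_comm]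
  refine Finset.sum_congr rfl fun k _ => ?_
  rw [Finset.sum_filter, Finset.sum_filter, Finset.sum_mul_sum, Finset.mul_sum]
  refine Finset.sum_congr rfl fun d _ => ?_
  rw [Finset.mul_sum]
  refine Finset.sum_congr rfl fun e _ => ?_
  by_cases a : k ∣ d
  · by_cases b : k ∣ e
    · rw [if_pos a, if_pos b, if_pos a, if_pos b]
    · rw [if_pos a, if_neg b, if_neg b, mul_zero, mul_zero]
  · rw [if_neg a, if_neg a, zero_mul, mul_zero]

private theorem c3d_term (f g : ℕ → ℝ) (N d e : ℕ) (hd : 1 ≤ d ∧ d ≤ N) (he : 1 ≤ e ∧ e ≤ N) :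
    f d * g e / (Nat.lcm d e : ℝ) =
      ∑ k ∈ Icc 1 N, if k ∣ d ∧ k ∣ e then (Nat.totient k : ℝ) * (f d / d * (g e / e)) else 0 := by
  have hd0 : (0 : ℝ) < d := by
    have : 0 < d := by omega
    exact_mod_cast this
  have he0 : (0 : ℝ) < e := by
    have : 0 < e := by omega
    exact_mod_cast this
  have hg0 : 0 < Nat.gcd d e := Nat.gcd_pos_of_pos_left _ (by omega)
  have h2 : ∑ k ∈ Icc 1 N, (if k ∣ d ∧ k ∣ e then (Nat.totient k : ℝ) * (f d / d * (g e / e)) else 0) =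
      (Nat.gcd d e : ℝ) * (f d / d * (g e / e)) := by
    rw [← Finset.sum_filter]
    have h3 : (Icc 1 N).filter (fun k => k ∣ d ∧ k ∣ e) = (Nat.gcd d e).divisors := by
      ext k
      rw [mem_filter, mem_Icc, Nat.mem_divisors]
      constructor
      · rintro ⟨_, h4, h5⟩
        exact ⟨Nat.dvd_gcd h4 h5, hg0.ne'⟩
      · rintro ⟨h4, _⟩
        have h5 := h4.trans (Nat.gcd_dvd_left d e)
        have h6 := h4.trans (Nat.gcd_dvd_right d e)
        exact ⟨⟨Nat.pos_of_dvd_of_pos h5 (by omega), (Nat.le_of_dvd (by omega) h5).trans hd.2⟩, h5, h6⟩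
    rw [h3, ← Finset.sum_mul, ← Nat.cast_sum, Nat.sum_totient]
  rw [h2]
  have h4 : (Nat.gcd d e : ℝ) * (Nat.lcm d e : ℝ) = d * e := by
    exact_mod_cast Nat.gcd_mul_lcm d e
  have hl0 : (Nat.lcm d e : ℝ) ≠ 0 := by
    have : 0 < Nat.lcm d e := Nat.lcm_pos (by omega) (by omega)
    positivity
  rw [div_eq_iff hl0]
  calc f d * g e = (d * e) * (f d / d * (g e / e)) := by field_simp
    _ = (Nat.gcd d e : ℝ) * (Nat.lcm d e : ℝ) * (f d / d * (g e / e)) := by rw [h4]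
    _ = (Nat.gcd d e : ℝ) * (f d / d * (g e / e)) * (Nat.lcm d e : ℝ) := by ring

private theorem c3d_diag (f g : ℕ → ℝ) (N : ℕ) :
    ∑ d ∈ Icc 1 N, ∑ e ∈ Icc 1 N, f d * g e / (Nat.lcm d e : ℝ) =
      ∑ k ∈ Icc 1 N, (Nat.totient k : ℝ) *
        ((∑ d ∈ (Icc 1 N).filter (fun d => k ∣ d), f d / d) *
          ∑ e ∈ (Icc 1 N).filter (fun e => k ∣ e), g e / e) := by
  classical
  have h1 : ∀ k ∈ Icc 1 N, (Nat.totient k : ℝ) *
        ((∑ d ∈ (Icc 1 N).filter (fun d => k ∣ d), f d / d) *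
          ∑ e ∈ (Icc 1 N).filter (fun e => k ∣ e), g e / e) =
      ∑ d ∈ Icc 1 N, ∑ e ∈ Icc 1 N,
        if k ∣ d ∧ k ∣ e then (Nat.totient k : ℝ) * (f d / d * (g e / e)) else 0 := by
    intro k _
    rw [Finset.sum_filter, Finset.sum_filter, Finset.sum_mul_sum, Finset.mul_sum]
    refine Finset.sum_congr rfl fun d _ => ?_
    rw [Finset.mul_sum]
    refine Finset.sum_congr rfl fun e _ => ?_
    by_cases hd : k ∣ d
    · by_cases he : k ∣ e
      · simp only [if_pos hd, if_pos he, if_pos (And.intro hd he)]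
      · simp only [if_neg he, if_neg (fun h : k ∣ d ∧ k ∣ e => he h.2), mul_zero]
    · simp only [if_neg hd, if_neg (fun h : k ∣ d ∧ k ∣ e => hd h.1), zero_mul, mul_zero]
  have key : ∀ d ∈ Icc 1 N, ∀ e ∈ Icc 1 N, f d * g e / (Nat.lcm d e : ℝ) =
      ∑ k ∈ Icc 1 N, if k ∣ d ∧ k ∣ e then (Nat.totient k : ℝ) * (f d / d * (g e / e)) else 0 := by
    intro d hd e he
    rw [mem_Icc] at hd he
    exact c3d_term f g N d e hd he
  calc ∑ d ∈ Icc 1 N, ∑ e ∈ Icc 1 N, f d * g e / (Nat.lcm d e : ℝ) =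
        ∑ d ∈ Icc 1 N, ∑ e ∈ Icc 1 N, ∑ k ∈ Icc 1 N,
          if k ∣ d ∧ k ∣ e then (Nat.totient k : ℝ) * (f d / d * (g e / e)) else 0 :=
        Finset.sum_congr rfl fun d hd => Finset.sum_congr rfl fun e he => key d hd e he
    _ = ∑ d ∈ Icc 1 N, ∑ k ∈ Icc 1 N, ∑ e ∈ Icc 1 N,
          if k ∣ d ∧ k ∣ e then (Nat.totient k : ℝ) * (f d / d * (g e / e)) else 0 :=
        Finset.sum_congr rfl fun d _ => Finset.sum_comm
    _ = ∑ k ∈ Icc 1 N, ∑ d ∈ Icc 1 N, ∑ e ∈ Icc 1 N,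
          if k ∣ d ∧ k ∣ e then (Nat.totient k : ℝ) * (f d / d * (g e / e)) else 0 :=
        Finset.sum_comm
    _ = _ := Finset.sum_congr rfl fun k hk => (h1 k hk).symm

private theorem c3d_Sd (z N : ℕ) (Y : ℝ) (hY0 : 0 ≤ Y) (hY : Y < N + 1) :
    Sd z 1 Y = ∑ k ∈ Icc 1 N,
      if Squarefree k ∧ Nat.Coprime k (primorial z) ∧ (k : ℝ) ≤ Y then 1 / (k.totient : ℝ) else 0 := by
  unfold Sd
  rw [← Finset.sum_filter]
  refine Finset.sum_congr ?_ fun _ _ => rfl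
  ext k
  rw [mem_filter, mem_filter, mem_Icc, mem_Icc, one_mul, Nat.le_floor_iff hY0]
  constructor
  · rintro ⟨⟨h1, h2⟩, h3, h4⟩
    refine ⟨⟨h1, ?_⟩, h3, h4, h2⟩
    have h5 : (k : ℝ) < ((N + 1 : ℕ) : ℝ) := by
      push_cast
      linarith
    have h6 : k < N + 1 := by exact_mod_cast h5
    omega
  · rintro ⟨⟨h1, _⟩, h3, h4, h5⟩
    exact ⟨⟨h1, h5⟩, h3, h4⟩

private theorem c3d_disj {x k j j' : ℕ} (hx : 1 ≤ x) {η : ℝ} (hη : 0 < η) (h : j < j')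
    (h1 : (k : ℝ) ≤ (x : ℝ) ^ (((j : ℝ) + 1) * η)) (h2 : (x : ℝ) ^ ((j' : ℝ) * η) < k) : False := by
  have hx1 : (1 : ℝ) ≤ x := by exact_mod_cast hx
  have hj : (j : ℝ) + 1 ≤ j' := by exact_mod_cast h
  have h3 : (x : ℝ) ^ (((j : ℝ) + 1) * η) ≤ (x : ℝ) ^ ((j' : ℝ) * η) :=
    Real.rpow_le_rpow_of_exponent_le hx1 (mul_le_mul_of_nonneg_right hj hη.le)
  linarith

theorem C3_diag_ne (x z : ℕ) (hx : 1 ≤ x) (η : ℝ) (hη : 0 < η) (j j' N : ℕ) (hj : j ≠ j')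
    (hN : (x : ℝ) ^ (((j : ℝ) + 1) * η) < N + 1) (hN' : (x : ℝ) ^ (((j' : ℝ) + 1) * η) < N + 1) :
    ∑ d ∈ Icc 1 N, ∑ e ∈ Icc 1 N, lamC x z η j d * lamC x z η j' e / (Nat.lcm d e : ℝ) = 0 := by
  rw [c3d_diag]
  refine Finset.sum_eq_zero fun k hk => ?_
  rw [mem_Icc] at hk
  rw [C3_sum_lamC_div x z hx η hη j N k hN hk.1, C3_sum_lamC_div x z hx η hη j' N k hN' hk.1]
  split_ifs with h1 h2
  · exfalso
    rcases lt_or_gt_of_ne hj with h | h
    · exact c3d_disj hx hη h h1.2.2.2 h2.2.2.1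
    · exact c3d_disj hx hη h h2.2.2.2 h1.2.2.1
  · rw [mul_zero, mul_zero]
  · rw [zero_mul, mul_zero]
  · rw [zero_mul, mul_zero]

theorem C3_diag_eq (x z : ℕ) (hx : 1 ≤ x) (η : ℝ) (hη : 0 < η) (j N : ℕ)
    (hN : (x : ℝ) ^ (((j : ℝ) + 1) * η) < N + 1) :
    ∑ d ∈ Icc 1 N, ∑ e ∈ Icc 1 N, lamC x z η j d * lamC x z η j e / (Nat.lcm d e : ℝ) =
      (Sd z 1 ((x : ℝ) ^ (((j : ℝ) + 1) * η)) - Sd z 1 ((x : ℝ) ^ ((j : ℝ) * η))) /
        (Vz z * Real.log x) ^ 2 := by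
  have hx1 : (1 : ℝ) ≤ x := by exact_mod_cast hx
  have hle : (x : ℝ) ^ ((j : ℝ) * η) ≤ (x : ℝ) ^ (((j : ℝ) + 1) * η) := by
    refine Real.rpow_le_rpow_of_exponent_le hx1 (mul_le_mul_of_nonneg_right ?_ hη.le)
    linarith
  rw [c3d_diag, c3d_Sd z N _ (by positivity) hN, c3d_Sd z N _ (by positivity) (lt_of_le_of_lt hle hN),
    ← Finset.sum_sub_distrib, Finset.sum_div]
  refine Finset.sum_congr rfl fun k hk => ?_
  rw [mem_Icc] at hk
  rw [C3_sum_lamC_div x z hx η hη j N k hN hk.1]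
  have hk0 : (0 : ℝ) < k.totient := by exact_mod_cast Nat.totient_pos.2 hk.1
  by_cases hs : Squarefree k ∧ Nat.Coprime k (primorial z)
  · by_cases h1 : (k : ℝ) ≤ (x : ℝ) ^ (((j : ℝ) + 1) * η)
    · by_cases h2 : (x : ℝ) ^ ((j : ℝ) * η) < k
      · rw [if_pos ⟨hs.1, hs.2, h2, h1⟩, if_pos ⟨hs.1, hs.2, h1⟩,
          if_neg (fun h => absurd h.2.2 (not_le.2 h2)), sub_zero]
        have hmu : ((μ k : ℤ) : ℝ) ^ 2 = 1 := by
          rcases ArithmeticFunction.moebius_eq_or k with h3 | h3 | h3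
          · exact absurd h3 (ArithmeticFunction.moebius_ne_zero_iff_squarefree.2 hs.1)
          · rw [h3]
            norm_num
          · rw [h3]
            norm_num
        calc (k.totient : ℝ) * ((μ k : ℝ) / (Nat.totient k : ℝ) / (Vz z * Real.log x) *
              ((μ k : ℝ) / (Nat.totient k : ℝ) / (Vz z * Real.log x))) =
              ((μ k : ℤ) : ℝ) ^ 2 * ((k.totient : ℝ) / (k.totient : ℝ)) / (k.totient : ℝ) /
                (Vz z * Real.log x) ^ 2 := by ring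
          _ = 1 / (k.totient : ℝ) / (Vz z * Real.log x) ^ 2 := by
              rw [hmu, div_self hk0.ne', one_mul]
      · rw [if_neg (fun h => h2 h.2.2.1), if_pos ⟨hs.1, hs.2, h1⟩,
          if_pos ⟨hs.1, hs.2, not_lt.1 h2⟩, sub_self, zero_mul, mul_zero, zero_div]
    · rw [if_neg (fun h => h1 h.2.2.2), if_neg (fun h => h1 h.2.2),
        if_neg (fun h => h1 (h.2.2.trans hle)), sub_zero, zero_mul, mul_zero, zero_div]
  · rw [if_neg (fun h => hs ⟨h.1, h.2.1⟩), if_neg (fun h => hs ⟨h.1, h.2.1⟩),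
      if_neg (fun h => hs ⟨h.1, h.2.1⟩), sub_zero, zero_mul, mul_zero, zero_div]

end Pool.Agent.Lib.MP_092512_nt.P3
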