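import Mathlib
import Pool.Agent.Lib.MP_092512_nt.P3.Defs
import Pool.Agent.Lib.MP_092512_nt.P3.C0
import Pool.Agent.Lib.MP_092512_nt.P3.C0b
import Pool.Agent.Lib.MP_092512_nt.P3.C2

/-!
# C4: `|lamC| ≤ 2`, and `lamS_ρ(d) = μ(d) (ρ - log d/log x)_+ + o(1)`

PROOFS (`z = zB B x`, `B ≥ 3`, `x` large, so `V log x > 0`; rough = coprime to `primorial z`).
* `C4_lamS_asymp`: let `d` be squarefree rough, `u = log d/log x`.
  If `x^ρ < d`: both sides vanish (`C0_Sd_lt_one`; `ρ - u < 0`). If `d ≤ x^ρ`, put `Y = x^ρ/d ∈ [1, x]`,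
  `log Y = (ρ - u) log x`. Lower bound: `(d/φ(d)) Sd z d Y ≥ Sd z 1 Y ≥ V log Y` (`C0_Sd_lower_coprime`, `C0_Sd_lower`).
  Upper bound: `(d/φ(d)) Sd z d Y ≤ (1 + η) Sd z 1 Y ≤ (1 + η) V (log Y + η log x)` (`C2_totient_rough_le`, as `d ≤ x`;
  `C0_Sd_coprime_le`, `C2_Sd_upper`). Divide by `V log x`: `|lamS| - (ρ - u) ∈ [0, (1+η)(ρ-u+η) - (ρ-u)] ⊆ [0, 3η]`
  (`0 ≤ ρ - u ≤ 1`, `η ≤ 1`), and `lamS = μ(d) |lamS|` (`|μ(d)| ≤ 1`).
* `C4_abs_lamS_le`: from `C4_lamS_asymp` with `ε = 1/2` (`|μ(d)| ≤ 1`, `0 ≤ (ρ - u)_+ ≤ 1`; for `d` not squarefree rough the weight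
  is `0`).
* `C4_lamC_le`: the numbers `lamS x z ρ d = μ(d) a_ρ`, `0 ≤ a_ρ` nondecreasing in `ρ` (`C0_Sd_mono`, `C0_Sd_nonneg`), so
  `|lamC| = |a_ρ' - a_ρ| ≤ a_ρ' ≤ 3/2` with `ρ' = (j+1)η ≤ 1`.
-/

set_option autoImplicit false

open Finset Filter

open scoped ArithmeticFunction.Moebius

namespace Pool.Agent.Lib.MP_092512_nt.P3

open Pool.Agent.Lib.SW

private theorem c4_mu (d : ℕ) : |((μ d : ℤ) : ℝ)| ≤ 1 := by
  have h := ArithmeticFunction.abs_moebius_le_one (n := d)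
  have h1 : ((|μ d| : ℤ) : ℝ) ≤ 1 := by exact_mod_cast h
  rwa [Int.cast_abs] at h1

theorem C4_lamS_asymp (B : ℕ) (hB : 3 ≤ B) (ε : ℝ) (hε : 0 < ε) : ∀ᶠ x : ℕ in atTop,
    ∀ ρ : ℝ, 0 ≤ ρ → ρ ≤ 1 → ∀ d : ℕ, Squarefree d → Nat.Coprime d (primorial (zB B x)) →
      |lamS x (zB B x) ρ d - (μ d : ℝ) * max 0 (ρ - Real.log d / Real.log x)| ≤ ε := by
  obtain ⟨η, hη0, hη1, hηε⟩ : ∃ η : ℝ, 0 < η ∧ η ≤ 1 ∧ 3 * η ≤ ε :=
    ⟨min 1 (ε / 3), lt_min (by norm_num) (by positivity), min_le_left _ _, by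
      have := min_le_right 1 (ε / 3)
      linarith⟩
  have hlog : Tendsto (fun x : ℕ => Real.log x) atTop atTop :=
    Real.tendsto_log_atTop.comp tendsto_natCast_atTop_atTop
  filter_upwards [C2_Sd_upper B hB η hη0, C2_totient_rough_le B hB η hη0,
    hlog.eventually_gt_atTop 0, eventually_ge_atTop 1] with x hU hphi hl hx1 ρ hρ0 hρ1 d hd hr
  have hx1' : (1 : ℝ) ≤ x := by exact_mod_cast hx1
  have hx0 : (0 : ℝ) < x := by linarith
  have hV := C0_Vz_pos (zB B x)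
  have hVl : 0 < Vz (zB B x) * Real.log x := mul_pos hV hl
  have hd0 : 0 < d := Nat.pos_of_ne_zero hd.ne_zero
  have hd0' : (0 : ℝ) < d := by exact_mod_cast hd0
  have hphi0 : (0 : ℝ) < d.totient := by exact_mod_cast Nat.totient_pos.2 hd0
  have e1 : lamS x (zB B x) ρ d = (μ d : ℝ) * (((d : ℝ) / d.totient) *
      Sd (zB B x) d ((x : ℝ) ^ ρ / d) / (Vz (zB B x) * Real.log x)) := by
    unfold lamS
    rw [if_pos ⟨hd, hr⟩]
    ring
  rw [e1, ← mul_sub, abs_mul]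
  have hred : |((d : ℝ) / d.totient) * Sd (zB B x) d ((x : ℝ) ^ ρ / d) / (Vz (zB B x) * Real.log x) -
      max 0 (ρ - Real.log d / Real.log x)| ≤ ε := by
    rcases lt_or_ge ((x : ℝ) ^ ρ) d with h | h
    · have h1 : (x : ℝ) ^ ρ / d < 1 := by
        rw [div_lt_one hd0']
        exact h
      rw [C0_Sd_lt_one _ _ h1, mul_zero, zero_div]
      have h2 : ρ * Real.log x < Real.log d := by
        rw [← Real.log_rpow hx0]
        exact Real.log_lt_log (Real.rpow_pos_of_pos hx0 _) h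
      have h3 : ρ - Real.log d / Real.log x ≤ 0 := by
        rw [sub_nonpos, le_div_iff₀ hl]
        exact h2.le
      rw [max_eq_left h3, sub_zero, abs_zero]
      exact hε.le
    · have hYx : (x : ℝ) ^ ρ ≤ x := by
        calc (x : ℝ) ^ ρ ≤ (x : ℝ) ^ (1 : ℝ) := Real.rpow_le_rpow_of_exponent_le hx1' hρ1
          _ = x := Real.rpow_one _
      have hY1 : 1 ≤ (x : ℝ) ^ ρ / d := by
        rw [one_le_div hd0']
        exact h
      have hY0 : 0 ≤ (x : ℝ) ^ ρ / d := by linarith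
      have hd1 : (1 : ℝ) ≤ d := by exact_mod_cast hd0
      have hYx' : (x : ℝ) ^ ρ / d ≤ x := (div_le_self (by positivity) hd1).trans hYx
      have hlY : Real.log ((x : ℝ) ^ ρ / d) = ρ * Real.log x - Real.log d := by
        rw [Real.log_div (Real.rpow_pos_of_pos hx0 _).ne' hd0'.ne', Real.log_rpow hx0]
      have hdx : d ≤ x := by
        have := h.trans hYx
        exact_mod_cast this
      have hlow := (C0_Sd_lower (zB B x) _ hY1).trans
        (C0_Sd_lower_coprime (zB B x) d hd hr _ hY0)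
      have hup := (C0_Sd_coprime_le (zB B x) d ((x : ℝ) ^ ρ / d)).trans (hU _ hY1 hYx')
      have hph := hphi d hd0 hdx hr
      rw [hlY] at hlow hup
      have hS0 := C0_Sd_nonneg (zB B x) d ((x : ℝ) ^ ρ / d)
      have hld : 0 ≤ Real.log d := Real.log_nonneg hd1
      set u : ℝ := Real.log d / Real.log x with hu
      have hul : u * Real.log x = Real.log d := div_mul_cancel₀ _ hl.ne'
      have hu0 : 0 ≤ u := div_nonneg hld hl.le
      have hru : 0 ≤ ρ - u := by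
        have h1 : Real.log d ≤ ρ * Real.log x := by
          rw [← Real.log_rpow hx0]
          exact Real.log_le_log hd0' h
        rw [sub_nonneg, hu, div_le_iff₀ hl]
        exact h1
      rw [max_eq_right hru]
      have hlY2 : ρ * Real.log x - Real.log d = (ρ - u) * Real.log x := by rw [← hul]; ring
      rw [hlY2] at hlow hup
      have hA : ρ - u ≤ ((d : ℝ) / d.totient) * Sd (zB B x) d ((x : ℝ) ^ ρ / d) /
          (Vz (zB B x) * Real.log x) := by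
        rw [le_div_iff₀ hVl]
        linarith
      have hB' : ((d : ℝ) / d.totient) * Sd (zB B x) d ((x : ℝ) ^ ρ / d) /
          (Vz (zB B x) * Real.log x) ≤ (1 + η) * (ρ - u + η) := by
        rw [div_le_iff₀ hVl]
        calc ((d : ℝ) / d.totient) * Sd (zB B x) d ((x : ℝ) ^ ρ / d) ≤
              (1 + η) * (Vz (zB B x) * ((ρ - u) * Real.log x + η * Real.log x)) :=
              mul_le_mul hph hup hS0 (by linarith)
          _ = (1 + η) * (ρ - u + η) * (Vz (zB B x) * Real.log x) := by ring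
      have hC : (1 + η) * (ρ - u + η) ≤ ρ - u + 3 * η := by nlinarith
      rw [abs_le]
      constructor <;> linarith
  calc |((μ d : ℤ) : ℝ)| * _ ≤ 1 * ε := mul_le_mul (c4_mu d) hred (abs_nonneg _) zero_le_one
    _ = ε := one_mul ε

private theorem c4_max {x d : ℕ} {ρ : ℝ} (hρ1 : ρ ≤ 1) (hl : 0 < Real.log x) (hd : 0 < d) :
    0 ≤ max 0 (ρ - Real.log d / Real.log x) ∧ max 0 (ρ - Real.log d / Real.log x) ≤ 1 := by
  have hd1 : (1 : ℝ) ≤ d := by exact_mod_cast hd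
  have h := div_nonneg (Real.log_nonneg hd1) hl.le
  exact ⟨le_max_left _ _, max_le zero_le_one (by linarith)⟩

private theorem c4_zero {x z d : ℕ} {ρ : ℝ} (h : ¬ (Squarefree d ∧ Nat.Coprime d (primorial z))) :
    lamS x z ρ d = 0 := by
  unfold lamS
  rw [if_neg h]

theorem C4_abs_lamS_le (B : ℕ) (hB : 3 ≤ B) : ∀ᶠ x : ℕ in atTop,
    ∀ ρ : ℝ, 0 ≤ ρ → ρ ≤ 1 → ∀ d : ℕ, |lamS x (zB B x) ρ d| ≤ 3 / 2 := by
  have hlog : Tendsto (fun x : ℕ => Real.log x) atTop atTop :=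
    Real.tendsto_log_atTop.comp tendsto_natCast_atTop_atTop
  filter_upwards [C4_lamS_asymp B hB (1 / 2) (by norm_num), hlog.eventually_gt_atTop 0] with
    x hA hl ρ hρ0 hρ1 d
  by_cases h : Squarefree d ∧ Nat.Coprime d (primorial (zB B x))
  · have h1 := hA ρ hρ0 hρ1 d h.1 h.2
    obtain ⟨h2, h3⟩ := c4_max (x := x) (d := d) hρ1 hl (Nat.pos_of_ne_zero h.1.ne_zero)
    have h4 : |(μ d : ℝ) * max 0 (ρ - Real.log d / Real.log x)| ≤ 1 := by
      rw [abs_mul, abs_of_nonneg h2]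
      calc |((μ d : ℤ) : ℝ)| * _ ≤ 1 * 1 := mul_le_mul (c4_mu d) h3 h2 zero_le_one
        _ = 1 := one_mul 1
    have e : lamS x (zB B x) ρ d = (lamS x (zB B x) ρ d -
        (μ d : ℝ) * max 0 (ρ - Real.log d / Real.log x)) +
        (μ d : ℝ) * max 0 (ρ - Real.log d / Real.log x) := by ring
    rw [e]
    refine (abs_add_le _ _).trans ?_
    linarith
  · rw [c4_zero h, abs_zero]
    norm_num

theorem lamC_le (B jm : ℕ) (hB : 3 ≤ B) (η : ℝ) (hη : 0 < η) (hjm : ((jm : ℝ) + 1) * η ≤ 1) :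
    ∃ x₀ : ℕ, ∀ x : ℕ, x₀ ≤ x → ∀ j ≤ jm, ∀ d : ℕ, |lamC x (zB B x) η j d| ≤ 2 := by
  have hlog : Tendsto (fun x : ℕ => Real.log x) atTop atTop :=
    Real.tendsto_log_atTop.comp tendsto_natCast_atTop_atTop
  have hev := (C4_lamS_asymp B hB (1 / 2) (by norm_num)).and (hlog.eventually_gt_atTop 0)
  obtain ⟨x₀, hx₀⟩ := eventually_atTop.1 hev
  refine ⟨x₀, fun x hx j hj d => ?_⟩
  obtain ⟨hA, hl⟩ := hx₀ x hx
  have hj' : (j : ℝ) ≤ jm := by exact_mod_cast hj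
  have hj0 : (0 : ℝ) ≤ j := Nat.cast_nonneg j
  have hr0 : 0 ≤ (j : ℝ) * η := by positivity
  have hr1 : (j : ℝ) * η ≤ 1 := by nlinarith
  have hs0 : 0 ≤ ((j : ℝ) + 1) * η := by positivity
  have hs1 : ((j : ℝ) + 1) * η ≤ 1 := by nlinarith
  unfold lamC
  by_cases h : Squarefree d ∧ Nat.Coprime d (primorial (zB B x))
  · have h1 := hA _ hr0 hr1 d h.1 h.2
    have h2 := hA _ hs0 hs1 d h.1 h.2
    obtain ⟨h3, h4⟩ := c4_max (x := x) (d := d) hr1 hl (Nat.pos_of_ne_zero h.1.ne_zero)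
    obtain ⟨h5, h6⟩ := c4_max (x := x) (d := d) hs1 hl (Nat.pos_of_ne_zero h.1.ne_zero)
    set m := max 0 ((j : ℝ) * η - Real.log d / Real.log x) with hm
    set m' := max 0 (((j : ℝ) + 1) * η - Real.log d / Real.log x) with hm'
    have h7 : |(μ d : ℝ) * (m' - m)| ≤ 1 := by
      rw [abs_mul]
      have h8 : |m' - m| ≤ 1 := by
        rw [abs_le]
        constructor <;> linarith
      calc |((μ d : ℤ) : ℝ)| * _ ≤ 1 * 1 := mul_le_mul (c4_mu d) h8 (abs_nonneg _) zero_le_one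
        _ = 1 := one_mul 1
    rw [abs_le] at h1 h2 h7 ⊢
    constructor <;> linarith [h1.1, h1.2, h2.1, h2.2, h7.1, h7.2]
  · rw [c4_zero h, c4_zero h, sub_zero, abs_zero]
    norm_num

end Pool.Agent.Lib.MP_092512_nt.P3
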