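import Mathlib
import Pool.Agent.Lib.MP_092512_nt.P3.Defs
import Pool.Agent.Lib.MP_092512_nt.P3.C3
import Pool.Agent.Lib.MP_092512_nt.P3.C4

/-!
# C5: the coefficients `alp` of `LC_j LC_j'`

PROOFS.
* `LC_mul`: `LC_j m LC_j' m = ∑_{d ∣ m} ∑_{e ∣ m} lamC_j d lamC_j' e`; sort by `r = lcm d e ∣ m` (`d, e ∣ r ∣ m`).
* `alp_supp`: some `d, e` with `lcm d e = r` and `lamC_j d ≠ 0`, `lamC_j' e ≠ 0` (`C3_lamC_support`): the lcm of squarefree numbers is
  squarefree, the lcm of rough numbers is rough (`Nat.Coprime` of a divisor of `d e`), `r ≤ d e ≤ x^((j+1)η) x^((j'+1)η)`.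
* `alp_le`: if `r` is not squarefree, `alp = 0` (`alp_supp`). Else `|alp| ≤ 4 · #{(d,e) : lcm d e = r} = 4 · 3^ω(r)`
  (`lamC_le`; the pairs correspond to ordered pairs of subsets of `r.primeFactors` with union everything; Mathlib:
  `Nat.card_pair_lcm_eq : Squarefree n → #{p ∈ n.divisors ×ˢ n.divisors | p.1.lcm p.2 = n} = 3 ^ ω n`, so only
  `ω n = n.primeFactors.card` remains: `ArithmeticFunction.cardDistinctFactors_apply` and so on).
* `alp_sum`: for `x^(((j+1)+(j'+1))η) < R + 1`, `∑_{r ≤ R} alp r / r = ∑_{d ≤ R} ∑_{e ≤ R} lamC_j d lamC_j' e/[d,e]`: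
  the pairs `(d, e)` with nonzero product have `[d,e] ≤ d e ≤ x^(...)`, so `[d,e] ≤ R` (an integer `< R + 1`), `d, e ≤ R`.
* `alp_sum_ne`, `alp_sum_eq`: `C3_diag_ne`, `C3_diag_eq` (`x^((j+1)η) ≤ x^(((j+1)+(j'+1))η) < R + 1`) and `C2_Sd_limit` twice:
  `V log x (Sd(x^((j+1)η)) - Sd(x^(jη)))/(V log x)^2 → (j+1)η - jη = η`, `V log x ≠ 0` for large `x`; finitely many `j ≤ jm`.
-/

set_option autoImplicit false

open Finset Filter

open scoped ArithmeticFunction.Moebius

namespace Pool.Agent.Lib.MP_092512_nt.P3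

open Pool.Agent.Lib.SW

theorem LC_mul (x z : ℕ) (η : ℝ) (j j' m : ℕ) (hm : m ≠ 0) :
    LC x z η j m * LC x z η j' m = ∑ r ∈ m.divisors, alp x z η j j' r := by
  unfold LC alp
  rw [Finset.sum_mul_sum]
  have h1 : ∀ r ∈ m.divisors, (∑ d ∈ r.divisors, ∑ e ∈ r.divisors,
      if Nat.lcm d e = r then lamC x z η j d * lamC x z η j' e else 0) =
      ∑ d ∈ m.divisors, ∑ e ∈ m.divisors,
        if Nat.lcm d e = r then lamC x z η j d * lamC x z η j' e else 0 := by
    intro r hr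
    have hrm : r ∣ m := Nat.dvd_of_mem_divisors hr
    have hr0 : r ≠ 0 := fun h => hm (by rw [h] at hrm; exact Nat.eq_zero_of_zero_dvd hrm)
    have hsub : r.divisors ⊆ m.divisors := Nat.divisors_subset_of_dvd hm hrm
    rw [← Finset.sum_subset hsub]
    · apply Finset.sum_congr rfl
      intro d hd
      rw [← Finset.sum_subset hsub]
      intro e he hne
      rw [if_neg]
      intro hl
      apply hne
      rw [Nat.mem_divisors]
      exact ⟨hl ▸ Nat.dvd_lcm_right d e, hr0⟩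
    · intro d hd hne
      apply Finset.sum_eq_zero
      intro e he
      rw [if_neg]
      intro hl
      apply hne
      rw [Nat.mem_divisors]
      exact ⟨hl ▸ Nat.dvd_lcm_left d e, hr0⟩
  rw [Finset.sum_congr rfl h1]
  refine Eq.trans ?_ (Finset.sum_comm (s := m.divisors) (t := m.divisors))
  apply Finset.sum_congr rfl
  intro d hd
  refine Eq.trans ?_ (Finset.sum_comm (s := m.divisors) (t := m.divisors))
  apply Finset.sum_congr rfl
  intro e he
  rw [Finset.sum_ite_eq, if_pos]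
  rw [Nat.mem_divisors] at hd he ⊢
  exact ⟨Nat.lcm_dvd hd.1 he.1, hm⟩

theorem alp_supp (x z : ℕ) (hx : 1 ≤ x) (η : ℝ) (hη : 0 < η) (j j' r : ℕ)
    (hr : alp x z η j j' r ≠ 0) : Squarefree r ∧ Nat.Coprime r (primorial z) ∧
      (r : ℝ) ≤ (x : ℝ) ^ (((j : ℝ) + 1 + (j' + 1)) * η) := by
  unfold alp at hr
  obtain ⟨d, hd, hd2⟩ := Finset.exists_ne_zero_of_sum_ne_zero hr
  obtain ⟨e, he, he2⟩ := Finset.exists_ne_zero_of_sum_ne_zero hd2
  have hl : Nat.lcm d e = r := by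
    by_contra h
    rw [if_neg h] at he2
    exact he2 rfl
  rw [if_pos hl] at he2
  obtain ⟨h1, h2, h3⟩ := C3_lamC_support hx hη (left_ne_zero_of_mul he2)
  obtain ⟨h4, h5, h6⟩ := C3_lamC_support hx hη (right_ne_zero_of_mul he2)
  have hxp : (0 : ℝ) < x := by
    have : 0 < x := by omega
    exact_mod_cast this
  have hdvd : r ∣ d * e := hl ▸ Nat.lcm_dvd_mul d e
  refine ⟨?_, ?_, ?_⟩
  · rw [← hl, Nat.squarefree_iff_factorization_le_one (Nat.lcm_ne_zero h1.ne_zero h4.ne_zero)]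
    intro p
    rw [Nat.factorization_lcm h1.ne_zero h4.ne_zero, Finsupp.sup_apply]
    exact sup_le ((Nat.squarefree_iff_factorization_le_one h1.ne_zero).mp h1 p)
      ((Nat.squarefree_iff_factorization_le_one h4.ne_zero).mp h4 p)
  · exact Nat.Coprime.coprime_dvd_left hdvd (Nat.Coprime.mul_left h2 h5)
  · have h7 : r ≤ d * e := Nat.le_of_dvd (Nat.mul_pos (Nat.pos_of_ne_zero h1.ne_zero)
      (Nat.pos_of_ne_zero h4.ne_zero)) hdvd
    calc (r : ℝ) ≤ (d : ℝ) * e := by exact_mod_cast h7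
      _ ≤ (x : ℝ) ^ (((j : ℝ) + 1) * η) * (x : ℝ) ^ (((j' : ℝ) + 1) * η) := by
          apply mul_le_mul h3 h6 (by positivity) (by positivity)
      _ = (x : ℝ) ^ (((j : ℝ) + 1 + (j' + 1)) * η) := by
          rw [← Real.rpow_add hxp]
          congr 1
          ring

theorem alp_le (B jm : ℕ) (hB : 3 ≤ B) (η : ℝ) (hη : 0 < η) (hjm : ((jm : ℝ) + 1) * η ≤ 1) :
    ∃ x₀ : ℕ, ∀ x : ℕ, x₀ ≤ x → ∀ j ≤ jm, ∀ j' ≤ jm, ∀ r : ℕ,
      |alp x (zB B x) η j j' r| ≤ 4 * 3 ^ r.primeFactors.card := by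
  obtain ⟨x₀, hx₀⟩ := lamC_le B jm hB η hη hjm
  refine ⟨x₀ + 1, fun x hx j hj j' hj' r => ?_⟩
  by_cases hz : alp x (zB B x) η j j' r = 0
  · rw [hz, abs_zero]
    positivity
  obtain ⟨hsq, -, -⟩ := alp_supp x (zB B x) (by omega) η hη j j' r hz
  have hb := hx₀ x (by omega)
  unfold alp
  calc |∑ d ∈ r.divisors, ∑ e ∈ r.divisors,
      if Nat.lcm d e = r then lamC x (zB B x) η j d * lamC x (zB B x) η j' e else 0|
      ≤ ∑ d ∈ r.divisors, ∑ e ∈ r.divisors, (if Nat.lcm d e = r then (4 : ℝ) else 0) := by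
        refine (Finset.abs_sum_le_sum_abs _ _).trans (Finset.sum_le_sum fun d _ => ?_)
        refine (Finset.abs_sum_le_sum_abs _ _).trans (Finset.sum_le_sum fun e _ => ?_)
        split_ifs with h
        · rw [abs_mul]
          have h1 := hb j hj d
          have h2 := hb j' hj' e
          nlinarith [abs_nonneg (lamC x (zB B x) η j d), abs_nonneg (lamC x (zB B x) η j' e)]
        · rw [abs_zero]
    _ = 4 * 3 ^ r.primeFactors.card := by
        rw [← Finset.sum_product' (f := fun d e => if Nat.lcm d e = r then (4 : ℝ) else 0),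
          ← Finset.sum_filter, Finset.sum_const, Nat.card_pair_lcm_eq hsq, nsmul_eq_mul,
          ArithmeticFunction.cardDistinctFactors_apply]
        push_cast
        rw [mul_comm]
        rfl

end Pool.Agent.Lib.MP_092512_nt.P3
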