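import Mathlib
import Pool.Agent.Lib.MP_092512_nt.P3.Defs
import Pool.Agent.Lib.MP_092512_nt.P3.C1
import Pool.Agent.Lib.MP_092512_nt.P3.C2
import Pool.Agent.Lib.MP_092512_nt.P3.C3
import Pool.Agent.Lib.MP_092512_nt.P3.C3d
import Pool.Agent.Lib.MP_092512_nt.P3.C5

/-!
# C5: the coefficients `alp` of `LC_j LC_j'`

PROOFS.
* `LC_mul`: `LC_j m LC_j' m = ∑_{d ∣ m} ∑_{e ∣ m} lamC_j d lamC_j' e`; sort by `r = lcm d e ∣ m` (`d, e ∣ r ∣ m`).
* `alp_supp`: some `d, e` with `lcm d e = r` and `lamC_j d ≠ 0`, `lamC_j' e ≠ 0` (`C3_lamC_support`): the lcm of squarefree numbers is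
  squarefree, the lcm of rough numbers is rough (`Nat.Coprime` of a divisor of `d e`), `r ≤ d e ≤ x^((j+1)η) x^((j'+1)η)`.
* `alp_le`: if `r` is not squarefree, `alp = 0` (`alp_supp`). Else `|alp| ≤ 4 · #{(d,e) : lcm d e = r} = 4 · 3^ω(r)`
  (`lamC_le`; the pairs correspond to ordered pairs of subsets of `r.primeFactors` with union everything; Mathlib:
  `Nat.card_pair_lcm_eq : Squarefree n → #{p ∈ n.divisors ×ˢ n.divisors | p.1.lcm p.2 = n} = 3 ^ ω n`, so only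
  `ω n = n.primeFactors.card` remains: `ArithmeticFunction.cardDistinctFactors_apply` and so on).
* `alp_sum`: for `x^(((j+1)+(j'+1))η) < R + 1`, `∑_{r ≤ R} alp r / r = ∑_{d ≤ R} ∑_{e ≤ R} lamC_j d lamC_j' e/[d,e]`:
  the pairs `(d, e)` with nonzero product have `[d,e] ≤ d e ≤ x^(...)`, so `[d,e] ≤ R` (an integer `< R + 1`), `d, e ≤ R`.
* `alp_sum_ne`, `alp_sum_eq`: `C3_diag_ne`, `C3_diag_eq` (`x^((j+1)η) ≤ x^(((j+1)+(j'+1))η) < R + 1`) and `C2_Sd_limit` twice: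
  `V log x (Sd(x^((j+1)η)) - Sd(x^(jη)))/(V log x)^2 → (j+1)η - jη = η`, `V log x ≠ 0` for large `x`; finitely many `j ≤ jm`.
-/

set_option autoImplicit false

open Finset Filter

open scoped ArithmeticFunction.Moebius

namespace Pool.Agent.Lib.MP_092512_nt.P3

open Pool.Agent.Lib.SW

theorem C5b_alp_eq (x z : ℕ) (η : ℝ) (j j' R r : ℕ) (hr : r ∈ Icc 1 R) :
    alp x z η j j' r = ∑ d ∈ Icc 1 R, ∑ e ∈ Icc 1 R,
      if Nat.lcm d e = r then lamC x z η j d * lamC x z η j' e else 0 := by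
  rw [mem_Icc] at hr
  have hsub : r.divisors ⊆ Icc 1 R := by
    intro d hd
    rw [Nat.mem_divisors] at hd
    rw [mem_Icc]
    exact ⟨Nat.pos_of_dvd_of_pos hd.1 hr.1, (Nat.le_of_dvd hr.1 hd.1).trans hr.2⟩
  unfold alp
  have h1 : ∀ d, ∑ e ∈ r.divisors, (if Nat.lcm d e = r then lamC x z η j d * lamC x z η j' e else 0) =
      ∑ e ∈ Icc 1 R, if Nat.lcm d e = r then lamC x z η j d * lamC x z η j' e else 0 := by
    intro d
    refine sum_subset hsub fun e _ he => ?_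
    rw [if_neg]
    intro h
    exact he (Nat.mem_divisors.mpr ⟨h ▸ Nat.dvd_lcm_right d e, by omega⟩)
  simp_rw [h1]
  refine sum_subset hsub fun d _ hd => ?_
  refine sum_eq_zero fun e _ => ?_
  rw [if_neg]
  intro h
  exact hd (Nat.mem_divisors.mpr ⟨h ▸ Nat.dvd_lcm_left d e, by omega⟩)

theorem C5_alp_sum (x z : ℕ) (hx : 1 ≤ x) (η : ℝ) (hη : 0 < η) (j j' R : ℕ)
    (hR : (x : ℝ) ^ (((j : ℝ) + 1 + (j' + 1)) * η) < R + 1) :
    ∑ r ∈ Icc 1 R, alp x z η j j' r / r =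
      ∑ d ∈ Icc 1 R, ∑ e ∈ Icc 1 R, lamC x z η j d * lamC x z η j' e / (Nat.lcm d e : ℝ) := by
  have h1 : ∀ r ∈ Icc 1 R, alp x z η j j' r / r = ∑ d ∈ Icc 1 R, ∑ e ∈ Icc 1 R,
      if Nat.lcm d e = r then lamC x z η j d * lamC x z η j' e / (Nat.lcm d e : ℝ) else 0 := by
    intro r hr
    rw [C5b_alp_eq x z η j j' R r hr, sum_div]
    refine sum_congr rfl fun d _ => ?_
    rw [sum_div]
    refine sum_congr rfl fun e _ => ?_
    split_ifs with h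
    · rw [h]
    · rw [zero_div]
  rw [sum_congr rfl h1, sum_comm]
  refine sum_congr rfl fun d hd => ?_
  rw [sum_comm]
  refine sum_congr rfl fun e he => ?_
  rw [mem_Icc] at hd he
  rw [sum_ite_eq]
  split_ifs with h
  · rfl
  · by_cases hf : lamC x z η j d = 0 ∨ lamC x z η j' e = 0
    · rcases hf with hf | hf <;> rw [hf] <;> simp
    · push Not at hf
      exfalso
      apply h
      have h2 := (C3_lamC_support hx hη hf.1).2.2
      have h3 := (C3_lamC_support hx hη hf.2).2.2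
      have hx0 : (0 : ℝ) < x := by exact_mod_cast hx
      have h4 : ((Nat.lcm d e : ℕ) : ℝ) ≤ (d : ℝ) * e := by
        exact_mod_cast Nat.le_of_dvd (Nat.mul_pos hd.1 he.1) (Nat.lcm_dvd_mul d e)
      have h5 : (d : ℝ) * e ≤ (x : ℝ) ^ (((j : ℝ) + 1 + (j' + 1)) * η) := by
        rw [add_mul, Real.rpow_add hx0]
        exact mul_le_mul h2 h3 (by positivity) (by positivity)
      have h6 : ((Nat.lcm d e : ℕ) : ℝ) < ((R + 1 : ℕ) : ℝ) := by
        push_cast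
        linarith
      have h7 : Nat.lcm d e < R + 1 := by exact_mod_cast h6
      rw [mem_Icc]
      exact ⟨Nat.lcm_pos hd.1 he.1, by omega⟩

/-- exact orthogonality of different cells -/
theorem alp_sum_ne (x z : ℕ) (hx : 1 ≤ x) (η : ℝ) (hη : 0 < η) (j j' R : ℕ) (hj : j ≠ j')
    (hR : (x : ℝ) ^ (((j : ℝ) + 1 + (j' + 1)) * η) < R + 1) :
    ∑ r ∈ Icc 1 R, alp x z η j j' r / r = 0 := by
  have hx1 : (1 : ℝ) ≤ x := by exact_mod_cast hx
  rw [C5_alp_sum x z hx η hη j j' R hR]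
  refine C3_diag_ne x z hx η hη j j' R hj (lt_of_le_of_lt ?_ hR) (lt_of_le_of_lt ?_ hR) <;>
  · apply Real.rpow_le_rpow_of_exponent_le hx1
    have h1 : (0 : ℝ) ≤ j := Nat.cast_nonneg j
    have h2 : (0 : ℝ) ≤ j' := Nat.cast_nonneg j'
    nlinarith

theorem alp_sum_eq (B jm : ℕ) (hB : 3 ≤ B) (η : ℝ) (hη : 0 < η) (hjm : ((jm : ℝ) + 1) * η ≤ 1) (ε : ℝ)
    (hε : 0 < ε) : ∃ x₀ : ℕ, ∀ x : ℕ, x₀ ≤ x → ∀ j ≤ jm, ∀ R : ℕ,
      (x : ℝ) ^ (((j : ℝ) + 1 + (j + 1)) * η) < R + 1 →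
      |Vz (zB B x) * Real.log x * ∑ r ∈ Icc 1 R, alp x (zB B x) η j j r / r - η| ≤ ε := by
  have hlim : ∀ j ∈ range (jm + 1), ∀ᶠ x : ℕ in atTop,
      |Vz (zB B x) * Real.log x * ((Sd (zB B x) 1 ((x : ℝ) ^ (((j : ℝ) + 1) * η)) -
        Sd (zB B x) 1 ((x : ℝ) ^ ((j : ℝ) * η))) / (Vz (zB B x) * Real.log x) ^ 2) - η| ≤ ε := by
    intro j hj
    have hj' : (j : ℝ) ≤ jm := by
      have := mem_range.mp hj
      exact_mod_cast (by omega : j ≤ jm)
    have hj0 : (0 : ℝ) ≤ j := Nat.cast_nonneg j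
    have h1 := C2_Sd_limit B hB (((j : ℝ) + 1) * η) (by positivity) (by nlinarith)
    have h2 := C2_Sd_limit B hB ((j : ℝ) * η) (by positivity) (by nlinarith)
    have h3 := (h1.sub h2)
    rw [show ((j : ℝ) + 1) * η - (j : ℝ) * η = η by ring] at h3
    have h4 := Metric.tendsto_atTop.mp h3 ε hε
    obtain ⟨N, hN⟩ := h4
    have h5 : ∀ᶠ x : ℕ in atTop, 0 < Vz (zB B x) * Real.log x :=
      (C1_V_log_tendsto B (by omega)).eventually_gt_atTop 0
    filter_upwards [eventually_ge_atTop N, h5] with x hxN hV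
    have h6 := hN x hxN
    rw [Real.dist_eq] at h6
    have h7 : Vz (zB B x) * Real.log x * ((Sd (zB B x) 1 ((x : ℝ) ^ (((j : ℝ) + 1) * η)) -
        Sd (zB B x) 1 ((x : ℝ) ^ ((j : ℝ) * η))) / (Vz (zB B x) * Real.log x) ^ 2) =
        Sd (zB B x) 1 ((x : ℝ) ^ (((j : ℝ) + 1) * η)) / (Vz (zB B x) * Real.log x) -
          Sd (zB B x) 1 ((x : ℝ) ^ ((j : ℝ) * η)) / (Vz (zB B x) * Real.log x) := by
      field_simp
    rw [h7]
    exact h6.le
  have hall : ∀ᶠ x : ℕ in atTop, ∀ j ∈ range (jm + 1),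
      |Vz (zB B x) * Real.log x * ((Sd (zB B x) 1 ((x : ℝ) ^ (((j : ℝ) + 1) * η)) -
        Sd (zB B x) 1 ((x : ℝ) ^ ((j : ℝ) * η))) / (Vz (zB B x) * Real.log x) ^ 2) - η| ≤ ε :=
    (Filter.eventually_all_finset _).mpr hlim
  obtain ⟨x₀, hx₀⟩ := eventually_atTop.mp hall
  refine ⟨max 1 x₀, fun x hx j hj R hR => ?_⟩
  rw [max_le_iff] at hx
  have hx1 : (1 : ℝ) ≤ x := by exact_mod_cast hx.1
  rw [C5_alp_sum x (zB B x) hx.1 η hη j j R hR, C3_diag_eq x (zB B x) hx.1 η hη j R ?_]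
  · exact hx₀ x hx.2 j (mem_range.mpr (by omega))
  · refine lt_of_le_of_lt ?_ hR
    apply Real.rpow_le_rpow_of_exponent_le hx1
    have h1 : (0 : ℝ) ≤ j := Nat.cast_nonneg j
    nlinarith

end Pool.Agent.Lib.MP_092512_nt.P3
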