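import Mathlib
import Pool.Agent.Lib.MP_092512_nt.P3.Defs

/-!
# Auxiliary definitions of part D

`PP x a b`: the primes in `(x^a, x^b]`; `TS x h0 a = ∑ log b` over the primes `b` with `x + h0 < a b ≤ 2 x + h0`;
`lg x p = log p/log x`; `Om u w = u w (1 - u - w)`.
-/

set_option autoImplicit false

open Finset

namespace Pool.Agent.Lib.MP_092512_nt.P3

noncomputable def PP (x : ℕ) (a b : ℝ) : Finset ℕ :=
  (Ioc ⌊(x : ℝ) ^ a⌋₊ ⌊(x : ℝ) ^ b⌋₊).filter Nat.Prime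

noncomputable def TS (x h0 a : ℕ) : ℝ :=
  ∑ b ∈ (Icc 1 (2 * x + h0)).filter (fun b => b.Prime ∧ x + h0 < a * b ∧ a * b ≤ 2 * x + h0), Real.log b

noncomputable def lg (x p : ℕ) : ℝ := Real.log p / Real.log x

theorem mem_PP {x p : ℕ} {a b : ℝ} :
    p ∈ PP x a b ↔ p.Prime ∧ (x : ℝ) ^ a < p ∧ (p : ℝ) ≤ (x : ℝ) ^ b := by
  unfold PP
  rw [mem_filter, mem_Ioc]
  constructor
  · rintro ⟨⟨h1, h2⟩, h3⟩
    refine ⟨h3, (Nat.floor_lt (by positivity)).mp h1, (Nat.le_floor_iff (by positivity)).mp h2⟩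
  · rintro ⟨h3, h1, h2⟩
    exact ⟨⟨(Nat.floor_lt (by positivity)).mpr h1, (Nat.le_floor_iff (by positivity)).mpr h2⟩, h3⟩

theorem PP_lg {x p : ℕ} {a b : ℝ} (hx : 2 ≤ x) (hp : p ∈ PP x a b) : a < lg x p ∧ lg x p ≤ b := by
  obtain ⟨h3, h1, h2⟩ := mem_PP.mp hp
  have hx1 : (1 : ℝ) < x := by exact_mod_cast hx
  have hx0 : (0 : ℝ) < x := by linarith
  have hp0 : (0 : ℝ) < p := by exact_mod_cast h3.pos
  have hl : 0 < Real.log x := Real.log_pos hx1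
  unfold lg
  constructor
  · rw [lt_div_iff₀ hl, ← Real.log_rpow hx0]
    exact Real.log_lt_log (by positivity) h1
  · rw [div_le_iff₀ hl, ← Real.log_rpow hx0]
    exact Real.log_le_log hp0 h2

end Pool.Agent.Lib.MP_092512_nt.P3
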