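import Mathlib
import Pool.Agent.Lib.MP_092512_nt.P3.DDefs
import Pool.Agent.Lib.SW.SWFinal

/-!
# D0: primes in `(y, 2y]` (prime number theorem), and `∑ log p/p` over `(x^a, x^b]` (Mertens)

PROOFS.
* `D0_theta_asymp`: `|θ(y) - y| ≤ ε y` for `y ≥ Y0`: `SW.pnt 1` (it is `|ψ(y) - y| ≤ C y / log y`, with the Mathlib
  `Chebyshev.psi y = ∑_{n ∈ Ioc 0 ⌊y⌋₊} Λ n`) and `Chebyshev.abs_psi_sub_theta_le_sqrt_mul_log`.
* `D0_TS_asymp`: the primes `b` with `x + h0 < a b ≤ 2x + h0` are those in `(X1, X2]`, `X1 = (x+h0)/a`, `X2 = (2x+h0)/a` (real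
  quotients), so `TS x h0 a = θ(X2) - θ(X1)` and `|TS - x/a| ≤ ε'(X1 + X2) ≤ ε' (3x + 2 h0)/a ≤ 5 ε' x/a` for `x ≥ h0`, as soon as
  `X1 ≥ x/a ≥ x^(1-θ) ≥ Y0`.
* `D0_mertens`: from `Sieve.Mertens3.S_bound` (`|∑_{p < e^j} log p/p - j| ≤ C` for all natural `j`): for `y ≥ 1`,
  `|∑_{p ≤ y} log p/p - log y| ≤ C + 2` (take `j = ⌊log y⌋₊` and `j + 1`; the sum is monotone in `y`), so
  `|∑_{p ∈ PP x a b} log p/p - (b - a) log x| ≤ 2C + 4`; divide by `log x → ∞`.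
* `D0_sum_inv_le`: `1/p ≤ (1/a) lg x p / p` for `p ∈ PP x a b`; the sum of `lg x p/p` tends to `b - a`, so it is eventually
  `≤ b - a + 1`.
-/

set_option autoImplicit false

open Finset Filter

namespace Pool.Agent.Lib.MP_092512_nt.P3

theorem D0_theta_asymp (ε : ℝ) (hε : 0 < ε) : ∃ Y0 : ℝ, 2 ≤ Y0 ∧ ∀ y : ℝ, Y0 ≤ y →
    |Chebyshev.theta y - y| ≤ ε * y := by
  obtain ⟨C, hC, hpnt⟩ := Pool.Agent.Lib.SW.pnt 1
  have h1 : ∀ᶠ y : ℝ in atTop, 2 * C / ε ≤ Real.log y := Real.tendsto_log_atTop.eventually_ge_atTop _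
  have h2 : ∀ᶠ y : ℝ in atTop, ‖Real.log y‖ ≤ (ε / 4) * ‖y ^ ((1 : ℝ) / 2)‖ :=
    (isLittleO_log_rpow_atTop (by norm_num : (0 : ℝ) < 1 / 2)).bound (by positivity)
  obtain ⟨Y1, hY1⟩ := eventually_atTop.mp (h1.and h2)
  refine ⟨max Y1 2, le_max_right _ _, fun y hy => ?_⟩
  have hyY : Y1 ≤ y := le_trans (le_max_left _ _) hy
  have hy2 : 2 ≤ y := le_trans (le_max_right _ _) hy
  obtain ⟨h3, h4⟩ := hY1 y hyY
  have hy0 : 0 < y := by linarith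
  have hlog : 0 < Real.log y := Real.log_pos (by linarith)
  have h5 := hpnt y hy2
  rw [pow_one] at h5
  have e1 : ∑ n ∈ Finset.Icc 1 ⌊y⌋₊, ArithmeticFunction.vonMangoldt n = Chebyshev.psi y := by
    unfold Chebyshev.psi
    refine Finset.sum_congr ?_ (fun _ _ => rfl)
    ext n
    simp only [mem_Icc, mem_Ioc]
    omega
  rw [e1] at h5
  have h6 := Chebyshev.abs_psi_sub_theta_le_sqrt_mul_log (x := y) (by linarith)
  have h7 : C * y / Real.log y ≤ ε / 2 * y := by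
    rw [div_le_iff₀ hlog]
    have : C ≤ ε / 2 * Real.log y := by
      have h8 : 2 * C ≤ Real.log y * ε := by
        rwa [div_le_iff₀ hε] at h3
      linarith
    nlinarith
  have h9 : 2 * Real.sqrt y * Real.log y ≤ ε / 2 * y := by
    rw [Real.norm_of_nonneg hlog.le, Real.norm_of_nonneg (by positivity), ← Real.sqrt_eq_rpow] at h4
    have hs : 0 ≤ Real.sqrt y := Real.sqrt_nonneg y
    have hss : Real.sqrt y * Real.sqrt y = y := Real.mul_self_sqrt hy0.le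
    nlinarith [mul_le_mul_of_nonneg_left h4 hs]
  calc |Chebyshev.theta y - y| = |(Chebyshev.psi y - y) - (Chebyshev.psi y - Chebyshev.theta y)| := by
        congr 1; ring
    _ ≤ |Chebyshev.psi y - y| + |Chebyshev.psi y - Chebyshev.theta y| := abs_sub _ _
    _ ≤ ε / 2 * y + ε / 2 * y := add_le_add (le_trans h5 h7) (le_trans h6 h9)
    _ = ε * y := by ring

private theorem D0_TS_eq (x h0 a : ℕ) (ha : 1 ≤ a) :
    TS x h0 a = Chebyshev.theta (((2 * x + h0 : ℕ) : ℝ) / a) - Chebyshev.theta (((x + h0 : ℕ) : ℝ) / a) := by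
  have ha0 : (0 : ℝ) < a := by exact_mod_cast ha
  have hle : ⌊((x + h0 : ℕ) : ℝ) / a⌋₊ ≤ ⌊((2 * x + h0 : ℕ) : ℝ) / a⌋₊ := by
    apply Nat.floor_le_floor
    apply div_le_div_of_nonneg_right _ ha0.le
    exact_mod_cast (by omega : x + h0 ≤ 2 * x + h0)
  unfold TS Chebyshev.theta
  rw [eq_sub_iff_add_eq]
  rw [← Finset.sum_union]
  · refine Finset.sum_congr ?_ (fun _ _ => rfl)
    ext b
    simp only [mem_union, mem_filter, mem_Icc, mem_Ioc]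
    have k1 : b ≤ ⌊((2 * x + h0 : ℕ) : ℝ) / a⌋₊ ↔ a * b ≤ 2 * x + h0 := by
      rw [Nat.le_floor_iff (by positivity), le_div_iff₀ ha0]
      rw [mul_comm a b]
      exact_mod_cast Iff.rfl
    have k2 : b ≤ ⌊((x + h0 : ℕ) : ℝ) / a⌋₊ ↔ a * b ≤ x + h0 := by
      rw [Nat.le_floor_iff (by positivity), le_div_iff₀ ha0]
      rw [mul_comm a b]
      exact_mod_cast Iff.rfl
    rw [k1, k2]
    have k3 : b ≤ a * b := Nat.le_mul_of_pos_left b ha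
    constructor
    · rintro (⟨⟨h1, h2⟩, h3, h4, h5⟩ | ⟨⟨h1, h2⟩, h3⟩)
      · exact ⟨⟨h1, h5⟩, h3⟩
      · exact ⟨⟨h1, by omega⟩, h3⟩
    · rintro ⟨⟨h1, h2⟩, h3⟩
      by_cases h : a * b ≤ x + h0
      · right; exact ⟨⟨h1, h⟩, h3⟩
      · left; exact ⟨⟨h1, by omega⟩, h3, by omega, h2⟩
  · rw [Finset.disjoint_left]
    intro b hb hb'
    simp only [mem_filter, mem_Icc, mem_Ioc] at hb hb'
    have k2 : b ≤ ⌊((x + h0 : ℕ) : ℝ) / a⌋₊ ↔ a * b ≤ x + h0 := by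
      rw [Nat.le_floor_iff (by positivity), le_div_iff₀ ha0]
      rw [mul_comm a b]
      exact_mod_cast Iff.rfl
    have := k2.mp hb'.1.2
    omega

theorem D0_TS_asymp (h0 : ℕ) (κ : ℝ) (hκ : 0 < κ) (ε : ℝ) (hε : 0 < ε) : ∀ᶠ x : ℕ in atTop,
    ∀ a : ℕ, 1 ≤ a → (a : ℝ) ≤ (x : ℝ) ^ (1 - κ) → |TS x h0 a - (x : ℝ) / a| ≤ ε * ((x : ℝ) / a) := by
  obtain ⟨Y0, hY2, hY⟩ := D0_theta_asymp (ε / 5) (by positivity)
  have h1 : ∀ᶠ x : ℕ in atTop, Y0 ≤ (x : ℝ) ^ κ :=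
    ((tendsto_rpow_atTop hκ).comp tendsto_natCast_atTop_atTop).eventually_ge_atTop Y0
  filter_upwards [h1, eventually_ge_atTop h0, eventually_ge_atTop 1] with x hx1 hx2 hx3 a ha hax
  have ha0 : (0 : ℝ) < a := by exact_mod_cast ha
  have hx0 : (0 : ℝ) < x := by exact_mod_cast hx3
  have hh : (h0 : ℝ) ≤ x := by exact_mod_cast hx2
  have hh0 : (0 : ℝ) ≤ h0 := Nat.cast_nonneg _
  have hbig : Y0 ≤ (x : ℝ) / a := by
    rw [le_div_iff₀ ha0]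
    calc Y0 * a ≤ (x : ℝ) ^ κ * (x : ℝ) ^ (1 - κ) := by
          apply mul_le_mul hx1 hax ha0.le (by positivity)
      _ = x := by
          rw [← Real.rpow_add hx0]
          rw [show κ + (1 - κ) = 1 by ring, Real.rpow_one]
  have e1 : (((x + h0 : ℕ) : ℝ) / a) = (x : ℝ) / a + h0 / a := by push_cast; ring
  have e2 : (((2 * x + h0 : ℕ) : ℝ) / a) = 2 * ((x : ℝ) / a) + h0 / a := by push_cast; ring
  have hxa : 0 < (x : ℝ) / a := by positivity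
  have hha : 0 ≤ (h0 : ℝ) / a := by positivity
  have hha' : (h0 : ℝ) / a ≤ (x : ℝ) / a := div_le_div_of_nonneg_right hh ha0.le
  rw [D0_TS_eq x h0 a ha, e1, e2]
  have t1 := hY ((x : ℝ) / a + h0 / a) (by linarith)
  have t2 := hY (2 * ((x : ℝ) / a) + h0 / a) (by linarith)
  rw [abs_le] at t1 t2 ⊢
  constructor <;> nlinarith [t1.1, t1.2, t2.1, t2.2, mul_le_mul_of_nonneg_left hha' hε.le]

end Pool.Agent.Lib.MP_092512_nt.P3
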