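import Mathlib
import Pool.Agent.Lib.MP_092512_nt.P3.DDefs
import Pool.Agent.Lib.Sieve.Mertens3

/-!
# D0: primes in `(y, 2y]` (prime number theorem), and `∑ log p/p` over `(x^a, x^b]` (Mertens)

PROOFS.
* `D0_theta_asymp`: `|θ(y) - y| ≤ ε y` for `y ≥ Y0`: `SW.pnt 1` (it is `|ψ(y) - y| ≤ C y / log y`, with the Mathlib
  `Chebyshev.psi y = ∑_{n ∈ Ioc 0 ⌊y⌋₊} Λ n`) and `Chebyshev.abs_psi_sub_theta_le_sqrt_mul_log`.
* `D0_TS_asymp`: the primes `b` with `x + h0 < a b ≤ 2x + h0` are those in `(X1, X2]`, `X1 = (x+h0)/a`, `X2 = (2x+h0)/a` (real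
  quotients), so `TS x h0 a = θ(X2) - θ(X1)` and `|TS - x/a| ≤ ε'(X1 + X2) ≤ ε' (3x + 2 h0)/a ≤ 5 ε' x/a` for `x ≥ h0`, as soon as
  `X1 ≥ x/a ≥ x^(1-θ) ≥ Y0`.
* `D0_mertens`: from `Sieve.Mertens3.S_bound` (`|∑_{p < e^j} log p/p - j| ≤ C` for all natural `j`): for `y ≥ 1`,
  `|∑_{p ≤ y} log p/p - log y| ≤ C + 2` (take `j = ⌊log y⌋₊` and `j + 1`; the sum is monotone in `y`), so
  `|∑_{p ∈ PP x a b} log p/p - (b - a) log x| ≤ 2C + 4`; divide by `log x → ∞`.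
* `D0_sum_inv_le`: `1/p ≤ (1/a) lg x p / p` for `p ∈ PP x a b`; the sum of `lg x p/p` tends to `b - a`, so it is eventually
  `≤ b - a + 1`.
-/

set_option autoImplicit false

open Finset Filter

namespace Pool.Agent.Lib.MP_092512_nt.P3

private noncomputable def D0m_T (y : ℝ) : ℝ :=
  ∑ p ∈ (Ioc 0 ⌊y⌋₊).filter Nat.Prime, Real.log p / (p : ℝ)

private theorem D0m_T_bound : ∃ C : ℝ, 0 < C ∧ ∀ y : ℝ, 1 ≤ y → |D0m_T y - Real.log y| ≤ C := by
  obtain ⟨C, hC, hS⟩ := Sieve.Mertens3.S_bound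
  refine ⟨C + 1, by positivity, fun y hy => ?_⟩
  have hy0 : 0 < y := by linarith
  have hl0 : 0 ≤ Real.log y := Real.log_nonneg hy
  obtain ⟨j, hj⟩ : ∃ j : ℕ, j = ⌊Real.log y⌋₊ := ⟨_, rfl⟩
  have hj1 : (j : ℝ) ≤ Real.log y := by rw [hj]; exact Nat.floor_le hl0
  have hj2 : Real.log y < j + 1 := by rw [hj]; exact Nat.lt_floor_add_one _
  have he1 : Real.exp j ≤ y := by
    rw [← Real.le_log_iff_exp_le hy0]
    exact hj1
  have he2 : y < Real.exp ((j + 1 : ℕ) : ℝ) := by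
    rw [← Real.log_lt_iff_lt_exp hy0]
    push_cast
    exact hj2
  have hterm : ∀ p : ℕ, 0 ≤ Real.log p / (p : ℝ) := fun p =>
    div_nonneg (Real.log_natCast_nonneg p) (Nat.cast_nonneg p)
  have h1 : Sieve.Mertens3.S j ≤ D0m_T y := by
    unfold Sieve.Mertens3.S D0m_T
    refine sum_le_sum_of_subset_of_nonneg ?_ fun p _ _ => hterm p
    intro p hp
    rw [Sieve.Mertens3.mem_PB] at hp
    rw [mem_filter, mem_Ioc]
    exact ⟨⟨hp.2.pos, Nat.le_floor (hp.1.le.trans he1)⟩, hp.2⟩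
  have h2 : D0m_T y ≤ Sieve.Mertens3.S (j + 1) := by
    unfold Sieve.Mertens3.S D0m_T
    refine sum_le_sum_of_subset_of_nonneg ?_ fun p _ _ => hterm p
    intro p hp
    rw [mem_filter, mem_Ioc] at hp
    rw [Sieve.Mertens3.mem_PB]
    exact ⟨lt_of_le_of_lt ((Nat.le_floor_iff hy0.le).mp hp.1.2) he2, hp.2⟩
  have h3 := abs_le.mp (hS j)
  have h4 := abs_le.mp (hS (j + 1))
  push_cast at h4
  rw [abs_le]
  constructor
  · linarith [h3.1]
  · linarith [h4.2]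

private theorem D0m_PP (x : ℕ) (hx : 1 ≤ x) (a b : ℝ) (hab : a ≤ b) :
    ∑ p ∈ PP x a b, Real.log p / (p : ℝ) = D0m_T ((x : ℝ) ^ b) - D0m_T ((x : ℝ) ^ a) := by
  have hx1 : (1 : ℝ) ≤ x := by exact_mod_cast hx
  have hle : ⌊(x : ℝ) ^ a⌋₊ ≤ ⌊(x : ℝ) ^ b⌋₊ :=
    Nat.floor_le_floor (Real.rpow_le_rpow_of_exponent_le hx1 hab)
  have h1 : (Ioc 0 ⌊(x : ℝ) ^ b⌋₊).filter Nat.Prime =
      (Ioc 0 ⌊(x : ℝ) ^ a⌋₊).filter Nat.Prime ∪ PP x a b := by
    unfold PP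
    rw [← filter_union, Ioc_union_Ioc_eq_Ioc (Nat.zero_le _) hle]
  have h2 : Disjoint ((Ioc 0 ⌊(x : ℝ) ^ a⌋₊).filter Nat.Prime) (PP x a b) := by
    unfold PP
    refine disjoint_filter_filter ?_
    exact Ioc_disjoint_Ioc_of_le le_rfl
  unfold D0m_T
  rw [h1, sum_union h2]
  ring

theorem D0_mertens (a b : ℝ) (ha : 0 < a) (hab : a ≤ b) :
    Tendsto (fun x : ℕ => ∑ p ∈ PP x a b, lg x p / (p : ℝ)) atTop (nhds (b - a)) := by
  obtain ⟨C, hC, hT⟩ := D0m_T_bound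
  have hlog : Tendsto (fun x : ℕ => Real.log (x : ℝ)) atTop atTop :=
    Real.tendsto_log_atTop.comp tendsto_natCast_atTop_atTop
  rw [tendsto_iff_norm_sub_tendsto_zero]
  have h0 : Tendsto (fun x : ℕ => 2 * C / Real.log (x : ℝ)) atTop (nhds 0) :=
    hlog.const_div_atTop _
  refine squeeze_zero' (Eventually.of_forall fun x => norm_nonneg _) ?_ h0
  filter_upwards [eventually_ge_atTop 2] with x hx2
  have hx1 : (1 : ℝ) < x := by exact_mod_cast hx2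
  have hx0 : (0 : ℝ) < x := by linarith
  have hl : 0 < Real.log x := Real.log_pos hx1
  have h1 : ∑ p ∈ PP x a b, lg x p / (p : ℝ) =
      (∑ p ∈ PP x a b, Real.log p / (p : ℝ)) / Real.log x := by
    rw [sum_div]
    refine sum_congr rfl fun p _ => ?_
    unfold lg
    ring
  have h2 := hT ((x : ℝ) ^ b) (Real.one_le_rpow hx1.le (by linarith))
  have h3 := hT ((x : ℝ) ^ a) (Real.one_le_rpow hx1.le ha.le)
  rw [Real.log_rpow hx0] at h2 h3
  rw [h1, D0m_PP x (by omega) a b hab, Real.norm_eq_abs]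
  have h4 : (D0m_T ((x : ℝ) ^ b) - D0m_T ((x : ℝ) ^ a)) / Real.log x - (b - a) =
      ((D0m_T ((x : ℝ) ^ b) - b * Real.log x) - (D0m_T ((x : ℝ) ^ a) - a * Real.log x)) / Real.log x := by
    field_simp
    ring
  rw [h4, abs_div, abs_of_pos hl]
  refine div_le_div_of_nonneg_right ?_ hl.le
  have h5 := abs_sub (D0m_T ((x : ℝ) ^ b) - b * Real.log x) (D0m_T ((x : ℝ) ^ a) - a * Real.log x)
  linarith

theorem D0_sum_inv_le (a b : ℝ) (ha : 0 < a) (hab : a ≤ b) : ∀ᶠ x : ℕ in atTop,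
    ∑ p ∈ PP x a b, 1 / (p : ℝ) ≤ (b - a + 1) / a := by
  have h1 := (D0_mertens a b ha hab).eventually (Iic_mem_nhds (show b - a < b - a + 1 by linarith))
  filter_upwards [h1, eventually_ge_atTop 2] with x hx hx2
  have hx' : ∑ p ∈ PP x a b, lg x p / (p : ℝ) ≤ b - a + 1 := hx
  rw [le_div_iff₀ ha, sum_mul]
  refine le_trans ?_ hx'
  refine sum_le_sum fun p hp => ?_
  have hpp := (mem_PP.mp hp).1
  have hp0 : (0 : ℝ) < p := by exact_mod_cast hpp.pos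
  have h2 := (PP_lg hx2 hp).1
  rw [one_div_mul_eq_div]
  exact div_le_div_of_nonneg_right h2.le hp0.le

end Pool.Agent.Lib.MP_092512_nt.P3
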