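import Mathlib
import Pool.Agent.Lib.MP_092512_nt.P3.DDefs
import Pool.Agent.Lib.MP_092512_nt.P3.D0m

/-!
# D1: sums of continuous functions of `log p/log x` over primes tend to integrals

The measures `∑_{p ∈ PP x a b} (lg x p/p) δ_{lg x p}` tend to `du` on `[a, b]` (`D0_mertens`).

PROOFS.
* splitting: for `a ≤ c ≤ b`, `∑_{PP x a b} f = ∑_{PP x a c} f + ∑_{PP x c b} f` (`x ≥ 1`); by induction for the equidistant grid
  `t_i = a + i (b-a)/n`, `i ≤ n`.
* `D1_one`: for `ε > 0` take (uniform continuity on the compact `Icc a b`) `n` with `|ψ u - ψ u'| ≤ ε` for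
  `|u - u'| ≤ (b-a)/n`. On the i-th piece the sum differs from `ψ(t_i) ∑_{PP x t_i t_{i+1}} lg/p` by at most `ε ∑ lg/p`, and the
  integral `∫_{t_i}^{t_{i+1}} ψ` from `ψ(t_i) (t_{i+1} - t_i)` by at most `ε (t_{i+1} - t_i)`. Hence
  `|∑ - ∫| ≤ ∑_i |ψ(t_i)| |∑_{PP x t_i t_{i+1}} lg/p - (t_{i+1} - t_i)| + ε (b - a + 1) + ε (b - a)` for large `x`, and the first sum
  tends to `0`.
* `D1_two`: fix `ε`, take a grid `t_i` of `[a, b]` with `|Ψ(u, w) - Ψ(u', w)| ≤ ε` for `|u - u'| ≤ (b-a)/n`, all `w ∈ [c, d]`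
  (uniform continuity on the compact rectangle). Replace `Ψ(u, w)` by `Ψ(t_i, w)` on the i-th piece: error
  `≤ ε (∑_p lg/p)(∑_q lg/q)` in the sum, `≤ ε (b-a)(d-c)` in the integral; the replaced sum is
  `∑_i (∑_{p ∈ PP x t_i t_{i+1}} lg/p) (∑_{q} Ψ(t_i, lg q) lg q/q) → ∑_i (t_{i+1} - t_i) ∫_c^d Ψ(t_i, w) dw` (`D0_mertens`, `D1_one`),
  which is the replaced integral.
* `D1_diag` (symmetric `Ψ`): `∑_p ∑_q = 2 ∑_p ∑_{q > p} + ∑_{p = q}`, and the diagonal is at most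
  `M b^2 ∑_{p ∈ PP x a b} 1/p^2 ≤ M b^2 x^(-a) ∑_{p} 1/p → 0` (`p > x^a`, `D0_sum_inv_le`; `|Ψ| ≤ M` on the compact square).
-/

set_option autoImplicit false

open Finset Filter

namespace Pool.Agent.Lib.MP_092512_nt.P3

theorem D1_tendsto_of {f : ℕ → ℝ} {L : ℝ} (h : ∀ ε : ℝ, 0 < ε → ∀ᶠ x : ℕ in atTop, |f x - L| ≤ ε) :
    Tendsto f atTop (nhds L) := by
  rw [Metric.tendsto_nhds]
  intro ε hε
  filter_upwards [h (ε / 2) (half_pos hε)] with x hx
  rw [Real.dist_eq]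
  linarith

theorem D1_split {x : ℕ} (hx : 1 ≤ x) {a b c : ℝ} (hac : a ≤ c) (hcb : c ≤ b) (f : ℕ → ℝ) :
    ∑ p ∈ PP x a b, f p = ∑ p ∈ PP x a c, f p + ∑ p ∈ PP x c b, f p := by
  have hx1 : (1 : ℝ) ≤ x := by exact_mod_cast hx
  have h1 : (x : ℝ) ^ a ≤ (x : ℝ) ^ c := Real.rpow_le_rpow_of_exponent_le hx1 hac
  have h2 : (x : ℝ) ^ c ≤ (x : ℝ) ^ b := Real.rpow_le_rpow_of_exponent_le hx1 hcb
  have hdis : Disjoint (PP x a c) (PP x c b) := by
    rw [Finset.disjoint_left]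
    intro p hp hq
    have h3 := (mem_PP.mp hp).2.2
    have h4 := (mem_PP.mp hq).2.1
    linarith
  rw [← Finset.sum_union hdis]
  refine Finset.sum_congr ?_ fun _ _ => rfl
  ext p
  rw [mem_union, mem_PP, mem_PP, mem_PP]
  constructor
  · rintro ⟨hp, h3, h4⟩
    rcases le_or_gt (p : ℝ) ((x : ℝ) ^ c) with h5 | h5
    · exact Or.inl ⟨hp, h3, h5⟩
    · exact Or.inr ⟨hp, h5, h4⟩
  · rintro (⟨hp, h3, h4⟩ | ⟨hp, h3, h4⟩)
    · exact ⟨hp, h3, h4.trans h2⟩
    · exact ⟨hp, lt_of_le_of_lt h1 h3, h4⟩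

theorem D1_PP_self (x : ℕ) (a : ℝ) (f : ℕ → ℝ) : ∑ p ∈ PP x a a, f p = 0 := by
  apply Finset.sum_eq_zero
  intro p hp
  obtain ⟨_, h1, h2⟩ := mem_PP.mp hp
  linarith

theorem D1_grid {x : ℕ} (hx : 1 ≤ x) (t : ℕ → ℝ) (ht : ∀ i, t i ≤ t (i + 1)) (n : ℕ) (f : ℕ → ℝ) :
    ∑ p ∈ PP x (t 0) (t n), f p = ∑ i ∈ range n, ∑ p ∈ PP x (t i) (t (i + 1)), f p := by
  induction n with
  | zero => rw [D1_PP_self, Finset.sum_range_zero]
  | succ n ih =>
    have hm : t 0 ≤ t n := by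
      have : Monotone t := monotone_nat_of_le_succ ht
      exact this (Nat.zero_le n)
    rw [Finset.sum_range_succ, ← ih, D1_split hx hm (ht n)]

theorem D1_wt_nonneg {x p : ℕ} : 0 ≤ lg x p / (p : ℝ) := by
  unfold lg
  have h1 : 0 ≤ Real.log (p : ℝ) := Real.log_natCast_nonneg p
  have h2 : 0 ≤ Real.log (x : ℝ) := Real.log_natCast_nonneg x
  positivity

theorem D1_one (a b : ℝ) (ha : 0 < a) (hab : a ≤ b) (ψ : ℝ → ℝ) (hψ : ContinuousOn ψ (Set.Icc a b)) :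
    Tendsto (fun x : ℕ => ∑ p ∈ PP x a b, ψ (lg x p) * (lg x p / (p : ℝ))) atTop
      (nhds (∫ u in a..b, ψ u)) := by
  apply D1_tendsto_of
  intro ε hε
  obtain ⟨ε1, hε1⟩ : ∃ e : ℝ, e = ε / (2 * (b - a) + 2) := ⟨_, rfl⟩
  have hba : 0 ≤ b - a := by linarith
  have hden : 0 < 2 * (b - a) + 2 := by linarith
  have hε10 : 0 < ε1 := by rw [hε1]; positivity
  have hu := isCompact_Icc.uniformContinuousOn_of_continuous hψ
  rw [Metric.uniformContinuousOn_iff] at hu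
  obtain ⟨δ, hδ, hu⟩ := hu ε1 hε10
  obtain ⟨n, hn⟩ := exists_nat_gt ((b - a) / δ)
  have hn0 : 0 < (n : ℝ) := lt_of_le_of_lt (by positivity) hn
  obtain ⟨h, hh⟩ : ∃ h : ℝ, h = (b - a) / n := ⟨_, rfl⟩
  have hh0 : 0 ≤ h := by rw [hh]; positivity
  have hhδ : h < δ := by
    rw [hh, div_lt_iff₀ hn0]
    rw [div_lt_iff₀ hδ] at hn
    linarith
  obtain ⟨t, ht⟩ : ∃ t : ℕ → ℝ, t = fun i : ℕ => a + (i : ℝ) * h := ⟨_, rfl⟩
  have htd : ∀ i, t (i + 1) = t i + h := by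
    intro i
    rw [ht]
    push_cast
    ring
  have htm : ∀ i, t i ≤ t (i + 1) := fun i => by rw [htd]; linarith
  have ht0 : t 0 = a := by rw [ht]; simp
  have htn : t n = b := by
    rw [ht, hh]
    simp only
    field_simp
    ring
  have hta : ∀ i, a ≤ t i := by
    intro i
    rw [ht]
    have : 0 ≤ (i : ℝ) * h := by positivity
    simp only
    linarith
  have htb : ∀ i, i ≤ n → t i ≤ b := by
    intro i hi
    have : Monotone t := monotone_nat_of_le_succ htm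
    rw [← htn]
    exact this hi
  have hosc : ∀ i, i < n → ∀ u, t i ≤ u → u ≤ t (i + 1) → |ψ u - ψ (t i)| ≤ ε1 := by
    intro i hi u h1 h2
    have hub : u ≤ b := h2.trans (htb (i + 1) hi)
    have h3 := hu u ⟨(hta i).trans h1, hub⟩ (t i) ⟨hta i, htb i hi.le⟩ (by
      rw [Real.dist_eq, abs_of_nonneg (by linarith)]
      rw [htd] at h2
      linarith)
    rw [Real.dist_eq] at h3
    exact h3.le
  have hM : ∀ i, Tendsto (fun x : ℕ => ∑ p ∈ PP x (t i) (t (i + 1)), lg x p / (p : ℝ)) atTop (nhds h) := by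
    intro i
    have h1 := D0_mertens (t i) (t (i + 1)) (lt_of_lt_of_le ha (hta i)) (htm i)
    have h2 : t (i + 1) - t i = h := by rw [htd]; ring
    rwa [h2] at h1
  have hMs : Tendsto (fun x : ℕ => ∑ i ∈ range n, |ψ (t i)| *
      |∑ p ∈ PP x (t i) (t (i + 1)), lg x p / (p : ℝ) - h|) atTop (nhds 0) := by
    have h1 : (0 : ℝ) = ∑ i ∈ range n, |ψ (t i)| * |h - h| := by simp
    rw [h1]
    apply tendsto_finsetSum
    intro i _
    exact (((hM i).sub_const h).abs).const_mul _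
  have hMa := D0_mertens a b ha hab
  filter_upwards [eventually_ge_atTop 2, hMs.eventually (ge_mem_nhds hε10),
    hMa.eventually (ge_mem_nhds (show b - a < b - a + 1 by linarith))] with x hx2 hx3 hx4
  have hx1 : 1 ≤ x := by omega
  have e1 : ∑ p ∈ PP x a b, ψ (lg x p) * (lg x p / (p : ℝ)) =
      ∑ i ∈ range n, ∑ p ∈ PP x (t i) (t (i + 1)), ψ (lg x p) * (lg x p / (p : ℝ)) := by
    have := D1_grid hx1 t htm n (fun p => ψ (lg x p) * (lg x p / (p : ℝ)))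
    rwa [ht0, htn] at this
  have e1' : ∑ p ∈ PP x a b, (lg x p / (p : ℝ)) =
      ∑ i ∈ range n, ∑ p ∈ PP x (t i) (t (i + 1)), (lg x p / (p : ℝ)) := by
    have := D1_grid hx1 t htm n (fun p => (lg x p / (p : ℝ)))
    rwa [ht0, htn] at this
  have hint : ∀ i, i < n → IntervalIntegrable ψ MeasureTheory.volume (t i) (t (i + 1)) := by
    intro i hi
    apply ContinuousOn.intervalIntegrable
    apply hψ.mono
    rw [Set.uIcc_of_le (htm i)]
    exact Set.Icc_subset_Icc (hta i) (htb (i + 1) hi)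
  have e2 : ∫ u in a..b, ψ u = ∑ i ∈ range n, ∫ u in (t i)..(t (i + 1)), ψ u := by
    rw [intervalIntegral.sum_integral_adjacent_intervals hint, ht0, htn]
  rw [e1, e2, ← Finset.sum_sub_distrib]
  have key : ∀ i ∈ range n, |∑ p ∈ PP x (t i) (t (i + 1)), ψ (lg x p) * (lg x p / (p : ℝ)) -
      ∫ u in (t i)..(t (i + 1)), ψ u| ≤ ε1 * ∑ p ∈ PP x (t i) (t (i + 1)), lg x p / (p : ℝ) +
        |ψ (t i)| * |∑ p ∈ PP x (t i) (t (i + 1)), lg x p / (p : ℝ) - h| + ε1 * h := by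
    intro i hi
    have hi' := mem_range.mp hi
    have k1 : |∑ p ∈ PP x (t i) (t (i + 1)), ψ (lg x p) * (lg x p / (p : ℝ)) -
        ψ (t i) * ∑ p ∈ PP x (t i) (t (i + 1)), lg x p / (p : ℝ)| ≤
        ε1 * ∑ p ∈ PP x (t i) (t (i + 1)), lg x p / (p : ℝ) := by
      rw [Finset.mul_sum, ← Finset.sum_sub_distrib, Finset.mul_sum]
      refine (Finset.abs_sum_le_sum_abs _ _).trans (Finset.sum_le_sum fun p hp => ?_)
      rw [← sub_mul, abs_mul, abs_of_nonneg D1_wt_nonneg]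
      obtain ⟨h1, h2⟩ := PP_lg hx2 hp
      exact mul_le_mul_of_nonneg_right (hosc i hi' _ h1.le h2) D1_wt_nonneg
    have k2 : |∫ u in (t i)..(t (i + 1)), ψ u - ψ (t i)| ≤ ε1 * h := by
      have h1 := intervalIntegral.norm_integral_le_of_norm_le_const (a := t i) (b := t (i + 1))
        (f := fun u => ψ u - ψ (t i)) (C := ε1) (fun u hu => by
          rw [Set.uIoc_of_le (htm i)] at hu
          rw [Real.norm_eq_abs]
          exact hosc i hi' u hu.1.le hu.2)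
      have h2 : |t (i + 1) - t i| = h := by
        rw [htd, add_sub_cancel_left, abs_of_nonneg hh0]
      rwa [h2, Real.norm_eq_abs] at h1
    have k3 : ∫ u in (t i)..(t (i + 1)), (ψ u - ψ (t i)) = (∫ u in (t i)..(t (i + 1)), ψ u) - ψ (t i) * h := by
      rw [intervalIntegral.integral_sub (hint i hi') intervalIntegrable_const,
        intervalIntegral.integral_const, htd, add_sub_cancel_left, smul_eq_mul, mul_comm h]
    rw [k3] at k2
    have k4 : ∑ p ∈ PP x (t i) (t (i + 1)), ψ (lg x p) * (lg x p / (p : ℝ)) -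
        ∫ u in (t i)..(t (i + 1)), ψ u =
        (∑ p ∈ PP x (t i) (t (i + 1)), ψ (lg x p) * (lg x p / (p : ℝ)) -
        ψ (t i) * ∑ p ∈ PP x (t i) (t (i + 1)), lg x p / (p : ℝ)) +
        ψ (t i) * (∑ p ∈ PP x (t i) (t (i + 1)), lg x p / (p : ℝ) - h) -
        ((∫ u in (t i)..(t (i + 1)), ψ u) - ψ (t i) * h) := by ring
    rw [k4]
    refine (abs_sub _ _).trans (add_le_add ((abs_add_le _ _).trans (add_le_add k1 ?_)) k2)
    rw [abs_mul]
  calc |∑ i ∈ range n, (∑ p ∈ PP x (t i) (t (i + 1)), ψ (lg x p) * (lg x p / (p : ℝ)) -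
      ∫ u in (t i)..(t (i + 1)), ψ u)|
      ≤ ∑ i ∈ range n, (ε1 * ∑ p ∈ PP x (t i) (t (i + 1)), lg x p / (p : ℝ) +
        |ψ (t i)| * |∑ p ∈ PP x (t i) (t (i + 1)), lg x p / (p : ℝ) - h| + ε1 * h) :=
        (Finset.abs_sum_le_sum_abs _ _).trans (Finset.sum_le_sum key)
    _ = ε1 * ∑ p ∈ PP x a b, lg x p / (p : ℝ) + ∑ i ∈ range n, |ψ (t i)| *
        |∑ p ∈ PP x (t i) (t (i + 1)), lg x p / (p : ℝ) - h| + ε1 * (b - a) := by
        rw [Finset.sum_add_distrib, Finset.sum_add_distrib, ← Finset.mul_sum, ← e1', Finset.sum_const,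
          card_range, nsmul_eq_mul]
        have h9 : (n : ℝ) * (ε1 * h) = ε1 * (b - a) := by
          rw [hh]
          field_simp
        rw [h9]
    _ ≤ ε1 * (b - a + 1) + ε1 + ε1 * (b - a) := by
        have := mul_le_mul_of_nonneg_left hx4 hε10.le
        linarith
    _ = ε := by
        rw [hε1]
        field_simp
        ring

end Pool.Agent.Lib.MP_092512_nt.P3
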