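import Mathlib
import Pool.Agent.Lib.MP_092512_nt.P3.DDefs
import Pool.Agent.Lib.MP_092512_nt.P3.D0m
import Pool.Agent.Lib.MP_092512_nt.P3.D1

/-!
# D1: sums of continuous functions of `log p/log x` over primes tend to integrals

The measures `∑_{p ∈ PP x a b} (lg x p/p) δ_{lg x p}` tend to `du` on `[a, b]` (`D0_mertens`).

PROOFS.
* splitting: for `a ≤ c ≤ b`, `∑_{PP x a b} f = ∑_{PP x a c} f + ∑_{PP x c b} f` (`x ≥ 1`); by induction for the equidistant grid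
  `t_i = a + i (b-a)/n`, `i ≤ n`.
* `D1_one`: for `ε > 0` take (uniform continuity on the compact `Icc a b`) `n` with `|ψ u - ψ u'| ≤ ε` for
  `|u - u'| ≤ (b-a)/n`. On the i-th piece the sum differs from `ψ(t_i) ∑_{PP x t_i t_{i+1}} lg/p` by at most `ε ∑ lg/p`, and the
  integral `∫_{t_i}^{t_{i+1}} ψ` from `ψ(t_i) (t_{i+1} - t_i)` by at most `ε (t_{i+1} - t_i)`. Hence
  `|∑ - ∫| ≤ ∑_i |ψ(t_i)| |∑_{PP x t_i t_{i+1}} lg/p - (t_{i+1} - t_i)| + ε (b - a + 1) + ε (b - a)` for large `x`, and the first sum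
  tends to `0`.
* `D1_two`: fix `ε`, take a grid `t_i` of `[a, b]` with `|Ψ(u, w) - Ψ(u', w)| ≤ ε` for `|u - u'| ≤ (b-a)/n`, all `w ∈ [c, d]`
  (uniform continuity on the compact rectangle). Replace `Ψ(u, w)` by `Ψ(t_i, w)` on the i-th piece: error
  `≤ ε (∑_p lg/p)(∑_q lg/q)` in the sum, `≤ ε (b-a)(d-c)` in the integral; the replaced sum is
  `∑_i (∑_{p ∈ PP x t_i t_{i+1}} lg/p) (∑_{q} Ψ(t_i, lg q) lg q/q) → ∑_i (t_{i+1} - t_i) ∫_c^d Ψ(t_i, w) dw` (`D0_mertens`, `D1_one`),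
  which is the replaced integral.
* `D1_diag` (symmetric `Ψ`): `∑_p ∑_q = 2 ∑_p ∑_{q > p} + ∑_{p = q}`, and the diagonal is at most
  `M b^2 ∑_{p ∈ PP x a b} 1/p^2 ≤ M b^2 x^(-a) ∑_{p} 1/p → 0` (`p > x^a`, `D0_sum_inv_le`; `|Ψ| ≤ M` on the compact square).
-/

set_option autoImplicit false

open Finset Filter

namespace Pool.Agent.Lib.MP_092512_nt.P3

/-- continuity of the inner integral -/
private theorem D1b_G_close (a b c d : ℝ) (hcd : c ≤ d) (Ψ : ℝ → ℝ → ℝ)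
    (hΨ : ContinuousOn (fun w : ℝ × ℝ => Ψ w.1 w.2) (Set.Icc a b ×ˢ Set.Icc c d)) (ε δ : ℝ)
    (hu : ∀ u ∈ Set.Icc a b, ∀ u' ∈ Set.Icc a b, |u - u'| < δ → ∀ w ∈ Set.Icc c d,
      |Ψ u w - Ψ u' w| ≤ ε) (u u' : ℝ) (h1 : u ∈ Set.Icc a b) (h2 : u' ∈ Set.Icc a b)
    (h3 : |u - u'| < δ) :
    |(∫ w in c..d, Ψ u w) - ∫ w in c..d, Ψ u' w| ≤ ε * (d - c) := by
  have hint : ∀ u ∈ Set.Icc a b, IntervalIntegrable (fun w => Ψ u w) MeasureTheory.volume c d := by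
    intro u hu
    apply ContinuousOn.intervalIntegrable
    rw [Set.uIcc_of_le hcd]
    have h4 : ContinuousOn (fun w : ℝ => (u, w)) (Set.Icc c d) := by fun_prop
    exact hΨ.comp h4 (fun w hw => ⟨hu, hw⟩)
  rw [← intervalIntegral.integral_sub (hint u h1) (hint u' h2)]
  have h4 := intervalIntegral.norm_integral_le_of_norm_le_const (a := c) (b := d)
    (f := fun w => Ψ u w - Ψ u' w) (C := ε) (fun w hw => by
      rw [Set.uIoc_of_le hcd] at hw
      rw [Real.norm_eq_abs]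
      exact hu u h1 u' h2 h3 w ⟨hw.1.le, hw.2⟩)
  rwa [Real.norm_eq_abs, abs_of_nonneg (by linarith : 0 ≤ d - c)] at h4

private theorem D1b_unif (a b c d : ℝ) (Ψ : ℝ → ℝ → ℝ)
    (hΨ : ContinuousOn (fun w : ℝ × ℝ => Ψ w.1 w.2) (Set.Icc a b ×ˢ Set.Icc c d)) (ε : ℝ) (hε : 0 < ε) :
    ∃ δ : ℝ, 0 < δ ∧ ∀ u ∈ Set.Icc a b, ∀ u' ∈ Set.Icc a b, |u - u'| < δ → ∀ w ∈ Set.Icc c d,
      |Ψ u w - Ψ u' w| ≤ ε := by
  have hu := (isCompact_Icc.prod isCompact_Icc).uniformContinuousOn_of_continuous hΨ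
  rw [Metric.uniformContinuousOn_iff] at hu
  obtain ⟨δ, hδ, h⟩ := hu ε hε
  refine ⟨δ, hδ, fun u h1 u' h2 h3 w hw => ?_⟩
  have h4 := h (u, w) ⟨h1, hw⟩ (u', w) ⟨h2, hw⟩ (by
    rw [Prod.dist_eq]
    simp only [dist_self]
    rw [Real.dist_eq]
    exact max_lt h3 hδ)
  rw [Real.dist_eq] at h4
  exact h4.le

private theorem D1b_G_cont (a b c d : ℝ) (hcd : c ≤ d) (Ψ : ℝ → ℝ → ℝ)
    (hΨ : ContinuousOn (fun w : ℝ × ℝ => Ψ w.1 w.2) (Set.Icc a b ×ˢ Set.Icc c d)) :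
    ContinuousOn (fun u => ∫ w in c..d, Ψ u w) (Set.Icc a b) := by
  rw [Metric.continuousOn_iff]
  intro u hu ε hε
  have hpos : 0 < ε / (d - c + 1) := by
    have : 0 < d - c + 1 := by linarith
    positivity
  obtain ⟨δ, hδ, h⟩ := D1b_unif a b c d Ψ hΨ _ hpos
  refine ⟨δ, hδ, fun u' hu' hd => ?_⟩
  rw [Real.dist_eq] at hd ⊢
  have h1 := D1b_G_close a b c d hcd Ψ hΨ _ δ h u' u hu' hu hd
  refine lt_of_le_of_lt h1 ?_
  have : 0 < d - c + 1 := by linarith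
  rw [div_mul_eq_mul_div, div_lt_iff₀ this]
  nlinarith

/-- the inner sum tends to the inner integral, uniformly -/
private theorem D1b_inner (a b c d : ℝ) (hab : a ≤ b) (hc : 0 < c) (hcd : c ≤ d) (Ψ : ℝ → ℝ → ℝ)
    (hΨ : ContinuousOn (fun w : ℝ × ℝ => Ψ w.1 w.2) (Set.Icc a b ×ˢ Set.Icc c d)) (ε : ℝ) (hε : 0 < ε) :
    ∀ᶠ x : ℕ in atTop, ∀ u ∈ Set.Icc a b,
      |∑ q ∈ PP x c d, Ψ u (lg x q) * (lg x q / (q : ℝ)) - ∫ w in c..d, Ψ u w| ≤ ε := by
  have hdc : 0 ≤ d - c := by linarith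
  obtain ⟨ε1, hε1⟩ : ∃ e : ℝ, e = ε / (2 * (d - c) + 2) := ⟨_, rfl⟩
  have hden : 0 < 2 * (d - c) + 2 := by linarith
  have hε10 : 0 < ε1 := by rw [hε1]; positivity
  obtain ⟨δ, hδ, hu⟩ := D1b_unif a b c d Ψ hΨ ε1 hε10
  obtain ⟨n, hn⟩ := exists_nat_gt ((b - a) / δ)
  have hba : 0 ≤ b - a := by linarith
  have hn0 : 0 < (n : ℝ) := lt_of_le_of_lt (by positivity) hn
  obtain ⟨h, hh⟩ : ∃ h : ℝ, h = (b - a) / n := ⟨_, rfl⟩
  have hh0 : 0 ≤ h := by rw [hh]; positivity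
  have hhδ : h < δ := by
    rw [hh, div_lt_iff₀ hn0]
    rw [div_lt_iff₀ hδ] at hn
    linarith
  have hnh : (n : ℝ) * h = b - a := by
    rw [hh]
    field_simp
  -- grid points
  have hgrid : ∀ i ∈ range (n + 1), ∀ᶠ x : ℕ in atTop,
      |∑ q ∈ PP x c d, Ψ (a + i * h) (lg x q) * (lg x q / (q : ℝ)) - ∫ w in c..d, Ψ (a + i * h) w| ≤ ε1 := by
    intro i hi
    have hi' : (i : ℝ) ≤ n := by
      have := mem_range.mp hi
      exact_mod_cast (by omega : i ≤ n)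
    have hmem : a + i * h ∈ Set.Icc a b := by
      constructor
      · have : 0 ≤ (i : ℝ) * h := by positivity
        linarith
      · have : (i : ℝ) * h ≤ n * h := mul_le_mul_of_nonneg_right hi' hh0
        linarith
    have h4 : ContinuousOn (fun w : ℝ => Ψ (a + i * h) w) (Set.Icc c d) := by
      have h5 : ContinuousOn (fun w : ℝ => ((a + i * h : ℝ), w)) (Set.Icc c d) := by fun_prop
      exact hΨ.comp h5 (fun w hw => ⟨hmem, hw⟩)
    have h6 := D1_one c d hc hcd _ h4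
    rw [Metric.tendsto_nhds] at h6
    filter_upwards [h6 ε1 hε10] with x hx
    rw [Real.dist_eq] at hx
    exact hx.le
  have hall := (Finset.eventually_all (range (n + 1))).mpr hgrid
  have hM := D0_mertens c d hc hcd
  filter_upwards [eventually_ge_atTop 2, hall,
    hM.eventually (ge_mem_nhds (show d - c < d - c + 1 by linarith))] with x hx2 hx3 hx4
  intro u hu1
  obtain ⟨i, hi, hiu⟩ : ∃ i : ℕ, i ≤ n ∧ |u - (a + i * h)| < δ := by
    rcases eq_or_lt_of_le hh0 with h0 | h0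
    · refine ⟨0, Nat.zero_le _, ?_⟩
      have : b - a = 0 := by rw [← hnh, ← h0, mul_zero]
      have h7 : u = a := le_antisymm (by linarith [hu1.2]) hu1.1
      rw [h7]
      simpa using hδ
    · have h8 : 0 ≤ (u - a) / h := div_nonneg (by linarith [hu1.1]) hh0
      refine ⟨⌊(u - a) / h⌋₊, ?_, ?_⟩
      · have h9 : (u - a) / h ≤ n := by
          rw [div_le_iff₀ h0]
          linarith [hu1.2]
        have h10 := (Nat.floor_le h8).trans h9
        exact_mod_cast h10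
      · have h9 := Nat.floor_le h8
        have h10 := Nat.lt_floor_add_one ((u - a) / h)
        rw [le_div_iff₀ h0] at h9
        rw [div_lt_iff₀ h0] at h10
        rw [abs_of_nonneg (by linarith)]
        linarith
  have hmem : a + i * h ∈ Set.Icc a b := by
    have hi' : (i : ℝ) ≤ n := by exact_mod_cast hi
    constructor
    · have : 0 ≤ (i : ℝ) * h := by positivity
      linarith
    · have : (i : ℝ) * h ≤ n * h := mul_le_mul_of_nonneg_right hi' hh0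
      linarith
  have k1 := hx3 i (mem_range.mpr (by omega))
  have k2 : |∑ q ∈ PP x c d, Ψ u (lg x q) * (lg x q / (q : ℝ)) -
      ∑ q ∈ PP x c d, Ψ (a + i * h) (lg x q) * (lg x q / (q : ℝ))| ≤ ε1 * (d - c + 1) := by
    rw [← Finset.sum_sub_distrib]
    calc _ ≤ ∑ q ∈ PP x c d, |Ψ u (lg x q) * (lg x q / (q : ℝ)) -
          Ψ (a + i * h) (lg x q) * (lg x q / (q : ℝ))| := Finset.abs_sum_le_sum_abs _ _
      _ ≤ ∑ q ∈ PP x c d, ε1 * (lg x q / (q : ℝ)) := by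
          refine Finset.sum_le_sum fun q hq => ?_
          rw [← sub_mul, abs_mul, abs_of_nonneg D1_wt_nonneg]
          obtain ⟨h1, h2⟩ := PP_lg hx2 hq
          exact mul_le_mul_of_nonneg_right (hu u hu1 _ hmem hiu _ ⟨h1.le, h2⟩) D1_wt_nonneg
      _ = ε1 * ∑ q ∈ PP x c d, lg x q / (q : ℝ) := by rw [Finset.mul_sum]
      _ ≤ ε1 * (d - c + 1) := mul_le_mul_of_nonneg_left hx4 hε10.le
  have k3 := D1b_G_close a b c d hcd Ψ hΨ ε1 δ hu u _ hu1 hmem hiu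
  have k4 : ∑ q ∈ PP x c d, Ψ u (lg x q) * (lg x q / (q : ℝ)) - ∫ w in c..d, Ψ u w =
      (∑ q ∈ PP x c d, Ψ u (lg x q) * (lg x q / (q : ℝ)) -
      ∑ q ∈ PP x c d, Ψ (a + i * h) (lg x q) * (lg x q / (q : ℝ))) +
      (∑ q ∈ PP x c d, Ψ (a + i * h) (lg x q) * (lg x q / (q : ℝ)) - ∫ w in c..d, Ψ (a + i * h) w) -
      ((∫ w in c..d, Ψ u w) - ∫ w in c..d, Ψ (a + i * h) w) := by ring
  rw [k4]
  calc _ ≤ ε1 * (d - c + 1) + ε1 + ε1 * (d - c) :=
        (abs_sub _ _).trans (add_le_add ((abs_add_le _ _).trans (add_le_add k2 k1)) k3)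
    _ = ε := by
        rw [hε1]
        field_simp
        ring

theorem D1_two (a b c d : ℝ) (ha : 0 < a) (hab : a ≤ b) (hc : 0 < c) (hcd : c ≤ d) (Ψ : ℝ → ℝ → ℝ)
    (hΨ : ContinuousOn (fun w : ℝ × ℝ => Ψ w.1 w.2) (Set.Icc a b ×ˢ Set.Icc c d)) :
    Tendsto (fun x : ℕ => ∑ p ∈ PP x a b, ∑ q ∈ PP x c d,
      Ψ (lg x p) (lg x q) * ((lg x p / (p : ℝ)) * (lg x q / (q : ℝ)))) atTop
      (nhds (∫ u in a..b, ∫ w in c..d, Ψ u w)) := by
  have hG := D1_one a b ha hab _ (D1b_G_cont a b c d hcd Ψ hΨ)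
  apply D1_tendsto_of
  intro ε hε
  have hba : 0 < b - a + 2 := by linarith
  have hε1 : 0 < ε / (b - a + 2) := by positivity
  rw [Metric.tendsto_nhds] at hG
  filter_upwards [eventually_ge_atTop 2, D1b_inner a b c d hab hc hcd Ψ hΨ _ hε1, hG _ hε1,
    (D0_mertens a b ha hab).eventually (ge_mem_nhds (show b - a < b - a + 1 by linarith))]
    with x hx2 hx3 hx4 hx5
  rw [Real.dist_eq] at hx4
  have k1 : ∑ p ∈ PP x a b, ∑ q ∈ PP x c d,
      Ψ (lg x p) (lg x q) * ((lg x p / (p : ℝ)) * (lg x q / (q : ℝ))) =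
      ∑ p ∈ PP x a b, (∑ q ∈ PP x c d, Ψ (lg x p) (lg x q) * (lg x q / (q : ℝ))) * (lg x p / (p : ℝ)) := by
    refine Finset.sum_congr rfl fun p _ => ?_
    rw [Finset.sum_mul]
    refine Finset.sum_congr rfl fun q _ => ?_
    ring
  have k2 : |∑ p ∈ PP x a b, (∑ q ∈ PP x c d, Ψ (lg x p) (lg x q) * (lg x q / (q : ℝ))) * (lg x p / (p : ℝ)) -
      ∑ p ∈ PP x a b, (∫ w in c..d, Ψ (lg x p) w) * (lg x p / (p : ℝ))| ≤ ε / (b - a + 2) * (b - a + 1) := by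
    rw [← Finset.sum_sub_distrib]
    calc _ ≤ ∑ p ∈ PP x a b, |(∑ q ∈ PP x c d, Ψ (lg x p) (lg x q) * (lg x q / (q : ℝ))) * (lg x p / (p : ℝ)) -
          (∫ w in c..d, Ψ (lg x p) w) * (lg x p / (p : ℝ))| := Finset.abs_sum_le_sum_abs _ _
      _ ≤ ∑ p ∈ PP x a b, ε / (b - a + 2) * (lg x p / (p : ℝ)) := by
          refine Finset.sum_le_sum fun p hp => ?_
          rw [← sub_mul, abs_mul, abs_of_nonneg D1_wt_nonneg]
          obtain ⟨h1, h2⟩ := PP_lg hx2 hp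
          exact mul_le_mul_of_nonneg_right (hx3 _ ⟨h1.le, h2⟩) D1_wt_nonneg
      _ = ε / (b - a + 2) * ∑ p ∈ PP x a b, lg x p / (p : ℝ) := by rw [Finset.mul_sum]
      _ ≤ _ := mul_le_mul_of_nonneg_left hx5 hε1.le
  rw [k1]
  calc _ ≤ ε / (b - a + 2) * (b - a + 1) + ε / (b - a + 2) := by
        refine (abs_sub_le _ (∑ p ∈ PP x a b, (∫ w in c..d, Ψ (lg x p) w) * (lg x p / (p : ℝ))) _).trans ?_
        exact add_le_add k2 hx4.le
    _ = ε := by
        field_simp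
        ring

/-- a symmetric double sum -/
private theorem D1b_symm (S : Finset ℕ) (g : ℕ → ℕ → ℝ) (hg : ∀ p q, g p q = g q p) :
    ∑ p ∈ S, ∑ q ∈ S.filter (fun q => p < q), g p q =
      1 / 2 * (∑ p ∈ S, ∑ q ∈ S, g p q - ∑ p ∈ S, g p p) := by
  have h1 : ∑ p ∈ S, ∑ q ∈ S, g p q = ∑ p ∈ S, ∑ q ∈ S, (if p < q then g p q else 0) +
      ∑ p ∈ S, ∑ q ∈ S, (if q < p then g p q else 0) + ∑ p ∈ S, ∑ q ∈ S, (if p = q then g p q else 0) := by
    rw [← Finset.sum_add_distrib, ← Finset.sum_add_distrib]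
    refine Finset.sum_congr rfl fun p _ => ?_
    rw [← Finset.sum_add_distrib, ← Finset.sum_add_distrib]
    refine Finset.sum_congr rfl fun q _ => ?_
    rcases lt_trichotomy p q with h | h | h
    · rw [if_pos h, if_neg (by omega), if_neg (by omega)]; ring
    · rw [if_neg (by omega), if_neg (by omega), if_pos h]; ring
    · rw [if_neg (by omega), if_pos h, if_neg (by omega)]; ring
  have h2 : ∑ p ∈ S, ∑ q ∈ S, (if q < p then g p q else 0) =
      ∑ p ∈ S, ∑ q ∈ S, (if p < q then g p q else 0) := by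
    rw [Finset.sum_comm]
    refine Finset.sum_congr rfl fun p _ => Finset.sum_congr rfl fun q _ => ?_
    rw [hg]
  have h3 : ∑ p ∈ S, ∑ q ∈ S, (if p = q then g p q else 0) = ∑ p ∈ S, g p p := by
    refine Finset.sum_congr rfl fun p hp => ?_
    rw [Finset.sum_ite_eq, if_pos hp]
  have h4 : ∑ p ∈ S, ∑ q ∈ S.filter (fun q => p < q), g p q =
      ∑ p ∈ S, ∑ q ∈ S, (if p < q then g p q else 0) := by
    refine Finset.sum_congr rfl fun p _ => ?_
    rw [Finset.sum_filter]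
  rw [h4, h1, h2, h3]
  ring

theorem D1_diag (a b : ℝ) (ha : 0 < a) (hab : a ≤ b) (Ψ : ℝ → ℝ → ℝ) (hs : ∀ u w, Ψ u w = Ψ w u)
    (hΨ : ContinuousOn (fun w : ℝ × ℝ => Ψ w.1 w.2) (Set.Icc a b ×ˢ Set.Icc a b)) :
    Tendsto (fun x : ℕ => ∑ p ∈ PP x a b, ∑ q ∈ (PP x a b).filter (fun q => p < q),
      Ψ (lg x p) (lg x q) * ((lg x p / (p : ℝ)) * (lg x q / (q : ℝ)))) atTop
      (nhds (1 / 2 * ∫ u in a..b, ∫ w in a..b, Ψ u w)) := by
  have h1 : ∀ x : ℕ, ∑ p ∈ PP x a b, ∑ q ∈ (PP x a b).filter (fun q => p < q),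
      Ψ (lg x p) (lg x q) * ((lg x p / (p : ℝ)) * (lg x q / (q : ℝ))) =
      1 / 2 * (∑ p ∈ PP x a b, ∑ q ∈ PP x a b,
        Ψ (lg x p) (lg x q) * ((lg x p / (p : ℝ)) * (lg x q / (q : ℝ))) -
        ∑ p ∈ PP x a b, Ψ (lg x p) (lg x p) * ((lg x p / (p : ℝ)) * (lg x p / (p : ℝ)))) := by
    intro x
    exact D1b_symm _ (fun p q => Ψ (lg x p) (lg x q) * ((lg x p / (p : ℝ)) * (lg x q / (q : ℝ))))
      (fun p q => by rw [hs (lg x p) (lg x q)]; ring)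
  simp_rw [h1]
  have h2 := D1_two a b a b ha hab ha hab Ψ hΨ
  obtain ⟨M, hM⟩ := (isCompact_Icc.prod isCompact_Icc).exists_bound_of_continuousOn hΨ
  have h3 : Tendsto (fun x : ℕ => ∑ p ∈ PP x a b,
      Ψ (lg x p) (lg x p) * ((lg x p / (p : ℝ)) * (lg x p / (p : ℝ)))) atTop (nhds 0) := by
    have hz : Tendsto (fun x : ℕ => |M| * b * ((b - a + 1)) * ((x : ℝ) ^ (-a))) atTop (nhds 0) := by
      have h4 : Tendsto (fun x : ℕ => ((x : ℝ) ^ (-a))) atTop (nhds 0) :=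
        (tendsto_rpow_neg_atTop ha).comp tendsto_natCast_atTop_atTop
      have h5 := h4.const_mul (|M| * b * ((b - a + 1)))
      rwa [mul_zero] at h5
    refine squeeze_zero_norm' ?_ hz
    filter_upwards [eventually_ge_atTop 2,
      (D0_mertens a b ha hab).eventually (ge_mem_nhds (show b - a < b - a + 1 by linarith))] with x hx2 hx3
    rw [Real.norm_eq_abs]
    have hx0 : (0 : ℝ) < x := by
      have : (2 : ℝ) ≤ x := by exact_mod_cast hx2
      linarith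
    calc |∑ p ∈ PP x a b, Ψ (lg x p) (lg x p) * ((lg x p / (p : ℝ)) * (lg x p / (p : ℝ)))|
        ≤ ∑ p ∈ PP x a b, |Ψ (lg x p) (lg x p) * ((lg x p / (p : ℝ)) * (lg x p / (p : ℝ)))| :=
          Finset.abs_sum_le_sum_abs _ _
      _ ≤ ∑ p ∈ PP x a b, |M| * b * (x : ℝ) ^ (-a) * (lg x p / (p : ℝ)) := by
          refine Finset.sum_le_sum fun p hp => ?_
          obtain ⟨k1, k2⟩ := PP_lg hx2 hp
          obtain ⟨hp0, k3, _⟩ := mem_PP.mp hp
          have k4 : |Ψ (lg x p) (lg x p)| ≤ |M| := by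
            have := hM (lg x p, lg x p) ⟨⟨k1.le, k2⟩, ⟨k1.le, k2⟩⟩
            rw [Real.norm_eq_abs] at this
            exact this.trans (le_abs_self M)
          have hw := D1_wt_nonneg (x := x) (p := p)
          have k5 : lg x p / (p : ℝ) ≤ b * (x : ℝ) ^ (-a) := by
            rw [div_eq_mul_inv, Real.rpow_neg hx0.le]
            have k6 : ((p : ℝ))⁻¹ ≤ ((x : ℝ) ^ a)⁻¹ := by
              apply inv_anti₀ (by positivity) k3.le
            exact mul_le_mul k2 k6 (by positivity) (by linarith)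
          rw [abs_mul, abs_of_nonneg (mul_nonneg hw hw)]
          calc |Ψ (lg x p) (lg x p)| * (lg x p / (p : ℝ) * (lg x p / (p : ℝ)))
              ≤ |M| * ((b * (x : ℝ) ^ (-a)) * (lg x p / (p : ℝ))) := by
                apply mul_le_mul k4 (mul_le_mul_of_nonneg_right k5 hw) (mul_nonneg hw hw) (abs_nonneg _)
            _ = |M| * b * (x : ℝ) ^ (-a) * (lg x p / (p : ℝ)) := by ring
      _ = |M| * b * (x : ℝ) ^ (-a) * ∑ p ∈ PP x a b, (lg x p / (p : ℝ)) := by rw [Finset.mul_sum]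
      _ ≤ |M| * b * (x : ℝ) ^ (-a) * (b - a + 1) := by
          apply mul_le_mul_of_nonneg_left hx3
          have : 0 ≤ b := by linarith
          positivity
      _ = |M| * b * (b - a + 1) * (x : ℝ) ^ (-a) := by ring
  have h6 := (h2.sub h3).const_mul (1 / 2)
  rwa [sub_zero] at h6

end Pool.Agent.Lib.MP_092512_nt.P3
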