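import Mathlib
import Pool.Agent.Lib.MP_092512_nt.P3.DDefs
import Pool.Agent.Lib.MP_092512_nt.P3.C3

/-!
# D2: values of `LC`, `LV` at `1`, at primes and at products of two primes; a large prime factor is invisible

PROOFS (`z = zB B x`; `L_ρ(m) = ∑_{d ∣ m} lamS_ρ(d)`, so `LC_j = L_{(j+1)η} - L_{jη}`).
* `LC_mul_prime`: every divisor of `a b` (`b` prime) which does not divide `a` is a multiple of `b`, hence `≥ b > x^((j+1)η)`, and
  `lamC_j` vanishes there (`C3_lamC_support`); the divisors of `a` divide `a b`. (`a ≠ 0`.)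
* `LV_mul_prime`: every `j < len` has `(j+1) η ≤ len η ≤ 1/3`, so `x^((j+1)η) ≤ x^(1/3) < b` (`x ≥ 1`).
* `D2_cl_eq`: `cl η j u = η - (max 0 ((j+1)η - u) - max 0 (jη - u))` for all real `u` (three cases).
* `D2_LV_one`: `LC_j 1 = lamC_j 1`, by `C4_lamS_asymp` within `2ε'` of `(j+1)η - jη = η = cl η j 1` (`(j+1)η ≤ 1/3 ≤ 1`).
* `D2_LV_prime`: divisors `1, p`; `μ(p) = -1`: `LC_j p` is within `4ε'` of
  `η - (max 0 ((j+1)η - u) - max 0 (jη - u)) = cl η j u`.
* `D2_LV_two`: divisors `1, p, q, p q` (`Nat.divisors_prime_mul`-type or `LC` of a product of coprime numbers), `μ = 1, -1, -1, 1`,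
  `log (p q) = log p + log q`: `LC_j (p q)` is within `8ε'` of `η - (η - cl u) - (η - cl w) + (η - cl (u+w)) = cl u + cl w - cl (u+w)`.
  (`p q` squarefree and coprime to `primorial z` as `p, q > z` are different primes.)
  Multiply by `|v j|` and sum over `j < len`; choose `ε'` with `8 ε' ∑ |v j| ≤ ε`.
* `D2_abs_LV_le`: `|LV m| ≤ (∑ |v j|) · 2 · #divisors` (`lamC_le` form: `C4_abs_lamS_le` gives `|lamC| ≤ 3`).
-/

set_option autoImplicit false

open Finset Filter

open scoped ArithmeticFunction.Moebius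

namespace Pool.Agent.Lib.MP_092512_nt.P3

open Pool.Agent.Lib.SW

theorem LC_mul_prime (x z : ℕ) (hx : 1 ≤ x) (η : ℝ) (hη : 0 < η) (j a b : ℕ) (ha : a ≠ 0) (hb : b.Prime)
    (h : (x : ℝ) ^ (((j : ℝ) + 1) * η) < b) : LC x z η j (a * b) = LC x z η j a := by
  unfold LC
  symm
  apply Finset.sum_subset
  · exact Nat.divisors_subset_of_dvd (mul_ne_zero ha hb.ne_zero) (Dvd.intro _ rfl)
  · intro d hd hd'
    by_contra hne
    obtain ⟨_, _, h3⟩ := C3_lamC_support hx hη hne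
    have hdab : d ∣ a * b := Nat.dvd_of_mem_divisors hd
    have hbd : b ∣ d := by
      by_contra hn
      have hc : Nat.Coprime d b := ((Nat.Prime.coprime_iff_not_dvd hb).mpr hn).symm
      have h4 : d ∣ a := hc.dvd_of_dvd_mul_right hdab
      exact hd' (Nat.mem_divisors.mpr ⟨h4, ha⟩)
    have hd0 : 0 < d := Nat.pos_of_mem_divisors hd
    have h5 : (b : ℝ) ≤ d := by exact_mod_cast Nat.le_of_dvd hd0 hbd
    linarith

theorem LV_mul_prime (x z : ℕ) (hx : 1 ≤ x) (η : ℝ) (hη : 0 < η) (len : ℕ) (v : ℕ → ℝ)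
    (hlen : (len : ℝ) * η ≤ 1 / 3) (a b : ℕ) (ha : a ≠ 0) (hb : b.Prime) (h : (x : ℝ) ^ (1 / 3 : ℝ) < b) :
    LV x z η len v (a * b) = LV x z η len v a := by
  unfold LV
  refine Finset.sum_congr rfl fun j hj => ?_
  have hj' : ((j : ℝ) + 1) ≤ len := by
    have := mem_range.mp hj
    exact_mod_cast this
  have hx1 : (1 : ℝ) ≤ x := by exact_mod_cast hx
  have h1 : (x : ℝ) ^ (((j : ℝ) + 1) * η) ≤ (x : ℝ) ^ (1 / 3 : ℝ) := by
    apply Real.rpow_le_rpow_of_exponent_le hx1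
    exact (mul_le_mul_of_nonneg_right hj' hη.le).trans hlen
  rw [LC_mul_prime x z hx η hη j a b ha hb (lt_of_le_of_lt h1 h)]

theorem D2_cl_eq (η : ℝ) (hη : 0 < η) (j : ℕ) (u : ℝ) :
    cl η j u = η - (max 0 (((j : ℝ) + 1) * η - u) - max 0 ((j : ℝ) * η - u)) := by
  unfold cl
  rcases le_total u ((j : ℝ) * η) with h1 | h1
  · rw [max_eq_right (by linarith : u - (j : ℝ) * η ≤ 0), min_eq_left hη.le,
      max_eq_right (by nlinarith : 0 ≤ ((j : ℝ) + 1) * η - u), max_eq_right (by linarith : 0 ≤ (j : ℝ) * η - u)]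
    ring
  · rw [max_eq_left (by linarith : 0 ≤ u - (j : ℝ) * η), max_eq_left (by linarith : (j : ℝ) * η - u ≤ 0)]
    rcases le_total u (((j : ℝ) + 1) * η) with h2 | h2
    · rw [min_eq_left (by linarith), max_eq_right (by linarith : 0 ≤ ((j : ℝ) + 1) * η - u)]
      ring
    · rw [min_eq_right (by linarith), max_eq_left (by linarith : ((j : ℝ) + 1) * η - u ≤ 0)]
      ring

end Pool.Agent.Lib.MP_092512_nt.P3
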