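import Mathlib
import Pool.Agent.Lib.MP_092512_nt.P3.DDefs
import Pool.Agent.Lib.MP_092512_nt.P3.C3
import Pool.Agent.Lib.MP_092512_nt.P3.C4
import Pool.Agent.Lib.MP_092512_nt.P3.D2

/-!
# D2: values of `LC`, `LV` at `1`, at primes and at products of two primes; a large prime factor is invisible

PROOFS (`z = zB B x`; `L_ρ(m) = ∑_{d ∣ m} lamS_ρ(d)`, so `LC_j = L_{(j+1)η} - L_{jη}`).
* `LC_mul_prime`: every divisor of `a b` (`b` prime) which does not divide `a` is a multiple of `b`, hence `≥ b > x^((j+1)η)`, and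
  `lamC_j` vanishes there (`C3_lamC_support`); the divisors of `a` divide `a b`. (`a ≠ 0`.)
* `LV_mul_prime`: every `j < len` has `(j+1) η ≤ len η ≤ 1/3`, so `x^((j+1)η) ≤ x^(1/3) < b` (`x ≥ 1`).
* `D2_cl_eq`: `cl η j u = η - (max 0 ((j+1)η - u) - max 0 (jη - u))` for all real `u` (three cases).
* `D2_LV_one`: `LC_j 1 = lamC_j 1`, by `C4_lamS_asymp` within `2ε'` of `(j+1)η - jη = η = cl η j 1` (`(j+1)η ≤ 1/3 ≤ 1`).
* `D2_LV_prime`: divisors `1, p`; `μ(p) = -1`: `LC_j p` is within `4ε'` of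
  `η - (max 0 ((j+1)η - u) - max 0 (jη - u)) = cl η j u`.
* `D2_LV_two`: divisors `1, p, q, p q` (`Nat.divisors_prime_mul`-type or `LC` of a product of coprime numbers), `μ = 1, -1, -1, 1`,
  `log (p q) = log p + log q`: `LC_j (p q)` is within `8ε'` of `η - (η - cl u) - (η - cl w) + (η - cl (u+w)) = cl u + cl w - cl (u+w)`.
  (`p q` squarefree and coprime to `primorial z` as `p, q > z` are different primes.)
  Multiply by `|v j|` and sum over `j < len`; choose `ε'` with `8 ε' ∑ |v j| ≤ ε`.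
* `D2_abs_LV_le`: `|LV m| ≤ (∑ |v j|) · 2 · #divisors` (`lamC_le` form: `C4_abs_lamS_le` gives `|lamC| ≤ 3`).
-/

set_option autoImplicit false

open Finset Filter

open scoped ArithmeticFunction.Moebius

namespace Pool.Agent.Lib.MP_092512_nt.P3

open Pool.Agent.Lib.SW

/-- the limit of `LC` -/
private noncomputable def D2bD (η : ℝ) (j : ℕ) (t : ℝ) : ℝ :=
  max 0 (((j : ℝ) + 1) * η - t) - max 0 ((j : ℝ) * η - t)

private theorem D2b_gen (B : ℕ) (hB : 3 ≤ B) (η : ℝ) (hη : 0 < η) (len : ℕ) (v : ℕ → ℝ)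
    (hlen : (len : ℝ) * η ≤ 1 / 3) (ε : ℝ) (hε : 0 < ε) : ∀ᶠ x : ℕ in atTop,
    ∀ m : ℕ, Squarefree m → Nat.Coprime m (primorial (zB B x)) → m.divisors.card ≤ 4 →
      |LV x (zB B x) η len v m -
        ∑ j ∈ range len, v j * ∑ d ∈ m.divisors, (μ d : ℝ) * D2bD η j (lg x d)| ≤ ε := by
  set S : ℝ := ∑ j ∈ range len, |v j| with hS
  have hS0 : 0 ≤ S := sum_nonneg fun j _ => abs_nonneg _
  set ε' : ℝ := ε / (8 * (S + 1)) with hε'
  have hε'0 : 0 < ε' := by positivity
  filter_upwards [C4_lamS_asymp B hB ε' hε'0] with x hx m hm1 hm2 hm3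
  have hdiv : ∀ j ∈ range len, ∀ d ∈ m.divisors,
      |lamC x (zB B x) η j d - (μ d : ℝ) * D2bD η j (lg x d)| ≤ 2 * ε' := by
    intro j hj d hd
    have hdm : d ∣ m := Nat.dvd_of_mem_divisors hd
    have hd1 : Squarefree d := hm1.squarefree_of_dvd hdm
    have hd2 : Nat.Coprime d (primorial (zB B x)) := Nat.Coprime.coprime_dvd_left hdm hm2
    have hj1 : ((j : ℝ) + 1) ≤ len := by exact_mod_cast mem_range.1 hj
    have hj2 : ((j : ℝ) + 1) * η ≤ 1 := by nlinarith
    have hj3 : (j : ℝ) * η ≤ 1 := by nlinarith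
    have h1 := hx (((j : ℝ) + 1) * η) (by positivity) hj2 d hd1 hd2
    have h2 := hx ((j : ℝ) * η) (by positivity) hj3 d hd1 hd2
    have h3 : lamC x (zB B x) η j d - (μ d : ℝ) * D2bD η j (lg x d) =
        (lamS x (zB B x) (((j : ℝ) + 1) * η) d -
          (μ d : ℝ) * max 0 (((j : ℝ) + 1) * η - Real.log d / Real.log x)) -
        (lamS x (zB B x) ((j : ℝ) * η) d -
          (μ d : ℝ) * max 0 ((j : ℝ) * η - Real.log d / Real.log x)) := by
      unfold lamC D2bD lg
      ring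
    rw [h3]
    refine (abs_sub _ _).trans ?_
    linarith
  have hLC : ∀ j ∈ range len,
      |LC x (zB B x) η j m - ∑ d ∈ m.divisors, (μ d : ℝ) * D2bD η j (lg x d)| ≤ 8 * ε' := by
    intro j hj
    unfold LC
    rw [← sum_sub_distrib]
    refine (abs_sum_le_sum_abs _ _).trans ?_
    refine (sum_le_card_nsmul _ _ _ (hdiv j hj)).trans ?_
    rw [nsmul_eq_mul]
    have h4 : (m.divisors.card : ℝ) ≤ 4 := by exact_mod_cast hm3
    nlinarith
  unfold LV
  rw [← sum_sub_distrib]
  refine (abs_sum_le_sum_abs _ _).trans ?_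
  calc ∑ j ∈ range len, |v j * LC x (zB B x) η j m -
        v j * ∑ d ∈ m.divisors, (μ d : ℝ) * D2bD η j (lg x d)|
      ≤ ∑ j ∈ range len, |v j| * (8 * ε') := by
        refine sum_le_sum fun j hj => ?_
        rw [← mul_sub, abs_mul]
        exact mul_le_mul_of_nonneg_left (hLC j hj) (abs_nonneg _)
    _ = S * (8 * ε') := by rw [← sum_mul]
    _ ≤ ε := by
        have h5 : (S + 1) * (8 * ε') = ε := by
          rw [hε']
          field_simp
        nlinarith

private theorem D2b_zero (η : ℝ) (hη : 0 < η) (j : ℕ) : D2bD η j 0 = η := by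
  unfold D2bD
  have h1 : 0 ≤ ((j : ℝ) + 1) * η := by positivity
  have h2 : 0 ≤ (j : ℝ) * η := by positivity
  rw [sub_zero, sub_zero, max_eq_right h1, max_eq_right h2]
  ring

private theorem D2b_cl (η : ℝ) (hη : 0 < η) (j : ℕ) (u : ℝ) : cl η j u = η - D2bD η j u :=
  D2_cl_eq η hη j u

private theorem D2b_lg_one (x : ℕ) : lg x 1 = 0 := by
  unfold lg
  simp

theorem D2_LV_one (B : ℕ) (hB : 3 ≤ B) (η : ℝ) (hη : 0 < η) (len : ℕ) (v : ℕ → ℝ)
    (hlen : (len : ℝ) * η ≤ 1 / 3) (ε : ℝ) (hε : 0 < ε) : ∀ᶠ x : ℕ in atTop,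
    |LV x (zB B x) η len v 1 - VV η len v 1| ≤ ε := by
  filter_upwards [D2b_gen B hB η hη len v hlen ε hε] with x hx
  have h1 := hx 1 squarefree_one (Nat.coprime_one_left _) (by simp)
  have h2 : VV η len v 1 =
      ∑ j ∈ range len, v j * ∑ d ∈ (1 : ℕ).divisors, (μ d : ℝ) * D2bD η j (lg x d) := by
    unfold VV
    refine sum_congr rfl fun j hj => ?_
    have hj1 : ((j : ℝ) + 1) ≤ len := by exact_mod_cast mem_range.1 hj
    have hj2 : ((j : ℝ) + 1) * η ≤ 1 / 3 := by nlinarith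
    have hj3 : (j : ℝ) * η ≤ 1 / 3 := by nlinarith
    rw [Nat.divisors_one, sum_singleton, D2b_lg_one, D2b_zero η hη, D2b_cl η hη]
    have h3 : D2bD η j 1 = 0 := by
      unfold D2bD
      rw [max_eq_left (by linarith), max_eq_left (by linarith), sub_zero]
    rw [h3]
    simp
  rw [h2]
  exact h1

private theorem D2b_rough {p z : ℕ} (hp : p.Prime) (hz : z < p) : Nat.Coprime p (primorial z) := by
  rw [Nat.Prime.coprime_iff_not_dvd hp, hp.dvd_primorial_iff]
  omega

theorem D2_LV_prime (B : ℕ) (hB : 3 ≤ B) (η : ℝ) (hη : 0 < η) (len : ℕ) (v : ℕ → ℝ)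
    (hlen : (len : ℝ) * η ≤ 1 / 3) (ε : ℝ) (hε : 0 < ε) : ∀ᶠ x : ℕ in atTop,
    ∀ p : ℕ, p.Prime → zB B x < p → |LV x (zB B x) η len v p - VV η len v (lg x p)| ≤ ε := by
  filter_upwards [D2b_gen B hB η hη len v hlen ε hε] with x hx p hp hzp
  have hcard : p.divisors.card ≤ 4 := by
    rw [Nat.Prime.divisors hp, card_pair hp.one_lt.ne]
    omega
  have h1 := hx p hp.prime.squarefree (D2b_rough hp hzp) hcard
  have h2 : VV η len v (lg x p) =
      ∑ j ∈ range len, v j * ∑ d ∈ p.divisors, (μ d : ℝ) * D2bD η j (lg x d) := by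
    unfold VV
    refine sum_congr rfl fun j hj => ?_
    rw [Nat.Prime.divisors hp, sum_pair hp.one_lt.ne, D2b_lg_one, D2b_zero η hη, D2b_cl η hη,
      ArithmeticFunction.moebius_apply_prime hp, ArithmeticFunction.moebius_apply_one]
    push_cast
    ring
  rw [h2]
  exact h1

theorem D2_LV_two (B : ℕ) (hB : 3 ≤ B) (η : ℝ) (hη : 0 < η) (len : ℕ) (v : ℕ → ℝ)
    (hlen : (len : ℝ) * η ≤ 1 / 3) (ε : ℝ) (hε : 0 < ε) : ∀ᶠ x : ℕ in atTop,
    ∀ p q : ℕ, p.Prime → q.Prime → p ≠ q → zB B x < p → zB B x < q →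
      |LV x (zB B x) η len v (p * q) - XX η len v (lg x p) (lg x q)| ≤ ε := by
  filter_upwards [D2b_gen B hB η hη len v hlen ε hε] with x hx p q hp hq hpq hzp hzq
  have hp1 := hp.one_lt
  have hq1 := hq.one_lt
  have hcop : Nat.Coprime p q := (Nat.coprime_primes hp hq).2 hpq
  have hpq0 : p * q ≠ 0 := by positivity
  have hpp : p < p * q := by nlinarith
  have hqq : q < p * q := by nlinarith
  have hdiv : (p * q).divisors = {1, p, q, p * q} := by
    ext d
    simp only [Nat.mem_divisors, mem_insert, mem_singleton]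
    constructor
    · rintro ⟨h1, _⟩
      obtain ⟨d₁, d₂, h2, h3, rfl⟩ := (dvd_mul (k := d) (m := p) (n := q)).1 h1
      rcases (Nat.dvd_prime hp).1 h2 with h4 | h4 <;> rcases (Nat.dvd_prime hq).1 h3 with h5 | h5
      · left; rw [h4, h5, mul_one]
      · right; right; left; rw [h4, h5, one_mul]
      · right; left; rw [h4, h5, mul_one]
      · right; right; right; rw [h4, h5]
    · rintro (h | h | h | h)
      · rw [h]; exact ⟨one_dvd _, hpq0⟩
      · rw [h]; exact ⟨dvd_mul_right p q, hpq0⟩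
      · rw [h]; exact ⟨dvd_mul_left q p, hpq0⟩
      · rw [h]; exact ⟨dvd_rfl, hpq0⟩
  have hcard : (p * q).divisors.card ≤ 4 := by
    rw [hdiv]
    exact card_le_four
  have hsq : Squarefree (p * q) :=
    (Nat.squarefree_mul hcop).2 ⟨hp.prime.squarefree, hq.prime.squarefree⟩
  have h1 := hx (p * q) hsq (Nat.Coprime.mul_left (D2b_rough hp hzp) (D2b_rough hq hzq)) hcard
  have hlg : lg x (p * q) = lg x p + lg x q := by
    unfold lg
    push_cast
    rw [Real.log_mul (by positivity) (by positivity), add_div]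
  have hmu : ArithmeticFunction.moebius (p * q) = 1 := by
    rw [ArithmeticFunction.isMultiplicative_moebius.map_mul_of_coprime hcop,
      ArithmeticFunction.moebius_apply_prime hp, ArithmeticFunction.moebius_apply_prime hq]
    norm_num
  have h2 : XX η len v (lg x p) (lg x q) =
      ∑ j ∈ range len, v j * ∑ d ∈ (p * q).divisors, (μ d : ℝ) * D2bD η j (lg x d) := by
    unfold XX VV
    rw [← sum_add_distrib, ← sum_sub_distrib]
    refine sum_congr rfl fun j hj => ?_
    rw [hdiv, sum_insert, sum_insert, sum_insert, sum_singleton, D2b_lg_one, D2b_zero η hη,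
      D2b_cl η hη, D2b_cl η hη, D2b_cl η hη,
      ArithmeticFunction.moebius_apply_prime hp, ArithmeticFunction.moebius_apply_prime hq,
      ArithmeticFunction.moebius_apply_one, hmu, hlg]
    · push_cast
      ring
    · simp only [mem_singleton]
      omega
    · simp only [mem_insert, mem_singleton, not_or]
      exact ⟨hpq, hpp.ne⟩
    · simp only [mem_insert, mem_singleton, not_or]
      exact ⟨hp1.ne, hq1.ne, (hp1.trans hpp).ne⟩
  rw [h2]
  exact h1

end Pool.Agent.Lib.MP_092512_nt.P3
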