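import Mathlib
import Pool.Agent.Lib.MP_092512_nt.P3.Defs

/-!
# D3: the minorant `ew`: bounds, support, and the lower bound by any set of cofactors

PROOFS.
* `Aset_large`: `a ∈ Aset`, `x < a b`. If `a = p` is prime: `a^2 ≤ x^θ ≤ x`, so `b > x/a ≥ x^(1/2)`. If `a = p q`, `p < q`:
  `p q^2 ≤ x`, `a^3 = p^3 q^3 ≤ (p q^2)^2 ≤ x^2`, so `b > x/a ≥ x^(1/3)`. (`x ≥ 1`. Also the case of the real power:
  `a ≤ x^(2/3)` and `x^(1/3) x^(2/3) = x`.)
* `Aset_lt`: for every prime `p ∣ a`: `b > x/a ≥ p x^(-θ) x ≥ p` (`a p ≤ x^θ ≤ x`).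
* `ew_bound`: `x ≥ 2` large, `x < m ≤ 3x`. If `m` is prime: the filter is empty (`b = m`, `m/b = 1` has no prime factor), so
  `ew = log m/log(3x) ∈ (0, 1]`, `m > x ≥ x^δ`. If `m` is not prime: the first term is `0`; a prime `b ∣ m` in the filter has
  `a = m/b ∈ Aset`, `x < a b`, so `b` is larger than all prime factors of `a` (`Aset_lt`): it is the largest prime factor of `m`, so the
  filter has at most one element; then `m = a b` with `b ∤ a` is squarefree with `≤ 3` prime factors, all `> x^δ` (`b > p > x^δ`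
  for some `p ∣ a`), and the term is `log b/log(3x/a) ∈ [0, 1]` because `1 ≤ b = m/a ≤ 3x/a`, `b ≥ 2`.
* `D3_lower`: `ew m f m = [m prime] (..) f m + ∑_{b} (log b/log(3x/(m/b))) f m`; the pairs `(a, b)`, `a ∈ A`, `b` prime,
  `x + h0 < a b ≤ 2x + h0`, map injectively to the pairs `(m, b) = (a b, b)` of the double sum, all terms are nonnegative
  (`log b ≥ 0`, and `log(3x/(m/b)) ≥ 0` because `m/b ≤ m/2 ≤ 3x`: for `b ∣ m` prime, `m ≤ 2x + h0 ≤ 3 x`), `f (a b) = f a` is
  the hypothesis.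
* `D3_LV`: `D3_lower` with `f = LV^2`, `LV (a b) = LV a` by `Aset_large` and `LV_mul_prime`.
-/

set_option autoImplicit false

open Finset Filter

namespace Pool.Agent.Lib.MP_092512_nt.P3

open Pool.Agent.Lib.SW

private theorem D3_rpow_le (x : ℕ) (hx : 1 ≤ x) (θ : ℝ) (hθ : θ < 1) : (x : ℝ) ^ θ ≤ x := by
  have hx1 : (1 : ℝ) ≤ x := by exact_mod_cast hx
  calc (x : ℝ) ^ θ ≤ (x : ℝ) ^ (1 : ℝ) := Real.rpow_le_rpow_of_exponent_le hx1 hθ.le
    _ = x := Real.rpow_one _

theorem Aset_large (x : ℕ) (hx : 1 ≤ x) (δ θ : ℝ) (hθ : θ < 1) (a b : ℕ) (ha : Aset x δ θ a)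
    (hab : x < a * b) : (x : ℝ) ^ (1 / 3 : ℝ) < b := by
  obtain ⟨hsq, h1, h2, h3⟩ := ha
  have hx1 : (1 : ℝ) ≤ x := by exact_mod_cast hx
  have hx0 : (0 : ℝ) < x := by linarith
  have hne : a.primeFactors.Nonempty := card_pos.1 (by omega)
  obtain ⟨q, hq, hmax⟩ := exists_max_image a.primeFactors (fun p => p) hne
  have hq1 : 1 ≤ q := (Nat.prime_of_mem_primeFactors hq).one_lt.le
  have ha2 : a ≤ q ^ 2 := by
    calc a = ∏ p ∈ a.primeFactors, p := (Nat.prod_primeFactors_of_squarefree hsq).symm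
      _ ≤ ∏ _p ∈ a.primeFactors, q := prod_le_prod' fun p hp => hmax p hp
      _ = q ^ a.primeFactors.card := prod_const _
      _ ≤ q ^ 2 := Nat.pow_le_pow_right hq1 h2
  have haq : (a : ℝ) * q ≤ x := (h3 q hq).2.trans (D3_rpow_le x hx θ hθ)
  have ha2' : (a : ℝ) ≤ (q : ℝ) ^ 2 := by exact_mod_cast ha2
  have ha3 : (a : ℝ) ^ 3 ≤ (x : ℝ) ^ 2 := by
    calc (a : ℝ) ^ 3 = (a : ℝ) ^ 2 * a := by ring
      _ ≤ (a : ℝ) ^ 2 * (q : ℝ) ^ 2 := mul_le_mul_of_nonneg_left ha2' (by positivity)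
      _ = ((a : ℝ) * q) ^ 2 := by ring
      _ ≤ (x : ℝ) ^ 2 := pow_le_pow_left₀ (by positivity) haq 2
  by_contra hcon
  have hb : (b : ℝ) ≤ (x : ℝ) ^ (1 / 3 : ℝ) := not_lt.1 hcon
  have hb3 : (b : ℝ) ^ 3 ≤ x := by
    calc (b : ℝ) ^ 3 ≤ ((x : ℝ) ^ (1 / 3 : ℝ)) ^ 3 := pow_le_pow_left₀ (Nat.cast_nonneg _) hb 3
      _ = x := by
        rw [← Real.rpow_natCast, ← Real.rpow_mul hx0.le]
        norm_num
  have hab' : (x : ℝ) < a * b := by exact_mod_cast hab
  have h4 : (x : ℝ) ^ 3 < ((a : ℝ) * b) ^ 3 := pow_lt_pow_left₀ hab' hx0.le (by norm_num)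
  have h5 : ((a : ℝ) * b) ^ 3 ≤ (x : ℝ) ^ 3 := by
    calc ((a : ℝ) * b) ^ 3 = (a : ℝ) ^ 3 * (b : ℝ) ^ 3 := by ring
      _ ≤ (x : ℝ) ^ 2 * x := mul_le_mul ha3 hb3 (by positivity) (by positivity)
      _ = (x : ℝ) ^ 3 := by ring
  linarith

theorem Aset_lt (x : ℕ) (hx : 1 ≤ x) (δ θ : ℝ) (hθ : θ < 1) (a b : ℕ) (ha : Aset x δ θ a)
    (hab : x < a * b) : ∀ p ∈ a.primeFactors, p < b := by
  intro p hp
  obtain ⟨hsq, h1, h2, h3⟩ := ha
  have hap : (a : ℝ) * p ≤ x := (h3 p hp).2.trans (D3_rpow_le x hx θ hθ)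
  have hap' : a * p ≤ x := by exact_mod_cast hap
  exact Nat.lt_of_mul_lt_mul_left (lt_of_le_of_lt hap' hab)

/-- elementary properties of the minorant -/
theorem ew_bound (δ θ : ℝ) (hδ : 0 < δ) (hδ1 : δ ≤ 1) (hθ : θ < 1) : ∃ x₀ : ℕ, ∀ x : ℕ, x₀ ≤ x → ∀ m : ℕ,
    x < m → m ≤ 3 * x → 0 ≤ ew x δ θ m ∧ ew x δ θ m ≤ 1 ∧
      (ew x δ θ m ≠ 0 → Squarefree m ∧ m.primeFactors.card ≤ 3 ∧
        ∀ p ∈ m.primeFactors, (x : ℝ) ^ δ < p) := by
  classical
  refine ⟨2, fun x hx m hm1 hm2 => ?_⟩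
  have hx1 : (1 : ℝ) ≤ x := by exact_mod_cast (by omega : 1 ≤ x)
  have hx0 : (0 : ℝ) < x := by linarith
  have hm2' : (m : ℝ) ≤ 3 * x := by exact_mod_cast hm2
  have hm0 : 0 < m := by omega
  by_cases hp : m.Prime
  · -- a prime
    have hS : m.primeFactors.filter (fun b => Aset x δ θ (m / b)) = ∅ := by
      rw [filter_eq_empty_iff]
      intro b hb hA
      rw [Nat.Prime.primeFactors hp, mem_singleton] at hb
      rw [hb, Nat.div_self hm0] at hA
      have := hA.2.1
      simp at this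
    have hew : ew x δ θ m = Real.log m / Real.log (3 * x) := by
      unfold ew
      rw [if_pos hp, hS, sum_empty, add_zero]
    have hlm : 0 < Real.log m := Real.log_pos (by exact_mod_cast hp.one_lt)
    have hl3 : Real.log m ≤ Real.log (3 * x) := Real.log_le_log (by exact_mod_cast hm0) hm2'
    have hl3' : 0 < Real.log (3 * x) := lt_of_lt_of_le hlm hl3
    rw [hew]
    refine ⟨by positivity, (div_le_one hl3').2 hl3, fun _ => ⟨hp.prime.squarefree, ?_, ?_⟩⟩
    · rw [Nat.Prime.primeFactors hp, card_singleton]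
      omega
    · intro p hp2
      rw [Nat.Prime.primeFactors hp, mem_singleton] at hp2
      rw [hp2]
      calc (x : ℝ) ^ δ ≤ (x : ℝ) ^ (1 : ℝ) := Real.rpow_le_rpow_of_exponent_le hx1 hδ1
        _ = x := Real.rpow_one _
        _ < m := by exact_mod_cast hm1
  · -- not a prime
    have hew : ew x δ θ m = ∑ b ∈ m.primeFactors.filter (fun b => Aset x δ θ (m / b)),
        Real.log b / Real.log (3 * x / ((m / b : ℕ) : ℝ)) := by
      unfold ew
      rw [if_neg hp, zero_add]
    -- facts on a member of the filter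
    have hmem : ∀ b ∈ m.primeFactors.filter (fun b => Aset x δ θ (m / b)),
        b.Prime ∧ m / b * b = m ∧ Aset x δ θ (m / b) ∧ ∀ p ∈ (m / b).primeFactors, p < b := by
      intro b hb
      obtain ⟨h1, h2⟩ := mem_filter.1 hb
      have h3 : m / b * b = m := Nat.div_mul_cancel (Nat.dvd_of_mem_primeFactors h1)
      exact ⟨Nat.prime_of_mem_primeFactors h1, h3, h2,
        Aset_lt x (by omega) δ θ hθ _ b h2 (by rw [h3]; exact hm1)⟩
    have huniq : ∀ b ∈ m.primeFactors.filter (fun b => Aset x δ θ (m / b)),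
        ∀ b' ∈ m.primeFactors.filter (fun b => Aset x δ θ (m / b)), b' ≤ b := by
      intro b hb b' hb'
      by_contra hcon
      have hlt : b < b' := not_le.1 hcon
      obtain ⟨g1, g2, g3, g4⟩ := hmem b hb
      obtain ⟨g1', g2', g3', g4'⟩ := hmem b' hb'
      have hdvd : b' ∣ m / b := by
        have h5 : b' ∣ m / b * b := by
          rw [g2]
          exact Nat.dvd_of_mem_primeFactors (mem_filter.1 hb').1
        rcases (Nat.Prime.dvd_mul g1').1 h5 with h6 | h6
        · exact h6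
        · exact absurd (Nat.le_of_dvd g1.pos h6) (not_le.2 hlt)
      have hne : m / b ≠ 0 := by
        intro h0
        rw [h0, zero_mul] at g2
        omega
      have := g4 b' (Nat.mem_primeFactors.2 ⟨g1', hdvd, hne⟩)
      omega
    rcases (m.primeFactors.filter (fun b => Aset x δ θ (m / b))).eq_empty_or_nonempty with hS | hS
    · rw [hew, hS, sum_empty]
      exact ⟨le_rfl, zero_le_one, fun h => absurd rfl h⟩
    · obtain ⟨b, hb⟩ := hS
      have hsingle : m.primeFactors.filter (fun b => Aset x δ θ (m / b)) = {b} := by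
        ext b'
        rw [mem_singleton]
        constructor
        · intro hb'
          exact le_antisymm (huniq b hb b' hb') (huniq b' hb' b hb)
        · rintro rfl
          exact hb
      rw [hsingle, sum_singleton] at hew
      obtain ⟨g1, g2, g3, g4⟩ := hmem b hb
      set a : ℕ := m / b with ha
      have ha0 : 0 < a := by
        rcases Nat.eq_zero_or_pos a with h0 | h0
        · rw [h0, zero_mul] at g2
          omega
        · exact h0
      have ha0' : (0 : ℝ) < a := by exact_mod_cast ha0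
      have hb1 : (1 : ℝ) < b := by exact_mod_cast g1.one_lt
      have hlb : 0 < Real.log b := Real.log_pos hb1
      have hba : (b : ℝ) ≤ 3 * x / a := by
        rw [le_div_iff₀ ha0']
        have : ((a * b : ℕ) : ℝ) ≤ 3 * x := by rw [g2]; exact hm2'
        push_cast at this
        linarith
      have hll : Real.log b ≤ Real.log (3 * x / a) := Real.log_le_log (by linarith) hba
      have hl3 : 0 < Real.log (3 * x / a) := lt_of_lt_of_le hlb hll
      rw [hew]
      refine ⟨by positivity, (div_le_one hl3).2 hll, fun _ => ?_⟩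
      have hcop : Nat.Coprime a b := by
        rw [Nat.coprime_comm, Nat.Prime.coprime_iff_not_dvd g1]
        intro hdvd
        have := g4 b (Nat.mem_primeFactors.2 ⟨g1, hdvd, ha0.ne'⟩)
        omega
      obtain ⟨hsq, hc1, hc2, hc3⟩ := g3
      refine ⟨?_, ?_, ?_⟩
      · rw [← g2, Nat.squarefree_mul hcop]
        exact ⟨hsq, g1.prime.squarefree⟩
      · have h6 : m.primeFactors.card ≤ a.primeFactors.card + 1 := by
          rw [← g2, Nat.Coprime.primeFactors_mul hcop, Nat.Prime.primeFactors g1]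
          exact card_union_le _ _
        omega
      · intro p hp2
        rw [← g2, Nat.Coprime.primeFactors_mul hcop, mem_union] at hp2
        rcases hp2 with hp2 | hp2
        · exact (hc3 p hp2).1
        · rw [Nat.Prime.primeFactors g1, mem_singleton] at hp2
          obtain ⟨p', hp'⟩ := card_pos.1 (show 0 < a.primeFactors.card by omega)
          have h7 := (hc3 p' hp').1
          have h8 : (p' : ℝ) < b := by exact_mod_cast g4 p' hp'
          rw [hp2]
          exact h7.trans h8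

end Pool.Agent.Lib.MP_092512_nt.P3
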