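import Mathlib
import Pool.Agent.Lib.MP_092512_nt.P3.DDefs
import Pool.Agent.Lib.MP_092512_nt.P3.D2
import Pool.Agent.Lib.MP_092512_nt.P3.D3

/-!
# D3: the minorant `ew`: bounds, support, and the lower bound by any set of cofactors

PROOFS.
* `Aset_large`: `a ∈ Aset`, `x < a b`. If `a = p` is prime: `a^2 ≤ x^θ ≤ x`, so `b > x/a ≥ x^(1/2)`. If `a = p q`, `p < q`:
  `p q^2 ≤ x`, `a^3 = p^3 q^3 ≤ (p q^2)^2 ≤ x^2`, so `b > x/a ≥ x^(1/3)`. (`x ≥ 1`. Also the case of the real power: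
  `a ≤ x^(2/3)` and `x^(1/3) x^(2/3) = x`.)
* `Aset_lt`: for every prime `p ∣ a`: `b > x/a ≥ p x^(-θ) x ≥ p` (`a p ≤ x^θ ≤ x`).
* `ew_bound`: `x ≥ 2` large, `x < m ≤ 3x`. If `m` is prime: the filter is empty (`b = m`, `m/b = 1` has no prime factor), so
  `ew = log m/log(3x) ∈ (0, 1]`, `m > x ≥ x^δ`. If `m` is not prime: the first term is `0`; a prime `b ∣ m` in the filter has
  `a = m/b ∈ Aset`, `x < a b`, so `b` is larger than all prime factors of `a` (`Aset_lt`): it is the largest prime factor of `m`, so the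
  filter has at most one element; then `m = a b` with `b ∤ a` is squarefree with `≤ 3` prime factors, all `> x^δ` (`b > p > x^δ`
  for some `p ∣ a`), and the term is `log b/log(3x/a) ∈ [0, 1]` because `1 ≤ b = m/a ≤ 3x/a`, `b ≥ 2`.
* `D3_lower`: `ew m f m = [m prime] (..) f m + ∑_{b} (log b/log(3x/(m/b))) f m`; the pairs `(a, b)`, `a ∈ A`, `b` prime,
  `x + h0 < a b ≤ 2x + h0`, map injectively to the pairs `(m, b) = (a b, b)` of the double sum, all terms are nonnegative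
  (`log b ≥ 0`, and `log(3x/(m/b)) ≥ 0` because `m/b ≤ m/2 ≤ 3x`: for `b ∣ m` prime, `m ≤ 2x + h0 ≤ 3 x`), `f (a b) = f a` is
  the hypothesis.
* `D3_LV`: `D3_lower` with `f = LV^2`, `LV (a b) = LV a` by `Aset_large` and `LV_mul_prime`.
-/

set_option autoImplicit false

open Finset Filter

namespace Pool.Agent.Lib.MP_092512_nt.P3

open Pool.Agent.Lib.SW

open scoped Classical in
private noncomputable def D3bQ (x : ℕ) (δ θ : ℝ) (m : ℕ) : Finset ℕ :=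
  m.primeFactors.filter (fun b => Aset x δ θ (m / b))

private theorem D3b_ew (x : ℕ) (δ θ : ℝ) (m : ℕ) : ew x δ θ m =
    (if m.Prime then Real.log m / Real.log (3 * x) else 0) +
    ∑ b ∈ D3bQ x δ θ m, Real.log b / Real.log (3 * x / ((m / b : ℕ) : ℝ)) := by
  unfold ew D3bQ
  rfl

private theorem D3b_mem {x : ℕ} {δ θ : ℝ} {m b : ℕ} :
    b ∈ D3bQ x δ θ m ↔ (b.Prime ∧ b ∣ m ∧ m ≠ 0) ∧ Aset x δ θ (m / b) := by
  classical
  unfold D3bQ
  rw [mem_filter, Nat.mem_primeFactors]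

theorem D3_lower (x h0 : ℕ) (hx : 2 ≤ x) (hh : h0 ≤ x) (δ θ : ℝ) (hθ : θ < 1) (A : Finset ℕ)
    (hA : ∀ a ∈ A, Aset x δ θ a) (f : ℕ → ℝ) (hf : ∀ m, 0 ≤ f m)
    (hfa : ∀ a ∈ A, ∀ b : ℕ, b.Prime → x + h0 < a * b → f (a * b) = f a) :
    ∑ p ∈ (Ioc (x + h0) (2 * x + h0)).filter Nat.Prime, Real.log p / Real.log (3 * x) * f p +
        ∑ a ∈ A, f a * TS x h0 a / Real.log (3 * x / a) ≤
      ∑ m ∈ Ioc (x + h0) (2 * x + h0), ew x δ θ m * f m := by
  classical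
  have h1 : ∑ m ∈ Ioc (x + h0) (2 * x + h0), ew x δ θ m * f m =
      ∑ p ∈ (Ioc (x + h0) (2 * x + h0)).filter Nat.Prime, Real.log p / Real.log (3 * x) * f p +
        ∑ m ∈ Ioc (x + h0) (2 * x + h0), ∑ b ∈ D3bQ x δ θ m,
          Real.log b / Real.log (3 * x / ((m / b : ℕ) : ℝ)) * f m := by
    rw [sum_filter, ← sum_add_distrib]
    refine sum_congr rfl fun m _ => ?_
    rw [D3b_ew, add_mul, sum_mul]
    congr 1
    split_ifs
    · rfl
    · rw [zero_mul]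
  rw [h1]
  apply add_le_add le_rfl
  -- the left side as a sum over pairs
  set P : ℕ → Finset ℕ := fun a => (Icc 1 (2 * x + h0)).filter
    (fun b => b.Prime ∧ x + h0 < a * b ∧ a * b ≤ 2 * x + h0) with hP
  have h2 : ∑ a ∈ A, f a * TS x h0 a / Real.log (3 * x / a) =
      ∑ w ∈ A.sigma P, f (w.1 * w.2) * Real.log w.2 / Real.log (3 * x / w.1) := by
    rw [sum_sigma]
    refine sum_congr rfl fun a ha => ?_
    unfold TS
    rw [mul_sum, sum_div]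
    refine sum_congr rfl fun b hb => ?_
    rw [hP, mem_filter] at hb
    simp only
    rw [hfa a ha b hb.2.1 hb.2.2.1]
  have h3 : ∑ m ∈ Ioc (x + h0) (2 * x + h0), ∑ b ∈ D3bQ x δ θ m,
      Real.log b / Real.log (3 * x / ((m / b : ℕ) : ℝ)) * f m =
      ∑ w ∈ (Ioc (x + h0) (2 * x + h0)).sigma (fun m => D3bQ x δ θ m),
        Real.log w.2 / Real.log (3 * x / ((w.1 / w.2 : ℕ) : ℝ)) * f w.1 := by
    rw [sum_sigma]
  rw [h2, h3]
  set e : ((_ : ℕ) × ℕ) → ((_ : ℕ) × ℕ) := fun w => ⟨w.1 * w.2, w.2⟩ with he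
  have hprop : ∀ w ∈ A.sigma P, w.1 ∈ A ∧ w.2.Prime ∧ x + h0 < w.1 * w.2 ∧ w.1 * w.2 ≤ 2 * x + h0 := by
    intro w hw
    rw [mem_sigma, hP, mem_filter] at hw
    exact ⟨hw.1, hw.2.2.1, hw.2.2.2.1, hw.2.2.2.2⟩
  have hinj : Set.InjOn e ((A.sigma P : Finset ((_ : ℕ) × ℕ)) : Set ((_ : ℕ) × ℕ)) := by
    intro w hw w' hw' h
    obtain ⟨_, hp, _, _⟩ := hprop w (mem_coe.mp hw)
    rw [he] at h
    simp only [Sigma.mk.injEq] at h
    obtain ⟨h4, h5⟩ := h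
    have h6 : w.2 = w'.2 := eq_of_heq h5
    have h7 : w.1 = w'.1 := by
      rw [← h6] at h4
      exact Nat.eq_of_mul_eq_mul_right hp.pos h4
    exact Sigma.ext h7 h5
  have h4 : ∑ w ∈ A.sigma P, f (w.1 * w.2) * Real.log w.2 / Real.log (3 * x / w.1) =
      ∑ w ∈ (A.sigma P).image e,
        Real.log w.2 / Real.log (3 * x / ((w.1 / w.2 : ℕ) : ℝ)) * f w.1 := by
    rw [sum_image hinj]
    refine sum_congr rfl fun w hw => ?_
    obtain ⟨_, hp, _, _⟩ := hprop w hw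
    rw [he]
    simp only
    rw [Nat.mul_div_cancel _ hp.pos]
    ring
  rw [h4]
  apply sum_le_sum_of_subset_of_nonneg
  · intro w hw
    rw [mem_image] at hw
    obtain ⟨v, hv, rfl⟩ := hw
    obtain ⟨ha, hp, hlo, hhi⟩ := hprop v hv
    rw [he, mem_sigma]
    simp only
    rw [mem_Ioc, D3b_mem, Nat.mul_div_cancel _ hp.pos]
    exact ⟨⟨hlo, hhi⟩, ⟨hp, dvd_mul_left _ _, by omega⟩, hA _ ha⟩
  · intro w hw _
    rw [mem_sigma, mem_Ioc, D3b_mem] at hw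
    obtain ⟨⟨hlo, hhi⟩, ⟨hp, hdvd, h0'⟩, _⟩ := hw
    apply mul_nonneg _ (hf _)
    apply div_nonneg (Real.log_natCast_nonneg _)
    apply Real.log_nonneg
    have h5 : 0 < w.1 / w.2 := Nat.div_pos (Nat.le_of_dvd (by omega) hdvd) hp.pos
    have h6 : w.1 / w.2 ≤ 3 * x := (Nat.div_le_self _ _).trans (by omega)
    have h7 : (0 : ℝ) < ((w.1 / w.2 : ℕ) : ℝ) := by exact_mod_cast h5
    rw [one_le_div h7]
    exact_mod_cast h6

theorem D3_LV (x h0 z : ℕ) (hx : 2 ≤ x) (hh : h0 ≤ x) (δ θ : ℝ) (hθ : θ < 1) (A : Finset ℕ)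
    (hA : ∀ a ∈ A, Aset x δ θ a) (η : ℝ) (hη : 0 < η) (len : ℕ) (v : ℕ → ℝ) (hlen : (len : ℝ) * η ≤ 1 / 3) :
    ∑ p ∈ (Ioc (x + h0) (2 * x + h0)).filter Nat.Prime,
          Real.log p / Real.log (3 * x) * LV x z η len v p ^ 2 +
        ∑ a ∈ A, LV x z η len v a ^ 2 * TS x h0 a / Real.log (3 * x / a) ≤
      ∑ m ∈ Ioc (x + h0) (2 * x + h0), ew x δ θ m * LV x z η len v m ^ 2 := by
  apply D3_lower x h0 hx hh δ θ hθ A hA (fun m => LV x z η len v m ^ 2) (fun m => sq_nonneg _)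
  intro a ha b hb hab
  have h1 : (x : ℝ) ^ (1 / 3 : ℝ) < b :=
    Aset_large x (by omega) δ θ hθ a b (hA a ha) (by omega)
  rw [LV_mul_prime x z (by omega) η hη len v hlen a b (hA a ha).1.ne_zero hb h1]

end Pool.Agent.Lib.MP_092512_nt.P3
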