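import Mathlib
import Pool.Agent.Lib.MP_092512_nt.P3.DDefs
import Pool.Agent.Lib.MP_092512_nt.P3.C1
import Pool.Agent.Lib.MP_092512_nt.P3.D0
import Pool.Agent.Lib.MP_092512_nt.P3.D2
import Pool.Agent.Lib.MP_092512_nt.P3.D2b

/-!
# D5: the prime part, and pointwise lower bounds for the contribution of a cofactor `p` or `p q`

PROOFS (`z = zB B x`, `L = log x`, `V∞ = VV η len v`).
* `D5_prime_part`: for a prime `p > x` (`p ∈ (x+h0, 2x+h0]`): `LV p = LV 1` (`LV_mul_prime` with `a = 1`, `p > x ≥ x^(1/3)`), the sum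
  of `log p` over these primes is `TS x h0 1`, so the left side is `(TS x h0 1/log(3x)) LV(1)^2`, with `TS x h0 1 ≥ (1 - ε') x`
  (`D0_TS_asymp` with `a = 1 ≤ x^(1/2)`), `log(3x)/log x → 1`, `LV(1) → V∞(1)` (`D2_LV_one`).
* `D5_point1`: `u = lg x p ≤ 1 - κ`, so `1 - u ≥ κ`; `log(3x/p) = (1-u) L + log 3 > 0`, so
  `L/log(3x/p) = 1/(1 - u + log 3/L) ≥ 1/(1-u) - ε'` (the difference is `≤ log 3/(κ^2 L)`), `TS x h0 p ≥ (1 - ε') x/p`
  (`D0_TS_asymp`), `|LV p - V∞(u)| ≤ ε'` (`D2_LV_prime`; `p > x^κ > z` by `C1_zB_le_rpow`), `|V∞(u)| ≤ η ∑|v j| =: M`: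
  `LV p^2 ≥ V∞(u)^2 - 2 M ε'`. The product of the three lower bounds (`1/(1-u) ≤ 1/κ`) is `≥ V∞(u)^2/(1-u) - ε` for small `ε'`.
  (If a lower bound is negative use that the product is `≥ 0`; simplest: `A^2 B C ≥ A0^2 B0 C0 - ...` with
  `B ≥ B0 - ε'`, `C ≥ 1 - ε'`, all of `A, A0, B0` bounded; or write `A = A0 + O(ε')` etc. with absolute values.)
* `D5_point2`: the same with `p q`, `lg x (p q) = u + w`, `D2_LV_two`, `|XX| ≤ 3 M`.
-/

set_option autoImplicit false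

open Finset Filter

namespace Pool.Agent.Lib.MP_092512_nt.P3

open Pool.Agent.Lib.SW

private theorem D5b_key (A A0 M e κ c L T y ε : ℝ) (he0 : 0 < e) (he1 : e ≤ 1) (hκ : 0 < κ)
    (hc : κ ≤ c) (hL : 0 < L) (hlog : Real.log 3 ≤ e * L) (hy : 0 ≤ y) (hT : (1 - e) * y ≤ T)
    (hA : |A - A0| ≤ e) (hM : |A0| ≤ M)
    (hε : e * (2 * M / κ + (M + 1) ^ 2 / κ + (M + 1) ^ 2 / κ ^ 2) ≤ ε) :
    y / L * (A0 ^ 2 / c - ε) ≤ A ^ 2 * T / (c * L + Real.log 3) := by
  have hc0 : 0 < c := lt_of_lt_of_le hκ hc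
  have hl3 : 0 < Real.log 3 := Real.log_pos (by norm_num)
  have hM0 : 0 ≤ M := le_trans (abs_nonneg _) hM
  have hD : 0 < c * L + Real.log 3 := by positivity
  obtain ⟨t, ht⟩ : ∃ t : ℝ, t = Real.log 3 / L := ⟨_, rfl⟩
  have ht0 : 0 < t := by rw [ht]; positivity
  have hte : t ≤ e := by rw [ht, div_le_iff₀ hL]; exact hlog
  have hlt : Real.log 3 = t * L := by rw [ht]; field_simp
  have hA1 := abs_le.mp hA
  have hM1 := abs_le.mp hM
  have hAu : A ^ 2 ≤ (M + 1) ^ 2 := by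
    apply sq_le_sq'
    · linarith [hA1.1, hM1.1]
    · linarith [hA1.2, hM1.2]
  have hAl : A0 ^ 2 - 2 * M * e ≤ A ^ 2 := by
    have h1 : |A0 * (A - A0)| ≤ M * e := by
      rw [abs_mul]
      exact mul_le_mul hM hA (abs_nonneg _) hM0
    have h2 := (abs_le.mp h1).1
    nlinarith [sq_nonneg (A - A0)]
  -- the quotient
  have hq : y / L * (A0 ^ 2 / c - ε) ≤ A ^ 2 * ((1 - e) * y) / (c * L + Real.log 3) := by
    have h1 : A ^ 2 * ((1 - e) * y) / (c * L + Real.log 3) = y / L * (A ^ 2 * (1 - e) / (c + t)) := by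
      rw [hlt]
      have : c * L + t * L ≠ 0 := by rw [← hlt]; exact hD.ne'
      have : c + t ≠ 0 := by positivity
      field_simp
    rw [h1]
    refine mul_le_mul_of_nonneg_left ?_ (by positivity)
    have hct : 0 < c + t := by positivity
    have hb1 : 1 / c - t / κ ^ 2 ≤ 1 / (c + t) := by
      have h2 : 1 / c - 1 / (c + t) = t / (c * (c + t)) := by
        field_simp
        ring
      have h3 : t / (c * (c + t)) ≤ t / κ ^ 2 := by
        refine div_le_div_of_nonneg_left ht0.le (by positivity) ?_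
        nlinarith
      linarith
    have hc1 : 1 / c ≤ 1 / κ := one_div_le_one_div_of_le hκ hc
    have hc2 : 0 < 1 / c := by positivity
    have hb2 : 1 / c - t / κ ^ 2 - e / κ ≤ (1 - e) * (1 / (c + t)) := by
      have h2 : 1 / (c + t) ≤ 1 / κ := one_div_le_one_div_of_le hκ (by linarith)
      have h3 : e * (1 / (c + t)) ≤ e * (1 / κ) := mul_le_mul_of_nonneg_left h2 he0.le
      have h4 : e * (1 / κ) = e / κ := by ring
      linarith
    have hb3 : A ^ 2 * (1 / c - t / κ ^ 2 - e / κ) ≤ A ^ 2 * ((1 - e) * (1 / (c + t))) :=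
      mul_le_mul_of_nonneg_left hb2 (sq_nonneg _)
    have hb4 : A ^ 2 * ((1 - e) * (1 / (c + t))) = A ^ 2 * (1 - e) / (c + t) := by ring
    have hb5 : (A0 ^ 2 - 2 * M * e) * (1 / c) ≤ A ^ 2 * (1 / c) :=
      mul_le_mul_of_nonneg_right hAl hc2.le
    have hb6 : 2 * M * e * (1 / c) ≤ 2 * M * e * (1 / κ) :=
      mul_le_mul_of_nonneg_left hc1 (by positivity)
    have hb7 : A ^ 2 * (t / κ ^ 2 + e / κ) ≤ (M + 1) ^ 2 * (e / κ ^ 2 + e / κ) := by
      refine mul_le_mul hAu ?_ (by positivity) (by positivity)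
      have : t / κ ^ 2 ≤ e / κ ^ 2 := div_le_div_of_nonneg_right hte (by positivity)
      linarith
    have hb8 : e * (2 * M / κ + (M + 1) ^ 2 / κ + (M + 1) ^ 2 / κ ^ 2) =
        2 * M * e * (1 / κ) + (M + 1) ^ 2 * (e / κ ^ 2 + e / κ) := by ring
    have hb9 : A0 ^ 2 / c = A0 ^ 2 * (1 / c) := by ring
    rw [hb8] at hε
    rw [hb4] at hb3
    rw [hb9]
    nlinarith
  refine hq.trans ?_
  refine div_le_div_of_nonneg_right ?_ hD.le
  exact mul_le_mul_of_nonneg_left hT (sq_nonneg _)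

private theorem D5b_cl (η : ℝ) (hη : 0 < η) (i : ℕ) (u : ℝ) : |cl η i u| ≤ η := by
  unfold cl
  have h1 : 0 ≤ min (max (u - i * η) 0) η := le_min (le_max_right _ _) hη.le
  rw [abs_of_nonneg h1]
  exact min_le_right _ _

private theorem D5b_VV (η : ℝ) (hη : 0 < η) (len : ℕ) (v : ℕ → ℝ) (u : ℝ) :
    |VV η len v u| ≤ ∑ i ∈ range len, |v i| * η := by
  unfold VV
  refine (abs_sum_le_sum_abs _ _).trans ?_
  refine sum_le_sum fun i _ => ?_
  rw [abs_mul]
  exact mul_le_mul_of_nonneg_left (D5b_cl η hη i u) (abs_nonneg _)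

private theorem D5b_small (M κ ε : ℝ) (hM : 0 ≤ M) (hκ : 0 < κ) (hε : 0 < ε) :
    ∃ e : ℝ, 0 < e ∧ e ≤ 1 ∧ e * (2 * M / κ + (M + 1) ^ 2 / κ + (M + 1) ^ 2 / κ ^ 2) ≤ ε := by
  have hK : 0 < 2 * M / κ + (M + 1) ^ 2 / κ + (M + 1) ^ 2 / κ ^ 2 := by positivity
  refine ⟨min 1 (ε / (2 * M / κ + (M + 1) ^ 2 / κ + (M + 1) ^ 2 / κ ^ 2)), lt_min one_pos (by positivity),
    min_le_left _ _, ?_⟩
  calc min 1 (ε / (2 * M / κ + (M + 1) ^ 2 / κ + (M + 1) ^ 2 / κ ^ 2)) *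
        (2 * M / κ + (M + 1) ^ 2 / κ + (M + 1) ^ 2 / κ ^ 2)
      ≤ ε / (2 * M / κ + (M + 1) ^ 2 / κ + (M + 1) ^ 2 / κ ^ 2) *
        (2 * M / κ + (M + 1) ^ 2 / κ + (M + 1) ^ 2 / κ ^ 2) :=
        mul_le_mul_of_nonneg_right (min_le_right _ _) hK.le
    _ = ε := by field_simp

private theorem D5b_log (e : ℝ) (he : 0 < e) : ∀ᶠ x : ℕ in atTop, Real.log 3 ≤ e * Real.log x := by
  have h1 : Tendsto (fun x : ℕ => Real.log (x : ℝ)) atTop atTop :=
    Real.tendsto_log_atTop.comp tendsto_natCast_atTop_atTop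
  filter_upwards [h1.eventually_ge_atTop (Real.log 3 / e)] with x hx
  rw [div_le_iff₀ he] at hx
  linarith

theorem D5_point2 (B h0 : ℕ) (hB : 3 ≤ B) (η : ℝ) (hη : 0 < η) (len : ℕ) (v : ℕ → ℝ)
    (hlen : (len : ℝ) * η ≤ 1 / 3) (κ : ℝ) (hκ : 0 < κ) (ε : ℝ) (hε : 0 < ε) : ∀ᶠ x : ℕ in atTop,
    ∀ p q : ℕ, p.Prime → q.Prime → p ≠ q → (x : ℝ) ^ κ < p → (x : ℝ) ^ κ < q →
      ((p : ℝ) * q) ≤ (x : ℝ) ^ (1 - κ) →
      x / Real.log x * ((XX η len v (lg x p) (lg x q) ^ 2 / (1 - lg x p - lg x q) - ε) / ((p : ℝ) * q)) ≤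
        LV x (zB B x) η len v (p * q) ^ 2 * TS x h0 (p * q) / Real.log (3 * x / ((p * q : ℕ) : ℝ)) := by
  have hM0 : 0 ≤ ∑ i ∈ range len, |v i| * η := sum_nonneg fun i _ => by positivity
  obtain ⟨e, he0, he1, he⟩ := D5b_small (3 * ∑ i ∈ range len, |v i| * η) κ ε (by positivity) hκ hε
  filter_upwards [D0_TS_asymp h0 κ hκ e he0, D2_LV_two B hB η hη len v hlen e he0,
    D5b_log e he0, C1_zB_le_rpow B κ hκ, eventually_ge_atTop 2] with x hTS hLV hlog hzB hx2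
  intro p q hp hq hpq hp1 hq1 hp2
  have hx1 : (1 : ℝ) < x := by exact_mod_cast hx2
  have hx0 : (0 : ℝ) < x := by linarith
  have hp0 : (0 : ℝ) < p := by exact_mod_cast hp.pos
  have hq0 : (0 : ℝ) < q := by exact_mod_cast hq.pos
  have hL : 0 < Real.log x := Real.log_pos hx1
  have hT := hTS (p * q) (Nat.mul_pos hp.pos hq.pos) (by rw [Nat.cast_mul]; exact hp2)
  rw [Nat.cast_mul] at hT
  have hz : zB B x < p := by
    have : (zB B x : ℝ) < p := hzB.trans hp1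
    exact_mod_cast this
  have hz' : zB B x < q := by
    have : (zB B x : ℝ) < q := hzB.trans hq1
    exact_mod_cast this
  have hlp : Real.log p + Real.log q ≤ (1 - κ) * Real.log x := by
    rw [← Real.log_rpow hx0, ← Real.log_mul hp0.ne' hq0.ne']
    exact Real.log_le_log (by positivity) hp2
  have hc : κ ≤ 1 - lg x p - lg x q := by
    have : lg x p + lg x q ≤ 1 - κ := by
      unfold lg
      rw [← add_div, div_le_iff₀ hL]
      exact hlp
    linarith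
  have hlog3 : Real.log (3 * x / ((p * q : ℕ) : ℝ)) =
      (1 - lg x p - lg x q) * Real.log x + Real.log 3 := by
    rw [Nat.cast_mul, Real.log_div (by positivity) (by positivity), Real.log_mul (by norm_num) hx0.ne',
      Real.log_mul hp0.ne' hq0.ne']
    unfold lg
    field_simp
    ring
  have hXX : |XX η len v (lg x p) (lg x q)| ≤ 3 * ∑ i ∈ range len, |v i| * η := by
    unfold XX
    have h1 := D5b_VV η hη len v (lg x p)
    have h2 := D5b_VV η hη len v (lg x q)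
    have h3 := D5b_VV η hη len v (lg x p + lg x q)
    have h4 := abs_le.mp h1
    have h5 := abs_le.mp h2
    have h6 := abs_le.mp h3
    rw [abs_le]
    constructor
    · linarith [h4.1, h5.1, h6.2]
    · linarith [h4.2, h5.2, h6.1]
  have hk := D5b_key (LV x (zB B x) η len v (p * q)) (XX η len v (lg x p) (lg x q))
    (3 * ∑ i ∈ range len, |v i| * η) e κ
    (1 - lg x p - lg x q) (Real.log x) (TS x h0 (p * q)) (x / ((p : ℝ) * q)) ε he0 he1 hκ hc hL hlog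
    (by positivity)
    (by linarith [(abs_le.mp hT).1]) (hLV p q hp hq hpq hz hz') hXX he
  rw [hlog3]
  refine le_of_eq_of_le ?_ hk
  ring

end Pool.Agent.Lib.MP_092512_nt.P3
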