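import Mathlib
import Pool.Agent.Lib.MP_092512_nt.P3.DDefs
import Pool.Agent.Lib.MP_092512_nt.P3.D0m
import Pool.Agent.Lib.MP_092512_nt.P3.D1
import Pool.Agent.Lib.MP_092512_nt.P3.D5

/-!
# D6: one cell, one box, one diagonal square

PROOFS. `VV` is continuous (`cl` is), so is `XX` (in both variables).
* `D6_cell`: let `I = ∫ VV`, `J = ∫ u(1-u) > 0` over `[a0, a1]` (`a1 ≤ 1/2`), `t = I/J`, `κ` with `κ < a0`, `a1 ≤ 1 - κ`. For `w = 1 - u > 0`:
  `A^2/w ≥ 2 t A u - t^2 u^2 w` (`(A - t u w)^2 ≥ 0`). So by `D5_point1` the sum is at least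
  `x/log x ∑_p (2 t VV(u) u - t^2 u^2 (1-u) - ε')/p = x/log x (∑_p ψ(u) u/p - ε' ∑ 1/p)`, `ψ(u) = 2 t VV(u) - t^2 u (1-u)`;
  `∑ ψ(u) u/p → 2 t I - t^2 J = I^2/J` (`D1_one`), `∑ 1/p ≤ (a1 - a0 + 1)/a0` (`D0_sum_inv_le`), `ε'` small.
* `D6_box`: the same with `D5_point2`, `D1_two`, `ψ(u, w) = 2 t XX(u, w) - t^2 u w (1-u-w)`, `I = ∫∫ XX`,
  `J = ∫∫ u w (1-u-w) > 0` (`1 - u - w ≥ 1 - b1 - c1 > 0`), `∑∑ 1/(p q) ≤ ((b1-b0+1)/b0) ((c1-c0+1)/c0)`; `p < q` since
  `p ≤ x^b1 ≤ x^c0 < q`; `p q ≤ x^(b1+c1)`, `b1 + c1 < 1`.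
* `D6_diag`: the same with `D1_diag` on `p < q` in one interval (`XX` is symmetric), `s1 + s1 < 1`.
-/

set_option autoImplicit false

open Finset Filter

namespace Pool.Agent.Lib.MP_092512_nt.P3

open Pool.Agent.Lib.SW

theorem D6_VV_cont (η : ℝ) (len : ℕ) (v : ℕ → ℝ) : Continuous (fun u => VV η len v u) := by
  unfold VV cl
  fun_prop

theorem D6_cell (B h0 : ℕ) (hB : 3 ≤ B) (η : ℝ) (hη : 0 < η) (len : ℕ) (v : ℕ → ℝ)
    (hlen : (len : ℝ) * η ≤ 1 / 3) (a0 a1 : ℝ) (h1 : 0 < a0) (h2 : a0 < a1) (h3 : a1 < 1)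
    (ε : ℝ) (hε : 0 < ε) : ∀ᶠ x : ℕ in atTop,
    x / Real.log x * ((∫ u in a0..a1, VV η len v u) ^ 2 / (∫ u in a0..a1, u * (1 - u)) - ε) ≤
      ∑ p ∈ PP x a0 a1, LV x (zB B x) η len v p ^ 2 * TS x h0 p / Real.log (3 * x / p) := by
  have hVc := D6_VV_cont η len v
  set I : ℝ := ∫ u in a0..a1, VV η len v u with hI
  set J : ℝ := ∫ u in a0..a1, u * (1 - u) with hJ
  have hJpos : 0 < J := by
    rw [hJ]
    apply intervalIntegral.intervalIntegral_pos_of_pos_on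
    · apply Continuous.intervalIntegrable
      fun_prop
    · intro u hu
      exact mul_pos (by linarith [hu.1]) (by linarith [hu.2])
    · exact h2
  set t : ℝ := I / J with ht
  set κ : ℝ := min (a0 / 2) (1 - a1) with hκ
  have hκ0 : 0 < κ := lt_min (by linarith) (by linarith)
  have hκ1 : κ ≤ a0 := (min_le_left _ _).trans (by linarith)
  have hκ2 : a1 ≤ 1 - κ := by
    have := min_le_right (a0 / 2) (1 - a1)
    linarith
  set K : ℝ := (a1 - a0 + 1) / a0 with hK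
  have hKpos : 0 < K := div_pos (by linarith) h1
  set ψ : ℝ → ℝ := fun u => 2 * t * VV η len v u - t ^ 2 * (u * (1 - u)) with hψ
  have hψc : Continuous ψ := by
    rw [hψ]
    exact (continuous_const.mul hVc).sub (by fun_prop)
  have hψint : ∫ u in a0..a1, ψ u = I ^ 2 / J := by
    rw [hψ]
    rw [intervalIntegral.integral_sub, intervalIntegral.integral_const_mul,
      intervalIntegral.integral_const_mul, ← hI, ← hJ, ht]
    · field_simp
      ring
    · exact (continuous_const.mul hVc).intervalIntegrable _ _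
    · apply Continuous.intervalIntegrable
      fun_prop
  have hlim := D1_one a0 a1 h1 h2.le ψ hψc.continuousOn
  rw [hψint] at hlim
  have e1 : ∀ᶠ x : ℕ in atTop, I ^ 2 / J - ε / 2 < ∑ p ∈ PP x a0 a1, ψ (lg x p) * (lg x p / (p : ℝ)) :=
    hlim.eventually (lt_mem_nhds (by linarith))
  have e2 := D0_sum_inv_le a0 a1 h1 h2.le
  have e3 := D5_point1 B h0 hB η hη len v hlen κ hκ0 (ε / (2 * K)) (by positivity)
  filter_upwards [e1, e2, e3, eventually_ge_atTop 3] with x g1 g2 g3 g4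
  have hx1 : (1 : ℝ) < x := by exact_mod_cast (by omega : 1 < x)
  have hx0 : (0 : ℝ) < x := by linarith
  have hL : 0 < Real.log x := Real.log_pos hx1
  have hxL : 0 ≤ (x : ℝ) / Real.log x := by positivity
  have hterm : ∀ p ∈ PP x a0 a1,
      x / Real.log x * (ψ (lg x p) * (lg x p / (p : ℝ)) - ε / (2 * K) * (1 / (p : ℝ))) ≤
        LV x (zB B x) η len v p ^ 2 * TS x h0 p / Real.log (3 * x / p) := by
    intro p hp
    obtain ⟨hpp, hp1, hp2⟩ := mem_PP.mp hp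
    obtain ⟨hu1, hu2⟩ := PP_lg (by omega : 2 ≤ x) hp
    have hp0 : (0 : ℝ) < p := by exact_mod_cast hpp.pos
    have k1 : (x : ℝ) ^ κ < p := lt_of_le_of_lt (Real.rpow_le_rpow_of_exponent_le hx1.le hκ1) hp1
    have k2 : (p : ℝ) ≤ (x : ℝ) ^ (1 - κ) := hp2.trans (Real.rpow_le_rpow_of_exponent_le hx1.le hκ2)
    refine le_trans ?_ (g3 p hpp k1 k2)
    apply mul_le_mul_of_nonneg_left _ hxL
    have hw : 0 < 1 - lg x p := by linarith
    have hsq : ψ (lg x p) * lg x p ≤ VV η len v (lg x p) ^ 2 / (1 - lg x p) := by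
      rw [le_div_iff₀ hw]
      have : ψ (lg x p) = 2 * t * VV η len v (lg x p) - t ^ 2 * (lg x p * (1 - lg x p)) := rfl
      rw [this]
      nlinarith [sq_nonneg (VV η len v (lg x p) - t * lg x p * (1 - lg x p))]
    have e5 : ψ (lg x p) * (lg x p / (p : ℝ)) - ε / (2 * K) * (1 / (p : ℝ)) =
        (ψ (lg x p) * lg x p - ε / (2 * K)) / p := by
      field_simp
    rw [e5]
    exact div_le_div_of_nonneg_right (by linarith) hp0.le
  refine le_trans ?_ (sum_le_sum hterm)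
  rw [← mul_sum]
  apply mul_le_mul_of_nonneg_left _ hxL
  rw [sum_sub_distrib, ← mul_sum]
  have e6 : ε / (2 * K) * ∑ p ∈ PP x a0 a1, 1 / (p : ℝ) ≤ ε / 2 := by
    have := mul_le_mul_of_nonneg_left g2 (by positivity : 0 ≤ ε / (2 * K))
    refine this.trans (le_of_eq ?_)
    rw [← hK]
    field_simp
  linarith

end Pool.Agent.Lib.MP_092512_nt.P3
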