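import Mathlib
import Pool.Agent.Lib.MP_092512_nt.P3.DDefs
import Pool.Agent.Lib.MP_092512_nt.P3.D0m
import Pool.Agent.Lib.MP_092512_nt.P3.D1
import Pool.Agent.Lib.MP_092512_nt.P3.D1b
import Pool.Agent.Lib.MP_092512_nt.P3.D5b

/-!
# D6: one cell, one box, one diagonal square

PROOFS. `VV` is continuous (`cl` is), so is `XX` (in both variables).
* `D6_cell`: let `I = ∫ VV`, `J = ∫ u(1-u) > 0` over `[a0, a1]` (`a1 ≤ 1/2`), `t = I/J`, `κ` with `κ < a0`, `a1 ≤ 1 - κ`. For `w = 1 - u > 0`: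
  `A^2/w ≥ 2 t A u - t^2 u^2 w` (`(A - t u w)^2 ≥ 0`). So by `D5_point1` the sum is at least
  `x/log x ∑_p (2 t VV(u) u - t^2 u^2 (1-u) - ε')/p = x/log x (∑_p ψ(u) u/p - ε' ∑ 1/p)`, `ψ(u) = 2 t VV(u) - t^2 u (1-u)`;
  `∑ ψ(u) u/p → 2 t I - t^2 J = I^2/J` (`D1_one`), `∑ 1/p ≤ (a1 - a0 + 1)/a0` (`D0_sum_inv_le`), `ε'` small.
* `D6_box`: the same with `D5_point2`, `D1_two`, `ψ(u, w) = 2 t XX(u, w) - t^2 u w (1-u-w)`, `I = ∫∫ XX`,
  `J = ∫∫ u w (1-u-w) > 0` (`1 - u - w ≥ 1 - b1 - c1 > 0`), `∑∑ 1/(p q) ≤ ((b1-b0+1)/b0) ((c1-c0+1)/c0)`; `p < q` since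
  `p ≤ x^b1 ≤ x^c0 < q`; `p q ≤ x^(b1+c1)`, `b1 + c1 < 1`.
* `D6_diag`: the same with `D1_diag` on `p < q` in one interval (`XX` is symmetric), `s1 + s1 < 1`.
-/

set_option autoImplicit false

open Finset Filter

namespace Pool.Agent.Lib.MP_092512_nt.P3

open Pool.Agent.Lib.SW

private theorem D6b_VV_cont (η : ℝ) (len : ℕ) (v : ℕ → ℝ) : Continuous (VV η len v) := by
  unfold VV cl
  fun_prop

private theorem D6b_XX_cont (η : ℝ) (len : ℕ) (v : ℕ → ℝ) :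
    Continuous (fun w : ℝ × ℝ => XX η len v w.1 w.2) := by
  unfold XX
  have h := D6b_VV_cont η len v
  exact ((h.comp continuous_fst).add (h.comp continuous_snd)).sub
    (h.comp (continuous_fst.add continuous_snd))

private noncomputable def D6bPsi (η : ℝ) (len : ℕ) (v : ℕ → ℝ) (t u w : ℝ) : ℝ :=
  2 * t * XX η len v u w - t ^ 2 * (u * w * (1 - u - w))

private theorem D6b_Psi_cont (η : ℝ) (len : ℕ) (v : ℕ → ℝ) (t : ℝ) :
    Continuous (fun w : ℝ × ℝ => D6bPsi η len v t w.1 w.2) := by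
  unfold D6bPsi
  have h := D6b_XX_cont η len v
  exact (continuous_const.mul h).sub (continuous_const.mul (by fun_prop))

/-- integral of `Psi` -/
private theorem D6b_Psi_int (η : ℝ) (len : ℕ) (v : ℕ → ℝ) (t a b c d : ℝ) :
    ∫ u in a..b, ∫ w in c..d, D6bPsi η len v t u w =
      2 * t * (∫ u in a..b, ∫ w in c..d, XX η len v u w) -
        t ^ 2 * ∫ u in a..b, ∫ w in c..d, u * w * (1 - u - w) := by
  have hX := D6b_XX_cont η len v
  have hP : Continuous (fun w : ℝ × ℝ => w.1 * w.2 * (1 - w.1 - w.2)) := by fun_prop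
  have hi1 : ∀ u : ℝ, IntervalIntegrable (fun w => XX η len v u w) MeasureTheory.volume c d := fun u =>
    (hX.comp (Continuous.prodMk continuous_const continuous_id)).intervalIntegrable _ _
  have hi2 : ∀ u : ℝ, IntervalIntegrable (fun w => u * w * (1 - u - w)) MeasureTheory.volume c d := fun u =>
    (hP.comp (Continuous.prodMk continuous_const continuous_id)).intervalIntegrable _ _
  have h1 : ∀ u : ℝ, ∫ w in c..d, D6bPsi η len v t u w =
      2 * t * (∫ w in c..d, XX η len v u w) - t ^ 2 * ∫ w in c..d, u * w * (1 - u - w) := by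
    intro u
    unfold D6bPsi
    rw [intervalIntegral.integral_sub ((hi1 u).const_mul _) ((hi2 u).const_mul _),
      intervalIntegral.integral_const_mul, intervalIntegral.integral_const_mul]
  simp_rw [h1]
  have hc1 : Continuous (fun u : ℝ => ∫ w in c..d, XX η len v u w) :=
    intervalIntegral.continuous_parametric_intervalIntegral_of_continuous' hX c d
  have hc2 : Continuous (fun u : ℝ => ∫ w in c..d, u * w * (1 - u - w)) :=
    intervalIntegral.continuous_parametric_intervalIntegral_of_continuous'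
      (f := fun u w : ℝ => u * w * (1 - u - w)) hP c d
  rw [intervalIntegral.integral_sub ((hc1.intervalIntegrable _ _).const_mul _)
    ((hc2.intervalIntegrable _ _).const_mul _),
    intervalIntegral.integral_const_mul, intervalIntegral.integral_const_mul]

private theorem D6b_J_pos (a b c d : ℝ) (ha : 0 < a) (hab : a < b) (hc : 0 < c) (hcd : c < d)
    (h : b + d < 1) : 0 < ∫ u in a..b, ∫ w in c..d, u * w * (1 - u - w) := by
  have hP : Continuous (fun w : ℝ × ℝ => w.1 * w.2 * (1 - w.1 - w.2)) := by fun_prop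
  have hc2 : Continuous (fun u : ℝ => ∫ w in c..d, u * w * (1 - u - w)) :=
    intervalIntegral.continuous_parametric_intervalIntegral_of_continuous'
      (f := fun u w : ℝ => u * w * (1 - u - w)) hP c d
  apply intervalIntegral.intervalIntegral_pos_of_pos_on (hc2.intervalIntegrable _ _) _ hab
  intro u hu
  apply intervalIntegral.intervalIntegral_pos_of_pos_on _ _ hcd
  · exact (hP.comp (Continuous.prodMk continuous_const continuous_id)).intervalIntegrable _ _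
  · intro w hw
    have h1 : 0 < u := lt_trans ha hu.1
    have h2 : 0 < w := lt_trans hc hw.1
    have h3 : 0 < 1 - u - w := by linarith [hu.2, hw.2]
    positivity

/-- the inequality for a general set of pairs -/
private theorem D6b_core (B h0 : ℕ) (hB : 3 ≤ B) (η : ℝ) (hη : 0 < η) (len : ℕ) (v : ℕ → ℝ)
    (hlen : (len : ℝ) * η ≤ 1 / 3) (b0 b1 c0 c1 : ℝ) (h1 : 0 < b0) (h2 : b0 < b1) (h3 : 0 < c0)
    (h4 : c0 < c1) (h5 : b1 + c1 < 1) (t L : ℝ) (S : ℕ → ℕ → Finset ℕ)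
    (hS : ∀ x p, 2 ≤ x → p ∈ PP x b0 b1 → S x p ⊆ PP x c0 c1 ∧ ∀ q ∈ S x p, p < q)
    (hL : Tendsto (fun x : ℕ => ∑ p ∈ PP x b0 b1, ∑ q ∈ S x p,
      D6bPsi η len v t (lg x p) (lg x q) * ((lg x p / (p : ℝ)) * (lg x q / (q : ℝ)))) atTop (nhds L))
    (ε : ℝ) (hε : 0 < ε) : ∀ᶠ x : ℕ in atTop,
    x / Real.log x * (L - ε) ≤
      ∑ p ∈ PP x b0 b1, ∑ q ∈ S x p,
        LV x (zB B x) η len v (p * q) ^ 2 * TS x h0 (p * q) / Real.log (3 * x / ((p * q : ℕ) : ℝ)) := by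
  obtain ⟨C, hC⟩ : ∃ C : ℝ, C = ((b1 - b0 + 1) / b0) * ((c1 - c0 + 1) / c0) := ⟨_, rfl⟩
  have hC1 : 0 < (b1 - b0 + 1) / b0 := div_pos (by linarith) h1
  have hC2 : 0 < (c1 - c0 + 1) / c0 := div_pos (by linarith) h3
  have hC0 : 0 < C := by rw [hC]; positivity
  obtain ⟨e, he⟩ : ∃ e : ℝ, e = ε / (2 * (C + 1)) := ⟨_, rfl⟩
  have he0 : 0 < e := by rw [he]; positivity
  obtain ⟨κ, hκ⟩ : ∃ κ : ℝ, κ = min (min b0 c0) (1 - (b1 + c1)) := ⟨_, rfl⟩
  have hκ0 : 0 < κ := by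
    rw [hκ]
    exact lt_min (lt_min h1 h3) (by linarith)
  have hκb : κ ≤ b0 := by rw [hκ]; exact (min_le_left _ _).trans (min_le_left _ _)
  have hκc : κ ≤ c0 := by rw [hκ]; exact (min_le_left _ _).trans (min_le_right _ _)
  have hκs : b1 + c1 ≤ 1 - κ := by
    have : κ ≤ 1 - (b1 + c1) := by rw [hκ]; exact min_le_right _ _
    linarith
  have hlow : ∀ᶠ x : ℕ in atTop, L - ε / 2 < ∑ p ∈ PP x b0 b1, ∑ q ∈ S x p,
      D6bPsi η len v t (lg x p) (lg x q) * ((lg x p / (p : ℝ)) * (lg x q / (q : ℝ))) :=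
    hL.eventually (lt_mem_nhds (by linarith))
  filter_upwards [eventually_ge_atTop 2, hlow, D0_sum_inv_le b0 b1 h1 h2.le, D0_sum_inv_le c0 c1 h3 h4.le,
    D5_point2 B h0 hB η hη len v hlen κ hκ0 e he0] with x hx2 k1 k2 k3 k4
  have hx1 : (1 : ℝ) ≤ x := by
    have : (2 : ℝ) ≤ x := by exact_mod_cast hx2
    linarith
  have hx0 : (0 : ℝ) < x := by linarith
  have hlog : 0 < Real.log x := Real.log_pos (by
    have : (2 : ℝ) ≤ x := by exact_mod_cast hx2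
    linarith)
  have hxl : 0 ≤ x / Real.log x := by positivity
  -- pointwise
  have key : ∀ p ∈ PP x b0 b1, ∀ q ∈ S x p,
      x / Real.log x * (D6bPsi η len v t (lg x p) (lg x q) * ((lg x p / (p : ℝ)) * (lg x q / (q : ℝ))) -
        e * ((1 / (p : ℝ)) * (1 / (q : ℝ)))) ≤
      LV x (zB B x) η len v (p * q) ^ 2 * TS x h0 (p * q) / Real.log (3 * x / ((p * q : ℕ) : ℝ)) := by
    intro p hp q hq
    obtain ⟨hSs, hSl⟩ := hS x p hx2 hp
    have hq' := hSs hq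
    have hpq := hSl q hq
    obtain ⟨hp0, hp1, hp2⟩ := mem_PP.mp hp
    obtain ⟨hq0, hq1, hq2⟩ := mem_PP.mp hq'
    have g1 : (x : ℝ) ^ κ < p := lt_of_le_of_lt (Real.rpow_le_rpow_of_exponent_le hx1 hκb) hp1
    have g2 : (x : ℝ) ^ κ < q := lt_of_le_of_lt (Real.rpow_le_rpow_of_exponent_le hx1 hκc) hq1
    have g3 : ((p : ℝ) * q) ≤ (x : ℝ) ^ (1 - κ) := by
      calc ((p : ℝ) * q) ≤ (x : ℝ) ^ b1 * (x : ℝ) ^ c1 := mul_le_mul hp2 hq2 (by positivity) (by positivity)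
        _ = (x : ℝ) ^ (b1 + c1) := by rw [Real.rpow_add hx0]
        _ ≤ _ := Real.rpow_le_rpow_of_exponent_le hx1 hκs
    have g4 := k4 p q hp0 hq0 hpq.ne g1 g2 g3
    refine le_trans (mul_le_mul_of_nonneg_left ?_ hxl) g4
    obtain ⟨u1, u2⟩ := PP_lg hx2 hp
    obtain ⟨w1, w2⟩ := PP_lg hx2 hq'
    set u := lg x p
    set w := lg x q
    have hω : 0 < 1 - u - w := by linarith
    have hpr : (0 : ℝ) < p := by exact_mod_cast hp0.pos
    have hqr : (0 : ℝ) < q := by exact_mod_cast hq0.pos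
    have hineq : D6bPsi η len v t u w * (u * w) ≤ XX η len v u w ^ 2 / (1 - u - w) := by
      rw [le_div_iff₀ hω]
      unfold D6bPsi
      nlinarith [sq_nonneg (XX η len v u w - t * (u * w * (1 - u - w)))]
    have e1 : D6bPsi η len v t u w * ((u / (p : ℝ)) * (w / (q : ℝ))) - e * ((1 / (p : ℝ)) * (1 / (q : ℝ))) =
        (D6bPsi η len v t u w * (u * w) - e) / ((p : ℝ) * q) := by
      field_simp
    rw [e1]
    apply div_le_div_of_nonneg_right _ (by positivity)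
    linarith
  -- sum of the reciprocals
  have hinv : ∑ p ∈ PP x b0 b1, ∑ q ∈ S x p, ((1 / (p : ℝ)) * (1 / (q : ℝ))) ≤ C := by
    calc ∑ p ∈ PP x b0 b1, ∑ q ∈ S x p, ((1 / (p : ℝ)) * (1 / (q : ℝ)))
        ≤ ∑ p ∈ PP x b0 b1, ∑ q ∈ PP x c0 c1, ((1 / (p : ℝ)) * (1 / (q : ℝ))) := by
          refine Finset.sum_le_sum fun p hp => ?_
          exact Finset.sum_le_sum_of_subset_of_nonneg (hS x p hx2 hp).1 (fun _ _ _ => by positivity)
      _ = (∑ p ∈ PP x b0 b1, 1 / (p : ℝ)) * (∑ q ∈ PP x c0 c1, 1 / (q : ℝ)) := by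
          rw [Finset.sum_mul_sum]
      _ ≤ C := by
          rw [hC]
          apply mul_le_mul k2 k3 (Finset.sum_nonneg fun _ _ => by positivity) hC1.le
  calc x / Real.log x * (L - ε)
      ≤ x / Real.log x * (∑ p ∈ PP x b0 b1, ∑ q ∈ S x p,
          D6bPsi η len v t (lg x p) (lg x q) * ((lg x p / (p : ℝ)) * (lg x q / (q : ℝ))) -
          e * ∑ p ∈ PP x b0 b1, ∑ q ∈ S x p, ((1 / (p : ℝ)) * (1 / (q : ℝ)))) := by
        apply mul_le_mul_of_nonneg_left _ hxl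
        have g5 : e * ∑ p ∈ PP x b0 b1, ∑ q ∈ S x p, ((1 / (p : ℝ)) * (1 / (q : ℝ))) ≤ e * C :=
          mul_le_mul_of_nonneg_left hinv he0.le
        have g6 : e * C ≤ ε / 2 := by
          rw [he, div_mul_eq_mul_div, div_le_div_iff₀ (by positivity) (by norm_num)]
          nlinarith
        linarith
    _ = ∑ p ∈ PP x b0 b1, ∑ q ∈ S x p, x / Real.log x * (D6bPsi η len v t (lg x p) (lg x q) *
          ((lg x p / (p : ℝ)) * (lg x q / (q : ℝ))) - e * ((1 / (p : ℝ)) * (1 / (q : ℝ)))) := by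
        simp only [Finset.mul_sum, ← Finset.sum_sub_distrib]
    _ ≤ _ := Finset.sum_le_sum fun p hp => Finset.sum_le_sum fun q hq => key p hp q hq

theorem D6_box (B h0 : ℕ) (hB : 3 ≤ B) (η : ℝ) (hη : 0 < η) (len : ℕ) (v : ℕ → ℝ)
    (hlen : (len : ℝ) * η ≤ 1 / 3) (b0 b1 c0 c1 : ℝ) (h1 : 0 < b0) (h2 : b0 < b1) (h3 : b1 ≤ c0)
    (h4 : c0 < c1) (h5 : b1 + c1 < 1) (ε : ℝ) (hε : 0 < ε) : ∀ᶠ x : ℕ in atTop,
    x / Real.log x * ((∫ u in b0..b1, ∫ w in c0..c1, XX η len v u w) ^ 2 /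
        (∫ u in b0..b1, ∫ w in c0..c1, u * w * (1 - u - w)) - ε) ≤
      ∑ p ∈ PP x b0 b1, ∑ q ∈ PP x c0 c1,
        LV x (zB B x) η len v (p * q) ^ 2 * TS x h0 (p * q) / Real.log (3 * x / ((p * q : ℕ) : ℝ)) := by
  have h3' : 0 < c0 := by linarith
  have hJ := D6b_J_pos b0 b1 c0 c1 h1 h2 h3' h4 h5
  obtain ⟨I, hI⟩ : ∃ I : ℝ, I = ∫ u in b0..b1, ∫ w in c0..c1, XX η len v u w := ⟨_, rfl⟩
  obtain ⟨J, hJd⟩ : ∃ J : ℝ, J = ∫ u in b0..b1, ∫ w in c0..c1, u * w * (1 - u - w) := ⟨_, rfl⟩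
  rw [← hI, ← hJd]
  rw [← hJd] at hJ
  have hlim := D1_two b0 b1 c0 c1 h1 h2.le h3' h4.le (D6bPsi η len v (I / J))
    (D6b_Psi_cont η len v (I / J)).continuousOn
  rw [D6b_Psi_int, ← hI, ← hJd] at hlim
  have hval : 2 * (I / J) * I - (I / J) ^ 2 * J = I ^ 2 / J := by
    field_simp
    ring
  rw [hval] at hlim
  refine D6b_core B h0 hB η hη len v hlen b0 b1 c0 c1 h1 h2 h3' h4 h5 (I / J) (I ^ 2 / J)
    (fun x _ => PP x c0 c1) ?_ hlim ε hε
  intro x p hx hp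
  refine ⟨fun _ h => h, fun q hq => ?_⟩
  obtain ⟨_, _, hp2⟩ := mem_PP.mp hp
  obtain ⟨_, hq1, _⟩ := mem_PP.mp hq
  have hx1 : (1 : ℝ) ≤ x := by
    have : (2 : ℝ) ≤ x := by exact_mod_cast hx
    linarith
  have h6 : (x : ℝ) ^ b1 ≤ (x : ℝ) ^ c0 := Real.rpow_le_rpow_of_exponent_le hx1 h3
  have h7 : (p : ℝ) < q := by linarith
  exact_mod_cast h7

theorem D6_diag (B h0 : ℕ) (hB : 3 ≤ B) (η : ℝ) (hη : 0 < η) (len : ℕ) (v : ℕ → ℝ)
    (hlen : (len : ℝ) * η ≤ 1 / 3) (s0 s1 : ℝ) (h1 : 0 < s0) (h2 : s0 < s1) (h5 : 2 * s1 < 1)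
    (ε : ℝ) (hε : 0 < ε) : ∀ᶠ x : ℕ in atTop,
    x / Real.log x * (1 / 2 * ((∫ u in s0..s1, ∫ w in s0..s1, XX η len v u w) ^ 2 /
        (∫ u in s0..s1, ∫ w in s0..s1, u * w * (1 - u - w))) - ε) ≤
      ∑ p ∈ PP x s0 s1, ∑ q ∈ (PP x s0 s1).filter (fun q => p < q),
        LV x (zB B x) η len v (p * q) ^ 2 * TS x h0 (p * q) / Real.log (3 * x / ((p * q : ℕ) : ℝ)) := by
  have hJ := D6b_J_pos s0 s1 s0 s1 h1 h2 h1 h2 (by linarith)
  obtain ⟨I, hI⟩ : ∃ I : ℝ, I = ∫ u in s0..s1, ∫ w in s0..s1, XX η len v u w := ⟨_, rfl⟩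
  obtain ⟨J, hJd⟩ : ∃ J : ℝ, J = ∫ u in s0..s1, ∫ w in s0..s1, u * w * (1 - u - w) := ⟨_, rfl⟩
  rw [← hI, ← hJd]
  rw [← hJd] at hJ
  have hlim := D1_diag s0 s1 h1 h2.le (D6bPsi η len v (I / J))
    (fun u w => by
      unfold D6bPsi XX
      rw [add_comm u w]
      ring)
    (D6b_Psi_cont η len v (I / J)).continuousOn
  rw [D6b_Psi_int, ← hI, ← hJd] at hlim
  have hval : 2 * (I / J) * I - (I / J) ^ 2 * J = I ^ 2 / J := by
    field_simp
    ring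
  rw [hval] at hlim
  refine D6b_core B h0 hB η hη len v hlen s0 s1 s0 s1 h1 h2 h1 h2 (by linarith) (I / J) (1 / 2 * (I ^ 2 / J))
    (fun x p => (PP x s0 s1).filter (fun q => p < q)) ?_ hlim ε hε
  intro x p hx hp
  exact ⟨Finset.filter_subset _ _, fun q hq => (mem_filter.mp hq).2⟩

end Pool.Agent.Lib.MP_092512_nt.P3
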