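import Mathlib
import Pool.Agent.Lib.MP_092512_nt.P3.DDefs
import Pool.Agent.Lib.MP_092512_nt.P3.D3b
import Pool.Agent.Lib.MP_092512_nt.P3.D5
import Pool.Agent.Lib.MP_092512_nt.P3.D6
import Pool.Agent.Lib.MP_092512_nt.P3.D6b
import Pool.Agent.Lib.MP_092512_nt.P3.D7

/-!
# D7: assembly of the lower bound `lower_box`

PROOF. For `x` large let `A` be the union of
`A₁ = ⋃_{i ∈ us} PP x (a0 i) (a1 i)`, `A₂ = ⋃_{i ∈ bs} {p q : p ∈ PP x (b0 i) (b1 i), q ∈ PP x (c0 i) (c1 i)}`,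
`A₃ = ⋃_{i ∈ ds} {p q : p < q, both in PP x (s0 i) (s1 i)}`. All elements are in `Aset x δ θ`: `p^2 ≤ x^(2 a1) ≤ x^θ`;
`p < q`, `p q q ≤ x^(b1 + 2 c1) ≤ x^θ` (and `p q p ≤ p q q`), resp. `x^(3 s1)`; all prime factors `> x^δ`. The three sets
are disjoint (primes versus products of two primes), the pieces of `A₁` are disjoint (`hus'`), the map `(p, q) ↦ p q` on pairs
`p < q` of primes is injective, and the index sets of pairs for the `bs` and `ds` are pairwise disjoint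
(`hbs'`, `hds'`, `hbd`). So `∑_{a ∈ A} F a = ∑_{us} ∑_{PP} F p + ∑_{bs} ∑∑ F (p q) + ∑_{ds} ∑∑ F (p q)` and `D3_LV`, `D5_prime_part`,
`D6_cell`, `D6_box`, `D6_diag` with `ε / (1 + #us + #bs + #ds)` each give the claim.
-/

set_option autoImplicit false

open Finset Filter

namespace Pool.Agent.Lib.MP_092512_nt.P3

open Pool.Agent.Lib.SW

/-- `us`: cells for `u` (two prime factors); `bs`: boxes for `(u, w)`; `ds`: diagonal squares -/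
theorem lower_box (B h0 len : ℕ) (hB : 3 ≤ B) (η δ θ : ℝ) (v : ℕ → ℝ) (hη : 0 < η)
    (hlen : (len : ℝ) * η ≤ 1 / 3)
    (hδ : 0 < δ) (hθ : θ < 1) {ι₁ ι₂ ι₃ : Type} (us : Finset ι₁) (bs : Finset ι₂) (ds : Finset ι₃)
    (a0 a1 : ι₁ → ℝ) (b0 b1 c0 c1 : ι₂ → ℝ) (s0 s1 : ι₃ → ℝ)
    (hus : ∀ i ∈ us, δ < a0 i ∧ a0 i < a1 i ∧ 2 * a1 i ≤ θ)
    (hus' : ∀ i ∈ us, ∀ j ∈ us, i ≠ j → a1 i ≤ a0 j ∨ a1 j ≤ a0 i)
    (hbs : ∀ i ∈ bs, δ < b0 i ∧ b0 i < b1 i ∧ b1 i ≤ c0 i ∧ c0 i < c1 i ∧ b1 i + 2 * c1 i ≤ θ)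
    (hbs' : ∀ i ∈ bs, ∀ j ∈ bs, i ≠ j → b1 i ≤ b0 j ∨ b1 j ≤ b0 i ∨ c1 i ≤ c0 j ∨ c1 j ≤ c0 i)
    (hds : ∀ i ∈ ds, δ < s0 i ∧ s0 i < s1 i ∧ 3 * s1 i ≤ θ)
    (hds' : ∀ i ∈ ds, ∀ j ∈ ds, i ≠ j → s1 i ≤ s0 j ∨ s1 j ≤ s0 i)
    (hbd : ∀ i ∈ bs, ∀ j ∈ ds, b1 i ≤ s0 j ∨ s1 j ≤ b0 i ∨ c1 i ≤ s0 j ∨ s1 j ≤ c0 i)
    (ε : ℝ) (hε : 0 < ε) :
    ∃ x₀ : ℕ, ∀ x : ℕ, x₀ ≤ x →
      x / Real.log x * (VV η len v 1 ^ 2 +
          ∑ i ∈ us, (∫ u in (a0 i)..(a1 i), VV η len v u) ^ 2 / (∫ u in (a0 i)..(a1 i), u * (1 - u)) +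
          ∑ i ∈ bs, (∫ u in (b0 i)..(b1 i), ∫ w in (c0 i)..(c1 i), XX η len v u w) ^ 2 /
            (∫ u in (b0 i)..(b1 i), ∫ w in (c0 i)..(c1 i), u * w * (1 - u - w)) +
          1 / 2 * ∑ i ∈ ds, (∫ u in (s0 i)..(s1 i), ∫ w in (s0 i)..(s1 i), XX η len v u w) ^ 2 /
            (∫ u in (s0 i)..(s1 i), ∫ w in (s0 i)..(s1 i), u * w * (1 - u - w)) - ε) ≤
        ∑ m ∈ Ioc (x + h0) (2 * x + h0), ew x δ θ m * LV x (zB B x) η len v m ^ 2 := by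
  obtain ⟨κ, hκ⟩ : ∃ κ : ℝ, κ = ε / (1 + us.card + bs.card + ds.card) := ⟨_, rfl⟩
  have hden : (0 : ℝ) < 1 + us.card + bs.card + ds.card := by positivity
  have hκ0 : 0 < κ := by rw [hκ]; positivity
  have h1 := D5_prime_part B h0 hB η hη len v hlen κ hκ0
  have h2 : ∀ i ∈ us, ∀ᶠ x : ℕ in atTop,
      x / Real.log x * ((∫ u in (a0 i)..(a1 i), VV η len v u) ^ 2 / (∫ u in (a0 i)..(a1 i), u * (1 - u)) - κ) ≤
      ∑ p ∈ PP x (a0 i) (a1 i), LV x (zB B x) η len v p ^ 2 * TS x h0 p / Real.log (3 * x / p) := by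
    intro i hi
    obtain ⟨g1, g2, g3⟩ := hus i hi
    exact D6_cell B h0 hB η hη len v hlen _ _ (by linarith) g2 (by linarith) κ hκ0
  have h3 : ∀ i ∈ bs, ∀ᶠ x : ℕ in atTop,
      x / Real.log x * ((∫ u in (b0 i)..(b1 i), ∫ w in (c0 i)..(c1 i), XX η len v u w) ^ 2 /
        (∫ u in (b0 i)..(b1 i), ∫ w in (c0 i)..(c1 i), u * w * (1 - u - w)) - κ) ≤
      ∑ p ∈ PP x (b0 i) (b1 i), ∑ q ∈ PP x (c0 i) (c1 i),
        LV x (zB B x) η len v (p * q) ^ 2 * TS x h0 (p * q) / Real.log (3 * x / ((p * q : ℕ) : ℝ)) := by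
    intro i hi
    obtain ⟨g1, g2, g3, g4, g5⟩ := hbs i hi
    exact D6_box B h0 hB η hη len v hlen _ _ _ _ (by linarith) g2 g3 g4 (by linarith) κ hκ0
  have h4 : ∀ i ∈ ds, ∀ᶠ x : ℕ in atTop,
      x / Real.log x * (1 / 2 * ((∫ u in (s0 i)..(s1 i), ∫ w in (s0 i)..(s1 i), XX η len v u w) ^ 2 /
        (∫ u in (s0 i)..(s1 i), ∫ w in (s0 i)..(s1 i), u * w * (1 - u - w))) - κ) ≤
      ∑ p ∈ PP x (s0 i) (s1 i), ∑ q ∈ (PP x (s0 i) (s1 i)).filter (fun q => p < q),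
        LV x (zB B x) η len v (p * q) ^ 2 * TS x h0 (p * q) / Real.log (3 * x / ((p * q : ℕ) : ℝ)) := by
    intro i hi
    obtain ⟨g1, g2, g3⟩ := hds i hi
    exact D6_diag B h0 hB η hη len v hlen _ _ (by linarith) g2 (by linarith) κ hκ0
  have h2' := (Finset.eventually_all us).mpr h2
  have h3' := (Finset.eventually_all bs).mpr h3
  have h4' := (Finset.eventually_all ds).mpr h4
  have hall : ∀ᶠ x : ℕ in atTop,
      x / Real.log x * (VV η len v 1 ^ 2 +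
          ∑ i ∈ us, (∫ u in (a0 i)..(a1 i), VV η len v u) ^ 2 / (∫ u in (a0 i)..(a1 i), u * (1 - u)) +
          ∑ i ∈ bs, (∫ u in (b0 i)..(b1 i), ∫ w in (c0 i)..(c1 i), XX η len v u w) ^ 2 /
            (∫ u in (b0 i)..(b1 i), ∫ w in (c0 i)..(c1 i), u * w * (1 - u - w)) +
          1 / 2 * ∑ i ∈ ds, (∫ u in (s0 i)..(s1 i), ∫ w in (s0 i)..(s1 i), XX η len v u w) ^ 2 /
            (∫ u in (s0 i)..(s1 i), ∫ w in (s0 i)..(s1 i), u * w * (1 - u - w)) - ε) ≤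
        ∑ m ∈ Ioc (x + h0) (2 * x + h0), ew x δ θ m * LV x (zB B x) η len v m ^ 2 := by
    filter_upwards [eventually_ge_atTop 2, eventually_ge_atTop h0, h1, h2', h3', h4'] with x hx2 hxh k1 k2 k3 k4
    obtain ⟨A, hA, hsum⟩ := D7_sets x hx2 δ θ hδ hθ us bs ds a0 a1 b0 b1 c0 c1 s0 s1 hus hus' hbs hbs'
      hds hds' hbd
    have hL := D3_LV x h0 (zB B x) hx2 hxh δ θ hθ A hA η hη len v hlen
    rw [hsum (fun a => LV x (zB B x) η len v a ^ 2 * TS x h0 a / Real.log (3 * x / a))] at hL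
    have m2 := Finset.sum_le_sum k2
    have m3 := Finset.sum_le_sum k3
    have m4 := Finset.sum_le_sum k4
    refine le_trans ?_ hL
    refine le_trans ?_ (add_le_add k1 (add_le_add (add_le_add m2 m3) m4))
    rw [← Finset.mul_sum, ← Finset.mul_sum, ← Finset.mul_sum, Finset.sum_sub_distrib,
      Finset.sum_sub_distrib, Finset.sum_sub_distrib, Finset.sum_const, Finset.sum_const,
      Finset.sum_const, nsmul_eq_mul, nsmul_eq_mul, nsmul_eq_mul, ← Finset.mul_sum]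
    have hk : ε = κ + us.card * κ + bs.card * κ + ds.card * κ := by
      have : κ * (1 + us.card + bs.card + ds.card) = ε := by
        rw [hκ]
        field_simp
      linarith
    rw [hk]
    apply le_of_eq
    ring
  obtain ⟨x₀, hx₀⟩ := eventually_atTop.mp hall
  exact ⟨x₀, hx₀⟩

end Pool.Agent.Lib.MP_092512_nt.P3
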