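import Pool.Agent.Lib.MP_092512_nt.P3.Defs

/-!
# P3 quadruples: the concrete weights and the certificate, definitions

`et = 10/2401`, `th = 240 et = 2400/2401`, `de = 1/250`.
`TT`: the cells `c` with `∑_{j ≠ i} (c_j + 1) ≤ 64` for all `i`; `TTi i`: those with `∑_{j ≠ i} (c_j + 1) ≤ 56`
for this `i`; `BB`: the triples `b` with `∑ (b_j + 1) ≤ 56`; `ph S = (586 - 7 S)²`;
`lenb b = 62 - (∑ b - min b)` is the number of `x` with `(x, b) ∈ TT`.
-/

set_option autoImplicit false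

open Finset

namespace Pool.Agent.Lib.MP_092512_nt.P3

open Pool.Agent.Lib.SW

noncomputable def et : ℝ := 10 / 2401
noncomputable def th : ℝ := 2400 / 2401
noncomputable def de : ℝ := 1 / 250

def ph (S : ℕ) : ℤ := (586 - 7 * (S : ℤ)) ^ 2

/-- the values on one line, `x ↦ ph (S + x)` -/
noncomputable def vS (S x : ℕ) : ℝ := (ph (S + x) : ℝ)

@[irreducible] def TT : Finset (Fin 4 → ℕ) :=
  (Fintype.piFinset (fun _ : Fin 4 => range 64)).filter (fun c => ∀ i, (∑ j, c j) - c i + 3 ≤ 64)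

@[irreducible] def TTi (i : Fin 4) : Finset (Fin 4 → ℕ) := TT.filter (fun c => (∑ j, c j) - c i + 3 ≤ 56)

@[irreducible] def BB : Finset (Fin 3 → ℕ) :=
  (Fintype.piFinset (fun _ : Fin 3 => range 64)).filter (fun b => (∑ j, b j) + 3 ≤ 56)

/-- the cell with `i`-th coordinate `x` and the others from `b` -/
def ins (i : Fin 4) (x : ℕ) (b : Fin 3 → ℕ) : Fin 4 → ℕ := Fin.insertNth i x b

def mnb (b : Fin 3 → ℕ) : ℕ := min (b 0) (min (b 1) (b 2))

def lenb (b : Fin 3 → ℕ) : ℕ := 62 - ((∑ j, b j) - mnb b)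

theorem mem_TT {c : Fin 4 → ℕ} : c ∈ TT ↔ (∀ i, c i < 64) ∧ ∀ i, (∑ j, c j) - c i + 3 ≤ 64 := by
  unfold TT
  rw [mem_filter, Fintype.mem_piFinset]
  simp only [mem_range]

theorem mem_TTi {i : Fin 4} {c : Fin 4 → ℕ} : c ∈ TTi i ↔ c ∈ TT ∧ (∑ j, c j) - c i + 3 ≤ 56 := by
  unfold TTi
  rw [mem_filter]

theorem mem_BB {b : Fin 3 → ℕ} : b ∈ BB ↔ (∀ i, b i < 64) ∧ (∑ j, b j) + 3 ≤ 56 := by
  unfold BB
  rw [mem_filter, Fintype.mem_piFinset]
  simp only [mem_range]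

/-- breakpoints (in units of `et`) of the boxes with `w ≤ 64 et` -/
def brk : ℕ → ℕ
  | 0 => 1
  | 1 => 4
  | 2 => 12
  | 3 => 24
  | 4 => 36
  | 5 => 48
  | _ => 64

/-- pairs `(a, b)`, `a < b < 6`: off-diagonal boxes -/
def offd : Finset (ℕ × ℕ) := (range 6 ×ˢ range 6).filter (fun q => q.1 < q.2)

/-- lower end of the strip over `[i et, (i+1) et]`, in units of `et` -/
noncomputable def slo (i : ℕ) : ℝ := max 64 ((i : ℝ) + 1)
/-- upper end of the strip -/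
noncomputable def shi (i : ℕ) : ℝ := (239 - (i : ℝ)) / 2

/-- the lower bound of part D for the vector `ph (S + x)`, `x < len` -/
noncomputable def Dl (S len : ℕ) : ℝ :=
  VV et len (vS S) 1 ^ 2 +
    ∑ i ∈ Icc (1 : ℕ) 119, (∫ u in ((i : ℝ) * et)..(((i : ℝ) + 1) * et), VV et len (vS S) u) ^ 2 /
      (∫ u in ((i : ℝ) * et)..(((i : ℝ) + 1) * et), u * (1 - u)) +
    ∑ i ∈ Icc (1 : ℕ) 78, (∫ u in ((i : ℝ) * et)..(((i : ℝ) + 1) * et),
        ∫ w in (slo i * et)..(shi i * et), XX et len (vS S) u w) ^ 2 /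
      (∫ u in ((i : ℝ) * et)..(((i : ℝ) + 1) * et),
        ∫ w in (slo i * et)..(shi i * et), u * w * (1 - u - w)) +
    ∑ q ∈ offd, (∫ u in ((brk q.1 : ℝ) * et)..((brk (q.1 + 1) : ℝ) * et),
        ∫ w in ((brk q.2 : ℝ) * et)..((brk (q.2 + 1) : ℝ) * et), XX et len (vS S) u w) ^ 2 /
      (∫ u in ((brk q.1 : ℝ) * et)..((brk (q.1 + 1) : ℝ) * et),
        ∫ w in ((brk q.2 : ℝ) * et)..((brk (q.2 + 1) : ℝ) * et), u * w * (1 - u - w)) +
    1 / 2 * ∑ a ∈ range 6, (∫ u in ((brk a : ℝ) * et)..((brk (a + 1) : ℝ) * et),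
        ∫ w in ((brk a : ℝ) * et)..((brk (a + 1) : ℝ) * et), XX et len (vS S) u w) ^ 2 /
      (∫ u in ((brk a : ℝ) * et)..((brk (a + 1) : ℝ) * et),
        ∫ w in ((brk a : ℝ) * et)..((brk (a + 1) : ℝ) * et), u * w * (1 - u - w))

end Pool.Agent.Lib.MP_092512_nt.P3
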