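import Pool.Agent.Lib.MP_092512_nt.P3.Defs2

/-!
# E0: integer data of the certificate

`pz x j`: `∫_0^{j et} cl et x = et²/2 · pz x j`; `tz x j`: the integral of the integral is `et³/6 · tz x j`;
`ell a b c d x`: `∫_{a et}^{b et} ∫_{c et}^{d et} XX = et³/6 ∑_{x < len} v_x ell a b c d x`.
`LAM` is the scaling factor of the rounded weights `om i` (cells `[i et, (i+1) et]`, two prime factors and strip
together), `Kinf` (prime `m` and all cells `i ≥ 64`, where `VV` is constant), `bo a b c d` (boxes), `bd a b` (diagonal squares).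
-/

set_option autoImplicit false

open Finset

namespace Pool.Agent.Lib.MP_092512_nt.P3

def pz (x j : ℕ) : ℤ := if x < j then 2 * ((j : ℤ) - x) - 1 else 0
def tz (x j : ℕ) : ℤ := if x < j then 3 * ((j : ℤ) - x) ^ 2 - 3 * ((j : ℤ) - x) + 1 else 0

def ell (a b c d x : ℕ) : ℤ :=
  3 * (pz x b - pz x a) * ((d : ℤ) - c) + 3 * (pz x d - pz x c) * ((b : ℤ) - a) -
    (tz x (b + d) - tz x (a + d) - tz x (b + c) + tz x (a + c))

def LAM : ℕ := 10 ^ 12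

/-- lower end of the strip -/
def sl (i : ℕ) : ℕ := max 64 (i + 1)

/-- rounded weight of the two prime factor cell `i` -/
def om1 (i : ℕ) : ℕ := LAM * 7203 / (2 * (7203 * (2 * i + 1) - 20 * (3 * i ^ 2 + 3 * i + 1)))

/-- rounded weight of the strip over the cell `i` (`i ≤ 78`) -/
def om2 (i : ℕ) : ℕ :=
  LAM * 7203 * (239 - i - 2 * sl i) ^ 2 /
    (7203 * (2 * i + 1) * ((239 - i) ^ 2 - 4 * sl i ^ 2) -
      10 * (2 * (3 * i ^ 2 + 3 * i + 1) * ((239 - i) ^ 2 - 4 * sl i ^ 2) +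
        (2 * i + 1) * ((239 - i) ^ 3 - 8 * sl i ^ 3)))

def om (i : ℕ) : ℕ := om1 i + if i ≤ 78 then om2 i else 0

def Kinf : ℕ := LAM + 4 * ∑ i ∈ Icc 64 119, om i

/-- `7203 A A' - 20 (B A' + A B')`, `A = b² - a²`, `B = b³ - a³`, `A' = d² - c²`, `B' = d³ - c³` -/
def dn (a b c d : ℕ) : ℕ :=
  7203 * (b ^ 2 - a ^ 2) * (d ^ 2 - c ^ 2) -
    20 * ((b ^ 3 - a ^ 3) * (d ^ 2 - c ^ 2) + (b ^ 2 - a ^ 2) * (d ^ 3 - c ^ 3))

def bo (a b c d : ℕ) : ℕ := LAM * 2401 / (3 * dn a b c d)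
def bd (a b : ℕ) : ℕ := LAM * 2401 / (6 * dn a b a b)

/-- the rounded certificate form for the line `(S, len)` -/
def Rz (S len : ℕ) : ℤ :=
  Kinf * (∑ x ∈ range len, ph (S + x)) ^ 2 +
    ∑ i ∈ Icc 1 63, (om i : ℤ) * (∑ x ∈ range len, (pz x (i + 1) - pz x i) * ph (S + x)) ^ 2 +
    ∑ q ∈ offd, (bo (brk q.1) (brk (q.1 + 1)) (brk q.2) (brk (q.2 + 1)) : ℤ) *
      (∑ x ∈ range len, ell (brk q.1) (brk (q.1 + 1)) (brk q.2) (brk (q.2 + 1)) x * ph (S + x)) ^ 2 +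
    ∑ a ∈ range 6, (bd (brk a) (brk (a + 1)) : ℤ) *
      (∑ x ∈ range len, ell (brk a) (brk (a + 1)) (brk a) (brk (a + 1)) x * ph (S + x)) ^ 2

/-- number of triples with minimum `m` and sum `3 m + r` -/
def mul3 (r : ℕ) : ℕ := if r = 0 then 1 else 3 * r

/-- left side of the certificate: `∑_b Rz` over the triples `b` with sum `≤ 53` -/
def TOT : ℤ := ∑ m ∈ range 18, ∑ r ∈ range (54 - 3 * m), (mul3 r : ℤ) * Rz (3 * m + r) (62 - (2 * m + r))

/-- `∑_{c ∈ TT} f_c²` -/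
def NORM : ℤ := ∑ m ∈ range 21, ∑ r ∈ range (62 - 3 * m), (mul3 r : ℤ) *
  ∑ x ∈ range (62 - (2 * m + r)), ph (3 * m + r + x) ^ 2

end Pool.Agent.Lib.MP_092512_nt.P3
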