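import Pool.Agent.Lib.MP_092512_nt.P3.E0

/-!
# E1: integrals of `VV` over grid intervals

PROOFS.  `cl et x u = 0` for `u ≤ x et`, `= u - x et` for `x et ≤ u ≤ (x+1) et`, `= et` for `u ≥ (x+1) et`.
`int_cl`: first for `b = a + 1` (three cases `a < x`, `a = x`, `a > x`: values `0`, `et²/2`, `et²`; `pz x (a+1) - pz x a = 0, 1, 2`),
then induction on `b` (`intervalIntegral.integral_add_adjacent_intervals`, `cl et x` is continuous).
`int_VV`: `intervalIntegral.integral_finset_sum`, `integral_const_mul`.
`VV_top`: `cl et x u = et` for `x + 1 ≤ 64`, `u ≥ 64 et`.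
-/

set_option autoImplicit false

open Finset

namespace Pool.Agent.Lib.MP_092512_nt.P3

theorem cl_cont (η : ℝ) (x : ℕ) : Continuous (cl η x) := by
  unfold cl
  fun_prop

theorem VV_cont (η : ℝ) (len : ℕ) (v : ℕ → ℝ) : Continuous (VV η len v) := by
  unfold VV
  exact continuous_finsetSum _ (fun i _ => (cl_cont η i).const_smul (v i) |>.congr (fun u => by simp [smul_eq_mul]))

private theorem et_pos' : 0 < et := by unfold et; norm_num

theorem E1_cl_zero (x : ℕ) (u : ℝ) (hu : u ≤ x * et) : cl et x u = 0 := by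
  unfold cl
  rw [max_eq_right (by linarith)]
  exact min_eq_left et_pos'.le

theorem E1_cl_mid (x : ℕ) (u : ℝ) (hu : x * et ≤ u) (hu' : u ≤ ((x : ℝ) + 1) * et) : cl et x u = u - x * et := by
  unfold cl
  rw [max_eq_left (by linarith)]
  exact min_eq_left (by linarith)

theorem E1_cl_top (x : ℕ) (u : ℝ) (hu : ((x : ℝ) + 1) * et ≤ u) : cl et x u = et := by
  unfold cl
  rw [max_eq_left (by nlinarith [et_pos'])]
  exact min_eq_right (by linarith)

private theorem step_cl (x a : ℕ) :
    ∫ u in ((a : ℝ) * et)..(((a : ℝ) + 1) * et), cl et x u = et ^ 2 / 2 * ((pz x (a + 1) - pz x a : ℤ) : ℝ) := by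
  have het := et_pos'
  have hle : (a : ℝ) * et ≤ ((a : ℝ) + 1) * et := by nlinarith
  rcases lt_trichotomy a x with h | h | h
  · have h1 : ∫ u in ((a : ℝ) * et)..(((a : ℝ) + 1) * et), cl et x u =
        ∫ _u in ((a : ℝ) * et)..(((a : ℝ) + 1) * et), (0 : ℝ) := by
      apply intervalIntegral.integral_congr
      intro u hu
      rw [Set.uIcc_of_le hle] at hu
      have hx : ((a : ℝ) + 1) ≤ x := by exact_mod_cast h
      exact E1_cl_zero x u (le_trans hu.2 (by nlinarith))
    rw [h1]
    have e1 : pz x (a + 1) = 0 := by unfold pz; rw [if_neg (by omega)]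
    have e2 : pz x a = 0 := by unfold pz; rw [if_neg (by omega)]
    rw [e1, e2]
    simp
  · subst h
    have h1 : ∫ u in ((a : ℝ) * et)..(((a : ℝ) + 1) * et), cl et a u =
        ∫ u in ((a : ℝ) * et)..(((a : ℝ) + 1) * et), (u - a * et) := by
      apply intervalIntegral.integral_congr
      intro u hu
      rw [Set.uIcc_of_le hle] at hu
      exact E1_cl_mid a u hu.1 hu.2
    rw [h1, intervalIntegral.integral_sub (f := fun u => u) (g := fun _ => (a : ℝ) * et)
      (continuous_id.intervalIntegrable _ _)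
      (continuous_const.intervalIntegrable _ _), integral_id, intervalIntegral.integral_const]
    have e1 : pz a (a + 1) = 1 := by
      unfold pz; rw [if_pos (by omega)]; push_cast; ring
    have e2 : pz a a = 0 := by unfold pz; rw [if_neg (by omega)]
    rw [e1, e2]
    simp only [smul_eq_mul]
    push_cast
    ring
  · have h1 : ∫ u in ((a : ℝ) * et)..(((a : ℝ) + 1) * et), cl et x u =
        ∫ _u in ((a : ℝ) * et)..(((a : ℝ) + 1) * et), et := by
      apply intervalIntegral.integral_congr
      intro u hu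
      rw [Set.uIcc_of_le hle] at hu
      have hx : ((x : ℝ) + 1) ≤ a := by exact_mod_cast h
      exact E1_cl_top x u (le_trans (by nlinarith) hu.1)
    rw [h1, intervalIntegral.integral_const]
    have e1 : pz x (a + 1) = 2 * ((a : ℤ) + 1 - x) - 1 := by
      unfold pz; rw [if_pos (by omega)]; push_cast; ring
    have e2 : pz x a = 2 * ((a : ℤ) - x) - 1 := by unfold pz; rw [if_pos (by omega)]
    rw [e1, e2]
    simp only [smul_eq_mul]
    push_cast
    ring

theorem int_cl (x a b : ℕ) (hab : a ≤ b) :
    ∫ u in ((a : ℝ) * et)..((b : ℝ) * et), cl et x u = et ^ 2 / 2 * ((pz x b - pz x a : ℤ) : ℝ) := by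
  induction b, hab using Nat.le_induction with
  | base => simp
  | succ b hab ih =>
    rw [← intervalIntegral.integral_add_adjacent_intervals
      ((cl_cont et x).intervalIntegrable _ _) ((cl_cont et x).intervalIntegrable ((b : ℝ) * et) _), ih]
    push_cast
    rw [step_cl]
    push_cast
    ring

theorem int_VV (S len a b : ℕ) (hab : a ≤ b) :
    ∫ u in ((a : ℝ) * et)..((b : ℝ) * et), VV et len (vS S) u =
      et ^ 2 / 2 * ((∑ x ∈ range len, (pz x b - pz x a) * ph (S + x) : ℤ) : ℝ) := by
  unfold VV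
  rw [intervalIntegral.integral_finsetSum (f := fun i u => vS S i * cl et i u)
    (fun i _ => (continuous_const.mul (cl_cont et i)).intervalIntegrable _ _)]
  rw [Int.cast_sum, Finset.mul_sum]
  refine Finset.sum_congr rfl (fun i _ => ?_)
  rw [intervalIntegral.integral_const_mul, int_cl i a b hab]
  unfold vS
  push_cast
  ring

theorem VV_top (S len : ℕ) (hlen : len ≤ 64) (u : ℝ) (hu : 64 * et ≤ u) :
    VV et len (vS S) u = et * ((∑ x ∈ range len, ph (S + x) : ℤ) : ℝ) := by
  unfold VV
  rw [Int.cast_sum, Finset.mul_sum]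
  refine Finset.sum_congr rfl (fun i hi => ?_)
  have hi' : i + 1 ≤ 64 := by have := Finset.mem_range.mp hi; omega
  have hi'' : ((i : ℝ) + 1) ≤ 64 := by exact_mod_cast hi'
  rw [E1_cl_top i u (le_trans (by nlinarith [et_pos']) hu)]
  unfold vS
  ring

end Pool.Agent.Lib.MP_092512_nt.P3
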