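import Pool.Agent.Lib.MP_092512_nt.P3.E1

/-!
# E2: integrals of `XX` over grid boxes and strips

PROOFS.  `∫_u ∫_w cl(u + w)`: inner integral: `∫_{c et}^{d et} cl (u + w) dw = I(u + d et) - I(u + c et)`, `I(t) = ∫_0^t cl et x`
(`intervalIntegral.integral_comp_add_left`), and `J(j) = ∫_0^{j et} I = et³/6 tz x j`: on `[j et, (j+1) et]`, `I(t)` is `0` (`j < x`),
`(t - x et)²/2` (`j = x`), `et²/2 + et (t - (x+1) et)` (`j > x`), so the increments are `0`, `et³/6`, `et³/2 + (j - x - 1) et³ + et³/2`
`= et³/6 · 6 (j - x)`, and `tz x (j+1) - tz x j = 0, 1, 6 (j - x)`.  A convenient way: prove `cl2 : ∫_{a et}^{b et} I = et³/6 (tz x b - tz x a)`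
by induction from one step, as `int_cl`.
`XX = VV u + VV w - VV (u + w)`; the first two terms: `int_VV` times the length of the other side.
`int_strip`: for `w ≥ 64 et`, `u ≥ 0` : `VV w = VV (u + w)` (`VV_top`), so `XX u w = VV u`.
-/

set_option autoImplicit false

open Finset

namespace Pool.Agent.Lib.MP_092512_nt.P3

private theorem et_pos'' : 0 < et := by unfold et; norm_num

/-- primitive of `cl et x` -/
private noncomputable def II (x : ℕ) (t : ℝ) : ℝ := ∫ u in (0 : ℝ)..t, cl et x u

private theorem II_cont (x : ℕ) : Continuous (II x) := by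
  unfold II
  exact intervalIntegral.continuous_primitive (fun a b => (cl_cont et x).intervalIntegrable a b) 0

private theorem II_sub (x : ℕ) (s t : ℝ) : ∫ u in s..t, cl et x u = II x t - II x s := by
  unfold II
  rw [intervalIntegral.integral_interval_sub_left ((cl_cont et x).intervalIntegrable _ _)
    ((cl_cont et x).intervalIntegrable _ _)]

private theorem II_low (x : ℕ) (t : ℝ) (h0 : 0 ≤ t) (ht : t ≤ x * et) : II x t = 0 := by
  unfold II
  have h1 : ∫ u in (0 : ℝ)..t, cl et x u = ∫ _u in (0 : ℝ)..t, (0 : ℝ) := by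
    apply intervalIntegral.integral_congr
    intro u hu
    rw [Set.uIcc_of_le h0] at hu
    exact E1_cl_zero x u (le_trans hu.2 ht)
  rw [h1]
  simp

private theorem II_mid (x : ℕ) (t : ℝ) (h0 : x * et ≤ t) (ht : t ≤ ((x : ℝ) + 1) * et) :
    II x t = (t - x * et) ^ 2 / 2 := by
  have het := et_pos''
  have h2 := II_sub x (x * et) t
  rw [II_low x (x * et) (by positivity) le_rfl, sub_zero] at h2
  rw [← h2]
  have h1 : ∫ u in ((x : ℝ) * et)..t, cl et x u = ∫ u in ((x : ℝ) * et)..t, (u - x * et) := by
    apply intervalIntegral.integral_congr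
    intro u hu
    rw [Set.uIcc_of_le h0] at hu
    exact E1_cl_mid x u hu.1 (le_trans hu.2 ht)
  rw [h1, intervalIntegral.integral_sub (f := fun u => u) (g := fun _ => (x : ℝ) * et)
      (continuous_id.intervalIntegrable _ _)
      (continuous_const.intervalIntegrable _ _), integral_id, intervalIntegral.integral_const]
  simp only [smul_eq_mul]
  ring

private theorem II_top (x : ℕ) (t : ℝ) (ht : ((x : ℝ) + 1) * et ≤ t) :
    II x t = et ^ 2 / 2 + et * (t - ((x : ℝ) + 1) * et) := by
  have het := et_pos''
  have h2 := II_sub x (((x : ℝ) + 1) * et) t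
  rw [II_mid x (((x : ℝ) + 1) * et) (by nlinarith) le_rfl] at h2
  have h1 : ∫ u in (((x : ℝ) + 1) * et)..t, cl et x u = ∫ _u in (((x : ℝ) + 1) * et)..t, et := by
    apply intervalIntegral.integral_congr
    intro u hu
    rw [Set.uIcc_of_le ht] at hu
    exact E1_cl_top x u hu.1
  rw [h1, intervalIntegral.integral_const] at h2
  simp only [smul_eq_mul] at h2
  linear_combination -h2

private theorem step_II (x j : ℕ) :
    ∫ u in ((j : ℝ) * et)..(((j : ℝ) + 1) * et), II x u = et ^ 3 / 6 * ((tz x (j + 1) - tz x j : ℤ) : ℝ) := by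
  have het := et_pos''
  have hle : (j : ℝ) * et ≤ ((j : ℝ) + 1) * et := by nlinarith
  have hj0 : (0 : ℝ) ≤ (j : ℝ) * et := by positivity
  rcases lt_trichotomy j x with h | h | h
  · have h1 : ∫ u in ((j : ℝ) * et)..(((j : ℝ) + 1) * et), II x u =
        ∫ _u in ((j : ℝ) * et)..(((j : ℝ) + 1) * et), (0 : ℝ) := by
      apply intervalIntegral.integral_congr
      intro u hu
      rw [Set.uIcc_of_le hle] at hu
      have hx : ((j : ℝ) + 1) ≤ x := by exact_mod_cast h
      exact II_low x u (le_trans hj0 hu.1) (le_trans hu.2 (by nlinarith))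
    rw [h1]
    have e1 : tz x (j + 1) = 0 := by unfold tz; rw [if_neg (by omega)]
    have e2 : tz x j = 0 := by unfold tz; rw [if_neg (by omega)]
    rw [e1, e2]
    simp
  · subst h
    have h1 : ∫ u in ((j : ℝ) * et)..(((j : ℝ) + 1) * et), II j u =
        ∫ u in ((j : ℝ) * et)..(((j : ℝ) + 1) * et), (u - j * et) ^ 2 / 2 := by
      apply intervalIntegral.integral_congr
      intro u hu
      rw [Set.uIcc_of_le hle] at hu
      exact II_mid j u hu.1 hu.2
    rw [h1, intervalIntegral.integral_div,
      intervalIntegral.integral_comp_sub_right (fun u => u ^ 2) ((j : ℝ) * et), integral_pow]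
    have e1 : tz j (j + 1) = 1 := by
      unfold tz; rw [if_pos (by omega)]; push_cast; ring
    have e2 : tz j j = 0 := by unfold tz; rw [if_neg (by omega)]
    rw [e1, e2]
    push_cast
    ring
  · have h1 : ∫ u in ((j : ℝ) * et)..(((j : ℝ) + 1) * et), II x u =
        ∫ u in ((j : ℝ) * et)..(((j : ℝ) + 1) * et), ((et ^ 2 / 2 - et * (((x : ℝ) + 1) * et)) + et * u) := by
      apply intervalIntegral.integral_congr
      intro u hu
      rw [Set.uIcc_of_le hle] at hu
      have hx : ((x : ℝ) + 1) ≤ j := by exact_mod_cast h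
      have := II_top x u (le_trans (by nlinarith) hu.1)
      rw [this]
      ring
    rw [h1, intervalIntegral.integral_add (f := fun _ => et ^ 2 / 2 - et * (((x : ℝ) + 1) * et))
      (g := fun u => et * u) (continuous_const.intervalIntegrable _ _)
      ((continuous_const.mul continuous_id).intervalIntegrable _ _),
      intervalIntegral.integral_const, intervalIntegral.integral_const_mul, integral_id]
    have e1 : tz x (j + 1) = 3 * ((j : ℤ) + 1 - x) ^ 2 - 3 * ((j : ℤ) + 1 - x) + 1 := by
      unfold tz; rw [if_pos (by omega)]; push_cast; ring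
    have e2 : tz x j = 3 * ((j : ℤ) - x) ^ 2 - 3 * ((j : ℤ) - x) + 1 := by unfold tz; rw [if_pos (by omega)]
    rw [e1, e2]
    simp only [smul_eq_mul]
    push_cast
    ring

private theorem int_II (x a b : ℕ) (hab : a ≤ b) :
    ∫ u in ((a : ℝ) * et)..((b : ℝ) * et), II x u = et ^ 3 / 6 * ((tz x b - tz x a : ℤ) : ℝ) := by
  induction b, hab using Nat.le_induction with
  | base => simp
  | succ b hab ih =>
    rw [← intervalIntegral.integral_add_adjacent_intervals
      ((II_cont x).intervalIntegrable _ _) ((II_cont x).intervalIntegrable ((b : ℝ) * et) _), ih]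
    push_cast
    rw [step_II]
    push_cast
    ring

private theorem inner_XX (S len c d : ℕ) (hcd : c ≤ d) (u : ℝ) :
    ∫ w in ((c : ℝ) * et)..((d : ℝ) * et), XX et len (vS S) u w =
      ∑ x ∈ range len, vS S x * ((((d : ℝ) - c) * et) * cl et x u + et ^ 2 / 2 * ((pz x d - pz x c : ℤ) : ℝ) -
        (II x (u + d * et) - II x (u + c * et))) := by
  have h1 : ∀ w, XX et len (vS S) u w =
      ∑ x ∈ range len, (vS S x * ((cl et x u + cl et x w) - cl et x (u + w))) := by
    intro w
    unfold XX VV
    rw [← Finset.sum_add_distrib, ← Finset.sum_sub_distrib]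
    refine Finset.sum_congr rfl (fun x _ => ?_)
    ring
  simp only [h1]
  have hc1 : ∀ x : ℕ, Continuous (fun w : ℝ => cl et x (u + w)) := fun x =>
    (cl_cont et x).comp (continuous_const.add continuous_id)
  rw [intervalIntegral.integral_finsetSum
    (f := fun x w => vS S x * ((cl et x u + cl et x w) - cl et x (u + w)))
    (fun x _ => (continuous_const.mul
      ((continuous_const.add (cl_cont et x)).sub (hc1 x))).intervalIntegrable _ _)]
  refine Finset.sum_congr rfl (fun x _ => ?_)
  rw [intervalIntegral.integral_const_mul,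
    intervalIntegral.integral_sub (f := fun w => cl et x u + cl et x w) (g := fun w => cl et x (u + w))
      ((continuous_const.add (cl_cont et x)).intervalIntegrable _ _) ((hc1 x).intervalIntegrable _ _),
    intervalIntegral.integral_add (f := fun _ => cl et x u) (g := fun w => cl et x w)
      (continuous_const.intervalIntegrable _ _) ((cl_cont et x).intervalIntegrable _ _),
    intervalIntegral.integral_const, int_cl x c d hcd,
    intervalIntegral.integral_comp_add_left (fun w => cl et x w) u, II_sub]
  simp only [smul_eq_mul]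
  ring

theorem int_XX (S len a b c d : ℕ) (hab : a ≤ b) (hcd : c ≤ d) :
    ∫ u in ((a : ℝ) * et)..((b : ℝ) * et), ∫ w in ((c : ℝ) * et)..((d : ℝ) * et), XX et len (vS S) u w =
      et ^ 3 / 6 * ((∑ x ∈ range len, ell a b c d x * ph (S + x) : ℤ) : ℝ) := by
  simp only [inner_XX S len c d hcd]
  have hI : ∀ (x : ℕ) (s : ℝ), Continuous (fun u : ℝ => II x (u + s)) := fun x s =>
    (II_cont x).comp (continuous_id.add continuous_const)
  rw [intervalIntegral.integral_finsetSum
    (f := fun x u => vS S x * ((((d : ℝ) - c) * et) * cl et x u + et ^ 2 / 2 * ((pz x d - pz x c : ℤ) : ℝ) -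
        (II x (u + d * et) - II x (u + c * et))))
    (fun x _ => (continuous_const.mul
      (((continuous_const.mul (cl_cont et x)).add continuous_const).sub ((hI x _).sub (hI x _)))).intervalIntegrable _ _)]
  rw [Int.cast_sum, Finset.mul_sum]
  refine Finset.sum_congr rfl (fun x _ => ?_)
  rw [intervalIntegral.integral_const_mul,
    intervalIntegral.integral_sub
      (f := fun u => (((d : ℝ) - c) * et) * cl et x u + et ^ 2 / 2 * ((pz x d - pz x c : ℤ) : ℝ))
      (g := fun u => II x (u + d * et) - II x (u + c * et))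
      (((continuous_const.mul (cl_cont et x)).add continuous_const).intervalIntegrable _ _)
      (((hI x _).sub (hI x _)).intervalIntegrable _ _),
    intervalIntegral.integral_add (f := fun u => (((d : ℝ) - c) * et) * cl et x u)
      (g := fun _ => et ^ 2 / 2 * ((pz x d - pz x c : ℤ) : ℝ))
      ((continuous_const.mul (cl_cont et x)).intervalIntegrable _ _)
      (continuous_const.intervalIntegrable _ _),
    intervalIntegral.integral_const_mul, int_cl x a b hab, intervalIntegral.integral_const,
    intervalIntegral.integral_sub (f := fun u => II x (u + d * et)) (g := fun u => II x (u + c * et))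
      ((hI x _).intervalIntegrable _ _) ((hI x _).intervalIntegrable _ _),
    intervalIntegral.integral_comp_add_right (fun u => II x u) ((d : ℝ) * et),
    intervalIntegral.integral_comp_add_right (fun u => II x u) ((c : ℝ) * et)]
  have e1 : ((a : ℝ) * et + d * et) = ((a + d : ℕ) : ℝ) * et := by push_cast; ring
  have e2 : ((b : ℝ) * et + d * et) = ((b + d : ℕ) : ℝ) * et := by push_cast; ring
  have e3 : ((a : ℝ) * et + c * et) = ((a + c : ℕ) : ℝ) * et := by push_cast; ring
  have e4 : ((b : ℝ) * et + c * et) = ((b + c : ℕ) : ℝ) * et := by push_cast; ring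
  rw [e1, e2, e3, e4, int_II x _ _ (by omega), int_II x _ _ (by omega)]
  unfold vS ell
  simp only [smul_eq_mul]
  push_cast
  ring

theorem int_strip (S len i : ℕ) (hlen : len ≤ 64) (hi : i ≤ 78) :
    ∫ u in ((i : ℝ) * et)..(((i : ℝ) + 1) * et), ∫ w in (slo i * et)..(shi i * et), XX et len (vS S) u w =
      (shi i - slo i) * et * ∫ u in ((i : ℝ) * et)..(((i : ℝ) + 1) * et), VV et len (vS S) u := by
  have het := et_pos''
  have hi' : (i : ℝ) ≤ 78 := by exact_mod_cast hi
  have hle : (i : ℝ) * et ≤ ((i : ℝ) + 1) * et := by nlinarith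
  have hi0 : (0 : ℝ) ≤ (i : ℝ) * et := by positivity
  have hs : slo i ≤ shi i := by
    unfold slo shi
    exact max_le (by linarith) (by linarith)
  have hs64 : 64 ≤ slo i := le_max_left _ _
  have hss : slo i * et ≤ shi i * et := by nlinarith
  rw [← intervalIntegral.integral_const_mul]
  apply intervalIntegral.integral_congr
  intro u hu
  rw [Set.uIcc_of_le hle] at hu
  have hu0 : 0 ≤ u := le_trans hi0 hu.1
  have h1 : ∫ w in (slo i * et)..(shi i * et), XX et len (vS S) u w =
      ∫ _w in (slo i * et)..(shi i * et), VV et len (vS S) u := by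
    apply intervalIntegral.integral_congr
    intro w hw
    rw [Set.uIcc_of_le hss] at hw
    have hw64 : 64 * et ≤ w := le_trans (by nlinarith) hw.1
    show XX et len (vS S) u w = VV et len (vS S) u
    unfold XX
    rw [VV_top S len hlen w hw64, VV_top S len hlen (u + w) (by linarith)]
    ring
  show ∫ w in (slo i * et)..(shi i * et), XX et len (vS S) u w = _
  rw [h1, intervalIntegral.integral_const]
  simp only [smul_eq_mul]
  ring

end Pool.Agent.Lib.MP_092512_nt.P3
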