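import Pool.Agent.Lib.MP_092512_nt.P3.E0

/-!
# E4: polynomial integrals, and the denominators in terms of the integer data

PROOFS.  `integral_id`, `integral_pow`, `intervalIntegral.integral_const_mul`, `integral_sub`; for `pol2` the inner integral is
`u (1 - u) (q'² - p'²)/2 - u (q'³ - p'³)/3`.  `den_cell`, `den_box`, `den_strip`: put `et = 10/2401`, `field_simp`, `ring`
(natural subtractions in `dn`: `a ≤ b`, `c ≤ d`, and the large subtraction is not truncated because `b, d ≤ 64`: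
`20 (b³ - a³) ≤ 20 · 3 b (b² - a²)/2 · ... `: use `b³ - a³ ≤ (3/2) b (b² - a²)`, so the subtracted term is at most
`30 (b + d) (b² - a²)(d² - c²) ≤ 3840 (…) < 7203 (…)`).
-/

set_option autoImplicit false

open Finset

namespace Pool.Agent.Lib.MP_092512_nt.P3

theorem pol0 (p q A C : ℝ) : ∫ u in p..q, (u * (1 - u) * A - u * C) =
    ((q ^ 2 - p ^ 2) / 2 - (q ^ 3 - p ^ 3) / 3) * A - (q ^ 2 - p ^ 2) / 2 * C := by
  have hd : ∀ u ∈ Set.uIcc p q,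
      HasDerivAt (fun u : ℝ => (u ^ 2 / 2 - u ^ 3 / 3) * A - u ^ 2 / 2 * C)
        (u * (1 - u) * A - u * C) u := by
    intro u _
    have h2 : HasDerivAt (fun u : ℝ => u ^ 2) (2 * u) u := by
      have := hasDerivAt_pow 2 u
      simpa using this
    have h3 : HasDerivAt (fun u : ℝ => u ^ 3) (3 * u ^ 2) u := by
      have := hasDerivAt_pow 3 u
      simpa using this
    have h := (((h2.div_const 2).sub (h3.div_const 3)).mul_const A).sub
      ((h2.div_const 2).mul_const C)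
    have e : (2 * u / 2 - 3 * u ^ 2 / 3) * A - 2 * u / 2 * C = u * (1 - u) * A - u * C := by ring
    rw [← e]
    exact h
  have hi : IntervalIntegrable (fun u : ℝ => u * (1 - u) * A - u * C) MeasureTheory.volume p q := by
    apply Continuous.intervalIntegrable
    fun_prop
  rw [intervalIntegral.integral_eq_sub_of_hasDerivAt hd hi]
  ring

theorem pol1 (p q : ℝ) : ∫ u in p..q, u * (1 - u) = (q ^ 2 - p ^ 2) / 2 - (q ^ 3 - p ^ 3) / 3 := by
  have h := pol0 p q 1 0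
  have e : (fun u : ℝ => u * (1 - u)) = fun u : ℝ => u * (1 - u) * 1 - u * 0 := by
    funext u; ring
  rw [e, h]
  ring

theorem pol2 (p q p' q' : ℝ) : ∫ u in p..q, ∫ w in p'..q', u * w * (1 - u - w) =
    (q ^ 2 - p ^ 2) / 2 * ((q' ^ 2 - p' ^ 2) / 2) - (q ^ 3 - p ^ 3) / 3 * ((q' ^ 2 - p' ^ 2) / 2) -
      (q ^ 2 - p ^ 2) / 2 * ((q' ^ 3 - p' ^ 3) / 3) := by
  have hin : ∀ u : ℝ, ∫ w in p'..q', u * w * (1 - u - w) =
      u * (1 - u) * ((q' ^ 2 - p' ^ 2) / 2) - u * ((q' ^ 3 - p' ^ 3) / 3) := by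
    intro u
    have hd : ∀ w ∈ Set.uIcc p' q',
        HasDerivAt (fun w : ℝ => w ^ 2 / 2 * (u * (1 - u)) - w ^ 3 / 3 * u)
          (u * w * (1 - u - w)) w := by
      intro w _
      have h2 : HasDerivAt (fun u : ℝ => u ^ 2) (2 * w) w := by
        have := hasDerivAt_pow 2 w
        simpa using this
      have h3 : HasDerivAt (fun u : ℝ => u ^ 3) (3 * w ^ 2) w := by
        have := hasDerivAt_pow 3 w
        simpa using this
      have h := ((h2.div_const 2).mul_const (u * (1 - u))).sub ((h3.div_const 3).mul_const u)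
      have e : 2 * w / 2 * (u * (1 - u)) - 3 * w ^ 2 / 3 * u = u * w * (1 - u - w) := by ring
      rw [← e]
      exact h
    have hi : IntervalIntegrable (fun w : ℝ => u * w * (1 - u - w)) MeasureTheory.volume p' q' := by
      apply Continuous.intervalIntegrable
      fun_prop
    rw [intervalIntegral.integral_eq_sub_of_hasDerivAt hd hi]
    ring
  simp only [hin]
  rw [pol0]
  ring

theorem den_cell (i : ℕ) : ∫ u in ((i : ℝ) * et)..(((i : ℝ) + 1) * et), u * (1 - u) =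
    et ^ 2 * ((7203 * (2 * i + 1) - 20 * (3 * i ^ 2 + 3 * i + 1)) / (6 * 2401)) := by
  rw [pol1]
  unfold et
  ring

theorem dn_cast (a b c d : ℕ) (hab : a ≤ b) (hcd : c ≤ d) (hb : b ≤ 64) (hd : d ≤ 64) :
    (dn a b c d : ℝ) = 7203 * ((b : ℝ) ^ 2 - a ^ 2) * ((d : ℝ) ^ 2 - c ^ 2) -
      20 * (((b : ℝ) ^ 3 - a ^ 3) * ((d : ℝ) ^ 2 - c ^ 2) + ((b : ℝ) ^ 2 - a ^ 2) * ((d : ℝ) ^ 3 - c ^ 3)) := by
  have h2ab : a ^ 2 ≤ b ^ 2 := Nat.pow_le_pow_left hab 2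
  have h3ab : a ^ 3 ≤ b ^ 3 := Nat.pow_le_pow_left hab 3
  have h2cd : c ^ 2 ≤ d ^ 2 := Nat.pow_le_pow_left hcd 2
  have h3cd : c ^ 3 ≤ d ^ 3 := Nat.pow_le_pow_left hcd 3
  have key : ∀ s t : ℕ, s ≤ t → t ≤ 64 → t ^ 3 - s ^ 3 ≤ 96 * (t ^ 2 - s ^ 2) := by
    intro s t hst ht
    have h2 : s ^ 2 ≤ t ^ 2 := Nat.pow_le_pow_left hst 2
    have h3 : s ^ 3 ≤ t ^ 3 := Nat.pow_le_pow_left hst 3
    zify [h2, h3]
    have hs' : (s : ℤ) ≤ t := by exact_mod_cast hst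
    have ht' : (t : ℤ) ≤ 64 := by exact_mod_cast ht
    have hs0 : (0 : ℤ) ≤ s := by positivity
    have e : 96 * ((t : ℤ) ^ 2 - s ^ 2) - (t ^ 3 - s ^ 3) =
        ((t : ℤ) - s) * (96 * (t + s) - (t ^ 2 + t * s + s ^ 2)) := by ring
    have h5 : (0 : ℤ) ≤ 96 * ((t : ℤ) + s) - (t ^ 2 + t * s + s ^ 2) := by nlinarith
    have h6 : (0 : ℤ) ≤ (t : ℤ) - s := by linarith
    have := mul_nonneg h6 h5
    linarith
  have hbig : 20 * ((b ^ 3 - a ^ 3) * (d ^ 2 - c ^ 2) + (b ^ 2 - a ^ 2) * (d ^ 3 - c ^ 3)) ≤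
      7203 * (b ^ 2 - a ^ 2) * (d ^ 2 - c ^ 2) := by
    have k1 := Nat.mul_le_mul_right (d ^ 2 - c ^ 2) (key a b hab hb)
    have k2 := Nat.mul_le_mul_left (b ^ 2 - a ^ 2) (key c d hcd hd)
    calc 20 * ((b ^ 3 - a ^ 3) * (d ^ 2 - c ^ 2) + (b ^ 2 - a ^ 2) * (d ^ 3 - c ^ 3))
        ≤ 20 * (96 * (b ^ 2 - a ^ 2) * (d ^ 2 - c ^ 2) +
          (b ^ 2 - a ^ 2) * (96 * (d ^ 2 - c ^ 2))) := by
          exact Nat.mul_le_mul_left 20 (Nat.add_le_add k1 k2)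
      _ = 3840 * ((b ^ 2 - a ^ 2) * (d ^ 2 - c ^ 2)) := by ring
      _ ≤ 7203 * ((b ^ 2 - a ^ 2) * (d ^ 2 - c ^ 2)) := Nat.mul_le_mul_right _ (by norm_num)
      _ = 7203 * (b ^ 2 - a ^ 2) * (d ^ 2 - c ^ 2) := by ring
  unfold dn
  rw [Nat.cast_sub hbig]
  push_cast [Nat.cast_sub h2ab, Nat.cast_sub h3ab, Nat.cast_sub h2cd, Nat.cast_sub h3cd]
  ring

theorem den_box (a b c d : ℕ) (hab : a ≤ b) (hcd : c ≤ d) (hb : b ≤ 64) (hd : d ≤ 64) :
    ∫ u in ((a : ℝ) * et)..((b : ℝ) * et), ∫ w in ((c : ℝ) * et)..((d : ℝ) * et), u * w * (1 - u - w) =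
      et ^ 4 * (dn a b c d / (12 * 2401)) := by
  rw [pol2, dn_cast a b c d hab hcd hb hd]
  unfold et
  ring

theorem den_strip (i : ℕ) : ∫ u in ((i : ℝ) * et)..(((i : ℝ) + 1) * et),
      ∫ w in (slo i * et)..(shi i * et), u * w * (1 - u - w) =
    et ^ 4 * ((7203 * (2 * i + 1) * ((239 - (i : ℝ)) ^ 2 - 4 * slo i ^ 2) -
      10 * (2 * (3 * i ^ 2 + 3 * i + 1) * ((239 - (i : ℝ)) ^ 2 - 4 * slo i ^ 2) +
        (2 * i + 1) * ((239 - (i : ℝ)) ^ 3 - 8 * slo i ^ 3))) / (48 * 2401)) := by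
  rw [pol2]
  unfold et shi
  ring

end Pool.Agent.Lib.MP_092512_nt.P3
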