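import Pool.Agent.Lib.MP_092512_nt.P3.E2
import Pool.Agent.Lib.MP_092512_nt.P3.E4

/-!
# E5: the lower bound of part D in terms of the integer form `Rz`

PROOFS.  All four with `int_VV`, `int_XX`, `int_strip` for the numerators, `den_cell`, `den_box`, `den_strip` for the
denominators (all positive), and `((A / B : ℕ) : ℝ) ≤ A / B` (`Nat.cast_div_le`) for the rounded weights.
`term_cell`: `(et²/2 Y)² / (et² D/(6·2401)) = et² · 7203/(2 D) · Y²`, `D = 7203 (2i+1) - 20 (3i²+3i+1) > 0` for `i ≤ 119`, and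
`om1 i ≤ LAM · 7203/(2 D)` (the natural subtraction is not truncated).
`term_strip`: `((shi - slo) et · et²/2 Y)² / (et⁴ D'/(48·2401)) = et² · 7203 (239 - i - 2 slo)²/D' · Y²`; `slo i = sl i`; check the positivity
of the three natural subtractions for `1 ≤ i ≤ 78` (`interval_cases i <;> norm_num [sl]` or `decide`).
`term_box`: `(et³/6 Y)²/(et⁴ dn/(12·2401)) = et² · 2401/(3 dn) · Y²`.
`Dl_ge`: sum up; the prime term is `VV et len (vS S) 1 = et ∑ ph` (`VV_top`); for `64 ≤ i` and `x < len ≤ 62`: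
`pz x (i+1) - pz x i = 2`, so these cells give `4 (om i) (∑ ph)²`; `om i = om1 i + om2 i` resp. `om1 i`.
-/

set_option autoImplicit false

open Finset

namespace Pool.Agent.Lib.MP_092512_nt.P3

theorem et_pos_E5 : 0 < et := by
  unfold et
  norm_num

private theorem LAM_pos_E5 : (0 : ℝ) < (LAM : ℝ) := by
  unfold LAM
  norm_num

theorem term_cell (S len i : ℕ) (hi : 1 ≤ i) (hi' : i ≤ 119) :
    et ^ 2 / LAM * (om1 i * ((∑ x ∈ range len, (pz x (i + 1) - pz x i) * ph (S + x) : ℤ) : ℝ) ^ 2) ≤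
      (∫ u in ((i : ℝ) * et)..(((i : ℝ) + 1) * et), VV et len (vS S) u) ^ 2 /
        (∫ u in ((i : ℝ) * et)..(((i : ℝ) + 1) * et), u * (1 - u)) := by
  have h1 := int_VV S len i (i + 1) (Nat.le_succ i)
  rw [Nat.cast_add, Nat.cast_one] at h1
  rw [h1, den_cell]
  obtain ⟨Y, hY⟩ : ∃ Y : ℝ, Y = ((∑ x ∈ range len, (pz x (i + 1) - pz x i) * ph (S + x) : ℤ) : ℝ) := ⟨_, rfl⟩
  rw [← hY]
  have het := et_pos_E5
  have hL := LAM_pos_E5
  have hi0 : (0 : ℝ) ≤ i := by positivity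
  have hi1 : (i : ℝ) ≤ 119 := by exact_mod_cast hi'
  have hii : i * i ≤ 119 * i := Nat.mul_le_mul_right i hi'
  have hle : 20 * (3 * i ^ 2 + 3 * i + 1) ≤ 7203 * (2 * i + 1) := by
    have h2 : i ^ 2 = i * i := sq i
    rw [h2]
    omega
  obtain ⟨D, hD⟩ : ∃ D : ℝ, D = 7203 * (2 * (i : ℝ) + 1) - 20 * (3 * (i : ℝ) ^ 2 + 3 * i + 1) := ⟨_, rfl⟩
  have hD0 : 0 < D := by
    rw [hD]
    have h2 : (i : ℝ) ^ 2 ≤ 119 * i := by
      rw [sq]
      exact mul_le_mul_of_nonneg_right hi1 hi0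
    linarith
  rw [← hD]
  have hom : (om1 i : ℝ) ≤ LAM * 7203 / (2 * D) := by
    unfold om1
    refine Nat.cast_div_le.trans (le_of_eq ?_)
    rw [hD]
    push_cast [Nat.cast_sub hle]
    ring
  have hR : (et ^ 2 / 2 * Y) ^ 2 / (et ^ 2 * (D / (6 * 2401))) = et ^ 2 / LAM * (LAM * 7203 / (2 * D) * Y ^ 2) := by
    field_simp
    ring
  rw [hR]
  refine mul_le_mul_of_nonneg_left ?_ (by positivity)
  exact mul_le_mul_of_nonneg_right hom (by positivity)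

private theorem strip_nat_E5 : ∀ i ∈ Icc 1 78, 2 * sl i ≤ 239 - i ∧ 4 * sl i ^ 2 ≤ (239 - i) ^ 2 ∧
    8 * sl i ^ 3 ≤ (239 - i) ^ 3 ∧
    10 * (2 * (3 * i ^ 2 + 3 * i + 1) * ((239 - i) ^ 2 - 4 * sl i ^ 2) +
        (2 * i + 1) * ((239 - i) ^ 3 - 8 * sl i ^ 3)) <
    7203 * (2 * i + 1) * ((239 - i) ^ 2 - 4 * sl i ^ 2) := by
  decide +kernel

theorem term_strip (S len i : ℕ) (hlen : len ≤ 64) (hi : 1 ≤ i) (hi' : i ≤ 78) :
    et ^ 2 / LAM * (om2 i * ((∑ x ∈ range len, (pz x (i + 1) - pz x i) * ph (S + x) : ℤ) : ℝ) ^ 2) ≤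
      (∫ u in ((i : ℝ) * et)..(((i : ℝ) + 1) * et),
          ∫ w in (slo i * et)..(shi i * et), XX et len (vS S) u w) ^ 2 /
        (∫ u in ((i : ℝ) * et)..(((i : ℝ) + 1) * et),
          ∫ w in (slo i * et)..(shi i * et), u * w * (1 - u - w)) := by
  have h1 := int_VV S len i (i + 1) (Nat.le_succ i)
  rw [Nat.cast_add, Nat.cast_one] at h1
  rw [int_strip S len i hlen hi', h1, den_strip]
  obtain ⟨Y, hY⟩ : ∃ Y : ℝ, Y = ((∑ x ∈ range len, (pz x (i + 1) - pz x i) * ph (S + x) : ℤ) : ℝ) := ⟨_, rfl⟩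
  rw [← hY]
  have het := et_pos_E5
  have hL := LAM_pos_E5
  obtain ⟨n1, n2, n3, n4⟩ := strip_nat_E5 i (Finset.mem_Icc.mpr ⟨hi, hi'⟩)
  have hsl : ((sl i : ℕ) : ℝ) = slo i := by
    unfold sl slo
    push_cast
    rfl
  have hi239 : i ≤ 239 := by omega
  obtain ⟨D, hD⟩ : ∃ D : ℝ, D = 7203 * (2 * (i : ℝ) + 1) * ((239 - (i : ℝ)) ^ 2 - 4 * slo i ^ 2) -
      10 * (2 * (3 * (i : ℝ) ^ 2 + 3 * i + 1) * ((239 - (i : ℝ)) ^ 2 - 4 * slo i ^ 2) +
        (2 * i + 1) * ((239 - (i : ℝ)) ^ 3 - 8 * slo i ^ 3)) := ⟨_, rfl⟩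
  have hDn : D = ((7203 * (2 * i + 1) * ((239 - i) ^ 2 - 4 * sl i ^ 2) -
      10 * (2 * (3 * i ^ 2 + 3 * i + 1) * ((239 - i) ^ 2 - 4 * sl i ^ 2) +
        (2 * i + 1) * ((239 - i) ^ 3 - 8 * sl i ^ 3)) : ℕ) : ℝ) := by
    rw [hD, ← hsl]
    push_cast [Nat.cast_sub n4.le, Nat.cast_sub n2, Nat.cast_sub n3, Nat.cast_sub hi239]
    ring
  have hD0 : 0 < D := by
    rw [hDn]
    have : 0 < 7203 * (2 * i + 1) * ((239 - i) ^ 2 - 4 * sl i ^ 2) -
      10 * (2 * (3 * i ^ 2 + 3 * i + 1) * ((239 - i) ^ 2 - 4 * sl i ^ 2) +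
        (2 * i + 1) * ((239 - i) ^ 3 - 8 * sl i ^ 3)) := Nat.sub_pos_of_lt n4
    exact_mod_cast this
  rw [← hD]
  have hom : (om2 i : ℝ) ≤ LAM * 7203 * (239 - (i : ℝ) - 2 * slo i) ^ 2 / D := by
    unfold om2
    refine Nat.cast_div_le.trans (le_of_eq ?_)
    rw [← hDn, ← hsl]
    have h2 : ((239 - i - 2 * sl i : ℕ) : ℝ) = 239 - (i : ℝ) - 2 * (sl i : ℝ) := by
      rw [Nat.cast_sub n1, Nat.cast_sub hi239]
      push_cast
      ring
    rw [Nat.cast_mul, Nat.cast_mul, Nat.cast_pow, h2]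
    norm_num
  have hR : ((shi i - slo i) * et * (et ^ 2 / 2 * Y)) ^ 2 / (et ^ 4 * (D / (48 * 2401))) =
      et ^ 2 / LAM * (LAM * 7203 * (239 - (i : ℝ) - 2 * slo i) ^ 2 / D * Y ^ 2) := by
    unfold shi
    field_simp
    ring
  rw [hR]
  refine mul_le_mul_of_nonneg_left ?_ (by positivity)
  exact mul_le_mul_of_nonneg_right hom (by positivity)

theorem term_box (S len a b c d : ℕ) (hab : a < b) (hcd : c < d) (hb : b ≤ 64) (hd : d ≤ 64) :
    et ^ 2 / LAM * (bo a b c d * ((∑ x ∈ range len, ell a b c d x * ph (S + x) : ℤ) : ℝ) ^ 2) ≤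
      (∫ u in ((a : ℝ) * et)..((b : ℝ) * et),
          ∫ w in ((c : ℝ) * et)..((d : ℝ) * et), XX et len (vS S) u w) ^ 2 /
        (∫ u in ((a : ℝ) * et)..((b : ℝ) * et),
          ∫ w in ((c : ℝ) * et)..((d : ℝ) * et), u * w * (1 - u - w)) := by
  rw [int_XX S len a b c d hab.le hcd.le, den_box a b c d hab.le hcd.le hb hd]
  obtain ⟨Y, hY⟩ : ∃ Y : ℝ, Y = ((∑ x ∈ range len, ell a b c d x * ph (S + x) : ℤ) : ℝ) := ⟨_, rfl⟩
  rw [← hY]
  have het := et_pos_E5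
  have hL := LAM_pos_E5
  have hom : (bo a b c d : ℝ) ≤ LAM * 2401 / (3 * dn a b c d) := by
    unfold bo
    refine Nat.cast_div_le.trans (le_of_eq ?_)
    push_cast
    ring
  have hR : (et ^ 3 / 6 * Y) ^ 2 / (et ^ 4 * ((dn a b c d : ℝ) / (12 * 2401))) =
      et ^ 2 / LAM * (LAM * 2401 / (3 * dn a b c d) * Y ^ 2) := by
    rcases Nat.eq_zero_or_pos (dn a b c d) with h | h
    · rw [h]
      simp
    · have h' : (0 : ℝ) < dn a b c d := by exact_mod_cast h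
      field_simp
      ring
  rw [hR]
  refine mul_le_mul_of_nonneg_left ?_ (by positivity)
  exact mul_le_mul_of_nonneg_right hom (by positivity)

theorem term_diag (S len a b : ℕ) (hab : a < b) (hb : b ≤ 64) :
    et ^ 2 / LAM * (bd a b * ((∑ x ∈ range len, ell a b a b x * ph (S + x) : ℤ) : ℝ) ^ 2) ≤
      1 / 2 * ((∫ u in ((a : ℝ) * et)..((b : ℝ) * et),
          ∫ w in ((a : ℝ) * et)..((b : ℝ) * et), XX et len (vS S) u w) ^ 2 /
        (∫ u in ((a : ℝ) * et)..((b : ℝ) * et),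
          ∫ w in ((a : ℝ) * et)..((b : ℝ) * et), u * w * (1 - u - w))) := by
  rw [int_XX S len a b a b hab.le hab.le, den_box a b a b hab.le hab.le hb hb]
  obtain ⟨Y, hY⟩ : ∃ Y : ℝ, Y = ((∑ x ∈ range len, ell a b a b x * ph (S + x) : ℤ) : ℝ) := ⟨_, rfl⟩
  rw [← hY]
  have het := et_pos_E5
  have hL := LAM_pos_E5
  have hom : (bd a b : ℝ) ≤ LAM * 2401 / (6 * dn a b a b) := by
    unfold bd
    refine Nat.cast_div_le.trans (le_of_eq ?_)
    push_cast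
    ring
  have hR : 1 / 2 * ((et ^ 3 / 6 * Y) ^ 2 / (et ^ 4 * ((dn a b a b : ℝ) / (12 * 2401)))) =
      et ^ 2 / LAM * (LAM * 2401 / (6 * dn a b a b) * Y ^ 2) := by
    rcases Nat.eq_zero_or_pos (dn a b a b) with h | h
    · rw [h]
      simp
    · have h' : (0 : ℝ) < dn a b a b := by exact_mod_cast h
      field_simp
      ring
  rw [hR]
  refine mul_le_mul_of_nonneg_left ?_ (by positivity)
  exact mul_le_mul_of_nonneg_right hom (by positivity)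

private theorem brk_lt_E5 : ∀ a ∈ range 6, brk a < brk (a + 1) ∧ brk (a + 1) ≤ 64 := by
  decide

theorem Dl_ge (S len : ℕ) (hlen : len ≤ 62) : et ^ 2 / LAM * (Rz S len : ℝ) ≤ Dl S len := by
  have het := et_pos_E5
  have hL := LAM_pos_E5
  obtain ⟨s, hs⟩ : ∃ s : ℤ, s = ∑ x ∈ range len, ph (S + x) := ⟨_, rfl⟩
  obtain ⟨Y, hY⟩ : ∃ Y : ℕ → ℤ, Y = fun i => ∑ x ∈ range len, (pz x (i + 1) - pz x i) * ph (S + x) := ⟨_, rfl⟩
  obtain ⟨B, hB⟩ : ∃ B : ℕ → ℕ → ℤ, B = fun a b =>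
      ∑ x ∈ range len, ell (brk a) (brk (a + 1)) (brk b) (brk (b + 1)) x * ph (S + x) := ⟨_, rfl⟩
  -- the prime term
  have hV : VV et len (vS S) 1 = et * (s : ℝ) := by
    rw [hs]
    refine VV_top S len (by omega) 1 ?_
    unfold et
    norm_num
  -- large cells
  have hY64 : ∀ i, 64 ≤ i → Y i = 2 * s := by
    intro i hi
    rw [hY, hs, Finset.mul_sum]
    refine Finset.sum_congr rfl ?_
    intro x hx
    rw [Finset.mem_range] at hx
    have h1 : pz x (i + 1) - pz x i = 2 := by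
      unfold pz
      rw [if_pos (by omega), if_pos (by omega)]
      push_cast
      ring
    rw [h1]
  have hsplit : (∑ i ∈ Icc 1 119, (om1 i : ℝ) * (Y i : ℝ) ^ 2) + ∑ i ∈ Icc 1 78, (om2 i : ℝ) * (Y i : ℝ) ^ 2 =
      (∑ i ∈ Icc 1 63, (om i : ℝ) * (Y i : ℝ) ^ 2) + 4 * (∑ i ∈ Icc 64 119, (om i : ℝ)) * (s : ℝ) ^ 2 := by
    have h1 : ∑ i ∈ Icc 1 78, (om2 i : ℝ) * (Y i : ℝ) ^ 2 =
        ∑ i ∈ Icc 1 119, (if i ≤ 78 then (om2 i : ℝ) else 0) * (Y i : ℝ) ^ 2 := by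
      have h2 : Icc 1 78 = (Icc 1 119).filter (fun i => i ≤ 78) := by
        ext i
        simp only [Finset.mem_filter, Finset.mem_Icc]
        omega
      rw [h2, Finset.sum_filter]
      refine Finset.sum_congr rfl ?_
      intro i _
      split_ifs <;> simp
    have h2 : Icc 1 119 = Icc 1 63 ∪ Icc 64 119 := by
      ext i
      simp only [Finset.mem_union, Finset.mem_Icc]
      omega
    have h3 : Disjoint (Icc 1 63) (Icc 64 119) := by
      rw [Finset.disjoint_left]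
      intro i
      simp only [Finset.mem_Icc]
      omega
    have h4 : ∀ i, (om1 i : ℝ) * (Y i : ℝ) ^ 2 + (if i ≤ 78 then (om2 i : ℝ) else 0) * (Y i : ℝ) ^ 2 =
        (om i : ℝ) * (Y i : ℝ) ^ 2 := by
      intro i
      unfold om
      push_cast
      ring
    rw [h1, ← Finset.sum_add_distrib, Finset.sum_congr rfl (fun i _ => h4 i), h2, Finset.sum_union h3]
    congr 1
    rw [Finset.mul_sum, Finset.sum_mul]
    refine Finset.sum_congr rfl ?_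
    intro i hi
    rw [hY64 i (Finset.mem_Icc.mp hi).1]
    push_cast
    ring
  have hRz : (Rz S len : ℝ) = LAM * (s : ℝ) ^ 2 +
      ((∑ i ∈ Icc 1 119, (om1 i : ℝ) * (Y i : ℝ) ^ 2) + ∑ i ∈ Icc 1 78, (om2 i : ℝ) * (Y i : ℝ) ^ 2) +
      (∑ q ∈ offd, (bo (brk q.1) (brk (q.1 + 1)) (brk q.2) (brk (q.2 + 1)) : ℝ) * (B q.1 q.2 : ℝ) ^ 2) +
      ∑ a ∈ range 6, (bd (brk a) (brk (a + 1)) : ℝ) * (B a a : ℝ) ^ 2 := by
    rw [hsplit, hs, hY, hB]
    unfold Rz Kinf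
    push_cast
    ring
  have e1 : et ^ 2 / LAM * (LAM * (s : ℝ) ^ 2) = VV et len (vS S) 1 ^ 2 := by
    rw [hV]
    field_simp
  have e2 : et ^ 2 / LAM * (∑ i ∈ Icc 1 119, (om1 i : ℝ) * (Y i : ℝ) ^ 2) ≤
      ∑ i ∈ Icc (1 : ℕ) 119, (∫ u in ((i : ℝ) * et)..(((i : ℝ) + 1) * et), VV et len (vS S) u) ^ 2 /
        (∫ u in ((i : ℝ) * et)..(((i : ℝ) + 1) * et), u * (1 - u)) := by
    rw [Finset.mul_sum, hY]
    refine Finset.sum_le_sum ?_
    intro i hi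
    rw [Finset.mem_Icc] at hi
    exact term_cell S len i hi.1 hi.2
  have e3 : et ^ 2 / LAM * (∑ i ∈ Icc 1 78, (om2 i : ℝ) * (Y i : ℝ) ^ 2) ≤
      ∑ i ∈ Icc (1 : ℕ) 78, (∫ u in ((i : ℝ) * et)..(((i : ℝ) + 1) * et),
          ∫ w in (slo i * et)..(shi i * et), XX et len (vS S) u w) ^ 2 /
        (∫ u in ((i : ℝ) * et)..(((i : ℝ) + 1) * et),
          ∫ w in (slo i * et)..(shi i * et), u * w * (1 - u - w)) := by
    rw [Finset.mul_sum, hY]
    refine Finset.sum_le_sum ?_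
    intro i hi
    rw [Finset.mem_Icc] at hi
    exact term_strip S len i (by omega) hi.1 hi.2
  have e4 : et ^ 2 / LAM * (∑ q ∈ offd, (bo (brk q.1) (brk (q.1 + 1)) (brk q.2) (brk (q.2 + 1)) : ℝ) *
        (B q.1 q.2 : ℝ) ^ 2) ≤
      ∑ q ∈ offd, (∫ u in ((brk q.1 : ℝ) * et)..((brk (q.1 + 1) : ℝ) * et),
          ∫ w in ((brk q.2 : ℝ) * et)..((brk (q.2 + 1) : ℝ) * et), XX et len (vS S) u w) ^ 2 /
        (∫ u in ((brk q.1 : ℝ) * et)..((brk (q.1 + 1) : ℝ) * et),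
          ∫ w in ((brk q.2 : ℝ) * et)..((brk (q.2 + 1) : ℝ) * et), u * w * (1 - u - w)) := by
    rw [Finset.mul_sum, hB]
    refine Finset.sum_le_sum ?_
    intro q hq
    unfold offd at hq
    rw [Finset.mem_filter, Finset.mem_product] at hq
    have h1 := brk_lt_E5 q.1 hq.1.1
    have h2 := brk_lt_E5 q.2 hq.1.2
    exact term_box S len _ _ _ _ h1.1 h2.1 h1.2 h2.2
  have e5 : et ^ 2 / LAM * (∑ a ∈ range 6, (bd (brk a) (brk (a + 1)) : ℝ) * (B a a : ℝ) ^ 2) ≤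
      1 / 2 * ∑ a ∈ range 6, (∫ u in ((brk a : ℝ) * et)..((brk (a + 1) : ℝ) * et),
          ∫ w in ((brk a : ℝ) * et)..((brk (a + 1) : ℝ) * et), XX et len (vS S) u w) ^ 2 /
        (∫ u in ((brk a : ℝ) * et)..((brk (a + 1) : ℝ) * et),
          ∫ w in ((brk a : ℝ) * et)..((brk (a + 1) : ℝ) * et), u * w * (1 - u - w)) := by
    rw [Finset.mul_sum, Finset.mul_sum, hB]
    refine Finset.sum_le_sum ?_
    intro a ha
    have h1 := brk_lt_E5 a ha
    exact term_diag S len _ _ h1.1 h1.2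
  rw [hRz, mul_add, mul_add, mul_add, mul_add, e1]
  unfold Dl
  linarith

end Pool.Agent.Lib.MP_092512_nt.P3
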