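import Pool.Agent.Lib.MP_092512_nt.P3.E0

/-!
# E6: sums over triples by minimum and sum

PROOF.  `mnb b = m`, `∑ b = 3 m + r`: there are `mul3 r` such triples: subtract `m` from all coordinates: triples with minimum `0` and
sum `r`; all triples with sum `r`: `(r+1)(r+2)/2`, those with all coordinates `≥ 1`: `r (r-1)/2 - ...` = number for `r - 3`, i.e. `(r-2)(r-1)/2`
(`0` for `r < 3`); the difference is `3 r` for `r ≥ 1` and `1` for `r = 0`.  (Or directly: `r ≥ 1`: exactly one coordinate... count the position of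
zeros: with exactly one zero coordinate: `3 (r - 1)`, with exactly two: `3`.)  Then `Finset.sum_fiberwise`-type grouping:
each `b` with `∑ b + 3 ≤ M` has `m = mnb b ≤ (M-3)/3`, `r = ∑ b - 3 m ≤ M - 3 - 3 m`; all coordinates are `< 64`.
A kernel computation is an alternative only for the multiplicities (`m` can be shifted away, `r ≤ 61`).
-/

set_option autoImplicit false

open Finset

namespace Pool.Agent.Lib.MP_092512_nt.P3

private def E6_mk (x y z : ℕ) : Fin 3 → ℕ := ![x, y, z]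

private theorem E6_ext (b : Fin 3 → ℕ) (x y z : ℕ) (h0 : b 0 = x) (h1 : b 1 = y) (h2 : b 2 = z) : E6_mk x y z = b := by
  funext t
  fin_cases t
  · exact h0.symm
  · exact h1.symm
  · exact h2.symm

private def E6_to (b : Fin 3 → ℕ) : ℕ :=
  if b 0 = mnb b then b 1 - mnb b else if b 1 = mnb b then (∑ j, b j) - 3 * mnb b + (b 0 - mnb b)
    else 2 * ((∑ j, b j) - 3 * mnb b) + (b 0 - mnb b)

private def E6_of (m r k : ℕ) : Fin 3 → ℕ :=
  if k ≤ r then E6_mk m (m + k) (m + (r - k)) else if k ≤ 2 * r then E6_mk (m + (k - r)) m (m + (2 * r - k))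
    else E6_mk (m + (k - 2 * r)) (m + (3 * r - k)) m

private theorem E6_inv1 (b : Fin 3 → ℕ) : E6_of (mnb b) ((∑ j, b j) - 3 * mnb b) (E6_to b) = b := by
  have hs : ∑ j, b j = b 0 + b 1 + b 2 := Fin.sum_univ_three b
  unfold E6_of E6_to
  rw [hs]
  have hm : mnb b = min (b 0) (min (b 1) (b 2)) := rfl
  obtain ⟨m, hm'⟩ : ∃ m, m = mnb b := ⟨_, rfl⟩
  rw [← hm'] at hm ⊢
  split_ifs <;> (apply E6_ext <;> omega)

private theorem E6_of_apply (m r k : ℕ) (hk : k < mul3 r) :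
    mnb (E6_of m r k) = m ∧ ∑ j, E6_of m r k j = 3 * m + r ∧ E6_to (E6_of m r k) = k ∧
      (∀ j, E6_of m r k j ≤ m + r) := by
  have key : ∀ x y z : ℕ, min x (min y z) = m → x + y + z = 3 * m + r →
      (if x = m then y - m else if y = m then r + (x - m) else 2 * r + (x - m)) = k →
      mnb (E6_mk x y z) = m ∧ ∑ j, E6_mk x y z j = 3 * m + r ∧ E6_to (E6_mk x y z) = k ∧
        (∀ j, E6_mk x y z j ≤ m + r) := by
    intro x y z h1 h2 h3
    have hm : mnb (E6_mk x y z) = m := h1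
    have hs : ∑ j, E6_mk x y z j = 3 * m + r := (Fin.sum_univ_three _).trans h2
    refine ⟨hm, hs, ?_, ?_⟩
    · unfold E6_to
      rw [hm, hs]
      have e0 : E6_mk x y z 0 = x := rfl
      have e1 : E6_mk x y z 1 = y := rfl
      rw [e0, e1, ← h3]
      have e2 : 3 * m + r - 3 * m = r := by omega
      rw [e2]
    · intro j
      fin_cases j
      · change x ≤ m + r
        omega
      · change y ≤ m + r
        omega
      · change z ≤ m + r
        omega
  unfold mul3 at hk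
  unfold E6_of
  split_ifs with h1 h2
  · apply key
    · split_ifs at hk <;> omega
    · omega
    · simp
  · apply key
    · split_ifs at hk <;> omega
    · omega
    · split_ifs <;> omega
  · apply key
    · split_ifs at hk <;> omega
    · split_ifs at hk <;> omega
    · split_ifs at hk ⊢ <;> omega

private theorem E6_filt (M : ℕ) (b : Fin 3 → ℕ) :
    b ∈ (Fintype.piFinset (fun _ : Fin 3 => range 64)).filter (fun b => (∑ j, b j) + 3 ≤ M) ↔
      (∀ j, b j < 64) ∧ (∑ j, b j) + 3 ≤ M := by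
  rw [mem_filter, Fintype.mem_piFinset]
  simp only [mem_range]

private theorem E6_gen (M : ℕ) (hM : 3 ≤ M) (hM' : M ≤ 64) (g : ℕ → ℕ → ℝ) (T : Finset (Fin 3 → ℕ))
    (hT : ∀ b, b ∈ T ↔ (∀ j, b j < 64) ∧ (∑ j, b j) + 3 ≤ M) :
    ∑ b ∈ T, g (∑ j, b j) ((∑ j, b j) - mnb b) =
      ∑ m ∈ range ((M - 3) / 3 + 1), ∑ r ∈ range (M - 2 - 3 * m),
        (mul3 r : ℝ) * g (3 * m + r) (2 * m + r) := by
  have h1 : ∀ m r : ℕ, (mul3 r : ℝ) * g (3 * m + r) (2 * m + r) =
      ∑ _k ∈ range (mul3 r), g (3 * m + r) (2 * m + r) := by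
    intro m r
    rw [sum_const, card_range, nsmul_eq_mul]
  simp_rw [h1]
  rw [sum_sigma', sum_sigma']
  refine sum_bij' (fun b _ => ⟨⟨mnb b, (∑ j, b j) - 3 * mnb b⟩, E6_to b⟩) (fun s _ => E6_of s.1.1 s.1.2 s.2) ?_ ?_ ?_ ?_ ?_
  · intro b hb
    rw [hT] at hb
    obtain ⟨h2, h3⟩ := hb
    rw [mem_sigma, mem_sigma, mem_range, mem_range, mem_range]
    have hs : ∑ j, b j = b 0 + b 1 + b 2 := Fin.sum_univ_three b
    have hm : mnb b = min (b 0) (min (b 1) (b 2)) := rfl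
    unfold E6_to mul3
    dsimp only
    rw [hs] at h3 ⊢
    obtain ⟨m, hm'⟩ : ∃ m, m = mnb b := ⟨_, rfl⟩
    rw [← hm'] at hm ⊢
    refine ⟨⟨by omega, by omega⟩, ?_⟩
    split_ifs <;> omega
  · rintro ⟨⟨m, r⟩, k⟩ hs
    rw [mem_sigma, mem_sigma, mem_range, mem_range, mem_range] at hs
    obtain ⟨⟨h2, h3⟩, h4⟩ := hs
    dsimp only at h2 h3 h4
    obtain ⟨e1, e2, e3, e4⟩ := E6_of_apply m r k h4
    rw [hT]
    dsimp only
    rw [e2]
    refine ⟨fun j => ?_, by omega⟩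
    have := e4 j
    omega
  · intro b _
    exact E6_inv1 b
  · rintro ⟨⟨m, r⟩, k⟩ hs
    rw [mem_sigma, mem_sigma, mem_range, mem_range, mem_range] at hs
    obtain ⟨⟨h2, h3⟩, h4⟩ := hs
    dsimp only at h2 h3 h4
    obtain ⟨e1, e2, e3, e4⟩ := E6_of_apply m r k h4
    dsimp only
    rw [e1, e2, e3, Nat.add_sub_cancel_left]
  · intro b _
    dsimp only
    have hs : ∑ j, b j = b 0 + b 1 + b 2 := Fin.sum_univ_three b
    have hm : mnb b = min (b 0) (min (b 1) (b 2)) := rfl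
    rw [hs]
    obtain ⟨m, hm'⟩ : ∃ m, m = mnb b := ⟨_, rfl⟩
    rw [← hm'] at hm ⊢
    have e1 : 3 * m + (b 0 + b 1 + b 2 - 3 * m) = b 0 + b 1 + b 2 := by omega
    have e2 : 2 * m + (b 0 + b 1 + b 2 - 3 * m) = b 0 + b 1 + b 2 - m := by omega
    rw [e1, e2]

theorem triple_sum (M : ℕ) (hM : 3 ≤ M) (hM' : M ≤ 64) (g : ℕ → ℕ → ℝ) :
    ∑ b ∈ (Fintype.piFinset (fun _ : Fin 3 => range 64)).filter (fun b => (∑ j, b j) + 3 ≤ M),
        g (∑ j, b j) ((∑ j, b j) - mnb b) =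
      ∑ m ∈ range ((M - 3) / 3 + 1), ∑ r ∈ range (M - 2 - 3 * m),
        (mul3 r : ℝ) * g (3 * m + r) (2 * m + r) :=
  E6_gen M hM hM' g _ (E6_filt M)

end Pool.Agent.Lib.MP_092512_nt.P3
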