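import Pool.Agent.Lib.MP_092512_nt.P3.Defs2

/-!
# E7: the fibres of `TT` and `TTi`

PROOF.  `c = i.insertNth x b`; `∑_j c_j = x + ∑ b` (`Fin.sum_univ_succAbove`).  Conditions of `TT` for the index `i`: `∑ b + 3 ≤ 64`; for the index
`i.succAbove j`: `x + ∑ b - b_j + 3 ≤ 64`, i.e. `x < 62 - (∑ b - b_j)`; all `j` together: `x < 62 - (∑ b - min b) = lenb b`.  The bounds `c_j < 64` follow.
Use `Finset.sum_sigma'`, `Finset.sum_bij'` with `c ↦ (i.removeNth c, c i)` (`Fin.insertNth_removeNth`, ...), or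
`Fin.insertNthEquiv`.
-/

set_option autoImplicit false

open Finset

namespace Pool.Agent.Lib.MP_092512_nt.P3

private theorem E7_sum (i : Fin 4) (x : ℕ) (b : Fin 3 → ℕ) : ∑ j, ins i x b j = x + ∑ j, b j := by
  unfold ins
  rw [Fin.sum_univ_succAbove _ i]
  simp

private theorem E7_mem (i : Fin 4) (x : ℕ) (b : Fin 3 → ℕ) :
    ins i x b ∈ TT ↔ ((∀ j, b j < 64) ∧ (∑ j, b j) + 3 ≤ 64) ∧ x < lenb b := by
  rw [mem_TT, Fin.forall_iff_succAbove i, Fin.forall_iff_succAbove i, E7_sum]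
  simp only [ins, Fin.insertNth_apply_same, Fin.insertNth_apply_succAbove, lenb, mnb]
  simp only [Fin.forall_fin_succ, Fin.sum_univ_succ, Fin.succ_zero_eq_one, Fin.succ_one_eq_two, IsEmpty.forall_iff, and_true,
    Finset.univ_eq_empty, Finset.sum_empty, add_zero]
  generalize b 0 = p
  generalize b 1 = q
  generalize b 2 = r
  omega

private theorem E7_ins (i : Fin 4) (c : Fin 4 → ℕ) : ins i (c i) (i.removeNth c) = c :=
  Fin.insertNth_self_removeNth i c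

private theorem E7_rem (i : Fin 4) (x : ℕ) (b : Fin 3 → ℕ) : i.removeNth (ins i x b) = b := by
  unfold ins
  rw [Fin.removeNth_insertNth]

private theorem E7_at (i : Fin 4) (x : ℕ) (b : Fin 3 → ℕ) : ins i x b i = x := by
  unfold ins
  simp

private theorem E7_filt (b : Fin 3 → ℕ) :
    b ∈ (Fintype.piFinset (fun _ : Fin 3 => range 64)).filter (fun b => (∑ j, b j) + 3 ≤ 64) ↔
      (∀ j, b j < 64) ∧ (∑ j, b j) + 3 ≤ 64 := by
  rw [mem_filter, Fintype.mem_piFinset]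
  simp only [mem_range]

private theorem E7_gen (i : Fin 4) (F : (Fin 4 → ℕ) → ℝ) (T : Finset (Fin 3 → ℕ))
    (hT : ∀ b, b ∈ T ↔ (∀ j, b j < 64) ∧ (∑ j, b j) + 3 ≤ 64) :
    ∑ c ∈ TT, F c = ∑ b ∈ T, ∑ x ∈ range (lenb b), F (ins i x b) := by
  rw [sum_sigma']
  refine sum_bij' (fun c _ => ⟨i.removeNth c, c i⟩) (fun s _ => ins i s.2 s.1) ?_ ?_ ?_ ?_ ?_
  · intro c hc
    rw [← E7_ins i c, E7_mem] at hc
    rw [mem_sigma, hT, mem_range]
    exact hc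
  · intro s hs
    rw [mem_sigma, hT, mem_range] at hs
    rw [E7_mem]
    exact hs
  · intro c _
    exact E7_ins i c
  · rintro ⟨b, x⟩ _
    simp only [E7_rem, E7_at]
  · intro c _
    simp only [E7_ins]

theorem TT_sum (i : Fin 4) (F : (Fin 4 → ℕ) → ℝ) :
    ∑ c ∈ TT, F c =
      ∑ b ∈ (Fintype.piFinset (fun _ : Fin 3 => range 64)).filter (fun b => (∑ j, b j) + 3 ≤ 64),
        ∑ x ∈ range (lenb b), F (ins i x b) :=
  E7_gen i F _ E7_filt

theorem TTi_sum (i : Fin 4) (F : (Fin 4 → ℕ) → ℝ) :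
    ∑ c ∈ TTi i, F c =
      ∑ b ∈ BB, ∑ x ∈ range (lenb b), F (ins i x b) := by
  rw [sum_sigma']
  refine sum_bij' (fun c _ => ⟨i.removeNth c, c i⟩) (fun s _ => ins i s.2 s.1) ?_ ?_ ?_ ?_ ?_
  · intro c hc
    rw [mem_TTi] at hc
    obtain ⟨h1, h2⟩ := hc
    have h3 := E7_sum i (c i) (i.removeNth c)
    rw [E7_ins] at h3
    rw [← E7_ins i c, E7_mem] at h1
    rw [mem_sigma, mem_BB, mem_range]
    refine ⟨⟨h1.1.1, ?_⟩, h1.2⟩
    change (∑ j, i.removeNth c j) + 3 ≤ 56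
    omega
  · rintro ⟨b, x⟩ hs
    rw [mem_sigma, mem_BB, mem_range] at hs
    obtain ⟨⟨h1, h2⟩, h3⟩ := hs
    change (∑ j, b j) + 3 ≤ 56 at h2
    rw [mem_TTi, E7_mem, E7_sum, E7_at]
    refine ⟨⟨⟨h1, ?_⟩, h3⟩, ?_⟩
    · change (∑ j, b j) + 3 ≤ 64
      omega
    · change x + (∑ j, b j) - x + 3 ≤ 56
      omega
  · intro c _
    exact E7_ins i c
  · rintro ⟨b, x⟩ _
    simp only [E7_rem, E7_at]
  · intro c _
    simp only [E7_ins]

/-- for `b ∈ BB` the whole line lies in `TTi i` -/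
theorem ins_mem (i : Fin 4) (b : Fin 3 → ℕ) (hb : b ∈ BB) (x : ℕ) :
    ins i x b ∈ TT ↔ x < lenb b := by
  rw [mem_BB] at hb
  rw [E7_mem]
  exact ⟨fun h => h.2, fun h => ⟨⟨hb.1, by omega⟩, h⟩⟩

theorem lenb_le (b : Fin 3 → ℕ) : lenb b ≤ 62 := Nat.sub_le _ _

theorem TT_coord (c : Fin 4 → ℕ) (hc : c ∈ TT) (i : Fin 4) : c i ≤ 61 := by
  rw [← E7_ins i c, E7_mem] at hc
  have := lenb_le (i.removeNth c)
  omega

/-- the levels: `∑ (c_j + 1) ≤ 85` for all `c ∈ TT` -/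
theorem TT_level (c : Fin 4 → ℕ) (hc : c ∈ TT) : ∑ j, (c j + 1) ≤ 85 := by
  rw [mem_TT] at hc
  have h := hc.2
  have h0 := h 0
  have h1 := h 1
  have h2 := h 2
  have h3 := h 3
  rw [Fin.sum_univ_four] at h0 h1 h2 h3 ⊢
  omega

theorem TT_level_i (i : Fin 4) (c : Fin 4 → ℕ) (hc : c ∈ TT) : ∑ j ∈ univ.erase i, (c j + 1) ≤ 64 := by
  rw [mem_TT] at hc
  have h := hc.2 i
  have h1 := Finset.add_sum_erase univ (fun j => c j + 1) (mem_univ i)
  have h2 : ∑ j, (c j + 1) = (∑ j, c j) + 4 := by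
    rw [sum_add_distrib]
    simp
  omega

theorem TTi_level_i (i : Fin 4) (c : Fin 4 → ℕ) (hc : c ∈ TTi i) :
    ∑ j ∈ univ.erase i, (c j + 1) ≤ 56 := by
  rw [mem_TTi] at hc
  have h := hc.2
  have h1 := Finset.add_sum_erase univ (fun j => c j + 1) (mem_univ i)
  have h2 : ∑ j, (c j + 1) = (∑ j, c j) + 4 := by
    rw [sum_add_distrib]
    simp
  omega

end Pool.Agent.Lib.MP_092512_nt.P3
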