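import Pool.Agent.Lib.MP_092512_nt.P3.E0

/-!
# E8: the integer inequality (kernel computation)

The two numbers are `40 TOT = 29477930273586297340879444180960` and `7203 LAM NORM = 29438727375557958948000000000000`.
For every functional `f(x)` (one of `1`, `pz x (i+1) - pz x i`, `ell a b c d x`) and `S = t + m`, `len = 62 - t`, `t = 2m + r`:
with `A = 586 - 7 S`, `∑_{x<len} f(x) ph(S+x) = A² L₀ - 14 A L₁ + 49 L₂`, `L_k(len) = ∑_{x<len} f(x) x^k`.  The sum over `m` of the square
is a quadratic form in `(L₀, L₁, L₂)` with the coefficients `rows` (five numbers for every `t`).  The function `lp` runs through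
`rows` with running values of `L₀, L₁, L₂`; all intermediate values are forced (`fN`, `fZ`).
-/

set_option autoImplicit false

open Finset

namespace Pool.Agent.Lib.MP_092512_nt.P3

private def sumN (g : ℕ → ℤ) (n : ℕ) : ℤ := Nat.rec 0 (fun k acc => acc + g k) n

private theorem sumN_eq (g : ℕ → ℤ) (n : ℕ) : sumN g n = ∑ x ∈ range n, g x := by
  induction n with
  | zero => simp [sumN]
  | succ k ih =>
    rw [sum_range_succ, ← ih]
    rfl

private def fN {α : Type} (K : ℕ → α) (n : ℕ) : α := Nat.rec (K 0) (fun k _ => K (Nat.succ k)) n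

private theorem fN_eq {α : Type} (K : ℕ → α) (n : ℕ) : fN K n = K n := by
  cases n <;> rfl

private noncomputable def fZ {α : Type} (K : ℤ → α) (z : ℤ) : α :=
  Int.rec (fun n => fN (fun n => K (Int.ofNat n)) n) (fun n => fN (fun n => K (Int.negSucc n)) n) z

private theorem fZ_eq {α : Type} (K : ℤ → α) (z : ℤ) : fZ K z = K z := by
  cases z with
  | ofNat n => exact fN_eq (fun n => K (Int.ofNat n)) n
  | negSucc n => exact fN_eq (fun n => K (Int.negSucc n)) n

private abbrev Row := ℤ × ℤ × ℤ × ℤ × ℤ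

private def H (r : Row) (a b c : ℤ) : ℤ :=
  r.1 * (a * a) - 28 * r.2.1 * (a * b) + r.2.2.1 * (98 * (a * c) + 196 * (b * b)) -
    1372 * r.2.2.2.1 * (b * c) + 2401 * r.2.2.2.2 * (c * c)

private noncomputable def lp (f : ℕ → ℤ) (l : List Row) : ℕ → ℤ → ℤ → ℤ → ℤ → ℤ :=
  List.rec (motive := fun _ => ℕ → ℤ → ℤ → ℤ → ℤ → ℤ) (fun _ _ _ _ s => s)
    (fun row _ ih x a b c s => fZ (fun v => fZ (fun a' => fZ (fun b' => fZ (fun c' => fZ (fun s' =>
      fN (fun x' => ih x' a' b' c' s') (x + 1)) (s + H row a' b' c')) (c + v * x * x)) (b + v * x)) (a + v)) (f x)) l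

private theorem lp_nil (f : ℕ → ℤ) (x : ℕ) (a b c s : ℤ) : lp f [] x a b c s = s := rfl

private theorem lp_cons (f : ℕ → ℤ) (row : Row) (l : List Row) (x : ℕ) (a b c s : ℤ) :
    lp f (row :: l) x a b c s = lp f l (x + 1) (a + f x) (b + f x * x) (c + f x * x * x)
      (s + H row (a + f x) (b + f x * x) (c + f x * x * x)) := by
  have : lp f (row :: l) x a b c s = fZ (fun v => fZ (fun a' => fZ (fun b' => fZ (fun c' => fZ (fun s' =>
      fN (fun x' => lp f l x' a' b' c' s') (x + 1)) (s + H row a' b' c')) (c + v * x * x)) (b + v * x)) (a + v))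
        (f x) := rfl
  rw [this]
  simp only [fZ_eq, fN_eq]

private theorem lp_eq (f : ℕ → ℤ) (l : List Row) : ∀ (x : ℕ) (a b c s : ℤ),
    lp f l x a b c s = s + ∑ i ∈ range l.length, H (l.getD i 0)
      (a + ∑ j ∈ range (i + 1), f (x + j))
      (b + ∑ j ∈ range (i + 1), f (x + j) * ((x + j : ℕ) : ℤ))
      (c + ∑ j ∈ range (i + 1), f (x + j) * ((x + j : ℕ) : ℤ) * ((x + j : ℕ) : ℤ)) := by
  induction l with
  | nil => intro x a b c s; simp [lp_nil]
  | cons row l ih =>
    intro x a b c s
    rw [lp_cons, ih, List.length_cons, sum_range_succ' _ l.length]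
    have e : ∀ (g : ℕ → ℤ) (i : ℕ), ∑ j ∈ range (i + 1 + 1), g (x + j) =
        g x + ∑ j ∈ range (i + 1), g (x + 1 + j) := by
      intro g i
      rw [sum_range_succ' _ (i + 1), add_comm]
      congr 1
      refine sum_congr rfl fun j _ => ?_
      congr 1
      ring
    have e0 : ∑ i ∈ range l.length, H ((row :: l).getD (i + 1) 0)
          (a + ∑ j ∈ range (i + 1 + 1), f (x + j))
          (b + ∑ j ∈ range (i + 1 + 1), f (x + j) * ((x + j : ℕ) : ℤ))
          (c + ∑ j ∈ range (i + 1 + 1), f (x + j) * ((x + j : ℕ) : ℤ) * ((x + j : ℕ) : ℤ)) =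
        ∑ i ∈ range l.length, H (l.getD i 0)
          (a + f x + ∑ j ∈ range (i + 1), f (x + 1 + j))
          (b + f x * x + ∑ j ∈ range (i + 1), f (x + 1 + j) * ((x + 1 + j : ℕ) : ℤ))
          (c + f x * x * x + ∑ j ∈ range (i + 1), f (x + 1 + j) * ((x + 1 + j : ℕ) : ℤ) * ((x + 1 + j : ℕ) : ℤ)) := by
      refine sum_congr rfl fun i _ => ?_
      rw [e f i, e (fun n => f n * (n : ℤ)) i, e (fun n => f n * (n : ℤ) * (n : ℤ)) i]
      rw [← add_assoc, ← add_assoc, ← add_assoc]
      rfl
    rw [e0]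
    simp only [zero_add, sum_range_one, add_zero]
    have : (row :: l).getD 0 0 = row := rfl
    rw [this]
    ring

/-- the weight of the pair `(t, m)` -/
private def wt (t m : ℕ) : ℤ := if 2 * m ≤ t ∧ m + t < 54 then (mul3 (t - 2 * m) : ℤ) else 0

private def AA (t m : ℕ) : ℤ := 586 - 7 * ((t + m : ℕ) : ℤ)

private def rows : List Row := [
  (0, 0, 0, 0, 0),
  (0, 0, 0, 0, 0),
  (0, 0, 0, 0, 0),
  (0, 0, 0, 0, 0),
  (0, 0, 0, 0, 0),
  (0, 0, 0, 0, 0),
  (0, 0, 0, 0, 0),
  (0, 0, 0, 0, 0),
  (339743349375, 1580201625, 7349775, 34185, 159),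
  (699422968086, 3197559738, 14622054, 66882, 306),
  (1079090946150, 4847020248, 21785946, 97986, 441),
  (1478556112692, 6522662940, 28808796, 127392, 564),
  (1897353524037, 8217658257, 35656185, 154995, 675),
  (2334712568826, 9924224082, 42291930, 180690, 774),
  (2789523690156, 11633582520, 48678084, 204372, 861),
  (3260303724744, 13335916680, 54774936, 225936, 936),
  (3745159859115, 15020327457, 60541011, 245277, 999),
  (4241752202814, 16674790314, 65933070, 262290, 1050),
  (4747254978642, 18286112064, 70906110, 276870, 1089),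
  (5258316329916, 19839887652, 75413364, 288912, 1116),
  (5771016744753, 21320456937, 79406301, 298311, 1131),
  (6280826097378, 22710861474, 82834626, 304962, 1134),
  (6782559306456, 23992801296, 85646280, 308760, 1125),
  (7270330610448, 25146591696, 87787440, 309600, 1104),
  (7737506459991, 26151120009, 89202519, 307377, 1071),
  (8176657027302, 26983802394, 89834166, 301986, 1026),
  (8585916584481, 27650355741, 89761941, 293967, 972),
  (8979845529505, 28232594605, 89411785, 285421, 919),
  (9354019668411, 28722295617, 88777587, 276369, 867),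
  (9707657495056, 29126832184, 87916324, 267082, 817),
  (10033274259480, 29426368848, 86771208, 257352, 768),
  (10331295047185, 29633015167, 85411921, 247471, 721),
  (10592868437976, 29723877096, 83773380, 237210, 675),
  (10820122081414, 29716677934, 81938854, 226882, 631),
  (11002623708363, 29584964073, 79834083, 216237, 588),
  (11144779013629, 29353005709, 77556805, 205609, 547),
  (11234319742113, 28990233129, 75022701, 194727, 507),
  (11278589291368, 28528452148, 72344860, 183946, 469),
  (11263182657450, 27932364840, 69428022, 172974, 432),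
  (11199129442021, 27242356927, 66401509, 162187, 397),
  (11069536836006, 26417734596, 63158238, 151272, 363),
  (10889962657942, 25508563330, 59844646, 140626, 331),
  (10640620276389, 24468030189, 56340945, 129915, 300),
  (10342535918473, 23357035837, 52811569, 119557, 271),
  (9972563484663, 22121869401, 49123143, 109197, 243),
  (9558240648880, 20835477712, 45458980, 99274, 217),
  (9072531901740, 19436417592, 41671236, 89412, 192),
  (8550636916201, 18010948591, 37962985, 80071, 169),
  (7961031867684, 16489005288, 34171032, 70854, 147),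
  (7347841162006, 14971482070, 30519094, 62242, 127),
  (6674380122927, 13378745769, 26827743, 53817, 108),
  (5995077472069, 11827703293, 23342221, 46081, 91),
  (5267336846397, 10228152657, 19865985, 38595, 75),
  (4557392382952, 8714446540, 16666684, 31882, 61),
  (3815902230558, 7184757504, 13529778, 25482, 48),
  (3122533225501, 5792372815, 10746205, 19939, 37),
  (2420276593362, 4422727380, 8082546, 14772, 27),
  (1803990005254, 3249587434, 5853910, 10546, 19),
  (1207984027113, 2144482461, 3807117, 6759, 12),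
  (744200819761, 1303257613, 2282329, 3997, 7),
  (337159584243, 582313617, 1005723, 1737, 3),
  (117920812816, 201230056, 343396, 586, 1)]

private noncomputable def rowOf (t : ℕ) : Row :=
  (sumN (fun m => fZ (fun A => wt t m * (A * A * A * A)) (AA t m)) 18,
    sumN (fun m => fZ (fun A => wt t m * (A * A * A)) (AA t m)) 18,
    sumN (fun m => fZ (fun A => wt t m * (A * A)) (AA t m)) 18,
    sumN (fun m => fZ (fun A => wt t m * A) (AA t m)) 18,
    sumN (fun m => wt t m) 18)

set_option maxRecDepth 100000 in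
private theorem rows_ok : ∀ i < 62, rows.getD i 0 = rowOf (61 - i) := by
  decide +kernel

private def Tf (f : ℕ → ℤ) : ℤ := ∑ t ∈ range 62, ∑ m ∈ range 18,
  wt t m * (∑ x ∈ range (62 - t), f x * ph (t + m + x)) ^ 2

private def dz (i x : ℕ) : ℤ := pz x (i + 1) - pz x i
private def el (a b x : ℕ) : ℤ := ell (brk a) (brk (a + 1)) (brk b) (brk (b + 1)) x

private noncomputable def lpf (f : ℕ → ℤ) : ℤ := lp f rows 0 0 0 0 0

private noncomputable def fsum (g : ℕ → ℤ) (n : ℕ) : ℤ :=
  Nat.rec (motive := fun _ => ℤ → ℤ) (fun acc => acc) (fun k ih acc => fZ (fun v => fZ ih (acc + v)) (g k)) n 0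

private noncomputable def RHSz : ℤ :=
  Kinf * lpf (fun _ => 1) + fsum (fun i => (om (i + 1) : ℤ) * lpf (dz (i + 1))) 63 +
    fsum (fun a => fsum (fun b => if a < b then
      (bo (brk a) (brk (a + 1)) (brk b) (brk (b + 1)) : ℤ) * lpf (el a b) else 0) 6) 6 +
    fsum (fun a => (bd (brk a) (brk (a + 1)) : ℤ) * lpf (el a a)) 6

private noncomputable def p4 (y : ℕ) : ℤ := fZ (fun u => u * u * (u * u)) (586 - 7 * (y : ℤ))
private noncomputable def gN (m n : ℕ) : ℤ := sumN (fun z => p4 (3 * m + z)) n
private noncomputable def NRM : ℤ :=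
  fsum (fun m => fsum (fun r => (mul3 r : ℤ) * (gN m (62 - 2 * m) - gN m r)) (62 - 3 * m)) 21



set_option maxRecDepth 100000 in
private theorem chk : fZ (fun u => fZ (fun v => decide (u < v)) (40 * RHSz)) (7203 * (LAM : ℤ) * NRM) = true := by
  decide +kernel

private theorem fsum_eq (g : ℕ → ℤ) (n : ℕ) : fsum g n = ∑ i ∈ range n, g i := by
  have key : ∀ (n : ℕ) (acc : ℤ), (Nat.rec (motive := fun _ => ℤ → ℤ) (fun acc => acc)
      (fun k ih acc => fZ (fun v => fZ ih (acc + v)) (g k)) n : ℤ → ℤ) acc = acc + ∑ i ∈ range n, g i := by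
    intro n
    induction n with
    | zero => intro acc; simp
    | succ k ih =>
      intro acc
      simp only [fZ_eq] at ih ⊢
      rw [ih, sum_range_succ]
      ring
  have := key n 0
  rw [zero_add] at this
  exact this

private theorem line_eq (f : ℕ → ℤ) (S len : ℕ) :
    ∑ x ∈ range len, f x * ph (S + x) =
      (586 - 7 * (S : ℤ)) ^ 2 * (∑ x ∈ range len, f x) -
        14 * (586 - 7 * (S : ℤ)) * (∑ x ∈ range len, f x * (x : ℤ)) +
        49 * (∑ x ∈ range len, f x * (x : ℤ) * (x : ℤ)) := by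
  rw [mul_sum, mul_sum, mul_sum, ← sum_sub_distrib, ← sum_add_distrib]
  refine sum_congr rfl fun x _ => ?_
  unfold ph
  push_cast
  ring

private theorem Tf_eq (f : ℕ → ℤ) : Tf f = lpf f := by
  unfold lpf
  rw [lp_eq]
  have hlen : rows.length = 62 := rfl
  rw [hlen]
  simp only [zero_add]
  unfold Tf
  rw [← sum_range_reflect]
  refine sum_congr rfl fun i hi => ?_
  have hi' : i < 62 := mem_range.mp hi
  rw [rows_ok i hi']
  have e1 : 62 - 1 - i = 61 - i := rfl
  have e2 : 62 - (61 - i) = i + 1 := by omega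
  rw [e1, e2]
  simp only [line_eq]
  unfold rowOf H
  simp only [fZ_eq, sumN_eq]
  generalize ∑ x ∈ range (i + 1), f x = L0
  generalize ∑ x ∈ range (i + 1), f x * (x : ℤ) = L1
  generalize ∑ x ∈ range (i + 1), f x * (x : ℤ) * (x : ℤ) = L2
  have e3 : ∀ m : ℕ, (586 - 7 * ((61 - i + m : ℕ) : ℤ)) = AA (61 - i) m := fun m => rfl
  simp only [e3]
  simp only [sum_mul, mul_sum, ← sum_sub_distrib, ← sum_add_distrib]
  refine sum_congr rfl fun m _ => ?_
  ring

private theorem reindex (F : ℕ → ℕ → ℤ) :
    ∑ m ∈ range 18, ∑ r ∈ range (54 - 3 * m), (mul3 r : ℤ) * F (3 * m + r) (62 - (2 * m + r)) =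
      ∑ t ∈ range 62, ∑ m ∈ range 18, wt t m * F (t + m) (62 - t) := by
  rw [sum_comm (s := range 62)]
  refine sum_congr rfl fun m _ => ?_
  have e1 : ∑ t ∈ range 62, wt t m * F (t + m) (62 - t) =
      ∑ t ∈ (range 62).filter (fun t => 2 * m ≤ t ∧ m + t < 54), (mul3 (t - 2 * m) : ℤ) * F (t + m) (62 - t) := by
    rw [sum_filter]
    refine sum_congr rfl fun t _ => ?_
    unfold wt
    split_ifs <;> simp
  rw [e1]
  refine sum_nbij' (fun r => r + 2 * m) (fun t => t - 2 * m) ?_ ?_ ?_ ?_ ?_
  · intro r hr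
    simp only [mem_range, mem_filter] at hr ⊢
    omega
  · intro t ht
    simp only [mem_range, mem_filter] at ht ⊢
    omega
  · intro r _
    exact Nat.add_sub_cancel r (2 * m)
  · intro t ht
    simp only [mem_range, mem_filter] at ht
    exact Nat.sub_add_cancel ht.2.1
  · intro r _
    have h1 : r + 2 * m - 2 * m = r := Nat.add_sub_cancel r (2 * m)
    have h2 : r + 2 * m + m = 3 * m + r := by ring
    have h3 : r + 2 * m = 2 * m + r := by ring
    simp only [h1, h2]
    rw [h3]

private def Lam (F : ℕ → ℕ → ℤ) : ℤ := ∑ t ∈ range 62, ∑ m ∈ range 18, wt t m * F (t + m) (62 - t)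

private theorem Lam_add (F G : ℕ → ℕ → ℤ) : Lam (fun S l => F S l + G S l) = Lam F + Lam G := by
  unfold Lam
  simp only [mul_add, sum_add_distrib]

private theorem Lam_mul (c : ℤ) (F : ℕ → ℕ → ℤ) : Lam (fun S l => c * F S l) = c * Lam F := by
  unfold Lam
  simp only [mul_sum]
  refine sum_congr rfl fun t _ => sum_congr rfl fun m _ => ?_
  ring

private theorem Lam_sum {ι : Type} (s : Finset ι) (F : ι → ℕ → ℕ → ℤ) :
    Lam (fun S l => ∑ i ∈ s, F i S l) = ∑ i ∈ s, Lam (F i) := by
  unfold Lam
  simp only [mul_sum]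
  rw [sum_comm' (s := range 62) (t := fun _ => range 18) (t' := range 18) (s' := fun _ => range 62) (by simp [and_comm])]
  have : ∀ m ∈ range 18, ∑ t ∈ range 62, ∑ i ∈ s, wt t m * F i (t + m) (62 - t) =
      ∑ i ∈ s, ∑ t ∈ range 62, wt t m * F i (t + m) (62 - t) := fun m _ => sum_comm
  rw [sum_congr rfl this, sum_comm]
  refine sum_congr rfl fun i _ => sum_comm

private theorem Lam_line (f : ℕ → ℤ) :
    Lam (fun S l => (∑ x ∈ range l, f x * ph (S + x)) ^ 2) = lpf f := by
  rw [← Tf_eq]
  rfl

private theorem TOT_eq : TOT = RHSz := by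
  have h1 : TOT = Lam Rz := reindex Rz
  have h2 : Rz = fun S l => ((((Kinf : ℤ) * (∑ x ∈ range l, (fun _ => (1 : ℤ)) x * ph (S + x)) ^ 2 +
      ∑ i ∈ range 63, (om (i + 1) : ℤ) * (∑ x ∈ range l, dz (i + 1) x * ph (S + x)) ^ 2)) +
      ∑ a ∈ range 6, ∑ b ∈ range 6, (if a < b then (bo (brk a) (brk (a + 1)) (brk b) (brk (b + 1)) : ℤ) else 0) *
        (∑ x ∈ range l, el a b x * ph (S + x)) ^ 2) +
      ∑ a ∈ range 6, (bd (brk a) (brk (a + 1)) : ℤ) * (∑ x ∈ range l, el a a x * ph (S + x)) ^ 2 := by
    funext S l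
    unfold Rz
    refine congrArg₂ (· + ·) (congrArg₂ (· + ·) (congrArg₂ (· + ·) ?_ ?_) ?_) rfl
    · simp only [one_mul]
    · have hI : Icc 1 63 = Ico 1 64 := by
        ext i
        simp only [mem_Icc, mem_Ico]
        omega
      rw [hI, sum_Ico_eq_sum_range]
      refine sum_congr rfl fun i _ => ?_
      rw [add_comm 1 i]
      rfl
    · unfold offd
      rw [sum_filter, sum_product]
      refine sum_congr rfl fun a _ => sum_congr rfl fun b _ => ?_
      simp only
      split_ifs with h
      · rfl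
      · simp
  rw [h1, h2, Lam_add, Lam_add, Lam_add, Lam_mul, Lam_line, Lam_sum, Lam_sum, Lam_sum]
  unfold RHSz
  simp only [fsum_eq]
  refine congrArg₂ (· + ·) (congrArg₂ (· + ·) (congrArg₂ (· + ·) rfl ?_) ?_) ?_
  · refine sum_congr rfl fun i _ => ?_
    rw [Lam_mul, Lam_line]
  · refine sum_congr rfl fun a _ => ?_
    rw [Lam_sum]
    refine sum_congr rfl fun b _ => ?_
    rw [Lam_mul, Lam_line]
    split_ifs <;> simp
  · refine sum_congr rfl fun a _ => ?_
    rw [Lam_mul, Lam_line]

private theorem NORM_eq : NORM = NRM := by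
  unfold NORM NRM
  simp only [fsum_eq]
  refine sum_congr rfl fun m _ => sum_congr rfl fun r hr => ?_
  have hr' : r < 62 - 3 * m := mem_range.mp hr
  congr 1
  unfold gN
  rw [sumN_eq, sumN_eq]
  have e1 : 62 - 2 * m = r + (62 - (2 * m + r)) := by omega
  rw [e1, sum_range_add, add_sub_cancel_left]
  have e2 : r + (62 - (2 * m + r)) - r = 62 - (2 * m + r) := by omega
  refine sum_congr rfl fun x _ => ?_
  unfold p4 ph
  rw [fZ_eq]
  push_cast
  ring

theorem check : 7203 * (LAM : ℤ) * NORM < 40 * TOT := by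
  have h := chk
  rw [fZ_eq, fZ_eq, decide_eq_true_eq] at h
  rw [NORM_eq, TOT_eq]
  exact h

end Pool.Agent.Lib.MP_092512_nt.P3
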