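import Pool.Agent.Lib.MP_092512_nt.P3.E5
import Pool.Agent.Lib.MP_092512_nt.P3.E6
import Pool.Agent.Lib.MP_092512_nt.P3.E7
import Pool.Agent.Lib.MP_092512_nt.P3.E8

/-!
# E9: the certificate

PROOF.  `∑_{c ∈ TT} ph(∑ c)² = NORM` (`TT_sum 0`, `∑ (insertNth x b) = x + ∑ b`, `triple_sum 64` with
`g S t = ∑_{x < 62 - t} ph (S + x)²`); `∑_{b ∈ BB} Dl ≥ et²/LAM ∑_{b ∈ BB} Rz (∑ b) (lenb b) = et²/LAM TOT` (`Dl_ge`, `triple_sum 56`);
then `check`: `3 et NORM < 4 et²/LAM TOT` is `7203 LAM NORM < 40 TOT`.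
-/

set_option autoImplicit false

open Finset

namespace Pool.Agent.Lib.MP_092512_nt.P3

private theorem E9_ins (i : Fin 4) (x : ℕ) (b : Fin 3 → ℕ) : ∑ j, ins i x b j = x + ∑ j, b j := by
  rw [Fin.sum_univ_succAbove _ i]
  unfold ins
  simp

private theorem E9_norm : ∑ c ∈ TT, (ph (∑ j, c j) : ℝ) ^ 2 = (NORM : ℝ) := by
  rw [TT_sum 0]
  have h1 : ∀ b : Fin 3 → ℕ, ∑ x ∈ range (lenb b), (ph (∑ j, ins 0 x b j) : ℝ) ^ 2 =
      (fun S t : ℕ => ∑ x ∈ range (62 - t), (ph (S + x) : ℝ) ^ 2) (∑ j, b j) ((∑ j, b j) - mnb b) := by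
    intro b
    show _ = ∑ x ∈ range (62 - ((∑ j, b j) - mnb b)), (ph ((∑ j, b j) + x) : ℝ) ^ 2
    refine sum_congr rfl fun x _ => ?_
    rw [E9_ins, add_comm]
  rw [sum_congr rfl (fun b _ => h1 b)]
  refine (triple_sum 64 (by norm_num) le_rfl
    (fun S t : ℕ => ∑ x ∈ range (62 - t), (ph (S + x) : ℝ) ^ 2)).trans ?_
  unfold NORM
  rw [Int.cast_sum]
  refine sum_congr rfl fun m _ => ?_
  rw [Int.cast_sum]
  refine sum_congr rfl fun r _ => ?_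
  rw [Int.cast_mul, Int.cast_sum, Int.cast_natCast]
  refine congrArg _ (sum_congr rfl fun x _ => ?_)
  rw [Int.cast_pow]

private theorem E9_BB : BB = (Fintype.piFinset (fun _ : Fin 3 => range 64)).filter
    (fun b => (∑ j, b j) + 3 ≤ 56) := by
  ext b
  rw [mem_BB, mem_filter, Fintype.mem_piFinset]
  simp only [mem_range]

private theorem E9_tot : ∑ b ∈ BB, (Rz (∑ j, b j) (lenb b) : ℝ) = (TOT : ℝ) := by
  rw [E9_BB]
  refine (triple_sum 56 (by norm_num) (by norm_num) (fun S t : ℕ => (Rz S (62 - t) : ℝ))).trans ?_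
  unfold TOT
  rw [Int.cast_sum]
  refine sum_congr rfl fun m _ => ?_
  rw [Int.cast_sum]
  refine sum_congr rfl fun r _ => ?_
  rw [Int.cast_mul, Int.cast_natCast]

theorem cert : 3 * et * ∑ c ∈ TT, (ph (∑ j, c j) : ℝ) ^ 2 <
    4 * ∑ b ∈ BB, Dl (∑ j, b j) (lenb b) := by
  have hLAM : (0 : ℝ) < LAM := by unfold LAM; norm_num
  have h1 : et ^ 2 / LAM * (TOT : ℝ) ≤ ∑ b ∈ BB, Dl (∑ j, b j) (lenb b) := by
    rw [← E9_tot, mul_sum]
    exact sum_le_sum fun b _ => Dl_ge _ _ (lenb_le b)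
  have h2 : (7203 : ℝ) * LAM * NORM < 40 * TOT := by exact_mod_cast check
  rw [E9_norm]
  have h3 : 3 * et * (NORM : ℝ) < 4 * (et ^ 2 / LAM * (TOT : ℝ)) := by
    have e1 : 4 * (et ^ 2 / LAM * (TOT : ℝ)) - 3 * et * (NORM : ℝ) =
        10 / (2401 ^ 2 * LAM) * (40 * TOT - 7203 * LAM * NORM) := by
      unfold et
      field_simp
      ring
    have e2 : 0 < 10 / (2401 ^ 2 * (LAM : ℝ)) * (40 * TOT - 7203 * LAM * NORM) :=
      mul_pos (by positivity) (by linarith)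
    linarith
  linarith

end Pool.Agent.Lib.MP_092512_nt.P3
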