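import Pool.Agent.Lib.MP_092512_nt.P3.Defs2

/-!
# F0: the sums of the assembly

`PL c n = ∏_i LC_{c_i}(n + h_i)`, `fc c = ph (∑ c)`, `WW = ∑_{TT} fc PL`, `WP i` the same over `TTi i`,
`Nn` the set of the `n ∈ (x, 2x]` with all `n + h_i` free of prime factors `≤ z`,
`Sg j j' = ∑_r alp_{jj'}(r)/r`, `FF`, `MM j j' = ∑_m FF`, `TI i c c' = ∑_n ew(n+h_i) PL c PL c'`,
`TZ c c' = ∑_n PL c PL c'`, `SS = ∑_n (∑_i ew(n+h_i) - 3) WW²`.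
-/

set_option autoImplicit false

open Finset

namespace Pool.Agent.Lib.MP_092512_nt.P3

open Pool.Agent.Lib.SW

noncomputable def PL (h : Fin 4 → ℕ) (x z : ℕ) (c : Fin 4 → ℕ) (n : ℕ) : ℝ :=
  ∏ i, LC x z et (c i) (n + h i)

noncomputable def fc (c : Fin 4 → ℕ) : ℝ := (ph (∑ j, c j) : ℝ)

noncomputable def WW (h : Fin 4 → ℕ) (x z n : ℕ) : ℝ := ∑ c ∈ TT, fc c * PL h x z c n

noncomputable def WP (h : Fin 4 → ℕ) (x z : ℕ) (i : Fin 4) (n : ℕ) : ℝ :=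
  ∑ c ∈ TTi i, fc c * PL h x z c n

def Nn (h : Fin 4 → ℕ) (x z : ℕ) : Finset ℕ :=
  (Ioc x (2 * x)).filter (fun n => ∀ i, Nat.Coprime (n + h i) (primorial z))

noncomputable def Sg (x z j j' : ℕ) : ℝ :=
  ∑ r ∈ Icc 1 ⌊(x : ℝ) ^ (((j : ℝ) + 1 + (j' + 1)) * et)⌋₊, alp x z et j j' r / r

noncomputable def FF (x z h0 j j' m : ℕ) : ℝ :=
  if x + h0 < m ∧ m ≤ 2 * x + h0 then ew x de th m * (LC x z et j m * LC x z et j' m) else 0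

noncomputable def MM (x z h0 j j' : ℕ) : ℝ := ∑ m ∈ Icc 1 (3 * x), FF x z h0 j j' m

noncomputable def TI (h : Fin 4 → ℕ) (x z : ℕ) (i : Fin 4) (c c' : Fin 4 → ℕ) : ℝ :=
  ∑ n ∈ Nn h x z, ew x de th (n + h i) * (PL h x z c n * PL h x z c' n)

noncomputable def TZ (h : Fin 4 → ℕ) (x z : ℕ) (c c' : Fin 4 → ℕ) : ℝ :=
  ∑ n ∈ Nn h x z, PL h x z c n * PL h x z c' n

noncomputable def SS (h : Fin 4 → ℕ) (x z : ℕ) : ℝ :=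
  ∑ n ∈ Nn h x z, (∑ i, ew x de th (n + h i) - 3) * WW h x z n ^ 2

/-- `∑_m ew(m) LV_b(m)²` -/
noncomputable def Yb (x z h0 : ℕ) (b : Fin 3 → ℕ) : ℝ :=
  ∑ m ∈ Ioc (x + h0) (2 * x + h0), ew x de th m * LV x z et (lenb b) (vS (∑ j, b j)) m ^ 2

end Pool.Agent.Lib.MP_092512_nt.P3
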