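import Pool.Agent.Lib.MP_092512_nt.P3.F0

/-!
# F1: opening the square

PROOFS.  `SS_ge`: for `x ≥ h_i` all `n + h_i ∈ (x, 3x]`, `ew ≥ 0` (hypothesis), and `ew WW² - ew WP (2 WW - WP) = ew (WW - WP)² ≥ 0`.
`exp_i`: `WP (2 WW - WP) = ∑_{c ∈ TTi} ∑_{c' ∈ TT} fc c fc c' (2 - 1[c' ∈ TTi]) PL c PL c'` (`TTi i ⊆ TT`), then exchange with the sum
over `n`.  `exp_0` the same for `WW²`.
-/

set_option autoImplicit false

open Finset

namespace Pool.Agent.Lib.MP_092512_nt.P3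

theorem SS_ge (h : Fin 4 → ℕ) (x z : ℕ) (hpos : ∀ n ∈ Nn h x z, ∀ i, 0 ≤ ew x de th (n + h i)) :
    ∑ i, ∑ n ∈ Nn h x z, ew x de th (n + h i) *
        (WP h x z i n * (2 * WW h x z n - WP h x z i n)) -
      3 * ∑ n ∈ Nn h x z, WW h x z n ^ 2 ≤ SS h x z := by
  unfold SS
  rw [sum_comm, mul_sum, ← sum_sub_distrib]
  refine sum_le_sum fun n hn => ?_
  rw [sub_mul, sum_mul]
  refine sub_le_sub_right ?_ _
  refine sum_le_sum fun i _ => ?_
  have h0 := hpos n hn i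
  nlinarith [mul_nonneg h0 (sq_nonneg (WW h x z n - WP h x z i n))]

theorem TTi_sub (i : Fin 4) : TTi i ⊆ TT := by
  intro c hc
  exact (mem_TTi.mp hc).1

theorem WP_ite (h : Fin 4 → ℕ) (x z : ℕ) (i : Fin 4) (n : ℕ) :
    2 * WW h x z n - WP h x z i n =
      ∑ c' ∈ TT, fc c' * (2 - if c' ∈ TTi i then 1 else 0) * PL h x z c' n := by
  have h1 : WP h x z i n = ∑ c' ∈ TT, if c' ∈ TTi i then fc c' * PL h x z c' n else 0 := by
    unfold WP
    rw [← sum_filter]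
    refine sum_congr ?_ fun _ _ => rfl
    ext c
    rw [mem_filter]
    exact ⟨fun hc => ⟨TTi_sub i hc, hc⟩, fun hc => hc.2⟩
  rw [h1]
  unfold WW
  rw [mul_sum, ← sum_sub_distrib]
  refine sum_congr rfl fun c _ => ?_
  split_ifs <;> ring

theorem exp_i (h : Fin 4 → ℕ) (x z : ℕ) (i : Fin 4) :
    ∑ n ∈ Nn h x z, ew x de th (n + h i) * (WP h x z i n * (2 * WW h x z n - WP h x z i n)) =
      ∑ c ∈ TTi i, ∑ c' ∈ TT, fc c * fc c' * (2 - if c' ∈ TTi i then 1 else 0) * TI h x z i c c' := by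
  have h1 : ∀ n ∈ Nn h x z, ew x de th (n + h i) * (WP h x z i n * (2 * WW h x z n - WP h x z i n)) =
      ∑ c ∈ TTi i, ∑ c' ∈ TT, fc c * fc c' * (2 - if c' ∈ TTi i then 1 else 0) *
        (ew x de th (n + h i) * (PL h x z c n * PL h x z c' n)) := by
    intro n _
    rw [WP_ite]
    unfold WP
    rw [sum_mul_sum, mul_sum]
    refine sum_congr rfl fun c _ => ?_
    rw [mul_sum]
    refine sum_congr rfl fun c' _ => ?_
    ring
  rw [sum_congr rfl h1, sum_comm]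
  refine sum_congr rfl fun c _ => ?_
  rw [sum_comm]
  refine sum_congr rfl fun c' _ => ?_
  unfold TI
  rw [mul_sum]

theorem exp_0 (h : Fin 4 → ℕ) (x z : ℕ) :
    ∑ n ∈ Nn h x z, WW h x z n ^ 2 = ∑ c ∈ TT, ∑ c' ∈ TT, fc c * fc c' * TZ h x z c c' := by
  have h1 : ∀ n ∈ Nn h x z, WW h x z n ^ 2 =
      ∑ c ∈ TT, ∑ c' ∈ TT, fc c * fc c' * (PL h x z c n * PL h x z c' n) := by
    intro n _
    rw [sq]
    unfold WW
    rw [sum_mul_sum]
    refine sum_congr rfl fun c _ => ?_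
    refine sum_congr rfl fun c' _ => ?_
    ring
  rw [sum_congr rfl h1, sum_comm]
  refine sum_congr rfl fun c _ => ?_
  rw [sum_comm]
  refine sum_congr rfl fun c' _ => ?_
  unfold TZ
  rw [mul_sum]

end Pool.Agent.Lib.MP_092512_nt.P3
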