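import Pool.Agent.Lib.MP_092512_nt.P3.Lev
import Pool.Agent.Lib.MP_092512_nt.P3.C4
import Pool.Agent.Lib.MP_092512_nt.P3.C5
import Pool.Agent.Lib.MP_092512_nt.P3.C5b
import Pool.Agent.Lib.MP_092512_nt.P3.D3
import Pool.Agent.Lib.MP_092512_nt.P3.D7b
import Pool.Agent.Lib.MP_092512_nt.P3.B10
import Pool.Agent.Lib.MP_092512_nt.P3.B11
import Pool.Agent.Lib.MP_092512_nt.P3.B14
import Pool.Agent.Lib.MP_092512_nt.P3.B20

/-!
# P3 quadruples: the interface of the parts (A level, B sieve, C Selberg weights, D lower bound)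
-/

set_option autoImplicit false

open Finset

open scoped ArithmeticFunction.Moebius

namespace Pool.Agent.Lib.MP_092512_nt.P3

open Pool.Agent.Lib.SW

/-! ### Part B (generic sieve lemmas) -/

/-- all integers -/
theorem sieve_int (k : ℕ) (h : Fin k → ℕ) (hinj : Function.Injective h) (K A : ℕ) (ε : ℝ)
    (hε : 0 < ε) : ∃ B₀ : ℕ, ∀ B : ℕ, B₀ ≤ B → ∃ x₀ : ℕ, ∀ x : ℕ, x₀ ≤ x →
      ∀ (α : Fin k → ℕ → ℝ) (R : Fin k → ℝ), (∀ i, 1 ≤ R i) →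
        (∀ i r, α i r ≠ 0 → Squarefree r ∧ Nat.Coprime r (primorial (zB B x)) ∧ (r : ℝ) ≤ R i) →
        (∀ i r, |α i r| ≤ K * 3 ^ r.primeFactors.card) →
        ∏ i, R i ≤ (x : ℝ) ^ (1 - ε) →
        |∑ n ∈ (Ioc x (2 * x)).filter (fun n => ∀ i, Nat.Coprime (n + h i) (primorial (zB B x))),
            ∏ i, ∑ r ∈ (n + h i).divisors, α i r -
          x * VH h (zB B x) * ∏ i, ∑ r ∈ Icc 1 ⌊R i⌋₊, α i r / r| ≤ x / (Real.log x) ^ A :=
  B.sieve_int k h hinj K A ε hε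

/-- a bounded function `F` of the `i0`-th coordinate, supported on numbers without prime factors
`≤ z` and with a level of distribution; only the other coordinates are sifted -/
theorem sieve_F (k : ℕ) (h : Fin k → ℕ) (hinj : Function.Injective h) (i0 : Fin k) (K A : ℕ)
    (ε : ℝ) (hε : 0 < ε) : ∃ B₀ A' K' : ℕ, ∀ B : ℕ, B₀ ≤ B → ∃ x₀ : ℕ, ∀ x : ℕ, x₀ ≤ x →
      ∀ (Q : ℕ) (F : ℕ → ℝ), Q ≤ x → (∀ m, |F m| ≤ K) →
        (∀ m, F m ≠ 0 → x + h i0 < m ∧ m ≤ 2 * x + h i0 ∧ Nat.Coprime m (primorial (zB B x))) →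
        LevelBd F (3 * x) Q K' (x / (Real.log x) ^ A') →
      ∀ (α : Fin k → ℕ → ℝ) (R : Fin k → ℝ), (∀ i, 1 ≤ R i) →
        (∀ i r, α i r ≠ 0 → Squarefree r ∧ Nat.Coprime r (primorial (zB B x)) ∧ (r : ℝ) ≤ R i) →
        (∀ i r, |α i r| ≤ K * 3 ^ r.primeFactors.card) →
        (∏ i ∈ univ.erase i0, R i) * (x : ℝ) ^ ε ≤ Q →
        |∑ n ∈ (Ioc x (2 * x)).filter
              (fun n => ∀ i ≠ i0, Nat.Coprime (n + h i) (primorial (zB B x))),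
            F (n + h i0) * ∏ i ∈ univ.erase i0, ∑ r ∈ (n + h i).divisors, α i r -
          VH' h (zB B x) * (∑ m ∈ Icc 1 (3 * x), F m) *
            ∏ i ∈ univ.erase i0, ∑ r ∈ Icc 1 ⌊R i⌋₊, α i r / r| ≤ x / (Real.log x) ^ A :=
  B.sieve_F k h hinj i0 K A ε hε

/-- admissible: every prime leaves a class free -/
theorem VH_lower (k : ℕ) (h : Fin k → ℕ) (hinj : Function.Injective h)
    (hadm : ∀ p : ℕ, p.Prime → nuh h univ p < p) :
    ∃ c : ℝ, 0 < c ∧ ∀ z : ℕ, c * Vz z ^ k ≤ VH h z :=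
  B.VH_lower k h hinj hadm

theorem VH_eq (k : ℕ) (hk : 0 < k) (h : Fin k → ℕ) (z : ℕ) : VH h z = Vz z * VH' h z :=
  B.VH_eq k hk h z

end Pool.Agent.Lib.MP_092512_nt.P3
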