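import Pool.Agent.Lib.MP_092512_nt.P3.F0
import Pool.Agent.Lib.MP_092512_nt.P3.E7
import Pool.Agent.Lib.MP_092512_nt.P3.C1
import Pool.Agent.Lib.MP_092512_nt.P3.Spec2

/-!
# F2: asymptotic formula for `TI`

PROOF.  `sieve_F` with `k = 4`, `K = 256`, `ε = 1/20000`, `F = FF x z (h i) (c i) (c' i)`, `α_j = alp x z et (c j) (c' j)`,
`R_j = x^((c_j + 1 + c'_j + 1) et)`.  `B₀` = the `B₀` of `sieve_F` and `3`; `A', K'` of `sieve_F` go into `level_ew` (with `jm = 61`: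
`62 et ≤ 1/3`, `ε = 1/20000`, `Q = ⌊x^(1/2 - 1/20000)⌋ ≤ x`).  Bound `|FF| ≤ 256`: if `ew x de th m ≠ 0` then `m` has at most `8` divisors
(`ew_bound`), so `|LC| ≤ 16` (`lamC_le`), and `ew ≤ 1`.  Support: `ew ≠ 0` gives all prime factors `> x^de > z`
(`z ≤ (log x)^B`).  `alp_supp`, `alp_le`.  Levels: `TTi_level_i`, `TT_level_i`: `∏_{j ≠ i} R_j ≤ x^((56 + 64) et) = x^(1200/2401)`, and
`x^(1200/2401 + 1/20000) ≤ ⌊x^(1/2 - 1/20000)⌋` for large `x` (`1200/2401 < 1/2 - 2/10000`).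
Translation: `PL c n * PL c' n = (LC LC')(n + h_i) ∏_{j ≠ i} (LC LC')(n + h_j)` and `LC_mul` for `j ≠ i`; in `TI` the sum runs over `n` with ALL
`n + h_j` coprime to `P`; for `j = i` this is automatic when `ew(n + h_i) ≠ 0`; `x + h_i < n + h_i ≤ 2x + h_i` for `n ∈ Ioc x (2x)`.
-/

set_option autoImplicit false

open Finset

namespace Pool.Agent.Lib.MP_092512_nt.P3

open Pool.Agent.Lib.SW

private theorem F2_et : (0 : ℝ) < et := by unfold et; norm_num

private theorem F2_card_divisors (m : ℕ) (hm : Squarefree m) (h3 : m.primeFactors.card ≤ 3) :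
    (m.divisors.card : ℝ) ≤ 8 := by
  have h1 : m.divisors.card ≤ 2 ^ m.primeFactors.card := by
    rw [Nat.card_divisors hm.ne_zero]
    calc ∏ x ∈ m.primeFactors, (m.factorization x + 1) ≤ ∏ x ∈ m.primeFactors, 2 := by
          apply Finset.prod_le_prod'
          intro p _
          have := hm.natFactorization_le_one p
          omega
      _ = 2 ^ m.primeFactors.card := by rw [Finset.prod_const]
  have h2 : (2 : ℕ) ^ m.primeFactors.card ≤ 2 ^ 3 := Nat.pow_le_pow_right (by norm_num) h3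
  have h4 : m.divisors.card ≤ 8 := h1.trans h2
  exact_mod_cast h4

private theorem F2_LC_le {x z : ℕ} {j m : ℕ} (hl : ∀ d : ℕ, |lamC x z et j d| ≤ 2) (hm : Squarefree m)
    (h3 : m.primeFactors.card ≤ 3) : |LC x z et j m| ≤ 16 := by
  unfold LC
  calc |∑ d ∈ m.divisors, lamC x z et j d| ≤ ∑ d ∈ m.divisors, |lamC x z et j d| :=
        Finset.abs_sum_le_sum_abs _ _
    _ ≤ ∑ d ∈ m.divisors, (2 : ℝ) := Finset.sum_le_sum fun d _ => hl d
    _ = (m.divisors.card : ℝ) * 2 := by rw [Finset.sum_const, nsmul_eq_mul]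
    _ ≤ 8 * 2 := mul_le_mul_of_nonneg_right (F2_card_divisors m hm h3) (by norm_num)
    _ = 16 := by norm_num

private theorem F2_prod (x : ℕ) (hx : 1 ≤ x) (i : Fin 4) (c c' : Fin 4 → ℕ) (hc : c ∈ TTi i) (hc' : c' ∈ TT) :
    ∏ j ∈ univ.erase i, (x : ℝ) ^ (((c j : ℝ) + 1 + ((c' j : ℝ) + 1)) * et) ≤ (x : ℝ) ^ (1200 / 2401 : ℝ) := by
  have hx0 : (0 : ℝ) < x := by exact_mod_cast hx
  have hx1 : (1 : ℝ) ≤ x := by exact_mod_cast hx
  rw [← Real.rpow_sum_of_pos hx0]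
  refine Real.rpow_le_rpow_of_exponent_le hx1 ?_
  have h1 := TTi_level_i i c hc
  have h2 := TT_level_i i c' hc'
  have h3 : (∑ j ∈ univ.erase i, ((c j : ℝ) + 1 + ((c' j : ℝ) + 1))) ≤ 120 := by
    have e : ∑ j ∈ univ.erase i, (c j + 1) + ∑ j ∈ univ.erase i, (c' j + 1) ≤ 120 := by omega
    have e' : ((∑ j ∈ univ.erase i, (c j + 1) + ∑ j ∈ univ.erase i, (c' j + 1) : ℕ) : ℝ) ≤ 120 := by
      exact_mod_cast e
    push_cast at e'
    rw [sum_add_distrib]
    exact e'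
  rw [← sum_mul]
  calc (∑ j ∈ univ.erase i, ((c j : ℝ) + 1 + ((c' j : ℝ) + 1))) * et ≤ 120 * et :=
        mul_le_mul_of_nonneg_right h3 F2_et.le
    _ = 1200 / 2401 := by unfold et; norm_num

private theorem F2_level : ∃ x₀ : ℕ, ∀ x : ℕ, x₀ ≤ x →
    (x : ℝ) ^ (1200 / 2401 : ℝ) * (x : ℝ) ^ (1 / 20000 : ℝ) ≤ (⌊(x : ℝ) ^ (1 / 2 - 1 / 20000 : ℝ)⌋₊ : ℝ) := by
  have h1 : Filter.Tendsto (fun x : ℕ => (x : ℝ) ^ (1 / 20000 : ℝ)) Filter.atTop Filter.atTop :=
    (tendsto_rpow_atTop (by norm_num)).comp tendsto_natCast_atTop_atTop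
  obtain ⟨x1, hx1⟩ := Filter.eventually_atTop.mp (h1.eventually_ge_atTop 2)
  refine ⟨max x1 1, fun x hx => ?_⟩
  obtain ⟨k1, k2⟩ := max_le_iff.mp hx
  have hx0 : (0 : ℝ) < x := by exact_mod_cast k2
  have hxR : (1 : ℝ) ≤ x := by exact_mod_cast k2
  have h2 := hx1 x k1
  set a : ℝ := (x : ℝ) ^ (1200 / 2401 : ℝ) * (x : ℝ) ^ (1 / 20000 : ℝ) with ha
  have ha1 : 1 ≤ a := by
    have e1 := Real.one_le_rpow hxR (show (0 : ℝ) ≤ 1200 / 2401 by norm_num)
    have e2 := Real.one_le_rpow hxR (show (0 : ℝ) ≤ 1 / 20000 by norm_num)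
    calc (1 : ℝ) = 1 * 1 := by norm_num
      _ ≤ a := mul_le_mul e1 e2 (by norm_num) (by linarith)
  have h3 : a * (x : ℝ) ^ (1 / 20000 : ℝ) ≤ (x : ℝ) ^ (1 / 2 - 1 / 20000 : ℝ) := by
    rw [ha, ← Real.rpow_add hx0, ← Real.rpow_add hx0]
    apply Real.rpow_le_rpow_of_exponent_le hxR
    norm_num
  have h4 : 2 * a ≤ (x : ℝ) ^ (1 / 2 - 1 / 20000 : ℝ) := by
    refine le_trans ?_ h3
    rw [mul_comm]
    exact mul_le_mul_of_nonneg_left h2 (by linarith)
  have h5 := Nat.lt_floor_add_one ((x : ℝ) ^ (1 / 2 - 1 / 20000 : ℝ))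
  linarith

private theorem F2_one (h : Fin 4 → ℕ) (hinj : Function.Injective h) (A : ℕ) (i : Fin 4) :
    ∃ B₀ : ℕ, ∀ B : ℕ, B₀ ≤ B → ∃ x₀ : ℕ, ∀ x : ℕ, x₀ ≤ x → ∀ c ∈ TTi i, ∀ c' ∈ TT,
      |TI h x (zB B x) i c c' - VH' h (zB B x) * MM x (zB B x) (h i) (c i) (c' i) *
        ∏ j ∈ univ.erase i, Sg x (zB B x) (c j) (c' j)| ≤ x / (Real.log x) ^ A := by
  obtain ⟨B1, A', K', hB1⟩ := sieve_F 4 h hinj i 256 A (1 / 20000) (by norm_num)
  refine ⟨max 3 B1, fun B hB => ?_⟩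
  obtain ⟨hB3, hBB⟩ := max_le_iff.1 hB
  obtain ⟨x1, hx1⟩ := hB1 B hBB
  obtain ⟨x2, hx2⟩ := alp_le B 61 hB3 et F2_et (by unfold et; norm_num)
  obtain ⟨x3, hx3⟩ := lamC_le B 61 hB3 et F2_et (by unfold et; norm_num)
  obtain ⟨x4, hx4⟩ := level_ew (h i) 61 B hB3 et de th F2_et (by unfold et; norm_num)
    (by unfold de; norm_num) (by unfold th; norm_num) A' K' (1 / 20000) (by norm_num)
  obtain ⟨x5, hx5⟩ := ew_bound de th (by unfold de; norm_num) (by unfold de; norm_num) (by unfold th; norm_num)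
  obtain ⟨x6, hx6⟩ := F2_level
  obtain ⟨x7, hx7⟩ := Filter.eventually_atTop.mp (C1_zB_le_rpow B de (by unfold de; norm_num))
  refine ⟨max x1 (max x2 (max x3 (max x4 (max x5 (max x6 (max x7 (max 1 (h i)))))))), fun x hx c hc c' hc' => ?_⟩
  simp only [max_le_iff] at hx
  obtain ⟨k1, k2, k3, k4, k5, k6, k7, k8, k9⟩ := hx
  have hxR : (1 : ℝ) ≤ x := by exact_mod_cast k8
  set z : ℕ := zB B x with hz
  have hcT : c ∈ TT := (mem_TTi.mp hc).1
  have hci := TT_coord c hcT i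
  have hci' := TT_coord c' hc' i
  -- support of ew
  have hsupp : ∀ m, FF x z (h i) (c i) (c' i) m ≠ 0 → x + h i < m ∧ m ≤ 2 * x + h i ∧
      Nat.Coprime m (primorial z) ∧ Squarefree m ∧ m.primeFactors.card ≤ 3 := by
    intro m hm
    unfold FF at hm
    split_ifs at hm with h1
    · have he : ew x de th m ≠ 0 := left_ne_zero_of_mul hm
      obtain ⟨_, _, h2⟩ := hx5 x k5 m (by omega) (by omega)
      obtain ⟨h3, h4, h5⟩ := h2 he
      refine ⟨h1.1, h1.2, ?_, h3, h4⟩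
      rw [Nat.coprime_comm]
      apply Nat.Coprime.symm
      apply Nat.coprime_of_dvd
      intro p hp hpm hpP
      have h6 : p ≤ z := (hp.dvd_primorial_iff).mp hpP
      have h7 := h5 p (Nat.mem_primeFactors.mpr ⟨hp, hpm, h3.ne_zero⟩)
      have h8 := hx7 x k7
      have h9 : (p : ℝ) ≤ z := by exact_mod_cast h6
      linarith
    · exact absurd rfl hm
  have hbd : ∀ m, |FF x z (h i) (c i) (c' i) m| ≤ (256 : ℕ) := by
    intro m
    by_cases hm : FF x z (h i) (c i) (c' i) m = 0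
    · rw [hm, abs_zero]
      exact Nat.cast_nonneg _
    · obtain ⟨h1, h2, _, h3, h4⟩ := hsupp m hm
      unfold FF
      rw [if_pos ⟨h1, h2⟩, abs_mul, abs_mul]
      obtain ⟨e1, e2, _⟩ := hx5 x k5 m (by omega) (by omega)
      have e3 : |ew x de th m| ≤ 1 := by rw [abs_of_nonneg e1]; exact e2
      have e4 := F2_LC_le (m := m) (hx3 x k3 (c i) hci) h3 h4
      have e5 := F2_LC_le (m := m) (hx3 x k3 (c' i) hci') h3 h4
      calc |ew x de th m| * (|LC x z et (c i) m| * |LC x z et (c' i) m|) ≤ 1 * (16 * 16) :=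
            mul_le_mul e3 (mul_le_mul e4 e5 (abs_nonneg _) (by norm_num)) (by positivity) (by norm_num)
        _ = ((256 : ℕ) : ℝ) := by norm_num
  have hTI : TI h x z i c c' =
      ∑ n ∈ (Ioc x (2 * x)).filter (fun n => ∀ j ≠ i, Nat.Coprime (n + h j) (primorial z)),
        FF x z (h i) (c i) (c' i) (n + h i) *
          ∏ j ∈ univ.erase i, ∑ r ∈ (n + h j).divisors, alp x z et (c j) (c' j) r := by
    unfold TI
    have hsub : Nn h x z ⊆
        (Ioc x (2 * x)).filter (fun n => ∀ j ≠ i, Nat.Coprime (n + h j) (primorial z)) := by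
      intro n hn
      unfold Nn at hn
      obtain ⟨h1, h2⟩ := mem_filter.mp hn
      exact mem_filter.mpr ⟨h1, fun j _ => h2 j⟩
    rw [← Finset.sum_subset hsub]
    · refine Finset.sum_congr rfl fun n hn => ?_
      unfold Nn at hn
      obtain ⟨h1, h2⟩ := mem_filter.mp hn
      have h3 := mem_Ioc.mp h1
      unfold FF PL
      rw [if_pos ⟨by omega, by omega⟩, ← Finset.prod_mul_distrib]
      have e1 : ∏ j, (LC x z et (c j) (n + h j) * LC x z et (c' j) (n + h j)) =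
          (LC x z et (c i) (n + h i) * LC x z et (c' i) (n + h i)) *
            ∏ j ∈ univ.erase i, (LC x z et (c j) (n + h j) * LC x z et (c' j) (n + h j)) :=
        (Finset.mul_prod_erase univ (fun j => LC x z et (c j) (n + h j) * LC x z et (c' j) (n + h j))
          (mem_univ i)).symm
      have e2 : ∏ j ∈ univ.erase i, (LC x z et (c j) (n + h j) * LC x z et (c' j) (n + h j)) =
          ∏ j ∈ univ.erase i, ∑ r ∈ (n + h j).divisors, alp x z et (c j) (c' j) r :=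
        Finset.prod_congr rfl fun j _ => LC_mul x z et (c j) (c' j) (n + h j) (by omega)
      rw [e1, e2]
      ring
    · intro n hn hn'
      have hF : FF x z (h i) (c i) (c' i) (n + h i) = 0 := by
        by_contra hne
        obtain ⟨_, _, h3, _⟩ := hsupp _ hne
        apply hn'
        unfold Nn
        obtain ⟨h4, h5⟩ := mem_filter.mp hn
        refine mem_filter.mpr ⟨h4, fun j => ?_⟩
        by_cases hj : j = i
        · rw [hj]; exact h3
        · exact h5 j hj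
      rw [hF, zero_mul]
  have hQx : ⌊(x : ℝ) ^ (1 / 2 - 1 / 20000 : ℝ)⌋₊ ≤ x := by
    have e1 : (x : ℝ) ^ (1 / 2 - 1 / 20000 : ℝ) ≤ (x : ℝ) ^ (1 : ℝ) :=
      Real.rpow_le_rpow_of_exponent_le hxR (by norm_num)
    rw [Real.rpow_one] at e1
    have e2 := (Nat.floor_le (by positivity : (0 : ℝ) ≤ (x : ℝ) ^ (1 / 2 - 1 / 20000 : ℝ))).trans e1
    exact_mod_cast e2
  have key := hx1 x k1 ⌊(x : ℝ) ^ (1 / 2 - 1 / 20000 : ℝ)⌋₊ (FF x z (h i) (c i) (c' i)) hQx hbd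
    (fun m hm => by
      obtain ⟨h1, h2, h3, _⟩ := hsupp m hm
      exact ⟨h1, h2, h3⟩)
    (hx4 x k4 (c i) hci (c' i) hci')
    (fun j => alp x z et (c j) (c' j))
    (fun j => (x : ℝ) ^ (((c j : ℝ) + 1 + ((c' j : ℝ) + 1)) * et))
    (fun j => Real.one_le_rpow hxR (mul_nonneg (by positivity) F2_et.le))
    (fun j r hr => alp_supp x z k8 et F2_et (c j) (c' j) r hr)
    (fun j r => by
      have e1 := hx2 x k2 (c j) (TT_coord c hcT j) (c' j) (TT_coord c' hc' j) r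
      have e2 : (0 : ℝ) ≤ 3 ^ r.primeFactors.card := by positivity
      refine e1.trans ?_
      push_cast
      linarith)
    ((mul_le_mul_of_nonneg_right (F2_prod x k8 i c c' hc hc') (by positivity)).trans (hx6 x k6))
  rw [hTI]
  exact key

theorem TI_asymp (h : Fin 4 → ℕ) (hinj : Function.Injective h) (A : ℕ) :
    ∃ B₀ : ℕ, ∀ B : ℕ, B₀ ≤ B → ∃ x₀ : ℕ, ∀ x : ℕ, x₀ ≤ x → ∀ i : Fin 4, ∀ c ∈ TTi i, ∀ c' ∈ TT,
      |TI h x (zB B x) i c c' - VH' h (zB B x) * MM x (zB B x) (h i) (c i) (c' i) *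
        ∏ j ∈ univ.erase i, Sg x (zB B x) (c j) (c' j)| ≤ x / (Real.log x) ^ A := by
  choose B₀ hB using F2_one h hinj A
  refine ⟨univ.sup B₀, fun B hBB => ?_⟩
  have h1 : ∀ i, B₀ i ≤ B := fun i => (Finset.le_sup (mem_univ i)).trans hBB
  choose x₀ hx using fun i => hB i B (h1 i)
  refine ⟨univ.sup x₀, fun x hxx i c hc c' hc' => ?_⟩
  exact hx i x ((Finset.le_sup (mem_univ i)).trans hxx) c hc c' hc'

end Pool.Agent.Lib.MP_092512_nt.P3
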