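import Pool.Agent.Lib.MP_092512_nt.P3.F0
import Pool.Agent.Lib.MP_092512_nt.P3.E7
import Pool.Agent.Lib.MP_092512_nt.P3.Spec2

/-!
# F3: asymptotic formula for `TZ`

PROOF.  `sieve_int` with `k = 4`, `K = 4`, `ε = 1/10`, `α_j = alp x z et (c j) (c' j)`, `R_j = x^((c_j + 1 + c'_j + 1) et)`; `∏ R_j ≤ x^(170 et)`,
`170 et = 1700/2401 ≤ 9/10` (`TT_level`); `alp_supp`, `alp_le` (`jm = 61`), `LC_mul`.
-/

set_option autoImplicit false

open Finset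

namespace Pool.Agent.Lib.MP_092512_nt.P3

open Pool.Agent.Lib.SW

private theorem F3_et : (0 : ℝ) < et := by unfold et; norm_num

private theorem F3_prod (x : ℕ) (hx : 1 ≤ x) (c c' : Fin 4 → ℕ) (hc : c ∈ TT) (hc' : c' ∈ TT) :
    ∏ i, (x : ℝ) ^ (((c i : ℝ) + 1 + ((c' i : ℝ) + 1)) * et) ≤ (x : ℝ) ^ (1 - 1 / 10 : ℝ) := by
  have hx0 : (0 : ℝ) < x := by exact_mod_cast hx
  have hx1 : (1 : ℝ) ≤ x := by exact_mod_cast hx
  rw [← Real.rpow_sum_of_pos hx0]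
  refine Real.rpow_le_rpow_of_exponent_le hx1 ?_
  have h1 := TT_level c hc
  have h2 := TT_level c' hc'
  have h3 : (∑ j, ((c j : ℝ) + 1 + ((c' j : ℝ) + 1))) ≤ 170 := by
    have e : ∑ j, (c j + 1) + ∑ j, (c' j + 1) ≤ 170 := by omega
    have e' : ((∑ j, (c j + 1) + ∑ j, (c' j + 1) : ℕ) : ℝ) ≤ 170 := by exact_mod_cast e
    push_cast at e'
    rw [sum_add_distrib]
    exact e'
  rw [← sum_mul]
  calc (∑ j, ((c j : ℝ) + 1 + ((c' j : ℝ) + 1))) * et ≤ 170 * et :=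
        mul_le_mul_of_nonneg_right h3 F3_et.le
    _ ≤ 1 - 1 / 10 := by unfold et; norm_num

theorem TZ_asymp (h : Fin 4 → ℕ) (hinj : Function.Injective h) (A : ℕ) :
    ∃ B₀ : ℕ, ∀ B : ℕ, B₀ ≤ B → ∃ x₀ : ℕ, ∀ x : ℕ, x₀ ≤ x → ∀ c ∈ TT, ∀ c' ∈ TT,
      |TZ h x (zB B x) c c' - x * VH h (zB B x) * ∏ j, Sg x (zB B x) (c j) (c' j)| ≤
        x / (Real.log x) ^ A := by
  obtain ⟨B1, hB1⟩ := sieve_int 4 h hinj 4 A (1 / 10) (by norm_num)
  refine ⟨max 3 B1, fun B hB => ?_⟩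
  obtain ⟨hB3, hBB⟩ := max_le_iff.1 hB
  obtain ⟨x1, hx1⟩ := hB1 B hBB
  obtain ⟨x2, hx2⟩ := alp_le B 61 hB3 et F3_et (by unfold et; norm_num)
  refine ⟨max x1 (max x2 1), fun x hx c hc c' hc' => ?_⟩
  simp only [max_le_iff] at hx
  obtain ⟨k1, k2, k3⟩ := hx
  have hxR : (1 : ℝ) ≤ x := by exact_mod_cast k3
  set z : ℕ := zB B x with hz
  have hTZ : TZ h x z c c' =
      ∑ n ∈ (Ioc x (2 * x)).filter (fun n => ∀ i, Nat.Coprime (n + h i) (primorial z)),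
        ∏ i, ∑ r ∈ (n + h i).divisors, alp x z et (c i) (c' i) r := by
    unfold TZ Nn PL
    refine sum_congr rfl fun n hn => ?_
    rw [← prod_mul_distrib]
    refine prod_congr rfl fun i _ => ?_
    refine LC_mul x z et (c i) (c' i) (n + h i) ?_
    have := (mem_Ioc.1 (mem_filter.1 hn).1).1
    omega
  have key := hx1 x k1 (fun i => alp x z et (c i) (c' i))
    (fun i => (x : ℝ) ^ (((c i : ℝ) + 1 + ((c' i : ℝ) + 1)) * et))
    (fun i => Real.one_le_rpow hxR (mul_nonneg (by positivity) F3_et.le))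
    (fun i r hr => alp_supp x z k3 et F3_et (c i) (c' i) r hr)
    (fun i r => by
      have := hx2 x k2 (c i) (TT_coord c hc i) (c' i) (TT_coord c' hc' i) r
      exact_mod_cast this)
    (F3_prod x k3 c c' hc hc')
  rw [hTZ]
  exact key

end Pool.Agent.Lib.MP_092512_nt.P3
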