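import Pool.Agent.Lib.MP_092512_nt.P3.F0
import Pool.Agent.Lib.MP_092512_nt.P3.E7

/-!
# F4: the main terms

PROOFS.  `main_i`: by `TTi_sum i` for `c = ins i u b`; for `c' ∈ TT` the product `∏_{j ≠ i} Sg (c_j) (c'_j)` vanishes unless `c'_j = c_j` for all
`j ≠ i` (hypothesis `horth`), i.e. `c' = ins i w b` with `w < lenb b` (`ins_mem`), and then `c' ∈ TTi i`, so the factor `2 - 1` is `1`.
`∏_{j ∈ univ.erase i} Sg (c_j)(c_j) = ∏_{j : Fin 3} Sg (b_j)(b_j)` (`Fin.prod_univ_succAbove` or a bijection `i.succAbove`).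
`fc (ins i u b) = vS (∑ b) u` (`∑ (ins i u b) = u + ∑ b`).  Finally `∑_{u, w < len} v_u v_w MM u w = ∑_m ew (∑_u v_u LC_u)² = Yb`
(`FF` is zero outside `Ioc (x + h0) (2x + h0)`, which is contained in `Icc 1 (3x)` when `h0 ≤ x`).
`main_0`: all factors force `c' = c`.
-/

set_option autoImplicit false

open Finset

namespace Pool.Agent.Lib.MP_092512_nt.P3

open Pool.Agent.Lib.SW

private theorem F4_ins_same (i : Fin 4) (u : ℕ) (b : Fin 3 → ℕ) : ins i u b i = u := by
  unfold ins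
  exact Fin.insertNth_apply_same _ _ _

private theorem F4_ins_succ (i : Fin 4) (u : ℕ) (b : Fin 3 → ℕ) (j : Fin 3) :
    ins i u b (i.succAbove j) = b j := by
  unfold ins
  exact Fin.insertNth_apply_succAbove _ _ _ _

private theorem F4_ins_sum (i : Fin 4) (u : ℕ) (b : Fin 3 → ℕ) : ∑ j, ins i u b j = u + ∑ j, b j := by
  rw [Fin.sum_univ_succAbove _ i, F4_ins_same]
  congr 1
  exact sum_congr rfl fun j _ => F4_ins_succ i u b j

private theorem F4_prod_erase (i : Fin 4) (f : Fin 4 → ℝ) :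
    ∏ j ∈ univ.erase i, f j = ∏ j : Fin 3, f (i.succAbove j) := by
  have h1 : univ.erase i = univ.image i.succAbove := by
    ext j
    rw [mem_erase, mem_image]
    constructor
    · rintro ⟨h1, _⟩
      obtain ⟨z, hz⟩ := Fin.exists_succAbove_eq h1
      exact ⟨z, mem_univ _, hz⟩
    · rintro ⟨z, _, rfl⟩
      exact ⟨Fin.succAbove_ne i z, mem_univ _⟩
  rw [h1, prod_image fun a _ b _ hab => Fin.succAbove_right_injective hab]

private theorem F4_MM (x z h0 : ℕ) (hh : h0 ≤ x) (u w : ℕ) :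
    MM x z h0 u w = ∑ m ∈ Ioc (x + h0) (2 * x + h0), ew x de th m * (LC x z et u m * LC x z et w m) := by
  unfold MM FF
  rw [← sum_filter]
  refine sum_congr ?_ fun _ _ => rfl
  ext m
  rw [mem_filter, mem_Icc, mem_Ioc]
  constructor
  · rintro ⟨_, h2⟩; exact h2
  · intro h2
    refine ⟨?_, h2⟩
    omega

private theorem F4_Yb (x z h0 : ℕ) (hh : h0 ≤ x) (b : Fin 3 → ℕ) :
    ∑ u ∈ range (lenb b), ∑ w ∈ range (lenb b), vS (∑ j, b j) u * vS (∑ j, b j) w * MM x z h0 u w =
      Yb x z h0 b := by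
  unfold Yb LV
  have h1 : ∀ u w, vS (∑ j, b j) u * vS (∑ j, b j) w * MM x z h0 u w =
      ∑ m ∈ Ioc (x + h0) (2 * x + h0), ew x de th m *
        ((vS (∑ j, b j) u * LC x z et u m) * (vS (∑ j, b j) w * LC x z et w m)) := by
    intro u w
    rw [F4_MM x z h0 hh, mul_sum]
    refine sum_congr rfl fun m _ => ?_
    ring
  have h2 : ∀ u, ∑ w ∈ range (lenb b), vS (∑ j, b j) u * vS (∑ j, b j) w * MM x z h0 u w =
      ∑ m ∈ Ioc (x + h0) (2 * x + h0), ∑ w ∈ range (lenb b), ew x de th m *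
        ((vS (∑ j, b j) u * LC x z et u m) * (vS (∑ j, b j) w * LC x z et w m)) := by
    intro u
    rw [sum_congr rfl fun w _ => h1 u w, sum_comm]
  rw [sum_congr rfl fun u _ => h2 u, sum_comm]
  refine sum_congr rfl fun m _ => ?_
  rw [sq, sum_mul_sum, mul_sum]
  refine sum_congr rfl fun u _ => ?_
  rw [mul_sum]

theorem main_i (x z h0 : ℕ) (hh : h0 ≤ x) (i : Fin 4)
    (horth : ∀ j ≤ 61, ∀ j' ≤ 61, j ≠ j' → Sg x z j j' = 0) (V : ℝ) :
    ∑ c ∈ TTi i, ∑ c' ∈ TT, fc c * fc c' * (2 - if c' ∈ TTi i then 1 else 0) *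
        (V * MM x z h0 (c i) (c' i) * ∏ j ∈ univ.erase i, Sg x z (c j) (c' j)) =
      V * ∑ b ∈ BB, (∏ j, Sg x z (b j) (b j)) * Yb x z h0 b := by
  rw [TTi_sum i]
  rw [mul_sum]
  refine sum_congr rfl fun b hb => ?_
  have hinj : Function.Injective (fun w : ℕ => ins i w b) := by
    intro w w' h
    have h1 := congrFun h i
    simp only [F4_ins_same] at h1
    exact h1
  have hmemi : ∀ w ∈ range (lenb b), ins i w b ∈ TTi i := by
    intro w hw
    rw [mem_range] at hw
    rw [mem_TTi]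
    refine ⟨(ins_mem i b hb w).mpr hw, ?_⟩
    rw [F4_ins_sum, F4_ins_same]
    have h1 := (mem_BB.mp hb).2
    omega
  have hmem : ∀ w ∈ range (lenb b), ins i w b ∈ TT := fun w hw => (mem_TTi.mp (hmemi w hw)).1
  have hfc : ∀ u, fc (ins i u b) = vS (∑ j, b j) u := by
    intro u
    unfold fc vS
    rw [F4_ins_sum, add_comm]
  have hinner : ∀ u ∈ range (lenb b),
      ∑ c' ∈ TT, fc (ins i u b) * fc c' * (2 - if c' ∈ TTi i then 1 else 0) *
        (V * MM x z h0 (ins i u b i) (c' i) * ∏ j ∈ univ.erase i, Sg x z (ins i u b j) (c' j)) =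
      ∑ w ∈ range (lenb b), (V * ∏ j, Sg x z (b j) (b j)) *
        (vS (∑ j, b j) u * vS (∑ j, b j) w * MM x z h0 u w) := by
    intro u hu
    have h1 : ∑ w ∈ range (lenb b), (V * ∏ j, Sg x z (b j) (b j)) *
        (vS (∑ j, b j) u * vS (∑ j, b j) w * MM x z h0 u w) =
        ∑ c' ∈ (range (lenb b)).image (fun w => ins i w b),
        fc (ins i u b) * fc c' * (2 - if c' ∈ TTi i then 1 else 0) *
        (V * MM x z h0 (ins i u b i) (c' i) * ∏ j ∈ univ.erase i, Sg x z (ins i u b j) (c' j)) := by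
      rw [sum_image fun a _ b _ hab => hinj hab]
      refine sum_congr rfl fun w hw => ?_
      rw [if_pos (hmemi w hw), F4_prod_erase]
      simp only [F4_ins_same, F4_ins_succ, hfc]
      ring
    rw [h1]
    symm
    apply sum_subset
    · intro c' hc'
      rw [mem_image] at hc'
      obtain ⟨w, hw, rfl⟩ := hc'
      exact hmem w hw
    · intro c' hc' hnot
      have h2 : ∃ j ∈ univ.erase i, ins i u b j ≠ c' j := by
        by_contra hcon
        push Not at hcon
        apply hnot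
        rw [mem_image]
        have h3 : ins i (c' i) b = c' := by
          funext j
          rcases eq_or_ne j i with h4 | h4
          · subst h4
            exact F4_ins_same _ _ _
          · have h5 := hcon j (mem_erase.mpr ⟨h4, mem_univ _⟩)
            rw [← h5]
            obtain ⟨z', hz'⟩ := Fin.exists_succAbove_eq h4
            rw [← hz', F4_ins_succ, F4_ins_succ]
        refine ⟨c' i, ?_, h3⟩
        rw [mem_range]
        rw [← h3] at hc'
        exact (ins_mem i b hb _).mp hc'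
      obtain ⟨j, hj, hne⟩ := h2
      have h3 : Sg x z (ins i u b j) (c' j) = 0 :=
        horth _ (TT_coord _ (hmem u hu) j) _ (TT_coord _ hc' j) hne
      rw [prod_eq_zero hj h3]
      ring
  rw [sum_congr rfl hinner, ← F4_Yb x z h0 hh b]
  rw [← mul_assoc, mul_sum]
  refine sum_congr rfl fun u _ => ?_
  rw [mul_sum]

theorem main_0 (x z : ℕ) (horth : ∀ j ≤ 61, ∀ j' ≤ 61, j ≠ j' → Sg x z j j' = 0) (V : ℝ) :
    ∑ c ∈ TT, ∑ c' ∈ TT, fc c * fc c' * (V * ∏ j, Sg x z (c j) (c' j)) =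
      V * ∑ c ∈ TT, fc c ^ 2 * ∏ j, Sg x z (c j) (c j) := by
  rw [mul_sum]
  refine sum_congr rfl fun c hc => ?_
  rw [sum_eq_single c]
  · ring
  · intro c' hc' hne
    have h2 : ∃ j, c j ≠ c' j := by
      by_contra hcon
      push Not at hcon
      exact hne (funext fun j => (hcon j).symm)
    obtain ⟨j, hj⟩ := h2
    rw [prod_eq_zero (mem_univ j) (horth _ (TT_coord _ hc j) _ (TT_coord _ hc' j) hj)]
    ring
  · intro h
    exact absurd hc h

end Pool.Agent.Lib.MP_092512_nt.P3
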