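import Pool.Agent.Lib.MP_092512_nt.P3.F0
import Pool.Agent.Lib.MP_092512_nt.P3.Spec2

/-!
# F5: limits of `Sg` and the lower bound for `Yb`

PROOFS.  `Sg_ne`: `alp_sum_ne`, `Sg_eq`: `alp_sum_eq` (`jm = 61`), with `x^s < ⌊x^s⌋ + 1`.
`Yb_ge`: `lower_box` with `η = et`, `δ = de`, `θ = th`, `len = lenb b ≤ 62`, `v = vS (∑ b)` and the families of `Dl`:
`us = Icc 1 119` (`a0 i = i et`, `a1 i = (i+1) et`: `2 · 120 et = th`), boxes: `ι₂ = ℕ ⊕ (ℕ × ℕ)`, `bs = (Icc 1 78).disjSum offd`: strips
`[i et, (i+1) et] × [slo i et, shi i et]` (`(i+1) + 2 shi i = 240`) and boxes `[brk a, brk (a+1)] × [brk b, brk (b+1)]`, `a < b < 6` (`w ≤ 64 et ≤ slo i et`),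
`ds = range 6`.  `de < et`.  Disjointness: strips and boxes are separated by `w = 64 et`, boxes by the monotonicity of `brk`.
Finitely many `b ∈ BB`: take the maximum of the `x₀` (`Finset.induction` or `Filter.eventually_all_finset`).
-/

set_option autoImplicit false

open Finset

namespace Pool.Agent.Lib.MP_092512_nt.P3

open Pool.Agent.Lib.SW

private theorem F5_et_pos : (0 : ℝ) < et := by
  unfold et
  norm_num

theorem Sg_ne (x z : ℕ) (hx : 1 ≤ x) (j j' : ℕ) (hj : j ≠ j') : Sg x z j j' = 0 := by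
  unfold Sg
  exact alp_sum_ne x z hx et F5_et_pos j j' _ hj (Nat.lt_floor_add_one _)

theorem Sg_eq (B : ℕ) (hB : 3 ≤ B) (ε : ℝ) (hε : 0 < ε) : ∃ x₀ : ℕ, ∀ x : ℕ, x₀ ≤ x → ∀ j ≤ 61,
    |Vz (zB B x) * Real.log x * Sg x (zB B x) j j - et| ≤ ε := by
  obtain ⟨x₀, h⟩ := alp_sum_eq B 61 hB et F5_et_pos (by unfold et; norm_num) ε hε
  refine ⟨x₀, fun x hx j hj => ?_⟩
  unfold Sg
  exact h x hx j hj _ (Nat.lt_floor_add_one _)

private theorem F5_brk_mono : ∀ a ∈ range 6, ∀ b ∈ range 7, a < b → brk (a + 1) ≤ brk b := by decide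

private theorem F5_brk_lt : ∀ a ∈ range 6, brk a < brk (a + 1) ∧ 1 ≤ brk a ∧ brk (a + 1) ≤ 64 := by decide

private theorem F5_et_le {a b : ℝ} (h : a ≤ b) : a * et ≤ b * et :=
  mul_le_mul_of_nonneg_right h F5_et_pos.le

private theorem F5_et_lt {a b : ℝ} (h : a < b) : a * et < b * et :=
  mul_lt_mul_of_pos_right h F5_et_pos

private theorem F5_de {a : ℝ} (h : 1 ≤ a) : de < a * et := by
  have h1 : de < 1 * et := by
    unfold de et
    norm_num
  exact lt_of_lt_of_le h1 (F5_et_le h)

private theorem F5_th {a : ℝ} (h : a ≤ 240) : a * et ≤ th := by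
  have h1 : 240 * et = th := by
    unfold th et
    norm_num
  rw [← h1]
  exact F5_et_le h

private theorem F5_sep {a b : ℕ} (ha : a ∈ range 6) (hb : b ∈ range 6) (h : a ≠ b) :
    ((brk (a + 1) : ℝ) * et ≤ (brk b : ℝ) * et) ∨ ((brk (b + 1) : ℝ) * et ≤ (brk a : ℝ) * et) := by
  rcases lt_or_gt_of_ne h with h1 | h1
  · left
    apply F5_et_le
    exact_mod_cast F5_brk_mono a ha b (mem_range.mpr (by rw [mem_range] at hb; omega)) h1
  · right
    apply F5_et_le
    exact_mod_cast F5_brk_mono b hb a (mem_range.mpr (by rw [mem_range] at ha; omega)) h1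

private theorem F5_slo (i : ℕ) : 64 ≤ slo i ∧ (i : ℝ) + 1 ≤ slo i := by
  unfold slo
  exact ⟨le_max_left _ _, le_max_right _ _⟩

private theorem F5_one (B h0 : ℕ) (hB : 3 ≤ B) (ε : ℝ) (hε : 0 < ε) (b : Fin 3 → ℕ) :
    ∃ x₀ : ℕ, ∀ x : ℕ, x₀ ≤ x →
    x / Real.log x * (Dl (∑ j, b j) (lenb b) - ε) ≤ Yb x (zB B x) h0 b := by
  have hlen : (lenb b : ℝ) * et ≤ 1 / 3 := by
    have h1 : lenb b ≤ 62 := Nat.sub_le _ _
    have h2 : (lenb b : ℝ) ≤ 62 := by exact_mod_cast h1
    refine (F5_et_le h2).trans ?_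
    unfold et
    norm_num
  have hde : (0 : ℝ) < de := by
    unfold de
    norm_num
  have hth : th < 1 := by
    unfold th
    norm_num
  have hmem : ∀ q ∈ offd, q.1 ∈ range 6 ∧ q.2 ∈ range 6 ∧ q.1 < q.2 := by
    intro q hq
    unfold offd at hq
    rw [mem_filter, mem_product] at hq
    exact ⟨hq.1.1, hq.1.2, hq.2⟩
  obtain ⟨x₀, h⟩ := lower_box B h0 (lenb b) hB et de th (vS (∑ j, b j)) F5_et_pos hlen hde hth
    (Icc (1 : ℕ) 119) ((Icc (1 : ℕ) 78).disjSum offd) (range 6)
    (fun i => (i : ℝ) * et) (fun i => ((i : ℝ) + 1) * et)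
    (Sum.elim (fun i : ℕ => (i : ℝ) * et) (fun q : ℕ × ℕ => (brk q.1 : ℝ) * et))
    (Sum.elim (fun i : ℕ => ((i : ℝ) + 1) * et) (fun q : ℕ × ℕ => (brk (q.1 + 1) : ℝ) * et))
    (Sum.elim (fun i : ℕ => slo i * et) (fun q : ℕ × ℕ => (brk q.2 : ℝ) * et))
    (Sum.elim (fun i : ℕ => shi i * et) (fun q : ℕ × ℕ => (brk (q.2 + 1) : ℝ) * et))
    (fun a => (brk a : ℝ) * et) (fun a => (brk (a + 1) : ℝ) * et)
    (by
      intro i hi
      rw [mem_Icc] at hi
      have h1 : (1 : ℝ) ≤ (i : ℝ) := by exact_mod_cast hi.1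
      have h2 : (i : ℝ) ≤ 119 := by exact_mod_cast hi.2
      refine ⟨F5_de h1, F5_et_lt (by linarith), ?_⟩
      rw [← mul_assoc]
      exact F5_th (by linarith))
    (by
      intro i _ j _ hij
      rcases lt_or_gt_of_ne hij with h1 | h1
      · left
        apply F5_et_le
        exact_mod_cast h1
      · right
        apply F5_et_le
        exact_mod_cast h1)
    (by
      intro i hi
      rw [mem_disjSum] at hi
      rcases hi with ⟨i', hi', rfl⟩ | ⟨q, hq, rfl⟩
      · rw [mem_Icc] at hi'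
        simp only [Sum.elim_inl]
        have h1 : (1 : ℝ) ≤ (i' : ℝ) := by exact_mod_cast hi'.1
        have h2 : (i' : ℝ) ≤ 78 := by exact_mod_cast hi'.2
        refine ⟨F5_de h1, F5_et_lt (by linarith), F5_et_le (F5_slo i').2, ?_, ?_⟩
        · apply F5_et_lt
          unfold slo shi
          rw [max_lt_iff]
          constructor <;> linarith
        · have h3 : ((i' : ℝ) + 1) * et + 2 * (shi i' * et) = 240 * et := by
            unfold shi
            ring
          rw [h3]
          exact F5_th le_rfl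
      · obtain ⟨ha, hb, hab⟩ := hmem q hq
        simp only [Sum.elim_inr]
        obtain ⟨g1, g2, g3⟩ := F5_brk_lt q.1 ha
        obtain ⟨k1, k2, k3⟩ := F5_brk_lt q.2 hb
        have g4 := F5_brk_mono q.1 ha q.2 (mem_range.mpr (by rw [mem_range] at hb; omega)) hab
        refine ⟨F5_de (by exact_mod_cast g2), F5_et_lt (by exact_mod_cast g1),
          F5_et_le (by exact_mod_cast g4), F5_et_lt (by exact_mod_cast k1), ?_⟩
        have h3 : (brk (q.1 + 1) : ℝ) * et + 2 * ((brk (q.2 + 1) : ℝ) * et) =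
            ((brk (q.1 + 1) : ℝ) + 2 * (brk (q.2 + 1) : ℝ)) * et := by ring
        rw [h3]
        apply F5_th
        have h4 : (brk (q.1 + 1) : ℝ) ≤ 64 := by exact_mod_cast g3
        have h5 : (brk (q.2 + 1) : ℝ) ≤ 64 := by exact_mod_cast k3
        linarith)
    (by
      intro i hi j hj hij
      rw [mem_disjSum] at hi hj
      rcases hi with ⟨i', hi', rfl⟩ | ⟨q, hq, rfl⟩
      · rcases hj with ⟨j', hj', rfl⟩ | ⟨q', hq', rfl⟩
        · simp only [Sum.elim_inl]
          have hne : i' ≠ j' := fun h => hij (by rw [h])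
          rcases lt_or_gt_of_ne hne with h1 | h1
          · left
            apply F5_et_le
            exact_mod_cast h1
          · right; left
            apply F5_et_le
            exact_mod_cast h1
        · simp only [Sum.elim_inl, Sum.elim_inr]
          right; right; right
          apply F5_et_le
          obtain ⟨ha, hb, hab⟩ := hmem q' hq'
          have h5 : (brk (q'.2 + 1) : ℝ) ≤ 64 := by exact_mod_cast (F5_brk_lt q'.2 hb).2.2
          exact h5.trans (F5_slo i').1
      · rcases hj with ⟨j', hj', rfl⟩ | ⟨q', hq', rfl⟩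
        · simp only [Sum.elim_inl, Sum.elim_inr]
          right; right; left
          apply F5_et_le
          obtain ⟨ha, hb, hab⟩ := hmem q hq
          have h5 : (brk (q.2 + 1) : ℝ) ≤ 64 := by exact_mod_cast (F5_brk_lt q.2 hb).2.2
          exact h5.trans (F5_slo j').1
        · simp only [Sum.elim_inr]
          obtain ⟨ha, hb, hab⟩ := hmem q hq
          obtain ⟨ha', hb', hab'⟩ := hmem q' hq'
          by_cases h1 : q.1 = q'.1
          · have h2 : q.2 ≠ q'.2 := fun h3 => hij (by rw [Prod.ext h1 h3])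
            rcases F5_sep hb hb' h2 with h3 | h3
            · right; right; left; exact h3
            · right; right; right; exact h3
          · rcases F5_sep ha ha' h1 with h3 | h3
            · left; exact h3
            · right; left; exact h3)
    (by
      intro a ha
      obtain ⟨g1, g2, g3⟩ := F5_brk_lt a ha
      refine ⟨F5_de (by exact_mod_cast g2), F5_et_lt (by exact_mod_cast g1), ?_⟩
      rw [← mul_assoc]
      apply F5_th
      have h4 : (brk (a + 1) : ℝ) ≤ 64 := by exact_mod_cast g3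
      linarith)
    (by
      intro a ha a' ha' hne
      exact F5_sep ha ha' hne)
    (by
      intro i hi a ha
      rw [mem_disjSum] at hi
      rcases hi with ⟨i', hi', rfl⟩ | ⟨q, hq, rfl⟩
      · simp only [Sum.elim_inl]
        right; right; right
        apply F5_et_le
        have h5 : (brk (a + 1) : ℝ) ≤ 64 := by exact_mod_cast (F5_brk_lt a ha).2.2
        exact h5.trans (F5_slo i').1
      · simp only [Sum.elim_inr]
        obtain ⟨ha1, hb1, hab⟩ := hmem q hq
        by_cases h1 : q.1 = a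
        · have h2 : q.2 ≠ a := by omega
          rcases F5_sep hb1 ha h2 with h3 | h3
          · right; right; left; exact h3
          · right; right; right; exact h3
        · rcases F5_sep ha1 ha h1 with h3 | h3
          · left; exact h3
          · right; left; exact h3)
    ε hε
  refine ⟨x₀, fun x hx => ?_⟩
  have h1 := h x hx
  unfold Yb Dl
  rw [sum_disjSum] at h1
  simp only [Sum.elim_inl, Sum.elim_inr] at h1
  rw [← add_assoc] at h1
  exact h1

theorem Yb_ge (B h0 : ℕ) (hB : 3 ≤ B) (ε : ℝ) (hε : 0 < ε) : ∃ x₀ : ℕ, ∀ x : ℕ, x₀ ≤ x →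
    ∀ b ∈ BB, x / Real.log x * (Dl (∑ j, b j) (lenb b) - ε) ≤ Yb x (zB B x) h0 b := by
  have h : ∀ b ∈ BB, ∀ᶠ x : ℕ in Filter.atTop,
      x / Real.log x * (Dl (∑ j, b j) (lenb b) - ε) ≤ Yb x (zB B x) h0 b := by
    intro b _
    rw [Filter.eventually_atTop]
    exact F5_one B h0 hB ε hε b
  exact Filter.eventually_atTop.mp ((Filter.eventually_all_finset BB).mpr h)

end Pool.Agent.Lib.MP_092512_nt.P3
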