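import Pool.Agent.Lib.MP_092512_nt.P3.F1
import Pool.Agent.Lib.MP_092512_nt.P3.F2
import Pool.Agent.Lib.MP_092512_nt.P3.F3
import Pool.Agent.Lib.MP_092512_nt.P3.F4
import Pool.Agent.Lib.MP_092512_nt.P3.F5
import Pool.Agent.Lib.MP_092512_nt.P3.E9

/-!
# F6: the lower bound for `SS`

PROOF.  `κ := 4 et³ ∑_{BB} Dl - 3 et⁴ ∑_{TT} fc² > 0` (`cert` times `et³`).  Choose `ε > 0`, `ε < et`, with
`4 (et - ε)³ ∑_{BB} (Dl - ε) - 3 (et + ε)⁴ ∑_{TT} fc² ≥ κ/2` (continuity at `ε = 0`).  `A = 5`, `B` = maximum of `3` and the `B₀` of `TI_asymp`, `TZ_asymp`.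
For large `x`, `z = zB B x`, `V = Vz z > 0`, `L = log x`, `g_j = V L Sg j j ∈ [et - ε, et + ε]`:
`∑_{BB} ∏ Sg (b_j)(b_j) Yb ≥ (V L)^(-3) (et - ε)³ (x/L) ∑_{BB} (Dl - ε)`: termwise, if `Dl - ε ≤ 0` because `Yb ≥ 0` and the product is `≥ 0`, otherwise by
`Yb_ge` and `∏ g ≥ (et - ε)³`.  Likewise `∑_{TT} fc² ∏ Sg ≤ (V L)^(-4) (et + ε)⁴ ∑ fc²`.
`SS_ge`, `exp_i`, `exp_0`, `TI_asymp`, `TZ_asymp`, `main_i` (with `V = VH' h z`), `main_0` (with `V = x VH h z`; note `fc c fc c' ((x VH) ∏ Sg)`) give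
`SS ≥ 4 · VH' (V L)^(-3) (x/L) (et - ε)³ ∑ (Dl - ε) - 3 x VH (V L)^(-4) (et + ε)⁴ ∑ fc² - C x/L⁵`,
`VH = V VH'` (`VH_eq`), so the first two terms are `x VH (V L)^(-4) · (≥ κ/2)` and `VH ≥ c₀ V⁴` (`VH_lower`).
`C = ∑_i ∑_{TTi} ∑_{TT} 2 |fc fc'| + 3 ∑_{TT} ∑_{TT} |fc fc'|` and `C x/L⁵ ≤ (c₀ κ/4) x/L⁴` for large `x`.
Nonnegativity of `ew`: `ew_bound` (`n + h_i ∈ (x, 3x]`).
-/

set_option autoImplicit false

open Finset

namespace Pool.Agent.Lib.MP_092512_nt.P3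

open Pool.Agent.Lib.SW

private theorem F6_et : (0 : ℝ) < et := by unfold et; norm_num

private theorem F6_eps (D T : ℝ) (n : ℝ) (hκ : 0 < 4 * et ^ 3 * D - 3 * et ^ 4 * T) :
    ∃ ε : ℝ, 0 < ε ∧ ε < et ∧ (4 * et ^ 3 * D - 3 * et ^ 4 * T) / 2 ≤
      4 * (et - ε) ^ 3 * (D - n * ε) - 3 * (et + ε) ^ 4 * T := by
  have hc : ContinuousAt (fun ε : ℝ => 4 * (et - ε) ^ 3 * (D - n * ε) - 3 * (et + ε) ^ 4 * T) 0 := by
    fun_prop
  have h0 : (4 * et ^ 3 * D - 3 * et ^ 4 * T) / 2 <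
      (fun ε : ℝ => 4 * (et - ε) ^ 3 * (D - n * ε) - 3 * (et + ε) ^ 4 * T) 0 := by
    simp only [sub_zero, mul_zero, add_zero]
    linarith
  have h1 := hc.eventually (lt_mem_nhds h0)
  have h2 : ∀ᶠ ε : ℝ in nhds 0, ε < et := gt_mem_nhds F6_et
  have h3 : ∀ᶠ ε : ℝ in nhdsWithin 0 (Set.Ioi 0), ε ∈ Set.Ioi (0 : ℝ) := self_mem_nhdsWithin
  obtain ⟨ε, ⟨ha, hb⟩, hc⟩ := (((h1.and h2).filter_mono nhdsWithin_le_nhds).and h3).exists
  exact ⟨ε, hc, hb, ha.le⟩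

private theorem F6_bj {b : Fin 3 → ℕ} (hb : b ∈ BB) (j : Fin 3) : b j ≤ 61 := by
  have h1 := (mem_BB.1 hb).2
  have h2 : b j ≤ ∑ j, b j := single_le_sum (f := b) (fun _ _ => Nat.zero_le _) (mem_univ j)
  omega

private theorem F6_main (x z : ℕ) (h : Fin 4 → ℕ) (L V ε κ c₀ : ℝ) (hL : 0 < L) (hV : 0 < V)
    (hεe : ε < et) (hVH : VH h z = V * VH' h z) (hc : c₀ * V ^ 4 ≤ VH h z) (hc0 : 0 < c₀)
    (hg : ∀ j ≤ 61, |V * L * Sg x z j j - et| ≤ ε)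
    (hY : ∀ i, ∀ b ∈ BB, x / L * (Dl (∑ j, b j) (lenb b) - ε) ≤ Yb x z (h i) b)
    (hY0 : ∀ i, ∀ b ∈ BB, 0 ≤ Yb x z (h i) b)
    (hκ : κ ≤ 4 * (et - ε) ^ 3 * ∑ b ∈ BB, (Dl (∑ j, b j) (lenb b) - ε) -
      3 * (et + ε) ^ 4 * ∑ c ∈ TT, fc c ^ 2) (hκ0 : 0 < κ) :
    c₀ * κ * (x / L ^ 4) ≤
      ∑ i : Fin 4, VH' h z * ∑ b ∈ BB, (∏ j, Sg x z (b j) (b j)) * Yb x z (h i) b -
        3 * (x * VH h z * ∑ c ∈ TT, fc c ^ 2 * ∏ j, Sg x z (c j) (c j)) := by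
  have hVL : 0 < V * L := mul_pos hV hL
  have hx : (0 : ℝ) ≤ x := Nat.cast_nonneg _
  have hVH0 : 0 < VH h z := lt_of_lt_of_le (by positivity) hc
  have hV'0 : 0 < VH' h z := by
    rw [hVH] at hVH0
    exact pos_of_mul_pos_right hVH0 hV.le
  have glo : ∀ j ≤ 61, et - ε ≤ V * L * Sg x z j j := fun j hj => by
    have := (abs_le.1 (hg j hj)).1; linarith
  have ghi : ∀ j ≤ 61, V * L * Sg x z j j ≤ et + ε := fun j hj => by
    have := (abs_le.1 (hg j hj)).2; linarith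
  have he0 : 0 < et - ε := by linarith
  have gpos : ∀ j ≤ 61, 0 ≤ V * L * Sg x z j j := fun j hj => he0.le.trans (glo j hj)
  -- the lines
  have key1 : ∀ i : Fin 4, ∀ b ∈ BB, (et - ε) ^ 3 * (x / L * (Dl (∑ j, b j) (lenb b) - ε)) ≤
      (V * L) ^ 3 * ((∏ j, Sg x z (b j) (b j)) * Yb x z (h i) b) := by
    intro i b hb
    have hp : (V * L) ^ 3 * ∏ j, Sg x z (b j) (b j) = ∏ j : Fin 3, (V * L * Sg x z (b j) (b j)) := by
      rw [prod_mul_distrib, prod_const, card_univ, Fintype.card_fin]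
    have hp3 : (et - ε) ^ 3 ≤ ∏ j : Fin 3, (V * L * Sg x z (b j) (b j)) := by
      calc (et - ε) ^ 3 = ∏ _j : Fin 3, (et - ε) := by rw [prod_const, card_univ, Fintype.card_fin]
        _ ≤ _ := prod_le_prod (fun _ _ => he0.le) (fun j _ => glo _ (F6_bj hb j))
    rw [← mul_assoc ((V * L) ^ 3), hp]
    calc (et - ε) ^ 3 * (x / L * (Dl (∑ j, b j) (lenb b) - ε))
        ≤ (et - ε) ^ 3 * Yb x z (h i) b := mul_le_mul_of_nonneg_left (hY i b hb) (by positivity)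
      _ ≤ _ := mul_le_mul_of_nonneg_right hp3 (hY0 i b hb)
  have key2 : ∀ c ∈ TT, (V * L) ^ 4 * (fc c ^ 2 * ∏ j, Sg x z (c j) (c j)) ≤
      (et + ε) ^ 4 * fc c ^ 2 := by
    intro c hcT
    have hp : (V * L) ^ 4 * ∏ j, Sg x z (c j) (c j) = ∏ j : Fin 4, (V * L * Sg x z (c j) (c j)) := by
      rw [prod_mul_distrib, prod_const, card_univ, Fintype.card_fin]
    have hp4 : ∏ j : Fin 4, (V * L * Sg x z (c j) (c j)) ≤ (et + ε) ^ 4 := by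
      calc ∏ j : Fin 4, (V * L * Sg x z (c j) (c j)) ≤ ∏ _j : Fin 4, (et + ε) :=
            prod_le_prod (fun j _ => gpos _ (TT_coord c hcT j)) (fun j _ => ghi _ (TT_coord c hcT j))
        _ = _ := by rw [prod_const, card_univ, Fintype.card_fin]
    calc (V * L) ^ 4 * (fc c ^ 2 * ∏ j, Sg x z (c j) (c j))
        = fc c ^ 2 * ((V * L) ^ 4 * ∏ j, Sg x z (c j) (c j)) := by ring
      _ ≤ fc c ^ 2 * (et + ε) ^ 4 := by
          rw [hp]; exact mul_le_mul_of_nonneg_left hp4 (sq_nonneg _)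
      _ = _ := by ring
  have sum1 : ∀ i : Fin 4, (et - ε) ^ 3 * (x / L * ∑ b ∈ BB, (Dl (∑ j, b j) (lenb b) - ε)) ≤
      (V * L) ^ 3 * ∑ b ∈ BB, (∏ j, Sg x z (b j) (b j)) * Yb x z (h i) b := by
    intro i
    rw [mul_sum, mul_sum, mul_sum]
    exact sum_le_sum (key1 i)
  have sum2 : (V * L) ^ 4 * ∑ c ∈ TT, fc c ^ 2 * ∏ j, Sg x z (c j) (c j) ≤
      (et + ε) ^ 4 * ∑ c ∈ TT, fc c ^ 2 := by
    rw [mul_sum, mul_sum]
    exact sum_le_sum key2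
  set SD : ℝ := ∑ b ∈ BB, (Dl (∑ j, b j) (lenb b) - ε) with hSD
  set SF : ℝ := ∑ c ∈ TT, fc c ^ 2 with hSF
  set G : ℝ := ∑ c ∈ TT, fc c ^ 2 * ∏ j, Sg x z (c j) (c j) with hG
  have sum1' : ∀ i : Fin 4, x * VH h z / (V * L) ^ 4 * ((et - ε) ^ 3 * SD) ≤
      VH' h z * ∑ b ∈ BB, (∏ j, Sg x z (b j) (b j)) * Yb x z (h i) b := by
    intro i
    have h1 := mul_le_mul_of_nonneg_left (sum1 i) (a := VH' h z / (V * L) ^ 3) (by positivity)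
    have e1 : VH' h z / (V * L) ^ 3 * ((V * L) ^ 3 * ∑ b ∈ BB, (∏ j, Sg x z (b j) (b j)) * Yb x z (h i) b) =
        VH' h z * ∑ b ∈ BB, (∏ j, Sg x z (b j) (b j)) * Yb x z (h i) b := by
      field_simp
    have e2 : VH' h z / (V * L) ^ 3 * ((et - ε) ^ 3 * (x / L * SD)) =
        x * VH h z / (V * L) ^ 4 * ((et - ε) ^ 3 * SD) := by
      rw [hVH]; field_simp
    rw [e1, e2] at h1
    exact h1
  have sum2' : x * VH h z * G ≤ x * VH h z / (V * L) ^ 4 * ((et + ε) ^ 4 * SF) := by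
    have h1 := mul_le_mul_of_nonneg_left sum2 (a := x * VH h z / (V * L) ^ 4) (by positivity)
    have e1 : x * VH h z / (V * L) ^ 4 * ((V * L) ^ 4 * G) = x * VH h z * G := by
      field_simp
    rw [e1] at h1
    exact h1
  have hsum : ∑ _i : Fin 4, x * VH h z / (V * L) ^ 4 * ((et - ε) ^ 3 * SD) ≤
      ∑ i : Fin 4, VH' h z * ∑ b ∈ BB, (∏ j, Sg x z (b j) (b j)) * Yb x z (h i) b :=
    sum_le_sum (fun i _ => sum1' i)
  rw [sum_const, card_univ, Fintype.card_fin, nsmul_eq_mul] at hsum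
  have hbase : c₀ * (x / L ^ 4) ≤ x * VH h z / (V * L) ^ 4 := by
    have e : c₀ * (x / L ^ 4) = x * (c₀ * V ^ 4) / (V * L) ^ 4 := by field_simp
    rw [e]
    gcongr
  have hfin : c₀ * (x / L ^ 4) * κ ≤ x * VH h z / (V * L) ^ 4 *
      (4 * (et - ε) ^ 3 * SD - 3 * (et + ε) ^ 4 * SF) :=
    mul_le_mul hbase hκ hκ0.le (by positivity)
  have e3 : x * VH h z / (V * L) ^ 4 * (4 * (et - ε) ^ 3 * SD - 3 * (et + ε) ^ 4 * SF) =
      ((4 : ℕ) : ℝ) * (x * VH h z / (V * L) ^ 4 * ((et - ε) ^ 3 * SD)) -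
        3 * (x * VH h z / (V * L) ^ 4 * ((et + ε) ^ 4 * SF)) := by
    push_cast; ring
  rw [e3] at hfin
  have e4 : c₀ * κ * (x / L ^ 4) = c₀ * (x / L ^ 4) * κ := by ring
  rw [e4]
  linarith

private theorem F6_err {α : Type} (S T : Finset α) (a u v : α → α → ℝ) (E : ℝ)
    (h : ∀ c ∈ S, ∀ c' ∈ T, |u c c' - v c c'| ≤ E) :
    |∑ c ∈ S, ∑ c' ∈ T, a c c' * u c c' - ∑ c ∈ S, ∑ c' ∈ T, a c c' * v c c'| ≤
      (∑ c ∈ S, ∑ c' ∈ T, |a c c'|) * E := by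
  rw [← sum_sub_distrib, sum_mul]
  refine (abs_sum_le_sum_abs _ _).trans (sum_le_sum fun c hc => ?_)
  rw [← sum_sub_distrib, sum_mul]
  refine (abs_sum_le_sum_abs _ _).trans (sum_le_sum fun c' hc' => ?_)
  rw [← mul_sub, abs_mul]
  exact mul_le_mul_of_nonneg_left (h c hc c' hc') (abs_nonneg _)

/-- the lower bound with an absolute factor `κ` -/
theorem SS_lower_abs : ∃ κ' : ℝ, 0 < κ' ∧ ∀ h : Fin 4 → ℕ, Function.Injective h →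
    ∀ c₀ : ℝ, 0 < c₀ → ∀ z₀ : ℕ, (∀ z : ℕ, z₀ ≤ z → c₀ * Vz z ^ 4 ≤ VH h z) →
    ∃ B : ℕ, 3 ≤ B ∧ ∃ x₀ : ℕ, ∀ x : ℕ, x₀ ≤ x →
      c₀ * κ' * (x / (Real.log x) ^ 4) ≤ SS h x (zB B x) := by
  -- the constant
  have hcert := cert
  have hκ : 0 < 4 * et ^ 3 * (∑ b ∈ BB, Dl (∑ j, b j) (lenb b)) - 3 * et ^ 4 * ∑ c ∈ TT, fc c ^ 2 := by
    have h1 : 3 * et * ∑ c ∈ TT, fc c ^ 2 < 4 * ∑ b ∈ BB, Dl (∑ j, b j) (lenb b) := hcert
    have h2 := mul_lt_mul_of_pos_left h1 (pow_pos F6_et 3)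
    nlinarith [h2]
  obtain ⟨ε, hε0, hεe, hεκ⟩ := F6_eps (∑ b ∈ BB, Dl (∑ j, b j) (lenb b)) (∑ c ∈ TT, fc c ^ 2)
    (BB.card : ℝ) hκ
  set κ : ℝ := (4 * et ^ 3 * (∑ b ∈ BB, Dl (∑ j, b j) (lenb b)) -
    3 * et ^ 4 * ∑ c ∈ TT, fc c ^ 2) / 2 with hκdef
  have hκ0 : 0 < κ := by rw [hκdef]; linarith
  have hκ' : κ ≤ 4 * (et - ε) ^ 3 * ∑ b ∈ BB, (Dl (∑ j, b j) (lenb b) - ε) -
      3 * (et + ε) ^ 4 * ∑ c ∈ TT, fc c ^ 2 := by
    rw [sum_sub_distrib, sum_const, nsmul_eq_mul]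
    exact hεκ
  refine ⟨κ / 2, by linarith, fun h hinj c₀ hc0 z₀ hVHl => ?_⟩
  obtain ⟨B1, hB1⟩ := TI_asymp h hinj 5
  obtain ⟨B2, hB2⟩ := TZ_asymp h hinj 5
  set B : ℕ := max 3 (max B1 B2) with hBdef
  have hB3 : 3 ≤ B := le_max_left _ _
  have hB1' : B1 ≤ B := (le_max_left _ _).trans (le_max_right _ _)
  have hB2' : B2 ≤ B := (le_max_right _ _).trans (le_max_right _ _)
  obtain ⟨x1, hx1⟩ := hB1 B hB1'
  obtain ⟨x2, hx2⟩ := hB2 B hB2'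
  obtain ⟨x3, hx3⟩ := Sg_eq B hB3 ε hε0
  choose x4 hx4 using fun i : Fin 4 => Yb_ge B (h i) hB3 ε hε0
  have hde0 : (0 : ℝ) < de := by unfold de; norm_num
  have hde1 : de ≤ 1 := by unfold de; norm_num
  have hth1 : th < 1 := by unfold th; norm_num
  obtain ⟨x5, hx5⟩ := ew_bound de th hde0 hde1 hth1
  set C1 : ℝ := ∑ i : Fin 4, ∑ c ∈ TTi i, ∑ c' ∈ TT,
    |fc c * fc c' * (2 - if c' ∈ TTi i then 1 else 0)| with hC1
  set C2 : ℝ := ∑ c ∈ TT, ∑ c' ∈ TT, |fc c * fc c'| with hC2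
  have hC0 : 0 ≤ C1 + 3 * C2 := by positivity
  -- large logarithm
  obtain ⟨x6, hx6⟩ : ∃ x6 : ℕ, ∀ x : ℕ, x6 ≤ x →
      2 * (C1 + 3 * C2) / (c₀ * κ) + 1 ≤ Real.log x := by
    have ht : Filter.Tendsto (fun x : ℕ => Real.log x) Filter.atTop Filter.atTop :=
      Real.tendsto_log_atTop.comp tendsto_natCast_atTop_atTop
    obtain ⟨x6, h6⟩ := Filter.eventually_atTop.1 (ht.eventually_ge_atTop (2 * (C1 + 3 * C2) / (c₀ * κ) + 1))
    exact ⟨x6, h6⟩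
  obtain ⟨x7, hx7⟩ : ∃ x7 : ℕ, ∀ x : ℕ, x7 ≤ x → z₀ ≤ zB B x := by
    have ht : Filter.Tendsto (fun x : ℕ => Real.log x) Filter.atTop Filter.atTop :=
      Real.tendsto_log_atTop.comp tendsto_natCast_atTop_atTop
    obtain ⟨x7, h7⟩ := Filter.eventually_atTop.1 (ht.eventually_ge_atTop ((z₀ : ℝ) + 1))
    refine ⟨x7, fun x hx => Nat.le_floor ?_⟩
    have h8 := h7 x hx
    have hz0 : (0 : ℝ) ≤ z₀ := Nat.cast_nonneg _
    calc (z₀ : ℝ) ≤ Real.log x := by linarith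
      _ = Real.log x ^ 1 := (pow_one _).symm
      _ ≤ Real.log x ^ B := pow_le_pow_right₀ (by linarith) (by omega)
  refine ⟨B, hB3,
    max x1 (max x2 (max x3 (max (∑ i, x4 i) (max x5 (max x6 (max 1 (max (∑ i, h i) x7))))))), fun x hx => ?_⟩
  simp only [max_le_iff] at hx
  obtain ⟨k1, k2, k3, k4, k5, k6, k7, k8, k9⟩ := hx
  have k4' : ∀ i, x4 i ≤ x := fun i =>
    (single_le_sum (f := x4) (fun _ _ => Nat.zero_le _) (mem_univ i)).trans k4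
  have k8' : ∀ i, h i ≤ x := fun i =>
    (single_le_sum (f := h) (fun _ _ => Nat.zero_le _) (mem_univ i)).trans k8
  set z : ℕ := zB B x with hz
  set L : ℝ := Real.log x with hLdef
  have hL6 := hx6 x k6
  have hL1 : 1 ≤ L := by
    have : 0 ≤ 2 * (C1 + 3 * C2) / (c₀ * κ) := by positivity
    linarith
  have hL : 0 < L := by linarith
  have hV : 0 < Vz z := div_pos (Nat.cast_pos.2 (Nat.totient_pos.2 (primorial_pos z)))
    (Nat.cast_pos.2 (primorial_pos z))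
  have hx0 : (0 : ℝ) ≤ x := Nat.cast_nonneg _
  -- nonnegativity of the minorant
  have ewpos : ∀ m : ℕ, x < m → m ≤ 3 * x → 0 ≤ ew x de th m := fun m h1 h2 => (hx5 x k5 m h1 h2).1
  have hpos : ∀ n ∈ Nn h x z, ∀ i, 0 ≤ ew x de th (n + h i) := by
    intro n hn i
    have hn' := mem_Ioc.1 (mem_filter.1 hn).1
    have := k8' i
    exact ewpos _ (by omega) (by omega)
  have hY0 : ∀ i, ∀ b ∈ BB, 0 ≤ Yb x z (h i) b := by
    intro i b _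
    unfold Yb
    refine sum_nonneg fun m hm => ?_
    have hm' := mem_Ioc.1 hm
    have := k8' i
    exact mul_nonneg (ewpos m (by omega) (by omega)) (sq_nonneg _)
  have horth : ∀ j ≤ 61, ∀ j' ≤ 61, j ≠ j' → Sg x z j j' = 0 :=
    fun j _ j' _ hj => Sg_ne x z k7 j j' hj
  have hmain := F6_main x z h L (Vz z) ε κ c₀ hL hV hεe (VH_eq 4 (by norm_num) h z) (hVHl z (hx7 x k9)) hc0
    (hx3 x k3) (fun i b hb => hx4 i x (k4' i) b hb) hY0 hκ' hκ0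
  -- error terms
  set E : ℝ := x / L ^ 5 with hE
  have hE0 : 0 ≤ E := by positivity
  have err1 : ∀ i : Fin 4, VH' h z * ∑ b ∈ BB, (∏ j, Sg x z (b j) (b j)) * Yb x z (h i) b -
      (∑ c ∈ TTi i, ∑ c' ∈ TT, |fc c * fc c' * (2 - if c' ∈ TTi i then 1 else 0)|) * E ≤
      ∑ n ∈ Nn h x z, ew x de th (n + h i) * (WP h x z i n * (2 * WW h x z n - WP h x z i n)) := by
    intro i
    have h1 := F6_err (TTi i) TT (fun c c' => fc c * fc c' * (2 - if c' ∈ TTi i then 1 else 0))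
      (fun c c' => TI h x z i c c')
      (fun c c' => VH' h z * MM x z (h i) (c i) (c' i) * ∏ j ∈ univ.erase i, Sg x z (c j) (c' j)) E
      (fun c hc c' hc' => hx1 x k1 i c hc c' hc')
    rw [main_i x z (h i) (k8' i) i horth (VH' h z)] at h1
    rw [exp_i]
    have := (abs_le.1 h1).1
    linarith
  have err2 : ∑ n ∈ Nn h x z, WW h x z n ^ 2 ≤
      x * VH h z * (∑ c ∈ TT, fc c ^ 2 * ∏ j, Sg x z (c j) (c j)) + C2 * E := by
    have h1 := F6_err TT TT (fun c c' => fc c * fc c') (fun c c' => TZ h x z c c')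
      (fun c c' => x * VH h z * ∏ j, Sg x z (c j) (c' j)) E
      (fun c hc c' hc' => hx2 x k2 c hc c' hc')
    rw [main_0 x z horth (x * VH h z)] at h1
    rw [exp_0]
    have := (abs_le.1 h1).2
    linarith
  have hSS := SS_ge h x z hpos
  have hsum : ∑ i : Fin 4, VH' h z * ∑ b ∈ BB, (∏ j, Sg x z (b j) (b j)) * Yb x z (h i) b - C1 * E ≤
      ∑ i, ∑ n ∈ Nn h x z, ew x de th (n + h i) *
        (WP h x z i n * (2 * WW h x z n - WP h x z i n)) := by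
    rw [hC1, sum_mul, ← sum_sub_distrib]
    exact sum_le_sum (fun i _ => err1 i)
  have hfin : c₀ * κ * (x / L ^ 4) - (C1 + 3 * C2) * E ≤ SS h x z := by
    linarith
  have hEb : (C1 + 3 * C2) * E ≤ c₀ * κ / 2 * (x / L ^ 4) := by
    have h1 : C1 + 3 * C2 ≤ c₀ * κ / 2 * L := by
      have h2 : 2 * (C1 + 3 * C2) / (c₀ * κ) ≤ L := by linarith
      rw [div_le_iff₀ (by positivity)] at h2
      linarith
    calc (C1 + 3 * C2) * E ≤ c₀ * κ / 2 * L * E := mul_le_mul_of_nonneg_right h1 hE0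
      _ = c₀ * κ / 2 * (x / L ^ 4) := by rw [hE]; field_simp
  linarith

theorem SS_lower (h : Fin 4 → ℕ) (hinj : Function.Injective h)
    (hadm : ∀ p : ℕ, p.Prime → nuh h univ p < p) :
    ∃ B : ℕ, 3 ≤ B ∧ ∃ c : ℝ, 0 < c ∧ ∃ x₀ : ℕ, ∀ x : ℕ, x₀ ≤ x →
      c * (x / (Real.log x) ^ 4) ≤ SS h x (zB B x) := by
  obtain ⟨κ, hκ, H⟩ := SS_lower_abs
  obtain ⟨c₀, hc0, hVHl⟩ := VH_lower 4 h hinj hadm
  obtain ⟨B, hB, hx⟩ := H h hinj c₀ hc0 0 (fun z _ => hVHl z)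
  exact ⟨B, hB, c₀ * κ, by positivity, hx⟩

end Pool.Agent.Lib.MP_092512_nt.P3
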