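import Pool.Agent.Lib.MP_092512_nt.P3.F0
import Pool.Agent.Lib.MP_092512_nt.P3.E7
import Pool.Agent.Lib.MP_092512_nt.P3.Spec2

/-!
# F7: upper bound for `SS` by the number of good `n`

PROOF.  For `n ∈ Nn` put `s = ∑_i ew(n + h_i)`; each term is in `[0, 1]` (`ew_bound`, `n + h_i ∈ (x, 3x]`).  If some `ew(n + h_i) = 0` then `s - 3 ≤ 0` and the
term of `SS` is `≤ 0`.  Otherwise `s - 3 ≤ 1`, all `n + h_i` are squarefree with at most three prime factors, all `> x^de`
(`ew_bound`), they have at most `8` divisors, so `|LC| ≤ 16` (`lamC_le`, `jm = 61`), `|PL| ≤ 16⁴`, `|WW| ≤ 16⁴ ∑_{TT} |fc| =: M`, and the term is `≤ M²`.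
So `SS ≤ M² #good`.
-/

set_option autoImplicit false

open Finset

namespace Pool.Agent.Lib.MP_092512_nt.P3

open Pool.Agent.Lib.SW

/-- all four numbers are squarefree with at most three prime factors, all `> x^(1/250)` -/
def good (h : Fin 4 → ℕ) (x n : ℕ) : Prop :=
  ∀ i, Squarefree (n + h i) ∧ (n + h i).primeFactors.card ≤ 3 ∧
    ∀ p ∈ (n + h i).primeFactors, (x : ℝ) ^ de < p

private theorem F7_card_div (m : ℕ) (hm : Squarefree m) (h : m.primeFactors.card ≤ 3) :
    m.divisors.card ≤ 8 := by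
  rw [Nat.card_divisors hm.ne_zero]
  calc ∏ p ∈ m.primeFactors, (m.factorization p + 1) ≤ ∏ _p ∈ m.primeFactors, 2 := by
        refine prod_le_prod' fun p _ => ?_
        have := hm.natFactorization_le_one p
        omega
    _ = 2 ^ m.primeFactors.card := by rw [prod_const]
    _ ≤ 2 ^ 3 := Nat.pow_le_pow_right (by norm_num) h
    _ = 8 := by norm_num

private theorem F7_LC (x z j m : ℕ) (hm : Squarefree m) (h : m.primeFactors.card ≤ 3)
    (hl : ∀ d : ℕ, |lamC x z et j d| ≤ 2) : |LC x z et j m| ≤ 16 := by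
  unfold LC
  refine (abs_sum_le_sum_abs _ _).trans ?_
  calc ∑ d ∈ m.divisors, |lamC x z et j d| ≤ ∑ _d ∈ m.divisors, (2 : ℝ) :=
        sum_le_sum fun d _ => hl d
    _ = (m.divisors.card : ℝ) * 2 := by rw [sum_const, nsmul_eq_mul]
    _ ≤ 8 * 2 := by
        refine mul_le_mul_of_nonneg_right ?_ (by norm_num)
        exact_mod_cast F7_card_div m hm h
    _ = 16 := by norm_num

private theorem F7_WW (h : Fin 4 → ℕ) (x z n : ℕ) (hg : good h x n)
    (hl : ∀ j ≤ 61, ∀ d : ℕ, |lamC x z et j d| ≤ 2) :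
    WW h x z n ^ 2 ≤ (∑ c ∈ TT, |fc c| * 16 ^ 4) ^ 2 := by
  have h1 : |WW h x z n| ≤ ∑ c ∈ TT, |fc c| * 16 ^ 4 := by
    unfold WW
    refine (abs_sum_le_sum_abs _ _).trans ?_
    refine sum_le_sum fun c hc => ?_
    rw [abs_mul]
    refine mul_le_mul_of_nonneg_left ?_ (abs_nonneg _)
    unfold PL
    rw [abs_prod]
    calc ∏ i, |LC x z et (c i) (n + h i)| ≤ ∏ _i : Fin 4, (16 : ℝ) := by
          refine prod_le_prod (fun i _ => abs_nonneg _) fun i _ => ?_
          exact F7_LC x z (c i) (n + h i) (hg i).1 (hg i).2.1 (hl _ (TT_coord c hc i))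
      _ = 16 ^ 4 := by rw [prod_const, card_univ, Fintype.card_fin]
  rw [← sq_abs (WW h x z n)]
  exact pow_le_pow_left₀ (abs_nonneg _) h1 2

open Classical in
/-- with an absolute constant -/
theorem SS_upper_abs : ∃ C : ℝ, 0 < C ∧ ∀ (h : Fin 4 → ℕ) (B : ℕ), 3 ≤ B →
    ∃ x₀ : ℕ, ∀ x : ℕ, x₀ ≤ x →
      SS h x (zB B x) ≤ C * (((Ioc x (2 * x)).filter (fun n => good h x n)).card : ℝ) := by
  refine ⟨(∑ c ∈ TT, |fc c| * 16 ^ 4) ^ 2 + 1, by positivity, fun h B hB => ?_⟩
  obtain ⟨x1, hew⟩ := ew_bound de th (by unfold de; norm_num) (by unfold de; norm_num)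
    (by unfold th; norm_num)
  obtain ⟨x2, hlam⟩ := lamC_le B 61 hB et (by unfold et; norm_num) (by unfold et; norm_num)
  refine ⟨max x1 (max x2 (∑ i, h i)), ?_⟩
  intro x hx
  have hx1 : x1 ≤ x := le_trans (le_max_left _ _) hx
  have hx2 : x2 ≤ x := le_trans (le_trans (le_max_left _ _) (le_max_right _ _)) hx
  have hx3 : ∑ i, h i ≤ x := le_trans (le_trans (le_max_right _ _) (le_max_right _ _)) hx
  have hhi : ∀ i, h i ≤ x := fun i =>
    le_trans (single_le_sum (f := h) (fun _ _ => Nat.zero_le _) (mem_univ i)) hx3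
  obtain ⟨M, hM⟩ : ∃ M : ℝ, M = (∑ c ∈ TT, |fc c| * 16 ^ 4) ^ 2 + 1 := ⟨_, rfl⟩
  rw [← hM]
  have hM0 : 0 ≤ M := by rw [hM]; positivity
  have hterm : ∀ n ∈ Nn h x (zB B x),
      (∑ i, ew x de th (n + h i) - 3) * WW h x (zB B x) n ^ 2 ≤ if good h x n then M else 0 := by
    intro n hn
    have hn' := mem_Ioc.mp (mem_filter.mp hn).1
    have hrange : ∀ i, x < n + h i ∧ n + h i ≤ 3 * x := fun i => by
      have := hhi i
      omega
    have hw0 : 0 ≤ WW h x (zB B x) n ^ 2 := sq_nonneg _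
    by_cases hg : good h x n
    · rw [if_pos hg]
      have h1 : ∑ i, ew x de th (n + h i) ≤ 4 := by
        calc ∑ i, ew x de th (n + h i) ≤ ∑ _i : Fin 4, (1 : ℝ) :=
              sum_le_sum fun i _ => (hew x hx1 (n + h i) (hrange i).1 (hrange i).2).2.1
          _ = 4 := by rw [sum_const, card_univ, Fintype.card_fin]; norm_num
      have h2 := F7_WW h x (zB B x) n hg (fun j hj d => hlam x hx2 j hj d)
      have h3 : (∑ i, ew x de th (n + h i) - 3) * WW h x (zB B x) n ^ 2 ≤
          1 * WW h x (zB B x) n ^ 2 := mul_le_mul_of_nonneg_right (by linarith) hw0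
      rw [hM]
      linarith
    · rw [if_neg hg]
      have h1 : ∃ i, ew x de th (n + h i) = 0 := by
        by_contra hcon
        push Not at hcon
        apply hg
        intro i
        exact (hew x hx1 (n + h i) (hrange i).1 (hrange i).2).2.2 (hcon i)
      obtain ⟨i, hi⟩ := h1
      have h2 : ∑ j, ew x de th (n + h j) ≤ 3 := by
        rw [← add_sum_erase univ _ (mem_univ i), hi, zero_add]
        calc ∑ j ∈ univ.erase i, ew x de th (n + h j) ≤ ∑ _j ∈ univ.erase i, (1 : ℝ) :=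
              sum_le_sum fun j _ => (hew x hx1 (n + h j) (hrange j).1 (hrange j).2).2.1
          _ = 3 := by
            rw [sum_const, card_erase_of_mem (mem_univ i), card_univ, Fintype.card_fin]
            norm_num
      exact mul_nonpos_of_nonpos_of_nonneg (by linarith) hw0
  calc SS h x (zB B x) ≤ ∑ n ∈ Nn h x (zB B x), (if good h x n then M else 0) := by
        unfold SS
        exact sum_le_sum hterm
    _ ≤ ∑ n ∈ Ioc x (2 * x), (if good h x n then M else 0) := by
        refine sum_le_sum_of_subset_of_nonneg (filter_subset _ _) fun n _ _ => ?_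
        split_ifs
        · exact hM0
        · exact le_rfl
    _ = M * (((Ioc x (2 * x)).filter (fun n => good h x n)).card : ℝ) := by
        rw [← sum_filter, sum_const, nsmul_eq_mul, mul_comm]

open Classical in
theorem SS_upper (h : Fin 4 → ℕ) (B : ℕ) (hB : 3 ≤ B) :
    ∃ C : ℝ, 0 < C ∧ ∃ x₀ : ℕ, ∀ x : ℕ, x₀ ≤ x →
      SS h x (zB B x) ≤ C * (((Ioc x (2 * x)).filter (fun n => good h x n)).card : ℝ) := by
  obtain ⟨C, hC, H⟩ := SS_upper_abs
  exact ⟨C, hC, H h B hB⟩

end Pool.Agent.Lib.MP_092512_nt.P3
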