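import Pool.Agent.Lib.MP_092512_nt.P3.F6
import Pool.Agent.Lib.MP_092512_nt.P3.F7

/-!
# F8: the theorem

PROOF.  `x = N/2` (natural division), `Ioc x (2x) ⊆ Icc 1 N`, `x ≥ N/3`, `log x ≤ log N`, and `x^de ≥ N^(1/251)` for large `N`: `de = 1/250`.
(`ω(m) ≤ 3` and squarefree.)
-/

set_option autoImplicit false

open Finset

namespace Pool.Agent.Lib.MP_092512_nt.P3

open Pool.Agent.Lib.SW

open Classical in
/-- with an absolute constant -/
theorem quadruples_abs : ∃ c' : ℝ, 0 < c' ∧ ∀ h : Fin 4 → ℕ, Function.Injective h →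
    ∀ c₀ : ℝ, 0 < c₀ → ∀ z₀ : ℕ, (∀ z : ℕ, z₀ ≤ z → c₀ * Vz z ^ 4 ≤ VH h z) →
    ∃ N₀ : ℕ, ∀ N : ℕ, N₀ ≤ N →
      c₀ * c' * (N / (Real.log N) ^ 4) ≤ (((Icc 1 N).filter (fun n => ∀ i, Squarefree (n + h i) ∧
        (n + h i).primeFactors.card ≤ 3 ∧
          ∀ p ∈ (n + h i).primeFactors, (N : ℝ) ^ (1 / 251 : ℝ) < p)).card : ℝ) := by
  obtain ⟨κ, hκ, HL⟩ := SS_lower_abs
  obtain ⟨C, hC, HU⟩ := SS_upper_abs
  refine ⟨κ / (3 * C), by positivity, fun h hinj c₀ hc₀ z₀ hz₀ => ?_⟩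
  obtain ⟨B, hB, x1, hlow⟩ := HL h hinj c₀ hc₀ z₀ hz₀
  obtain ⟨x2, hup⟩ := HU h B hB
  obtain ⟨c, hcd⟩ : ∃ c : ℝ, c = c₀ * κ := ⟨_, rfl⟩
  rw [← hcd] at hlow
  have hc : 0 < c := by rw [hcd]; positivity
  have hcc : c₀ * (κ / (3 * C)) = c / (3 * C) := by rw [hcd]; ring
  rw [hcc]
  refine ⟨max (3 ^ 251) (max (2 * x1 + 2) (2 * x2 + 2)), ?_⟩
  intro N hN
  have hN1 : 3 ^ 251 ≤ N := le_trans (le_max_left _ _) hN
  have hN2 : 2 * x1 + 2 ≤ N := le_trans (le_trans (le_max_left _ _) (le_max_right _ _)) hN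
  have hN3 : 2 * x2 + 2 ≤ N := le_trans (le_trans (le_max_right _ _) (le_max_right _ _)) hN
  have hN4 : 9 ≤ N := le_trans (by
    calc 9 = 3 ^ 2 := by norm_num
      _ ≤ 3 ^ 251 := Nat.pow_le_pow_right (by norm_num) (by norm_num)) hN1
  obtain ⟨x, hx⟩ : ∃ x : ℕ, x = N / 2 := ⟨_, rfl⟩
  have hxN : 2 * x ≤ N := by omega
  have hxN' : N ≤ 3 * x := by omega
  have hx1 : x1 ≤ x := by omega
  have hx2 : x2 ≤ x := by omega
  have hx3 : 3 ≤ x := by omega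
  have hNR : (3 : ℝ) ^ (251 : ℕ) ≤ N := by exact_mod_cast hN1
  have hN0 : (0 : ℝ) < N := lt_of_lt_of_le (by positivity) hNR
  have hxR : (N : ℝ) ≤ 3 * x := by exact_mod_cast hxN'
  have hx0 : (0 : ℝ) < x := by linarith
  have hxN2 : (x : ℝ) ≤ N := by
    have : x ≤ N := by omega
    exact_mod_cast this
  have hx3R : (3 : ℝ) ≤ x := by exact_mod_cast hx3
  have hpow : (N : ℝ) ^ (1 / 251 : ℝ) ≤ (x : ℝ) ^ de := by
    have h1 : (3 : ℝ) ≤ (N : ℝ) ^ (1 / 251 : ℝ) := by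
      calc (3 : ℝ) = ((3 : ℝ) ^ (251 : ℕ)) ^ (1 / 251 : ℝ) := by
            rw [← Real.rpow_natCast, ← Real.rpow_mul (by norm_num)]
            norm_num
        _ ≤ (N : ℝ) ^ (1 / 251 : ℝ) := Real.rpow_le_rpow (by positivity) hNR (by norm_num)
    have h2 : (N : ℝ) ^ (250 / 251 : ℝ) ≤ x := by
      have h3 : (N : ℝ) ^ (250 / 251 : ℝ) * (N : ℝ) ^ (1 / 251 : ℝ) = N := by
        rw [← Real.rpow_add hN0]
        norm_num
      have h4 : 0 < (N : ℝ) ^ (250 / 251 : ℝ) := Real.rpow_pos_of_pos hN0 _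
      nlinarith
    calc (N : ℝ) ^ (1 / 251 : ℝ) = ((N : ℝ) ^ (250 / 251 : ℝ)) ^ (1 / 250 : ℝ) := by
          rw [← Real.rpow_mul hN0.le]
          norm_num
      _ ≤ (x : ℝ) ^ (1 / 250 : ℝ) := Real.rpow_le_rpow (by positivity) h2 (by norm_num)
      _ = (x : ℝ) ^ de := rfl
  have hlow' := hlow x hx1
  have hup' := hup x hx2
  have hcard : (((Ioc x (2 * x)).filter (fun n => good h x n)).card : ℝ) ≤
      (((Icc 1 N).filter (fun n => ∀ i, Squarefree (n + h i) ∧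
        (n + h i).primeFactors.card ≤ 3 ∧
          ∀ p ∈ (n + h i).primeFactors, (N : ℝ) ^ (1 / 251 : ℝ) < p)).card : ℝ) := by
    have : ((Ioc x (2 * x)).filter (fun n => good h x n)).card ≤
      ((Icc 1 N).filter (fun n => ∀ i, Squarefree (n + h i) ∧
        (n + h i).primeFactors.card ≤ 3 ∧
          ∀ p ∈ (n + h i).primeFactors, (N : ℝ) ^ (1 / 251 : ℝ) < p)).card := by
      refine card_le_card fun n hn => ?_
      rw [mem_filter, mem_Ioc] at hn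
      rw [mem_filter, mem_Icc]
      refine ⟨⟨by omega, by omega⟩, fun i => ?_⟩
      obtain ⟨h1, h2, h3⟩ := hn.2 i
      exact ⟨h1, h2, fun p hp => lt_of_le_of_lt hpow (h3 p hp)⟩
    exact_mod_cast this
  have hlogx : 0 < Real.log x := Real.log_pos (by linarith)
  have hlogN : Real.log x ≤ Real.log N := Real.log_le_log hx0 hxN2
  have hmain : (N : ℝ) / 3 / (Real.log N) ^ 4 ≤ x / (Real.log x) ^ 4 := by
    calc (N : ℝ) / 3 / (Real.log N) ^ 4 ≤ x / (Real.log N) ^ 4 := by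
          refine div_le_div_of_nonneg_right (by linarith) (by positivity)
      _ ≤ x / (Real.log x) ^ 4 := by
          refine div_le_div_of_nonneg_left hx0.le (by positivity) ?_
          exact pow_le_pow_left₀ hlogx.le hlogN 4
  have h5 : c * ((N : ℝ) / 3 / (Real.log N) ^ 4) ≤ C * (((Ioc x (2 * x)).filter (fun n => good h x n)).card : ℝ) :=
    le_trans (mul_le_mul_of_nonneg_left hmain hc.le) (hlow'.trans hup')
  have h6 : c / (3 * C) * (N / (Real.log N) ^ 4) = c * ((N : ℝ) / 3 / (Real.log N) ^ 4) / C := by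
    field_simp
  rw [h6, div_le_iff₀ hC]
  calc c * ((N : ℝ) / 3 / (Real.log N) ^ 4) ≤
        C * (((Ioc x (2 * x)).filter (fun n => good h x n)).card : ℝ) := h5
    _ ≤ C * _ := mul_le_mul_of_nonneg_left hcard hC.le
    _ = _ := mul_comm _ _

open Classical in
theorem quadruples (h : Fin 4 → ℕ) (hinj : Function.Injective h)
    (hadm : ∀ p : ℕ, p.Prime → nuh h univ p < p) :
    ∃ c : ℝ, 0 < c ∧ ∃ N₀ : ℕ, ∀ N : ℕ, N₀ ≤ N →
      c * (N / (Real.log N) ^ 4) ≤ (((Icc 1 N).filter (fun n => ∀ i, Squarefree (n + h i) ∧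
        (n + h i).primeFactors.card ≤ 3 ∧
          ∀ p ∈ (n + h i).primeFactors, (N : ℝ) ^ (1 / 251 : ℝ) < p)).card : ℝ) := by
  obtain ⟨c', hc', H⟩ := quadruples_abs
  obtain ⟨c₀, hc0, hVHl⟩ := VH_lower 4 h hinj hadm
  obtain ⟨N₀, hN⟩ := H h hinj c₀ hc0 0 (fun z _ => hVHl z)
  exact ⟨c₀ * c', by positivity, N₀, hN⟩

end Pool.Agent.Lib.MP_092512_nt.P3
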