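import Pool.Agent.Lib.MP_092512_nt.P3.Spec2
import Pool.Agent.Lib.SW.LG3

/-!
# G1: the singular series

`SgR h z = ∏_{p ≤ z} (1 - ν(p)/p)/(1 - 1/p)^k`.
PROOFS.  `VH_SgR`: `Vz z = ∏_{p ≤ z} (1 - 1/p)`.  `sing`: `SgR h z ≥ c > 0` (`VH_lower`); for `z ≥ max h` and a prime `p = z + 1 > max h`: all `h i` are
different modulo `p`, `ν(p) = k` and the factor is `≤ 1` (Bernoulli), so `SgR h (z + M)` is antitone and bounded below.
-/

set_option autoImplicit false

open Finset Filter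

namespace Pool.Agent.Lib.MP_092512_nt.P3

open Pool.Agent.Lib.SW

/-- partial product of the Hardy-Littlewood singular series -/
noncomputable def SgR {k : ℕ} (h : Fin k → ℕ) (z : ℕ) : ℝ :=
  ∏ p ∈ (Icc 1 z).filter Nat.Prime, (1 - (nuh h univ p : ℝ) / p) / (1 - 1 / (p : ℝ)) ^ k

private theorem G1_Vz (z : ℕ) : Vz z = ∏ p ∈ (Icc 1 z).filter Nat.Prime, (1 - 1 / (p : ℝ)) := by
  have h1 : Vz z = LG3V z := LG3_V z
  rw [h1]
  unfold LG3V
  refine prod_congr ?_ fun _ _ => rfl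
  ext p
  simp only [mem_filter, mem_range, mem_Icc]
  constructor
  · rintro ⟨h, hp⟩
    exact ⟨⟨hp.one_lt.le, by omega⟩, hp⟩
  · rintro ⟨⟨_, h⟩, hp⟩
    exact ⟨by omega, hp⟩

theorem Vz_pos (z : ℕ) : 0 < Vz z :=
  div_pos (Nat.cast_pos.2 (Nat.totient_pos.2 (primorial_pos z))) (Nat.cast_pos.2 (primorial_pos z))

private theorem G1_pos {p : ℕ} (hp : p.Prime) : (0 : ℝ) < 1 - 1 / (p : ℝ) := by
  have h1 : (1 : ℝ) < p := by exact_mod_cast hp.one_lt
  have : 1 / (p : ℝ) < 1 := by rw [div_lt_one (by linarith)]; exact h1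
  linarith

theorem VH_SgR {k : ℕ} (h : Fin k → ℕ) (z : ℕ) : VH h z = SgR h z * Vz z ^ k := by
  unfold VH SgR
  rw [G1_Vz, ← prod_pow, ← prod_mul_distrib]
  refine prod_congr rfl fun p hp => ?_
  have := G1_pos (mem_filter.1 hp).2
  rw [div_mul_cancel₀]
  positivity

private theorem G1_nu {k : ℕ} (h : Fin k → ℕ) (hinj : Function.Injective h) (p : ℕ)
    (hp : ∀ i, h i < p) : nuh h univ p = k := by
  unfold nuh
  rw [card_image_of_injective, card_univ, Fintype.card_fin]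
  intro i j hij
  simp only [Nat.mod_eq_of_lt (hp i), Nat.mod_eq_of_lt (hp j)] at hij
  exact hinj hij

private theorem G1_fac {k : ℕ} {p : ℕ} (hp : p.Prime) :
    (1 - (k : ℝ) / p) / (1 - 1 / (p : ℝ)) ^ k ≤ 1 := by
  have h0 := G1_pos hp
  rw [div_le_one (by positivity)]
  have h1 : (-2 : ℝ) ≤ -(1 / (p : ℝ)) := by
    have : 1 / (p : ℝ) ≤ 1 := by linarith
    linarith
  have := one_add_mul_le_pow h1 k
  calc (1 - (k : ℝ) / p) = 1 + k * (-(1 / (p : ℝ))) := by ring
    _ ≤ (1 + -(1 / (p : ℝ))) ^ k := this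
    _ = (1 - 1 / (p : ℝ)) ^ k := by rw [← sub_eq_add_neg]

theorem sing {k : ℕ} (h : Fin k → ℕ) (hinj : Function.Injective h)
    (hadm : ∀ p : ℕ, p.Prime → nuh h univ p < p) :
    ∃ S : ℝ, 0 < S ∧ Tendsto (SgR h) atTop (nhds S) := by
  obtain ⟨c, hc, hl⟩ := VH_lower k h hinj hadm
  have hlow : ∀ z, c ≤ SgR h z := by
    intro z
    have h1 := hl z
    rw [VH_SgR] at h1
    exact le_of_mul_le_mul_right h1 (pow_pos (Vz_pos z) k)
  set M : ℕ := ∑ i, h i + 1 with hM
  have hhi : ∀ i, h i < M := fun i => by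
    have := single_le_sum (f := h) (fun _ _ => Nat.zero_le _) (mem_univ i)
    omega
  have hanti : Antitone (fun z => SgR h (z + M)) := by
    refine antitone_nat_of_succ_le fun z => ?_
    have hpos : 0 ≤ SgR h (z + M) := hc.le.trans (hlow _)
    have e : z + 1 + M = (z + M) + 1 := by ring
    show SgR h (z + 1 + M) ≤ SgR h (z + M)
    rw [e]
    unfold SgR at hpos ⊢
    rw [show Icc 1 (z + M + 1) = insert (z + M + 1) (Icc 1 (z + M)) by
      rw [← Order.succ_eq_add_one, Finset.insert_Icc_right_eq_Icc_succ (by simp)], filter_insert]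
    by_cases hp : (z + M + 1).Prime
    · rw [if_pos hp, prod_insert (by simp)]
      refine mul_le_of_le_one_left hpos ?_
      have := G1_nu h hinj (z + M + 1) (fun i => by have := hhi i; omega)
      rw [this]
      exact G1_fac hp
    · rw [if_neg hp]
  have hbdd : BddBelow (Set.range (fun z => SgR h (z + M))) := ⟨c, by
    rintro _ ⟨z, rfl⟩
    exact hlow _⟩
  refine ⟨⨅ z, SgR h (z + M), lt_of_lt_of_le hc (le_ciInf fun z => hlow _), ?_⟩
  exact (tendsto_add_atTop_iff_nat M).1 (tendsto_atTop_ciInf hanti hbdd)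

end Pool.Agent.Lib.MP_092512_nt.P3
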