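import Pool.Agent.Lib.MP_092512_nt.P3.Spec2
import Pool.Agent.Lib.MP_092512_nt.P3.G1

/-!
# G2: upper bound for the number of `n ∈ (x, 2x]` such that all four `n + h_i` have only prime factors `> x^(1/252)`

PROOF.  Selberg's weights of the cell `[0, η]`, `η = 1/252`: for such `n` only `d = 1` contributes to `LC`, so `LC = lamC 1 ≥ η/2`
(`C4_lamS_asymp`); `sieve_int` and `alp_sum_eq` for the sum of `∏ LC²`.
-/

set_option autoImplicit false

open Finset Filter

open scoped ArithmeticFunction.Moebius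

namespace Pool.Agent.Lib.MP_092512_nt.P3

open Pool.Agent.Lib.SW

private theorem G2_lamS_zero {x z d : ℕ} {ρ : ℝ} (hd : (x : ℝ) ^ ρ < d) : lamS x z ρ d = 0 := by
  unfold lamS
  split_ifs with h
  · have hd0 : (0 : ℝ) < d := by
      have := h.1.ne_zero
      exact_mod_cast Nat.pos_of_ne_zero this
    have : (x : ℝ) ^ ρ / d < 1 := by rw [div_lt_one hd0]; exact hd
    rw [C0_Sd_lt_one z d this]
    simp
  · rfl

/-- for a rough number the weight is `lamC 1` -/
private theorem G2_LC (x z m : ℕ) (hx : 1 ≤ x) (η : ℝ) (hη : 0 < η) (hm : m ≠ 0)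
    (hr : ∀ p ∈ m.primeFactors, (x : ℝ) ^ η < p) : LC x z η 0 m = lamC x z η 0 1 := by
  unfold LC
  have h1 : (1 : ℕ) ∈ m.divisors := Nat.one_mem_divisors.2 hm
  rw [← add_sum_erase _ _ h1]
  have h2 : ∑ d ∈ m.divisors.erase 1, lamC x z η 0 d = 0 := by
    refine sum_eq_zero fun d hd => ?_
    have hd1 := ne_of_mem_erase hd
    have hdm := Nat.dvd_of_mem_divisors (mem_of_mem_erase hd)
    obtain ⟨p, hp, hpd⟩ := Nat.exists_prime_and_dvd hd1
    have hd0 : d ≠ 0 := fun h => hm (by rw [h] at hdm; exact Nat.eq_zero_of_zero_dvd hdm)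
    have hpm : p ∈ m.primeFactors := Nat.mem_primeFactors.2 ⟨hp, hpd.trans hdm, hm⟩
    have hple : (p : ℝ) ≤ d := by exact_mod_cast Nat.le_of_dvd (Nat.pos_of_ne_zero hd0) hpd
    have hlt : (x : ℝ) ^ η < d := lt_of_lt_of_le (hr p hpm) hple
    have hx1 : (1 : ℝ) ≤ x := by exact_mod_cast hx
    unfold lamC
    rw [G2_lamS_zero, G2_lamS_zero]
    · ring
    · refine lt_of_le_of_lt (Real.rpow_le_rpow_of_exponent_le hx1 ?_) hlt
      simp only [Nat.cast_zero, zero_mul]
      exact hη.le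
    · simpa using hlt
  rw [h2, add_zero]

theorem good_upper : ∃ C : ℝ, 0 < C ∧ ∀ h : Fin 4 → ℕ, Function.Injective h → ∀ S : ℝ, 0 < S →
    ∀ z₀ : ℕ, (∀ z : ℕ, z₀ ≤ z → VH h z ≤ S * Vz z ^ 4) →
    ∃ x₀ : ℕ, ∀ x : ℕ, x₀ ≤ x →
      (((Ioc x (2 * x)).filter (fun n => ∀ i, ∀ p ∈ (n + h i).primeFactors,
        (x : ℝ) ^ (1 / 252 : ℝ) < p)).card : ℝ) ≤ C * (S * (x / (Real.log x) ^ 4)) := by
  obtain ⟨η, hηd⟩ : ∃ η : ℝ, η = 1 / 252 := ⟨_, rfl⟩
  have hη : 0 < η := by rw [hηd]; norm_num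
  refine ⟨((2 * η) ^ 4 + 1) / (η / 2) ^ 8, by positivity, fun h hinj S hS z₀ hz₀ => ?_⟩
  obtain ⟨B1, hB1⟩ := sieve_int 4 h hinj 4 5 (1 / 2) (by norm_num)
  set B : ℕ := max 3 B1 with hBdef
  have hB3 : 3 ≤ B := le_max_left _ _
  obtain ⟨x1, hx1⟩ := hB1 B (le_max_right _ _)
  obtain ⟨x2, hx2⟩ := alp_le B 0 hB3 η hη (by rw [hηd]; norm_num)
  obtain ⟨x3, hx3⟩ := alp_sum_eq B 0 hB3 η hη (by rw [hηd]; norm_num) η hη
  obtain ⟨x4, hx4⟩ := eventually_atTop.1 (C4_lamS_asymp B hB3 (η / 4) (by linarith))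
  obtain ⟨x5, hx5⟩ := eventually_atTop.1 ((C1_zB_tendsto B (by omega)).eventually_ge_atTop z₀)
  obtain ⟨x6, hx6⟩ := eventually_atTop.1 (C1_zB_le_rpow B η hη)
  have ht : Tendsto (fun x : ℕ => Real.log x) atTop atTop :=
    Real.tendsto_log_atTop.comp tendsto_natCast_atTop_atTop
  obtain ⟨x7, hx7⟩ := eventually_atTop.1 (ht.eventually_ge_atTop (1 / S + 1))
  refine ⟨max x1 (max x2 (max x3 (max x4 (max x5 (max x6 (max x7 1)))))), fun x hx => ?_⟩
  simp only [max_le_iff] at hx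
  obtain ⟨k1, k2, k3, k4, k5, k6, k7, k8⟩ := hx
  have hxR : (1 : ℝ) ≤ x := by exact_mod_cast k8
  have hx0 : (0 : ℝ) < x := by linarith
  set z : ℕ := zB B x with hz
  set L : ℝ := Real.log x with hL
  have hLS := hx7 x k7
  have hL0 : 0 < L := by
    have : 0 < 1 / S := by positivity
    linarith
  have hV := Vz_pos z
  -- the weight at rough numbers
  have hlam : η / 2 ≤ lamC x z η 0 1 := by
    have a1 := hx4 x k4 η hη.le (by rw [hηd]; norm_num) 1 squarefree_one (Nat.coprime_one_left _)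
    have a2 := hx4 x k4 0 le_rfl zero_le_one 1 squarefree_one (Nat.coprime_one_left _)
    simp only [ArithmeticFunction.moebius_apply_one, Int.cast_one, Nat.cast_one, Real.log_one, zero_div, sub_zero, one_mul,
      max_eq_right hη.le, max_self] at a1 a2
    unfold lamC
    have e1 : ((0 : ℕ) : ℝ) + 1 = 1 := by norm_num
    rw [e1, one_mul, Nat.cast_zero, zero_mul]
    have b1 := (abs_le.1 a1).1
    have b2 := (abs_le.1 a2).2
    linarith
  set al : Fin 4 → ℕ → ℝ := fun _ => alp x z η 0 0 with hal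
  have key := hx1 x k1 al (fun _ => (x : ℝ) ^ ((((0 : ℕ) : ℝ) + 1 + (((0 : ℕ) : ℝ) + 1)) * η))
    (fun i => Real.one_le_rpow hxR (by positivity))
    (fun i r hr => alp_supp x z k8 η hη 0 0 r hr)
    (fun i r => by
      have := hx2 x k2 0 le_rfl 0 le_rfl r
      exact_mod_cast this)
    (by
      rw [prod_const, card_univ, Fintype.card_fin, ← Real.rpow_natCast, ← Real.rpow_mul hx0.le]
      refine Real.rpow_le_rpow_of_exponent_le hxR ?_
      rw [hηd]; norm_num)
  set R : ℕ := ⌊(x : ℝ) ^ ((((0 : ℕ) : ℝ) + 1 + (((0 : ℕ) : ℝ) + 1)) * η)⌋₊ with hR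
  have hsum := hx3 x k3 0 le_rfl R (Nat.lt_floor_add_one _)
  set G : ℝ := ∑ r ∈ Icc 1 R, alp x z η 0 0 r / r with hG
  have hG1 : Vz z * L * G ≤ 2 * η := by
    have := (abs_le.1 hsum).2
    linarith
  have hG0 : 0 ≤ Vz z * L * G := by
    have := (abs_le.1 hsum).1
    linarith
  have hprod : (∏ _i : Fin 4, G) = G ^ 4 := by
    rw [prod_const, card_univ, Fintype.card_fin]
  have hkey' : ∑ n ∈ (Ioc x (2 * x)).filter (fun n => ∀ i, Nat.Coprime (n + h i) (primorial z)),
      ∏ i, ∑ r ∈ (n + h i).divisors, al i r ≤ x * VH h z * G ^ 4 + x / L ^ 5 := by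
    have := (abs_le.1 key).2
    rw [← hprod]
    linarith
  have hmain : x * VH h z * G ^ 4 ≤ (2 * η) ^ 4 * (S * (x / L ^ 4)) := by
    have c1 : x * VH h z * G ^ 4 ≤ x * (S * Vz z ^ 4) * G ^ 4 := by
      have := hz₀ z (hx5 x k5)
      have hG4 : 0 ≤ G ^ 4 := by positivity
      gcongr
    have c2 : x * (S * Vz z ^ 4) * G ^ 4 = (Vz z * L * G) ^ 4 * (S * (x / L ^ 4)) := by
      field_simp
    have c3 : (Vz z * L * G) ^ 4 ≤ (2 * η) ^ 4 := pow_le_pow_left₀ hG0 hG1 4
    rw [c2] at c1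
    exact c1.trans (mul_le_mul_of_nonneg_right c3 (by positivity))
  have herr : x / L ^ 5 ≤ S * (x / L ^ 4) := by
    have d1 : 1 ≤ S * L := by
      have : 1 / S ≤ L := by linarith
      rw [div_le_iff₀ hS] at this
      linarith
    calc x / L ^ 5 = 1 * (x / L ^ 5) := (one_mul _).symm
      _ ≤ (S * L) * (x / L ^ 5) := mul_le_mul_of_nonneg_right d1 (by positivity)
      _ = S * (x / L ^ 4) := by field_simp
  -- lower bound of the sum by the number of rough n
  have hlow : (η / 2) ^ 8 * (((Ioc x (2 * x)).filter (fun n => ∀ i, ∀ p ∈ (n + h i).primeFactors,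
        (x : ℝ) ^ (1 / 252 : ℝ) < p)).card : ℝ) ≤
      ∑ n ∈ (Ioc x (2 * x)).filter (fun n => ∀ i, Nat.Coprime (n + h i) (primorial z)),
        ∏ i, ∑ r ∈ (n + h i).divisors, al i r := by
    have hterm : ∀ n ∈ Ioc x (2 * x), ∏ i, ∑ r ∈ (n + h i).divisors, al i r =
        ∏ i, LC x z η 0 (n + h i) ^ 2 := by
      intro n hn
      refine prod_congr rfl fun i _ => ?_
      have hn0 : n + h i ≠ 0 := by
        have := (mem_Ioc.1 hn).1
        omega
      rw [sq, LC_mul x z η 0 0 (n + h i) hn0]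
    calc (η / 2) ^ 8 * (((Ioc x (2 * x)).filter (fun n => ∀ i, ∀ p ∈ (n + h i).primeFactors,
          (x : ℝ) ^ (1 / 252 : ℝ) < p)).card : ℝ)
        = ∑ n ∈ (Ioc x (2 * x)).filter (fun n => ∀ i, ∀ p ∈ (n + h i).primeFactors,
          (x : ℝ) ^ (1 / 252 : ℝ) < p), (η / 2) ^ 8 := by
          rw [sum_const, nsmul_eq_mul, mul_comm]
      _ ≤ ∑ n ∈ (Ioc x (2 * x)).filter (fun n => ∀ i, ∀ p ∈ (n + h i).primeFactors,
          (x : ℝ) ^ (1 / 252 : ℝ) < p), ∏ i, ∑ r ∈ (n + h i).divisors, al i r := by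
          refine sum_le_sum fun n hn => ?_
          obtain ⟨hn1, hn2⟩ := mem_filter.1 hn
          rw [hterm n hn1]
          have e : ∀ i, LC x z η 0 (n + h i) = lamC x z η 0 1 := fun i => by
            have hn0 : n + h i ≠ 0 := by
              have := (mem_Ioc.1 hn1).1
              omega
            refine G2_LC x z (n + h i) k8 η hη hn0 fun p hp => ?_
            rw [hηd]
            exact hn2 i p hp
          simp only [e]
          rw [prod_const, card_univ, Fintype.card_fin, ← pow_mul]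
          exact pow_le_pow_left₀ (by positivity) hlam 8
      _ ≤ _ := by
          refine sum_le_sum_of_subset_of_nonneg ?_ ?_
          · intro n hn
            obtain ⟨hn1, hn2⟩ := mem_filter.1 hn
            refine mem_filter.2 ⟨hn1, fun i => ?_⟩
            have hn0 : n + h i ≠ 0 := by
              have := (mem_Ioc.1 hn1).1
              omega
            by_contra hcop
            obtain ⟨p, hp, hp1, hp2⟩ := Nat.Prime.not_coprime_iff_dvd.1 hcop
            have hpz : p ≤ z := (Nat.Prime.dvd_primorial_iff hp).1 hp2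
            have h3 := hn2 i p (Nat.mem_primeFactors.2 ⟨hp, hp1, hn0⟩)
            have h4 := hx6 x k6
            have h5 : (p : ℝ) ≤ z := by exact_mod_cast hpz
            rw [hηd] at h4
            linarith
          · intro n hn _
            rw [hterm n (mem_filter.1 hn).1]
            exact prod_nonneg fun i _ => sq_nonneg _
  have hfin : (η / 2) ^ 8 * (((Ioc x (2 * x)).filter (fun n => ∀ i, ∀ p ∈ (n + h i).primeFactors,
        (x : ℝ) ^ (1 / 252 : ℝ) < p)).card : ℝ) ≤ ((2 * η) ^ 4 + 1) * (S * (x / L ^ 4)) := by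
    linarith
  rw [div_mul_eq_mul_div, le_div_iff₀ (by positivity)]
  linarith

end Pool.Agent.Lib.MP_092512_nt.P3
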