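import Pool.Agent.Lib.MP_092512_nt.P3.G2

/-!
# G3: upper bound for the number of `n ≤ N` such that all four `n + h_i` have only prime factors `> N^(1/251)`

PROOF.  Dyadic decomposition down to `√N`.
-/

set_option autoImplicit false

open Finset Filter

namespace Pool.Agent.Lib.MP_092512_nt.P3

open Pool.Agent.Lib.SW

private theorem G3_step (P : ℕ → Prop) [DecidablePred P] (s N : ℕ) (c : ℝ) (hc : 0 ≤ c) (h1 : ∀ x : ℕ, s ≤ x → 1 ≤ c * x)
    (h2 : ∀ x : ℕ, s ≤ x → x ≤ N → (((Ioc x (2 * x)).filter P).card : ℝ) ≤ c * x) :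
    ∀ y : ℕ, y ≤ N → (((Icc 1 y).filter P).card : ℝ) ≤ 2 * s + 1 + 2 * c * y := by
  intro y
  induction y using Nat.strong_induction_on with
  | _ y ih =>
    intro hy
    by_cases hys : y ≤ 2 * s + 1
    · have e1 : (((Icc 1 y).filter P).card : ℝ) ≤ y := by
        have : ((Icc 1 y).filter P).card ≤ (Icc 1 y).card := card_le_card (filter_subset _ _)
        rw [Nat.card_Icc] at this
        exact_mod_cast this
      have e2 : (y : ℝ) ≤ 2 * s + 1 := by exact_mod_cast hys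
      have e3 : 0 ≤ 2 * c * y := by positivity
      linarith
    · push Not at hys
      obtain ⟨x, hx⟩ : ∃ x : ℕ, x = y / 2 := ⟨_, rfl⟩
      have hxs : s ≤ x := by omega
      have hxy : x < y := by omega
      have hxN : x ≤ N := by omega
      have hsub : (Icc 1 y).filter P ⊆ ((Icc 1 x).filter P ∪ (Ioc x (2 * x)).filter P) ∪ {y} := by
        intro n hn
        rw [mem_filter, mem_Icc] at hn
        rw [mem_union, mem_union, mem_filter, mem_filter, mem_Icc, mem_Ioc, mem_singleton]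
        obtain ⟨⟨ha, hb⟩, hP⟩ := hn
        by_cases hn1 : n ≤ x
        · exact Or.inl (Or.inl ⟨⟨ha, hn1⟩, hP⟩)
        · by_cases hn2 : n ≤ 2 * x
          · exact Or.inl (Or.inr ⟨⟨by omega, hn2⟩, hP⟩)
          · right; omega
      have hcard : (((Icc 1 y).filter P).card : ℝ) ≤
          (((Icc 1 x).filter P).card : ℝ) + (((Ioc x (2 * x)).filter P).card : ℝ) + 1 := by
        have a1 := card_le_card hsub
        have a2 := card_union_le ((Icc 1 x).filter P ∪ (Ioc x (2 * x)).filter P) {y}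
        have a3 := card_union_le ((Icc 1 x).filter P) ((Ioc x (2 * x)).filter P)
        rw [card_singleton] at a2
        have a4 : ((Icc 1 y).filter P).card ≤
            ((Icc 1 x).filter P).card + ((Ioc x (2 * x)).filter P).card + 1 := by omega
        exact_mod_cast a4
      have hih := ih x hxy hxN
      have hh2 := h2 x hxs hxN
      have hh1 := h1 x hxs
      have hxy2 : 2 * (x : ℝ) ≤ y := by
        have : 2 * x ≤ y := by omega
        exact_mod_cast this
      have : 2 * c * (2 * (x : ℝ)) ≤ 2 * c * y := by gcongr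
      linarith

theorem count_upper : ∃ C : ℝ, 0 < C ∧ ∀ h : Fin 4 → ℕ, Function.Injective h → ∀ S : ℝ, 0 < S →
    ∀ z₀ : ℕ, (∀ z : ℕ, z₀ ≤ z → VH h z ≤ S * Vz z ^ 4) →
    ∃ N₀ : ℕ, ∀ N : ℕ, N₀ ≤ N →
      (((Icc 1 N).filter (fun n => ∀ i, ∀ p ∈ (n + h i).primeFactors,
        (N : ℝ) ^ (1 / 251 : ℝ) < p)).card : ℝ) ≤ C * (S * (N / (Real.log N) ^ 4)) := by
  obtain ⟨C, hC, H⟩ := good_upper
  refine ⟨48 * C, by positivity, fun h hinj S hS z₀ hz₀ => ?_⟩
  obtain ⟨x₀, hx₀⟩ := H h hinj S hS z₀ hz₀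
  have hlo := (isLittleO_log_rpow_rpow_atTop (4 : ℝ) (show (0 : ℝ) < 1 / 2 by norm_num)).bound
    (c := 16 * C * S / 5) (by positivity)
  obtain ⟨N1, hN1⟩ := eventually_atTop.1 (tendsto_natCast_atTop_atTop.eventually hlo)
  refine ⟨max N1 (max (x₀ ^ 2) 3), fun N hN => ?_⟩
  simp only [max_le_iff] at hN
  obtain ⟨k1, k2, k3⟩ := hN
  have hN3 : (3 : ℝ) ≤ N := by exact_mod_cast k3
  have hN0 : (0 : ℝ) < N := by linarith
  set L : ℝ := Real.log N with hL
  have hL0 : 0 < L := Real.log_pos (by linarith)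
  set c : ℝ := 16 * C * S / L ^ 4 with hc
  have hc0 : 0 < c := by positivity
  set s : ℕ := Nat.sqrt N + 1 with hs
  set w : ℝ := (N : ℝ) ^ (1 / 2 : ℝ) with hw
  have hw0 : 0 < w := Real.rpow_pos_of_pos hN0 _
  have hww : w * w = N := by
    rw [hw, ← Real.rpow_add hN0]; norm_num
  have hw1 : 1 ≤ w := Real.one_le_rpow (by linarith) (by norm_num)
  have hcw : 5 ≤ c * w := by
    have h5 := hN1 N k1
    rw [Real.norm_of_nonneg (Real.rpow_nonneg hL0.le _), Real.norm_of_nonneg hw0.le,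
      show (4 : ℝ) = ((4 : ℕ) : ℝ) by norm_num, Real.rpow_natCast] at h5
    rw [hc, div_mul_eq_mul_div, le_div_iff₀ (by positivity)]
    have h6 : Real.log (N : ℝ) ^ 4 ≤ 16 * C * S / 5 * w := h5
    have h7 : L ^ 4 ≤ 16 * C * S / 5 * w := h6
    linarith
  have hsw : w ≤ s := by
    have h6 : N < s * s := Nat.lt_succ_sqrt N
    have h7 : w * w ≤ (s : ℝ) * s := by
      rw [hww]; exact_mod_cast h6.le
    nlinarith
  have hsw' : (s : ℝ) ≤ w + 1 := by
    have h6 : Nat.sqrt N * Nat.sqrt N ≤ N := Nat.sqrt_le N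
    have h7 : (Nat.sqrt N : ℝ) * Nat.sqrt N ≤ w * w := by rw [hww]; exact_mod_cast h6
    have h8 : (Nat.sqrt N : ℝ) ≤ w := by
      by_contra hcon
      push Not at hcon
      nlinarith
    rw [hs]; push_cast; linarith
  have hsx : x₀ ≤ s := by
    have : x₀ ≤ Nat.sqrt N := Nat.le_sqrt'.2 k2
    omega
  have h1 : ∀ x : ℕ, s ≤ x → 1 ≤ c * x := by
    intro x hx
    have : w ≤ x := hsw.trans (by exact_mod_cast hx)
    have h2 : c * w ≤ c * x := mul_le_mul_of_nonneg_left this hc0.le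
    linarith
  have h2 : ∀ x : ℕ, s ≤ x → x ≤ N → (((Ioc x (2 * x)).filter (fun n => ∀ i, ∀ p ∈ (n + h i).primeFactors,
        (N : ℝ) ^ (1 / 251 : ℝ) < p)).card : ℝ) ≤ c * x := by
    intro x hx hxN
    have hxw : w ≤ x := hsw.trans (by exact_mod_cast hx)
    have hx0 : (0 : ℝ) < x := by linarith
    have hx1 : (1 : ℝ) ≤ x := by linarith
    have hxN' : (x : ℝ) ≤ N := by exact_mod_cast hxN
    have hlog : L / 2 ≤ Real.log x := by
      have : Real.log w ≤ Real.log x := Real.log_le_log hw0 hxw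
      rw [hw, Real.log_rpow hN0] at this
      rw [hL]; linarith
    have hpow : (x : ℝ) ^ (1 / 252 : ℝ) ≤ (N : ℝ) ^ (1 / 251 : ℝ) :=
      calc (x : ℝ) ^ (1 / 252 : ℝ) ≤ (N : ℝ) ^ (1 / 252 : ℝ) :=
            Real.rpow_le_rpow hx0.le hxN' (by norm_num)
        _ ≤ (N : ℝ) ^ (1 / 251 : ℝ) := Real.rpow_le_rpow_of_exponent_le (by linarith) (by norm_num)
    have hb := hx₀ x (hsx.trans hx)
    have hcard : (((Ioc x (2 * x)).filter (fun n => ∀ i, ∀ p ∈ (n + h i).primeFactors,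
        (N : ℝ) ^ (1 / 251 : ℝ) < p)).card : ℝ) ≤
        (((Ioc x (2 * x)).filter (fun n => ∀ i, ∀ p ∈ (n + h i).primeFactors,
        (x : ℝ) ^ (1 / 252 : ℝ) < p)).card : ℝ) := by
      have : ((Ioc x (2 * x)).filter (fun n => ∀ i, ∀ p ∈ (n + h i).primeFactors,
        (N : ℝ) ^ (1 / 251 : ℝ) < p)).card ≤ ((Ioc x (2 * x)).filter (fun n => ∀ i, ∀ p ∈ (n + h i).primeFactors,
        (x : ℝ) ^ (1 / 252 : ℝ) < p)).card := by
        refine card_le_card fun n hn => ?_
        rw [mem_filter] at hn ⊢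
        exact ⟨hn.1, fun i p hp => lt_of_le_of_lt hpow (hn.2 i p hp)⟩
      exact_mod_cast this
    refine hcard.trans (hb.trans ?_)
    have hlx0 : 0 < Real.log x := lt_of_lt_of_le (by positivity) hlog
    have h4 : (L / 2) ^ 4 ≤ Real.log x ^ 4 := pow_le_pow_left₀ (by positivity) hlog 4
    calc C * (S * (x / Real.log x ^ 4)) ≤ C * (S * (x / (L / 2) ^ 4)) := by
          gcongr
      _ = c * x := by rw [hc]; field_simp; norm_num
  have hfin := G3_step _ s N c hc0.le h1 h2 N le_rfl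
  refine hfin.trans ?_
  have e1 : c * N = c * w * w := by rw [← hww]; ring
  have e2 : 5 * w ≤ c * w * w := mul_le_mul_of_nonneg_right hcw hw0.le
  have e3 : 48 * C * (S * (N / L ^ 4)) = 3 * (c * N) := by rw [hc]; field_simp; norm_num
  rw [e3]
  linarith

end Pool.Agent.Lib.MP_092512_nt.P3
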