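import Pool.Agent.Lib.MP_092512_nt.P3.F8
import Pool.Agent.Lib.MP_092512_nt.P3.G3

/-!
# G4: the theorem with absolute constants, relative to the singular series
-/

set_option autoImplicit false

open Finset Filter

namespace Pool.Agent.Lib.MP_092512_nt.P3

open Pool.Agent.Lib.SW

open Classical in
theorem quadruples_sing : ∃ c C : ℝ, 0 < c ∧ 0 < C ∧ ∀ h : Fin 4 → ℕ, Function.Injective h →
    (∀ p : ℕ, p.Prime → nuh h univ p < p) →
    ∃ S : ℝ, 0 < S ∧ Tendsto (SgR h) atTop (nhds S) ∧ ∃ N₀ : ℕ, ∀ N : ℕ, N₀ ≤ N →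
      c * S * (N / (Real.log N) ^ 4) ≤ (((Icc 1 N).filter (fun n => ∀ i, Squarefree (n + h i) ∧
        (n + h i).primeFactors.card ≤ 3 ∧
          ∀ p ∈ (n + h i).primeFactors, (N : ℝ) ^ (1 / 251 : ℝ) < p)).card : ℝ) ∧
      (((Icc 1 N).filter (fun n => ∀ i, ∀ p ∈ (n + h i).primeFactors,
        (N : ℝ) ^ (1 / 251 : ℝ) < p)).card : ℝ) ≤ C * S * (N / (Real.log N) ^ 4) := by
  obtain ⟨c, hc, HL⟩ := quadruples_abs
  obtain ⟨C, hC, HU⟩ := count_upper
  refine ⟨c / 2, 2 * C, by positivity, by positivity, fun h hinj hadm => ?_⟩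
  obtain ⟨S, hS, hlim⟩ := sing h hinj hadm
  refine ⟨S, hS, hlim, ?_⟩
  obtain ⟨z1, hz1⟩ := eventually_atTop.1 (hlim.eventually (lt_mem_nhds (show S / 2 < S by linarith)))
  obtain ⟨z2, hz2⟩ := eventually_atTop.1 (hlim.eventually (gt_mem_nhds (show S < 2 * S by linarith)))
  obtain ⟨N1, hN1⟩ := HL h hinj (S / 2) (by positivity) z1 (fun z hz => by
    rw [VH_SgR]
    exact mul_le_mul_of_nonneg_right (hz1 z hz).le (pow_nonneg (Vz_pos z).le 4))
  obtain ⟨N2, hN2⟩ := HU h hinj (2 * S) (by positivity) z2 (fun z hz => by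
    rw [VH_SgR]
    exact mul_le_mul_of_nonneg_right (hz2 z hz).le (pow_nonneg (Vz_pos z).le 4))
  refine ⟨max N1 N2, fun N hN => ⟨?_, ?_⟩⟩
  · have := hN1 N ((le_max_left _ _).trans hN)
    have e : c / 2 * S * (N / (Real.log N) ^ 4) = S / 2 * c * (N / (Real.log N) ^ 4) := by ring
    rw [e]
    exact this
  · have := hN2 N ((le_max_right _ _).trans hN)
    have e : 2 * C * S * (N / (Real.log N) ^ 4) = C * (2 * S * (N / (Real.log N) ^ 4)) := by ring
    rw [e]
    refine le_trans (le_of_eq ?_) this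
    refine congrArg (fun s : Finset ℕ => ((s.card : ℕ) : ℝ)) ?_
    ext n
    simp only [mem_filter]

end Pool.Agent.Lib.MP_092512_nt.P3
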