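import Pool.Agent.Lib.MP_092512_nt.P3.LevC
import Pool.Agent.Lib.MP_092512_nt.P3.C4

/-!
# P3-Lev: part A of the interface, level of distribution of the weighted minorant
-/

set_option autoImplicit false

open Finset

namespace Pool.Agent.Lib.MP_092512_nt.P3

open Pool.Agent.Lib.SW

theorem level_ew (h0 jm B : ℕ) (hB : 3 ≤ B) (η δ θ : ℝ) (hη : 0 < η) (hjm : ((jm : ℝ) + 1) * η ≤ 1 / 3)
    (hδ : 0 < δ) (hθ : θ < 1) (A K : ℕ) (ε : ℝ) (hε : 0 < ε) :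
    ∃ x₀ : ℕ, ∀ x : ℕ, x₀ ≤ x → ∀ j ≤ jm, ∀ j' ≤ jm,
      LevelBd (fun m => if x + h0 < m ∧ m ≤ 2 * x + h0 then
          ew x δ θ m * (LC x (zB B x) η j m * LC x (zB B x) η j' m) else 0)
        (3 * x) ⌊(x : ℝ) ^ (1 / 2 - ε)⌋₊ K (x / (Real.log x) ^ A) :=
  LevC_main h0 jm B η δ θ hη hjm hδ hθ A K ε hε (lamC_le B jm hB η hη (by linarith))

end Pool.Agent.Lib.MP_092512_nt.P3
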