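import Pool.Agent.Lib.MP_092512_nt.P3.Defs
import Pool.Agent.Lib.BV.Defs

/-!
# P3-LevA: support of the Selberg weights, value at a prime times a small number; linearity of the error
-/

set_option autoImplicit false

open Finset

namespace Pool.Agent.Lib.MP_092512_nt.P3

open Pool.Agent.Lib.BV

theorem LevA_Sd_zero (z d : ℕ) (Y : ℝ) (hY : Y < 1) : Sd z d Y = 0 := by
  unfold Sd
  rw [Nat.floor_eq_zero.mpr hY]
  simp

theorem LevA_lamS_zero (x z : ℕ) (ρ : ℝ) (d : ℕ) (h : (x : ℝ) ^ ρ < d) : lamS x z ρ d = 0 := by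
  unfold lamS
  split_ifs with h1
  · have h2 : (0 : ℝ) < d := lt_of_le_of_lt (by positivity) h
    rw [LevA_Sd_zero z d _ ((div_lt_one h2).mpr h)]
    simp
  · rfl

theorem LevA_lamC_zero (x z : ℕ) (hx : 1 ≤ x) (η : ℝ) (hη : 0 < η) (j d : ℕ)
    (h : (x : ℝ) ^ (((j : ℝ) + 1) * η) < d) : lamC x z η j d = 0 := by
  have hx1 : (1 : ℝ) ≤ x := by exact_mod_cast hx
  unfold lamC
  rw [LevA_lamS_zero x z _ d h, LevA_lamS_zero x z _ d ?_, sub_zero]
  refine lt_of_le_of_lt (Real.rpow_le_rpow_of_exponent_le hx1 ?_) h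
  nlinarith

theorem LevA_LC_prime (x z : ℕ) (hx : 1 ≤ x) (η : ℝ) (hη : 0 < η) (j m : ℕ) (hm : m.Prime)
    (h : (x : ℝ) ^ (((j : ℝ) + 1) * η) < m) : LC x z η j m = lamC x z η j 1 := by
  unfold LC
  rw [hm.sum_divisors, LevA_lamC_zero x z hx η hη j m h, zero_add]

theorem LevA_LC_mul (x z : ℕ) (hx : 1 ≤ x) (η : ℝ) (hη : 0 < η) (j a b : ℕ) (ha : a ≠ 0)
    (hb : b.Prime) (h : (x : ℝ) ^ (((j : ℝ) + 1) * η) < b) : LC x z η j (a * b) = LC x z η j a := by
  unfold LC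
  symm
  apply sum_subset
  · exact Nat.divisors_subset_of_dvd (Nat.mul_ne_zero ha hb.ne_zero) (Dvd.intro b rfl)
  · intro d hd hda
    rw [Nat.mem_divisors] at hd hda
    have h1 : b ∣ d := by
      by_contra h2
      have h3 : Nat.Coprime d b := ((Nat.Prime.coprime_iff_not_dvd hb).mpr h2).symm
      exact hda ⟨h3.dvd_of_dvd_mul_right hd.1, ha⟩
    have hd0 : d ≠ 0 := by
      rintro rfl
      exact hd.2 (Nat.eq_zero_of_zero_dvd hd.1)
    have h4 : (b : ℝ) ≤ d := by exact_mod_cast Nat.le_of_dvd (Nat.pos_of_ne_zero hd0) h1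
    exact LevA_lamC_zero x z hx η hη j d (h.trans_le h4)

/-! ### linearity of the error -/

theorem LevA_EE_congr (F G : ℕ → ℝ) (X q a : ℕ) (h : ∀ n ∈ Icc 1 X, F n = G n) :
    EE F X q a = EE G X q a := by
  unfold EE
  rw [sum_congr rfl fun n hn => h n (mem_filter.mp hn).1,
    sum_congr rfl fun n hn => h n (mem_filter.mp hn).1]

theorem LevA_EE_add (F G : ℕ → ℝ) (X q a : ℕ) :
    EE (fun n => F n + G n) X q a = EE F X q a + EE G X q a := by
  unfold EE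
  rw [sum_add_distrib, sum_add_distrib]
  ring

theorem LevA_EE_sub (F G : ℕ → ℝ) (X q a : ℕ) :
    EE (fun n => F n - G n) X q a = EE F X q a - EE G X q a := by
  unfold EE
  rw [sum_sub_distrib, sum_sub_distrib]
  ring

theorem LevA_EE_mul (c : ℝ) (F : ℕ → ℝ) (X q a : ℕ) :
    EE (fun n => c * F n) X q a = c * EE F X q a := by
  unfold EE
  rw [← mul_sum, ← mul_sum]
  ring

theorem LevA_EE_cut (F : ℕ → ℝ) (X Y q a : ℕ) (hY : Y ≤ X) :
    EE (fun n => if n ≤ Y then F n else 0) X q a = EE F Y q a := by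
  have key : ∀ P : ℕ → Prop, ∀ _ : DecidablePred P,
      ∑ n ∈ (Icc 1 X).filter P, (if n ≤ Y then F n else 0) = ∑ n ∈ (Icc 1 Y).filter P, F n := by
    intro P _
    rw [← sum_filter, filter_filter]
    apply sum_congr _ (fun _ _ => rfl)
    ext n
    simp only [mem_filter, mem_Icc]
    constructor
    · rintro ⟨h1, h2, h3⟩
      exact ⟨⟨h1.1, h3⟩, h2⟩
    · rintro ⟨h1, h2⟩
      exact ⟨⟨h1.1, h1.2.trans hY⟩, h2, h1.2⟩
  unfold EE
  rw [key, key]

theorem LevA_EE_Ioc (F : ℕ → ℝ) (X Y1 Y2 q a : ℕ) (h1 : Y1 ≤ Y2) (h2 : Y2 ≤ X) :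
    EE (fun n => if Y1 < n ∧ n ≤ Y2 then F n else 0) X q a = EE F Y2 q a - EE F Y1 q a := by
  rw [← LevA_EE_cut F X Y2 q a h2, ← LevA_EE_cut F X Y1 q a (h1.trans h2), ← LevA_EE_sub]
  apply LevA_EE_congr
  intro n _
  by_cases h3 : n ≤ Y1
  · rw [if_neg (by omega), if_pos (h3.trans h1), if_pos h3, sub_self]
  · by_cases h4 : n ≤ Y2
    · rw [if_pos ⟨by omega, h4⟩, if_pos h4, if_neg h3, sub_zero]
    · rw [if_neg (by omega), if_neg h4, if_neg h3, sub_zero]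

theorem LevA_disc (F : ℕ → ℝ) (X q l : ℕ) : disc F X q l = EE F X q l := rfl

end Pool.Agent.Lib.MP_092512_nt.P3
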