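import Pool.Agent.Lib.MP_092512_nt.P3.LevA

/-!
# P3-LevB: the set `Aset`, and the decomposition of the weighted function
-/

set_option autoImplicit false

open Finset

namespace Pool.Agent.Lib.MP_092512_nt.P3

open Pool.Agent.Lib.BV

theorem LevB_ne_zero {x : ℕ} {δ θ : ℝ} {a : ℕ} (h : Aset x δ θ a) : a ≠ 0 := by
  rintro rfl
  have := h.2.1
  simp at this

theorem LevB_gt {x : ℕ} {δ θ : ℝ} {a : ℕ} (h : Aset x δ θ a) : (x : ℝ) ^ δ < a := by
  obtain ⟨p, hp⟩ := card_pos.mp (Nat.lt_of_lt_of_le Nat.zero_lt_one h.2.1)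
  have h1 := (h.2.2.2 p hp).1
  have h2 : (p : ℝ) ≤ a := by
    exact_mod_cast Nat.le_of_dvd (Nat.pos_of_ne_zero (LevB_ne_zero h)) (Nat.dvd_of_mem_primeFactors hp)
  exact h1.trans_le h2

/-- some prime factor `p` of `a` has `a ≤ p ^ 2` -/
theorem LevB_big {x : ℕ} {δ θ : ℝ} {a : ℕ} (h : Aset x δ θ a) :
    ∃ p ∈ a.primeFactors, a ≤ p ^ 2 := by
  have h0 := Nat.prod_primeFactors_of_squarefree h.1
  have hc : a.primeFactors.card = 1 ∨ a.primeFactors.card = 2 := by
    have h1 := h.2.1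
    have h2 := h.2.2.1
    omega
  rcases hc with hc | hc
  · obtain ⟨p, hp⟩ := card_eq_one.mp hc
    rw [hp, prod_singleton] at h0
    have hp' : p ∈ a.primeFactors := by rw [hp]; simp
    refine ⟨p, hp', ?_⟩
    rw [← h0]
    have := (Nat.prime_of_mem_primeFactors hp').one_lt
    nlinarith
  · obtain ⟨p, q, hpq, hp⟩ := card_eq_two.mp hc
    rw [hp, prod_pair hpq] at h0
    have hp' : p ∈ a.primeFactors := by rw [hp]; simp
    have hq' : q ∈ a.primeFactors := by rw [hp]; simp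
    rcases le_total p q with h1 | h1
    · refine ⟨q, hq', ?_⟩
      rw [← h0, pow_two]
      exact Nat.mul_le_mul_right q h1
    · refine ⟨p, hp', ?_⟩
      rw [← h0, pow_two]
      exact Nat.mul_le_mul_left p h1

theorem LevB_le {x : ℕ} (hx : 1 ≤ x) {δ θ : ℝ} {a : ℕ} (h : Aset x δ θ a) :
    (a : ℝ) ≤ (x : ℝ) ^ (2 / 3 * θ) := by
  obtain ⟨p, hp, h1⟩ := LevB_big h
  have h2 := (h.2.2.2 p hp).2
  have ha0 : (0 : ℝ) < a := by exact_mod_cast Nat.pos_of_ne_zero (LevB_ne_zero h)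
  have hx0 : (0 : ℝ) < x := by exact_mod_cast hx
  have h3 : (a : ℝ) ≤ (p : ℝ) ^ 2 := by exact_mod_cast h1
  have h4 : (a : ℝ) ^ 3 ≤ ((x : ℝ) ^ θ) ^ 2 := by
    have h5 : ((a : ℝ) * p) ^ 2 ≤ ((x : ℝ) ^ θ) ^ 2 := pow_le_pow_left₀ (by positivity) h2 2
    nlinarith [mul_le_mul_of_nonneg_left h3 (by positivity : (0 : ℝ) ≤ (a : ℝ) ^ 2)]
  have h5 : ((x : ℝ) ^ θ) ^ 2 = ((x : ℝ) ^ (2 / 3 * θ)) ^ 3 := by
    rw [← Real.rpow_natCast, ← Real.rpow_natCast, ← Real.rpow_mul hx0.le, ← Real.rpow_mul hx0.le]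
    congr 1
    push_cast
    ring
  rw [h5] at h4
  exact le_of_pow_le_pow_left₀ (by norm_num) (by positivity) h4

theorem LevB_le_two_thirds {x : ℕ} (hx : 1 ≤ x) {δ θ : ℝ} (hθ : θ < 1) {a : ℕ} (h : Aset x δ θ a) :
    (a : ℝ) ≤ (x : ℝ) ^ (2 / 3 : ℝ) := by
  have hx1 : (1 : ℝ) ≤ x := by exact_mod_cast hx
  exact (LevB_le hx h).trans (Real.rpow_le_rpow_of_exponent_le hx1 (by linarith))

theorem LevB_card {x : ℕ} {δ θ : ℝ} {a : ℕ} (h : Aset x δ θ a) : a.divisors.card ≤ 4 := by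
  rw [Nat.card_divisors (LevB_ne_zero h)]
  have h1 : ∏ p ∈ a.primeFactors, (a.factorization p + 1) ≤ ∏ p ∈ a.primeFactors, 2 := by
    refine prod_le_prod (fun _ _ => Nat.zero_le _) fun p _ => ?_
    have := h.1.natFactorization_le_one p
    omega
  refine h1.trans ?_
  rw [prod_const]
  calc 2 ^ a.primeFactors.card ≤ 2 ^ 2 := Nat.pow_le_pow_right (by norm_num) h.2.2.1
    _ = 4 := by norm_num

theorem LevB_LC {x z : ℕ} {δ θ η : ℝ} {j a : ℕ} (h : Aset x δ θ a)
    (hl : ∀ d, |lamC x z η j d| ≤ 2) : |LC x z η j a| ≤ 8 := by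
  unfold LC
  refine (abs_sum_le_sum_abs _ _).trans ?_
  refine (sum_le_card_nsmul _ _ 2 fun d _ => hl d).trans ?_
  rw [nsmul_eq_mul]
  have h1 : (a.divisors.card : ℝ) ≤ 4 := by exact_mod_cast LevB_card h
  linarith

open Classical in
/-- the coefficient of the bilinear part -/
noncomputable def gL (x z : ℕ) (η δ θ : ℝ) (j j' : ℕ) (a : ℕ) : ℝ :=
  if Aset x δ θ a then LC x z η j a * LC x z η j' a / Real.log (3 * x / (a : ℝ)) else 0

theorem LevB_FB (g : ℕ → ℝ) (Y n : ℕ) (hn : 1 ≤ n) : FB g (fun a => Y / a) n =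
    if n ≤ Y then ∑ p ∈ n.primeFactors, g (n / p) * Real.log p else 0 := by
  unfold FB
  have key : ∀ p ∈ n.primeFactors, (p ≤ Y / (n / p) ↔ n ≤ Y) := by
    intro p hp
    have h1 := Nat.dvd_of_mem_primeFactors hp
    have h2 : 0 < n / p := Nat.div_pos (Nat.le_of_dvd (by omega) h1)
      (Nat.prime_of_mem_primeFactors hp).pos
    rw [Nat.le_div_iff_mul_le h2, Nat.mul_div_cancel' h1]
  split_ifs with h
  · rw [filter_true_of_mem]
    intro p hp
    exact (key p hp).mpr h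
  · rw [filter_false_of_mem, sum_empty]
    intro p hp h1
    exact h ((key p hp).mp h1)

/-- the function of `level_ew` is a prime part and a bilinear part -/
theorem LevB_decomp (h0 x z : ℕ) (hx : 2 ≤ x) (hx0 : h0 ≤ x) (η δ θ : ℝ) (hη : 0 < η)
    (hθ : θ < 1) (j j' : ℕ) (hj : ((j : ℝ) + 1) * η ≤ 1 / 3) (hj' : ((j' : ℝ) + 1) * η ≤ 1 / 3)
    (n : ℕ) (hn : n ∈ Icc 1 (3 * x)) :
    (if x + h0 < n ∧ n ≤ 2 * x + h0 then
        ew x δ θ n * (LC x z η j n * LC x z η j' n) else 0) =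
      (lamC x z η j 1 * lamC x z η j' 1 / Real.log (3 * x)) *
          (if x + h0 < n ∧ n ≤ 2 * x + h0 then th n else 0) +
        (FB (gL x z η δ θ j j') (fun a => (2 * x + h0) / a) n -
          FB (gL x z η δ θ j j') (fun a => (x + h0) / a) n) := by
  classical
  rw [mem_Icc] at hn
  rw [LevB_FB _ _ n hn.1, LevB_FB _ _ n hn.1]
  have hx1 : (1 : ℝ) < x := by exact_mod_cast (by omega : 1 < x)
  by_cases hI : x + h0 < n ∧ n ≤ 2 * x + h0
  · rw [if_pos hI, if_pos hI, if_pos hI.2, if_neg (by omega), sub_zero]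
    have hxn : (x : ℝ) < n := by exact_mod_cast (by omega : x < n)
    have hpow : ∀ i : ℕ, ((i : ℝ) + 1) * η ≤ 1 / 3 → (x : ℝ) ^ (((i : ℝ) + 1) * η) ≤
        (x : ℝ) ^ (1 / 3 : ℝ) := fun i hi => Real.rpow_le_rpow_of_exponent_le hx1.le hi
    have hx13 : (x : ℝ) ^ (1 / 3 : ℝ) ≤ x := by
      calc (x : ℝ) ^ (1 / 3 : ℝ) ≤ (x : ℝ) ^ (1 : ℝ) :=
            Real.rpow_le_rpow_of_exponent_le hx1.le (by norm_num)
        _ = x := Real.rpow_one _
    unfold ew
    rw [add_mul]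
    congr 1
    · unfold th
      split_ifs with hp
      · rw [LevA_LC_prime x z (by omega) η hη j n hp (((hpow j hj).trans hx13).trans_lt hxn),
          LevA_LC_prime x z (by omega) η hη j' n hp (((hpow j' hj').trans hx13).trans_lt hxn)]
        ring
      · ring
    · rw [sum_mul, sum_filter]
      refine sum_congr rfl fun b hb => ?_
      unfold gL
      split_ifs with hA
      · have hbp := Nat.prime_of_mem_primeFactors hb
        have hbn := Nat.dvd_of_mem_primeFactors hb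
        have hab : n / b * b = n := Nat.div_mul_cancel hbn
        have ha0 := LevB_ne_zero hA
        have ha1 : (0 : ℝ) < ((n / b : ℕ) : ℝ) := by exact_mod_cast Nat.pos_of_ne_zero ha0
        have h1 := LevB_le_two_thirds (by omega) hθ hA
        have h2 : (x : ℝ) ^ (1 / 3 : ℝ) < b := by
          have h3 : (x : ℝ) < ((n / b : ℕ) : ℝ) * b := by
            rw [← Nat.cast_mul, hab]
            exact hxn
          have h4 : (x : ℝ) = (x : ℝ) ^ (2 / 3 : ℝ) * (x : ℝ) ^ (1 / 3 : ℝ) := by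
            rw [← Real.rpow_add (by linarith)]
            norm_num
          by_contra h5
          push Not at h5
          have h6 : ((n / b : ℕ) : ℝ) * b ≤ (x : ℝ) ^ (2 / 3 : ℝ) * (x : ℝ) ^ (1 / 3 : ℝ) :=
            mul_le_mul h1 h5 (by positivity) (by positivity)
          linarith
        have e1 : ∀ i : ℕ, ((i : ℝ) + 1) * η ≤ 1 / 3 → LC x z η i n = LC x z η i (n / b) := by
          intro i hi
          conv_lhs => rw [← hab]
          exact LevA_LC_mul x z (by omega) η hη i (n / b) b ha0 hbp ((hpow i hi).trans_lt h2)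
        rw [e1 j hj, e1 j' hj']
        ring
      · ring
  · rw [if_neg hI, if_neg hI, mul_zero, zero_add]
    by_cases h3 : n ≤ x + h0
    · rw [if_pos (by omega), if_pos h3, sub_self]
    · rw [if_neg (by omega), if_neg h3, sub_self]

end Pool.Agent.Lib.MP_092512_nt.P3
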