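import Pool.Agent.Lib.MP_092512_nt.P3.LevB
import Pool.Agent.Lib.BV.Main

/-!
# P3-LevC: level of distribution of the weighted minorant, given `|lamC| ≤ 2`
-/

set_option autoImplicit false

open Finset

namespace Pool.Agent.Lib.MP_092512_nt.P3

open Pool.Agent.Lib.BV Pool.Agent.Lib.SW

theorem LevC_Q {x Y : ℕ} {ε : ℝ} (hx : 2 ≤ x) (hY : x ≤ Y) :
    ((⌊(x : ℝ) ^ (1 / 2 - ε)⌋₊ : ℕ) : ℝ) ≤ (Y : ℝ) ^ (1 / 2 - ε) := by
  have hx1 : (1 : ℝ) < x := by exact_mod_cast (by omega : 1 < x)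
  have hxY : (x : ℝ) ≤ Y := by exact_mod_cast hY
  rcases le_or_gt 0 (1 / 2 - ε) with h | h
  · exact (Nat.floor_le (by positivity)).trans (Real.rpow_le_rpow (by linarith) hxY h)
  · rw [Nat.floor_eq_zero.mpr (Real.rpow_lt_one_of_one_lt_of_neg hx1 h), Nat.cast_zero]
    exact Real.rpow_nonneg (Nat.cast_nonneg _) _

/-- `|gL| ≤ 64` and the support of `gL` -/
theorem LevC_gL {x z : ℕ} {η δ θ : ℝ} {j j' : ℕ} (hx : 1 ≤ x) (hθ : θ < 1)
    (hl : ∀ d, |lamC x z η j d| ≤ 2) (hl' : ∀ d, |lamC x z η j' d| ≤ 2) (a : ℕ) :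
    |gL x z η δ θ j j' a| ≤ 64 := by
  unfold gL
  split_ifs with h
  · have ha0 : (0 : ℝ) < a := by exact_mod_cast Nat.pos_of_ne_zero (LevB_ne_zero h)
    have hx0 : (0 : ℝ) < x := by exact_mod_cast hx
    have hx1 : (1 : ℝ) ≤ x := by exact_mod_cast hx
    have h1 : (a : ℝ) ≤ x := by
      refine (LevB_le_two_thirds hx hθ h).trans ?_
      calc (x : ℝ) ^ (2 / 3 : ℝ) ≤ (x : ℝ) ^ (1 : ℝ) :=
            Real.rpow_le_rpow_of_exponent_le hx1 (by norm_num)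
        _ = x := Real.rpow_one _
    have h2 : 1 ≤ Real.log (3 * x / (a : ℝ)) := by
      rw [Real.le_log_iff_exp_le (by positivity), le_div_iff₀ ha0]
      have := Real.exp_one_lt_three
      nlinarith
    rw [abs_div, abs_mul, abs_of_pos (by linarith : 0 < Real.log (3 * x / (a : ℝ)))]
    rw [div_le_iff₀ (by linarith)]
    have h3 := LevB_LC h hl
    have h4 := LevB_LC h hl'
    have h5 : |LC x z η j a| * |LC x z η j' a| ≤ 8 * 8 :=
      mul_le_mul h3 h4 (abs_nonneg _) (by norm_num)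
    linarith
  · simp

theorem LevC_supp {x z : ℕ} {η δ θ : ℝ} {j j' : ℕ} (hx : 3 ≤ x) (hθ : θ < 1) (hδ : 0 < δ)
    {δ' : ℝ} (h1 : δ' ≤ δ / 2) (h2 : δ' ≤ 1 / 3) (a : ℕ)
    (ha : gL x z η δ θ j j' a ≠ 0) :
    ((3 * x : ℕ) : ℝ) ^ δ' ≤ a ∧ (a : ℝ) ≤ ((3 * x : ℕ) : ℝ) ^ (1 - δ') := by
  have h : Aset x δ θ a := by
    by_contra h
    exact ha (by unfold gL; rw [if_neg h])
  have hx3 : (3 : ℝ) ≤ x := by exact_mod_cast hx
  push_cast
  constructor
  · refine le_trans ?_ (LevB_gt h).le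
    calc (3 * (x : ℝ)) ^ δ' ≤ (3 * (x : ℝ)) ^ (δ / 2) :=
          Real.rpow_le_rpow_of_exponent_le (by linarith) h1
      _ ≤ ((x : ℝ) * x) ^ (δ / 2) := Real.rpow_le_rpow (by positivity) (by nlinarith) (by positivity)
      _ = (x : ℝ) ^ δ := by
          rw [Real.mul_rpow (by positivity) (by positivity), ← Real.rpow_add (by linarith)]
          congr 1
          ring
  · refine (LevB_le_two_thirds (by omega) hθ h).trans ?_
    calc (x : ℝ) ^ (2 / 3 : ℝ) ≤ (3 * (x : ℝ)) ^ (2 / 3 : ℝ) :=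
          Real.rpow_le_rpow (by positivity) (by linarith) (by norm_num)
      _ ≤ _ := Real.rpow_le_rpow_of_exponent_le (by linarith) (by linarith)

theorem LevC_main (h0 jm B : ℕ) (η δ θ : ℝ) (hη : 0 < η) (hjm : ((jm : ℝ) + 1) * η ≤ 1 / 3)
    (hδ : 0 < δ) (hθ : θ < 1) (A K : ℕ) (ε : ℝ) (hε : 0 < ε)
    (hlam : ∃ x₀ : ℕ, ∀ x : ℕ, x₀ ≤ x → ∀ j ≤ jm, ∀ d : ℕ, |lamC x (zB B x) η j d| ≤ 2) :
    ∃ x₀ : ℕ, ∀ x : ℕ, x₀ ≤ x → ∀ j ≤ jm, ∀ j' ≤ jm,
      LevelBd (fun m => if x + h0 < m ∧ m ≤ 2 * x + h0 then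
          ew x δ θ m * (LC x (zB B x) η j m * LC x (zB B x) η j' m) else 0)
        (3 * x) ⌊(x : ℝ) ^ (1 / 2 - ε)⌋₊ K (x / (Real.log x) ^ A) := by
  obtain ⟨x1, hx1⟩ := hlam
  set δ' : ℝ := min (δ / 2) (1 / 3) with hδ'
  have hδ'0 : 0 < δ' := lt_min (by positivity) (by norm_num)
  obtain ⟨x2, hx2⟩ := bvp (A + 1) K ε hε
  obtain ⟨x3, hx3⟩ := bvb (A + 1) K ε δ' hε hδ'0
  obtain ⟨x4, hx4⟩ := exists_nat_ge (Real.exp 408)
  refine ⟨max 3 (max h0 (max x1 (max x2 (max x3 x4)))), fun x hx j hj j' hj' => ?_⟩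
  simp only [max_le_iff] at hx
  obtain ⟨hxa, hxb, hxc, hxd, hxe, hxf⟩ := hx
  have hx0 : (0 : ℝ) < x := by exact_mod_cast (by omega : 0 < x)
  set z := zB B x with hz
  have hl := hx1 x hxc j hj
  have hl' := hx1 x hxc j' hj'
  have hjr : ((j : ℝ) + 1) * η ≤ 1 / 3 := by
    have : (j : ℝ) ≤ jm := by exact_mod_cast hj
    nlinarith
  have hjr' : ((j' : ℝ) + 1) * η ≤ 1 / 3 := by
    have : (j' : ℝ) ≤ jm := by exact_mod_cast hj'
    nlinarith
  have hlog : 408 ≤ Real.log x := by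
    rw [Real.le_log_iff_exp_le hx0]
    exact hx4.trans (by exact_mod_cast hxf)
  intro l hl0
  have hlc : ∀ q ∈ Icc 1 ⌊(x : ℝ) ^ (1 / 2 - ε)⌋₊, (l q).Coprime q := fun q hq =>
    hl0 q (mem_Icc.mp hq).1
  -- the four mean values
  set G : ℕ → ℝ := fun a => gL x z η δ θ j j' a / 64 with hG
  have hG1 : ∀ m, |G m| ≤ 1 := by
    intro m
    simp only [hG]
    rw [abs_div, abs_of_pos (by norm_num : (0 : ℝ) < 64), div_le_one (by norm_num)]
    exact LevC_gL (by omega) hθ hl hl' m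
  have hG2 : ∀ m, G m ≠ 0 → ((3 * x : ℕ) : ℝ) ^ δ' ≤ m ∧ (m : ℝ) ≤ ((3 * x : ℕ) : ℝ) ^ (1 - δ') := by
    intro m hm
    refine LevC_supp (z := z) (η := η) (j := j) (j' := j') hxa hθ hδ (min_le_left _ _)
      (min_le_right _ _) m ?_
    intro h
    exact hm (by simp only [hG]; rw [h, zero_div])
  have hFB : ∀ (b : ℕ → ℕ) (n : ℕ), FB (gL x z η δ θ j j') b n = 64 * FB G b n := by
    intro b n
    unfold FB
    rw [mul_sum]
    refine sum_congr rfl fun p _ => ?_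
    simp only [hG]
    ring
  have bd : ∀ Y : ℕ, x ≤ Y → Y ≤ 3 * x →
      (Y : ℝ) / (Real.log Y) ^ (A + 1) ≤ 3 * x / (Real.log x) ^ (A + 1) := by
    intro Y hY1 hY2
    have h1 : Real.log x ≤ Real.log Y := Real.log_le_log hx0 (by exact_mod_cast hY1)
    have h2 : (Y : ℝ) ≤ 3 * x := by exact_mod_cast hY2
    have h3 : (Real.log x) ^ (A + 1) ≤ (Real.log Y) ^ (A + 1) :=
      pow_le_pow_left₀ (by linarith) h1 _
    have h4 : 0 < (Real.log x) ^ (A + 1) := by positivity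
    exact div_le_div₀ (by positivity) h2 h4 h3
  have s1 := (hx2 (2 * x + h0) (by omega) _ (LevC_Q (by omega) (by omega)) l hlc).trans
    (bd (2 * x + h0) (by omega) (by omega))
  have s2 := (hx2 (x + h0) (by omega) _ (LevC_Q (by omega) (by omega)) l hlc).trans
    (bd (x + h0) (by omega) (by omega))
  have s3 := (hx3 (3 * x) (by omega) _ (LevC_Q (by omega) (by omega)) G
    (fun a => (2 * x + h0) / a) hG1 hG2 l hlc).trans (bd (3 * x) (by omega) le_rfl)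
  have s4 := (hx3 (3 * x) (by omega) _ (LevC_Q (by omega) (by omega)) G
    (fun a => (x + h0) / a) hG1 hG2 l hlc).trans (bd (3 * x) (by omega) le_rfl)
  set κ : ℝ := lamC x z η j 1 * lamC x z η j' 1 / Real.log (3 * x) with hκ
  have hκ4 : |κ| ≤ 4 := by
    have h1 : 1 ≤ Real.log (3 * x) := by
      have : Real.log x ≤ Real.log (3 * x) := Real.log_le_log hx0 (by linarith)
      linarith
    rw [hκ, abs_div, abs_mul, abs_of_pos (by linarith : 0 < Real.log (3 * x)),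
      div_le_iff₀ (by linarith)]
    have h5 : |lamC x z η j 1| * |lamC x z η j' 1| ≤ 2 * 2 :=
      mul_le_mul (hl 1) (hl' 1) (abs_nonneg _) (by norm_num)
    linarith
  have key : ∀ q, |disc (fun m => if x + h0 < m ∧ m ≤ 2 * x + h0 then
      ew x δ θ m * (LC x z η j m * LC x z η j' m) else 0) (3 * x) q (l q)| ≤
      4 * (|EE th (2 * x + h0) q (l q)| + |EE th (x + h0) q (l q)|) +
      64 * (|EE (FB G (fun a => (2 * x + h0) / a)) (3 * x) q (l q)| +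
        |EE (FB G (fun a => (x + h0) / a)) (3 * x) q (l q)|) := by
    intro q
    rw [LevA_disc, LevA_EE_congr _ _ (3 * x) q (l q)
      (fun n hn => LevB_decomp h0 x z (by omega) hxb η δ θ hη hθ j j' hjr hjr' n hn),
      LevA_EE_add, LevA_EE_mul, LevA_EE_Ioc th (3 * x) (x + h0) (2 * x + h0) q (l q) (by omega)
      (by omega), LevA_EE_sub]
    have e1 : ∀ b : ℕ → ℕ, EE (FB (gL x z η δ θ j j') b) (3 * x) q (l q) =
        64 * EE (FB G b) (3 * x) q (l q) := by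
      intro b
      rw [← LevA_EE_mul]
      exact LevA_EE_congr _ _ _ _ _ fun n _ => hFB b n
    rw [e1, e1, ← hκ]
    refine (abs_add_le _ _).trans (add_le_add ?_ ?_)
    · rw [abs_mul]
      exact mul_le_mul hκ4 (abs_sub _ _) (abs_nonneg _) (by norm_num)
    · rw [← mul_sub, abs_mul, abs_of_pos (by norm_num : (0 : ℝ) < 64)]
      exact mul_le_mul_of_nonneg_left (abs_sub _ _) (by norm_num)
  calc ∑ q ∈ Icc 1 ⌊(x : ℝ) ^ (1 / 2 - ε)⌋₊, (K : ℝ) ^ q.primeFactors.card *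
        |disc (fun m => if x + h0 < m ∧ m ≤ 2 * x + h0 then
          ew x δ θ m * (LC x z η j m * LC x z η j' m) else 0) (3 * x) q (l q)|
      ≤ ∑ q ∈ Icc 1 ⌊(x : ℝ) ^ (1 / 2 - ε)⌋₊, (K : ℝ) ^ q.primeFactors.card *
        (4 * (|EE th (2 * x + h0) q (l q)| + |EE th (x + h0) q (l q)|) +
      64 * (|EE (FB G (fun a => (2 * x + h0) / a)) (3 * x) q (l q)| +
        |EE (FB G (fun a => (x + h0) / a)) (3 * x) q (l q)|)) :=
        sum_le_sum fun q _ => mul_le_mul_of_nonneg_left (key q) (by positivity)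
    _ = 4 * (∑ q ∈ Icc 1 ⌊(x : ℝ) ^ (1 / 2 - ε)⌋₊, (K : ℝ) ^ q.primeFactors.card *
          |EE th (2 * x + h0) q (l q)| + ∑ q ∈ Icc 1 ⌊(x : ℝ) ^ (1 / 2 - ε)⌋₊,
          (K : ℝ) ^ q.primeFactors.card * |EE th (x + h0) q (l q)|) +
        64 * (∑ q ∈ Icc 1 ⌊(x : ℝ) ^ (1 / 2 - ε)⌋₊, (K : ℝ) ^ q.primeFactors.card *
          |EE (FB G (fun a => (2 * x + h0) / a)) (3 * x) q (l q)| +
          ∑ q ∈ Icc 1 ⌊(x : ℝ) ^ (1 / 2 - ε)⌋₊, (K : ℝ) ^ q.primeFactors.card *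
          |EE (FB G (fun a => (x + h0) / a)) (3 * x) q (l q)|) := by
        rw [← sum_add_distrib, ← sum_add_distrib, mul_sum, mul_sum, ← sum_add_distrib]
        exact sum_congr rfl fun q _ => by ring
    _ ≤ 4 * (3 * x / (Real.log x) ^ (A + 1) + 3 * x / (Real.log x) ^ (A + 1)) +
        64 * (3 * x / (Real.log x) ^ (A + 1) + 3 * x / (Real.log x) ^ (A + 1)) := by
        gcongr
    _ = 408 / Real.log x * (x / (Real.log x) ^ A) := by
        rw [pow_succ]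
        field_simp
        ring
    _ ≤ x / (Real.log x) ^ A := by
        refine mul_le_of_le_one_left (by positivity) ?_
        rw [div_le_one (by linarith)]
        exact hlog

end Pool.Agent.Lib.MP_092512_nt.P3
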